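import Pool.Agent.Lib.MP_c5b475_co.KN.Mix

/-!
# KN/Sw: the double swap
-/

set_option autoImplicit false
set_option linter.unusedSectionVars false

namespace Pool.Agent.Lib.MP_c5b475_co.KN

open Finset

/-- sequential choice -/
theorem seq_choice {π Ω : Type*} [Fintype π] [DecidableEq π] [Nonempty Ω]
    (good : π → Ω → Prop) (conf : π → Ω → π → Ω → Prop)
    (hstep : ∀ (s : Finset π) (f : π → Ω) (a : π), a ∉ s →
      (∀ q ∈ s, ∀ r ∈ s, q ≠ r → ¬ conf q (f q) r (f r)) →
      ∃ ω, good a ω ∧ ∀ q ∈ s, ¬ conf a ω q (f q) ∧ ¬ conf q (f q) a ω) :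
    ∃ f : π → Ω, (∀ p, good p (f p)) ∧ ∀ p q, p ≠ q → ¬ conf p (f p) q (f q) := by
  have key : ∀ s : Finset π, ∃ f : π → Ω, (∀ p ∈ s, good p (f p)) ∧
      ∀ p ∈ s, ∀ q ∈ s, p ≠ q → ¬ conf p (f p) q (f q) := by
    intro s
    induction s using Finset.induction_on with
    | empty => exact ⟨fun _ => Classical.arbitrary Ω, by simp, by simp⟩
    | insert a s ha ih =>
      obtain ⟨f, h1, h2⟩ := ih
      obtain ⟨ω, h3, h4⟩ := hstep s f a ha h2
      have hne : ∀ q ∈ s, q ≠ a := fun q hq h => ha (h ▸ hq)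
      refine ⟨Function.update f a ω, ?_, ?_⟩
      · intro p hp
        rcases Finset.mem_insert.1 hp with rfl | hp
        · rw [Function.update_self]; exact h3
        · rw [Function.update_of_ne (hne p hp)]; exact h1 p hp
      · intro p hp q hq hpq
        rcases Finset.mem_insert.1 hp with hp1 | hp1
        · rcases Finset.mem_insert.1 hq with hq1 | hq1
          · exact absurd (hp1.trans hq1.symm) hpq
          · rw [hp1, Function.update_self, Function.update_of_ne (hne q hq1)]
            exact (h4 q hq1).1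
        · rcases Finset.mem_insert.1 hq with hq1 | hq1
          · rw [hq1, Function.update_self, Function.update_of_ne (hne p hp1)]
            exact (h4 p hp1).2
          · rw [Function.update_of_ne (hne q hq1), Function.update_of_ne (hne p hp1)]
            exact h2 p hp1 q hq1 hpq
  obtain ⟨f, h1, h2⟩ := key univ
  exact ⟨f, fun p => h1 p (mem_univ _), fun p q => h2 p (mem_univ _) q (mem_univ _)⟩

section sw

variable {ι π G : Type*} [Fintype ι] [DecidableEq ι] [Fintype π] [DecidableEq π]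
  [AddCommGroup G] [DecidableEq G]

theorem card_inj_filter {ι : Type*} [Fintype ι] {h : ι → G} (hh : Function.Injective h)
    (T : Finset G) : (univ.filter fun i => h i ∈ T).card ≤ T.card :=
  Finset.card_le_card_of_injOn h (fun i hi => by
    have := (Finset.mem_filter.1 (Finset.mem_coe.1 hi)).2
    exact Finset.mem_coe.2 this) hh.injOn

theorem card_sdiff_three {ι : Type*} [DecidableEq ι] {M a b c : Finset ι} {A k : ℕ}
    (hM : A ≤ M.card) (ha : a.card ≤ k) (hb : b.card ≤ k) (hc : c.card ≤ k) (hk : 6 * k ≤ A) :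
    A ≤ 2 * (M \ (a ∪ (b ∪ c))).card := by
  have h1 := Finset.le_card_sdiff (a ∪ (b ∪ c)) M
  have h2 := Finset.card_union_le a (b ∪ c)
  have h3 := Finset.card_union_le b c
  omega

/-- **Swap lemma.** Every unplaced `p` gets two items `i p`, `j p`. -/
theorem sw (x c : ι → G) (hx : Function.Injective x) (hc : Function.Injective c)
    (xp d : π → G) (Y1 Y2 Y3 : Finset G) (A B : ℕ)
    (h1 : ∀ p, A ≤ (univ.filter fun i => c i - xp p ∈ Y1).card)
    (h3 : ∀ p, A ≤ (univ.filter fun i => d p - x i ∈ Y3).card)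
    (h2 : ∀ X Z : Finset ι, A ≤ 2 * X.card → A ≤ 2 * Z.card →
      B ≤ ((X ×ˢ Z).filter fun q => c q.2 - x q.1 ∈ Y2).card)
    (h4 : 6 * Fintype.card π ≤ A) (h5 : (Fintype.card π + 1) * Fintype.card ι < B) :
    ∃ i j : π → ι, Function.Injective i ∧ Function.Injective j ∧ (∀ p q, i p ≠ j q) ∧
      (∀ p, c (i p) - xp p ∈ Y1) ∧ (∀ p, c (j p) - x (i p) ∈ Y2) ∧
      (∀ p, d p - x (j p) ∈ Y3) ∧ Function.Injective (fun p => c (i p) - xp p) ∧
      Function.Injective (fun p => c (j p) - x (i p)) ∧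
      Function.Injective (fun p => d p - x (j p)) := by
  rcases isEmpty_or_nonempty π with hπ | ⟨⟨p0⟩⟩
  · exact ⟨fun p => isEmptyElim p, fun p => isEmptyElim p, fun p => isEmptyElim p,
      fun p => isEmptyElim p, fun p => isEmptyElim p, fun p => isEmptyElim p,
      fun p => isEmptyElim p, fun p => isEmptyElim p, fun p => isEmptyElim p,
      fun p => isEmptyElim p, fun p => isEmptyElim p⟩
  have hπ : 0 < Fintype.card π := Fintype.card_pos_iff.2 ⟨p0⟩
  have hι : Nonempty ι := by
    by_contra h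
    rw [not_nonempty_iff] at h
    have h6 := h1 p0
    simp at h6
    omega
  obtain ⟨i0⟩ := hι
  have : Nonempty (ι × ι) := ⟨(i0, i0)⟩
  obtain ⟨f, hf1, hf2⟩ := seq_choice (π := π) (Ω := ι × ι)
    (fun p ω => c ω.1 - xp p ∈ Y1 ∧ c ω.2 - x ω.1 ∈ Y2 ∧ d p - x ω.2 ∈ Y3 ∧ ω.1 ≠ ω.2)
    (fun p ω q ω' => ω.1 = ω'.1 ∨ ω.2 = ω'.2 ∨ ω.1 = ω'.2 ∨ ω.2 = ω'.1 ∨
      c ω.1 - xp p = c ω'.1 - xp q ∨ c ω.2 - x ω.1 = c ω'.2 - x ω'.1 ∨
      d p - x ω.2 = d q - x ω'.2) (by
    intro s f a ha _
    have hk : s.card + 1 ≤ Fintype.card π := by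
      rw [← Finset.card_insert_of_notMem ha]
      exact Finset.card_le_univ _
    set X : Finset ι := (univ.filter fun i => c i - xp a ∈ Y1) \
      (s.image (fun q => (f q).1) ∪ (s.image (fun q => (f q).2) ∪
        univ.filter (fun i => c i - xp a ∈ s.image (fun q => c (f q).1 - xp q)))) with hX
    set Z : Finset ι := (univ.filter fun i => d a - x i ∈ Y3) \
      (s.image (fun q => (f q).1) ∪ (s.image (fun q => (f q).2) ∪
        univ.filter (fun i => d a - x i ∈ s.image (fun q => d q - x (f q).2)))) with hZ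
    have hXc : A ≤ 2 * X.card := by
      refine card_sdiff_three (k := s.card) (h1 a) Finset.card_image_le Finset.card_image_le
        (le_trans (card_inj_filter (fun i j h => hc (sub_left_injective h)) _)
          Finset.card_image_le) (by omega)
    have hZc : A ≤ 2 * Z.card := by
      refine card_sdiff_three (k := s.card) (h3 a) Finset.card_image_le Finset.card_image_le
        (le_trans (card_inj_filter (fun i j h => hx (sub_right_injective h)) _)
          Finset.card_image_le) (by omega)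
    have hP := h2 X Z hXc hZc
    set P := (X ×ˢ Z).filter fun q => c q.2 - x q.1 ∈ Y2 with hPdef
    set b1 : Finset (ι × ι) := univ.image (fun i => (i, i)) with hb1
    set b2 : Finset (ι × ι) := univ.filter (fun q => c q.2 - x q.1 ∈
      s.image (fun q => c (f q).2 - x (f q).1)) with hb2
    have hb1c : b1.card ≤ Fintype.card ι := Finset.card_image_le
    have hb2c : b2.card ≤ Fintype.card ι * s.card := by
      have h6 : b2.card ≤ ((univ : Finset ι) ×ˢ
          s.image (fun q => c (f q).2 - x (f q).1)).card := by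
        refine Finset.card_le_card_of_injOn (fun q => (q.1, c q.2 - x q.1)) ?_ ?_
        · intro q hq
          have := (Finset.mem_filter.1 (Finset.mem_coe.1 hq)).2
          exact Finset.mem_coe.2 (Finset.mem_product.2 ⟨Finset.mem_univ _, this⟩)
        · intro q _ q' _ h
          simp only [Prod.mk.injEq] at h
          obtain ⟨h7, h8⟩ := h
          rw [h7] at h8
          exact Prod.ext h7 (hc (sub_left_injective h8))
      rw [Finset.card_product] at h6
      exact le_trans h6 (Nat.mul_le_mul_left _ Finset.card_image_le)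
    have hlt : (b1 ∪ b2).card < P.card := by
      have h6 := Finset.card_union_le b1 b2
      have h7 : Fintype.card ι + Fintype.card ι * s.card ≤
          (Fintype.card π + 1) * Fintype.card ι := by
        have : (Fintype.card ι) * (1 + s.card) ≤ Fintype.card ι * (Fintype.card π + 1) :=
          Nat.mul_le_mul_left _ (by omega)
        calc Fintype.card ι + Fintype.card ι * s.card = Fintype.card ι * (1 + s.card) := by ring
          _ ≤ Fintype.card ι * (Fintype.card π + 1) := this
          _ = _ := by ring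
      omega
    obtain ⟨ω, hω, hω'⟩ := Finset.exists_mem_notMem_of_card_lt_card hlt
    have hω1 := (Finset.mem_filter.1 hω).2
    obtain ⟨hωX, hωZ⟩ := Finset.mem_product.1 (Finset.mem_filter.1 hω).1
    obtain ⟨hX1, hX2⟩ := Finset.mem_sdiff.1 hωX
    obtain ⟨hZ1, hZ2⟩ := Finset.mem_sdiff.1 hωZ
    have hX1' := (Finset.mem_filter.1 hX1).2
    have hZ1' := (Finset.mem_filter.1 hZ1).2
    have hne : ω.1 ≠ ω.2 := fun h => hω' (Finset.mem_union_left _
      (Finset.mem_image.2 ⟨ω.1, Finset.mem_univ _, Prod.ext rfl h⟩))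
    have hv : ∀ q ∈ s, c ω.2 - x ω.1 ≠ c (f q).2 - x (f q).1 := fun q hq h =>
      hω' (Finset.mem_union_right _ (Finset.mem_filter.2 ⟨Finset.mem_univ _,
        Finset.mem_image.2 ⟨q, hq, h.symm⟩⟩))
    have hX11 : ∀ q ∈ s, ω.1 ≠ (f q).1 := fun q hq h => hX2 (Finset.mem_union_left _
      (Finset.mem_image.2 ⟨q, hq, h.symm⟩))
    have hX12 : ∀ q ∈ s, ω.1 ≠ (f q).2 := fun q hq h => hX2 (Finset.mem_union_right _
      (Finset.mem_union_left _ (Finset.mem_image.2 ⟨q, hq, h.symm⟩)))
    have hX13 : ∀ q ∈ s, c ω.1 - xp a ≠ c (f q).1 - xp q := fun q hq h =>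
      hX2 (Finset.mem_union_right _ (Finset.mem_union_right _ (Finset.mem_filter.2
        ⟨Finset.mem_univ _, Finset.mem_image.2 ⟨q, hq, h.symm⟩⟩)))
    have hZ11 : ∀ q ∈ s, ω.2 ≠ (f q).1 := fun q hq h => hZ2 (Finset.mem_union_left _
      (Finset.mem_image.2 ⟨q, hq, h.symm⟩))
    have hZ12 : ∀ q ∈ s, ω.2 ≠ (f q).2 := fun q hq h => hZ2 (Finset.mem_union_right _
      (Finset.mem_union_left _ (Finset.mem_image.2 ⟨q, hq, h.symm⟩)))
    have hZ13 : ∀ q ∈ s, d a - x ω.2 ≠ d q - x (f q).2 := fun q hq h =>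
      hZ2 (Finset.mem_union_right _ (Finset.mem_union_right _ (Finset.mem_filter.2
        ⟨Finset.mem_univ _, Finset.mem_image.2 ⟨q, hq, h.symm⟩⟩)))
    refine ⟨ω, ⟨hX1', hω1, hZ1', hne⟩, fun q hq => ⟨?_, ?_⟩⟩
    · rintro (h | h | h | h | h | h | h)
      · exact hX11 q hq h
      · exact hZ12 q hq h
      · exact hX12 q hq h
      · exact hZ11 q hq h
      · exact hX13 q hq h
      · exact hv q hq h
      · exact hZ13 q hq h
    · rintro (h | h | h | h | h | h | h)
      · exact hX11 q hq h.symm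
      · exact hZ12 q hq h.symm
      · exact hZ11 q hq h.symm
      · exact hX12 q hq h.symm
      · exact hX13 q hq h.symm
      · exact hv q hq h.symm
      · exact hZ13 q hq h.symm)
  refine ⟨fun p => (f p).1, fun p => (f p).2, ?_, ?_, ?_, fun p => (hf1 p).1,
    fun p => (hf1 p).2.1, fun p => (hf1 p).2.2.1, ?_, ?_, ?_⟩
  · intro p q h
    by_contra hpq
    exact hf2 p q hpq (Or.inl h)
  · intro p q h
    by_contra hpq
    exact hf2 p q hpq (Or.inr (Or.inl h))
  · intro p q h
    by_cases hpq : p = q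
    · subst hpq
      exact (hf1 p).2.2.2 h
    · exact hf2 p q hpq (Or.inr (Or.inr (Or.inl h)))
  · intro p q h
    by_contra hpq
    exact hf2 p q hpq (Or.inr (Or.inr (Or.inr (Or.inr (Or.inl h)))))
  · intro p q h
    by_contra hpq
    exact hf2 p q hpq (Or.inr (Or.inr (Or.inr (Or.inr (Or.inr (Or.inl h))))))
  · intro p q h
    by_contra hpq
    exact hf2 p q hpq (Or.inr (Or.inr (Or.inr (Or.inr (Or.inr (Or.inr h))))))

end sw

/-- condition `h2` of the swap lemma from mixing -/
theorem sw_mix {n : ℕ} [NeZero n] {θ : ℝ} (hθ : 0 ≤ θ) {Y : Finset (ZMod n)} (hY : Aut θ Y)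
    {ι : Type*} [Fintype ι] [DecidableEq ι] (x c : ι → ZMod n) (hx : Function.Injective x)
    (hc : Function.Injective c) (X Z : Finset ι) :
    (X.card : ℝ) * Z.card * Y.card / n - √θ * (n : ℝ) ^ 2 ≤
      (((X ×ˢ Z).filter fun q => c q.2 - x q.1 ∈ Y).card : ℝ) := by
  have hn := nR_pos (n := n)
  have h1 := mix_neg hθ (zero_le_one (α := ℝ)) hY (lam := fun y => one (X.image x) y / n)
    (fun y => div_nonneg (one_nonneg _ _) hn.le)
    (fun y => div_le_div_of_nonneg_right (one_le _ _) hn.le) 0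
  have h2 : ∀ z : ZMod n, ∑ y, one (X.image x) y / n * one Y (z - (y + 0)) =
      ((X.filter fun i => z - x i ∈ Y).card : ℝ) / n := by
    intro z
    have h3 : ∀ y, one (X.image x) y / n * one Y (z - (y + 0)) =
        (if y ∈ X.image x then one Y (z - y) else 0) / n := by
      intro y
      unfold one
      rw [add_zero]
      split_ifs <;> ring
    simp only [h3]
    rw [← Finset.sum_div, Finset.sum_ite_mem, Finset.univ_inter,
      Finset.sum_image (fun a _ b _ h => hx h), Finset.card_filter]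
    push_cast
    rfl
  have h3 : ∑ y, one (X.image x) y / (n : ℝ) = (X.card : ℝ) / n := by
    rw [← Finset.sum_div, sum_one, Finset.card_image_of_injective _ hx]
  simp only [h2, h3] at h1
  have h4 : ∑ j ∈ Z, |((X.filter fun i => c j - x i ∈ Y).card : ℝ) / n -
      (X.card : ℝ) / n * Y.card / n| ≤ 1 * √θ * n := by
    refine le_trans ?_ h1
    rw [← Finset.sum_image (f := fun z => |((X.filter fun i => z - x i ∈ Y).card : ℝ) / n -
      (X.card : ℝ) / n * Y.card / n|) (fun a _ b _ h => hc h)]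
    exact Finset.sum_le_sum_of_subset_of_nonneg (Finset.subset_univ _) fun _ _ _ => abs_nonneg _
  have h5 : (((X ×ˢ Z).filter fun q => c q.2 - x q.1 ∈ Y).card : ℝ) =
      ∑ j ∈ Z, ((X.filter fun i => c j - x i ∈ Y).card : ℝ) := by
    rw [Finset.card_filter, Finset.sum_product_right]
    push_cast
    refine Finset.sum_congr rfl fun j _ => ?_
    rw [Finset.card_filter]
    push_cast
    rfl
  rw [h5]
  have h6 : ∀ j ∈ Z, (X.card : ℝ) * Y.card / n -
      n * |((X.filter fun i => c j - x i ∈ Y).card : ℝ) / n - (X.card : ℝ) / n * Y.card / n| ≤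
      ((X.filter fun i => c j - x i ∈ Y).card : ℝ) := by
    intro j _
    have h7 := neg_abs_le (((X.filter fun i => c j - x i ∈ Y).card : ℝ) / n -
      (X.card : ℝ) / n * Y.card / n)
    have h8 := mul_le_mul_of_nonneg_left h7 hn.le
    have h9 : (n : ℝ) * (((X.filter fun i => c j - x i ∈ Y).card : ℝ) / n -
      (X.card : ℝ) / n * Y.card / n) = ((X.filter fun i => c j - x i ∈ Y).card : ℝ) -
      (X.card : ℝ) * Y.card / n := by
      field_simp
    rw [h9] at h8
    linarith
  refine le_trans ?_ (Finset.sum_le_sum h6)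
  rw [Finset.sum_sub_distrib, Finset.sum_const, nsmul_eq_mul, ← Finset.mul_sum]
  have h10 := mul_le_mul_of_nonneg_left h4 hn.le
  have h11 : (n : ℝ) * (1 * √θ * n) = √θ * (n : ℝ) ^ 2 := by ring
  rw [h11] at h10
  have h12 : (X.card : ℝ) * Z.card * Y.card / n = Z.card * ((X.card : ℝ) * Y.card / n) := by ring
  rw [h12]
  linarith

end Pool.Agent.Lib.MP_c5b475_co.KN
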