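import Pool.Agent.Lib.MP_c5b475_co.KN.EDef
import Pool.Agent.Lib.MP_c5b475_co.KN.Sw

/-!
# KN/Bpa: absorption of pairs of single colours by bare paths of length 8

Path `z, l1, ..., l7, z + 1` with colours `g+1, s, s', h, k, h+1, k+1, g`, where `s' = s + 2η`,
`k = h - η - 1`:
`l1 = g+1-z`, `l2 = z+s-g-1`, `l3 = g+1-z+2η`, `l4 = z+h-2η-g-1`, `l5 = g-z+η`, `l6 = z+h+1-η-g`,
`l7 = g-1-z`.

Greedy over `k : β` (induction over a finset of `β`). `g`: from the `≥ B` elements of `K4` (with
`z := z k`, `s := s k`) exclude the used ones: `g` is one of the `3N` used starts or in `U` (at most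
`3N + |U|`); one of `l1, l3, l5, l7` is an old label or in `F1` (at most `4 (4N + |F1|)`), `l2` is an old
label or in `F2` (at most `3N + |F2|`). Inside the step `l1, l3, l5, l7` are distinct because `η, 2η` are
far (`F ≥ 3`; `F ≥ 1` and `cyd` of `0, 1, -1, 2, -2` is at most 2). Then `h` from `K5` with
`y := z - 2η - g - 1`: then `h + y = l4`, `h + y + η + 2 = l6`; exclude: `h` or `h - η - 1` is used or in
`U` (at most `2 (3N + |U|)`), `h = g`, `h - η - 1 = g`, `h = s + η - 2` (that is `l6 = l2`), `l4` or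
`l6` old or in `F2` (at most `2 (3N + |F2|)`). `l4 = l2` would give `h = s + 2η`, excluded by `hs`.
`l4 = l6` would give `η = -2`.
-/

set_option autoImplicit false

namespace Pool.Agent.Lib.MP_c5b475_co.KN

open Finset

/-- the four labels of the first side -/
def lB {n : ℕ} (z η g : ZMod n) (i : Fin 4) : ZMod n :=
  ![g + 1 - z, g + 1 - z + 2 * η, g - z + η, g - 1 - z] i

/-- the three labels of the second side -/
def lA {n : ℕ} (z s η g h : ZMod n) (i : Fin 3) : ZMod n :=
  ![z + s - g - 1, z + h - 2 * η - g - 1, z + h + 1 - η - g] i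

/-- the three starts of colour dominoes -/
def lJ {n : ℕ} (η g h : ZMod n) (i : Fin 3) : ZMod n := ![g, h, h - η - 1] i

private theorem bpa_val_le {n : ℕ} [NeZero n] (a : ℕ) : ((a : ℕ) : ZMod n).val ≤ a := by
  rw [ZMod.val_natCast]
  exact Nat.mod_le _ _

private theorem bpa_small {n : ℕ} [NeZero n] {x : ZMod n} (h : 3 ≤ cyd x) :
    x ≠ 0 ∧ x ≠ 1 ∧ x ≠ -1 ∧ x ≠ 2 ∧ x ≠ -2 := by
  have h1 : 3 ≤ x.val := le_trans h (min_le_left _ _)
  have h2 : 3 ≤ (-x).val := le_trans h (min_le_right _ _)
  have e1 : (1 : ZMod n).val ≤ 1 := by simpa using bpa_val_le (n := n) 1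
  have e2 : (2 : ZMod n).val ≤ 2 := by
    have := bpa_val_le (n := n) 2
    exact_mod_cast this
  refine ⟨?_, ?_, ?_, ?_, ?_⟩
  · rintro rfl
    simp at h1
  · rintro rfl
    omega
  · rintro rfl
    rw [neg_neg] at h2
    omega
  · rintro rfl
    omega
  · rintro rfl
    rw [neg_neg] at h2
    omega

private theorem bpa_pre {n : ℕ} [NeZero n] (T : Finset (ZMod n)) {h : ZMod n → ZMod n}
    (hh : Function.Injective h) : (univ.filter fun g => h g ∈ T).card ≤ T.card :=
  card_inj_filter hh T

private theorem bpa_used {n : ℕ} {β : Type} [DecidableEq β] (s : Finset β) (m : ℕ)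
    (v : β → Fin m → ZMod n) :
    ((s ×ˢ (univ : Finset (Fin m))).image fun q => v q.1 q.2).card ≤ m * s.card := by
  refine le_trans Finset.card_image_le ?_
  rw [Finset.card_product, Finset.card_univ, Fintype.card_fin, mul_comm]

private theorem bpa_mem_used {n : ℕ} {β : Type} [DecidableEq β] {s : Finset β} {m : ℕ}
    {v : β → Fin m → ZMod n} {q : β} (hq : q ∈ s) (i : Fin m) :
    v q i ∈ (s ×ˢ (univ : Finset (Fin m))).image fun q => v q.1 q.2 :=
  Finset.mem_image.2 ⟨(q, i), Finset.mem_product.2 ⟨hq, Finset.mem_univ _⟩, rfl⟩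

/-- choice of an element of `M` outside a small bad set -/
private theorem bpa_pick {n : ℕ} {M Bd : Finset (ZMod n)} {B : ℕ} (h1 : B ≤ M.card)
    (h2 : Bd.card < B) : ∃ g ∈ M, g ∉ Bd :=
  Finset.exists_mem_notMem_of_card_lt_card (lt_of_lt_of_le h2 h1)

theorem bpa {n : ℕ} [NeZero n] {β : Type} [Fintype β] [DecidableEq β] (F B : ℕ) (hF : 3 ≤ F)
    (J U R1 R2 F1 F2 : Finset (ZMod n)) (z s η : β → ZMod n) (hη : ∀ k, Far F (η k))
    (hs : ∀ k, s k + 2 * η k ∉ J)
    (K4 : ∀ z s η : ZMod n, Far F η → B ≤ (J.filter fun g => (∀ i, lB z η g i ∈ R1) ∧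
      z + s - g - 1 ∈ R2).card)
    (K5 : ∀ y η : ZMod n, Far F η → B ≤ (J.filter fun h => h - η - 1 ∈ J ∧ h + y ∈ R2 ∧
      h + y + η + 2 ∈ R2).card)
    (num : 30 * Fintype.card β + 4 * U.card + 5 * F1.card + 5 * F2.card + 10 ≤ B) :
    ∃ g h : β → ZMod n,
      (∀ k i, lJ (η k) (g k) (h k) i ∈ J ∧ lJ (η k) (g k) (h k) i ∉ U) ∧
      (∀ k i k' i', lJ (η k) (g k) (h k) i = lJ (η k') (g k') (h k') i' → k = k' ∧ i = i') ∧
      (∀ k i, lB (z k) (η k) (g k) i ∈ R1 ∧ lB (z k) (η k) (g k) i ∉ F1) ∧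
      (∀ k i k' i', lB (z k) (η k) (g k) i = lB (z k') (η k') (g k') i' → k = k' ∧ i = i') ∧
      (∀ k i, lA (z k) (s k) (η k) (g k) (h k) i ∈ R2 ∧
        lA (z k) (s k) (η k) (g k) (h k) i ∉ F2) ∧
      (∀ k i k' i', lA (z k) (s k) (η k) (g k) (h k) i =
        lA (z k') (s k') (η k') (g k') (h k') i' → k = k' ∧ i = i') := by
  obtain ⟨f, hf1, hf2⟩ := seq_choice (π := β) (Ω := ZMod n × ZMod n)
    (fun k ω => (∀ i, lJ (η k) ω.1 ω.2 i ∈ J ∧ lJ (η k) ω.1 ω.2 i ∉ U) ∧
      (∀ i i', lJ (η k) ω.1 ω.2 i = lJ (η k) ω.1 ω.2 i' → i = i') ∧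
      (∀ i, lB (z k) (η k) ω.1 i ∈ R1 ∧ lB (z k) (η k) ω.1 i ∉ F1) ∧
      (∀ i i', lB (z k) (η k) ω.1 i = lB (z k) (η k) ω.1 i' → i = i') ∧
      (∀ i, lA (z k) (s k) (η k) ω.1 ω.2 i ∈ R2 ∧ lA (z k) (s k) (η k) ω.1 ω.2 i ∉ F2) ∧
      (∀ i i', lA (z k) (s k) (η k) ω.1 ω.2 i = lA (z k) (s k) (η k) ω.1 ω.2 i' → i = i'))
    (fun k ω k' ω' => (∃ i i', lJ (η k) ω.1 ω.2 i = lJ (η k') ω'.1 ω'.2 i') ∨
      (∃ i i', lB (z k) (η k) ω.1 i = lB (z k') (η k') ω'.1 i') ∨
      (∃ i i', lA (z k) (s k) (η k) ω.1 ω.2 i = lA (z k') (s k') (η k') ω'.1 ω'.2 i')) (by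
    intro t f a ha _
    have hk : t.card + 1 ≤ Fintype.card β := by
      rw [← Finset.card_insert_of_notMem ha]
      exact Finset.card_le_univ _
    obtain ⟨f1, f2⟩ := hη a
    obtain ⟨p0, p1, p2, p3, p4⟩ := bpa_small (le_trans hF f1)
    obtain ⟨q0, q1, q2, q3, q4⟩ := bpa_small (le_trans hF f2)
    have h20 : (2 : ZMod n) ≠ 0 := by
      intro h
      apply q0
      rw [h, zero_mul]
    set uJ := (t ×ˢ (univ : Finset (Fin 3))).image fun q =>
      lJ (η q.1) (f q.1).1 (f q.1).2 q.2 with huJ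
    set uB := (t ×ˢ (univ : Finset (Fin 4))).image fun q =>
      lB (z q.1) (η q.1) (f q.1).1 q.2 with huB
    set uA := (t ×ˢ (univ : Finset (Fin 3))).image fun q =>
      lA (z q.1) (s q.1) (η q.1) (f q.1).1 (f q.1).2 q.2 with huA
    have cJ : uJ.card ≤ 3 * t.card := bpa_used t 3 fun q i => lJ (η q) (f q).1 (f q).2 i
    have cB : uB.card ≤ 4 * t.card := bpa_used t 4 fun q i => lB (z q) (η q) (f q).1 i
    have cA : uA.card ≤ 3 * t.card :=
      bpa_used t 3 fun q i => lA (z q) (s q) (η q) (f q).1 (f q).2 i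
    -- choice of `g`
    set bg : Finset (ZMod n) := (U ∪ uJ) ∪ ((univ.filter fun g => lB (z a) (η a) g 0 ∈ F1 ∪ uB) ∪
      ((univ.filter fun g => lB (z a) (η a) g 1 ∈ F1 ∪ uB) ∪
      ((univ.filter fun g => lB (z a) (η a) g 2 ∈ F1 ∪ uB) ∪
      ((univ.filter fun g => lB (z a) (η a) g 3 ∈ F1 ∪ uB) ∪
      (univ.filter fun g => z a + s a - g - 1 ∈ F2 ∪ uA))))) with hbg
    have i0 : Function.Injective fun g => lB (z a) (η a) g 0 := by
      intro g g' h
      simp only [lB, Matrix.cons_val_zero] at h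
      linear_combination h
    have i1 : Function.Injective fun g => lB (z a) (η a) g 1 := by
      intro g g' h
      simp only [lB, Matrix.cons_val_one, Matrix.cons_val_zero] at h
      linear_combination h
    have i2 : Function.Injective fun g => lB (z a) (η a) g 2 := by
      intro g g' h
      change g - z a + η a = g' - z a + η a at h
      linear_combination h
    have i3 : Function.Injective fun g => lB (z a) (η a) g 3 := by
      intro g g' h
      change g - 1 - z a = g' - 1 - z a at h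
      linear_combination h
    have i4 : Function.Injective fun g => z a + s a - g - 1 := by
      intro g g' h
      simp only at h
      linear_combination -h
    have cbg : bg.card < B := by
      have e0 := Finset.card_union_le (U ∪ uJ) ((univ.filter fun g => lB (z a) (η a) g 0 ∈ F1 ∪ uB) ∪
        ((univ.filter fun g => lB (z a) (η a) g 1 ∈ F1 ∪ uB) ∪
        ((univ.filter fun g => lB (z a) (η a) g 2 ∈ F1 ∪ uB) ∪
        ((univ.filter fun g => lB (z a) (η a) g 3 ∈ F1 ∪ uB) ∪
        (univ.filter fun g => z a + s a - g - 1 ∈ F2 ∪ uA)))))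
      have e1 := Finset.card_union_le (univ.filter fun g => lB (z a) (η a) g 0 ∈ F1 ∪ uB)
        ((univ.filter fun g => lB (z a) (η a) g 1 ∈ F1 ∪ uB) ∪
        ((univ.filter fun g => lB (z a) (η a) g 2 ∈ F1 ∪ uB) ∪
        ((univ.filter fun g => lB (z a) (η a) g 3 ∈ F1 ∪ uB) ∪
        (univ.filter fun g => z a + s a - g - 1 ∈ F2 ∪ uA))))
      have e2 := Finset.card_union_le (univ.filter fun g => lB (z a) (η a) g 1 ∈ F1 ∪ uB)
        ((univ.filter fun g => lB (z a) (η a) g 2 ∈ F1 ∪ uB) ∪
        ((univ.filter fun g => lB (z a) (η a) g 3 ∈ F1 ∪ uB) ∪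
        (univ.filter fun g => z a + s a - g - 1 ∈ F2 ∪ uA)))
      have e3 := Finset.card_union_le (univ.filter fun g => lB (z a) (η a) g 2 ∈ F1 ∪ uB)
        ((univ.filter fun g => lB (z a) (η a) g 3 ∈ F1 ∪ uB) ∪
        (univ.filter fun g => z a + s a - g - 1 ∈ F2 ∪ uA))
      have e4 := Finset.card_union_le (univ.filter fun g => lB (z a) (η a) g 3 ∈ F1 ∪ uB)
        (univ.filter fun g => z a + s a - g - 1 ∈ F2 ∪ uA)
      have e5 := Finset.card_union_le U uJ
      have e6 := Finset.card_union_le F1 uB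
      have e7 := Finset.card_union_le F2 uA
      have d0 := bpa_pre (F1 ∪ uB) i0
      have d1 := bpa_pre (F1 ∪ uB) i1
      have d2 := bpa_pre (F1 ∪ uB) i2
      have d3 := bpa_pre (F1 ∪ uB) i3
      have d4 := bpa_pre (F2 ∪ uA) i4
      rw [hbg]
      omega
    obtain ⟨g, hg, hgb⟩ := bpa_pick (K4 (z a) (s a) (η a) (hη a)) cbg
    obtain ⟨hgJ, hgB, hgA⟩ := Finset.mem_filter.1 hg
    rw [hbg] at hgb
    simp only [Finset.mem_union, Finset.mem_filter, Finset.mem_univ, true_and, not_or] at hgb
    obtain ⟨⟨g1, g2⟩, ⟨g3, g4⟩, ⟨g5, g6⟩, ⟨g7, g8⟩, ⟨g9, g10⟩, g11, g12⟩ := hgb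
    -- choice of `h`
    set bh : Finset (ZMod n) := (U ∪ uJ) ∪ ((univ.filter fun h => h - η a - 1 ∈ U ∪ uJ) ∪
      (({g} ∪ ({g + η a + 1} ∪ {s a + η a - 2})) ∪
      ((univ.filter fun h => z a + h - 2 * η a - g - 1 ∈ F2 ∪ uA) ∪
      (univ.filter fun h => z a + h + 1 - η a - g ∈ F2 ∪ uA)))) with hbh
    have cbh : bh.card < B := by
      have e0 := Finset.card_union_le (U ∪ uJ) ((univ.filter fun h => h - η a - 1 ∈ U ∪ uJ) ∪
        (({g} ∪ ({g + η a + 1} ∪ {s a + η a - 2})) ∪
        ((univ.filter fun h => z a + h - 2 * η a - g - 1 ∈ F2 ∪ uA) ∪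
        (univ.filter fun h => z a + h + 1 - η a - g ∈ F2 ∪ uA))))
      have e1 := Finset.card_union_le (univ.filter fun h => h - η a - 1 ∈ U ∪ uJ)
        (({g} ∪ ({g + η a + 1} ∪ {s a + η a - 2})) ∪
        ((univ.filter fun h => z a + h - 2 * η a - g - 1 ∈ F2 ∪ uA) ∪
        (univ.filter fun h => z a + h + 1 - η a - g ∈ F2 ∪ uA)))
      have e2 := Finset.card_union_le (({g} ∪ ({g + η a + 1} ∪ {s a + η a - 2})))
        ((univ.filter fun h => z a + h - 2 * η a - g - 1 ∈ F2 ∪ uA) ∪
        (univ.filter fun h => z a + h + 1 - η a - g ∈ F2 ∪ uA))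
      have e3 := Finset.card_union_le (univ.filter fun h => z a + h - 2 * η a - g - 1 ∈ F2 ∪ uA)
        (univ.filter fun h => z a + h + 1 - η a - g ∈ F2 ∪ uA)
      have e4 := Finset.card_union_le ({g} : Finset (ZMod n)) ({g + η a + 1} ∪ {s a + η a - 2})
      have e4' := Finset.card_union_le ({g + η a + 1} : Finset (ZMod n)) {s a + η a - 2}
      have e5 := Finset.card_union_le U uJ
      have e7 := Finset.card_union_le F2 uA
      have c1 : ({g} : Finset (ZMod n)).card = 1 := Finset.card_singleton _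
      have c2 : ({g + η a + 1} : Finset (ZMod n)).card = 1 := Finset.card_singleton _
      have c3 : ({s a + η a - 2} : Finset (ZMod n)).card = 1 := Finset.card_singleton _
      have d0 := bpa_pre (U ∪ uJ) (h := fun h => h - η a - 1) (fun x y h => by
        simp only at h
        linear_combination h)
      have d1 := bpa_pre (F2 ∪ uA) (h := fun h => z a + h - 2 * η a - g - 1) (fun x y h => by
        simp only at h
        linear_combination h)
      have d2 := bpa_pre (F2 ∪ uA) (h := fun h => z a + h + 1 - η a - g) (fun x y h => by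
        simp only at h
        linear_combination h)
      rw [hbh]
      omega
    obtain ⟨h, hh, hhb⟩ := bpa_pick (K5 (z a - 2 * η a - g - 1) (η a) (hη a)) cbh
    obtain ⟨hhJ, hhk, hh4, hh6⟩ := Finset.mem_filter.1 hh
    rw [hbh] at hhb
    simp only [Finset.mem_union, Finset.mem_filter, Finset.mem_univ, true_and, not_or,
      Finset.mem_singleton] at hhb
    obtain ⟨⟨h1, h2⟩, ⟨h3, h4⟩, ⟨h5, h6, h7⟩, ⟨h8, h9⟩, h10, h11⟩ := hhb
    have e4 : h + (z a - 2 * η a - g - 1) = z a + h - 2 * η a - g - 1 := by ring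
    have e6 : h + (z a - 2 * η a - g - 1) + η a + 2 = z a + h + 1 - η a - g := by ring
    rw [e4] at hh4
    rw [e6] at hh6
    have vJ : ∀ i, lJ (η a) g h i = g ∨ lJ (η a) g h i = h ∨ lJ (η a) g h i = h - η a - 1 := by
      intro i
      fin_cases i
      · exact Or.inl rfl
      · exact Or.inr (Or.inl rfl)
      · exact Or.inr (Or.inr rfl)
    have vA : ∀ i, lA (z a) (s a) (η a) g h i = z a + s a - g - 1 ∨
        lA (z a) (s a) (η a) g h i = z a + h - 2 * η a - g - 1 ∨
        lA (z a) (s a) (η a) g h i = z a + h + 1 - η a - g := by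
      intro i
      fin_cases i
      · exact Or.inl rfl
      · exact Or.inr (Or.inl rfl)
      · exact Or.inr (Or.inr rfl)
    have nJ : ∀ i, lJ (η a) g h i ∈ J ∧ lJ (η a) g h i ∉ U ∧ lJ (η a) g h i ∉ uJ := by
      intro i
      rcases vJ i with e | e | e <;> rw [e]
      · exact ⟨hgJ, g1, g2⟩
      · exact ⟨hhJ, h1, h2⟩
      · exact ⟨hhk, h3, h4⟩
    have nB : ∀ i, lB (z a) (η a) g i ∈ R1 ∧ lB (z a) (η a) g i ∉ F1 ∧
        lB (z a) (η a) g i ∉ uB := by
      intro i
      refine ⟨hgB i, ?_⟩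
      fin_cases i
      · exact ⟨g3, g4⟩
      · exact ⟨g5, g6⟩
      · exact ⟨g7, g8⟩
      · exact ⟨g9, g10⟩
    have nA : ∀ i, lA (z a) (s a) (η a) g h i ∈ R2 ∧ lA (z a) (s a) (η a) g h i ∉ F2 ∧
        lA (z a) (s a) (η a) g h i ∉ uA := by
      intro i
      rcases vA i with e | e | e <;> rw [e]
      · exact ⟨hgA, g11, g12⟩
      · exact ⟨hh4, h8, h9⟩
      · exact ⟨hh6, h10, h11⟩
    have hgh2 : g ≠ h - η a - 1 := fun e => h6 (by rw [e]; ring)
    refine ⟨(g, h), ⟨fun i => ⟨(nJ i).1, (nJ i).2.1⟩, ?_, fun i => ⟨(nB i).1, (nB i).2.1⟩, ?_,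
      fun i => ⟨(nA i).1, (nA i).2.1⟩, ?_⟩, ?_⟩
    · intro i i' e
      fin_cases i <;> fin_cases i'
      · rfl
      · exact absurd (show g = h from e) (Ne.symm h5)
      · exact absurd (show g = h - η a - 1 from e) hgh2
      · exact absurd (show h = g from e) h5
      · rfl
      · exact absurd (show h = h - η a - 1 from e) (fun e => p2 (by linear_combination e))
      · exact absurd (show h - η a - 1 = g from e).symm hgh2
      · exact absurd (show h - η a - 1 = h from e) (fun e => p2 (by linear_combination -e))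
      · rfl
    · intro i i' e
      fin_cases i <;> fin_cases i'
      · rfl
      · exact absurd (show g + 1 - z a = g + 1 - z a + 2 * η a from e)
          (fun e => q0 (by linear_combination -e))
      · exact absurd (show g + 1 - z a = g - z a + η a from e)
          (fun e => p1 (by linear_combination -e))
      · exact absurd (show g + 1 - z a = g - 1 - z a from e)
          (fun e => h20 (by linear_combination e))
      · exact absurd (show g + 1 - z a + 2 * η a = g + 1 - z a from e)
          (fun e => q0 (by linear_combination e))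
      · rfl
      · exact absurd (show g + 1 - z a + 2 * η a = g - z a + η a from e)
          (fun e => p2 (by linear_combination e))
      · exact absurd (show g + 1 - z a + 2 * η a = g - 1 - z a from e)
          (fun e => q4 (by linear_combination e))
      · exact absurd (show g - z a + η a = g + 1 - z a from e)
          (fun e => p1 (by linear_combination e))
      · exact absurd (show g - z a + η a = g + 1 - z a + 2 * η a from e)
          (fun e => p2 (by linear_combination -e))
      · rfl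
      · exact absurd (show g - z a + η a = g - 1 - z a from e)
          (fun e => p2 (by linear_combination e))
      · exact absurd (show g - 1 - z a = g + 1 - z a from e)
          (fun e => h20 (by linear_combination -e))
      · exact absurd (show g - 1 - z a = g + 1 - z a + 2 * η a from e)
          (fun e => q4 (by linear_combination -e))
      · exact absurd (show g - 1 - z a = g - z a + η a from e)
          (fun e => p2 (by linear_combination -e))
      · rfl
    · intro i i' e
      fin_cases i <;> fin_cases i'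
      · rfl
      · exact absurd (show z a + s a - g - 1 = z a + h - 2 * η a - g - 1 from e)
          (fun e => hs a (by
            have : s a + 2 * η a = h := by linear_combination e
            rw [this]
            exact hhJ))
      · exact absurd (show z a + s a - g - 1 = z a + h + 1 - η a - g from e)
          (fun e => h7 (by linear_combination -e))
      · exact absurd (show z a + h - 2 * η a - g - 1 = z a + s a - g - 1 from e)
          (fun e => hs a (by
            have : s a + 2 * η a = h := by linear_combination -e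
            rw [this]
            exact hhJ))
      · rfl
      · exact absurd (show z a + h - 2 * η a - g - 1 = z a + h + 1 - η a - g from e)
          (fun e => p4 (by linear_combination -e))
      · exact absurd (show z a + h + 1 - η a - g = z a + s a - g - 1 from e)
          (fun e => h7 (by linear_combination e))
      · exact absurd (show z a + h + 1 - η a - g = z a + h - 2 * η a - g - 1 from e)
          (fun e => p4 (by linear_combination e))
      · rfl
    · intro q hq
      have uJm : ∀ i, lJ (η q) (f q).1 (f q).2 i ∈ uJ := fun i =>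
        bpa_mem_used (v := fun q i => lJ (η q) (f q).1 (f q).2 i) hq i
      have uBm : ∀ i, lB (z q) (η q) (f q).1 i ∈ uB := fun i =>
        bpa_mem_used (v := fun q i => lB (z q) (η q) (f q).1 i) hq i
      have uAm : ∀ i, lA (z q) (s q) (η q) (f q).1 (f q).2 i ∈ uA := fun i =>
        bpa_mem_used (v := fun q i => lA (z q) (s q) (η q) (f q).1 (f q).2 i) hq i
      constructor
      · rintro (⟨i, i', e⟩ | ⟨i, i', e⟩ | ⟨i, i', e⟩)
        · exact (nJ i).2.2 (by rw [show lJ (η a) g h i = _ from e]; exact uJm i')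
        · exact (nB i).2.2 (by rw [show lB (z a) (η a) g i = _ from e]; exact uBm i')
        · exact (nA i).2.2 (by rw [show lA (z a) (s a) (η a) g h i = _ from e]; exact uAm i')
      · rintro (⟨i, i', e⟩ | ⟨i, i', e⟩ | ⟨i, i', e⟩)
        · exact (nJ i').2.2 (by rw [← show _ = lJ (η a) g h i' from e]; exact uJm i)
        · exact (nB i').2.2 (by rw [← show _ = lB (z a) (η a) g i' from e]; exact uBm i)
        · exact (nA i').2.2 (by rw [← show _ = lA (z a) (s a) (η a) g h i' from e]; exact uAm i))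
  refine ⟨fun k => (f k).1, fun k => (f k).2, fun k => (hf1 k).1, ?_, fun k => (hf1 k).2.2.1, ?_,
    fun k => (hf1 k).2.2.2.2.1, ?_⟩
  · intro k i k' i' e
    by_cases hkk : k = k'
    · subst hkk
      exact ⟨rfl, (hf1 k).2.1 i i' e⟩
    · exact absurd (Or.inl ⟨i, i', e⟩) (hf2 k k' hkk)
  · intro k i k' i' e
    by_cases hkk : k = k'
    · subst hkk
      exact ⟨rfl, (hf1 k).2.2.2.1 i i' e⟩
    · exact absurd (Or.inr (Or.inl ⟨i, i', e⟩)) (hf2 k k' hkk)
  · intro k i k' i' e
    by_cases hkk : k = k'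
    · subst hkk
      exact ⟨rfl, (hf1 k).2.2.2.2.2 i i' e⟩
    · exact absurd (Or.inr (Or.inr ⟨i, i', e⟩)) (hf2 k k' hkk)

end Pool.Agent.Lib.MP_c5b475_co.KN
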