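import Pool.Agent.Lib.MP_c5b475_co.KN.Tree

/-!
# KN/RT1: ancestors, sizes, depths

All proofs are short inductions on the number of steps. `anc_depth`: every vertex reaches the root in
`dep w` steps. `sz_mono`: every descendant of `w` is a descendant of `a`.
-/

set_option autoImplicit false

namespace Pool.Agent.Lib.MP_c5b475_co.KN

open Finset

namespace RTr

variable {W : Type} [Fintype W] [DecidableEq W]

theorem iter_root (t : RTr W) (i : ℕ) : t.par^[i] t.root = t.root := by
  exact Function.iterate_fixed t.par_root i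

theorem iter_dep (t : RTr W) (w : W) : t.par^[t.dep w] w = t.root := by
  generalize hk : t.dep w = k
  induction k generalizing w with
  | zero =>
    by_contra h
    have := t.dep_par w (fun h' => h h')
    omega
  | succ k ih =>
    have hw : w ≠ t.root := by
      rintro rfl
      rw [t.dep_root] at hk
      omega
    have := t.dep_par w hw
    rw [Function.iterate_succ_apply]
    exact ih (t.par w) (by omega)

/-- depth of an ancestor, as long as the root has not been reached before -/
theorem dep_iter (t : RTr W) (w : W) (i : ℕ) (h : ∀ j < i, t.par^[j] w ≠ t.root) :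
    t.dep w = t.dep (t.par^[i] w) + i := by
  induction i with
  | zero => rfl
  | succ i ih =>
    have h1 := ih (fun j hj => h j (by omega))
    have h2 := t.dep_par _ (h i (by omega))
    rw [Function.iterate_succ_apply']
    omega

/-- if the `i`-th ancestor is not the root then the earlier ones are not -/
theorem iter_ne_root (t : RTr W) {w : W} {i : ℕ} (h : t.par^[i] w ≠ t.root) :
    ∀ j ≤ i, t.par^[j] w ≠ t.root := by
  intro j hj hr
  apply h
  obtain ⟨k, rfl⟩ := Nat.exists_eq_add_of_le' hj
  rw [Function.iterate_add_apply, hr, iter_root]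

theorem dep_eq_zero (t : RTr W) {w : W} : t.dep w = 0 ↔ w = t.root := by
  constructor
  · intro h
    by_contra hw
    have := t.dep_par w hw
    omega
  · rintro rfl
    exact t.dep_root

theorem anc_refl (t : RTr W) (w : W) : t.Anc w w := ⟨0, rfl⟩

theorem anc_par (t : RTr W) (w : W) : t.Anc (t.par w) w := ⟨1, rfl⟩

theorem anc_trans (t : RTr W) {a b c : W} (h1 : t.Anc a b) (h2 : t.Anc b c) : t.Anc a c := by
  obtain ⟨i, hi⟩ := h1
  obtain ⟨j, hj⟩ := h2
  exact ⟨i + j, by rw [Function.iterate_add_apply, hj, hi]⟩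

theorem anc_root (t : RTr W) (w : W) : t.Anc t.root w := ⟨t.dep w, t.iter_dep w⟩

/-- two ancestors of one vertex are comparable -/
theorem anc_comp (t : RTr W) {a b w : W} (h1 : t.Anc a w) (h2 : t.Anc b w) :
    t.Anc a b ∨ t.Anc b a := by
  obtain ⟨i, hi⟩ := h1
  obtain ⟨j, hj⟩ := h2
  rcases le_total i j with h | h
  · right
    obtain ⟨k, rfl⟩ := Nat.exists_eq_add_of_le' h
    exact ⟨k, by rw [← hi, ← hj, Function.iterate_add_apply]⟩
  · left
    obtain ⟨k, rfl⟩ := Nat.exists_eq_add_of_le' h
    exact ⟨k, by rw [← hi, ← hj, Function.iterate_add_apply]⟩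

theorem anc_dep (t : RTr W) {a w : W} (h : t.Anc a w) : t.dep a ≤ t.dep w := by
  obtain ⟨i, hi⟩ := h
  subst hi
  induction i with
  | zero => exact le_rfl
  | succ i ih =>
    rw [Function.iterate_succ_apply']
    refine le_trans ?_ ih
    by_cases hr : t.par^[i] w = t.root
    · rw [hr, t.par_root]
    · have := t.dep_par _ hr
      omega

theorem anc_antisymm (t : RTr W) {a b : W} (h1 : t.Anc a b) (h2 : t.Anc b a) : a = b := by
  have h3 := t.anc_dep h2
  obtain ⟨i, hi⟩ := h1
  cases i with
  | zero => exact hi.symm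
  | succ i =>
    by_cases hb : b = t.root
    · subst hb
      rw [← hi, iter_root]
    · exfalso
      have h4 := t.dep_par b hb
      have h5 : t.Anc a (t.par b) := ⟨i, by rw [← hi, Function.iterate_succ_apply]⟩
      have h6 := t.anc_dep h5
      omega

theorem sz_pos (t : RTr W) (a : W) : 1 ≤ t.sz a := by
  classical
  unfold sz
  exact card_pos.2 ⟨a, mem_filter.2 ⟨mem_univ _, t.anc_refl a⟩⟩

theorem sz_mono (t : RTr W) {a w : W} (h : t.Anc a w) : t.sz w ≤ t.sz a := by
  classical
  unfold sz
  refine card_le_card fun x hx => ?_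
  rw [mem_filter] at hx ⊢
  exact ⟨mem_univ _, t.anc_trans h hx.2⟩

theorem sz_root (t : RTr W) : t.sz t.root = Fintype.card W := by
  classical
  unfold sz
  rw [filter_true_of_mem (fun x _ => t.anc_root x), card_univ]

theorem mem_ch (t : RTr W) {w c : W} : c ∈ t.ch w ↔ c ≠ t.root ∧ t.par c = w := by
  simp [ch]

theorem mem_nb (t : RTr W) {w v : W} :
    v ∈ t.nb w ↔ (v ≠ t.root ∧ t.par v = w) ∨ (w ≠ t.root ∧ v = t.par w) := by
  unfold nb
  rw [mem_union, mem_ch]
  by_cases hw : w = t.root
  · rw [if_pos hw]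
    constructor
    · rintro (h | h)
      · exact Or.inl h
      · exact absurd h (notMem_empty _)
    · rintro (h | h)
      · exact Or.inl h
      · exact absurd hw h.1
  · rw [if_neg hw, mem_singleton]
    constructor
    · rintro (h | h)
      · exact Or.inl h
      · exact Or.inr ⟨hw, h⟩
    · rintro (h | h)
      · exact Or.inl h
      · exact Or.inr h.2

/-- a child has larger depth -/
theorem dep_ch (t : RTr W) {w c : W} (h : c ∈ t.ch w) : t.dep c = t.dep w + 1 := by
  obtain ⟨h1, h2⟩ := t.mem_ch.1 h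
  rw [t.dep_par c h1, h2]

private theorem RT1_dep_eq (t : RTr W) {a b : W} (h1 : t.Anc a b) (h2 : t.dep a = t.dep b) :
    a = b := by
  obtain ⟨i, hi⟩ := h1
  cases i with
  | zero => exact hi.symm
  | succ i =>
    by_cases hb : b = t.root
    · subst hb
      rw [← hi, iter_root]
    · exfalso
      have h4 := t.dep_par b hb
      have h5 : t.Anc a (t.par b) := ⟨i, by rw [← hi, Function.iterate_succ_apply]⟩
      have h6 := t.anc_dep h5
      omega

private theorem RT1_step (t : RTr W) {w x : W} (h : t.Anc w x) (hx : x ≠ w) :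
    ∃ c ∈ t.ch w, t.Anc c x := by
  classical
  have h' : ∃ i : ℕ, t.par^[i] x = w := h
  have h1 := Nat.find_spec h'
  have h2 : Nat.find h' ≠ 0 := by
    intro h0
    rw [h0] at h1
    exact hx h1
  obtain ⟨k, hk⟩ := Nat.exists_eq_succ_of_ne_zero h2
  have h3 : t.par^[k] x ≠ w := Nat.find_min h' (by omega)
  rw [hk, Nat.succ_eq_add_one, Function.iterate_succ_apply'] at h1
  refine ⟨t.par^[k] x, t.mem_ch.2 ⟨?_, h1⟩, ⟨k, rfl⟩⟩
  intro hr
  rw [hr, t.par_root] at h1
  exact h3 (hr.trans h1)

private theorem sz_eq_aux (t : RTr W) (w : W) : t.sz w = 1 + ∑ c ∈ t.ch w, t.sz c := by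
  classical
  have h1 : (univ.filter fun x => t.Anc w x) =
      insert w ((t.ch w).biUnion fun c => univ.filter fun x => t.Anc c x) := by
    ext x
    rw [mem_filter, mem_insert, mem_biUnion]
    constructor
    · rintro ⟨_, hx⟩
      by_cases hxw : x = w
      · exact Or.inl hxw
      · obtain ⟨c, hc, hcx⟩ := RT1_step t hx hxw
        exact Or.inr ⟨c, hc, mem_filter.2 ⟨mem_univ _, hcx⟩⟩
    · rintro (rfl | ⟨c, hc, hx⟩)
      · exact ⟨mem_univ _, t.anc_refl x⟩
      · refine ⟨mem_univ _, t.anc_trans ?_ (mem_filter.1 hx).2⟩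
        rw [← (t.mem_ch.1 hc).2]
        exact t.anc_par c
  have h2 : w ∉ (t.ch w).biUnion fun c => univ.filter fun x => t.Anc c x := by
    rw [mem_biUnion]
    rintro ⟨c, hc, hx⟩
    have h3 := t.anc_dep (mem_filter.1 hx).2
    obtain ⟨h4, h5⟩ := t.mem_ch.1 hc
    have h6 := t.dep_par c h4
    rw [h5] at h6
    omega
  have h3 : ∀ c ∈ t.ch w, ∀ d ∈ t.ch w, c ≠ d → Disjoint (univ.filter fun x => t.Anc c x)
      (univ.filter fun x => t.Anc d x) := by
    intro c hc d hd hcd
    rw [disjoint_left]
    intro x hx hx'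
    obtain ⟨h4, h5⟩ := t.mem_ch.1 hc
    obtain ⟨h6, h7⟩ := t.mem_ch.1 hd
    have h8 := t.dep_par c h4
    have h9 := t.dep_par d h6
    rw [h5] at h8
    rw [h7] at h9
    rcases t.anc_comp (mem_filter.1 hx).2 (mem_filter.1 hx').2 with h | h
    · exact hcd (RT1_dep_eq t h (by omega))
    · exact hcd (RT1_dep_eq t h (by omega)).symm
  unfold sz
  rw [h1, card_insert_of_notMem h2, card_biUnion h3, add_comm]

/-- a vertex without children is its only descendant -/
theorem sz_leaf (t : RTr W) {w : W} (h : t.ch w = ∅) : t.sz w = 1 := by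
  classical
  rw [sz_eq_aux t w, h, sum_empty, add_zero]

/-- the size is one more than the sum of the sizes of the children -/
theorem sz_eq (t : RTr W) (w : W) : t.sz w = 1 + ∑ c ∈ t.ch w, t.sz c := by
  exact sz_eq_aux t w

end RTr

end Pool.Agent.Lib.MP_c5b475_co.KN
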