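import Pool.Agent.Lib.MP_c5b475_co.KN.CfgD
import Pool.Agent.Lib.MP_c5b475_co.KN.RT1

/-!
# KN/BudL: counting vertices for the budgets

Every vertex `w ≠ root` either has a parent outside `Hub` (counted in `nk` resp. `ncl`) or is a child of
exactly one hub `h = par w` (counted in `nch X h (kd w)`). `nclJ`: a vertex of kind `L` is not the root
(`rootk`), its parent has kind `P0`, hubs have kind `A` or `B`; class `J` means kind `L`.
`wd_sum` (width 2 of the domino kinds): domino vertices are not the root and not children of hubs.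
-/

set_option autoImplicit false

namespace Pool.Agent.Lib.MP_c5b475_co.KN

open Finset

variable {n : ℕ} {W : Type} [Fintype W] [DecidableEq W]

/-- children of hubs, by kinds -/
private theorem BudL_hub (X : KT W Kd5 Ps2) (Hub : Finset W) (K : Finset Kd5) :
    ∑ h ∈ Hub, ∑ k ∈ K, Cfg.nch X h k =
    (univ.filter fun w => w ≠ X.t.root ∧ X.kd w ∈ K ∧ X.t.par w ∈ Hub).card := by
  have h1 : (univ.filter fun w => w ≠ X.t.root ∧ X.kd w ∈ K ∧ X.t.par w ∈ Hub).card =
      ∑ h ∈ Hub, ((univ.filter fun w => w ≠ X.t.root ∧ X.kd w ∈ K ∧ X.t.par w ∈ Hub).filter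
        fun w => X.t.par w = h).card := by
    apply card_eq_sum_card_fiberwise
    intro w hw
    exact (mem_filter.1 (mem_coe.1 hw)).2.2.2
  rw [h1]
  apply sum_congr rfl
  intro h hh
  have h2 : ((univ.filter fun w => w ≠ X.t.root ∧ X.kd w ∈ K ∧ X.t.par w ∈ Hub).filter
        fun w => X.t.par w = h).card = ∑ k ∈ K, (((univ.filter fun w => w ≠ X.t.root ∧
        X.kd w ∈ K ∧ X.t.par w ∈ Hub).filter fun w => X.t.par w = h).filter
        fun w => X.kd w = k).card := by
    apply card_eq_sum_card_fiberwise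
    intro w hw
    exact (mem_filter.1 (mem_filter.1 (mem_coe.1 hw)).1).2.2.1
  rw [h2]
  apply sum_congr rfl
  intro k hk
  unfold Cfg.nch
  congr 1
  ext w
  rw [mem_filter, mem_filter, mem_filter, mem_filter]
  unfold RTr.ch
  rw [mem_filter]
  constructor
  · rintro ⟨⟨_, h3, h4⟩, h5⟩
    refine ⟨⟨⟨mem_univ _, h3, ?_, ?_⟩, h4⟩, h5⟩
    · rw [h5]
      exact hk
    · rw [h4]
      exact hh
  · rintro ⟨⟨⟨_, h3, _, _⟩, h4⟩, h5⟩
    exact ⟨⟨mem_univ _, h3, h4⟩, h5⟩

theorem nk_sum (X : KT W Kd5 Ps2) (Hub : Finset W) (s : Bool) :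
    ∑ k ∈ univ.filter (fun k : Kd5 => k.sd = s), nk X Hub k +
      ∑ h ∈ Hub, ∑ k ∈ univ.filter (fun k : Kd5 => k.sd = s), Cfg.nch X h k =
    (univ.filter fun w => w ≠ X.t.root ∧ (X.kd w).sd = s).card := by
  have h1 : ∑ k ∈ univ.filter (fun k : Kd5 => k.sd = s), nk X Hub k =
      (univ.filter fun w => w ≠ X.t.root ∧ (X.kd w).sd = s ∧ X.t.par w ∉ Hub).card := by
    have h2 : (univ.filter fun w => w ≠ X.t.root ∧ (X.kd w).sd = s ∧ X.t.par w ∉ Hub).card =
        ∑ k ∈ univ.filter (fun k : Kd5 => k.sd = s), ((univ.filter fun w => w ≠ X.t.root ∧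
          (X.kd w).sd = s ∧ X.t.par w ∉ Hub).filter fun w => X.kd w = k).card := by
      apply card_eq_sum_card_fiberwise
      intro w hw
      exact mem_coe.2 (mem_filter.2 ⟨mem_univ _, (mem_filter.1 (mem_coe.1 hw)).2.2.1⟩)
    rw [h2]
    apply sum_congr rfl
    intro k hk
    unfold nk
    congr 1
    ext w
    rw [mem_filter, mem_filter, mem_filter]
    constructor
    · rintro ⟨_, h3, h4, h5⟩
      refine ⟨⟨mem_univ _, h3, ?_, h5⟩, h4⟩
      rw [h4]
      exact (mem_filter.1 hk).2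
    · rintro ⟨⟨_, h3, _, h5⟩, h4⟩
      exact ⟨mem_univ _, h3, h4, h5⟩
  rw [h1, BudL_hub]
  rw [← card_union_of_disjoint]
  · congr 1
    ext w
    rw [mem_union, mem_filter, mem_filter, mem_filter, mem_filter]
    by_cases h3 : X.t.par w ∈ Hub
    · simp [h3]
    · simp [h3]
  · rw [disjoint_left]
    intro w h3 h4
    exact (mem_filter.1 h3).2.2.2 (mem_filter.1 h4).2.2.2

theorem ncl_sum (X : KT W Kd5 Ps2) (hcl : X.cl = Kd5.cl) (Hub : Finset W) :
    ncl X Hub Ps2.o + ncl X Hub Ps2.J + ∑ h ∈ Hub, ∑ k : Kd5, Cfg.nch X h k + 1 =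
      Fintype.card W := by
  have h0 : ∑ h ∈ Hub, ∑ k : Kd5, Cfg.nch X h k =
      (univ.filter fun w => w ≠ X.t.root ∧ X.t.par w ∈ Hub).card := by
    rw [BudL_hub]
    congr 1
    ext w
    rw [mem_filter, mem_filter]
    simp
  have h1 : ncl X Hub Ps2.o + ncl X Hub Ps2.J =
      (univ.filter fun w => w ≠ X.t.root ∧ X.t.par w ∉ Hub).card := by
    unfold ncl
    rw [← card_union_of_disjoint]
    · congr 1
      ext w
      rw [mem_union, mem_filter, mem_filter, mem_filter]
      constructor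
      · rintro (⟨h3, h4, _, h5⟩ | ⟨h3, h4, _, h5⟩)
        · exact ⟨h3, h4, h5⟩
        · exact ⟨h3, h4, h5⟩
      · rintro ⟨h3, h4, h5⟩
        cases hc : X.cl (X.kd w)
        · exact Or.inl ⟨h3, h4, rfl, h5⟩
        · exact Or.inr ⟨h3, h4, rfl, h5⟩
    · rw [disjoint_left]
      intro w h3 h4
      have h5 := (mem_filter.1 h3).2.2.1
      have h6 := (mem_filter.1 h4).2.2.1
      rw [h5] at h6
      exact absurd h6 (by decide)
  have h2 : (univ.filter fun w => w ≠ X.t.root ∧ X.t.par w ∉ Hub).card +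
      (univ.filter fun w => w ≠ X.t.root ∧ X.t.par w ∈ Hub).card =
      (univ.erase X.t.root).card := by
    rw [← card_union_of_disjoint]
    · congr 1
      ext w
      rw [mem_union, mem_filter, mem_filter, mem_erase]
      by_cases h3 : X.t.par w ∈ Hub
      · simp [h3]
      · simp [h3]
    · rw [disjoint_left]
      intro w h3 h4
      exact (mem_filter.1 h3).2.2 (mem_filter.1 h4).2.2
  have h3 : (univ.erase X.t.root).card + 1 = Fintype.card W :=
    card_erase_add_one (mem_univ _)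
  rw [h0]
  omega

theorem nclJ {dm : Bool} {X : KT W Kd5 Ps2} (hS : Std dm X) {Hub : Finset W} {κ : ℝ} {h0 : ℕ}
    (hub : HubOK X Hub κ h0 n) :
    ncl X Hub Ps2.J = (univ.filter fun w => X.kd w = Kd5.L).card := by
  unfold ncl
  congr 1
  ext w
  rw [mem_filter, mem_filter, hS.cl]
  constructor
  · rintro ⟨_, _, h1, _⟩
    refine ⟨mem_univ _, ?_⟩
    revert h1
    cases X.kd w <;> decide
  · rintro ⟨_, h1⟩
    refine ⟨mem_univ _, ?_, ?_, ?_⟩
    · intro h2
      have h3 := hS.rootk
      rw [← h2, h1] at h3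
      rcases h3 with h3 | h3
      · exact absurd h3 (by decide)
      · exact absurd h3 (by decide)
    · rw [h1]
      rfl
    · intro h2
      have h3 := hub.hub_kd _ h2
      rw [hS.spar w h1] at h3
      rcases h3 with h3 | h3
      · exact absurd h3 (by decide)
      · exact absurd h3 (by decide)

/-- the left side of the label budget, up to the constants -/
theorem wd_sum {X : KT W Kd5 Ps2} (hS : Std true X) {Hub : Finset W} {κ : ℝ} {h0 : ℕ}
    (hub : HubOK X Hub κ h0 n) (s : Bool) :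
    ∑ k ∈ univ.filter (fun k : Kd5 => k.sd = s), Kd5.wd true k * (nk X Hub k : ℝ) +
      ∑ h ∈ Hub, ∑ k ∈ univ.filter (fun k : Kd5 => k.sd = s), (Cfg.nch X h k : ℝ) ≤
    ((univ.filter fun w => (X.kd w).sd = s).card : ℝ) + (if s = true then
      ((univ.filter fun w => X.kd w = Kd5.P0).card : ℝ) +
      ((univ.filter fun w => X.kd w = Kd5.P1).card : ℝ) else 0) := by
  have h1 := nk_sum X Hub s
  have h2 : (univ.filter fun w => w ≠ X.t.root ∧ (X.kd w).sd = s).card ≤
      (univ.filter fun w => (X.kd w).sd = s).card :=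
    card_le_card (fun w hw => mem_filter.2 ⟨mem_univ _, (mem_filter.1 hw).2.2⟩)
  have h3 : nk X Hub Kd5.P0 ≤ (univ.filter fun w => X.kd w = Kd5.P0).card :=
    card_le_card (fun w hw => mem_filter.2 ⟨mem_univ _, (mem_filter.1 hw).2.2.1⟩)
  have h4 : nk X Hub Kd5.P1 ≤ (univ.filter fun w => X.kd w = Kd5.P1).card :=
    card_le_card (fun w hw => mem_filter.2 ⟨mem_univ _, (mem_filter.1 hw).2.2.1⟩)
  have h5 : (∑ k ∈ univ.filter (fun k : Kd5 => k.sd = s), (nk X Hub k : ℝ)) +
      ∑ h ∈ Hub, ∑ k ∈ univ.filter (fun k : Kd5 => k.sd = s), (Cfg.nch X h k : ℝ) ≤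
      ((univ.filter fun w => (X.kd w).sd = s).card : ℝ) := by
    have h6 : (∑ k ∈ univ.filter (fun k : Kd5 => k.sd = s), nk X Hub k) +
        ∑ h ∈ Hub, ∑ k ∈ univ.filter (fun k : Kd5 => k.sd = s), Cfg.nch X h k ≤
        (univ.filter fun w => (X.kd w).sd = s).card := by
      rw [h1]
      exact h2
    exact_mod_cast h6
  have h3' : (nk X Hub Kd5.P0 : ℝ) ≤ ((univ.filter fun w => X.kd w = Kd5.P0).card : ℝ) := by
    exact_mod_cast h3
  have h4' : (nk X Hub Kd5.P1 : ℝ) ≤ ((univ.filter fun w => X.kd w = Kd5.P1).card : ℝ) := by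
    exact_mod_cast h4
  have h6 : ∑ k ∈ univ.filter (fun k : Kd5 => k.sd = s), Kd5.wd true k * (nk X Hub k : ℝ) =
      (∑ k ∈ univ.filter (fun k : Kd5 => k.sd = s), (nk X Hub k : ℝ)) +
      (if s = true then (nk X Hub Kd5.P0 : ℝ) + (nk X Hub Kd5.P1 : ℝ) else 0) := by
    cases s
    · have e1 : univ.filter (fun k : Kd5 => k.sd = false) = {Kd5.B, Kd5.L} := by decide
      rw [e1, sum_pair (by decide), sum_pair (by decide)]
      have w1 : Kd5.wd true Kd5.B = 1 := by
        unfold Kd5.wd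
        exact if_neg (by decide)
      have w2 : Kd5.wd true Kd5.L = 1 := by
        unfold Kd5.wd
        exact if_neg (by decide)
      rw [w1, w2]
      simp
    · have e1 : univ.filter (fun k : Kd5 => k.sd = true) = {Kd5.A, Kd5.P0, Kd5.P1} := by decide
      rw [e1, sum_insert (by decide), sum_pair (by decide), sum_insert (by decide),
        sum_pair (by decide)]
      have w1 : Kd5.wd true Kd5.A = 1 := by
        unfold Kd5.wd
        exact if_neg (by decide)
      have w2 : Kd5.wd true Kd5.P0 = 2 := by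
        unfold Kd5.wd
        exact if_pos (by decide)
      have w3 : Kd5.wd true Kd5.P1 = 2 := by
        unfold Kd5.wd
        exact if_pos (by decide)
      rw [w1, w2, w3]
      simp
      ring
  rw [h6]
  split_ifs with hs
  · rw [if_pos hs] at h6
    linarith
  · linarith

end Pool.Agent.Lib.MP_c5b475_co.KN
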