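import Pool.Agent.Lib.MP_c5b475_co.KN.CfE

/-!
# KN/CfA: all fields of CfgOK
-/

set_option autoImplicit false
set_option linter.unusedSectionVars false
set_option linter.unusedVariables false

namespace Pool.Agent.Lib.MP_c5b475_co.KN.Cf

open Finset

variable {N : ℕ} {n : ℕ} [NeZero n] {W : Type} [Fintype W] [DecidableEq W] {dm : Bool}
  {X : KT W Kd5 Ps2} {Hub : Finset W} {hi : W → Fin N} {q : ℕ}
  {ρ ρR ρ1 ρC ρE ρH β τ μ δ e : ℝ} {L : ℕ} {mu : Sq9 → Ty N → ℝ} {D : Dens N}
  {w : Sq9 → ℕ → Ty N}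

theorem Ctx.cO (H : Ctx n dm X Hub hi q ρ ρR ρ1 ρC ρE ρH β τ μ δ e L mu D w) :
    |((pset (n := n) w L (gQ dm L 0)).card : ℝ) - ((ncl X Hub Ps2.o : ℝ) + (β + δ) * n)| ≤
      2 * e * n := by
  have hn := nR_pos (n := n)
  have h1 := H.cnt.card H.zone' (by norm_num) DQ (gQ dm L 0) (D.dQ 0) (dep_gQ dm L 0)
    (fun p hp => H.law.pQ 0 p hp)
  have h2 : (n : ℝ) * D.dQ 0 = (ncl X Hub Ps2.o : ℝ) + (β + δ) * n := by
    rw [H.dQo]
    field_simp
    ring
  rw [h2] at h1
  exact h1

/-- relation between product of sizes and count of pairs -/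
theorem mass_aux {n a b e θ β A B P : ℝ} (hn : 0 < n) (he : 0 < e) (hβ : 0 < β) (ha : β ≤ a)
    (ha1 : a ≤ 1) (hb : β ≤ b) (hb1 : b ≤ 1) (hθ : 10 * e ≤ θ * β ^ 2) (hA : |A - n * a| ≤ 2 * e * n)
    (hB : |B - n * b| ≤ 2 * e * n) (hP : |P - n * (a * b)| ≤ 2 * e * n) (hA0 : 0 ≤ A) (hB0 : 0 ≤ B)
    (hAn : A ≤ n) (hBn : B ≤ n) (hP0 : 0 ≤ P) :
    (1 - θ) * (A * B / n) ≤ P := by
  obtain ⟨hA1, hA2⟩ := abs_le.1 hA
  obtain ⟨hB1, hB2⟩ := abs_le.1 hB
  obtain ⟨hP1, hP2⟩ := abs_le.1 hP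
  have hθ0 : 0 ≤ θ := by
    by_contra h
    push Not at h
    have : θ * β ^ 2 < 0 := mul_neg_of_neg_of_pos h (by positivity)
    linarith
  by_cases h1 : 1 ≤ θ
  · have h2 : 0 ≤ A * B / n := by positivity
    nlinarith
  · push Not at h1
    -- A * B ≤ n^2 (a b) + 4 e n^2
    have h2 : A * B / n ≤ n * (a * b) + 4 * e * n := by
      rw [div_le_iff₀ hn]
      have h3 : A * B ≤ (n * a + 2 * e * n) * B := mul_le_mul_of_nonneg_right (by linarith) hB0
      have h4 : n * a * B ≤ n * a * (n * b + 2 * e * n) :=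
        mul_le_mul_of_nonneg_left (by linarith) (by nlinarith)
      have h5 : 2 * e * n * B ≤ 2 * e * n * n := mul_le_mul_of_nonneg_left hBn (by positivity)
      have h6 : n * a * (2 * e * n) ≤ n * 1 * (2 * e * n) :=
        mul_le_mul_of_nonneg_right (mul_le_mul_of_nonneg_left ha1 hn.le) (by positivity)
      nlinarith
    have h3 : (1 - θ) * (A * B / n) ≤ (1 - θ) * (n * (a * b) + 4 * e * n) :=
      mul_le_mul_of_nonneg_left h2 (by linarith)
    have h4 : β ^ 2 ≤ a * b := by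
      have := mul_le_mul ha hb hβ.le (hβ.le.trans ha)
      nlinarith
    have h5 : θ * β ^ 2 ≤ θ * (a * b) := mul_le_mul_of_nonneg_left h4 hθ0
    have h6 : n * (10 * e) ≤ n * (θ * (a * b)) := mul_le_mul_of_nonneg_left (by linarith) hn.le
    have h7 : (1 - θ) * (n * (a * b) + 4 * e * n) ≤ n * (a * b) - n * (θ * (a * b)) + 4 * e * n := by
      have : 0 ≤ θ * (4 * e * n) := by positivity
      nlinarith
    nlinarith

theorem Ctx.mass (H : Ctx n dm X Hub hi q ρ ρR ρ1 ρC ρE ρH β τ μ δ e L mu D w) {θ : ℝ}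
    (hθ2 : 10 * e ≤ θ * β ^ 2) (k : Kd5) (j : Fin 4) (hj : j = 0 ∨ j = 1) (x : ZMod n)
    (hx : Zn L x) (o : ℕ) (ho : o ≤ 1) :
    (1 - θ) * (((pset (n := n) w L (gS dm L k)).card : ℝ) *
      ((pset (n := n) w L (gQ dm L j)).card : ℝ) / n) ≤
      (((pset (n := n) w L (gS dm L k)).filter
        fun y => x + (o : ZMod n) + y ∈ pset w L (gQ dm L j)).card : ℝ) := by
  have hn := nR_pos (n := n)
  have hL := H.det.big
  have hcd : L ≤ CF.cd (x + (o : ZMod n)) := by
    refine cd_shift (a := x) (k := 1) ?_ ?_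
    · unfold Zn at hx
      omega
    · have h1 : x + (o : ZMod n) - x = (o : ZMod n) := by ring
      rw [h1]
      exact le_trans (cd_nat o) ho
  have h1 := H.cnt.pair H.zone' (by norm_num) (DS k) DQ (gS dm L k) (gQ dm L j) (D.dS k) (D.dQ j)
    (dep_gS dm L k) (dep_gQ dm L j) (fun p hp => H.law.pS k p hp) (fun p hp => H.law.pQ j p hp)
    (x + (o : ZMod n)) (fun _ => hcd)
  have h2 := H.cnt.card H.zone' (by norm_num) (DS k) (gS dm L k) (D.dS k) (dep_gS dm L k)
    (fun p hp => H.law.pS k p hp)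
  have h3 := H.cnt.card H.zone' (by norm_num) DQ (gQ dm L j) (D.dQ j) (dep_gQ dm L j)
    (fun p hp => H.law.pQ j p hp)
  have h4 : (pset (n := n) w L (gS dm L k)).filter
      (fun y => x + (o : ZMod n) + y ∈ pset w L (gQ dm L j)) =
      (pset (n := n) w L (gS dm L k)).filter
      (fun y => y + (x + (o : ZMod n)) ∈ pset w L (gQ dm L j)) := by
    refine Finset.filter_congr fun y _ => ?_
    rw [add_comm]
  rw [h4]
  have hS1 := (H.law.S01 hL k).2
  have hQ1 := (H.law.Q01 hL j).2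
  have hδ := H.δ0
  have hS : β ≤ D.dS k := by
    rw [H.dS]
    have : (0 : ℝ) ≤ (nk X Hub k : ℝ) / n := by positivity
    linarith
  have hQ : β ≤ D.dQ j := by
    rcases hj with rfl | rfl
    · rw [H.dQo]
      have : (0 : ℝ) ≤ (ncl X Hub Ps2.o : ℝ) / n := by positivity
      linarith
    · rw [H.dQJ]
      have h5 : μ ≤ (ncl X Hub Ps2.J : ℝ) / n := by
        rw [le_div_iff₀ hn]
        exact H.nclJ
      have h6 := H.βμ
      linarith
  have hc : ∀ A : Finset (ZMod n), (A.card : ℝ) ≤ n := fun A => by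
    rw [← card_zmod (n := n)]
    exact_mod_cast Finset.card_le_univ _
  exact mass_aux hn H.e0 H.β0 hS hS1 hQ hQ1 hθ2 h2 h3 h1 (Nat.cast_nonneg _) (Nat.cast_nonneg _)
    (hc _) (hc _) (Nat.cast_nonneg _)

theorem Ctx.lbr (H : Ctx n dm X Hub hi q ρ ρR ρ1 ρC ρE ρH β τ μ δ e L mu D w)
    (hc : 2 * e ≤ ρR * ρC ^ 2 / 8) (k : Kd5) (r r' : ZMod n) :
    ρR * ρC ^ 2 / 8 * n ≤ (((pset (n := n) w L (gR dm L k)).filter
      fun x => x + r ∈ pset w L (gRC (N := N)) ∧ x + r' ∈ pset w L (gRC (N := N))).card : ℝ) := by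
  classical
  have hn := nR_pos (n := n)
  have h := H.cnt.pset H.zone' (m := 3) (by norm_num) ![DR k, {Sq9.C false}, {Sq9.C true}]
    ![true, true, true] ![0, r, r'] ![gR dm L k, gC false, gC true] ![D.dR k, D.dC, D.dC]
    (fun i => by
      fin_cases i
      · exact dep_gR dm L k
      · exact dep_gC false
      · exact dep_gC true) (fun i => by
      fin_cases i
      · exact fun p hp => H.law.pR k p hp
      · exact fun p hp => H.law.pC false p
      · exact fun p hp => H.law.pC true p) (by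
      intro i j hij _ hdis
      exfalso
      apply hdis
      fin_cases i <;> fin_cases j
      · exact absurd rfl hij
      · exact disj_R_C k false
      · exact disj_R_C k true
      · exact (disj_R_C k false).symm
      · exact absurd rfl hij
      · exact disj_C_C
      · exact (disj_R_C k true).symm
      · exact disj_C_C.symm
      · exact absurd rfl hij)
  set A := univ.filter fun x : ZMod n => ∀ i : Fin 3, CF.pt ((![true, true, true] : Fin 3 → Bool) i)
      ((![0, r, r'] : Fin 3 → ZMod n) i) x ∈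
      Cf.pset w L ((![gR dm L k, gC false, gC true] : Fin 3 → _) i) with hA
  have h2 : A ⊆ (pset (n := n) w L (gR dm L k)).filter
      fun x => x + r ∈ pset w L (gRC (N := N)) ∧ x + r' ∈ pset w L (gRC (N := N)) := by
    intro x hx
    have h3 := (Finset.mem_filter.1 hx).2
    have h4 := h3 0
    have h5 := h3 1
    have h6 := h3 2
    simp only [CF.pt, Matrix.cons_val_zero, Matrix.cons_val_one, Matrix.cons_val, if_true,
      add_zero] at h4 h5 h6
    refine Finset.mem_filter.2 ⟨h4, ?_, ?_⟩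
    · obtain ⟨h7, h8⟩ := mem_pset.1 h5
      refine mem_pset.2 ⟨h7, Or.inl ?_⟩
      unfold gC at h8
      rw [h8]
      exact vj_ne_none _
    · obtain ⟨h7, h8⟩ := mem_pset.1 h6
      refine mem_pset.2 ⟨h7, Or.inr ?_⟩
      unfold gC at h8
      rw [h8]
      exact vj_ne_none _
  have h3 : (A.card : ℝ) ≤ (((pset (n := n) w L (gR dm L k)).filter
      fun x => x + r ∈ pset w L (gRC (N := N)) ∧ x + r' ∈ pset w L (gRC (N := N))).card : ℝ) := by
    exact_mod_cast Finset.card_le_card h2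
  refine le_trans ?_ h3
  rw [Fin.prod_univ_three] at h
  have h4 := (abs_le.1 h).1
  simp only [Matrix.cons_val_zero, Matrix.cons_val_one, Matrix.cons_val] at h4
  have hδ := H.δ0
  have hR := H.ρR0
  have hC := H.ρC0
  have h5 : ρR * ρC ^ 2 / 4 ≤ D.dR k * D.dC * D.dC := by
    rw [H.dR, H.dC]
    have h6 : ρR * (ρC / 2) ≤ (ρR + δ) * (ρC / 2 + δ) := by
      apply mul_le_mul <;> linarith
    have h7 : ρR * (ρC / 2) * (ρC / 2) ≤ (ρR + δ) * (ρC / 2 + δ) * (ρC / 2 + δ) := by
      apply mul_le_mul h6 (by linarith) (by linarith) (by positivity)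
    nlinarith
  have h6 := mul_le_mul_of_nonneg_left h5 hn.le
  nlinarith

/-- the label sets of one side are disjoint -/
theorem Ctx.side_sum (H : Ctx n dm X Hub hi q ρ ρR ρ1 ρC ρE ρH β τ μ δ e L mu D w) (s : Bool) :
    ∑ k ∈ univ.filter (fun k : Kd5 => k.sd = s), ((cfg n dm w L X Hub hi).S k).card +
      ∑ h ∈ Hub, ∑ k ∈ univ.filter (fun k : Kd5 => k.sd = s),
        ((cfg n dm w L X Hub hi).Y h k).card ≤ n := by
  classical
  set K := univ.filter (fun k : Kd5 => k.sd = s) with hK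
  have hKs : ∀ k ∈ K, ∀ k' ∈ K, k.sd = k'.sd := fun k hk k' hk' => by
    rw [(Finset.mem_filter.1 hk).2, (Finset.mem_filter.1 hk').2]
  have h1 : ∑ k ∈ K, ((cfg n dm w L X Hub hi).S k).card =
      (K.biUnion fun k => (cfg n dm w L X Hub hi).S k).card :=
    (Finset.card_biUnion (fun k hk k' hk' hne => cfg_SS (hKs k hk k' hk') hne)).symm
  have h2 : ∑ h ∈ Hub, ∑ k ∈ K, ((cfg n dm w L X Hub hi).Y h k).card =
      ((Hub ×ˢ K).biUnion fun p => (cfg n dm w L X Hub hi).Y p.1 p.2).card := by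
    rw [Finset.card_biUnion]
    · rw [Finset.sum_product]
    · intro p hp p' hp' hne
      obtain ⟨h3, h4⟩ := Finset.mem_product.1 hp
      obtain ⟨h5, h6⟩ := Finset.mem_product.1 hp'
      exact cfg_YY H.det.inj h3 h5 (fun h => hne h)
  have h3 : Disjoint (K.biUnion fun k => (cfg n dm w L X Hub hi).S k)
      ((Hub ×ˢ K).biUnion fun p => (cfg n dm w L X Hub hi).Y p.1 p.2) := by
    rw [Finset.disjoint_biUnion_left]
    intro k hk
    rw [Finset.disjoint_biUnion_right]
    intro p hp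
    exact cfg_SY (hKs k hk p.2 (Finset.mem_product.1 hp).2)
  rw [h1, h2, ← Finset.card_union_of_disjoint h3]
  refine le_trans (Finset.card_le_univ _) ?_
  rw [ZMod.card]

theorem Ctx.cfgOK (H : Ctx n dm X Hub hi q ρ ρR ρ1 ρC ρE ρH β τ μ δ e L mu D w)
    {κ₁ κ₂ θ : ℝ} {h0 : ℕ} (hH : HubOK X Hub κ₁ h0 n) (hκ : 0 < κ₂) (hθ : 12 * e ≤ θ)
    (hθ2 : 10 * e ≤ θ * β ^ 2) (hθn : 4 * (L : ℝ) ≤ θ * n) (hc : 2 * e ≤ ρR * ρC ^ 2 / 8) :
    CfgOK (cfg n dm w L X Hub hi) X β (ρR * ρC ^ 2 / 8) κ₁ κ₂ θ h0 := by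
  classical
  have hn := nR_pos (n := n)
  have hL := H.det.big
  obtain ⟨b1, b2, b3, b4, b5⟩ := H.bounds
  have he := H.e0
  have hδ := H.δ0
  have hside := H.det.std.side
  have hsd : ∀ k, X.side k = k.sd := fun k => by rw [hside]
  refine
    { hub_card := hH.hub_card
      hub_big := hH.hub_big
      hub_nb := hH.hub_nb
      hub_sz := hH.hub_sz
      hub_dom := hH.hub_dom
      lh_inj := ?_
      SS := ?_
      SR := ?_
      SY := ?_
      RY := ?_
      YY := ?_
      lh_out := ?_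
      dom_out := ?_
      QQ := ?_
      QRC := ?_
      YQ := ?_
      YYc := ?_
      hh_out := ?_
      hh_inj := ?_
      S_big := ?_
      Q_big := ?_
      Y_big := ?_
      sumL := ?_
      sumQ := ?_
      loadS := ?_
      loadQ := ?_
      autS := ?_
      autQ := ?_
      autY := ?_
      LBR := ?_
      mass := ?_ }
  · intro h hh h' hh' _ he
    have h1 := congrArg ZMod.val he
    change (((2 ^ (hi h : ℕ) : ℕ) : ZMod n)).val = (((2 ^ (hi h' : ℕ) : ℕ) : ZMod n)).val at h1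
    rw [H.det.lh_val, H.det.lh_val] at h1
    exact H.det.inj h hh h' hh' (Fin.ext (Nat.pow_right_injective (le_refl 2) h1))
  · intro k k' hs hk
    rw [hsd, hsd] at hs
    exact cfg_SS hs hk
  · intro k k' hs
    rw [hsd, hsd] at hs
    exact cfg_SR hs
  · intro k h _ k' hs
    rw [hsd, hsd] at hs
    exact cfg_SY hs
  · intro k h _ k' hs
    rw [hsd, hsd] at hs
    exact cfg_RY hs
  · intro h hh h' hh' k k' _ hk
    exact cfg_YY H.det.inj hh hh' hk
  · intro h hh k _
    exact ⟨H.det.lh_out (hi h) _, H.det.lh_out (hi h) _, fun h' _ => H.det.lh_out_Y (hi h) h' k⟩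
  · intro k hk x hx
    exact H.det.dom_out k hk x hx
  · intro a b hab
    cases a <;> cases b
    · exact absurd rfl hab
    · exact cfg_QQ (by decide)
    · exact cfg_QQ (by decide)
    · exact absurd rfl hab
  · intro a
    cases a
    · exact cfg_QRC 0
    · exact cfg_QRC 1
  · intro h hh k hk y hy
    have h1 := H.det.hubcol_out (mem_Y hy).2
    refine ⟨h1.1, fun a => ?_⟩
    cases a
    · exact h1.2 0
    · exact h1.2 1
  · intro h hh h' hh' k k' _ _ y hy y' hy' he
    exact H.det.YYc hh hh' hy hy' he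
  · intro h hh hr hp
    refine ⟨?_, fun a => ?_, ?_⟩
    · intro h1
      exact H.det.not_zn_lh2 _ _ (zn_of_pset h1)
    · intro h1
      cases a
      · exact H.det.not_zn_lh2 _ _ (zn_of_pset h1)
      · exact H.det.not_zn_lh2 _ _ (zn_of_pset h1)
    · intro h' hh' k _ y hy he
      have h1 := (H.det.hubcol (mem_Y hy).2).2
      have he' : (((2 ^ (hi h : ℕ) : ℕ) : ZMod n) + ((2 ^ (hi (X.t.par h) : ℕ) : ℕ) : ZMod n)) =
        (((2 ^ (hi h' : ℕ) : ℕ) : ZMod n) + y) := he
      rw [← he', H.det.lh2_val] at h1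
      have h2 := H.det.pow_lt (hi h)
      have h3 := H.det.pow_lt (hi (X.t.par h))
      omega
  · intro h hh h' hh' hr hr' hp hp' he
    exact H.det.hh_inj hh hh' hr hr' hp hp' he
  · intro k
    have h1 := (abs_le.1 (H.cS k)).1
    change β * n ≤ ((pset (n := n) w L (gS dm L k)).card : ℝ)
    have h2 : (0 : ℝ) ≤ (nk X Hub k : ℝ) := Nat.cast_nonneg _
    nlinarith
  · intro a
    cases a
    · change β * n ≤ ((pset (n := n) w L (gQ dm L 0)).card : ℝ)
      have h1 := (abs_le.1 H.cO).1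
      have h2 : (0 : ℝ) ≤ (ncl X Hub Ps2.o : ℝ) := Nat.cast_nonneg _
      nlinarith
    · change β * n ≤ ((pset (n := n) w L (gQ dm L 1)).card : ℝ)
      have h1 := (abs_le.1 H.cJ).1
      have h2 := H.nclJ
      have h3 := H.βμ
      nlinarith
  · intro h hh k hk
    by_cases hs : k.sd = X.side (X.kd h)
    · rw [nch_zero H.det.std hs]
      exact Nat.zero_le _
    · have h1 := (abs_le.1 (H.cY hh hs)).1
      have h2 : (cfg n dm w L X Hub hi).Y h k = pset w L (gY L (hi h) k) := by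
        unfold cfg
        simp only
        rw [if_pos hs]
      rw [h2]
      have h3 : (Cfg.nch X h k : ℝ) ≤ ((pset (n := n) w L (gY L (hi h) k)).card : ℝ) := by
        nlinarith
      exact_mod_cast h3
  · have h1 := H.side_sum true
    have h2 := H.side_sum false
    have h3 : ∀ f : Kd5 → ℕ, ∑ k, f k = ∑ k ∈ univ.filter (fun k : Kd5 => k.sd = true), f k +
        ∑ k ∈ univ.filter (fun k : Kd5 => k.sd = false), f k := by
      intro f
      rw [← Finset.sum_filter_add_sum_filter_not univ (fun k : Kd5 => k.sd = true)]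
      have h5 : (univ.filter fun k : Kd5 => ¬ k.sd = true) =
          univ.filter (fun k : Kd5 => k.sd = false) :=
        Finset.filter_congr fun k _ => by rw [Bool.not_eq_true]
      rw [h5]
    have h4 : ∑ h ∈ Hub, ∑ k, ((cfg n dm w L X Hub hi).Y h k).card =
        ∑ h ∈ Hub, ∑ k ∈ univ.filter (fun k : Kd5 => k.sd = true),
          ((cfg n dm w L X Hub hi).Y h k).card +
        ∑ h ∈ Hub, ∑ k ∈ univ.filter (fun k : Kd5 => k.sd = false),
          ((cfg n dm w L X Hub hi).Y h k).card := by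
      rw [← Finset.sum_add_distrib]
      exact Finset.sum_congr rfl fun h _ => h3 _
    change ∑ k, ((cfg n dm w L X Hub hi).S k).card +
      ∑ h ∈ Hub, ∑ k, ((cfg n dm w L X Hub hi).Y h k).card ≤ 2 * n
    rw [h4, h3]
    omega
  · have h1 : Disjoint ((cfg n dm w L X Hub hi).Q Ps2.o) ((cfg n dm w L X Hub hi).Q Ps2.J) :=
      cfg_QQ (by decide)
    have h2 : ∑ a, ((cfg n dm w L X Hub hi).Q a).card =
        ((cfg n dm w L X Hub hi).Q Ps2.o).card + ((cfg n dm w L X Hub hi).Q Ps2.J).card := by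
      have h3 : (univ : Finset Ps2) = {Ps2.o, Ps2.J} := by decide
      rw [h3, Finset.sum_pair (by decide)]
    rw [h2, ← Finset.card_union_of_disjoint h1]
    refine le_trans (Finset.card_le_univ _) ?_
    rw [ZMod.card]
  · intro k
    have h1 := (abs_le.1 (H.cS k)).1
    have h3 : (nk X Hub k : ℝ) ≤ ((pset (n := n) w L (gS dm L k)).card : ℝ) := by
      have := H.β0
      nlinarith
    exact_mod_cast h3
  · intro a
    cases a
    · have h1 := (abs_le.1 H.cO).1
      have h3 : (ncl X Hub Ps2.o : ℝ) ≤ ((pset (n := n) w L (gQ dm L 0)).card : ℝ) := by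
        have := H.β0
        nlinarith
      exact_mod_cast h3
    · have h1 := (abs_le.1 H.cJ).1
      have h3 : (ncl X Hub Ps2.J : ℝ) ≤ ((pset (n := n) w L (gQ dm L 1)).card : ℝ) := by
        nlinarith
      exact_mod_cast h3
  · intro k
    exact H.cnt.aut H.zone' (by norm_num) (DS k) (gS dm L k) (D.dS k) (dep_gS dm L k)
      (fun p hp => H.law.pS k p hp) (H.law.S01 hL k).1 (H.law.S01 hL k).2 hθ he.le hθn
  · intro a
    obtain ⟨j, hj⟩ := cfgQ (n := n) (dm := dm) (w := w) (L := L) (X := X) (Hub := Hub) (hi := hi) a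
    rw [hj]
    exact H.cnt.aut H.zone' (by norm_num) DQ (gQ dm L j) (D.dQ j) (dep_gQ dm L j)
      (fun p hp => H.law.pQ j p hp) (H.law.Q01 hL j).1 (H.law.Q01 hL j).2 hθ he.le hθn
  · intro h hh k hk
    by_cases hs : k.sd = X.side (X.kd h)
    · rw [nch_zero H.det.std hs] at hk
      simp only [Nat.cast_zero] at hk
      have : 0 < κ₂ * n := by positivity
      linarith
    · have h2 : (cfg n dm w L X Hub hi).Y h k = pset w L (gY L (hi h) k) := by
        unfold cfg
        simp only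
        rw [if_pos hs]
      rw [h2]
      exact H.cnt.aut H.zone' (by norm_num) (DY k) (gY L (hi h) k) (D.dY (hi h) k)
        (dep_gY L (hi h) k) (fun p hp => H.law.pY (hi h) k p hp) (H.law.Y01 hL (hi h) k).1
        (H.law.Y01 hL (hi h) k).2 hθ he.le hθn
  · intro k r r' _
    exact H.lbr hc k r r'
  · intro k k' _ x hx o ho
    have hx' : Zn L x := zn_of_pset hx
    have hcl : (cfg n dm w L X Hub hi).Q (X.cl k) = pset w L (gQ dm L 0) ∨
        (cfg n dm w L X Hub hi).Q (X.cl k) = pset w L (gQ dm L 1) := by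
      cases X.cl k
      · exact Or.inl rfl
      · exact Or.inr rfl
    rcases hcl with h1 | h1
    · rw [h1]
      exact H.mass hθ2 k 0 (Or.inl rfl) x hx' o ho
    · rw [h1]
      exact H.mass hθ2 k 1 (Or.inr rfl) x hx' o ho

end Pool.Agent.Lib.MP_c5b475_co.KN.Cf
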