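import Pool.Agent.Lib.MP_c5b475_co.KN.CfP

/-!
# KN/CfH: the spare colours of both parities (field `K6`)
-/

set_option autoImplicit false
set_option linter.unusedSectionVars false

namespace Pool.Agent.Lib.MP_c5b475_co.KN.Cf

open Finset

variable {N : ℕ}

theorem card_block_end {n : ℕ} [NeZero n] {L : ℕ} (hL : 0 < L) :
    (univ.filter fun x : ZMod n => ¬ x.val % L + 1 < L).card ≤ n / L + 1 := by
  classical
  have h1 : (univ.filter fun x : ZMod n => ¬ x.val % L + 1 < L).card ≤ (range (n / L + 1)).card := by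
    refine Finset.card_le_card_of_injOn (fun x => x.val / L) ?_ ?_
    · intro x _
      simp only [Finset.coe_range, Set.mem_Iio]
      have h2 := ZMod.val_lt x
      have h3 : x.val / L ≤ n / L := Nat.div_le_div_right h2.le
      omega
    · intro x hx y hy hxy
      replace hx := (Finset.mem_filter.1 (Finset.mem_coe.1 hx)).2
      replace hy := (Finset.mem_filter.1 (Finset.mem_coe.1 hy)).2
      simp only at hxy
      have h2 := Nat.mod_lt x.val hL
      have h3 := Nat.mod_lt y.val hL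
      have h4 := Nat.div_add_mod x.val L
      have h5 := Nat.div_add_mod y.val L
      rw [hxy] at h4
      exact ZMod.val_injective n (by omega)
  rwa [Finset.card_range] at h1

theorem Ctx.k6 {W : Type} [Fintype W] [DecidableEq W] {n : ℕ} [NeZero n] {dm : Bool}
    {X : KT W Kd5 Ps2} {Hub : Finset W} {hi : W → Fin N} {q : ℕ}
    {ρ ρR ρ1 ρC ρE ρH β τ μ δ e : ℝ} {L : ℕ} {mu : Sq9 → Ty N → ℝ} {D : Dens N}
    {w : Sq9 → ℕ → Ty N} (H : Ctx n dm X Hub hi q ρ ρR ρ1 ρC ρE ρH β τ μ δ e L mu D w)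
    (hL : 4 ≤ (L : ℝ) * (ρH * ρE * ρ)) (he : 8 * e ≤ ρH * ρE * ρ) (x : ZMod n) {q' : ℕ}
    (hq : q' < 2) (sd : Bool) :
    4 * (L + 3) + 1 ≤ ((pset (n := n) w L (gQ dm L 3)).filter fun s =>
      s.val % 2 = q' ∧ s - x ∈ pset w L (gres sd 0)).card := by
  classical
  have hnp := nR_pos (n := n)
  have hLpos : 0 < L := lt_of_le_of_lt (Nat.zero_le _) H.det.big
  have hLR : (0 : ℝ) < L := by exact_mod_cast hLpos
  -- the set
  set A := (pset (n := n) w L (gQ0 dm L 3)).filter fun s => s + -x ∈ pset w L (gres sd 0) with hA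
  have hcnt := H.cnt.pair H.zone (by norm_num) DQ0 {Sq9.M sd} (gQ0 dm L 3) (gres sd 0) (D.dQ0 3)
    D.dX (dep_gQ0 dm L 3) (dep_gres sd 0) (H.law.pQ0 3) (fun p _ => H.law.pX sd 0 p) (-x)
    (fun h => absurd (disj_M_Q0 sd).symm h)
  rw [← hA] at hcnt
  have hA1 : (n : ℝ) * (ρH * ρE * ρ) - 2 * e * n ≤ A.card := by
    have h1 : ρH * ρE * ρ ≤ D.dQ0 3 * D.dX := by
      have h2 := H.dQ0 3
      rw [H.dQE] at h2
      rw [H.dX]
      have h3 : ρH * ρE ≤ D.dQ0 3 := by
        have h4 : ρH * ρE ≤ ρH * (ρE + δ) := mul_le_mul_of_nonneg_left (by linarith [H.δ0]) H.ρH0.le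
        linarith
      have h5 : 0 ≤ ρH * ρE := by
        have := H.ρH0
        have := H.ρE0
        positivity
      exact mul_le_mul h3 (by linarith [H.δ0]) H.ρ0.le (h5.trans h3)
    have h2 := (abs_le.1 hcnt).1
    have h3 := mul_le_mul_of_nonneg_left h1 hnp.le
    linarith
  -- membership in `A`
  have hmem : ∀ s, s ∈ A ↔ (Zn L s ∧ gQ0 dm L 3 (sta w L s) (s.val % L)) ∧
      (Zn L (s + -x) ∧ gres sd 0 (sta w L (s + -x)) ((s + -x).val % L)) := by
    intro s
    rw [hA, Finset.mem_filter, mem_pset, mem_pset]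
  have hpos : ∀ (t : State N) (p p' : ℕ), gQ0 dm L 3 t p → gQ0 dm L 3 t p' := by
    intro t p p' h
    obtain ⟨h1, h2, h3, h4, _⟩ := h
    refine ⟨h1, h2, h3, h4, fun h => ?_⟩
    simp [dj] at h
  -- the bad points
  set B1 := univ.filter fun s : ZMod n => ¬ s.val % L + 1 < L with hB1
  set B2 := univ.filter fun s : ZMod n => ¬ (s + -x).val % L + 1 < L with hB2
  set B3 := univ.filter fun s : ZMod n => ¬ Zn L (s + 1) with hB3
  set B4 := univ.filter fun s : ZMod n => ¬ Zn L (s + (1 + -x)) with hB4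
  have c1 : B1.card ≤ n / L + 1 := card_block_end hLpos
  have c2 : B2.card ≤ n / L + 1 := by
    refine le_trans (Finset.card_le_card_of_injOn (fun s => s + -x) ?_ ?_)
      (card_block_end (n := n) hLpos)
    · intro s hs
      have hs' := (Finset.mem_filter.1 (Finset.mem_coe.1 hs)).2
      exact Finset.mem_coe.2 (Finset.mem_filter.2 ⟨Finset.mem_univ _, hs'⟩)
    · intro s _ t _ hst
      exact add_right_cancel hst
  have c3 : B3.card ≤ 4 * L + 5 := by
    have h := card_pt_not_zn (n := n) L true 1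
    simpa [CF.pt] using h
  have c4 : B4.card ≤ 4 * L + 5 := by
    have h := card_pt_not_zn (n := n) L true (1 + -x)
    simpa [CF.pt] using h
  -- the two parities
  set Aq := A.filter fun s => s.val % 2 = q' with hAq
  set Ar := A.filter fun s => ¬ s.val % 2 = q' with hAr
  have hsum : Aq.card + Ar.card = A.card := by
    rw [hAq, hAr]
    exact Finset.card_filter_add_card_filter_not _
  have hArle : Ar.card ≤ Aq.card + (B1 ∪ B2 ∪ (B3 ∪ B4)).card := by
    have h1 : Ar.card ≤ (Ar \ (B1 ∪ B2 ∪ (B3 ∪ B4))).card + (B1 ∪ B2 ∪ (B3 ∪ B4)).card := by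
      have := Finset.le_card_sdiff (B1 ∪ B2 ∪ (B3 ∪ B4)) Ar
      omega
    have h2 : (Ar \ (B1 ∪ B2 ∪ (B3 ∪ B4))).card ≤ Aq.card := by
      refine Finset.card_le_card_of_injOn (fun s => s + 1) ?_ ?_
      · intro s hs
        have hs' := Finset.mem_coe.1 hs
        rw [Finset.mem_sdiff, hAr, Finset.mem_filter] at hs'
        obtain ⟨⟨hsA, hpar⟩, hnb⟩ := hs'
        rw [Finset.mem_union, Finset.mem_union, Finset.mem_union] at hnb
        push Not at hnb
        obtain ⟨⟨n1, n2⟩, n3, n4⟩ := hnb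
        simp only [hB1, hB2, hB3, hB4, Finset.mem_filter, Finset.mem_univ, true_and, not_not]
          at n1 n2 n3 n4
        obtain ⟨⟨z1, g1⟩, z2, g2⟩ := (hmem s).1 hsA
        obtain ⟨s1, s2, s3⟩ := sta_add (w := w) (a := 1) z1 n1
        obtain ⟨t1, t2, t3⟩ := sta_add (w := w) (a := 1) z2 n2
        rw [Nat.cast_one] at s1 s2 s3 t1 t2 t3
        have e1 : s + 1 + -x = s + -x + 1 := by ring
        have e2 : s + (1 + -x) = s + 1 + -x := by ring
        rw [Finset.mem_coe, hAq, Finset.mem_filter]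
        refine ⟨(hmem _).2 ⟨⟨n3, ?_⟩, ?_, ?_⟩, ?_⟩
        · rw [s1]
          exact hpos _ _ _ g1
        · rw [← e2]
          exact n4
        · rw [e1, t1]
          exact g2
        · rw [s2]
          omega
      · intro s _ t _ hst
        exact add_right_cancel hst
    omega
  have hB : (B1 ∪ B2 ∪ (B3 ∪ B4)).card ≤ 2 * (n / L + 1) + 2 * (4 * L + 5) := by
    have h1 := Finset.card_union_le (B1 ∪ B2) (B3 ∪ B4)
    have h2 := Finset.card_union_le B1 B2
    have h3 := Finset.card_union_le B3 B4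
    omega
  have hmain : A.card ≤ 2 * Aq.card + (2 * (n / L + 1) + 2 * (4 * L + 5)) := by omega
  have hmainR : (A.card : ℝ) ≤ 2 * Aq.card + (2 * ((n : ℝ) / L + 1) + 2 * (4 * L + 5)) := by
    have h1 : (A.card : ℝ) ≤ 2 * Aq.card + (2 * (((n / L : ℕ) : ℝ) + 1) + 2 * (4 * L + 5)) := by
      exact_mod_cast hmain
    have h2 : ((n / L : ℕ) : ℝ) ≤ (n : ℝ) / L := Nat.cast_div_le
    linarith
  have hdiv : (n : ℝ) / L ≤ n * (ρH * ρE * ρ) / 4 := by
    rw [div_le_iff₀ hLR]
    nlinarith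
  have hz := H.zone
  have hen : 8 * e * n ≤ n * (ρH * ρE * ρ) := by nlinarith
  have hfin : (4 * ((L : ℝ) + 3) + 1) ≤ Aq.card := by linarith
  have hfin' : 4 * (L + 3) + 1 ≤ Aq.card := by exact_mod_cast hfin
  refine le_trans hfin' (Finset.card_le_card ?_)
  intro s hs
  rw [hAq, Finset.mem_filter, hA, Finset.mem_filter] at hs
  obtain ⟨⟨h1, h2⟩, h3⟩ := hs
  rw [Finset.mem_filter]
  refine ⟨pset_gQ0 h1, h3, ?_⟩
  rw [sub_eq_add_neg]
  exact h2

end Pool.Agent.Lib.MP_c5b475_co.KN.Cf
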