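import Pool.Agent.Lib.MP_c5b475_co.KN.CfP

/-!
# KN/CfK: the counts for the bare paths (fields `K4`, `K5`)
-/

set_option autoImplicit false
set_option linter.unusedSectionVars false

namespace Pool.Agent.Lib.MP_c5b475_co.KN.Cf

open Finset

variable {N : ℕ}

/-- reserved label number 0 of side `false`, two positions before the end of the block -/
def cfk_G (L : ℕ) (s : State N) (p : ℕ) : Prop := s (Sq9.M false) = vj 0 ∧ p + 2 < L

theorem cfk_dep (L : ℕ) : DepOn (N := N) {.M false} (cfk_G L) := by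
  intro s s' p h hs
  have e1 := h (.M false) (by simp)
  exact ⟨by rw [← e1]; exact hs.1, hs.2⟩

theorem cfk_pr {mu : Sq9 → Ty N → ℝ} {D : Dens N} {dm : Bool} {L : ℕ} (h : LawOK mu D dm L) (p : ℕ)
    (hp : p + 2 ^ N + 2 < L) : Pr mu (fun v => cfk_G L v p) = D.dX := by
  rw [← h.pX false 0 p]
  congr 1
  funext v
  unfold cfk_G gres
  have h2 : p + 2 < L := by
    have : 0 < 2 ^ N := by positivity
    omega
  simp [h2]

section far

variable {n : ℕ} [NeZero n]

theorem cfk_far1 {L : ℕ} {η : ZMod n} (h : Far (L + 3) η) : L ≤ CF.cd (η + 1) := by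
  have h1 : L + 3 ≤ CF.cd η := h.1
  refine cd_shift (a := η) (k := 1) (by omega) ?_
  have h2 : η + 1 - η = ((1 : ℕ) : ZMod n) := by push_cast; ring
  rw [h2]
  exact cd_nat 1

theorem cfk_far2 {L : ℕ} {η : ZMod n} (h : Far (L + 3) η) : L ≤ CF.cd (η + 2) := by
  have h1 : L + 3 ≤ CF.cd η := h.1
  refine cd_shift (a := η) (k := 2) (by omega) ?_
  have h2 : η + 2 - η = ((2 : ℕ) : ZMod n) := by push_cast; ring
  rw [h2]
  exact cd_nat 2

theorem cfk_far3 {L : ℕ} {η : ZMod n} (h : Far (L + 3) η) : L ≤ CF.cd (2 * η + 2) := by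
  have h1 : L + 3 ≤ CF.cd (2 * η) := h.2
  refine cd_shift (a := 2 * η) (k := 2) (by omega) ?_
  have h2 : 2 * η + 2 - 2 * η = ((2 : ℕ) : ZMod n) := by push_cast; ring
  rw [h2]
  exact cd_nat 2

end far

variable {W : Type} [Fintype W] [DecidableEq W] {n : ℕ} [NeZero n] {dm : Bool}
    {X : KT W Kd5 Ps2} {Hub : Finset W} {hi : W → Fin N} {q : ℕ}
    {ρ ρR ρ1 ρC ρE ρH β τ μ δ e : ℝ} {L : ℕ} {mu : Sq9 → Ty N → ℝ} {D : Dens N}
    {w : Sq9 → ℕ → Ty N}

theorem Ctx.cfk_Q0 (H : Ctx n dm X Hub hi q ρ ρR ρ1 ρC ρE ρH β τ μ δ e L mu D w) :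
    ρH * ρ1 ≤ D.dQ0 2 := by
  have hnp := nR_pos (n := n)
  have h1 := H.dQ0 2
  rw [H.dQ1] at h1
  have h2 : ρ1 ≤ ((q : ℝ) - ncl X Hub Ps2.J) / n + δ := by
    have g2 := H.bud.qle
    have g3 : ρ1 ≤ ((q : ℝ) - ncl X Hub Ps2.J) / n := by
      rw [le_div_iff₀ hnp]
      have := H.τ0
      nlinarith
    linarith [H.δ0]
  exact (mul_le_mul_of_nonneg_left h2 H.ρH0.le).trans h1

theorem Ctx.k4 (H : Ctx n dm X Hub hi q ρ ρR ρ1 ρC ρE ρH β τ μ δ e L mu D w)
    (z s η : ZMod n) (hη : Far (L + 3) η) :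
    n * (ρH * ρ1 * ρ ^ 4) - 3 * e * n ≤
      (((pset (n := n) w L (gQ dm L 2)).filter fun g => (∀ i, lB z η g i ∈
        pset w L (gres false 0)) ∧ z + s - g - 1 ∈ pset w L (gres true 0)).card : ℝ) := by
  classical
  have hnp := nR_pos (n := n)
  have hcd : ∀ b : ZMod n, CF.cd (-b) = CF.cd b := cd_neg
  have h := H.cnt.pset H.zone (m := 5) le_rfl
    ![DQ0, {.M false}, {.M false}, {.M false}, {.M true}] ![true, true, true, true, false]
    ![0, -1 - z, 1 - z + 2 * η, -z + η, z + s - 1]
    ![gQ0 dm L 2, cfk_G L, gres false 0, gres false 0, gres true 0]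
    ![D.dQ0 2, D.dX, D.dX, D.dX, D.dX]
    (fun i => by
      fin_cases i
      · exact dep_gQ0 dm L 2
      · exact cfk_dep L
      · exact dep_gres false 0
      · exact dep_gres false 0
      · exact dep_gres true 0)
    (fun i => by
      fin_cases i
      · exact H.law.pQ0 2
      · exact cfk_pr H.law
      · exact fun p _ => H.law.pX false 0 p
      · exact fun p _ => H.law.pX false 0 p
      · exact fun p _ => H.law.pX true 0 p)
    (by
      have k12 : L ≤ CF.cd ((-1 - z) - (1 - z + 2 * η)) := by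
        have : (-1 - z) - (1 - z + 2 * η) = -(2 * η + 2) := by ring
        rw [this, hcd]
        exact cfk_far3 hη
      have k21 : L ≤ CF.cd ((1 - z + 2 * η) - (-1 - z)) := by
        have : (1 - z + 2 * η) - (-1 - z) = 2 * η + 2 := by ring
        rw [this]
        exact cfk_far3 hη
      have k13 : L ≤ CF.cd ((-1 - z) - (-z + η)) := by
        have : (-1 - z) - (-z + η) = -(η + 1) := by ring
        rw [this, hcd]
        exact cfk_far1 hη
      have k31 : L ≤ CF.cd ((-z + η) - (-1 - z)) := by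
        have : (-z + η) - (-1 - z) = η + 1 := by ring
        rw [this]
        exact cfk_far1 hη
      have k23 : L ≤ CF.cd ((1 - z + 2 * η) - (-z + η)) := by
        have : (1 - z + 2 * η) - (-z + η) = η + 1 := by ring
        rw [this]
        exact cfk_far1 hη
      have k32 : L ≤ CF.cd ((-z + η) - (1 - z + 2 * η)) := by
        have : (-z + η) - (1 - z + 2 * η) = -(η + 1) := by ring
        rw [this, hcd]
        exact cfk_far1 hη
      have dQ : Disjoint DQ0 ({.M false} : Finset Sq9) := (disj_M_Q0 false).symm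
      have dQ' : Disjoint ({.M false} : Finset Sq9) DQ0 := disj_M_Q0 false
      intro i j hij hs hdis
      fin_cases i <;> fin_cases j <;>
        first
        | exact absurd rfl hij
        | exact absurd dQ hdis
        | exact absurd dQ' hdis
        | exact k12
        | exact k21
        | exact k13
        | exact k31
        | exact k23
        | exact k32
        | exact Bool.noConfusion (show true = false from hs)
        | exact Bool.noConfusion (show false = true from hs))
  -- the product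
  have hq : (∏ i, (![D.dQ0 2, D.dX, D.dX, D.dX, D.dX] : Fin 5 → ℝ) i) = D.dQ0 2 * D.dX ^ 4 := by
    rw [Fin.prod_univ_five]
    show D.dQ0 2 * D.dX * D.dX * D.dX * D.dX = _
    ring
  rw [hq] at h
  have hprod : ρH * ρ1 * ρ ^ 4 ≤ D.dQ0 2 * D.dX ^ 4 := by
    have h1 := H.cfk_Q0
    have h2 : ρ ^ 4 ≤ D.dX ^ 4 := by
      rw [H.dX]
      exact pow_le_pow_left₀ H.ρ0.le (by linarith [H.δ0]) 4
    have h3 : 0 < ρH * ρ1 := mul_pos H.ρH0 H.ρ10
    exact mul_le_mul h1 h2 (by have := H.ρ0; positivity) (h3.le.trans h1)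
  set B1 := univ.filter fun x : ZMod n => ∀ i, CF.pt
    ((![true, true, true, true, false] : Fin 5 → Bool) i)
    ((![0, -1 - z, 1 - z + 2 * η, -z + η, z + s - 1] : Fin 5 → ZMod n) i) x ∈ pset w L
    ((![gQ0 dm L 2, cfk_G L, gres false 0, gres false 0, gres true 0] : Fin 5 → _) i) with hB1
  set B := (pset (n := n) w L (gQ dm L 2)).filter fun g => (∀ i, lB z η g i ∈
        pset w L (gres false 0)) ∧ z + s - g - 1 ∈ pset w L (gres true 0) with hB
  have hsub : B1 ⊆ B ∪ univ.filter fun x : ZMod n => ¬ Zn L (CF.pt true (1 - z) x) := by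
    intro g hg
    have hg' := (Finset.mem_filter.1 hg).2
    have g0 : CF.pt true 0 g ∈ pset w L (gQ0 dm L 2) := hg' 0
    have g1 : CF.pt true (-1 - z) g ∈ pset w L (cfk_G L) := hg' 1
    have g2 : CF.pt true (1 - z + 2 * η) g ∈ pset w L (gres false 0) := hg' 2
    have g3 : CF.pt true (-z + η) g ∈ pset w L (gres false 0) := hg' 3
    have g4 : CF.pt false (z + s - 1) g ∈ pset w L (gres true 0) := hg' 4
    by_cases hz : Zn L (CF.pt true (1 - z) g)
    · refine Finset.mem_union_left _ ?_
      rw [hB, Finset.mem_filter]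
      have e0 : CF.pt true 0 g = g := by simp [CF.pt]
      have e1 : CF.pt true (-1 - z) g = g - 1 - z := by simp only [CF.pt, if_true]; ring
      have e2 : CF.pt true (1 - z + 2 * η) g = g + 1 - z + 2 * η := by
        simp only [CF.pt, if_true]; ring
      have e3 : CF.pt true (-z + η) g = g - z + η := by simp only [CF.pt, if_true]; ring
      have e4 : CF.pt false (z + s - 1) g = z + s - g - 1 := by
        simp only [CF.pt, Bool.false_eq_true, if_false]; ring
      have e5 : CF.pt true (1 - z) g = g + 1 - z := by simp only [CF.pt, if_true]; ring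
      rw [e0] at g0
      rw [e1] at g1
      rw [e2] at g2
      rw [e3] at g3
      rw [e4] at g4
      rw [e5] at hz
      obtain ⟨z1, p1, p2⟩ := mem_pset.1 g1
      obtain ⟨s1, -, s3⟩ := sta_add (w := w) (a := 2) z1 p2
      have e6 : g - 1 - z + ((2 : ℕ) : ZMod n) = g + 1 - z := by push_cast; ring
      rw [e6] at s1
      have m0 : g + 1 - z ∈ pset w L (gres false 0) := by
        refine mem_pset.2 ⟨hz, ?_⟩
        unfold gres
        rw [s1]
        exact p1
      have m3 : g - 1 - z ∈ pset w L (gres false 0) := mem_pset.2 ⟨z1, p1⟩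
      refine ⟨pset_gQ0 g0, fun i => ?_, g4⟩
      fin_cases i
      · exact m0
      · exact g2
      · exact g3
      · exact m3
    · exact Finset.mem_union_right _ (Finset.mem_filter.2 ⟨Finset.mem_univ _, hz⟩)
  have hcard : (B1.card : ℝ) ≤ B.card + (4 * L + 5) := by
    have h1 := (Finset.card_le_card hsub).trans (Finset.card_union_le _ _)
    have h2 := card_pt_not_zn (n := n) L true (1 - z)
    have h3 : B1.card ≤ B.card + (4 * L + 5) := by omega
    exact_mod_cast h3
  have h1 := (abs_le.1 h).1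
  have h2 := H.zone
  have h3 : (4 * (L : ℝ) + 5) ≤ e * n := by
    have : (0 : ℝ) ≤ 4 * (L : ℝ) + 5 := by positivity
    linarith
  have h4 := mul_le_mul_of_nonneg_left hprod hnp.le
  linarith

theorem Ctx.k5 (H : Ctx n dm X Hub hi q ρ ρR ρ1 ρC ρE ρH β τ μ δ e L mu D w)
    (y η : ZMod n) (hη : Far (L + 3) η) :
    n * ((ρH * ρ1) ^ 2 * ρ ^ 2) - 2 * e * n ≤
      (((pset (n := n) w L (gQ dm L 2)).filter fun h => h - η - 1 ∈ pset w L (gQ dm L 2) ∧
        h + y ∈ pset w L (gres true 0) ∧ h + y + η + 2 ∈ pset w L (gres true 0)).card : ℝ) := by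
  classical
  have hnp := nR_pos (n := n)
  have hcd : ∀ b : ZMod n, CF.cd (-b) = CF.cd b := cd_neg
  have h := H.cnt.pset H.zone (m := 4) (by norm_num)
    ![DQ0, DQ0, {.M true}, {.M true}] ![true, true, true, true]
    ![0, -η - 1, y, y + η + 2]
    ![gQ0 dm L 2, gQ0 dm L 2, gres true 0, gres true 0]
    ![D.dQ0 2, D.dQ0 2, D.dX, D.dX]
    (fun i => by
      fin_cases i
      · exact dep_gQ0 dm L 2
      · exact dep_gQ0 dm L 2
      · exact dep_gres true 0
      · exact dep_gres true 0)
    (fun i => by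
      fin_cases i
      · exact H.law.pQ0 2
      · exact H.law.pQ0 2
      · exact fun p _ => H.law.pX true 0 p
      · exact fun p _ => H.law.pX true 0 p)
    (by
      have k01 : L ≤ CF.cd (0 - (-η - 1)) := by
        have : 0 - (-η - 1) = η + 1 := by ring
        rw [this]
        exact cfk_far1 hη
      have k10 : L ≤ CF.cd ((-η - 1) - 0) := by
        have : (-η - 1) - 0 = -(η + 1) := by ring
        rw [this, hcd]
        exact cfk_far1 hη
      have k23 : L ≤ CF.cd (y - (y + η + 2)) := by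
        have : y - (y + η + 2) = -(η + 2) := by ring
        rw [this, hcd]
        exact cfk_far2 hη
      have k32 : L ≤ CF.cd ((y + η + 2) - y) := by
        have : (y + η + 2) - y = η + 2 := by ring
        rw [this]
        exact cfk_far2 hη
      have dQ : Disjoint DQ0 ({.M true} : Finset Sq9) := (disj_M_Q0 true).symm
      have dQ' : Disjoint ({.M true} : Finset Sq9) DQ0 := disj_M_Q0 true
      intro i j hij hs hdis
      fin_cases i <;> fin_cases j <;>
        first
        | exact absurd rfl hij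
        | exact absurd dQ hdis
        | exact absurd dQ' hdis
        | exact k01
        | exact k10
        | exact k23
        | exact k32)
  -- the product
  have hq : (∏ i, (![D.dQ0 2, D.dQ0 2, D.dX, D.dX] : Fin 4 → ℝ) i) =
      (D.dQ0 2) ^ 2 * D.dX ^ 2 := by
    rw [Fin.prod_univ_four]
    show D.dQ0 2 * D.dQ0 2 * D.dX * D.dX = _
    ring
  rw [hq] at h
  have hprod : (ρH * ρ1) ^ 2 * ρ ^ 2 ≤ (D.dQ0 2) ^ 2 * D.dX ^ 2 := by
    have h1 := H.cfk_Q0
    have h3 : 0 < ρH * ρ1 := mul_pos H.ρH0 H.ρ10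
    have h2 : ρ ^ 2 ≤ D.dX ^ 2 := by
      rw [H.dX]
      exact pow_le_pow_left₀ H.ρ0.le (by linarith [H.δ0]) 2
    have h4 : (ρH * ρ1) ^ 2 ≤ (D.dQ0 2) ^ 2 := pow_le_pow_left₀ h3.le h1 2
    exact mul_le_mul h4 h2 (sq_nonneg _) (sq_nonneg _)
  set B1 := univ.filter fun x : ZMod n => ∀ i, CF.pt
    ((![true, true, true, true] : Fin 4 → Bool) i)
    ((![0, -η - 1, y, y + η + 2] : Fin 4 → ZMod n) i) x ∈ pset w L
    ((![gQ0 dm L 2, gQ0 dm L 2, gres true 0, gres true 0] : Fin 4 → _) i) with hB1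
  set B := (pset (n := n) w L (gQ dm L 2)).filter fun h => h - η - 1 ∈ pset w L (gQ dm L 2) ∧
        h + y ∈ pset w L (gres true 0) ∧ h + y + η + 2 ∈ pset w L (gres true 0) with hB
  have hsub : B1 ⊆ B := by
    intro g hg
    have hg' := (Finset.mem_filter.1 hg).2
    have g0 : CF.pt true 0 g ∈ pset w L (gQ0 dm L 2) := hg' 0
    have g1 : CF.pt true (-η - 1) g ∈ pset w L (gQ0 dm L 2) := hg' 1
    have g2 : CF.pt true y g ∈ pset w L (gres true 0) := hg' 2
    have g3 : CF.pt true (y + η + 2) g ∈ pset w L (gres true 0) := hg' 3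
    have e0 : CF.pt true 0 g = g := by simp [CF.pt]
    have e1 : CF.pt true (-η - 1) g = g - η - 1 := by simp only [CF.pt, if_true]; ring
    have e2 : CF.pt true y g = g + y := by simp only [CF.pt, if_true]
    have e3 : CF.pt true (y + η + 2) g = g + y + η + 2 := by simp only [CF.pt, if_true]; ring
    rw [e0] at g0
    rw [e1] at g1
    rw [e2] at g2
    rw [e3] at g3
    rw [hB, Finset.mem_filter]
    exact ⟨pset_gQ0 g0, pset_gQ0 g1, g2, g3⟩
  have hcard : (B1.card : ℝ) ≤ B.card := by exact_mod_cast Finset.card_le_card hsub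
  have h1 := (abs_le.1 h).1
  have h4 := mul_le_mul_of_nonneg_left hprod hnp.le
  linarith

end Pool.Agent.Lib.MP_c5b475_co.KN.Cf
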