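import Pool.Agent.Lib.MP_c5b475_co.KN.CfE
import Pool.Agent.Lib.MP_c5b475_co.KN.CfK
import Pool.Agent.Lib.MP_c5b475_co.KN.CfH

/-!
# KN/CfF: the additional sets, conclusion
-/

set_option autoImplicit false

namespace Pool.Agent.Lib.MP_c5b475_co.KN.Cf

open Finset

variable {N : ℕ} {n : ℕ} [NeZero n] {W : Type} [Fintype W] [DecidableEq W] {dm : Bool}
  {X : KT W Kd5 Ps2} {Hub : Finset W} {hi : W → Fin N} {q : ℕ}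
  {ρ ρR ρ1 ρC ρE ρH β τ μ δ e : ℝ} {L : ℕ} {mu : Sq9 → Ty N → ℝ} {D : Dens N}
  {w : Sq9 → ℕ → Ty N}

/-- all additional sets -/
theorem Ctx.ext (H : Ctx n dm X Hub hi q ρ ρR ρ1 ρC ρE ρH β τ μ δ e L mu D w) {θ : ℝ}
    (hθ : 12 * e ≤ θ) (hθn : 4 * (L : ℝ) ≤ θ * n)
    (h1 : 2 * e * (N + 1) ≤ μ * ρ * ρH / 2)
    (h3 : 4 * δ + 10 * e ≤ ρ1 ^ 2 * ρ ^ 4 * ρH ^ 2 / 2)
    (hL : 4 ≤ L * (ρH * ρE * ρ)) (he : 8 * e ≤ ρH * ρE * ρ) :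
    ∃ J1 : Finset (ZMod n), Ext dm X (cfg n dm w L X Hub hi) J1 (pset w L (gQ dm L 3))
      (pset w L (gres true 0)) (pset w L (gres false 0)) (pset w L (gres false 1))
      (pset w L (gres false 2)) (pset w L (gres false 3)) (L + 3) q (μ * ρ * ρH / 2) (ρ / 2)
      (ρ1 ^ 2 * ρ ^ 4 * ρH ^ 2 / 2) β τ θ :=
  H.ext0 hθ hθn h1 h3 (fun z s η hη => H.k4 z s η hη) (fun y η hη => H.k5 y η hη)
    (fun x _ hq sd => H.k6 hL he x hq sd)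

end Pool.Agent.Lib.MP_c5b475_co.KN.Cf
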