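import Pool.Agent.Lib.MP_c5b475_co.KN.CfL

/-!
# KN/CfL2: existence of the laws
-/

set_option autoImplicit false
set_option linter.unusedSectionVars false

namespace Pool.Agent.Lib.MP_c5b475_co.KN.Cf

open Finset

variable {N : ℕ}

/-- the sub-probabilities with given masses -/
noncomputable def nuL (y : Fin N → Kd5 → ℝ) (mk : Kd5 → ℝ) (x cc : ℝ) (t : Kd5 → ℝ)
    (q : Fin 4 → ℝ) : Sq9 → VV N → ℝ
  | .H, Sum.inl a => y a.1 a.2
  | .M s, Sum.inr (Sum.inl k) => if k.sd = s then mk k else 0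
  | .M _, Sum.inr (Sum.inr _) => x
  | .C _, Sum.inr (Sum.inr j) => if j = 0 then cc else 0
  | .T s, Sum.inr (Sum.inl k) => if k.sd = s then t k else 0
  | .TC, Sum.inr (Sum.inr j) => q j
  | .bit, Sum.inr (Sum.inr j) => if j = 0 then 1 / 2 else 0
  | _, _ => 0

variable (y : Fin N → Kd5 → ℝ) (mk : Kd5 → ℝ) (x cc : ℝ) (t : Kd5 → ℝ) (q : Fin 4 → ℝ)

theorem nuL_H : ∑ v, nuL y mk x cc t q .H v = ∑ i, ∑ k, y i k := by
  rw [Fintype.sum_sum_type, Fintype.sum_prod_type]
  simp [nuL]

theorem nuL_M (s : Bool) : ∑ v, nuL y mk x cc t q (.M s) v =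
    (∑ k : Kd5, if k.sd = s then mk k else 0) + 4 * x := by
  rw [Fintype.sum_sum_type, Fintype.sum_sum_type]
  simp [nuL]

theorem nuL_C (j : Bool) : ∑ v, nuL y mk x cc t q (.C j) v = cc := by
  rw [Fintype.sum_sum_type, Fintype.sum_sum_type]
  simp [nuL]

theorem nuL_T (s : Bool) : ∑ v, nuL y mk x cc t q (.T s) v =
    ∑ k : Kd5, if k.sd = s then t k else 0 := by
  rw [Fintype.sum_sum_type, Fintype.sum_sum_type]
  simp [nuL]

theorem nuL_TC : ∑ v, nuL y mk x cc t q .TC v = ∑ j, q j := by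
  rw [Fintype.sum_sum_type, Fintype.sum_sum_type]
  simp [nuL]

theorem nuL_bit : ∑ v, nuL y mk x cc t q .bit v = 1 / 2 := by
  rw [Fintype.sum_sum_type, Fintype.sum_sum_type]
  simp [nuL]

/-- masses of the masks -/
noncomputable def mS (s : Bool) : ℝ := (∑ k : Kd5, if k.sd = s then mk k else 0) + 4 * x

/-- mass of the hub types of side `s` -/
noncomputable def hS (s : Bool) : ℝ := ∑ i, ∑ k : Kd5, if k.sd = s then y i k else 0

theorem zn_M (s : Bool) : zn (nuL y mk x cc t q) (.M s) = 1 - mS mk x s := by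
  rw [zn, nuL_M, mS]

theorem zn_C (j : Bool) : zn (nuL y mk x cc t q) (.C j) = 1 - cc := by
  rw [zn, nuL_C]

theorem zn_H : zn (nuL y mk x cc t q) .H = 1 - ∑ i, ∑ k, y i k := by
  rw [zn, nuL_H]

theorem bit_ok : BitOK (nuL y mk x cc t q) := by
  rw [BitOK, zn, nuL_bit]
  norm_num

theorem hs_nuL (s : Bool) : hs (nuL y mk x cc t q) s = hS y s := rfl

/-- the densities for given masses -/
noncomputable def densL (dm : Bool) : Dens N where
  dS k := (1 - mS mk x k.sd) * (1 - hS y k.sd * ((1 - cc) * (1 - cc))) * t k * hw (Kd5.dm dm k)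
  dR k := mk k * hw (Kd5.dm dm k)
  dY i k := y i k * (1 - mS mk x k.sd) * ((1 - cc) * (1 - cc))
  dX := x
  dC := cc
  dQ j := ((1 - cc) * (1 - cc)) * (1 - hS y true * (1 - mS mk x true) -
    hS y false * (1 - mS mk x false)) * q j * hw (dj dm j)
  dQ0 j := (1 - ∑ i, ∑ k, y i k) * ((1 - cc) * (1 - cc)) * q j * hw (dj dm j)

theorem lawOK_nuL (dm : Bool) (L : ℕ) (hy : ∀ i k, 0 ≤ y i k) (hmk : ∀ k, 0 ≤ mk k) (hx : 0 ≤ x)
    (hcc : 0 ≤ cc) (ht : ∀ k, 0 ≤ t k) (hq : ∀ j, 0 ≤ q j) (h1 : ∑ i, ∑ k, y i k ≤ 1)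
    (h2 : ∀ s, mS mk x s ≤ 1) (h3 : cc ≤ 1)
    (h4 : ∀ s, (∑ k : Kd5, if Kd5.sd k = s then t k else 0) ≤ 1) (h5 : ∑ j, q j ≤ 1) :
    LawOK (cpl (nuL y mk x cc t q)) (densL y mk x cc t q dm) dm L := by
  have hbit := bit_ok y mk x cc t q
  have hN : ∀ i : Fin N, 2 ^ (i : ℕ) ≤ 2 ^ N := fun i => Nat.pow_le_pow_right (by norm_num) i.2.le
  have h2N : 1 ≤ 2 ^ N := Nat.one_le_two_pow
  refine ⟨?_, ?_, ?_, ?_, ?_, ?_, ?_, ?_, ?_⟩
  · refine cpl_nonneg _ ?_ ?_
    · intro k v
      rcases k with _ | s | j | s | _ | _ <;> rcases v with v | v | v <;> simp only [nuL] <;>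
        first
        | exact le_refl _
        | exact hy _ _
        | exact hx
        | exact hq _
        | (split_ifs <;> first | exact hmk _ | exact le_refl _ | exact hcc | exact ht _ | norm_num)
    · intro k
      cases k
      · rw [nuL_H]; exact h1
      · rw [nuL_M]; exact h2 _
      · rw [nuL_C]; exact h3
      · rw [nuL_T]; exact h4 _
      · rw [nuL_TC]; exact h5
      · rw [nuL_bit]; norm_num
  · intro k
    exact cpl_sum _ _
  · intro k p hp
    refine (pr_S L hbit dm k p (by omega)).trans ?_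
    rw [zn_M, zn_C, zn_C, hs_nuL]
    simp [nuL, densL]
  · intro k p hp
    refine (pr_R L hbit dm k p (by omega)).trans ?_
    simp [nuL, densL]
  · intro i k p hp
    refine (pr_Y L i k p (by have := hN i; omega)).trans ?_
    rw [zn_M, zn_C, zn_C]
    simp [nuL, densL]
  · intro sd j p
    refine (pr_res sd j p).trans ?_
    simp [nuL, densL]
  · intro j p
    refine (pr_C j p).trans ?_
    simp [nuL, densL]
  · intro j p hp
    refine (pr_Q L hbit dm j p (by omega)).trans ?_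
    rw [zn_M, zn_M, zn_C, zn_C, hs_nuL, hs_nuL]
    simp [nuL, densL]
  · intro j p hp
    refine (pr_Q0 L hbit dm j p (by omega)).trans ?_
    rw [zn_H, zn_C, zn_C]
    simp [nuL, densL]

/-- number of hubs -/
theorem hub_card_le {W : Type} [DecidableEq W] (Hub : Finset W) (hi : W → Fin N)
    (hinj : ∀ h ∈ Hub, ∀ h' ∈ Hub, hi h = hi h' → h = h') : Hub.card ≤ N := by
  have := card_le_card_of_injOn (s := Hub) (t := (univ : Finset (Fin N))) hi
    (fun _ _ => mem_coe.2 (mem_univ _)) (fun a ha b hb h => hinj a ha b hb h)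
  simpa using this

theorem law_exists {n : ℕ} (hn : 0 < n) {W : Type} [Fintype W] [DecidableEq W] (dm : Bool)
    (X : KT W Kd5 Ps2) (Hub : Finset W) (q : ℕ) {ρ ρR ρ1 ρC ρE ρH β τ : ℝ} (hρ : 0 < ρ)
    (hρR : 0 < ρR) (hρ1 : 0 < ρ1) (hρC : 0 < ρC) (hρE : 0 < ρE) (hρH : 0 < ρH) (hβ : 0 < β)
    (hB : Bud dm X Hub n q ρ ρR ρ1 ρC ρE ρH β τ) (hi : W → Fin N)
    (hinj : ∀ h ∈ Hub, ∀ h' ∈ Hub, hi h = hi h' → h = h') (δ : ℝ) (hδ : 0 < δ)
    (hδτ : 100 * (N + 1) * δ ≤ τ) (L : ℕ) :
    ∃ (mu : Sq9 → Ty N → ℝ) (D : Dens N), LawOK mu D dm L ∧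
      (∀ k, D.dS k = nk X Hub k / n + β + δ) ∧ (∀ k, D.dR k = ρR + δ) ∧ D.dX = ρ + δ ∧
      D.dC = ρC / 2 + δ ∧ D.dQ 0 = ncl X Hub Ps2.o / n + β + δ ∧
      D.dQ 1 = ncl X Hub Ps2.J / n + δ ∧
      D.dQ 2 = ((q : ℝ) - ncl X Hub Ps2.J) / n + δ ∧ D.dQ 3 = ρE + δ ∧
      (∀ j, ρH * D.dQ j ≤ D.dQ0 j) ∧
      (∀ h ∈ Hub, ∀ k, k.sd ≠ (X.kd h).sd → D.dY (hi h) k = Cfg.nch X h k / n + δ) ∧
      ∀ i k, (∀ h ∈ Hub, hi h = i → k.sd = (X.kd h).sd) → D.dY i k = 0 := by
  classical
  have hnr : (0 : ℝ) < n := by exact_mod_cast hn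
  have hN0 : (0 : ℝ) ≤ N := Nat.cast_nonneg N
  have hHN : (Hub.card : ℝ) ≤ N := by exact_mod_cast hub_card_le Hub hi hinj
  have hNδ : 0 ≤ N * δ := by positivity
  have hτ' : 100 * (N * δ) + 100 * δ ≤ τ := by linarith
  obtain ⟨B1, B2, B3, B4⟩ := hB
  have hnch : ∀ h k, 0 ≤ (Cfg.nch X h k : ℝ) / n := fun h k => by positivity
  -- the sums of the budget
  set SH : Bool → ℝ := fun s => ∑ h ∈ Hub, ∑ k : Kd5, if k.sd = s then
    (Cfg.nch X h k : ℝ) / n else 0 with hSH
  have hSH0 : ∀ s, 0 ≤ SH s := fun s => sum_nonneg fun h _ => sum_nonneg fun k _ => by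
    split_ifs
    · exact hnch h k
    · exact le_refl _
  have hSHt : SH true + SH false = ∑ h ∈ Hub, ∑ k : Kd5, (Cfg.nch X h k : ℝ) / n := by
    simp only [hSH]
    rw [← sum_add_distrib]
    refine sum_congr rfl fun h _ => ?_
    rw [← sum_add_distrib]
    refine sum_congr rfl fun k _ => ?_
    cases k.sd <;> simp
  rw [← hSHt] at B1 B3
  have hSHf : ∀ s, ∑ h ∈ Hub, ∑ k ∈ univ.filter (fun k : Kd5 => k.sd = s),
      (Cfg.nch X h k : ℝ) / n = SH s := fun s => by
    simp only [hSH, sum_filter]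
  set wd : Kd5 → ℝ := Kd5.wd dm with hwd
  have hwdp : ∀ k, 0 < wd k ∧ wd k ≤ 2 := fun k => by
    simp only [hwd, Kd5.wd]
    split_ifs <;> norm_num
  have hwh : ∀ k, wd k * hw (Kd5.dm dm k) = 1 := fun k => by
    simp only [hwd, Kd5.wd, hw]
    split_ifs <;> norm_num
  have hKu : (univ : Finset Kd5) = {.A, .B, .P0, .P1, .L} := by decide
  -- masses
  set y0 : Fin N → Kd5 → ℝ := fun i k => ∑ h ∈ Hub, if hi h = i ∧ k.sd ≠ (X.kd h).sd then
    (Cfg.nch X h k : ℝ) / n + δ else 0 with hy0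
  have hy0n : ∀ i k, 0 ≤ y0 i k := fun i k => sum_nonneg fun h _ => by
    split_ifs
    · positivity
    · exact le_refl _
  set Y : Bool → ℝ := fun s => ∑ i, ∑ k : Kd5, if k.sd = s then y0 i k else 0 with hY
  have hY0 : ∀ s, 0 ≤ Y s := fun s => sum_nonneg fun i _ => sum_nonneg fun k _ => by
    split_ifs
    · exact hy0n i k
    · exact le_refl _
  have hYle : ∀ s, Y s ≤ SH s + 5 * (N * δ) := by
    intro s
    have e1 : Y s = ∑ h ∈ Hub, ∑ k : Kd5, ∑ i : Fin N, (if k.sd = s then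
        (if hi h = i ∧ k.sd ≠ (X.kd h).sd then (Cfg.nch X h k : ℝ) / n + δ else 0) else 0) := by
      simp only [hY, hy0]
      calc ∑ i : Fin N, ∑ k : Kd5, (if k.sd = s then ∑ h ∈ Hub,
              (if hi h = i ∧ k.sd ≠ (X.kd h).sd then (Cfg.nch X h k : ℝ) / n + δ else 0) else 0)
          = ∑ i : Fin N, ∑ k : Kd5, ∑ h ∈ Hub, (if k.sd = s then
              (if hi h = i ∧ k.sd ≠ (X.kd h).sd then (Cfg.nch X h k : ℝ) / n + δ else 0)
                else 0) := by
            refine sum_congr rfl fun i _ => sum_congr rfl fun k _ => ?_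
            split_ifs
            · rfl
            · rw [sum_const_zero]
        _ = ∑ i : Fin N, ∑ h ∈ Hub, ∑ k : Kd5, (if k.sd = s then
              (if hi h = i ∧ k.sd ≠ (X.kd h).sd then (Cfg.nch X h k : ℝ) / n + δ else 0)
                else 0) := sum_congr rfl fun i _ => sum_comm
        _ = ∑ h ∈ Hub, ∑ i : Fin N, ∑ k : Kd5, (if k.sd = s then
              (if hi h = i ∧ k.sd ≠ (X.kd h).sd then (Cfg.nch X h k : ℝ) / n + δ else 0)
                else 0) := sum_comm
        _ = _ := sum_congr rfl fun h _ => sum_comm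
    have e2 : ∀ h (k : Kd5), ∑ i : Fin N, (if k.sd = s then
        (if hi h = i ∧ k.sd ≠ (X.kd h).sd then (Cfg.nch X h k : ℝ) / n + δ else 0) else 0) ≤
        (if k.sd = s then (Cfg.nch X h k : ℝ) / n else 0) + δ := by
      intro h k
      rw [sum_eq_single (hi h) (fun i _ hne => by
        split_ifs with h1 h2
        · exact absurd h2.1.symm hne
        · rfl
        · rfl) (fun h' => absurd (mem_univ _) h')]
      have := hnch h k
      split_ifs <;> linarith
    rw [e1]
    calc _ ≤ ∑ h ∈ Hub, ∑ k : Kd5, ((if k.sd = s then (Cfg.nch X h k : ℝ) / n else 0) + δ) :=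
          sum_le_sum fun h _ => sum_le_sum fun k _ => e2 h k
      _ = SH s + Hub.card * (5 * δ) := by
          simp only [sum_add_distrib, sum_const, card_univ, nsmul_eq_mul, hSH]
          have : (Fintype.card Kd5 : ℝ) = 5 := by
            have : Fintype.card Kd5 = 5 := by decide
            rw [this]
            norm_num
          rw [this]
      _ ≤ SH s + N * (5 * δ) := by
          have : (Hub.card : ℝ) * (5 * δ) ≤ N * (5 * δ) :=
            mul_le_mul_of_nonneg_right hHN (by positivity)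
          linarith
      _ = _ := by ring
  have hYtf : ∑ i, ∑ k, y0 i k = Y true + Y false := by
    simp only [hY]
    rw [← sum_add_distrib]
    refine sum_congr rfl fun i _ => ?_
    rw [← sum_add_distrib]
    refine sum_congr rfl fun k _ => ?_
    cases k.sd <;> simp
  set mk : Kd5 → ℝ := fun k => wd k * (ρR + δ) with hmk
  set x : ℝ := ρ + δ with hx
  set cc : ℝ := ρC / 2 + δ with hcc
  set u : ℝ := (1 - cc) * (1 - cc) with hu
  set m : Bool → ℝ := mS mk x with hm
  set Wd : Bool → ℝ := fun s => ∑ k : Kd5, if k.sd = s then wd k else 0 with hWd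
  have hWd5 : ∀ s, 0 ≤ Wd s ∧ Wd s ≤ 5 := by
    intro s
    simp only [hWd, hKu]
    rw [sum_insert (by decide), sum_insert (by decide), sum_insert (by decide),
      sum_insert (by decide), sum_singleton]
    cases s <;> cases dm <;> simp [Kd5.sd, hwd, Kd5.wd, Kd5.dm] <;> norm_num
  have hmW : ∀ s, m s = Wd s * (ρR + δ) + 4 * (ρ + δ) := by
    intro s
    simp only [hm, mS, hWd, hmk, hx, sum_mul]
    congr 1
    refine sum_congr rfl fun k _ => ?_
    split_ifs
    · rfl
    · rw [zero_mul]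
  have hm0 : ∀ s, 0 ≤ m s := fun s => by
    rw [hmW]
    have := (hWd5 s).1
    positivity
  have hm5 : ∀ s, m s ≤ 4 * ρ + 5 * ρR + 9 * δ := fun s => by
    rw [hmW]
    have h1 := (hWd5 s).2
    have h2 : Wd s * (ρR + δ) ≤ 5 * (ρR + δ) := mul_le_mul_of_nonneg_right h1 (by positivity)
    linarith
  have hcc0 : 0 ≤ cc := by rw [hcc]; positivity
  have hcc1 : cc < 1 := by
    rw [hcc]
    have := hSH0 true
    have := hSH0 false
    linarith
  have hu0 : 0 < u := by
    rw [hu]
    have : 0 < 1 - cc := by linarith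
    positivity
  have hu1 : u ≤ 1 := by
    rw [hu]
    nlinarith
  have hu2 : 1 - ρC - 2 * δ ≤ u := by
    rw [hu]
    have : (1 - cc) * (1 - cc) = 1 - 2 * cc + cc ^ 2 := by ring
    rw [this, hcc]
    nlinarith [sq_nonneg (ρC / 2 + δ)]
  set B : ℝ := 1 - 4 * ρ - 6 * ρR - ρC - 16 * δ with hBdef
  have hBρ : ρH ≤ B := by
    have := hSH0 true
    have := hSH0 false
    rw [hBdef]
    linarith
  have hB0 : 0 < B := lt_of_lt_of_le hρH hBρ
  have hB1 : B ≤ 1 := by rw [hBdef]; linarith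
  have hmu : ∀ s, B ≤ (1 - m s) * u := fun s => by
    have h1 := hm5 s
    have h2 : m s * u ≤ m s := by nlinarith [hm0 s]
    rw [hBdef]
    nlinarith
  have hm1 : ∀ s, 0 < 1 - m s := fun s => by
    have h1 := hm5 s
    have := hSH0 true
    have := hSH0 false
    linarith
  -- law of the hub types
  set y1 : Fin N → Kd5 → ℝ := fun i k => y0 i k / ((1 - m k.sd) * u) with hy1
  have hy1n : ∀ i k, 0 ≤ y1 i k := fun i k =>
    div_nonneg (hy0n i k) (mul_nonneg (hm1 _).le hu0.le)
  have hYB : Y true + Y false ≤ B * (1 - ρH) := by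
    have h1 := hYle true
    have h2 := hYle false
    have h3 : B - ρH ≤ B * (1 - ρH) := by nlinarith
    have : Y true + Y false ≤ B - ρH := by
      rw [hBdef]
      linarith
    linarith
  have hy1s : ∑ i, ∑ k, y1 i k ≤ 1 - ρH := by
    have h1 : ∑ i, ∑ k, y1 i k ≤ ∑ i, ∑ k, y0 i k / B := sum_le_sum fun i _ =>
      sum_le_sum fun k _ => div_le_div_of_nonneg_left (hy0n i k) hB0 (hmu _)
    have h2 : ∑ i, ∑ k, y0 i k / B = (Y true + Y false) / B := by
      rw [← hYtf, sum_div]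
      exact sum_congr rfl fun i _ => (sum_div _ _ _).symm
    rw [h2] at h1
    refine le_trans h1 ?_
    rw [div_le_iff₀ hB0]
    linarith
  have hhS : ∀ s, hS y1 s * ((1 - m s) * u) = Y s := by
    intro s
    simp only [hS, hY, sum_mul]
    refine sum_congr rfl fun i _ => sum_congr rfl fun k _ => ?_
    split_ifs with h
    · simp only [hy1]
      rw [h, div_mul_cancel₀]
      have := lt_of_lt_of_le hB0 (hmu s)
      exact this.ne'
    · rw [zero_mul]
  -- law of the label types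
  set den : Bool → ℝ := fun s => 1 - m s - Y s with hden
  set Ts : Bool → ℝ := fun s => ∑ k : Kd5, if k.sd = s then
    wd k * ((nk X Hub k : ℝ) / n + β + δ) else 0 with hTs
  have hTs0 : ∀ s, 0 ≤ Ts s := fun s => sum_nonneg fun k _ => by
    split_ifs
    · have := (hwdp k).1
      positivity
    · exact le_refl _
  have hTden : ∀ s, Ts s + τ / 2 ≤ den s := by
    intro s
    have h1 := B2 s
    rw [hSHf s] at h1
    have h2 : ∑ k ∈ univ.filter (fun k : Kd5 => k.sd = s),
        Kd5.wd dm k * ((nk X Hub k : ℝ) / n + β + ρR) = Ts s + Wd s * (ρR - δ) := by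
      rw [sum_filter]
      simp only [hTs, hWd, sum_mul]
      rw [← sum_add_distrib]
      refine sum_congr rfl fun k _ => ?_
      split_ifs
      · simp only [hwd]
        ring
      · ring
    rw [h2] at h1
    have h3 := hYle s
    have h4 := hWd5 s
    simp only [hden]
    rw [hmW s]
    have h5 : Wd s * δ ≤ 5 * δ := mul_le_mul_of_nonneg_right h4.2 hδ.le
    nlinarith
  have hτ0 : 0 < τ := by
    have : 0 < 100 * (N + 1) * δ := by positivity
    linarith
  have hden0 : ∀ s, 0 < den s := fun s => by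
    have := hTs0 s
    have := hTden s
    linarith
  set t : Kd5 → ℝ := fun k => wd k * ((nk X Hub k : ℝ) / n + β + δ) / den k.sd with ht
  have ht0 : ∀ k, 0 ≤ t k := fun k => by
    have := (hwdp k).1
    have := hden0 k.sd
    simp only [ht]
    positivity
  have hts : ∀ s, (∑ k : Kd5, if Kd5.sd k = s then t k else 0) ≤ 1 := by
    intro s
    have h1 : (∑ k : Kd5, if Kd5.sd k = s then t k else 0) = Ts s / den s := by
      simp only [hTs, ht]
      rw [sum_div]
      refine sum_congr rfl fun k _ => ?_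
      split_ifs with h
      · rw [h]
      · rw [zero_div]
    rw [h1, div_le_one (hden0 s)]
    have := hTden s
    linarith
  -- law of the colour types
  set w : ℝ := if dm = true then 2 else 1 with hw'
  have hw0 : 1 ≤ w ∧ w ≤ 2 := by
    simp only [hw']
    split_ifs <;> norm_num
  set a : Fin 4 → ℝ := fun j => if j = 0 then (ncl X Hub Ps2.o : ℝ) / n + β + δ else
    if j = 1 then w * ((ncl X Hub Ps2.J : ℝ) / n + δ) else
    if j = 2 then w * (((q : ℝ) - ncl X Hub Ps2.J) / n + δ) else ρE + δ with ha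
  have hqJ : 0 ≤ ((q : ℝ) - ncl X Hub Ps2.J) / n := by
    refine div_nonneg ?_ hnr.le
    have : 0 ≤ (ρ1 + τ) * n := by positivity
    linarith
  have ha0 : ∀ j, 0 ≤ a j := fun j => by
    simp only [ha]
    have := hw0.1
    split_ifs <;> positivity
  set dC : ℝ := u - Y true - Y false with hdC
  have hasum : ∑ j, a j + τ / 2 ≤ dC := by
    have h1 : ∑ j, a j = (ncl X Hub Ps2.o : ℝ) / n + β + δ + w * ((q : ℝ) / n + 2 * δ) +
        (ρE + δ) := by
      rw [Fin.sum_univ_four]
      simp [ha]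
      field_simp
      ring
    have h2 := hYle true
    have h3 := hYle false
    rw [h1, hdC]
    have h4 : w * ((q : ℝ) / n + 2 * δ) ≤ w * ((q : ℝ) / n) + 4 * δ := by nlinarith [hw0.2]
    linarith
  have hdC0 : 0 < dC := by
    have : 0 ≤ ∑ j, a j := sum_nonneg fun j _ => ha0 j
    linarith
  set q' : Fin 4 → ℝ := fun j => a j / dC with hq'
  have hq0 : ∀ j, 0 ≤ q' j := fun j => div_nonneg (ha0 j) hdC0.le
  have hqs : ∑ j, q' j ≤ 1 := by
    simp only [hq']
    rw [← sum_div, div_le_one hdC0]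
    linarith
  -- the densities
  have hdS : ∀ k, (1 - m k.sd) * (1 - hS y1 k.sd * u) * t k * hw (Kd5.dm dm k) =
      (nk X Hub k : ℝ) / n + β + δ := by
    intro k
    have h1 := hhS k.sd
    have h2 : (1 - m k.sd) * (1 - hS y1 k.sd * u) = den k.sd := by
      simp only [hden]
      rw [← h1]
      ring
    rw [h2]
    simp only [ht]
    have h3 := (hden0 k.sd).ne'
    have h4 := hwh k
    calc den k.sd * (wd k * ((nk X Hub k : ℝ) / n + β + δ) / den k.sd) * hw (Kd5.dm dm k)
        = (den k.sd / den k.sd) * (wd k * hw (Kd5.dm dm k)) *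
          ((nk X Hub k : ℝ) / n + β + δ) := by ring
      _ = _ := by rw [div_self h3, h4, one_mul, one_mul]
  have hdQ : ∀ j, u * (1 - hS y1 true * (1 - m true) - hS y1 false * (1 - m false)) * q' j *
      hw (dj dm j) = a j * hw (dj dm j) := by
    intro j
    have h1 := hhS true
    have h2 := hhS false
    have h3 : u * (1 - hS y1 true * (1 - m true) - hS y1 false * (1 - m false)) = dC := by
      rw [hdC, ← h1, ← h2]
      ring
    rw [h3]
    simp only [hq']
    rw [mul_div_cancel₀ _ hdC0.ne']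
  have hwj : w * hw (dm) = 1 := by
    simp only [hw', hw]
    split_ifs <;> norm_num
  refine ⟨cpl (nuL y1 mk x cc t q'), densL y1 mk x cc t q' dm,
    lawOK_nuL y1 mk x cc t q' dm L hy1n (fun k => ?_) ?_ hcc0 ht0 hq0 ?_ (fun s => ?_) hcc1.le hts
      hqs, hdS, fun k => ?_, rfl, rfl, ?_, ?_, ?_, ?_, fun j => ?_, ?_, ?_⟩
  · have := (hwdp k).1
    simp only [hmk]
    positivity
  · rw [hx]; positivity
  · linarith
  · have := hm1 s
    linarith
  · show mk k * hw (Kd5.dm dm k) = ρR + δ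
    simp only [hmk]
    calc wd k * (ρR + δ) * hw (Kd5.dm dm k) = (wd k * hw (Kd5.dm dm k)) * (ρR + δ) := by ring
      _ = _ := by rw [hwh, one_mul]
  · refine (hdQ 0).trans ?_
    simp [ha, dj, hw]
  · refine (hdQ 1).trans ?_
    have : dj dm 1 = dm := by simp [dj]
    rw [this]
    simp only [ha]
    rw [if_neg (by decide), if_pos trivial]
    calc _ = (w * hw dm) * ((ncl X Hub Ps2.J : ℝ) / n + δ) := by ring
      _ = _ := by rw [hwj, one_mul]
  · refine (hdQ 2).trans ?_
    have : dj dm 2 = dm := by simp [dj]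
    rw [this]
    simp only [ha]
    rw [if_neg (by decide), if_neg (by decide), if_pos trivial]
    calc _ = (w * hw dm) * (((q : ℝ) - ncl X Hub Ps2.J) / n + δ) := by ring
      _ = _ := by rw [hwj, one_mul]
  · refine (hdQ 3).trans ?_
    have : dj dm 3 = false := by
      cases dm <;> decide
    rw [this]
    simp [ha, hw]
  · show ρH * (u * (1 - hS y1 true * (1 - m true) - hS y1 false * (1 - m false)) * q' j *
      hw (dj dm j)) ≤ (1 - ∑ i, ∑ k, y1 i k) * u * q' j * hw (dj dm j)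
    have h1 := hhS true
    have h2 := hhS false
    have h3 : u * (1 - hS y1 true * (1 - m true) - hS y1 false * (1 - m false)) = dC := by
      rw [hdC, ← h1, ← h2]
      ring
    rw [h3]
    have h4 : 0 ≤ q' j * hw (dj dm j) := mul_nonneg (hq0 j) (by
      simp only [hw]
      split_ifs <;> norm_num)
    have h5 : dC ≤ u := by
      rw [hdC]
      linarith [hY0 true, hY0 false]
    have h6 : ρH * dC ≤ (1 - ∑ i, ∑ k, y1 i k) * u := by
      have h7 : ρH ≤ 1 - ∑ i, ∑ k, y1 i k := by linarith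
      exact mul_le_mul h7 h5 hdC0.le (by linarith)
    calc ρH * (dC * q' j * hw (dj dm j)) = (ρH * dC) * (q' j * hw (dj dm j)) := by ring
      _ ≤ ((1 - ∑ i, ∑ k, y1 i k) * u) * (q' j * hw (dj dm j)) :=
          mul_le_mul_of_nonneg_right h6 h4
      _ = _ := by ring
  · intro h hh k hk
    show y1 (hi h) k * (1 - m k.sd) * u = _
    have h1 : ((1 - m k.sd) * u) ≠ 0 := (lt_of_lt_of_le hB0 (hmu k.sd)).ne'
    have h2 : y1 (hi h) k * (1 - m k.sd) * u = y0 (hi h) k := by
      simp only [hy1]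
      rw [mul_assoc, div_mul_cancel₀ _ h1]
    rw [h2]
    simp only [hy0]
    rw [sum_eq_single h (fun h' hh' hne => by
      rw [if_neg]
      rintro ⟨h3, _⟩
      exact hne (hinj _ hh' _ hh h3)) (fun h' => absurd hh h'), if_pos ⟨rfl, hk⟩]
  · intro i k hk
    show y1 i k * (1 - m k.sd) * u = 0
    have : y0 i k = 0 := by
      simp only [hy0]
      refine sum_eq_zero fun h hh => ?_
      rw [if_neg]
      rintro ⟨h3, h4⟩
      exact h4 (hk h hh h3)
    simp only [hy1]
    rw [this]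
    simp

end Pool.Agent.Lib.MP_c5b475_co.KN.Cf
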