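import Pool.Agent.Lib.MP_c5b475_co.CF.Config3
import Pool.Agent.Lib.MP_c5b475_co.KN.CfL2
import Pool.Agent.Lib.MP_c5b475_co.KN.CfA
import Pool.Agent.Lib.MP_c5b475_co.KN.CfF

/-!
# KN/CfgThm: the configuration theorem
-/

set_option autoImplicit false
set_option linter.unusedSectionVars false

namespace Pool.Agent.Lib.MP_c5b475_co.KN

open Finset Cf

/-- positions near the end of a block -/
theorem cfT_bad (N L : ℕ) : (((range L).filter fun p => ¬ p + 2 ^ N + 2 < L).card : ℕ) ≤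
    2 ^ N + 2 := by
  have h : ((range L).filter fun p => ¬ p + 2 ^ N + 2 < L) ⊆ Finset.Ico (L - (2 ^ N + 2)) L := by
    intro p hp
    rw [mem_filter, mem_range] at hp
    rw [Finset.mem_Ico]
    omega
  refine le_trans (card_le_card h) ?_
  rw [Nat.card_Ico]
  generalize 2 ^ N + 2 = c
  omega

/-- the configuration lemma for the nine sequences -/
theorem cnt_exists (N L : ℕ) (hL : 0 < L) (e : ℝ) (he : 0 < e) (he1 : e < 1)
    (hLe : 10 * (2 ^ N + 2 : ℝ) ≤ e * L) :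
    ∃ n0 : ℕ, ∀ mu : Sq9 → Ty N → ℝ, (∀ k t, 0 ≤ mu k t) → (∀ k, ∑ t, mu k t = 1) →
      ∀ (n : ℕ) [NeZero n], n0 ≤ n → ∃ w : Sq9 → ℕ → Ty N, Cnt n mu w L 5 e := by
  classical
  obtain ⟨n0, H⟩ := CF.config3 (ι := Sq9) (T := Ty N) L 5 hL (e / 2) (e / 10) (by positivity)
    (by linarith)
  refine ⟨n0, fun mu h0 h1 n _ hn => ?_⟩
  obtain ⟨w, _, hw⟩ := H mu h0 h1 n hn
  refine ⟨w, ?_⟩
  intro m hm D s a G q hD hq hd
  have h2 := hw m hm D s a G q ((range L).filter fun p => ¬ p + 2 ^ N + 2 < L)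
    (fun i t t' p h => hD i t t' p h) (fun i p hp hpB => by
      have h3 : p + 2 ^ N + 2 < L := by
        by_contra h4
        exact hpB (mem_filter.2 ⟨mem_range.2 hp, h4⟩)
      rw [← hq i p h3]
      unfold Pr
      refine sum_congr rfl fun v _ => ?_
      congr) (by
      have h3 : (((range L).filter fun p => ¬ p + 2 ^ N + 2 < L).card : ℝ) ≤ (2 ^ N + 2 : ℝ) := by
        exact_mod_cast cfT_bad N L
      linarith) hd
  have h3 : ((m : ℝ)) ≤ 5 := by exact_mod_cast hm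
  have h4 : (0 : ℝ) < n := by exact_mod_cast Nat.pos_of_ne_zero (NeZero.ne n)
  refine le_trans (le_of_eq ?_) (le_trans h2 ?_)
  · congr
  · refine mul_le_mul_of_nonneg_right ?_ h4.le
    nlinarith

/-- **Configuration theorem.** -/
theorem cfg_exists (dm : Bool) (ρ ρR ρ1 ρC ρE ρH β τ μ : ℝ) (hρ : 0 < ρ) (hρR : 0 < ρR) (hρ1 : 0 < ρ1)
    (hρC : 0 < ρC) (hρE : 0 < ρE) (hρH : 0 < ρH) (hβ : 0 < β) (hτ : 0 < τ) (hμ : 0 < μ)
    (hβμ : β ≤ μ) :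
    ∀ (h0 : ℕ) (κ₁ κ₂ θ : ℝ), 0 < κ₂ → 0 < θ → ∃ n₀ : ℕ, ∀ (n : ℕ) [NeZero n], n₀ ≤ n →
      ∀ (W : Type) [Fintype W] [DecidableEq W] (X : KT W Kd5 Ps2) (Hub : Finset W) (q : ℕ),
      Fintype.card W ≤ n + 1 → Std dm X → HubOK X Hub κ₁ h0 n →
      Bud dm X Hub n q ρ ρR ρ1 ρC ρE ρH β τ → μ * n ≤ (ncl X Hub Ps2.J : ℝ) →
      ∃ (C : Cfg n W Kd5 Ps2) (J1 E RA RB Y1 Y2 Y3 : Finset (ZMod n)) (F : ℕ), C.Hub = Hub ∧
        CfgOK C X β (ρR * ρC ^ 2 / 8) κ₁ κ₂ θ h0 ∧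
        Ext dm X C J1 E RA RB Y1 Y2 Y3 F q (μ * ρ * ρH / 2) (ρ / 2)
          (ρ1 ^ 2 * ρ ^ 4 * ρH ^ 2 / 2) β τ θ := by
  classical
  intro h0 κ₁ κ₂ θ hκ₂ hθ
  set N : ℕ := h0 + 1 with hN
  set b : ℝ := ρ1 ^ 2 * ρ ^ 4 * ρH ^ 2 / 2 with hb
  have hb0 : 0 < b := by positivity
  obtain ⟨δ, hδ, hδτ, hδb⟩ : ∃ δ : ℝ, 0 < δ ∧ 100 * (N + 1) * δ ≤ τ ∧ 8 * δ ≤ b := by
    refine ⟨min (τ / (100 * (N + 1))) (b / 8), by positivity, ?_, ?_⟩
    · have h1 : min (τ / (100 * ((N : ℝ) + 1))) (b / 8) ≤ τ / (100 * (N + 1)) := min_le_left _ _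
      rw [le_div_iff₀ (by positivity)] at h1
      linarith
    · have h1 : min (τ / (100 * ((N : ℝ) + 1))) (b / 8) ≤ b / 8 := min_le_right _ _
      linarith
  obtain ⟨e, he, he1, heδ, heθ, heθβ, hec, hea, heb, heE⟩ : ∃ e : ℝ, 0 < e ∧ e < 1 ∧
      10 * e ≤ δ ∧ 12 * e ≤ θ ∧ 10 * e ≤ θ * β ^ 2 ∧ 2 * e ≤ ρR * ρC ^ 2 / 8 ∧
      2 * e * (N + 1) ≤ μ * ρ * ρH / 2 ∧ 20 * e ≤ b ∧ 8 * e ≤ ρH * ρE * ρ := by
    obtain ⟨m, hm, h1, h2, h3, h4, h5, h6, h7, h8⟩ : ∃ m : ℝ, 0 < m ∧ m ≤ 1 ∧ m ≤ δ ∧ m ≤ θ ∧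
        m ≤ θ * β ^ 2 ∧ m ≤ ρR * ρC ^ 2 / 8 ∧ m ≤ μ * ρ * ρH / 2 ∧ m ≤ b ∧ m ≤ ρH * ρE * ρ := by
      refine ⟨min 1 (min δ (min θ (min (θ * β ^ 2) (min (ρR * ρC ^ 2 / 8) (min (μ * ρ * ρH / 2)
        (min b (ρH * ρE * ρ))))))), by positivity, ?_⟩
      simp only [min_le_iff, le_refl, true_or, or_true, and_self]
    have hN1 : (0 : ℝ) < 20 * (N + 1) := by positivity
    have hN2 : (0 : ℝ) ≤ N := Nat.cast_nonneg N
    refine ⟨m / (20 * (N + 1)), by positivity, ?_, ?_, ?_, ?_, ?_, ?_, ?_, ?_⟩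
    all_goals
      have h9 : m / (20 * ((N : ℝ) + 1)) * (20 * (N + 1)) = m := div_mul_cancel₀ _ hN1.ne'
      have h10 : 0 < m / (20 * ((N : ℝ) + 1)) := by positivity
      nlinarith
  obtain ⟨L, hL1, hL2⟩ : ∃ L : ℕ, 10 * (2 ^ N + 2 : ℝ) ≤ e * L ∧ 4 ≤ L * (ρH * ρE * ρ) := by
    have hp : 0 < ρH * ρE * ρ := by positivity
    obtain ⟨L, hL⟩ := exists_nat_ge (10 * (2 ^ N + 2 : ℝ) / e + 4 / (ρH * ρE * ρ))
    have h1 : 0 ≤ 10 * (2 ^ N + 2 : ℝ) / e := by positivity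
    have h2 : 0 ≤ 4 / (ρH * ρE * ρ) := by positivity
    refine ⟨L, ?_, ?_⟩
    · have h3 : 10 * (2 ^ N + 2 : ℝ) / e ≤ L := by linarith
      rw [div_le_iff₀ he] at h3
      linarith
    · have h3 : 4 / (ρH * ρE * ρ) ≤ L := by linarith
      rwa [div_le_iff₀ hp] at h3
  have hLbig : 2 ^ N + 2 < L := by
    have h1 : (2 ^ N + 2 : ℝ) < L := by
      have h2 : (0 : ℝ) < 2 ^ N + 2 := by positivity
      have h3 : e * L ≤ L := by nlinarith [Nat.cast_nonneg (α := ℝ) L]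
      linarith
    exact_mod_cast h1
  obtain ⟨n1, H⟩ := cnt_exists N L (lt_of_le_of_lt (Nat.zero_le _) hLbig) e he he1 hL1
  obtain ⟨n2, hn2⟩ := exists_nat_ge (5 * (4 * L + 5) / e + 4 * L / θ)
  refine ⟨n1 + n2 + (6 * L + 9), ?_⟩
  intro n _ hn W _ _ X Hub q hW hStd hH hB hJ
  have hn2' : 5 * (4 * L + 5) / e + 4 * L / θ ≤ (n : ℝ) :=
    le_trans hn2 (by exact_mod_cast (show n2 ≤ n by omega))
  have hz : (5 : ℝ) * (4 * L + 5) ≤ e * n := by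
    have h1 : 5 * (4 * (L : ℝ) + 5) / e ≤ n := by
      have : 0 ≤ 4 * (L : ℝ) / θ := by positivity
      linarith
    rw [div_le_iff₀ he] at h1
    linarith
  have hθn : 4 * (L : ℝ) ≤ θ * n := by
    have h1 : 4 * (L : ℝ) / θ ≤ n := by
      have : 0 ≤ 5 * (4 * (L : ℝ) + 5) / e := by positivity
      linarith
    rw [div_le_iff₀ hθ] at h1
    linarith
  have hHc : Hub.card ≤ N := by
    have := hH.hub_card
    omega
  obtain ⟨hi, hinj⟩ : ∃ hi : W → Fin N, ∀ h ∈ Hub, ∀ h' ∈ Hub, hi h = hi h' → h = h' := by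
    have h1 : Fintype.card {x // x ∈ Hub} ≤ Fintype.card (Fin N) := by
      rw [Fintype.card_coe, Fintype.card_fin]
      exact hHc
    obtain ⟨f⟩ := Function.Embedding.nonempty_of_card_le h1
    refine ⟨fun x => if hx : x ∈ Hub then f ⟨x, hx⟩ else ⟨0, by omega⟩, ?_⟩
    intro h hh h' hh' heq
    simp only [dif_pos hh, dif_pos hh'] at heq
    have := f.injective heq
    exact congrArg Subtype.val this
  obtain ⟨mu, D, hlaw, d1, d2, d3, d4, d5, d6, d7, d8, d9, d10, _⟩ :=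
    law_exists (N := N) (show 0 < n by omega) dm X Hub q hρ hρR hρ1 hρC hρE hρH hβ hB hi hinj δ hδ
      hδτ L
  obtain ⟨w, hw⟩ := H mu hlaw.nonneg hlaw.sum n (by omega)
  have hctx : Ctx n dm X Hub hi q ρ ρR ρ1 ρC ρE ρH β τ μ δ e L mu D w :=
    { det := ⟨hStd, hinj, hLbig, by omega⟩
      cnt := hw
      law := hlaw
      bud := hB
      hubk := hH.hub_kd
      hubc := hHc
      nclJ := hJ
      dS := d1
      dR := d2
      dX := d3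
      dC := d4
      dQo := d5
      dQJ := d6
      dQ1 := d7
      dQE := d8
      dQ0 := d9
      dY := fun h hh k hk => d10 h hh k (by rw [hStd.side] at hk; exact hk)
      ρ0 := hρ
      ρR0 := hρR
      ρ10 := hρ1
      ρC0 := hρC
      ρE0 := hρE
      ρH0 := hρH
      β0 := hβ
      τ0 := hτ
      μ0 := hμ
      βμ := hβμ
      δ0 := hδ
      e0 := he
      δτ := hδτ
      eδ := heδ
      zone := hz
      N1 := by omega }
  obtain ⟨J1, hJ1⟩ := hctx.ext heθ hθn hea (by linarith) hL2 heE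
  exact ⟨cfg n dm w L X Hub hi, J1, _, _, _, _, _, _, L + 3, rfl,
    hctx.cfgOK hH hκ₂ heθ heθβ hθn hec, hJ1⟩

end Pool.Agent.Lib.MP_c5b475_co.KN
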