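import Pool.Agent.Lib.MP_c5b475_co.KN.SwS

/-!
# KN/EndI: the exact end in case (I)

`Cs` = complement of the colours of the edges `w ≠ root`, `w ∉ D`, not special: these are
`card W - 1 - #spl` different colours (`Emb.cin`; a vertex of `D` is special, so it is not a parent), so
`|Cs| = n - (card W - 1 - #spl) = #spl + |π|` by `hcard`. Apply `swap_stage`. New labelling: `lab w` for
a vertex that is not special, `ci w - lab (par w)` for a special one, `cp p - lab (pp p)` on `π`.
An item with `ci w = col lab w` keeps `lab w`. Distinct labels on side `false`: unchanged labels are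
outside `Y1 ∪ Y2 ∪ Y3` by `hY` and distinct by `Emb.inj`.
-/

set_option autoImplicit false

namespace Pool.Agent.Lib.MP_c5b475_co.KN

open Finset

theorem end_one {n : ℕ} [NeZero n] {W Kd Ψ π : Type} [Fintype W] [DecidableEq W] [Fintype π]
    [DecidableEq π] (X : KT W Kd Ψ) (lab : W → ZMod n) (D : Finset W)
    (hD : ∀ w ∈ D, X.spl (X.kd w) = true) (hE : X.Emb (univ \ D) lab) (ho : ∀ w, X.o w = 0)
    (hspl : ∀ k, X.spl k = true → X.side k = false) (pp : π → W)
    (hpp : ∀ p, X.side (X.kd (pp p)) = true) (hcard : Fintype.card W + Fintype.card π = n + 1)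
    (Y1 Y2 Y3 : Finset (ZMod n)) (h12 : Disjoint Y1 Y2) (h13 : Disjoint Y1 Y3)
    (h23 : Disjoint Y2 Y3)
    (hY : ∀ w, w ∉ D → X.side (X.kd w) = false → lab w ∉ Y1 ∪ Y2 ∪ Y3)
    (A : ℕ) (r θ : ℝ) (hr0 : 0 ≤ r) (hθ : 0 ≤ θ)
    (h1 : ∀ x, A ≤ (univ.filter fun w => w ∉ D ∧ X.spl (X.kd w) = true ∧
      X.col lab w - x ∈ Y1).card)
    (h3 : ∀ s, A ≤ (univ.filter fun w => w ∉ D ∧ X.spl (X.kd w) = true ∧
      s - lab (X.t.par w) ∈ Y3).card)
    (hr : r * n ≤ (Y2.card : ℝ)) (haut : Aut θ Y2)
    (h4 : 6 * (D.card + Fintype.card π) ≤ A)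
    (h5 : ((D.card : ℝ) + Fintype.card π + 2) * n < (A / 2 : ℝ) ^ 2 * r - Real.sqrt θ * (n : ℝ) ^ 2) :
    ∃ f : W ⊕ π → ZMod n,
      (∀ u v : W ⊕ π, Sum.elim (fun w => X.side (X.kd w)) (fun _ => false) u =
        Sum.elim (fun w => X.side (X.kd w)) (fun _ => false) v → f u = f v → u = v) ∧
      (∀ w w' : W, w ≠ X.t.root → w' ≠ X.t.root →
        f (Sum.inl w) + f (Sum.inl (X.t.par w)) = f (Sum.inl w') + f (Sum.inl (X.t.par w')) →
        w = w') ∧
      (∀ (w : W) (p : π), w ≠ X.t.root →
        f (Sum.inl w) + f (Sum.inl (X.t.par w)) ≠ f (Sum.inr p) + f (Sum.inl (pp p))) ∧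
      (∀ p q : π, f (Sum.inr p) + f (Sum.inl (pp p)) = f (Sum.inr q) + f (Sum.inl (pp q)) →
        p = q) := by
  classical
  have hch : ∀ w, w ≠ X.t.root → w ∈ X.t.ch (X.t.par w) := by
    intro w hw
    unfold RTr.ch
    rw [mem_filter]
    exact ⟨mem_univ _, hw, rfl⟩
  have hpar : ∀ w, w ≠ X.t.root → X.spl (X.kd (X.t.par w)) = false := by
    intro w hw
    by_contra h
    have h2 := X.spl_leaf (X.t.par w) (by simpa using h)
    have h3 := hch w hw
    rw [h2] at h3
    simp at h3
  have hnD : ∀ w, X.spl (X.kd w) = false → w ∉ D := by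
    intro w hw hwD
    have := hD w hwD
    rw [hw] at this
    exact absurd this (by simp)
  have hroot : ∀ w, X.spl (X.kd w) = true → w ≠ X.t.root := by
    intro w hw hwr
    have := X.spl_root
    rw [← hwr, hw] at this
    exact absurd this (by simp)
  have hEdge : ∀ w, w ≠ X.t.root → w ∉ D → X.EdgeIn (univ \ D) w := by
    intro w hw hwD
    refine ⟨hw, by simp [hwD], ?_⟩
    have := hnD _ (hpar w hw)
    simp [this]
  -- the colours which are kept
  set N : Finset W := univ.filter fun w => w ≠ X.t.root ∧ X.spl (X.kd w) = false with hN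
  set Cs : Finset (ZMod n) := univ \ N.image (X.col lab) with hCs
  have hNinj : Set.InjOn (X.col lab) N := by
    intro u hu v hv huv
    rw [hN, mem_coe, mem_filter] at hu hv
    exact hE.cin u v (hEdge u hu.2.1 (hnD u hu.2.2)) (hEdge v hv.2.1 (hnD v hv.2.2)) huv
  have hNcard : N.card + 1 + (univ.filter fun w => X.spl (X.kd w) = true).card =
      Fintype.card W := by
    have e1 : (univ.filter fun w => X.spl (X.kd w) = false) = insert X.t.root N := by
      ext w
      simp only [hN, mem_filter, mem_univ, true_and, mem_insert]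
      constructor
      · intro h
        by_cases hw : w = X.t.root
        · exact Or.inl hw
        · exact Or.inr ⟨hw, h⟩
      · rintro (h | h)
        · rw [h]; exact X.spl_root
        · exact h.2
    have e2 : X.t.root ∉ N := by
      simp [hN]
    have e3 : (univ.filter fun w => X.spl (X.kd w) = false).card = N.card + 1 := by
      rw [e1, card_insert_of_notMem e2]
    have e4 := card_filter_add_card_filter_not (s := (univ : Finset W))
      (fun w => X.spl (X.kd w) = true)
    have e5 : (univ.filter fun w => ¬ X.spl (X.kd w) = true) =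
        (univ.filter fun w => X.spl (X.kd w) = false) := by
      ext w; simp
    rw [e5, e3, card_univ] at e4
    omega
  have hCc : Cs.card = (univ.filter fun w => X.spl (X.kd w) = true).card + Fintype.card π := by
    have e1 : (N.image (X.col lab)).card = N.card := card_image_of_injOn hNinj
    have e2 : Cs.card + (N.image (X.col lab)).card = n := by
      rw [hCs, card_sdiff_add_card_eq_card (subset_univ _), card_univ, ZMod.card]
    omega
  have hC : ∀ w, w ∉ D → X.spl (X.kd w) = true → X.col lab w ∈ Cs := by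
    intro w hwD hw
    rw [hCs, mem_sdiff]
    refine ⟨mem_univ _, ?_⟩
    intro h
    rw [mem_image] at h
    obtain ⟨u, hu, huw⟩ := h
    rw [hN, mem_filter] at hu
    have := hE.cin u w (hEdge u hu.2.1 (hnD u hu.2.2)) (hEdge w (hroot w hw) hwD) huw
    rw [this, hw] at hu
    exact absurd hu.2.2 (by simp)
  obtain ⟨ci, cp, a1, a2, a3, a4, a5, a6, a7, a8, a9, a10⟩ :=
    swap_stage X lab D hD hE hspl (fun w _ => ho w) pp (by omega) Y1 Y2 Y3 h12 h13 h23 hY Cs hC
      hCc A r θ hr0 hθ h1 h3 hr haut h4 h5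
  have hcol : ∀ w, X.col lab w = lab w + lab (X.t.par w) := by
    intro w
    unfold KT.col
    rw [ho w]
    simp
  have hNC : ∀ w, w ≠ X.t.root → X.spl (X.kd w) = false → lab w + lab (X.t.par w) ∉ Cs := by
    intro w hw1 hw2 h
    rw [hCs, mem_sdiff] at h
    apply h.2
    rw [mem_image]
    refine ⟨w, ?_, hcol w⟩
    rw [hN, mem_filter]
    exact ⟨mem_univ _, hw1, hw2⟩
  have hppf : ∀ p, X.spl (X.kd (pp p)) = false := by
    intro p
    by_contra h
    have h2 := hspl _ (by simpa using h)
    rw [hpp p] at h2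
    exact absurd h2 (by simp)
  -- special against not special
  have hmix : ∀ w w', X.spl (X.kd w) = true → X.spl (X.kd w') = false →
      X.side (X.kd w) = X.side (X.kd w') → ci w - lab (X.t.par w) ≠ lab w' := by
    intro w w' hw hw' hs h
    have hs' : X.side (X.kd w') = false := by rw [← hs]; exact hspl _ hw
    rcases a6 w hw with ⟨h6, h7⟩ | h6
    · rw [h7, hcol w] at h
      have h8 : lab w = lab w' := by
        rw [← h]; ring
      have := hE.inj w (by simp [h6]) w' (by simp [hnD w' hw']) hs h8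
      rw [this, hw'] at hw
      exact absurd hw (by simp)
    · rw [h] at h6
      exact hY w' (hnD w' hw') hs' h6
  let f : W ⊕ π → ZMod n := Sum.elim
    (fun w => if X.spl (X.kd w) = true then ci w - lab (X.t.par w) else lab w)
    (fun p => cp p - lab (pp p))
  have f1 : ∀ w, X.spl (X.kd w) = true → f (Sum.inl w) = ci w - lab (X.t.par w) :=
    fun w hw => if_pos hw
  have f2 : ∀ w, X.spl (X.kd w) = false → f (Sum.inl w) = lab w :=
    fun w hw => if_neg (by rw [hw]; simp)
  have f3 : ∀ p, f (Sum.inr p) = cp p - lab (pp p) := fun p => rfl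
  have g1 : ∀ w, w ≠ X.t.root → X.spl (X.kd w) = true →
      f (Sum.inl w) + f (Sum.inl (X.t.par w)) = ci w := by
    intro w hw1 hw2
    rw [f1 w hw2, f2 _ (hpar w hw1)]
    ring
  have g2 : ∀ w, w ≠ X.t.root → X.spl (X.kd w) = false →
      f (Sum.inl w) + f (Sum.inl (X.t.par w)) = lab w + lab (X.t.par w) := by
    intro w hw1 hw2
    rw [f2 w hw2, f2 _ (hpar w hw1)]
  have g3 : ∀ p, f (Sum.inr p) + f (Sum.inl (pp p)) = cp p := by
    intro p
    rw [f3, f2 _ (hppf p)]
    ring
  refine ⟨f, ?_, ?_, ?_, ?_⟩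
  · -- labels
    have key : ∀ (w : W) (p : π), X.side (X.kd w) = false → f (Sum.inl w) ≠ f (Sum.inr p) := by
      intro w p hs h
      by_cases hw : X.spl (X.kd w) = true
      · rw [f1 w hw, f3] at h
        exact a10 w p hw h
      · have hw' : X.spl (X.kd w) = false := by simpa using hw
        rw [f2 w hw', f3] at h
        have h7 := a7 p
        rw [← h] at h7
        exact hY w (hnD w hw') hs h7
    rintro (w | p) (w' | q) hs h
    · simp only [Sum.elim_inl] at hs
      rcases Bool.eq_false_or_eq_true (X.spl (X.kd w)) with hw | hw <;>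
        rcases Bool.eq_false_or_eq_true (X.spl (X.kd w')) with hw' | hw'
      · rw [f1 w hw, f1 w' hw'] at h
        rw [a8 w w' hw hw' h]
      · rw [f1 w hw, f2 w' hw'] at h
        exact absurd h (hmix w w' hw hw' hs)
      · rw [f2 w hw, f1 w' hw'] at h
        exact absurd h.symm (hmix w' w hw' hw hs.symm)
      · rw [f2 w hw, f2 w' hw'] at h
        rw [hE.inj w (by simp [hnD w hw]) w' (by simp [hnD w' hw']) hs h]
    · simp only [Sum.elim_inl, Sum.elim_inr] at hs
      exact absurd h (key w q hs)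
    · simp only [Sum.elim_inl, Sum.elim_inr] at hs
      exact absurd h.symm (key w' p hs.symm)
    · rw [f3, f3] at h
      rw [a9 p q h]
  · -- colours of the tree
    intro w w' hw hw' h
    rcases Bool.eq_false_or_eq_true (X.spl (X.kd w)) with hs | hs <;>
      rcases Bool.eq_false_or_eq_true (X.spl (X.kd w')) with hs' | hs'
    · rw [g1 w hw hs, g1 w' hw' hs'] at h
      exact a3 w w' hs hs' h
    · rw [g1 w hw hs, g2 w' hw' hs'] at h
      exact absurd (a1 w hs) (h ▸ hNC w' hw' hs')
    · rw [g2 w hw hs, g1 w' hw' hs'] at h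
      exact absurd (a1 w' hs') (h ▸ hNC w hw hs)
    · rw [g2 w hw hs, g2 w' hw' hs'] at h
      rw [← hcol, ← hcol] at h
      exact hE.cin w w' (hEdge w hw (hnD w hs)) (hEdge w' hw' (hnD w' hs')) h
  · intro w p hw h
    rw [g3] at h
    rcases Bool.eq_false_or_eq_true (X.spl (X.kd w)) with hs | hs
    · rw [g1 w hw hs] at h
      exact a5 w p hs h
    · rw [g2 w hw hs] at h
      exact hNC w hw hs (h ▸ a2 p)
  · intro p q h
    rw [g3, g3] at h
    exact a4 h

end Pool.Agent.Lib.MP_c5b475_co.KN
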