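import Pool.Agent.Lib.MP_c5b475_co.KN.RT1

/-!
# KN/MkT: rooted trees from a decreasing parent map; counting vertices of the two sides

`mk_rtr`: `dep w` = least `i` with `par^[i] w = root` (it exists by induction over `rk w`).
`side_le`: the vertices of side `s` which have children have distinct children on the other side, so
the other side has at least `max (NL ∩ s, NL ∩ ¬s) ≥ |NL|/2` vertices.
-/

set_option autoImplicit false

namespace Pool.Agent.Lib.MP_c5b475_co.KN

open Finset

theorem mk_rtr {W : Type} (root : W) (par : W → W) (rk : W → ℕ) (h0 : par root = root)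
    (h : ∀ w, w ≠ root → rk (par w) < rk w) : ∃ t : RTr W, t.root = root ∧ t.par = par := by
  classical
  have hex : ∀ k w, rk w ≤ k → ∃ i : ℕ, par^[i] w = root := by
    intro k
    induction k with
    | zero =>
      intro w hw
      by_cases hr : w = root
      · exact ⟨0, hr⟩
      · have := h w hr
        omega
    | succ k ih =>
      intro w hw
      by_cases hr : w = root
      · exact ⟨0, hr⟩
      · have h1 := h w hr
        obtain ⟨i, hi⟩ := ih (par w) (by omega)
        exact ⟨i + 1, hi⟩
  have hex' : ∀ w, ∃ i : ℕ, par^[i] w = root := fun w => hex (rk w) w le_rfl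
  refine ⟨⟨root, par, fun w => Nat.find (hex' w), ?_, h0, ?_⟩, rfl, rfl⟩
  · exact (Nat.find_eq_zero _).2 rfl
  · intro w hw
    exact Nat.find_comp_succ (hex' w) (hex' (par w)) hw

namespace RTr

variable {W : Type} [Fintype W] [DecidableEq W]

theorem side_le (t : RTr W) (sd : W → Bool) (hsd : ∀ w, w ≠ t.root → sd w ≠ sd (t.par w))
    (s : Bool) : 2 * (univ.filter fun w => sd w = s).card +
      (univ.filter fun w => (t.ch w).Nonempty).card ≤ 2 * Fintype.card W := by
  have h1 : (univ.filter fun w => sd w = s).card + (univ.filter fun w => ¬ sd w = s).card =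
      Fintype.card W := by
    rw [Finset.card_filter_add_card_filter_not, card_univ]
  have h2 : ((univ.filter fun w => (t.ch w).Nonempty).filter fun w => sd w = s).card ≤
      (univ.filter fun w => ¬ sd w = s).card := by
    refine (card_le_card (t := (univ.filter fun w => ¬ sd w = s).image t.par) ?_).trans
      card_image_le
    intro w hw
    rw [mem_filter, mem_filter] at hw
    obtain ⟨⟨_, c, hc⟩, hs⟩ := hw
    obtain ⟨hc1, hc2⟩ := t.mem_ch.1 hc
    refine mem_image.2 ⟨c, mem_filter.2 ⟨mem_univ _, ?_⟩, hc2⟩
    have h3 := hsd c hc1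
    rw [hc2, hs] at h3
    exact h3
  have h3 : ((univ.filter fun w => (t.ch w).Nonempty).filter fun w => ¬ sd w = s).card ≤
      (univ.filter fun w => ¬ sd w = s).card :=
    card_le_card fun w hw => mem_filter.2 ⟨mem_univ _, (mem_filter.1 hw).2⟩
  have h4 := Finset.card_filter_add_card_filter_not
    (s := univ.filter fun w => (t.ch w).Nonempty) (fun w => sd w = s)
  omega

/-- the sum of the numbers of children -/
theorem sum_ch (t : RTr W) : ∑ w, (t.ch w).card + 1 = Fintype.card W := by
  have h1 : (univ.filter fun c : W => c ≠ t.root).card = ∑ w, (t.ch w).card := by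
    rw [card_eq_sum_card_fiberwise (f := t.par) (t := (univ : Finset W))
      (fun _ _ => mem_coe.2 (mem_univ _))]
    refine sum_congr rfl fun w _ => ?_
    unfold ch
    rw [filter_filter]
  have h2 := Finset.card_filter_add_card_filter_not (s := (univ : Finset W))
    (fun c : W => c ≠ t.root)
  have h3 : (univ.filter fun c : W => ¬ c ≠ t.root) = {t.root} := by
    ext c
    simp
  rw [h3, card_singleton, card_univ] at h2
  omega

end RTr

end Pool.Agent.Lib.MP_c5b475_co.KN
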