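import Pool.Agent.Lib.MP_c5b475_co.KN.HubCl
import Pool.Agent.Lib.MP_c5b475_co.KN.RT1
import Pool.Agent.Lib.MP_c5b475_co.KN.MkT

/-!
# KN/HubMn: the smallest closure

`P` is closed if every `w ∉ P` has at most one neighbour in `P`. `Hub` = intersection of all closed
`P ⊇ H0`. It is closed (`w ∉ Hub` is outside some `P`, and its neighbours in `Hub` are in `P`). It is
contained in the set of `hub_closure`, hence the bound and the descendants. If `K` is disjoint from
`H0` and every vertex of `K` has at most one neighbour outside `K`, then `Hub \ K` is closed and contains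
`H0`, so `Hub ⊆ Hub \ K`.
-/

set_option autoImplicit false

namespace Pool.Agent.Lib.MP_c5b475_co.KN

open Finset

namespace RTr

variable {W : Type} [Fintype W] [DecidableEq W]

theorem hub_min (t : RTr W) (H0 : Finset W) :
    ∃ Hub : Finset W, H0 ⊆ Hub ∧ Hub.card ≤ 2 * H0.card ∧
      (∀ w, w ∉ Hub → ((t.nb w).filter fun v => v ∈ Hub).card ≤ 1) ∧
      (∀ h ∈ Hub, ∃ h' ∈ H0, t.Anc h h') ∧
      ∀ K : Finset W, Disjoint K H0 → (∀ w ∈ K, ((t.nb w).filter fun v => v ∉ K).card ≤ 1) →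
        Disjoint K Hub := by
  classical
  set Hub : Finset W := univ.filter fun w => ∀ P : Finset W, H0 ⊆ P →
    (∀ v, v ∉ P → ((t.nb v).filter fun x => x ∈ P).card ≤ 1) → w ∈ P with hHub
  have hcl : ∀ w, w ∉ Hub → ((t.nb w).filter fun v => v ∈ Hub).card ≤ 1 := by
    intro w hw
    have hw' : ¬ ∀ P : Finset W, H0 ⊆ P →
        (∀ v, v ∉ P → ((t.nb v).filter fun x => x ∈ P).card ≤ 1) → w ∈ P := fun h =>
      hw (mem_filter.2 ⟨mem_univ _, h⟩)
    push Not at hw'
    obtain ⟨P, h1, h2, h3⟩ := hw'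
    refine (card_le_card fun x hx => ?_).trans (h2 w h3)
    rw [mem_filter] at hx ⊢
    exact ⟨hx.1, (mem_filter.1 hx.2).2 P h1 h2⟩
  obtain ⟨X, hX1, hX2, hX3, hX4, _⟩ := t.hub_closure H0
  have hsub : Hub ⊆ X := fun w hw => (mem_filter.1 hw).2 X hX1 hX3
  refine ⟨Hub, fun w hw => mem_filter.2 ⟨mem_univ _, fun P hP _ => hP hw⟩,
    (card_le_card hsub).trans hX2, hcl, fun h hh => hX4 h (hsub hh), ?_⟩
  intro K hK hK1
  rw [disjoint_left]
  intro w hwK hwH
  have h1 := (mem_filter.1 hwH).2 (Hub \ K) ?_ ?_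
  · exact (mem_sdiff.1 h1).2 hwK
  · intro x hx
    exact mem_sdiff.2 ⟨mem_filter.2 ⟨mem_univ _, fun P hP _ => hP hx⟩,
      fun h => disjoint_left.1 hK h hx⟩
  · intro v hv
    by_cases hvK : v ∈ K
    · refine (card_le_card fun x hx => ?_).trans (hK1 v hvK)
      rw [mem_filter] at hx ⊢
      exact ⟨hx.1, (mem_sdiff.1 hx.2).2⟩
    · have hvH : v ∉ Hub := fun h => hv (mem_sdiff.2 ⟨h, hvK⟩)
      refine (card_le_card fun x hx => ?_).trans (hcl v hvH)
      rw [mem_filter] at hx ⊢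
      exact ⟨hx.1, (mem_sdiff.1 hx.2).1⟩

/-- With `H0` = vertices with more than `κ n` children. -/
theorem hub_deg (t : RTr W) (n : ℕ) (κ : ℝ) (hκ : 0 < κ) (hn : 1 ≤ n) (hW : Fintype.card W ≤ n + 1) :
    ∃ Hub : Finset W, (Hub.card : ℝ) ≤ 2 / κ ∧
      (∀ w, w ∉ Hub → ((t.ch w).card : ℝ) ≤ κ * n) ∧
      (∀ w, w ∉ Hub → ((t.nb w).filter fun v => v ∈ Hub).card ≤ 1) ∧
      (∀ h ∈ Hub, κ * n ≤ (t.sz h : ℝ)) ∧
      ∀ K : Finset W, (∀ w ∈ K, ((t.ch w).card : ℝ) ≤ κ * n) →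
        (∀ w ∈ K, ((t.nb w).filter fun v => v ∉ K).card ≤ 1) → Disjoint K Hub := by
  classical
  have hn' : (0 : ℝ) < n := by exact_mod_cast hn
  obtain ⟨Hub, h1, h2, h3, h4, h5⟩ :=
    t.hub_min (univ.filter fun w => κ * n < ((t.ch w).card : ℝ))
  have hc : ((univ.filter fun w => κ * n < ((t.ch w).card : ℝ)).card : ℝ) ≤ 1 / κ := by
    have h6 : ((univ.filter fun w => κ * n < ((t.ch w).card : ℝ)).card : ℝ) * (κ * n) ≤
        ∑ w, ((t.ch w).card : ℝ) := by
      rw [← nsmul_eq_mul]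
      refine (card_nsmul_le_sum _ (fun w => ((t.ch w).card : ℝ)) _
        fun w hw => (mem_filter.1 hw).2.le).trans ?_
      exact sum_le_sum_of_subset_of_nonneg (filter_subset _ _) fun w _ _ => Nat.cast_nonneg _
    have h7 : ∑ w, ((t.ch w).card : ℝ) ≤ n := by
      have h8 := t.sum_ch
      have h9 : ∑ w, (t.ch w).card ≤ n := by omega
      exact_mod_cast h9
    rw [le_div_iff₀ hκ]
    have h10 : ((univ.filter fun w => κ * n < ((t.ch w).card : ℝ)).card : ℝ) * κ * n ≤ 1 * n := by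
      rw [mul_assoc, one_mul]
      exact h6.trans h7
    exact le_of_mul_le_mul_right h10 hn'
  refine ⟨Hub, ?_, ?_, h3, ?_, ?_⟩
  · have h6 : (Hub.card : ℝ) ≤
        2 * ((univ.filter fun w => κ * n < ((t.ch w).card : ℝ)).card : ℝ) := by
      exact_mod_cast h2
    calc (Hub.card : ℝ) ≤ 2 * (1 / κ) := h6.trans (by linarith)
      _ = 2 / κ := by ring
  · intro w hw
    by_contra hcon
    exact hw (h1 (mem_filter.2 ⟨mem_univ _, not_le.1 hcon⟩))
  · intro h hh
    obtain ⟨h', hh', ha⟩ := h4 h hh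
    have h6 := (mem_filter.1 hh').2
    have h7 := t.sz_mono ha
    have h8 := t.sz_eq h'
    have h9 : (t.ch h').card ≤ ∑ c ∈ t.ch h', t.sz c := by
      rw [card_eq_sum_ones]
      exact sum_le_sum fun c _ => t.sz_pos c
    have h10 : (t.ch h').card ≤ t.sz h := by omega
    have h11 : ((t.ch h').card : ℝ) ≤ (t.sz h : ℝ) := by exact_mod_cast h10
    linarith
  · intro K hK1 hK2
    refine h5 K ?_ hK2
    rw [disjoint_left]
    intro w hw hw'
    have h6 := (mem_filter.1 hw').2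
    have h7 := hK1 w hw
    linarith

end RTr

end Pool.Agent.Lib.MP_c5b475_co.KN
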