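import Pool.Agent.Lib.MP_c5b475_co.KN.CfgD

/-!
# KN/ItC: the hypotheses of the swap from the counts

`ncl X Hub J` = number of vertices of kind `L` (their parents have kind `P0`, so they are not hubs).
Items = vertices of kind `L` outside `D`, `#L - |D|` of them. The colours `col lab w` of the items are
distinct (`Emb.cin`) and lie in `Q J`, which has at most `#L + τ n` elements; so at most `(τ + ε) n`
elements of `Q J` are not colours of items. `K1` gives the first claim. The labels `lab (par w)` of the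
parents of the items are distinct (`spl_one`, `Emb.inj`) and lie in `S P0` or in some `Y h P0`; the
union has at most `#P0 + (β + τ) n` elements, `#P0 = #L`. `K3` gives the second claim.
-/

set_option autoImplicit false

namespace Pool.Agent.Lib.MP_c5b475_co.KN

open Finset

/-- counting with an injection -/
private theorem ItC_cnt {α β : Type} [DecidableEq α] [DecidableEq β] (I : Finset α)
    (U : Finset β) (f : α → β) (p : β → Prop) [DecidablePred p] (hU : ∀ a ∈ I, f a ∈ U)
    (hinj : ∀ a ∈ I, ∀ b ∈ I, f a = f b → a = b) :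
    (U.filter p).card + I.card ≤ (I.filter fun a => p (f a)).card + U.card := by
  have h1 : (I.image f).card = I.card :=
    card_image_of_injOn (fun a ha b hb h => hinj a ha b hb h)
  have h2 : I.image f ⊆ U := by
    intro y hy
    obtain ⟨a, ha, rfl⟩ := mem_image.1 hy
    exact hU a ha
  have h3 : (U \ I.image f).card + (I.image f).card = U.card := card_sdiff_add_card_eq_card h2
  have h4 : (U.filter p).card ≤ ((I.filter fun a => p (f a)).image f).card +
      (U \ I.image f).card := by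
    refine (card_le_card ?_).trans (card_union_le _ _)
    intro y hy
    obtain ⟨hy1, hy2⟩ := mem_filter.1 hy
    by_cases hy3 : y ∈ I.image f
    · obtain ⟨a, ha, rfl⟩ := mem_image.1 hy3
      exact mem_union_left _ (mem_image.2 ⟨a, mem_filter.2 ⟨ha, hy2⟩, rfl⟩)
    · exact mem_union_right _ (mem_sdiff.2 ⟨hy1, hy3⟩)
  have h5 : ((I.filter fun a => p (f a)).image f).card ≤ (I.filter fun a => p (f a)).card :=
    card_image_le
  omega

theorem items_count {n : ℕ} [NeZero n] {W : Type} [Fintype W] [DecidableEq W] (dm : Bool)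
    (X : KT W Kd5 Ps2) (C : Cfg n W Kd5 Ps2) (κ₁ : ℝ) (h0 : ℕ) (hS : Std dm X)
    (hub : HubOK X C.Hub κ₁ h0 n) (J1 E RA RB Y1 Y2 Y3 : Finset (ZMod n)) (F q : ℕ)
    (a r b β τ θ ε : ℝ) (hX : Ext dm X C J1 E RA RB Y1 Y2 Y3 F q a r b β τ θ)
    (hP : (univ.filter fun w => X.kd w = Kd5.P0).card = (univ.filter fun w => X.kd w = Kd5.L).card)
    (lab : W → ZMod n) (D : Finset W) (hD : ∀ w ∈ D, X.spl (X.kd w) = true)
    (hDε : (D.card : ℝ) ≤ ε * n) (hE : X.Emb (univ \ D) lab)
    (hl : ∀ w ∉ D, X.spl (X.kd w) = true → lab w ∈ C.S (X.kd w) ∧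
      X.col lab w ∈ C.Q (X.cl (X.kd w)) ∧ (lab (X.t.par w) ∈ C.S (X.kd (X.t.par w)) ∨
        (X.t.par w ≠ X.t.root ∧ X.t.par (X.t.par w) ∈ C.Hub ∧
          lab (X.t.par w) ∈ C.Y (X.t.par (X.t.par w)) (X.kd (X.t.par w)))))
    (A : ℕ) (hA : (A : ℝ) ≤ (a - β - τ - ε) * n) (hβ : 0 ≤ β) :
    (∀ x, A ≤ (univ.filter fun w => w ∉ D ∧ X.spl (X.kd w) = true ∧
      X.col lab w - x ∈ Y1).card) ∧
    (∀ s, A ≤ (univ.filter fun w => w ∉ D ∧ X.spl (X.kd w) = true ∧
      s - lab (X.t.par w) ∈ Y3).card) := by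
  classical
  have hslL : ∀ w, X.spl (X.kd w) = true ↔ X.kd w = Kd5.L := by
    intro w
    rw [hS.spl]
    cases X.kd w <;> decide
  have hLroot : ∀ w, X.kd w = Kd5.L → w ≠ X.t.root := by
    intro w h1 h2
    have h3 := hS.rootk
    rw [← h2, h1] at h3
    rcases h3 with h3 | h3
    · exact absurd h3 (by decide)
    · exact absurd h3 (by decide)
  have hparD : ∀ w, X.kd w = Kd5.L → X.t.par w ∉ D := by
    intro w h1 h2
    have h3 := (hslL _).1 (hD _ h2)
    rw [hS.spar w h1] at h3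
    exact absurd h3 (by decide)
  set I := univ.filter fun w => w ∉ D ∧ X.spl (X.kd w) = true with hI
  have hIm : ∀ w, w ∈ I ↔ w ∉ D ∧ X.kd w = Kd5.L := by
    intro w
    rw [hI, mem_filter, hslL]
    exact ⟨fun h => h.2, fun h => ⟨mem_univ _, h⟩⟩
  have hIc : (univ.filter fun w => X.kd w = Kd5.L).card ≤ I.card + D.card := by
    refine (card_le_card ?_).trans (card_union_le _ _)
    intro w hw
    by_cases h1 : w ∈ D
    · exact mem_union_right _ h1
    · exact mem_union_left _ ((hIm w).2 ⟨h1, (mem_filter.1 hw).2⟩)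
  have hncl : ncl X C.Hub Ps2.J ≤ (univ.filter fun w => X.kd w = Kd5.L).card := by
    unfold ncl
    apply card_le_card
    intro w hw
    obtain ⟨_, _, h1, _⟩ := mem_filter.1 hw
    refine mem_filter.2 ⟨mem_univ _, ?_⟩
    rw [hS.cl] at h1
    revert h1
    cases X.kd w <;> decide
  have hn : (0 : ℝ) ≤ n := Nat.cast_nonneg n
  have hIc' : ((univ.filter fun w => X.kd w = Kd5.L).card : ℝ) ≤ (I.card : ℝ) + D.card := by
    exact_mod_cast hIc
  have hncl' : (ncl X C.Hub Ps2.J : ℝ) ≤ ((univ.filter fun w => X.kd w = Kd5.L).card : ℝ) := by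
    exact_mod_cast hncl
  constructor
  · intro x
    have h1 : ((C.Q Ps2.J).filter fun c => c - x ∈ Y1).card + I.card ≤
        (I.filter fun w => X.col lab w - x ∈ Y1).card + (C.Q Ps2.J).card := by
      apply ItC_cnt I (C.Q Ps2.J) (fun w => X.col lab w) (fun c => c - x ∈ Y1)
      · intro w hw
        obtain ⟨h2, h3⟩ := (hIm w).1 hw
        obtain ⟨_, h4, _⟩ := hl w h2 ((hslL w).2 h3)
        rw [hS.cl, h3] at h4
        exact h4
      · intro u hu v hv h2
        obtain ⟨h3, h4⟩ := (hIm u).1 hu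
        obtain ⟨h5, h6⟩ := (hIm v).1 hv
        exact hE.cin u v ⟨hLroot u h4, mem_sdiff.2 ⟨mem_univ _, h3⟩,
          mem_sdiff.2 ⟨mem_univ _, hparD u h4⟩⟩ ⟨hLroot v h6, mem_sdiff.2 ⟨mem_univ _, h5⟩,
          mem_sdiff.2 ⟨mem_univ _, hparD v h6⟩⟩ h2
    have h2 : (I.filter fun w => X.col lab w - x ∈ Y1) = (univ.filter fun w => w ∉ D ∧
        X.spl (X.kd w) = true ∧ X.col lab w - x ∈ Y1) := by
      ext w
      rw [mem_filter, mem_filter, mem_filter]
      constructor
      · rintro ⟨⟨a1, a2, a3⟩, a4⟩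
        exact ⟨a1, a2, a3, a4⟩
      · rintro ⟨a1, a2, a3, a4⟩
        exact ⟨⟨a1, a2, a3⟩, a4⟩
    rw [← h2]
    have h3 : (((C.Q Ps2.J).filter fun c => c - x ∈ Y1).card : ℝ) + I.card ≤
        ((I.filter fun w => X.col lab w - x ∈ Y1).card : ℝ) + (C.Q Ps2.J).card := by
      exact_mod_cast h1
    have h4 := hX.K1 x
    have h5 := hX.QJ_le
    have h6 : (A : ℝ) ≤ ((I.filter fun w => X.col lab w - x ∈ Y1).card : ℝ) := by
      have h7 : 0 ≤ β * n := mul_nonneg hβ hn
      nlinarith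
    exact_mod_cast h6
  · intro s
    have h1 : ((C.S Kd5.P0 ∪ C.Hub.biUnion fun h => C.Y h Kd5.P0).filter
          fun x => s - x ∈ Y3).card + I.card ≤
        (I.filter fun w => s - lab (X.t.par w) ∈ Y3).card +
          (C.S Kd5.P0 ∪ C.Hub.biUnion fun h => C.Y h Kd5.P0).card := by
      apply ItC_cnt I (C.S Kd5.P0 ∪ C.Hub.biUnion fun h => C.Y h Kd5.P0)
        (fun w => lab (X.t.par w)) (fun x => s - x ∈ Y3)
      · intro w hw
        obtain ⟨h2, h3⟩ := (hIm w).1 hw
        obtain ⟨_, _, h4⟩ := hl w h2 ((hslL w).2 h3)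
        rcases h4 with h4 | ⟨_, h5, h6⟩
        · rw [hS.spar w h3] at h4
          exact mem_union_left _ h4
        · rw [hS.spar w h3] at h6
          exact mem_union_right _ (mem_biUnion.2 ⟨_, h5, h6⟩)
      · intro u hu v hv h2
        obtain ⟨h3, h4⟩ := (hIm u).1 hu
        obtain ⟨h5, h6⟩ := (hIm v).1 hv
        have h7 : X.t.par u = X.t.par v := by
          refine hE.inj _ (mem_sdiff.2 ⟨mem_univ _, hparD u h4⟩) _
            (mem_sdiff.2 ⟨mem_univ _, hparD v h6⟩) ?_ h2
          rw [hS.spar u h4, hS.spar v h6]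
        have h8 := X.spl_one (X.t.par u)
        rw [card_le_one] at h8
        apply h8 u _ v _
        · refine mem_filter.2 ⟨?_, (hslL u).2 h4⟩
          unfold RTr.ch
          exact mem_filter.2 ⟨mem_univ _, hLroot u h4, rfl⟩
        · refine mem_filter.2 ⟨?_, (hslL v).2 h6⟩
          unfold RTr.ch
          exact mem_filter.2 ⟨mem_univ _, hLroot v h6, h7.symm⟩
    have h2 : (I.filter fun w => s - lab (X.t.par w) ∈ Y3) = (univ.filter fun w => w ∉ D ∧
        X.spl (X.kd w) = true ∧ s - lab (X.t.par w) ∈ Y3) := by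
      ext w
      rw [mem_filter, mem_filter, mem_filter]
      constructor
      · rintro ⟨⟨a1, a2, a3⟩, a4⟩
        exact ⟨a1, a2, a3, a4⟩
      · rintro ⟨a1, a2, a3, a4⟩
        exact ⟨⟨a1, a2, a3⟩, a4⟩
    rw [← h2]
    have h3 : (((C.S Kd5.P0 ∪ C.Hub.biUnion fun h => C.Y h Kd5.P0).filter
          fun x => s - x ∈ Y3).card : ℝ) + I.card ≤
        ((I.filter fun w => s - lab (X.t.par w) ∈ Y3).card : ℝ) +
          (C.S Kd5.P0 ∪ C.Hub.biUnion fun h => C.Y h Kd5.P0).card := by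
      exact_mod_cast h1
    have h4 := hX.K3 s
    have h5 := hX.I0_le
    have h8 : ((C.S Kd5.P0 ∪ C.Hub.biUnion fun h => C.Y h Kd5.P0).card : ℝ) ≤
        ((C.S Kd5.P0).card : ℝ) + ∑ h ∈ C.Hub, ((C.Y h Kd5.P0).card : ℝ) := by
      have h9 : (C.S Kd5.P0 ∪ C.Hub.biUnion fun h => C.Y h Kd5.P0).card ≤
          (C.S Kd5.P0).card + ∑ h ∈ C.Hub, (C.Y h Kd5.P0).card :=
        (card_union_le _ _).trans (Nat.add_le_add_left card_biUnion_le _)
      exact_mod_cast h9
    rw [hP] at h5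
    have h6 : (A : ℝ) ≤ ((I.filter fun w => s - lab (X.t.par w) ∈ Y3).card : ℝ) := by
      nlinarith
    exact_mod_cast h6

end Pool.Agent.Lib.MP_c5b475_co.KN
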