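import Pool.Agent.Lib.MP_c5b475_co.KN.CfgD
import Pool.Agent.Lib.MP_c5b475_co.KN.MkT

/-!
# KN/OneT: the tree with kinds in case (I)

`sub_tree`: restrict the parent map (the parent of a vertex is not in `U`, because it has a child or is
the root); the depth is the old depth. `one_kt`: kind `L` on `Sp`, `P0` on the parents of `Sp`, else `A`
or `B` by the side; `o = 0`, no dominoes.
-/

set_option autoImplicit false

namespace Pool.Agent.Lib.MP_c5b475_co.KN

open Finset

theorem sub_tree {V : Type} [Fintype V] [DecidableEq V] (t : RTr V) (U : Finset V)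
    (hU : ∀ u ∈ U, t.ch u = ∅ ∧ u ≠ t.root) :
    ∃ t' : RTr {v // v ∉ U}, t'.root.1 = t.root ∧ ∀ w, (t'.par w).1 = t.par w.1 := by
  have hr : t.root ∉ U := fun h => (hU _ h).2 rfl
  have hp : ∀ w, w ∉ U → t.par w ∉ U := by
    intro w hw hm
    obtain ⟨h1, h2⟩ := hU _ hm
    by_cases h3 : w = t.root
    · rw [h3, t.par_root] at hm
      exact hr hm
    · have h4 : w ∈ t.ch (t.par w) := t.mem_ch.2 ⟨h3, rfl⟩
      rw [h1] at h4
      exact absurd h4 (notMem_empty _)
  refine ⟨⟨⟨t.root, hr⟩, fun w => ⟨t.par w.1, hp w.1 w.2⟩, fun w => t.dep w.1, t.dep_root,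
    Subtype.ext t.par_root, ?_⟩, rfl, fun w => rfl⟩
  intro w hw
  exact t.dep_par w.1 (fun h => hw (Subtype.ext h))

theorem one_kt {W : Type} [Fintype W] [DecidableEq W] (t : RTr W) (sd : W → Bool)
    (hsd : ∀ w, w ≠ t.root → sd w ≠ sd (t.par w)) (Sp : Finset W)
    (hSp : ∀ s ∈ Sp, t.ch s = ∅ ∧ s ≠ t.root ∧ sd s = false ∧ t.par s ≠ t.root)
    (hinj : ∀ s ∈ Sp, ∀ s' ∈ Sp, t.par s = t.par s' → s = s') :
    ∃ X : KT W Kd5 Ps2, X.t = t ∧ Std false X ∧ (∀ w, X.o w = 0) ∧ (∀ w, (X.kd w).sd = sd w) ∧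
      (∀ w, X.kd w = Kd5.L ↔ w ∈ Sp) ∧ (∀ w, X.kd w = Kd5.P0 ↔ ∃ s ∈ Sp, t.par s = w) ∧
      ∀ w, X.kd w ≠ Kd5.P1 := by
  classical
  let kd : W → Kd5 := fun w => if w ∈ Sp then Kd5.L else if ∃ s ∈ Sp, t.par s = w then Kd5.P0
    else if sd w = true then Kd5.A else Kd5.B
  have k1 : ∀ w, w ∈ Sp → kd w = Kd5.L := fun w h => if_pos h
  have k2 : ∀ w, w ∉ Sp → (∃ s ∈ Sp, t.par s = w) → kd w = Kd5.P0 := by
    intro w h1 h2
    show (if w ∈ Sp then Kd5.L else if ∃ s ∈ Sp, t.par s = w then Kd5.P0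
      else if sd w = true then Kd5.A else Kd5.B) = _
    rw [if_neg h1, if_pos h2]
  have k3 : ∀ w, w ∉ Sp → ¬ (∃ s ∈ Sp, t.par s = w) → kd w = if sd w = true then Kd5.A
      else Kd5.B := by
    intro w h1 h2
    show (if w ∈ Sp then Kd5.L else if ∃ s ∈ Sp, t.par s = w then Kd5.P0
      else if sd w = true then Kd5.A else Kd5.B) = _
    rw [if_neg h1, if_neg h2]
  have kpar : ∀ s ∈ Sp, t.par s ∉ Sp := by
    intro s hs hm
    obtain ⟨h1, _⟩ := hSp _ hm
    have h4 : s ∈ t.ch (t.par s) := t.mem_ch.2 ⟨(hSp s hs).2.1, rfl⟩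
    rw [h1] at h4
    exact absurd h4 (notMem_empty _)
  have kAB : ∀ w, w ∉ Sp → ¬ (∃ s ∈ Sp, t.par s = w) → kd w = Kd5.A ∨ kd w = Kd5.B := by
    intro w h1 h2
    rw [k3 w h1 h2]
    by_cases h3 : sd w = true
    · exact Or.inl (if_pos h3)
    · exact Or.inr (if_neg h3)
  have kL : ∀ w, kd w = Kd5.L ↔ w ∈ Sp := by
    intro w
    refine ⟨fun h => ?_, k1 w⟩
    by_contra h1
    by_cases h2 : ∃ s ∈ Sp, t.par s = w
    · rw [k2 w h1 h2] at h
      exact absurd h (by decide)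
    · rcases kAB w h1 h2 with h3 | h3
      · rw [h3] at h
        exact absurd h (by decide)
      · rw [h3] at h
        exact absurd h (by decide)
  have kP0 : ∀ w, kd w = Kd5.P0 ↔ ∃ s ∈ Sp, t.par s = w := by
    intro w
    constructor
    · intro h
      by_contra h2
      by_cases h1 : w ∈ Sp
      · rw [k1 w h1] at h
        exact absurd h (by decide)
      · rcases kAB w h1 h2 with h3 | h3
        · rw [h3] at h
          exact absurd h (by decide)
        · rw [h3] at h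
          exact absurd h (by decide)
    · rintro ⟨s, hs, rfl⟩
      exact k2 _ (kpar s hs) ⟨s, hs, rfl⟩
  have kP1 : ∀ w, kd w ≠ Kd5.P1 := by
    intro w h
    by_cases h1 : w ∈ Sp
    · rw [k1 w h1] at h
      exact absurd h (by decide)
    · by_cases h2 : ∃ s ∈ Sp, t.par s = w
      · rw [k2 w h1 h2] at h
        exact absurd h (by decide)
      · rcases kAB w h1 h2 with h3 | h3
        · rw [h3] at h
          exact absurd h (by decide)
        · rw [h3] at h
          exact absurd h (by decide)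
  have ksd : ∀ w, (kd w).sd = sd w := by
    intro w
    by_cases h1 : w ∈ Sp
    · rw [k1 w h1, (hSp w h1).2.2.1]
      rfl
    · by_cases h2 : ∃ s ∈ Sp, t.par s = w
      · rw [k2 w h1 h2]
        obtain ⟨s, hs, rfl⟩ := h2
        have h3 := hsd s (hSp s hs).2.1
        rw [(hSp s hs).2.2.1] at h3
        revert h3
        cases sd (t.par s)
        · intro h3
          exact absurd rfl h3
        · intro _
          rfl
      · rw [k3 w h1 h2]
        cases sd w
        · rfl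
        · rfl
  have kroot : kd t.root = Kd5.A ∨ kd t.root = Kd5.B := by
    apply kAB
    · intro h
      exact (hSp _ h).2.1 rfl
    · rintro ⟨s, hs, he⟩
      exact (hSp s hs).2.2.2 he
  have ksl : ∀ k : Kd5, Kd5.sl k = true → k = Kd5.L := by
    intro k
    cases k <;> decide
  have kdm : ∀ k : Kd5, ¬ Kd5.dm false k = true := by
    intro k
    cases k <;> decide
  refine ⟨⟨t, Kd5.sd, Kd5.dm false, Kd5.sl, Kd5.cl, kd, fun _ => 0, ?_, ?_, ?_, ?_, ?_, ?_, ?_⟩,
    rfl, ⟨rfl, rfl, rfl, rfl, ?_, fun _ _ => rfl, kroot⟩, fun _ => rfl, ksd, kL, kP0, kP1⟩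
  · intro w hw
    rw [ksd, ksd]
    exact hsd w hw
  · intro w hw
    exact (hSp w ((kL w).1 (ksl _ hw))).1
  · rcases kroot with h | h
    · rw [h]
      rfl
    · rw [h]
      rfl
  · intro w
    rw [card_le_one]
    intro a ha b hb
    obtain ⟨h1, h2⟩ := mem_filter.1 ha
    obtain ⟨h3, h4⟩ := mem_filter.1 hb
    exact hinj a ((kL a).1 (ksl _ h2)) b ((kL b).1 (ksl _ h4))
      ((t.mem_ch.1 h1).2.trans (t.mem_ch.1 h3).2.symm)
  · intro _
    exact Nat.zero_le _
  · intro w _ h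
    exact absurd h (by decide)
  · intro w _ h
    exact absurd h (kdm _)
  · intro w hw
    exact (kP0 _).2 ⟨w, (kL w).1 hw, rfl⟩

end Pool.Agent.Lib.MP_c5b475_co.KN
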