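import Pool.Agent.Lib.MP_c5b475_co.KN.PThm
import Pool.Agent.Lib.MP_c5b475_co.KN.CfgThm
import Pool.Agent.Lib.MP_c5b475_co.KN.EndI
import Pool.Agent.Lib.MP_c5b475_co.KN.ItC
import Pool.Agent.Lib.MP_c5b475_co.KN.OneT
import Pool.Agent.Lib.MP_c5b475_co.KN.HubMn
import Pool.Agent.Lib.MP_c5b475_co.KN.BudL

/-!
# KN/CasI: case (I), many leaf-parents on side `true`

CONSTANTS (`g = γ`, `e = ε₁`, both may be assumed `≤ 1`): `μ = min (e/4) (g/100)`,
`ρ = ρH = μ/20`, `a = μ ρ ρH/2`, `r = ρ/2`, `σ = a^2 r/64`, `β = τ = ρC = ρE = ρ1 = ρR = σ/20`,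
`c = ρR ρC^2/8` (`β ≤ μ` holds),
`ε = a^2 r/64`. `place β c ε` gives `κ₁`; `h0 = ⌈2/κ₁⌉₊`; `place` gives `κ₂, θ₀, n₀`;
`θ = min θ₀ ((a^2 r/64)^2)` (CfgOK for a smaller `θ` implies CfgOK for `θ₀`: or use `cfg_exists` with `θ`
and weaken `Aut`, `mass`; the lemma `CfgOK.mono` below); `cfg_exists false ... h0 κ₁ κ₂ θ` gives the
second `n₀`. For `n` large: `N0 = ⌊σ n⌋₊`, `m = ⌈μ n⌉₊`, `q = m + ⌈(ρ1 + τ) n⌉₊`.

STEPS. (1) `Lv` = one childless child of each leaf-parent of side `true` (`par` is injective on `Lv`,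
`sd = false` there, no root). `U ⊆ Lv` with `N0` elements, `sub_tree` gives `t'` on `W = {v // v ∉ U}`.
(2) `hub_deg` for `t'`, `κ₁` gives `Hub`, `|Hub| ≤ h0`. (3) `Sp` = `m` elements of `Lv \ U` whose parents are
not in `Hub` and not the root (`e n ≥ N0 + m + h0 + 1`). `one_kt` gives `X`. (4) `HubOK false`: `hub_kd`:
a vertex of kind `L` is childless, so `K = {w}` in `hub_deg` shows that it is not in `Hub`; `P0`: parents of
`Sp`; `hub_dom` is empty because `dom = false`. (5) `Bud`: `labs`: the sum over the kinds of side `s` of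
`nk` and the hub children is the number of non-root vertices of `W` of side `s`, at most `(1 - g) n`;
`3 (β + ρR) + 4 ρ + τ ≤ g`. `cols`: `ncl o + ncl J + ∑ nch = card W - 1 = n - N0` and `ncl J = m`, so the
left side is `(n - N0 - m + q)/n + β + ρC + ρE + τ ≤ 1` because `q - m ≤ 2 σ n/20 + 1`.
`hubs`: `∑ nch ≤ card W - 1 - ncl J ≤ (1 - μ) n` and `4 ρ + 6 ρR + ρC + ρH + τ ≤ μ`. (6) `cfg_exists`,
`place` (`card W ≥ n/2`), `items_count` with `A = ⌈(a/2) n⌉₊`. (7) `end_one` with `π = {v // v ∈ U}`,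
`pp p = par p`; `hY` from the label alternatives of `place` (each gives `C.Lab X (side) (lab w)`) and
`out_B`. (8) `f v = f' (inl v)` or `f' (inr v)`.
-/

set_option autoImplicit false

namespace Pool.Agent.Lib.MP_c5b475_co.KN

open Finset

theorem CfgOK.mono {n : ℕ} [NeZero n] {W Kd Ψ : Type} [Fintype W] [DecidableEq W] [Fintype Kd]
    [DecidableEq Kd] [Fintype Ψ] [DecidableEq Ψ] {C : Cfg n W Kd Ψ} {X : KT W Kd Ψ}
    {β c κ₁ κ₂ θ θ' : ℝ} {h0 : ℕ} (H : CfgOK C X β c κ₁ κ₂ θ h0) (h : θ ≤ θ') :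
    CfgOK C X β c κ₁ κ₂ θ' h0 := by
  have key : ∀ S : Finset (ZMod n), Aut θ S → Aut θ' S := by
    intro S hS
    unfold Aut at hS ⊢
    refine hS.trans ?_
    gcongr
  refine { H with
    autS := fun k => key _ (H.autS k)
    autQ := fun a => key _ (H.autQ a)
    autY := fun h0 hh k hk => key _ (H.autY h0 hh k hk)
    mass := fun k k' hk x hx o ho => le_trans ?_ (H.mass k k' hk x hx o ho) }
  gcongr

private theorem CasI_leaves {V : Type} [Fintype V] [DecidableEq V] (t : RTr V) (sd : V → Bool)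
    (hsd : ∀ w, w ≠ t.root → sd w ≠ sd (t.par w)) :
    ∃ Lv : Finset V, (univ.filter fun v => sd v = true ∧ ∃ c ∈ t.ch v, t.ch c = ∅).card = Lv.card ∧
      (∀ c ∈ Lv, t.ch c = ∅ ∧ c ≠ t.root ∧ sd c = false ∧ sd (t.par c) = true) ∧
      ∀ c ∈ Lv, ∀ c' ∈ Lv, t.par c = t.par c' → c = c' := by
  classical
  let l : V → V := fun v => if h : ∃ c ∈ t.ch v, t.ch c = ∅ then Classical.choose h else v
  have hl : ∀ v, (∃ c ∈ t.ch v, t.ch c = ∅) → l v ∈ t.ch v ∧ t.ch (l v) = ∅ := by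
    intro v h
    have h1 : l v = Classical.choose h := dif_pos h
    rw [h1]
    exact Classical.choose_spec h
  have hpar : ∀ v, (∃ c ∈ t.ch v, t.ch c = ∅) → l v ≠ t.root ∧ t.par (l v) = v := by
    intro v h
    have h1 := (hl v h).1
    unfold RTr.ch at h1
    rw [mem_filter] at h1
    exact h1.2
  refine ⟨(univ.filter fun v => sd v = true ∧ ∃ c ∈ t.ch v, t.ch c = ∅).image l, ?_, ?_, ?_⟩
  · rw [card_image_of_injOn]
    intro v hv w hw hvw
    rw [mem_coe, mem_filter] at hv hw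
    rw [← (hpar v hv.2.2).2, ← (hpar w hw.2.2).2]
    exact congrArg t.par hvw
  · intro c hc
    rw [mem_image] at hc
    obtain ⟨v, hv, rfl⟩ := hc
    rw [mem_filter] at hv
    have h1 := hpar v hv.2.2
    refine ⟨(hl v hv.2.2).2, h1.1, ?_, ?_⟩
    · have h2 := hsd (l v) h1.1
      rw [h1.2, hv.2.1] at h2
      simpa using h2
    · rw [h1.2]
      exact hv.2.1
  · intro c hc c' hc' h
    rw [mem_image] at hc hc'
    obtain ⟨v, hv, rfl⟩ := hc
    obtain ⟨w, hw, rfl⟩ := hc'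
    rw [mem_filter] at hv hw
    rw [(hpar v hv.2.2).2, (hpar w hw.2.2).2] at h
    rw [h]

private theorem CasI_pick {V : Type} [Fintype V] [DecidableEq V] (t : RTr V) (U Lv : Finset V)
    (hUL : U ⊆ Lv) (hinj : ∀ c ∈ Lv, ∀ c' ∈ Lv, t.par c = t.par c' → c = c')
    (t' : RTr {v // v ∉ U}) (h2 : ∀ w, (t'.par w).1 = t.par w.1) (Hub : Finset {v // v ∉ U})
    (h0 m : ℕ) (hh : Hub.card ≤ h0) (hc : U.card + m + h0 + 1 ≤ Lv.card) :
    ∃ Sp : Finset {v // v ∉ U}, Sp.card = m ∧ (∀ s ∈ Sp, s.1 ∈ Lv) ∧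
      (∀ s ∈ Sp, t'.par s ∉ Hub) ∧ (∀ s ∈ Sp, t'.par s ≠ t'.root) ∧
      ∀ s ∈ Sp, ∀ s' ∈ Sp, t'.par s = t'.par s' → s = s' := by
  classical
  let G : Finset {v // v ∉ U} := univ.filter fun s => s.1 ∈ Lv
  have hG : G.card = (Lv \ U).card := by
    refine card_bij (fun s _ => s.1) ?_ ?_ ?_
    · intro s hs
      rw [mem_filter] at hs
      exact mem_sdiff.2 ⟨hs.2, s.2⟩
    · intro s _ s' _ h
      exact Subtype.ext h
    · intro v hv
      rw [mem_sdiff] at hv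
      exact ⟨⟨v, hv.2⟩, mem_filter.2 ⟨mem_univ _, hv.1⟩, rfl⟩
  have hG2 : (Lv \ U).card + U.card = Lv.card := card_sdiff_add_card_eq_card hUL
  have hGinj : ∀ s ∈ G, ∀ s' ∈ G, t'.par s = t'.par s' → s = s' := by
    intro s hs s' hs' h
    rw [mem_filter] at hs hs'
    have h3 := congrArg Subtype.val h
    rw [h2, h2] at h3
    exact Subtype.ext (hinj _ hs.2 _ hs'.2 h3)
  have hB : (G.filter fun s => t'.par s ∈ insert t'.root Hub).card ≤ h0 + 1 := by
    refine le_trans (card_le_card_of_injOn (t := insert t'.root Hub) t'.par ?_ ?_) ?_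
    · intro s hs
      rw [mem_coe, mem_filter] at hs
      exact hs.2
    · intro s hs s' hs' h
      rw [mem_coe, mem_filter] at hs hs'
      exact hGinj s hs.1 s' hs'.1 h
    · exact (card_insert_le _ _).trans (by omega)
  have hB2 := card_filter_add_card_filter_not (s := G) (fun s => t'.par s ∈ insert t'.root Hub)
  obtain ⟨Sp, hSp, hSpc⟩ := exists_subset_card_eq
    (s := G.filter fun s => ¬ t'.par s ∈ insert t'.root Hub) (n := m) (by omega)
  have hmem : ∀ s ∈ Sp, s.1 ∈ Lv ∧ t'.par s ∉ Hub ∧ t'.par s ≠ t'.root := by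
    intro s hs
    have h3 := hSp hs
    rw [mem_filter, mem_filter, mem_insert] at h3
    exact ⟨h3.1.2, fun h => h3.2 (Or.inr h), fun h => h3.2 (Or.inl h)⟩
  refine ⟨Sp, hSpc, fun s hs => (hmem s hs).1, fun s hs => (hmem s hs).2.1,
    fun s hs => (hmem s hs).2.2, fun s hs s' hs' h => ?_⟩
  exact hGinj s (mem_filter.1 (hSp hs)).1 s' (mem_filter.1 (hSp hs')).1 h

private theorem CasI_final {n : ℕ} [NeZero n] {V : Type} [Fintype V] [DecidableEq V] (t : RTr V)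
    (sd : V → Bool) (U : Finset V) (hUs : ∀ u ∈ U, sd u = false)
    (t' : RTr {v // v ∉ U}) (h1 : t'.root.1 = t.root) (h2 : ∀ w, (t'.par w).1 = t.par w.1)
    (pp : {v // v ∈ U} → {v // v ∉ U}) (hpp : ∀ p, (pp p).1 = t.par p.1)
    (f' : {v // v ∉ U} ⊕ {v // v ∈ U} → ZMod n)
    (k1 : ∀ u v : {v // v ∉ U} ⊕ {v // v ∈ U}, Sum.elim (fun w => sd w.1) (fun _ => false) u =
      Sum.elim (fun w => sd w.1) (fun _ => false) v → f' u = f' v → u = v)
    (k2 : ∀ w w' : {v // v ∉ U}, w ≠ t'.root → w' ≠ t'.root →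
      f' (Sum.inl w) + f' (Sum.inl (t'.par w)) = f' (Sum.inl w') + f' (Sum.inl (t'.par w')) →
      w = w')
    (k3 : ∀ (w : {v // v ∉ U}) (p : {v // v ∈ U}), w ≠ t'.root →
      f' (Sum.inl w) + f' (Sum.inl (t'.par w)) ≠ f' (Sum.inr p) + f' (Sum.inl (pp p)))
    (k4 : ∀ p q : {v // v ∈ U}, f' (Sum.inr p) + f' (Sum.inl (pp p)) =
      f' (Sum.inr q) + f' (Sum.inl (pp q)) → p = q) :
    ∃ f : V → ZMod n, (∀ u v, sd u = sd v → f u = f v → u = v) ∧
      ∀ u v, u ≠ t.root → v ≠ t.root → f u + f (t.par u) = f v + f (t.par v) → u = v := by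
  let f : V → ZMod n := fun v => if h : v ∈ U then f' (Sum.inr ⟨v, h⟩) else f' (Sum.inl ⟨v, h⟩)
  have fU : ∀ (v : V) (h : v ∈ U), f v = f' (Sum.inr ⟨v, h⟩) := fun v h => dif_pos h
  have fW : ∀ (v : V) (h : v ∉ U), f v = f' (Sum.inl ⟨v, h⟩) := fun v h => dif_neg h
  have fpp : ∀ (v : V) (h : v ∈ U), f (t.par v) = f' (Sum.inl (pp ⟨v, h⟩)) := by
    intro v h
    have h3 := hpp ⟨v, h⟩
    have h4 : t.par v ∉ U := by
      rw [← h3]
      exact (pp ⟨v, h⟩).2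
    rw [fW _ h4]
    congr 2
    exact Subtype.ext h3.symm
  have fpw : ∀ (v : V) (h : v ∉ U), f (t.par v) = f' (Sum.inl (t'.par ⟨v, h⟩)) := by
    intro v h
    have h3 := h2 ⟨v, h⟩
    have h4 : t.par v ∉ U := by
      rw [← h3]
      exact (t'.par ⟨v, h⟩).2
    rw [fW _ h4]
    congr 2
    exact Subtype.ext h3.symm
  have hr : ∀ (v : V) (h : v ∉ U), v ≠ t.root → (⟨v, h⟩ : {v // v ∉ U}) ≠ t'.root := by
    intro v h h3 h4
    apply h3
    rw [← h1, ← h4]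
  refine ⟨f, fun u v hs he => ?_, fun u v hu hv he => ?_⟩
  · by_cases hu : u ∈ U <;> by_cases hv : v ∈ U
    · rw [fU u hu, fU v hv] at he
      have h3 := k1 _ _ (by rfl) he
      exact congrArg Subtype.val (Sum.inr.inj h3)
    · rw [fU u hu, fW v hv] at he
      have h3 := k1 (Sum.inr ⟨u, hu⟩) (Sum.inl ⟨v, hv⟩)
        (by rw [hUs u hu] at hs; exact hs) he
      exact absurd h3 (by simp)
    · rw [fW u hu, fU v hv] at he
      have h3 := k1 (Sum.inl ⟨u, hu⟩) (Sum.inr ⟨v, hv⟩)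
        (by rw [hUs v hv] at hs; exact hs) he
      exact absurd h3 (by simp)
    · rw [fW u hu, fW v hv] at he
      have h3 := k1 (Sum.inl ⟨u, hu⟩) (Sum.inl ⟨v, hv⟩) hs he
      exact congrArg Subtype.val (Sum.inl.inj h3)
  · by_cases hu' : u ∈ U <;> by_cases hv' : v ∈ U
    · rw [fU u hu', fU v hv', fpp u hu', fpp v hv'] at he
      exact congrArg Subtype.val (k4 _ _ he)
    · rw [fU u hu', fW v hv', fpp u hu', fpw v hv'] at he
      exact absurd he.symm (k3 _ _ (hr v hv' hv))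
    · rw [fW u hu', fU v hv', fpw u hu', fpp v hv'] at he
      exact absurd he (k3 _ _ (hr u hu' hu))
    · rw [fW u hu', fW v hv', fpw u hu', fpw v hv'] at he
      exact congrArg Subtype.val (k2 _ _ (hr u hu' hu) (hr v hv' hv) he)

private theorem CasI_sl (k : Kd5) (hk : Kd5.sl k = true) : Kd5.sd k = false := by
  cases k
  · exact absurd hk (by decide)
  · rfl
  · exact absurd hk (by decide)
  · exact absurd hk (by decide)
  · rfl

/-- the hubs -/
private theorem CasI_hub {n : ℕ} {W : Type} [Fintype W] [DecidableEq W] (X : KT W Kd5 Ps2)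
    (hS : Std false X) (Sp : Finset W)
    (hP : ∀ w, X.kd w = Kd5.P0 ↔ ∃ s ∈ Sp, X.t.par s = w) (hP1 : ∀ w, X.kd w ≠ Kd5.P1)
    (Hub : Finset W) (κ₁ : ℝ) (hκ : 0 < κ₁) (h0 : ℕ) (hc : Hub.card ≤ h0)
    (a1 : ∀ w, w ∉ Hub → ((X.t.ch w).card : ℝ) ≤ κ₁ * n)
    (a2 : ∀ w, w ∉ Hub → ((X.t.nb w).filter fun v => v ∈ Hub).card ≤ 1)
    (a3 : ∀ h ∈ Hub, κ₁ * n ≤ (X.t.sz h : ℝ))
    (a4 : ∀ K : Finset W, (∀ w ∈ K, ((X.t.ch w).card : ℝ) ≤ κ₁ * n) →
        (∀ w ∈ K, ((X.t.nb w).filter fun v => v ∉ K).card ≤ 1) → Disjoint K Hub)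
    (hSp : ∀ s ∈ Sp, X.t.par s ∉ Hub) : HubOK X Hub κ₁ h0 n := by
  have hdm : ∀ k, Kd5.dm false k = false := by
    intro k
    cases k <;> rfl
  refine ⟨hc, a1, a2, a3, fun w hw => ?_, fun h hh => ?_⟩
  · rw [hS.dom, hdm] at hw
    exact absurd hw (by simp)
  · rcases hk : X.kd h with _ | _ | _ | _ | _
    · exact Or.inl rfl
    · exact Or.inr rfl
    · obtain ⟨s, hs, rfl⟩ := (hP h).1 hk
      exact absurd hh (hSp s hs)
    · exact absurd hk (hP1 h)
    · exfalso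
      have h1 : X.t.ch h = ∅ := by
        apply X.spl_leaf
        rw [hS.spl, hk]
        rfl
      have h2 := a4 {h} (fun w hw => by
        rw [mem_singleton] at hw
        subst hw
        rw [h1, card_empty, Nat.cast_zero]
        positivity) (fun w hw => by
        rw [mem_singleton] at hw
        subst hw
        refine le_trans (card_le_card (filter_subset _ _)) ?_
        unfold RTr.nb
        rw [h1, empty_union]
        split_ifs
        · rw [card_empty]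
          exact Nat.zero_le _
        · rw [card_singleton])
      exact (disjoint_left.1 h2) (mem_singleton_self h) hh

/-- the budgets -/
private theorem CasI_bud {n : ℕ} [NeZero n] {W : Type} [Fintype W] [DecidableEq W]
    (X : KT W Kd5 Ps2) (hS : Std false X) (Hub : Finset W) {κ₁ : ℝ} {h0 : ℕ}
    (hub : HubOK X Hub κ₁ h0 n) (g ρ σ μ : ℝ) (N0 m q : ℕ)
    (hW : Fintype.card W + N0 = n + 1)
    (hm : (univ.filter fun w => X.kd w = Kd5.L).card = m)
    (hside : ∀ s : Bool, ((univ.filter fun w => (X.kd w).sd = s).card : ℝ) ≤ (1 - g) * n)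
    (h1 : 6 * (σ / 20) + 4 * ρ + σ / 20 ≤ g) (hσ : 0 < σ) (h2 : 1000 ≤ σ * n)
    (hμm : μ * n ≤ m) (hμ : 5 * ρ + 8 * (σ / 20) ≤ μ)
    (hN : σ * n - 1 ≤ N0) (hq1 : (q : ℝ) ≤ m + (σ / 20 + σ / 20) * n + 1)
    (hq2 : (m : ℝ) + (σ / 20 + σ / 20) * n ≤ q) :
    Bud false X Hub n q ρ (σ / 20) (σ / 20) (σ / 20) (σ / 20) ρ (σ / 20) (σ / 20) := by
  have hn : (0 : ℝ) < n := Nat.cast_pos.2 (Nat.pos_of_ne_zero (NeZero.ne n))
  have hJ := nclJ hS hub
  rw [hm] at hJ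
  refine ⟨?_, fun s => ?_, ?_, ?_⟩
  · have e2 := ncl_sum X hS.cl Hub
    rw [hJ] at e2
    have e3 : ∑ h ∈ Hub, ∑ k : Kd5, (Cfg.nch X h k : ℝ) + m ≤ n := by
      have e4 : ∑ h ∈ Hub, ∑ k : Kd5, Cfg.nch X h k + m ≤ n := by omega
      exact_mod_cast e4
    have e6 : ∑ h ∈ Hub, ∑ k : Kd5, (Cfg.nch X h k : ℝ) / n =
        (∑ h ∈ Hub, ∑ k : Kd5, (Cfg.nch X h k : ℝ)) / n := by
      rw [sum_div]
      exact sum_congr rfl fun h _ => by rw [sum_div]
    have e7 : (∑ h ∈ Hub, ∑ k : Kd5, (Cfg.nch X h k : ℝ)) / n ≤ 1 - μ := by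
      rw [div_le_iff₀ hn]
      linarith
    rw [e6]
    linarith
  · have e1 : ∀ k, Kd5.wd false k = 1 := by
      intro k
      cases k <;> simp [Kd5.wd, Kd5.dm]
    have e2 := nk_sum X Hub s
    have e3 : ((univ.filter fun w => w ≠ X.t.root ∧ (X.kd w).sd = s).card : ℝ) ≤ (1 - g) * n := by
      refine le_trans ?_ (hside s)
      exact_mod_cast card_le_card fun w hw => by
        rw [mem_filter] at hw ⊢
        exact ⟨hw.1, hw.2.2⟩
    have e4 : ((univ.filter fun k : Kd5 => k.sd = s).card : ℝ) ≤ 3 := by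
      have : (univ.filter fun k : Kd5 => k.sd = s).card ≤ 3 := by
        cases s <;> decide
      exact_mod_cast this
    have e5 : ∑ k ∈ univ.filter (fun k : Kd5 => k.sd = s),
        Kd5.wd false k * ((nk X Hub k : ℝ) / n + σ / 20 + σ / 20) =
        (∑ k ∈ univ.filter (fun k : Kd5 => k.sd = s), (nk X Hub k : ℝ)) / n +
          ((univ.filter fun k : Kd5 => k.sd = s).card : ℝ) * (σ / 20 + σ / 20) := by
      rw [sum_div, ← nsmul_eq_mul, ← sum_const, ← sum_add_distrib]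
      refine sum_congr rfl fun k _ => ?_
      rw [e1]
      ring
    have e6 : ∑ h ∈ Hub, ∑ k ∈ univ.filter (fun k : Kd5 => k.sd = s), (Cfg.nch X h k : ℝ) / n =
        (∑ h ∈ Hub, ∑ k ∈ univ.filter (fun k : Kd5 => k.sd = s), (Cfg.nch X h k : ℝ)) / n := by
      rw [sum_div]
      exact sum_congr rfl fun h _ => by rw [sum_div]
    have e7 : (∑ k ∈ univ.filter (fun k : Kd5 => k.sd = s), (nk X Hub k : ℝ)) +
        ∑ h ∈ Hub, ∑ k ∈ univ.filter (fun k : Kd5 => k.sd = s), (Cfg.nch X h k : ℝ) ≤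
        (1 - g) * n := by
      rw [← e2] at e3
      push_cast at e3
      exact e3
    rw [e5, e6]
    have e8 : ((∑ k ∈ univ.filter (fun k : Kd5 => k.sd = s), (nk X Hub k : ℝ)) +
        ∑ h ∈ Hub, ∑ k ∈ univ.filter (fun k : Kd5 => k.sd = s), (Cfg.nch X h k : ℝ)) / n ≤
        1 - g := by
      rw [div_le_iff₀ hn]
      exact e7
    rw [add_div] at e8
    have e9 : ((univ.filter fun k : Kd5 => k.sd = s).card : ℝ) * (σ / 20 + σ / 20) ≤
        3 * (σ / 20 + σ / 20) := by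
      gcongr
    linarith
  · have e2 := ncl_sum X hS.cl Hub
    rw [hJ] at e2
    have e3 : (ncl X Hub Ps2.o : ℝ) + ∑ h ∈ Hub, ∑ k : Kd5, (Cfg.nch X h k : ℝ) + m + N0 = n := by
      have e4 : ncl X Hub Ps2.o + ∑ h ∈ Hub, ∑ k : Kd5, Cfg.nch X h k + m + N0 = n := by omega
      exact_mod_cast e4
    have e6 : ∑ h ∈ Hub, ∑ k : Kd5, (Cfg.nch X h k : ℝ) / n =
        (∑ h ∈ Hub, ∑ k : Kd5, (Cfg.nch X h k : ℝ)) / n := by
      rw [sum_div]
      exact sum_congr rfl fun h _ => by rw [sum_div]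
    rw [e6, if_neg (by simp), one_mul]
    have e7 : (ncl X Hub Ps2.o : ℝ) / n + σ / 20 +
        (∑ h ∈ Hub, ∑ k : Kd5, (Cfg.nch X h k : ℝ)) / n + (q : ℝ) / n + σ / 20 + σ / 20 + σ / 20 =
        ((ncl X Hub Ps2.o : ℝ) + (∑ h ∈ Hub, ∑ k : Kd5, (Cfg.nch X h k : ℝ)) + q +
          4 * (σ / 20) * n) / n := by
      field_simp
      ring
    rw [e7, div_le_iff₀ hn]
    linarith
  · rw [hJ]
    exact hq2

theorem case_one (γ ε₁ : ℝ) (hγ : 0 < γ) (hε : 0 < ε₁) :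
    ∃ n₀ : ℕ, ∀ (n : ℕ) [NeZero n], n₀ ≤ n → ∀ (V : Type) [Fintype V] [DecidableEq V]
      (t : RTr V) (sd : V → Bool), Fintype.card V = n + 1 →
      (∀ w, w ≠ t.root → sd w ≠ sd (t.par w)) →
      (∀ s : Bool, ((univ.filter fun v => sd v = s).card : ℝ) ≤ (1 - γ) * n) →
      ε₁ * n ≤ ((univ.filter fun v => sd v = true ∧ ∃ c ∈ t.ch v, t.ch c = ∅).card : ℝ) →
      ∃ f : V → ZMod n, (∀ u v, sd u = sd v → f u = f v → u = v) ∧
        ∀ u v, u ≠ t.root → v ≠ t.root → f u + f (t.par u) = f v + f (t.par v) → u = v := by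
  obtain ⟨g, hg⟩ : ∃ g : ℝ, g = min γ 1 := ⟨_, rfl⟩
  obtain ⟨e, he⟩ : ∃ e : ℝ, e = min ε₁ 1 := ⟨_, rfl⟩
  have hg0 : 0 < g := by rw [hg]; exact lt_min hγ one_pos
  have hg1 : g ≤ 1 := by rw [hg]; exact min_le_right _ _
  have hgγ : g ≤ γ := by rw [hg]; exact min_le_left _ _
  have he0 : 0 < e := by rw [he]; exact lt_min hε one_pos
  have he1 : e ≤ 1 := by rw [he]; exact min_le_right _ _
  have heε : e ≤ ε₁ := by rw [he]; exact min_le_left _ _
  obtain ⟨μ, hμ⟩ : ∃ μ : ℝ, μ = min (e / 4) (g / 100) := ⟨_, rfl⟩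
  obtain ⟨ρ, hρ⟩ : ∃ ρ : ℝ, ρ = μ / 20 := ⟨_, rfl⟩
  have hμ0 : 0 < μ := by rw [hμ]; exact lt_min (by positivity) (by positivity)
  have hρ0 : 0 < ρ := by rw [hρ]; positivity
  have hμe : μ ≤ e / 4 := by rw [hμ]; exact min_le_left _ _
  have hμg : μ ≤ g / 100 := by rw [hμ]; exact min_le_right _ _
  have hμ1 : μ ≤ 1 / 100 := by linarith
  have hρ1 : ρ ≤ 1 / 2000 := by rw [hρ]; linarith
  obtain ⟨a, ha⟩ : ∃ a : ℝ, a = μ * ρ * ρ / 2 := ⟨_, rfl⟩
  obtain ⟨r, hr⟩ : ∃ r : ℝ, r = ρ / 2 := ⟨_, rfl⟩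
  have ha0 : 0 < a := by rw [ha]; positivity
  have hr0 : 0 < r := by rw [hr]; positivity
  have hr1 : r ≤ 1 := by rw [hr]; linarith
  have haμ : a ≤ μ / 400 := by
    rw [ha]
    have h1 : μ * ρ * ρ ≤ μ * (1 / 200) * 1 := by
      gcongr
      · linarith
      · linarith
    linarith
  obtain ⟨σ, hσ⟩ : ∃ σ : ℝ, σ = a ^ 2 * r / 64 := ⟨_, rfl⟩
  have hσ0 : 0 < σ := by rw [hσ]; positivity
  have hσa : σ ≤ a / 1000 := by
    have h1 : a ^ 2 * r ≤ a * (1 / 40000) * 1 := by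
      rw [pow_two]
      gcongr
      linarith
    rw [hσ]
    linarith
  obtain ⟨κ₁, hκ₁, H⟩ := place Kd5 Ps2 (σ / 20) (σ / 20 * (σ / 20) ^ 2 / 8) σ (by positivity)
    (by positivity) hσ0
  obtain ⟨h0, hh0⟩ : ∃ h0 : ℕ, 2 / κ₁ ≤ h0 := exists_nat_ge _
  obtain ⟨κ₂, hκ₂, θ₀, hθ₀, n₁, H⟩ := H h0
  obtain ⟨θ, hθ⟩ : ∃ θ : ℝ, θ = min θ₀ (σ ^ 2) := ⟨_, rfl⟩
  have hθ0 : 0 < θ := by rw [hθ]; exact lt_min hθ₀ (by positivity)
  have hθθ : θ ≤ θ₀ := by rw [hθ]; exact min_le_left _ _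
  have hθσ : Real.sqrt θ ≤ σ := by
    rw [← Real.sqrt_sq hσ0.le]
    apply Real.sqrt_le_sqrt
    rw [hθ]
    exact min_le_right _ _
  obtain ⟨n₂, HC⟩ := cfg_exists false ρ (σ / 20) (σ / 20) (σ / 20) (σ / 20) ρ (σ / 20) (σ / 20) μ
    hρ0 (by positivity) (by positivity) (by positivity) (by positivity) hρ0 (by positivity)
    (by positivity) hμ0 (by linarith) h0 κ₁ κ₂ θ hκ₂ hθ0
  obtain ⟨n₃, hn₃⟩ : ∃ n₃ : ℕ, 1000 / σ ≤ n₃ := exists_nat_ge _
  obtain ⟨n₄, hn₄⟩ : ∃ n₄ : ℕ, ((h0 : ℝ) + 1) / (e / 4) ≤ n₄ := exists_nat_ge _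
  refine ⟨n₁ + n₂ + n₃ + n₄, ?_⟩
  intro n _ hn V _ _ t sd hV hsd hside hleaf
  have hn0 : (0 : ℝ) < n := Nat.cast_pos.2 (Nat.pos_of_ne_zero (NeZero.ne n))
  have c1 : 1000 ≤ σ * n := by
    have h1 : (n₃ : ℝ) ≤ n := by exact_mod_cast (show n₃ ≤ n by omega)
    have h2 := le_trans hn₃ h1
    rw [div_le_iff₀ hσ0] at h2
    linarith
  have c2 : (h0 : ℝ) + 1 ≤ e / 4 * n := by
    have h1 : (n₄ : ℝ) ≤ n := by exact_mod_cast (show n₄ ≤ n by omega)
    have h2 := le_trans hn₄ h1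
    rw [div_le_iff₀ (by positivity)] at h2
    linarith
  have c3 : σ * n ≤ a * n / 1000 := by
    have : σ * n ≤ a / 1000 * n := by gcongr
    linarith
  have c4 : a * n ≤ μ * n / 400 := by
    have : a * n ≤ μ / 400 * n := by gcongr
    linarith
  have c5 : μ * n ≤ e / 4 * n := by gcongr
  have c6 : e * n ≤ n := by
    have : e * n ≤ 1 * n := by gcongr
    linarith
  -- the numbers
  obtain ⟨N0, hN0⟩ : ∃ N0 : ℕ, N0 = ⌊σ * n⌋₊ := ⟨_, rfl⟩
  obtain ⟨m, hm⟩ : ∃ m : ℕ, m = ⌈μ * n⌉₊ := ⟨_, rfl⟩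
  obtain ⟨q, hq⟩ : ∃ q : ℕ, q = m + ⌈(σ / 20 + σ / 20) * n⌉₊ := ⟨_, rfl⟩
  obtain ⟨A, hA⟩ : ∃ A : ℕ, A = ⌈a / 2 * n⌉₊ := ⟨_, rfl⟩
  have hN1 : (N0 : ℝ) ≤ σ * n := by
    rw [hN0]
    exact Nat.floor_le (by positivity)
  have hN2 : σ * n - 1 ≤ N0 := by
    rw [hN0]
    have := Nat.lt_floor_add_one (σ * n)
    linarith
  have hm1 : μ * n ≤ m := by
    rw [hm]
    exact Nat.le_ceil _
  have hm2 : (m : ℝ) ≤ μ * n + 1 := by
    rw [hm]
    exact (Nat.ceil_lt_add_one (by positivity)).le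
  have hq1 : (m : ℝ) + (σ / 20 + σ / 20) * n ≤ q := by
    rw [hq]
    push_cast
    have := Nat.le_ceil ((σ / 20 + σ / 20) * n)
    linarith
  have hq2 : (q : ℝ) ≤ m + (σ / 20 + σ / 20) * n + 1 := by
    rw [hq]
    push_cast
    have := (Nat.ceil_lt_add_one (show (0 : ℝ) ≤ (σ / 20 + σ / 20) * n by positivity)).le
    linarith
  have hA1 : a / 2 * n ≤ A := by
    rw [hA]
    exact Nat.le_ceil _
  have hA2 : (A : ℝ) ≤ a / 2 * n + 1 := by
    rw [hA]
    exact (Nat.ceil_lt_add_one (by positivity)).le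
  -- the leaves
  obtain ⟨Lv, hLc, hLv, hLinj⟩ := CasI_leaves t sd hsd
  have hLcard : N0 + m + h0 + 1 ≤ Lv.card := by
    rw [← hLc]
    have h1 : (N0 : ℝ) + m + h0 + 1 ≤
        ((univ.filter fun v => sd v = true ∧ ∃ c ∈ t.ch v, t.ch c = ∅).card : ℝ) := by
      refine le_trans ?_ hleaf
      have h2 : e * n ≤ ε₁ * n := by gcongr
      linarith
    exact_mod_cast h1
  obtain ⟨U, hUL, hUc⟩ := exists_subset_card_eq (s := Lv) (n := N0) (by omega)
  obtain ⟨t', h1', h2'⟩ := sub_tree t U fun u hu => ⟨(hLv u (hUL hu)).1, (hLv u (hUL hu)).2.1⟩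
  have hWc : Fintype.card {v // v ∉ U} + N0 = n + 1 := by
    have e1 := card_filter_add_card_filter_not (s := (univ : Finset V)) (fun v => v ∈ U)
    have e2 : (univ.filter fun v => v ∈ U) = U := by
      ext v
      simp
    rw [e2, card_univ, hV] at e1
    rw [Fintype.card_subtype]
    omega
  have hN3 : N0 ≤ n := by
    have : (N0 : ℝ) ≤ n := by linarith
    exact_mod_cast this
  have hn1 : 1 ≤ n := Nat.pos_of_ne_zero (NeZero.ne n)
  obtain ⟨Hub, b1, b2, b3, b4, b5⟩ := RTr.hub_deg t' n κ₁ hκ₁ hn1 (by omega)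
  have b1' : Hub.card ≤ h0 := by
    have := le_trans b1 hh0
    exact_mod_cast this
  obtain ⟨Sp, d1, d2, d3, d4, d5⟩ := CasI_pick t U Lv hUL hLinj t' h2' Hub h0 m b1'
    (by rw [hUc]; exact hLcard)
  have hroot' : ∀ w : {v // v ∉ U}, w ≠ t'.root → w.1 ≠ t.root := by
    intro w hw h
    apply hw
    exact Subtype.ext (by rw [h, h1'])
  obtain ⟨X, x1, x2, x3, x4, x5, x6, x7⟩ := one_kt t' (fun w => sd w.1)
    (fun w hw => by
      change sd w.1 ≠ sd (t'.par w).1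
      rw [h2']
      exact hsd _ (hroot' w hw)) Sp
    (fun s hs => by
      have h1 := hLv s.1 (d2 s hs)
      refine ⟨?_, ?_, h1.2.2.1, d4 s hs⟩
      · rw [eq_empty_iff_forall_notMem]
        intro c hc
        unfold RTr.ch at hc
        rw [mem_filter] at hc
        have h3 : c.1 ∈ t.ch s.1 := by
          unfold RTr.ch
          rw [mem_filter]
          refine ⟨mem_univ _, hroot' c hc.2.1, ?_⟩
          rw [← h2', hc.2.2]
        rw [h1.1] at h3
        simp at h3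
      · intro h
        apply h1.2.1
        rw [h, h1']) d5
  subst x1
  have hub : HubOK X Hub κ₁ h0 n :=
    CasI_hub X x2 Sp x6 x7 Hub κ₁ hκ₁ h0 b1' b2 b3 b4 b5 d3
  have hLf : (univ.filter fun w => X.kd w = Kd5.L) = Sp := by
    ext w
    simp [x5 w]
  have hPf : (univ.filter fun w => X.kd w = Kd5.P0) = Sp.image X.t.par := by
    ext w
    simp [x6 w]
  have hPc : (univ.filter fun w => X.kd w = Kd5.P0).card =
      (univ.filter fun w => X.kd w = Kd5.L).card := by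
    rw [hPf, hLf, card_image_of_injOn]
    intro s hs s' hs' h
    exact d5 s hs s' hs' h
  have hsd2 : ∀ s : Bool, ((univ.filter fun w => (X.kd w).sd = s).card : ℝ) ≤ (1 - g) * n := by
    intro s
    have h1 : (univ.filter fun w : {v // v ∉ U} => (X.kd w).sd = s).card ≤
        (univ.filter fun v => sd v = s).card := by
      refine card_le_card_of_injOn (fun w => w.1) ?_ ?_
      · intro w hw
        rw [mem_coe, mem_filter] at hw ⊢
        rw [x4 w] at hw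
        exact ⟨mem_univ _, hw.2⟩
      · intro w _ w' _ h
        exact Subtype.ext h
    have h2 : ((univ.filter fun w : {v // v ∉ U} => (X.kd w).sd = s).card : ℝ) ≤
        ((univ.filter fun v => sd v = s).card : ℝ) := by exact_mod_cast h1
    have h3 : (1 - γ) * n ≤ (1 - g) * n := by gcongr
    exact h2.trans ((hside s).trans h3)
  have hJ := nclJ x2 hub
  rw [hLf, d1] at hJ
  have hbud := CasI_bud X x2 Hub hub g ρ σ μ N0 m q hWc (by rw [hLf, d1]) hsd2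
    (by rw [hρ]; linarith) hσ0 c1 hm1 (by rw [hρ]; linarith) hN2 hq2 hq1
  obtain ⟨C, J1, E, RA, RB, Y1, Y2, Y3, F, y1, y2, y3⟩ := HC n (by omega) _ X Hub q (by omega) x2
    hub hbud (by rw [hJ]; exact hm1)
  subst y1
  obtain ⟨lab, D, z1, z2, z3, z4, z5, z6, z7⟩ := H n (by omega) _ X C (by omega) (by
    have h1 : (n : ℝ) ≤ 2 * Fintype.card {v // v ∉ U} := by
      have h2 : ((Fintype.card {v // v ∉ U} + N0 : ℕ) : ℝ) = ((n + 1 : ℕ) : ℝ) := by rw [hWc]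
      push_cast at h2
      linarith
    exact_mod_cast h1) (y2.mono hθθ)
  rw [← ha, ← hr] at y3
  obtain ⟨i1, i2⟩ := items_count false X C κ₁ h0 x2 hub J1 E RA RB Y1 Y2 Y3 F q a r _ _ _ θ σ y3
    hPc lab D z1 z2 z3 z7 A (by linarith) (by positivity)
  have hside' : ∀ w, X.side (X.kd w) = sd w.1 := by
    intro w
    rw [x2.side, x4]
  have hpar : ∀ p ∈ U, t.par p ∉ U := by
    intro p hp h
    have h3 := (hLv _ (hUL h)).1
    have h4 : p ∈ t.ch (t.par p) := by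
      unfold RTr.ch
      rw [mem_filter]
      exact ⟨mem_univ _, (hLv _ (hUL hp)).2.1, rfl⟩
    rw [h3] at h4
    simp at h4
  let pp : {v // v ∈ U} → {v // v ∉ U} := fun p => ⟨t.par p.1, hpar p.1 p.2⟩
  have hπ : Fintype.card {v // v ∈ U} = N0 := by rw [Fintype.card_coe, hUc]
  obtain ⟨f', k1, k2, k3, k4⟩ := end_one X lab D z1 z3 x3
    (fun k hk => by
      rw [x2.spl] at hk
      rw [x2.side]
      exact CasI_sl k hk) pp
    (fun p => by
      rw [hside']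
      exact (hLv _ (hUL p.2)).2.2.2)
    (by rw [hπ]; exact hWc) Y1 Y2 Y3 y3.Y12 y3.Y13 y3.Y23
    (fun w hw hs hx => by
      have hl : C.Lab X false (lab w) := by
        rcases z4 w hw with h | h | h | h
        · exact Or.inr (Or.inr ⟨w, h.1, hs, h.2⟩)
        · exact Or.inl ⟨X.kd w, hs, Or.inl h⟩
        · exact Or.inl ⟨X.kd w, hs, Or.inr h⟩
        · exact Or.inr (Or.inl ⟨X.t.par w, h.2.1, X.kd w, hs, h.2.2⟩)
      exact y3.out_B _ hl (mem_union_left _ hx))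
    A r θ hr0.le hθ0.le i1 i2 y3.Y2_big y3.Y2_aut
    (by
      rw [hπ]
      have h1 : (6 : ℝ) * (D.card + N0) ≤ A := by linarith
      exact_mod_cast h1)
    (by
      rw [hπ]
      have h1 : (a / 4 * n) ^ 2 ≤ (A / 2 : ℝ) ^ 2 := by
        gcongr
        linarith
      have h2 : (a / 4 * n) ^ 2 * r ≤ (A / 2 : ℝ) ^ 2 * r := by gcongr
      have h3 : (a / 4 * n) ^ 2 * r = 4 * σ * (n : ℝ) ^ 2 := by
        rw [hσ]
        ring
      have h4 : Real.sqrt θ * (n : ℝ) ^ 2 ≤ σ * (n : ℝ) ^ 2 := by gcongr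
      have h5 : ((D.card : ℝ) + N0 + 2) * n ≤ (2 * (σ * n) + 2) * n := by
        gcongr
        linarith
      have h6 : 1000 * (n : ℝ) ≤ σ * n * n := by gcongr
      nlinarith)
  exact CasI_final t sd U (fun u hu => (hLv u (hUL hu)).2.2.1) X.t h1' h2' pp (fun p => rfl) f'
    (fun u v hs he => k1 u v (by
      rcases u with u | u <;> rcases v with v | v <;> simpa [hside'] using hs) he) k2 k3 k4

end Pool.Agent.Lib.MP_c5b475_co.KN
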