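import Pool.Agent.Lib.MP_c5b475_co.KN.EiA

/-!
# KN/EndII: the exact end in case (II)

`sing_stage`, then `swap_stage` with `Cs = (QJ ∪ J1) \ {lJ ...}` (`3|β|` starts of `J1` are used by the
bare paths, so `|Cs| = #spl + |π|` by `cardJ`). Labelling:
`tok w ↦ lab w` for non-special `w`, `ci w - lab (par w)` for special `w`; `sec w ↦ lab w + 1`;
`ctr p ↦ cp p - lab (pp p)`; `inn b i ↦ lB _ _ _ 0, lA _ 0, lB _ 1, lA _ 1, lB _ 2, lA _ 2, lB _ 3` with
`z = lab (bb b)` (`i = 0, ..., 6`); `lf ↦ s0 - lab lp`.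
Colours: `ord w`, `w` not special: `col lab w`; `ord w` / `sp2 w`, `w` special: `ci w`, `ci w + 1`;
`ct1 p`, `ct2 p`: `cp p`, `cp p + 1`; `inn b i`: `g + 1, s, s + 2η, h, h - η - 1, h + 1, h - η, g`;
`lf`: `s0`. They are distinct: starts of `Cs`, of the `lJ`, their successors (`starts`), singles.
-/

set_option autoImplicit false

namespace Pool.Agent.Lib.MP_c5b475_co.KN

open Finset

variable {n : ℕ} [NeZero n] {W Kd Ψ π β : Type} [Fintype W] [DecidableEq W] [Fintype π]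
  [DecidableEq π] [Fintype β] [DecidableEq β]

/-- the labelling -/
private def e2f (X : KT W Kd Ψ) (lab : W → ZMod n) (pp : π → W) (bb : β → W) (lp : W) (s0 : ZMod n)
    (s η g h : β → ZMod n) (ci : W → ZMod n) (cp : π → ZMod n) : EV W π β → ZMod n
  | .tok w => if X.spl (X.kd w) = true then ci w - lab (X.t.par w) else lab w
  | .sec w => lab w + 1
  | .ctr p => cp p - lab (pp p)
  | .inn b i => ![lB (lab (bb b)) (η b) (g b) 0, lA (lab (bb b)) (s b) (η b) (g b) (h b) 0,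
      lB (lab (bb b)) (η b) (g b) 1, lA (lab (bb b)) (s b) (η b) (g b) (h b) 1,
      lB (lab (bb b)) (η b) (g b) 2, lA (lab (bb b)) (s b) (η b) (g b) (h b) 2,
      lB (lab (bb b)) (η b) (g b) 3] i
  | .lf => s0 - lab lp

/-- the dominoes -/
private abbrev E2S (X : KT W Kd Ψ) (π β : Type) : Type :=
  {w : W // X.spl (X.kd w) = true} ⊕ (π ⊕ (β × Fin 3))

/-- the starts of the dominoes -/
private def e2st (X : KT W Kd Ψ) (η g h : β → ZMod n) (ci : W → ZMod n) (cp : π → ZMod n) :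
    E2S X π β → ZMod n :=
  Sum.elim (fun w => ci w.1) (Sum.elim cp (fun p => lJ (η p.1) (g p.1) (h p.1) p.2))

/-- the edges, sorted -/
private abbrev E2E (X : KT W Kd Ψ) (π β : Type) : Type :=
  ({w : W // w ≠ X.t.root ∧ X.spl (X.kd w) = false} ⊕ ((β ⊕ β) ⊕ Unit)) ⊕
    (E2S X π β ⊕ E2S X π β)

private def e2ev (X : KT W Kd Ψ) (lab : W → ZMod n) (s0 : ZMod n) (s η g h : β → ZMod n)
    (ci : W → ZMod n) (cp : π → ZMod n) : E2E X π β → ZMod n :=
  Sum.elim (Sum.elim (fun w => X.col lab w.1)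
    (Sum.elim (Sum.elim s (fun b => s b + 2 * η b)) (fun _ => s0)))
    (Sum.elim (e2st X η g h ci cp) (fun x => e2st X η g h ci cp x + 1))

private def e2ei (X : KT W Kd Ψ) (π β : Type) : E2E X π β → EE W π β :=
  Sum.elim (Sum.elim (fun w => .ord w.1)
    (Sum.elim (Sum.elim (fun b => .inn b 1) (fun b => .inn b 2)) (fun _ => .lf)))
    (Sum.elim (Sum.elim (fun w => .ord w.1) (Sum.elim .ct1 (fun p => .inn p.1 (![7, 3, 4] p.2))))
      (Sum.elim (fun w => .sp2 w.1) (Sum.elim .ct2 (fun p => .inn p.1 (![0, 5, 6] p.2)))))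

private theorem e2_exE (X : KT W Kd Ψ) (lab : W → ZMod n) (pp : π → W) (bb : β → W) (lp : W)
    (s0 : ZMod n) (s η g h : β → ZMod n) (ci : W → ZMod n) (cp : π → ZMod n)
    (ho : ∀ w, X.spl (X.kd w) = true → X.o w = 0)
    (hp : ∀ w, w ≠ X.t.root → X.spl (X.kd (X.t.par w)) = false)
    (hr : ∀ w, X.spl (X.kd w) = true → w ≠ X.t.root)
    (hpp : ∀ p, X.spl (X.kd (pp p)) = false) (hbb : ∀ b, X.spl (X.kd (bb b)) = false)
    (hlp : X.spl (X.kd lp) = false) (d : EE W π β) (hd : d.ok X) :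
    ∃ x : E2E X π β, e2ei X π β x = d ∧ e2ev X lab s0 s η g h ci cp x =
      e2f X lab pp bb lp s0 s η g h ci cp (d.ends X pp bb lp).1 +
        e2f X lab pp bb lp s0 s η g h ci cp (d.ends X pp bb lp).2 := by
  cases d with
  | ord w =>
    have hw : w ≠ X.t.root := hd
    by_cases hs : X.spl (X.kd w) = true
    · refine ⟨Sum.inr (Sum.inl (Sum.inl ⟨w, hs⟩)), rfl, ?_⟩
      have h1 : ¬ X.o w = 1 := by rw [ho w hs]; omega
      simp only [EE.ends, if_neg h1]
      show ci w = (if X.spl (X.kd w) = true then ci w - lab (X.t.par w) else lab w) +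
        (if X.spl (X.kd (X.t.par w)) = true then ci (X.t.par w) - lab (X.t.par (X.t.par w))
          else lab (X.t.par w))
      rw [if_pos hs, hp w hw]
      simp
    · have hs' : X.spl (X.kd w) = false := by simpa using hs
      refine ⟨Sum.inl (Sum.inl ⟨w, hw, hs'⟩), rfl, ?_⟩
      show lab w + lab (X.t.par w) + (X.o w : ZMod n) = _
      by_cases h1 : X.o w = 1
      · simp only [EE.ends, if_pos h1]
        show _ = (if X.spl (X.kd w) = true then ci w - lab (X.t.par w) else lab w) +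
          (lab (X.t.par w) + 1)
        rw [if_neg hs, h1]
        push_cast
        ring
      · have h0 : X.o w = 0 := by have := X.o_le w; omega
        simp only [EE.ends, if_neg h1]
        show _ = (if X.spl (X.kd w) = true then ci w - lab (X.t.par w) else lab w) +
          (if X.spl (X.kd (X.t.par w)) = true then ci (X.t.par w) - lab (X.t.par (X.t.par w))
            else lab (X.t.par w))
        rw [if_neg hs, hp w hw, h0]
        simp
  | sp2 w =>
    have hs : X.spl (X.kd w) = true := hd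
    refine ⟨Sum.inr (Sum.inr (Sum.inl ⟨w, hs⟩)), rfl, ?_⟩
    show ci w + 1 = (if X.spl (X.kd w) = true then ci w - lab (X.t.par w) else lab w) +
        (lab (X.t.par w) + 1)
    rw [if_pos hs]
    ring
  | ct1 p =>
    refine ⟨Sum.inr (Sum.inl (Sum.inr (Sum.inl p))), rfl, ?_⟩
    show cp p = cp p - lab (pp p) + (if X.spl (X.kd (pp p)) = true then _ else lab (pp p))
    rw [hpp p]
    simp
  | ct2 p =>
    refine ⟨Sum.inr (Sum.inr (Sum.inr (Sum.inl p))), rfl, ?_⟩
    show cp p + 1 = cp p - lab (pp p) + (lab (pp p) + 1)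
    ring
  | lf =>
    refine ⟨Sum.inl (Sum.inr (Sum.inr ())), rfl, ?_⟩
    show s0 = s0 - lab lp + (if X.spl (X.kd lp) = true then _ else lab lp)
    rw [hlp]
    simp
  | inn b i =>
    have hb := hbb b
    fin_cases i
    · refine ⟨Sum.inr (Sum.inr (Sum.inr (Sum.inr (b, 0)))), rfl, ?_⟩
      show g b + 1 = (if X.spl (X.kd (bb b)) = true then _ else lab (bb b)) + (g b + 1 - lab (bb b))
      rw [hb]
      simp
    · refine ⟨Sum.inl (Sum.inr (Sum.inl (Sum.inl b))), rfl, ?_⟩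
      show s b = (g b + 1 - lab (bb b)) + (lab (bb b) + s b - g b - 1)
      ring
    · refine ⟨Sum.inl (Sum.inr (Sum.inl (Sum.inr b))), rfl, ?_⟩
      show s b + 2 * η b = (lab (bb b) + s b - g b - 1) + (g b + 1 - lab (bb b) + 2 * η b)
      ring
    · refine ⟨Sum.inr (Sum.inl (Sum.inr (Sum.inr (b, 1)))), rfl, ?_⟩
      show h b = (g b + 1 - lab (bb b) + 2 * η b) + (lab (bb b) + h b - 2 * η b - g b - 1)
      ring
    · refine ⟨Sum.inr (Sum.inl (Sum.inr (Sum.inr (b, 2)))), rfl, ?_⟩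
      show h b - η b - 1 = (lab (bb b) + h b - 2 * η b - g b - 1) + (g b - lab (bb b) + η b)
      ring
    · refine ⟨Sum.inr (Sum.inr (Sum.inr (Sum.inr (b, 1)))), rfl, ?_⟩
      show h b + 1 = (g b - lab (bb b) + η b) + (lab (bb b) + h b + 1 - η b - g b)
      ring
    · refine ⟨Sum.inr (Sum.inr (Sum.inr (Sum.inr (b, 2)))), rfl, ?_⟩
      show h b - η b - 1 + 1 = (lab (bb b) + h b + 1 - η b - g b) + (g b - 1 - lab (bb b))
      ring
    · refine ⟨Sum.inr (Sum.inl (Sum.inr (Sum.inr (b, 0)))), rfl, ?_⟩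
      show g b = (g b - 1 - lab (bb b)) + (lab (bb b) + 1)
      ring

/-- the vertices of side `false`, sorted -/
private abbrev E2F (X : KT W Kd Ψ) (lab : W → ZMod n) (D : Finset W) (lp : W) (ci : W → ZMod n)
    (Y : Finset (ZMod n)) (π β : Type) : Type :=
  {w : W // w ∉ D ∧ X.side (X.kd w) = false} ⊕
    (({w : W // X.spl (X.kd w) = true ∧ ci w - lab (X.t.par w) ∈ Y} ⊕ π) ⊕
      ((β × Fin 4) ⊕ {_x : Unit // X.side (X.kd lp) = true}))

private def e2fv (X : KT W Kd Ψ) (lab : W → ZMod n) (D : Finset W) (pp : π → W) (bb : β → W)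
    (lp : W) (s0 : ZMod n) (η g : β → ZMod n) (ci : W → ZMod n) (cp : π → ZMod n)
    (Y : Finset (ZMod n)) : E2F X lab D lp ci Y π β → ZMod n :=
  Sum.elim (fun w => lab w.1) (Sum.elim
    (Sum.elim (fun w => ci w.1 - lab (X.t.par w.1)) (fun p => cp p - lab (pp p)))
    (Sum.elim (fun p => lB (lab (bb p.1)) (η p.1) (g p.1) p.2) (fun _ => s0 - lab lp)))

private def e2fi (X : KT W Kd Ψ) (lab : W → ZMod n) (D : Finset W) (lp : W) (ci : W → ZMod n)
    (Y : Finset (ZMod n)) (π β : Type) : E2F X lab D lp ci Y π β → EV W π β :=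
  Sum.elim (fun w => .tok w.1) (Sum.elim (Sum.elim (fun w => .tok w.1) .ctr)
    (Sum.elim (fun p => .inn p.1 (![0, 2, 4, 6] p.2)) (fun _ => .lf)))

private theorem e2_exF (X : KT W Kd Ψ) (lab : W → ZMod n) (D : Finset W) (pp : π → W) (bb : β → W)
    (lp : W) (s0 : ZMod n) (s η g h : β → ZMod n) (ci : W → ZMod n) (cp : π → ZMod n)
    (Y : Finset (ZMod n)) (hD : ∀ w ∈ D, X.spl (X.kd w) = true)
    (ho : ∀ w, X.spl (X.kd w) = true → X.o w = 0)
    (hc : ∀ w, X.spl (X.kd w) = true → (w ∉ D ∧ ci w = X.col lab w) ∨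
      ci w - lab (X.t.par w) ∈ Y) (hds : ∀ k, X.dom k = true → X.side k = true)
    (u : EV W π β) (hu : u.ok X) (hs : u.sd X lp = false) :
    ∃ x : E2F X lab D lp ci Y π β, e2fi X lab D lp ci Y π β x = u ∧
      e2fv X lab D pp bb lp s0 η g ci cp Y x = e2f X lab pp bb lp s0 s η g h ci cp u := by
  cases u with
  | tok w =>
    have hs' : X.side (X.kd w) = false := hs
    by_cases hsp : X.spl (X.kd w) = true
    · rcases hc w hsp with ⟨h1, h2⟩ | h1
      · refine ⟨Sum.inl ⟨w, h1, hs'⟩, rfl, ?_⟩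
        show lab w = if X.spl (X.kd w) = true then ci w - lab (X.t.par w) else lab w
        rw [if_pos hsp, h2]
        unfold KT.col
        rw [ho w hsp]
        simp
      · refine ⟨Sum.inr (Sum.inl (Sum.inl ⟨w, hsp, h1⟩)), rfl, ?_⟩
        show ci w - lab (X.t.par w) = if X.spl (X.kd w) = true then ci w - lab (X.t.par w) else lab w
        rw [if_pos hsp]
    · refine ⟨Sum.inl ⟨w, fun h => hsp (hD w h), hs'⟩, rfl, ?_⟩
      show lab w = if X.spl (X.kd w) = true then ci w - lab (X.t.par w) else lab w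
      rw [if_neg hsp]
  | sec w => exact absurd hs (by simp [EV.sd])
  | ctr p => exact ⟨Sum.inr (Sum.inl (Sum.inr p)), rfl, rfl⟩
  | lf =>
    refine ⟨Sum.inr (Sum.inr (Sum.inr ⟨(), ?_⟩)), rfl, rfl⟩
    simpa [EV.sd] using hs
  | inn b i =>
    fin_cases i
    · exact ⟨Sum.inr (Sum.inr (Sum.inl (b, 0))), rfl, rfl⟩
    · exact absurd hs (by simp [EV.sd])
    · exact ⟨Sum.inr (Sum.inr (Sum.inl (b, 1))), rfl, rfl⟩
    · exact absurd hs (by simp [EV.sd])
    · exact ⟨Sum.inr (Sum.inr (Sum.inl (b, 2))), rfl, rfl⟩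
    · exact absurd hs (by simp [EV.sd])
    · exact ⟨Sum.inr (Sum.inr (Sum.inl (b, 3))), rfl, rfl⟩

/-- the vertices of side `true`, sorted -/
private abbrev E2T (X : KT W Kd Ψ) (lp : W) (β : Type) : Type :=
  {w : W // X.side (X.kd w) = true} ⊕ ({w : W // X.dom (X.kd w) = true} ⊕
      ((β × Fin 3) ⊕ {_x : Unit // X.side (X.kd lp) = false}))

private def e2tv (X : KT W Kd Ψ) (lab : W → ZMod n) (bb : β → W)
    (lp : W) (s0 : ZMod n) (s η g h : β → ZMod n) : E2T X lp β → ZMod n :=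
  Sum.elim (fun w => lab w.1) (Sum.elim (fun w => lab w.1 + 1)
    (Sum.elim (fun p => lA (lab (bb p.1)) (s p.1) (η p.1) (g p.1) (h p.1) p.2)
      (fun _ => s0 - lab lp)))

private def e2ti (X : KT W Kd Ψ) (lp : W) (π β : Type) : E2T X lp β → EV W π β :=
  Sum.elim (fun w => .tok w.1) (Sum.elim (fun w => .sec w.1)
    (Sum.elim (fun p => .inn p.1 (![1, 3, 5] p.2)) (fun _ => .lf)))

private theorem e2_exT (X : KT W Kd Ψ) (lab : W → ZMod n) (pp : π → W) (bb : β → W)
    (lp : W) (s0 : ZMod n) (s η g h : β → ZMod n) (ci : W → ZMod n) (cp : π → ZMod n)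
    (hsp : ∀ k, X.spl k = true → X.side k = false)
    (u : EV W π β) (hu : u.ok X) (hs : u.sd X lp = true) :
    ∃ x : E2T X lp β, e2ti X lp π β x = u ∧
      e2tv X lab bb lp s0 s η g h x = e2f X lab pp bb lp s0 s η g h ci cp u := by
  cases u with
  | tok w =>
    have hs' : X.side (X.kd w) = true := hs
    refine ⟨Sum.inl ⟨w, hs'⟩, rfl, ?_⟩
    show lab w = if X.spl (X.kd w) = true then ci w - lab (X.t.par w) else lab w
    rw [if_neg]
    intro h1
    rw [hsp _ h1] at hs'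
    exact Bool.false_ne_true hs'
  | sec w => exact ⟨Sum.inr (Sum.inl ⟨w, hu⟩), rfl, rfl⟩
  | ctr p => exact absurd hs (by simp [EV.sd])
  | lf =>
    refine ⟨Sum.inr (Sum.inr (Sum.inr ⟨(), ?_⟩)), rfl, rfl⟩
    simpa [EV.sd] using hs
  | inn b i =>
    fin_cases i
    · exact absurd hs (by simp [EV.sd])
    · exact ⟨Sum.inr (Sum.inr (Sum.inl (b, 0))), rfl, rfl⟩
    · exact absurd hs (by simp [EV.sd])
    · exact ⟨Sum.inr (Sum.inr (Sum.inl (b, 1))), rfl, rfl⟩
    · exact absurd hs (by simp [EV.sd])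
    · exact ⟨Sum.inr (Sum.inr (Sum.inl (b, 2))), rfl, rfl⟩
    · exact absurd hs (by simp [EV.sd])

private theorem e2_injE {X : KT W Kd Ψ} {lab : W → ZMod n} {D : Finset W} {pp : π → W}
    {bb : β → W} {lp : W} {QJ J1 E RA RB Y1 Y2 Y3 : Finset (ZMod n)}
    (H : Two X lab D pp bb lp QJ J1 E RA RB Y1 Y2 Y3) (s0 : ZMod n) (s η g h : β → ZMod n)
    (ci : W → ZMod n) (cp : π → ZMod n)
    (hp : ∀ w, w ≠ X.t.root → X.spl (X.kd (X.t.par w)) = false)
    (hs0 : s0 ∈ Sing X lab QJ J1)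
    (hs : ∀ i, s i ∈ Sing X lab QJ J1 ∧ s i + 2 * η i ∈ Sing X lab QJ J1 ∧ s i ≠ s0 ∧
        s i + 2 * η i ≠ s0) (hi : Function.Injective s)
    (hj : ∀ i j, s i + 2 * η i = s j + 2 * η j → i = j) (hx : ∀ i j, s i ≠ s j + 2 * η j)
    (hst : Function.Injective (e2st X η g h ci cp))
    (hJ : ∀ x, e2st X η g h ci cp x ∈ QJ ∪ J1) :
    Function.Injective (e2ev X lab s0 s η g h ci cp) := by
  have hSing : ∀ b : (β ⊕ β) ⊕ Unit,
      Sum.elim (Sum.elim s (fun b => s b + 2 * η b)) (fun _ => s0) b ∈ Sing X lab QJ J1 := by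
    rintro ((b | b) | b)
    · exact (hs b).1
    · exact (hs b).2.1
    · exact hs0
  have hsgl : ∀ a, e2ev X lab s0 s η g h ci cp (Sum.inl a) ∉ QJ ∪ J1 ∧
      e2ev X lab s0 s η g h ci cp (Sum.inl a) - 1 ∉ QJ ∪ J1 := by
    rintro (a | a)
    · exact ⟨(H.col_ord a.1 a.2.1 a.2.2).1, (H.col_ord a.1 a.2.1 a.2.2).2.1⟩
    · have h1 := hSing a
      unfold Sing at h1
      rw [mem_sdiff, mem_filter] at h1
      exact h1.1.2
  refine Function.Injective.sumElim ?_ ?_ ?_
  · refine Function.Injective.sumElim ?_ (Function.Injective.sumElim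
      (Function.Injective.sumElim hi hj hx) (fun _ _ _ => Subsingleton.elim _ _) ?_) ?_
    · intro a b hab
      have hm : ∀ a : {w : W // w ≠ X.t.root ∧ X.spl (X.kd w) = false},
          X.EdgeIn (univ \ D) a.1 := by
        intro a
        refine ⟨a.2.1, mem_sdiff.2 ⟨mem_univ _, fun h1 => ?_⟩,
          mem_sdiff.2 ⟨mem_univ _, fun h1 => ?_⟩⟩
        · exact Bool.false_ne_true (a.2.2.symm.trans (H.hD _ h1))
        · exact Bool.false_ne_true ((hp _ a.2.1).symm.trans (H.hD _ h1))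
      exact Subtype.ext (H.hE.cin a.1 b.1 (hm a) (hm b) hab)
    · rintro (a | a) _
      · exact (hs a).2.2.1
      · exact (hs a).2.2.2
    · intro a b hab
      have h1 := hSing b
      rw [← hab] at h1
      unfold Sing at h1
      rw [mem_sdiff] at h1
      exact h1.2 (mem_image.2 ⟨a.1, mem_filter.2 ⟨mem_univ _, a.2⟩, rfl⟩)
  · exact Function.Injective.sumElim hst (fun x y h1 => hst (add_right_cancel h1))
      (fun x y h1 => H.starts _ (hJ y) (h1 ▸ hJ x))
  · rintro a (b | b) hab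
    · have e1 : e2ev X lab s0 s η g h ci cp (Sum.inl a) = e2st X η g h ci cp b := hab
      refine (hsgl a).1 ?_
      rw [e1]
      exact hJ b
    · have e1 : e2ev X lab s0 s η g h ci cp (Sum.inl a) = e2st X η g h ci cp b + 1 := hab
      refine (hsgl a).2 ?_
      rw [e1]
      rw [add_sub_cancel_right]
      exact hJ b

private theorem e2_injF {X : KT W Kd Ψ} {lab : W → ZMod n} {D : Finset W} {pp : π → W}
    {bb : β → W} {lp : W} {QJ J1 E RA RB Y1 Y2 Y3 : Finset (ZMod n)}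
    (H : Two X lab D pp bb lp QJ J1 E RA RB Y1 Y2 Y3) (s0 : ZMod n) (η g : β → ZMod n)
    (ci : W → ZMod n) (cp : π → ZMod n)
    (hc : ∀ p, cp p - lab (pp p) ∈ Y1 ∪ Y2 ∪ Y3)
    (h1 : ∀ w w', X.spl (X.kd w) = true → X.spl (X.kd w') = true →
        ci w - lab (X.t.par w) = ci w' - lab (X.t.par w') → w = w')
    (h2 : ∀ p q, cp p - lab (pp p) = cp q - lab (pp q) → p = q)
    (h3 : ∀ w p, X.spl (X.kd w) = true → ci w - lab (X.t.par w) ≠ cp p - lab (pp p))
    (hB : ∀ k i, lB (lab (bb k)) (η k) (g k) i ∈ RB ∧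
        lB (lab (bb k)) (η k) (g k) i ≠ s0 - lab lp)
    (hBi : ∀ k i k' i', lB (lab (bb k)) (η k) (g k) i = lB (lab (bb k')) (η k') (g k') i' →
        k = k' ∧ i = i')
    (hl : X.side (X.kd lp) = true → s0 - lab lp ∈ RB) :
    Function.Injective (e2fv X lab D pp bb lp s0 η g ci cp (Y1 ∪ Y2 ∪ Y3)) := by
  have hYY : ∀ a : {w : W // X.spl (X.kd w) = true ∧
      ci w - lab (X.t.par w) ∈ Y1 ∪ Y2 ∪ Y3} ⊕ π,
      Sum.elim (fun w : {w : W // X.spl (X.kd w) = true ∧
        ci w - lab (X.t.par w) ∈ Y1 ∪ Y2 ∪ Y3} => ci w.1 - lab (X.t.par w.1))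
        (fun p => cp p - lab (pp p)) a ∈ Y1 ∪ Y2 ∪ Y3 := by
    rintro (a | a)
    · exact a.2.2
    · exact hc a
  have hRR : ∀ a : (β × Fin 4) ⊕ {_x : Unit // X.side (X.kd lp) = true},
      Sum.elim (fun p : β × Fin 4 => lB (lab (bb p.1)) (η p.1) (g p.1) p.2)
        (fun _ => s0 - lab lp) a ∈ RB := by
    rintro (a | a)
    · exact (hB _ _).1
    · exact hl a.2
  refine Function.Injective.sumElim ?_ (Function.Injective.sumElim (Function.Injective.sumElim
    ?_ h2 ?_) (Function.Injective.sumElim ?_ (fun _ _ _ => Subsingleton.elim _ _) ?_) ?_) ?_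
  · intro a b hab
    exact Subtype.ext (H.hE.inj a.1 (mem_sdiff.2 ⟨mem_univ _, a.2.1⟩) b.1
      (mem_sdiff.2 ⟨mem_univ _, b.2.1⟩) (a.2.2.trans b.2.2.symm) hab)
  · intro a b hab
    exact Subtype.ext (h1 a.1 b.1 a.2.1 b.2.1 hab)
  · intro a b
    exact h3 a.1 b a.2.1
  · intro a b hab
    obtain ⟨e1, e2⟩ := hBi _ _ _ _ hab
    exact Prod.ext e1 e2
  · intro a _
    exact (hB _ _).2
  · intro a b hab
    have e1 := hYY a
    rw [hab] at e1
    exact disjoint_left.1 H.YR e1 (hRR b)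
  · intro a b hab
    have e0 := H.lab_B a.1 a.2.1 a.2.2
    rw [mem_union, not_or] at e0
    rcases b with b | b
    · exact e0.1 (hab ▸ hYY b)
    · exact e0.2 (hab ▸ hRR b)

private theorem e2_injT {X : KT W Kd Ψ} {lab : W → ZMod n} {D : Finset W} {pp : π → W}
    {bb : β → W} {lp : W} {QJ J1 E RA RB Y1 Y2 Y3 : Finset (ZMod n)}
    (H : Two X lab D pp bb lp QJ J1 E RA RB Y1 Y2 Y3) (s0 : ZMod n) (s η g h : β → ZMod n)
    (hA : ∀ k i, lA (lab (bb k)) (s k) (η k) (g k) (h k) i ∈ RA ∧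
        lA (lab (bb k)) (s k) (η k) (g k) (h k) i ≠ s0 - lab lp)
    (hAi : ∀ k i k' i', lA (lab (bb k)) (s k) (η k) (g k) (h k) i =
        lA (lab (bb k')) (s k') (η k') (g k') (h k') i' → k = k' ∧ i = i')
    (hl : X.side (X.kd lp) = false → s0 - lab lp ∈ RA) :
    Function.Injective (e2tv X lab bb lp s0 s η g h) := by
  have hRR : ∀ a : (β × Fin 3) ⊕ {_x : Unit // X.side (X.kd lp) = false},
      Sum.elim (fun p : β × Fin 3 => lA (lab (bb p.1)) (s p.1) (η p.1) (g p.1) (h p.1) p.2)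
        (fun _ => s0 - lab lp) a ∈ RA := by
    rintro (a | a)
    · exact (hA _ _).1
    · exact hl a.2
  have hnD : ∀ w, X.side (X.kd w) = true → w ∉ D := by
    intro w hw hwD
    have e1 := H.spl_side _ (H.hD w hwD)
    rw [hw] at e1
    exact Bool.false_ne_true e1.symm
  have hm : ∀ w, X.side (X.kd w) = true → w ∈ univ \ D := fun w hw =>
    mem_sdiff.2 ⟨mem_univ _, hnD w hw⟩
  refine Function.Injective.sumElim ?_ (Function.Injective.sumElim ?_
    (Function.Injective.sumElim ?_ (fun _ _ _ => Subsingleton.elim _ _) ?_) ?_) ?_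
  · intro a b hab
    exact Subtype.ext (H.hE.inj a.1 (hm _ a.2) b.1 (hm _ b.2) (a.2.trans b.2.symm) hab)
  · intro a b hab
    have ha := H.dom_side _ a.2
    have hb := H.dom_side _ b.2
    exact Subtype.ext (H.hE.inj a.1 (hm _ ha) b.1 (hm _ hb) (ha.trans hb.symm)
      (add_right_cancel hab))
  · intro a b hab
    obtain ⟨e1, e2⟩ := hAi _ _ _ _ hab
    exact Prod.ext e1 e2
  · intro a _
    exact (hA _ _).2
  · intro a b hab
    have ha := H.dom_side _ a.2
    exact (H.lab_A a.1 (hnD _ ha) ha).2 a.2 (hab ▸ hRR b)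
  · intro a b hab
    rcases b with b | b
    · have hb := H.dom_side _ b.2
      exact H.hE.dmn b.1 (hm _ hb) a.1 (hm _ a.2) (hb.trans a.2.symm) b.2 hab
    · exact (H.lab_A a.1 (hnD _ a.2) a.2).1 (hab ▸ hRR b)

theorem end_two {X : KT W Kd Ψ} {lab : W → ZMod n} {D : Finset W} {pp : π → W} {bb : β → W}
    {lp : W} {QJ J1 E RA RB Y1 Y2 Y3 : Finset (ZMod n)}
    (H : Two X lab D pp bb lp QJ J1 E RA RB Y1 Y2 Y3) (F B : ℕ) (hF : 3 ≤ F)
    (K4 : ∀ z s η : ZMod n, Far F η → B ≤ (J1.filter fun g => (∀ i, lB z η g i ∈ RB) ∧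
      z + s - g - 1 ∈ RA).card)
    (K5 : ∀ y η : ZMod n, Far F η → B ≤ (J1.filter fun h => h - η - 1 ∈ J1 ∧ h + y ∈ RA ∧
      h + y + η + 2 ∈ RA).card)
    (K6 : ∀ x : ZMod n, ∀ q < 2, 4 * F + 1 ≤ (E.filter fun s => s.val % 2 = q ∧ s - x ∈ RB).card ∧
      4 * F + 1 ≤ (E.filter fun s => s.val % 2 = q ∧ s - x ∈ RA).card)
    (num : 30 * Fintype.card β + 20 ≤ B)
    (A : ℕ) (r θ : ℝ) (hr0 : 0 ≤ r) (hθ : 0 ≤ θ)
    (h1 : ∀ x, A ≤ (univ.filter fun w => w ∉ D ∧ X.spl (X.kd w) = true ∧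
      X.col lab w - x ∈ Y1).card)
    (h3 : ∀ s, A ≤ (univ.filter fun w => w ∉ D ∧ X.spl (X.kd w) = true ∧
      s - lab (X.t.par w) ∈ Y3).card)
    (hr : r * n ≤ (Y2.card : ℝ)) (haut : Aut θ Y2)
    (h4 : 6 * (D.card + Fintype.card π) ≤ A)
    (h5 : ((D.card : ℝ) + Fintype.card π + 2) * n < (A / 2 : ℝ) ^ 2 * r - Real.sqrt θ * (n : ℝ) ^ 2) :
    ∃ f : EV W π β → ZMod n,
      (∀ u v : EV W π β, u.ok X → v.ok X → u.sd X lp = v.sd X lp → f u = f v → u = v) ∧
      (∀ d e : EE W π β, d.ok X → e.ok X →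
        f (d.ends X pp bb lp).1 + f (d.ends X pp bb lp).2 =
          f (e.ends X pp bb lp).1 + f (e.ends X pp bb lp).2 → d = e) := by
  classical
  obtain ⟨s0, s, η, g, h, ⟨a1, a2, a3⟩, b1, b2, b3, b4, j1, j2, lb1, lb2, la1, la2⟩ :=
    sing_stage H F B hF K4 K5 K6 num
  -- the starts which remain
  set L : Finset (ZMod n) := (univ : Finset (β × Fin 3)).image fun p =>
    lJ (η p.1) (g p.1) (h p.1) p.2 with hL
  have hLJ : L ⊆ J1 := by
    intro x hx
    rw [hL, mem_image] at hx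
    obtain ⟨p, _, rfl⟩ := hx
    exact j1 _ _
  have hLcard : L.card = 3 * Fintype.card β := by
    rw [hL, card_image_of_injective, card_univ, Fintype.card_prod, Fintype.card_fin, mul_comm]
    intro p q hpq
    obtain ⟨e1, e2⟩ := j2 _ _ _ _ hpq
    exact Prod.ext e1 e2
  have hCs : ((QJ ∪ J1) \ L).card =
      (univ.filter fun w => X.spl (X.kd w) = true).card + Fintype.card π := by
    have e1 := card_sdiff_add_card_eq_card (hLJ.trans (subset_union_right (s₁ := QJ)))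
    rw [card_union_of_disjoint H.QJ1, H.cardJ, hLcard] at e1
    omega
  have hso : ∀ w, X.spl (X.kd w) = true → X.o w = 0 := fun w hw => (H.spl_o w hw).1
  have hW : Fintype.card W ≤ n + 1 := by
    have := H.cardW
    omega
  obtain ⟨ci, cp, c1, c2, c3, c4, c5, c6, c7, c8, c9, c10⟩ := swap_stage X lab D H.hD H.hE
    H.spl_side hso pp hW Y1 Y2 Y3 H.Y12 H.Y13 H.Y23
    (fun w hw hs hy => H.lab_B w hw hs (mem_union_left _ hy)) ((QJ ∪ J1) \ L)
    (fun w hw hs => mem_sdiff.2 ⟨mem_union_left _ (H.col_spl w hw hs), fun h1 =>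
      disjoint_left.1 H.QJ1 (H.col_spl w hw hs) (hLJ h1)⟩) hCs A r θ hr0 hθ h1 h3 hr haut h4 h5
  have hp : ∀ w, w ≠ X.t.root → X.spl (X.kd (X.t.par w)) = false := by
    intro w hw
    by_contra h6
    have h7 := X.spl_leaf (X.t.par w) (by simpa using h6)
    have h8 : w ∈ X.t.ch (X.t.par w) := mem_filter.2 ⟨mem_univ _, hw, rfl⟩
    rw [h7] at h8
    simp at h8
  have hr' : ∀ w, X.spl (X.kd w) = true → w ≠ X.t.root := by
    rintro w hw rfl
    rw [X.spl_root] at hw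
    exact Bool.false_ne_true hw
  have hdn : ∀ w, X.dom (X.kd w) = true → X.spl (X.kd w) = false := by
    intro w hw
    by_contra h6
    have h7 := H.spl_side (X.kd w) (by simpa using h6)
    rw [H.dom_side _ hw] at h7
    exact Bool.false_ne_true h7.symm
  have hst : Function.Injective (e2st X η g h ci cp) := by
    refine Function.Injective.sumElim ?_ (Function.Injective.sumElim c4 ?_ ?_) ?_
    · intro a b hab
      exact Subtype.ext (c3 a.1 b.1 a.2 b.2 hab)
    · intro p q hpq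
      obtain ⟨e1, e2⟩ := j2 _ _ _ _ hpq
      exact Prod.ext e1 e2
    · intro p q hpq
      refine (mem_sdiff.1 (c2 p)).2 ?_
      rw [hpq, hL]
      exact mem_image.2 ⟨q, mem_univ _, rfl⟩
    · rintro a (b | b) hab
      · exact c5 a.1 b a.2 hab
      · refine (mem_sdiff.1 (c1 a.1 a.2)).2 ?_
        rw [hab, hL]
        exact mem_image.2 ⟨b, mem_univ _, rfl⟩
  have hJ : ∀ x, e2st X η g h ci cp x ∈ QJ ∪ J1 := by
    rintro (a | a | a)
    · exact (mem_sdiff.1 (c1 a.1 a.2)).1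
    · exact (mem_sdiff.1 (c2 a)).1
    · exact mem_union_right _ (j1 _ _)
  refine ⟨e2f X lab pp bb lp s0 s η g h ci cp, ?_, ?_⟩
  · intro u v hu hv hs huv
    cases hsu : u.sd X lp with
    | false =>
      rw [hsu] at hs
      obtain ⟨x, hx1, hx2⟩ := e2_exF X lab D pp bb lp s0 s η g h ci cp (Y1 ∪ Y2 ∪ Y3) H.hD hso c6
        H.dom_side u hu hsu
      obtain ⟨y, hy1, hy2⟩ := e2_exF X lab D pp bb lp s0 s η g h ci cp (Y1 ∪ Y2 ∪ Y3) H.hD hso c6
        H.dom_side v hv hs.symm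
      have hxy := e2_injF H s0 η g ci cp c7 c8 c9 c10 lb1 lb2 a2
        (hx2.trans (huv.trans hy2.symm))
      rw [← hx1, ← hy1, hxy]
    | true =>
      rw [hsu] at hs
      obtain ⟨x, hx1, hx2⟩ := e2_exT X lab pp bb lp s0 s η g h ci cp H.spl_side u hu hsu
      obtain ⟨y, hy1, hy2⟩ := e2_exT X lab pp bb lp s0 s η g h ci cp H.spl_side v hv hs.symm
      have hxy := e2_injT H s0 s η g h la1 la2 a3 (hx2.trans (huv.trans hy2.symm))
      rw [← hx1, ← hy1, hxy]
  · intro d e hd he hde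
    obtain ⟨x, hx1, hx2⟩ := e2_exE X lab pp bb lp s0 s η g h ci cp hso hp hr'
      (fun p => hdn _ (H.pp_dom p)) (fun b => hdn _ (H.bb_dom b)) H.lp_spl d hd
    obtain ⟨y, hy1, hy2⟩ := e2_exE X lab pp bb lp s0 s η g h ci cp hso hp hr'
      (fun p => hdn _ (H.pp_dom p)) (fun b => hdn _ (H.bb_dom b)) H.lp_spl e he
    have hxy := e2_injE H s0 s η g h ci cp hp a1 b1 b2 b3 b4 hst hJ
      (hx2.trans (hde.trans hy2.symm))
    rw [← hx1, ← hy1, hxy]

end Pool.Agent.Lib.MP_c5b475_co.KN
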