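import Pool.Agent.Lib.MP_c5b475_co.KN.RT1

/-!
# KN/Chn: many disjoint chains of twelve vertices with exactly one child

`dn v` = the only child of `v` if `|ch v| = 1`, else `v`. `X` = vertices `≠ root` with exactly one
child. `nu` = number of vertices with a childless child. Vertices with at least two children: either
one of them is childless (at most `nu`), or the vertex has `≥ 2` children with children; the number of
the latter is at most the number `≤ nu` of vertices with children all of whose children are childless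
(`∑ over vertices with children of (number of children with children - 1) = -1`, so
`#{≥ 2} ≤ #{0}`). So `|X| ≥ NL - 2 nu - 1`. `x ∈ X` is bad if some `dn^[i] x`, `1 ≤ i ≤ 11`, is not in `X`.
For the first such `i`, `y = dn^[i] x` is childless (then `dn^[i-1] x` has a childless child: at most
`nu` such `y`) or has at least two children (at most `2 nu`), and `x = par^[i] y`: at most `11 * 3 nu`
bad `x`. Among the good `x` take a residue class of the depth modulo 12 with at least one twelfth of
them: if `dn^[i] x = dn^[j] y` then comparing depths `i = j` (depths of `x`, `y` are congruent mod 12) and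
`x = par^[i] ... = y`. All of them are on one side (`sd` changes along edges, 12 is even).
-/

set_option autoImplicit false

namespace Pool.Agent.Lib.MP_c5b475_co.KN

open Finset

namespace RTr

variable {W : Type} [Fintype W] [DecidableEq W]

open Classical in
/-- the only child -/
noncomputable def dn (t : RTr W) (v : W) : W :=
  if h : ∃ c, t.ch v = {c} then h.choose else v

/-- A set of tops of disjoint chains. -/
structure Chains (t : RTr W) (S : Finset W) : Prop where
  nroot : ∀ x ∈ S, x ≠ t.root
  one : ∀ x ∈ S, ∀ i ≤ 11, t.ch (t.dn^[i] x) = {t.dn^[i + 1] x}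
  inj : ∀ x ∈ S, ∀ y ∈ S, ∀ i ≤ 11, ∀ j ≤ 11, t.dn^[i] x = t.dn^[j] y → x = y ∧ i = j

private theorem Chn_dn (t : RTr W) {v : W} (h : (t.ch v).card = 1) : t.ch v = {t.dn v} := by
  have h1 : ∃ c, t.ch v = {c} := card_eq_one.1 h
  unfold dn
  rw [dif_pos h1]
  exact h1.choose_spec

private theorem Chn_mem (t : RTr W) {v : W} (h : (t.ch v).card = 1) :
    t.dn v ≠ t.root ∧ t.par (t.dn v) = v := by
  have h1 : t.dn v ∈ t.ch v := by
    rw [Chn_dn t h]
    exact mem_singleton_self _
  exact t.mem_ch.1 h1

private theorem Chn_iter (t : RTr W) (x : W) (i : ℕ) (h : ∀ j < i, (t.ch (t.dn^[j] x)).card = 1) :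
    t.par^[i] (t.dn^[i] x) = x ∧ t.dep (t.dn^[i] x) = t.dep x + i := by
  induction i with
  | zero => exact ⟨rfl, rfl⟩
  | succ i ih =>
    obtain ⟨h1, h2⟩ := ih (fun j hj => h j (by omega))
    obtain ⟨h3, h4⟩ := Chn_mem t (h i (by omega))
    rw [Function.iterate_succ_apply' t.dn, Function.iterate_succ_apply t.par, h4]
    refine ⟨h1, ?_⟩
    rw [t.dep_par _ h3, h4, h2]
    omega

private theorem Chn_par (t : RTr W) (sd : W → Bool)
    (hsd : ∀ w, w ≠ t.root → sd w ≠ sd (t.par w)) :
    ∀ k : ℕ, ∀ w, t.dep w = k → (sd w = sd t.root ↔ k % 2 = 0) := by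
  intro k
  induction k with
  | zero =>
    intro w hw
    rw [t.dep_eq_zero] at hw
    subst hw
    exact ⟨fun _ => rfl, fun _ => rfl⟩
  | succ k ih =>
    intro w hw
    have hr : w ≠ t.root := by
      rintro rfl
      rw [t.dep_root] at hw
      omega
    have h1 := t.dep_par w hr
    have h2 := ih (t.par w) (by omega)
    have h3 := hsd w hr
    have h4 : sd w = sd t.root ↔ ¬ (sd (t.par w) = sd t.root) := by
      revert h3
      cases sd w <;> cases sd (t.par w) <;> cases sd t.root <;> decide
    rw [h4, h2]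
    omega

/-- number of vertices with at least two children -/
private theorem Chn_two (t : RTr W) :
    (univ.filter fun w => 2 ≤ (t.ch w).card).card ≤
      2 * (univ.filter fun w => ∃ c ∈ t.ch w, t.ch c = ∅).card := by
  classical
  set NL := univ.filter fun w => (t.ch w).Nonempty with hNL
  set NU := univ.filter fun w => ∃ c ∈ t.ch w, t.ch c = ∅ with hNU
  let a : W → ℕ := fun w => ((t.ch w).filter fun c => (t.ch c).Nonempty).card
  have h1 : ∑ w ∈ NL, a w ≤ NL.card := by
    have h2 : (NL.erase t.root).card = ∑ w ∈ NL, ((NL.erase t.root).filter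
        fun c => t.par c = w).card := by
      apply card_eq_sum_card_fiberwise
      intro x hx
      have hx1 := (mem_erase.1 hx).1
      exact mem_filter.2 ⟨mem_univ _, ⟨x, t.mem_ch.2 ⟨hx1, rfl⟩⟩⟩
    have h3 : ∑ w ∈ NL, a w = ∑ w ∈ NL, ((NL.erase t.root).filter
        fun c => t.par c = w).card := by
      apply sum_congr rfl
      intro w _
      show ((t.ch w).filter fun c => (t.ch c).Nonempty).card = _
      congr 1
      ext c
      rw [mem_filter, mem_filter, mem_erase, hNL, mem_filter, t.mem_ch]
      constructor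
      · rintro ⟨⟨h4, h5⟩, h6⟩
        exact ⟨⟨h4, mem_univ _, h6⟩, h5⟩
      · rintro ⟨⟨h4, _, h6⟩, h5⟩
        exact ⟨⟨h4, h5⟩, h6⟩
    rw [h3, ← h2]
    exact card_le_card (erase_subset _ _)
  have h2 : NL.card + (NL.filter fun w => 2 ≤ a w).card ≤
      ∑ w ∈ NL, a w + (NL.filter fun w => a w = 0).card := by
    rw [card_eq_sum_ones NL, card_filter, card_filter, ← sum_add_distrib, ← sum_add_distrib]
    apply sum_le_sum
    intro w _
    split_ifs <;> omega
  have h3 : (NL.filter fun w => a w = 0) ⊆ NU := by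
    intro w hw
    obtain ⟨h4, h5⟩ := mem_filter.1 hw
    obtain ⟨c, hc⟩ := (mem_filter.1 h4).2
    have h6 : ((t.ch w).filter fun c => (t.ch c).Nonempty) = ∅ := card_eq_zero.1 h5
    refine mem_filter.2 ⟨mem_univ _, c, hc, ?_⟩
    by_contra hne
    have h7 : c ∈ (t.ch w).filter fun c => (t.ch c).Nonempty :=
      mem_filter.2 ⟨hc, nonempty_iff_ne_empty.2 hne⟩
    rw [h6] at h7
    exact absurd h7 (notMem_empty _)
  have h4 : (univ.filter fun w => 2 ≤ (t.ch w).card) ⊆ NU ∪ (NL.filter fun w => 2 ≤ a w) := by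
    intro w hw
    have hw2 := (mem_filter.1 hw).2
    by_cases hu : ∃ c ∈ t.ch w, t.ch c = ∅
    · exact mem_union_left _ (mem_filter.2 ⟨mem_univ _, hu⟩)
    · apply mem_union_right
      refine mem_filter.2 ⟨mem_filter.2 ⟨mem_univ _, card_pos.1 (by omega)⟩, ?_⟩
      have h5 : ((t.ch w).filter fun c => (t.ch c).Nonempty) = t.ch w := by
        apply filter_true_of_mem
        intro c hc
        rw [nonempty_iff_ne_empty]
        exact fun he => hu ⟨c, hc, he⟩
      show 2 ≤ ((t.ch w).filter fun c => (t.ch c).Nonempty).card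
      rw [h5]
      exact hw2
  have h5 := card_le_card h3
  have h6 := (card_le_card h4).trans (card_union_le _ _)
  omega

theorem chains (t : RTr W) (sd : W → Bool) (hsd : ∀ w, w ≠ t.root → sd w ≠ sd (t.par w)) :
    ∃ (S : Finset W) (s : Bool), t.Chains S ∧ (∀ x ∈ S, sd x = s) ∧
      (univ.filter fun w => (t.ch w).Nonempty).card ≤
        12 * S.card + 35 * (univ.filter fun w => ∃ c ∈ t.ch w, t.ch c = ∅).card + 2 := by
  classical
  set NL := univ.filter fun w => (t.ch w).Nonempty with hNL
  set NU := univ.filter fun w => ∃ c ∈ t.ch w, t.ch c = ∅ with hNU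
  have htwo := Chn_two t
  rw [← hNU] at htwo
  set Z := univ.filter fun w => 2 ≤ (t.ch w).card with hZ
  set X := univ.filter fun v => v ≠ t.root ∧ (t.ch v).card = 1 with hX
  have hXm : ∀ v, v ∈ X ↔ v ≠ t.root ∧ (t.ch v).card = 1 := by
    intro v
    rw [hX, mem_filter]
    exact ⟨fun h => h.2, fun h => ⟨mem_univ _, h⟩⟩
  have c1 : NL.card ≤ X.card + Z.card + 1 := by
    have h1 : NL ⊆ insert t.root (X ∪ Z) := by
      intro w hw
      have h2 := card_pos.2 (mem_filter.1 hw).2
      by_cases hr : w = t.root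
      · rw [hr]
        exact mem_insert_self _ _
      · apply mem_insert_of_mem
        by_cases h3 : (t.ch w).card = 1
        · exact mem_union_left _ ((hXm w).2 ⟨hr, h3⟩)
        · exact mem_union_right _ (mem_filter.2 ⟨mem_univ _, by omega⟩)
    have h2 := card_le_card h1
    have h3 := card_insert_le t.root (X ∪ Z)
    have h4 := card_union_le X Z
    omega
  set G := X.filter fun x => ∀ i ≤ 11, t.dn^[i] x ∈ X with hG
  have hGm : ∀ x, x ∈ G ↔ x ∈ X ∧ ∀ i ≤ 11, t.dn^[i] x ∈ X := by
    intro x
    simp only [hG, mem_filter]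
  set Y1 := univ.filter fun y => y ≠ t.root ∧ t.ch y = ∅ ∧ (t.ch (t.par y)).card = 1 with hY1
  have c2 : Y1.card ≤ NU.card := by
    apply card_le_card_of_injOn t.par
    · intro y hy
      obtain ⟨_, h1, h2, h3⟩ := mem_filter.1 hy
      exact mem_coe.2 (mem_filter.2 ⟨mem_univ _, y, t.mem_ch.2 ⟨h1, rfl⟩, h2⟩)
    · intro y hy y' hy' he
      obtain ⟨_, h1, h2, h3⟩ := mem_filter.1 (mem_coe.1 hy)
      obtain ⟨_, h1', h2', h3'⟩ := mem_filter.1 (mem_coe.1 hy')
      obtain ⟨c, hc⟩ := card_eq_one.1 h3
      have h4 : y ∈ t.ch (t.par y) := t.mem_ch.2 ⟨h1, rfl⟩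
      have h5 : y' ∈ t.ch (t.par y) := t.mem_ch.2 ⟨h1', he.symm⟩
      rw [hc, mem_singleton] at h4 h5
      rw [h4, h5]
  have c3 : X.card ≤ G.card + 11 * (Y1.card + Z.card) := by
    have h1 : X ⊆ G ∪ (range 11).biUnion fun i => (Y1 ∪ Z).image (t.par^[i + 1]) := by
      intro x hx
      by_cases hg : ∀ i ≤ 11, t.dn^[i] x ∈ X
      · exact mem_union_left _ ((hGm x).2 ⟨hx, hg⟩)
      · apply mem_union_right
        have h2 : ∃ i, i ≤ 11 ∧ t.dn^[i] x ∉ X := by
          rw [not_forall] at hg
          obtain ⟨i, hi⟩ := hg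
          rw [not_forall] at hi
          obtain ⟨hi1, hi2⟩ := hi
          exact ⟨i, hi1, hi2⟩
        obtain ⟨h3, h4⟩ := Nat.find_spec h2
        have h5 : ∀ j < Nat.find h2, t.dn^[j] x ∈ X := by
          intro j hj
          have h6 := Nat.find_min h2 hj
          by_contra h7
          exact h6 ⟨by omega, h7⟩
        generalize hk : Nat.find h2 = k at h3 h4 h5
        cases k with
        | zero => exact absurd hx h4
        | succ k =>
          have h6 := Chn_iter t x (k + 1) (fun j hj => ((hXm _).1 (h5 j hj)).2)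
          have h7 := (hXm _).1 (h5 k (by omega))
          obtain ⟨h8, h9⟩ := Chn_mem t h7.2
          rw [Function.iterate_succ_apply' t.dn] at h4 h6
          refine mem_biUnion.2 ⟨k, mem_range.2 (by omega), mem_image.2
            ⟨t.dn (t.dn^[k] x), ?_, h6.1⟩⟩
          rw [hXm] at h4
          by_cases h10 : 2 ≤ (t.ch (t.dn (t.dn^[k] x))).card
          · exact mem_union_right _ (mem_filter.2 ⟨mem_univ _, h10⟩)
          · apply mem_union_left
            refine mem_filter.2 ⟨mem_univ _, h8, ?_, ?_⟩
            · rw [← card_eq_zero]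
              by_contra h11
              exact h4 ⟨h8, by omega⟩
            · rw [h9]
              exact h7.2
    have h2 := card_le_card h1
    have h3 := card_union_le G ((range 11).biUnion fun i => (Y1 ∪ Z).image (t.par^[i + 1]))
    have h4 : ((range 11).biUnion fun i => (Y1 ∪ Z).image (t.par^[i + 1])).card ≤
        (range 11).card * (Y1.card + Z.card) := by
      apply card_biUnion_le_card_mul
      intro i _
      exact card_image_le.trans (card_union_le _ _)
    rw [card_range] at h4
    omega
  have c4 : ∃ r ∈ range 12, G.card ≤ 12 * (G.filter fun x => t.dep x % 12 = r).card := by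
    obtain ⟨r, hr, hmax⟩ := exists_max_image (range 12)
      (fun r => (G.filter fun x => t.dep x % 12 = r).card) ⟨0, mem_range.2 (by omega)⟩
    refine ⟨r, hr, ?_⟩
    have h1 : G.card = ∑ r ∈ range 12, (G.filter fun x => t.dep x % 12 = r).card := by
      apply card_eq_sum_card_fiberwise
      intro x _
      exact mem_coe.2 (mem_range.2 (Nat.mod_lt _ (by omega)))
    have h2 := sum_le_card_nsmul (range 12)
      (fun r => (G.filter fun x => t.dep x % 12 = r).card) _ hmax
    rw [← h1, card_range, smul_eq_mul] at h2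
    exact h2
  obtain ⟨r, hr, hr2⟩ := c4
  set S := G.filter fun x => t.dep x % 12 = r with hS
  have hSm : ∀ x ∈ S, x ∈ X ∧ (∀ i ≤ 11, t.dn^[i] x ∈ X) ∧ t.dep x % 12 = r := by
    intro x hx
    obtain ⟨h1, h2⟩ := mem_filter.1 hx
    obtain ⟨h3, h4⟩ := (hGm x).1 h1
    exact ⟨h3, h4, h2⟩
  have hC : t.Chains S := by
    refine ⟨fun x hx => ((hXm x).1 (hSm x hx).1).1, fun x hx i hi => ?_,
      fun x hx y hy i hi j hj he => ?_⟩
    · rw [Function.iterate_succ_apply' t.dn]
      exact Chn_dn t ((hXm _).1 ((hSm x hx).2.1 i hi)).2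
    · obtain ⟨h1, h2, h3⟩ := hSm x hx
      obtain ⟨h4, h5, h6⟩ := hSm y hy
      have h7 := Chn_iter t x i (fun k hk => ((hXm _).1 (h2 k (by omega))).2)
      have h8 := Chn_iter t y j (fun k hk => ((hXm _).1 (h5 k (by omega))).2)
      have h9 : t.dep x + i = t.dep y + j := by rw [← h7.2, ← h8.2, he]
      have h10 : i = j := by omega
      subst h10
      refine ⟨?_, rfl⟩
      rw [← h7.1, ← h8.1, he]
  have hs : ∃ s : Bool, ∀ x ∈ S, sd x = s := by
    rcases S.eq_empty_or_nonempty with he | ⟨x0, hx0⟩
    · refine ⟨true, fun x hx => ?_⟩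
      rw [he] at hx
      exact absurd hx (notMem_empty _)
    · refine ⟨sd x0, fun x hx => ?_⟩
      have h1 := Chn_par t sd hsd _ x rfl
      have h2 := Chn_par t sd hsd _ x0 rfl
      have h3 := (hSm x hx).2.2
      have h4 := (hSm x0 hx0).2.2
      have h5 : t.dep x % 2 = t.dep x0 % 2 := by omega
      rw [h5, ← h2] at h1
      revert h1
      cases sd x <;> cases sd x0 <;> cases sd t.root <;> decide
  obtain ⟨s, hs⟩ := hs
  refine ⟨S, s, hC, hs, ?_⟩
  omega

end RTr

end Pool.Agent.Lib.MP_c5b475_co.KN
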