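import Pool.Agent.Lib.MP_c5b475_co.KN.CfgD
import Pool.Agent.Lib.MP_c5b475_co.KN.MkT
import Pool.Agent.Lib.MP_c5b475_co.KN.Chn

/-!
# KN/TwoT: the tree with kinds in case (II)

For a top `x` write `t_1 = x`, `t_(i+1) = dn^[i] x`. Removed vertices `Rem`: `t_4` for `x ∈ Cm ∪ C0`, `t_3`
for `x ∈ C0`, `t_3, ..., t_10` for `x ∈ Cb`, and `l`. `W = {v // v ∉ Rem}`. `q v = t_2` if `v = t_4` of a
chain of `Cm ∪ C0` or `v = t_10` of a chain of `Cb`, else `q v = v`. Parent of `w`: `q (par w)`; offset 1 iff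
`q (par w) ≠ par w`. It is in `W`: if `par w ∈ Rem` with `w ∉ Rem` then `par w` is `t_4` resp. `t_10`
(`t_3 ∈ Rem` has the only child `t_4 ∈ Rem`, and so on; `l` has no child). `mk_rtr` with `rk` = old depth.
Kinds: `L` for `t_3`, `x ∈ Cm`; `P0` for `t_2`, `x ∈ Cm`; `P1` for `t_2`, `x ∈ C0 ∪ Cb`; else `A`/`B` by `sd`.
Sides: `sd (t_i) = false` for odd `i`, `true` for even `i`.
`e v`: `tok v` on `W`; `t_4` (`x ∈ Cm ∪ C0`) and `t_10` (`x ∈ Cb`) to `sec t_2`; `t_3`, `x ∈ C0`, to `ctr x`;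
`t_(3+i)`, `i < 7`, `x ∈ Cb`, to `inn x i`; `l` to `lf`. `e' v`: `ord v` on `W`; `t_4`, `x ∈ Cm`, to
`sp2 t_3`; `t_3`, `x ∈ C0`, to `ct1 x`; `t_4`, `x ∈ C0`, to `ct2 x`; `t_(3+i)`, `i < 8`, `x ∈ Cb`, to `inn x i`;
`l` to `lf`. `lp = q (par l)` is `par l`: a removed vertex `t_4` or `t_10` has the only child `t_5`, `t_11`,
which has a child, so it is not `l`; and `par l` is not `t_2` or `t_3` for the same reason.
`K` = the vertices `t_1, t_2, t_3, t_5` (`x ∈ Cm`), `t_1, t_2, t_5` (`x ∈ C0`), `t_1, t_2, t_11`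
(`x ∈ Cb`): `t_1` and `t_5` resp. `t_11` have one neighbour outside `K`, the others none.
-/

set_option autoImplicit false

namespace Pool.Agent.Lib.MP_c5b475_co.KN

open Finset

namespace TwoTAux

variable {V : Type} [Fintype V] [DecidableEq V]

/-- vertex number `i` of the chain of `x` -/
noncomputable def cn (t : RTr V) (x : V) (i : ℕ) : V := t.dn^[i] x

/-- the hypotheses -/
structure TH (t : RTr V) (sd : V → Bool) (Cm C0 Cb : Finset V) (l : V) : Prop where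
  hsd : ∀ w, w ≠ t.root → sd w ≠ sd (t.par w)
  hm0 : Disjoint Cm C0
  hmb : Disjoint Cm Cb
  h0b : Disjoint C0 Cb
  hch : t.Chains (Cm ∪ C0 ∪ Cb)
  hs : ∀ x ∈ Cm ∪ C0 ∪ Cb, sd x = false
  hl : t.ch l = ∅
  hlr : l ≠ t.root

theorem mem_ch {W : Type} [Fintype W] [DecidableEq W] {t : RTr W} {c w : W} :
    c ∈ t.ch w ↔ c ≠ t.root ∧ t.par c = w := by
  unfold RTr.ch
  rw [Finset.mem_filter]
  exact ⟨fun h => h.2, fun h => ⟨Finset.mem_univ _, h⟩⟩

section basic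

variable {t : RTr V} {sd : V → Bool} {Cm C0 Cb : Finset V} {l : V}

theorem mS {x : V} (h : x ∈ Cm) : x ∈ Cm ∪ C0 ∪ Cb :=
  Finset.mem_union_left _ (Finset.mem_union_left _ h)

theorem zS {x : V} (h : x ∈ C0) : x ∈ Cm ∪ C0 ∪ Cb :=
  Finset.mem_union_left _ (Finset.mem_union_right _ h)

theorem bS {x : V} (h : x ∈ Cb) : x ∈ Cm ∪ C0 ∪ Cb := Finset.mem_union_right _ h

theorem cS {x : V} (h : x ∈ Cm ∪ C0 ∪ Cb) : x ∈ Cm ∨ x ∈ C0 ∨ x ∈ Cb := by
  rcases Finset.mem_union.1 h with h | h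
  · rcases Finset.mem_union.1 h with h | h
    · exact Or.inl h
    · exact Or.inr (Or.inl h)
  · exact Or.inr (Or.inr h)

theorem TH.m0 (H : TH t sd Cm C0 Cb l) {x : V} (h : x ∈ Cm) : x ∉ C0 :=
  fun h' => Finset.disjoint_left.1 H.hm0 h h'

theorem TH.mb (H : TH t sd Cm C0 Cb l) {x : V} (h : x ∈ Cm) : x ∉ Cb :=
  fun h' => Finset.disjoint_left.1 H.hmb h h'

theorem TH.zb (H : TH t sd Cm C0 Cb l) {x : V} (h : x ∈ C0) : x ∉ Cb :=
  fun h' => Finset.disjoint_left.1 H.h0b h h'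

theorem TH.zm (H : TH t sd Cm C0 Cb l) {x : V} (h : x ∈ C0) : x ∉ Cm :=
  fun h' => Finset.disjoint_left.1 H.hm0 h' h

theorem TH.bm (H : TH t sd Cm C0 Cb l) {x : V} (h : x ∈ Cb) : x ∉ Cm :=
  fun h' => Finset.disjoint_left.1 H.hmb h' h

theorem TH.bz (H : TH t sd Cm C0 Cb l) {x : V} (h : x ∈ Cb) : x ∉ C0 :=
  fun h' => Finset.disjoint_left.1 H.h0b h' h

theorem TH.ch_cn (H : TH t sd Cm C0 Cb l) {x : V} (hx : x ∈ Cm ∪ C0 ∪ Cb) {i : ℕ}
    (hi : i ≤ 11) : t.ch (cn t x i) = {cn t x (i + 1)} := H.hch.one x hx i hi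

theorem TH.mem_cn (H : TH t sd Cm C0 Cb l) {x : V} (hx : x ∈ Cm ∪ C0 ∪ Cb) {i : ℕ}
    (hi : i ≤ 11) : cn t x (i + 1) ∈ t.ch (cn t x i) := by
  rw [H.ch_cn hx hi]
  exact Finset.mem_singleton_self _

theorem TH.par_cn (H : TH t sd Cm C0 Cb l) {x : V} (hx : x ∈ Cm ∪ C0 ∪ Cb) {i : ℕ}
    (hi : i ≤ 11) : t.par (cn t x (i + 1)) = cn t x i := (mem_ch.1 (H.mem_cn hx hi)).2

theorem TH.root_cn (H : TH t sd Cm C0 Cb l) {x : V} (hx : x ∈ Cm ∪ C0 ∪ Cb) {i : ℕ}
    (hi : i ≤ 12) : cn t x i ≠ t.root := by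
  cases i with
  | zero => exact H.hch.nroot x hx
  | succ i => exact (mem_ch.1 (H.mem_cn hx (by omega))).1

theorem TH.of_par (H : TH t sd Cm C0 Cb l) {x : V} (hx : x ∈ Cm ∪ C0 ∪ Cb) {i : ℕ}
    (hi : i ≤ 11) {w : V} (hw : w ≠ t.root) (h : t.par w = cn t x i) : w = cn t x (i + 1) := by
  have h1 : w ∈ t.ch (cn t x i) := mem_ch.2 ⟨hw, h⟩
  rw [H.ch_cn hx hi] at h1
  exact Finset.mem_singleton.1 h1

theorem TH.inj (H : TH t sd Cm C0 Cb l) {x y : V} (hx : x ∈ Cm ∪ C0 ∪ Cb)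
    (hy : y ∈ Cm ∪ C0 ∪ Cb) {i j : ℕ} (hi : i ≤ 11) (hj : j ≤ 11) (h : cn t x i = cn t y j) :
    x = y ∧ i = j := H.hch.inj x hx y hy i hi j hj h

theorem TH.ne_l (H : TH t sd Cm C0 Cb l) {x : V} (hx : x ∈ Cm ∪ C0 ∪ Cb) {i : ℕ}
    (hi : i ≤ 11) : cn t x i ≠ l := by
  intro h
  have h1 := H.ch_cn hx hi
  rw [h, H.hl] at h1
  exact Finset.singleton_ne_empty _ h1.symm

theorem TH.sd_cn (H : TH t sd Cm C0 Cb l) {x : V} (hx : x ∈ Cm ∪ C0 ∪ Cb) {i : ℕ}
    (hi : i ≤ 12) : sd (cn t x i) = decide (i % 2 = 1) := by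
  induction i with
  | zero => exact (H.hs x hx).trans (by decide)
  | succ i ih =>
    have h1 := H.hsd _ (H.root_cn hx hi)
    rw [H.par_cn hx (by omega), ih (by omega)] at h1
    rcases Nat.mod_two_eq_zero_or_one i with h | h
    · have h2 : (i + 1) % 2 = 1 := by omega
      rw [h] at h1
      rw [h2]
      simpa using h1
    · have h2 : (i + 1) % 2 = 0 := by omega
      rw [h] at h1
      rw [h2]
      simpa using h1

theorem TH.dep_cn (H : TH t sd Cm C0 Cb l) {x : V} (hx : x ∈ Cm ∪ C0 ∪ Cb) {i : ℕ}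
    (hi : i ≤ 12) : t.dep (cn t x i) = t.dep x + i := by
  induction i with
  | zero => rfl
  | succ i ih =>
    rw [t.dep_par _ (H.root_cn hx hi), H.par_cn hx (by omega), ih (by omega)]
    rfl

theorem TH.par_ne_l (H : TH t sd Cm C0 Cb l) {w : V} (hw : w ≠ t.root) : t.par w ≠ l := by
  intro h
  have h1 : w ∈ t.ch l := mem_ch.2 ⟨hw, h⟩
  rw [H.hl] at h1
  exact Finset.notMem_empty _ h1

end basic

open Classical in
/-- the position of a vertex: top and number between 1 and 10 -/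
noncomputable def pos (t : RTr V) (S : Finset V) (v : V) : Option (V × ℕ) :=
  if h : ∃ p : V × ℕ, p.1 ∈ S ∧ 1 ≤ p.2 ∧ p.2 ≤ 10 ∧ cn t p.1 p.2 = v then some h.choose else none

/-- the positions of the removed vertices -/
def remp (Cm C0 Cb : Finset V) (x : V) (i : ℕ) : Prop :=
  (x ∈ Cm ∧ i = 3) ∨ (x ∈ C0 ∧ (i = 2 ∨ i = 3)) ∨ (x ∈ Cb ∧ 2 ≤ i ∧ i ≤ 9)

/-- the removed vertices -/
def rem (t : RTr V) (Cm C0 Cb : Finset V) (l v : V) : Prop :=
  v = l ∨ ∃ x i, pos t (Cm ∪ C0 ∪ Cb) v = some (x, i) ∧ remp Cm C0 Cb x i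

/-- the position of the second vertex of the domino -/
def jx (Cb : Finset V) (x : V) : ℕ := if x ∈ Cb then 9 else 3

/-- contraction -/
noncomputable def q (t : RTr V) (Cm C0 Cb : Finset V) (v : V) : V :=
  match pos t (Cm ∪ C0 ∪ Cb) v with
  | some p => if p.2 = jx Cb p.1 then cn t p.1 1 else v
  | none => v

/-- ordinary kinds -/
def AB (b : Bool) : Kd5 := if b = true then Kd5.A else Kd5.B

/-- the kinds -/
noncomputable def kdV (t : RTr V) (sd : V → Bool) (Cm C0 Cb : Finset V) (v : V) : Kd5 :=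
  match pos t (Cm ∪ C0 ∪ Cb) v with
  | some p => if p.2 = 1 then (if p.1 ∈ Cm then Kd5.P0 else Kd5.P1) else
      if p.2 = 2 ∧ p.1 ∈ Cm then Kd5.L else AB (sd v)
  | none => AB (sd v)

section pos

variable {t : RTr V} {sd : V → Bool} {Cm C0 Cb : Finset V} {l : V}

theorem pos_some {S : Finset V} {v : V} {p : V × ℕ} (h : pos t S v = some p) :
    p.1 ∈ S ∧ 1 ≤ p.2 ∧ p.2 ≤ 10 ∧ cn t p.1 p.2 = v := by
  unfold pos at h
  split_ifs at h with hh
  rw [← Option.some.inj h]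
  exact hh.choose_spec

theorem pos_none {S : Finset V} {v : V} (h : pos t S v = none) {x : V} (hx : x ∈ S) {i : ℕ}
    (h1 : 1 ≤ i) (h2 : i ≤ 10) : cn t x i ≠ v := by
  unfold pos at h
  split_ifs at h with hh
  exact fun hv => hh ⟨(x, i), hx, h1, h2, hv⟩

theorem TH.pos_cn (H : TH t sd Cm C0 Cb l) {x : V} (hx : x ∈ Cm ∪ C0 ∪ Cb) {i : ℕ}
    (h1 : 1 ≤ i) (h2 : i ≤ 10) : pos t (Cm ∪ C0 ∪ Cb) (cn t x i) = some (x, i) := by
  cases h : pos t (Cm ∪ C0 ∪ Cb) (cn t x i) with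
  | none => exact absurd rfl (pos_none h hx h1 h2)
  | some p =>
    obtain ⟨h3, h4, h5, h6⟩ := pos_some h
    obtain ⟨h7, h8⟩ := H.inj h3 hx (by omega) (by omega) h6
    rw [Option.some.injEq]
    exact Prod.ext h7 h8

theorem TH.pos_out (H : TH t sd Cm C0 Cb l) {x : V} (hx : x ∈ Cm ∪ C0 ∪ Cb) {i : ℕ}
    (h1 : i = 0 ∨ i = 11) : pos t (Cm ∪ C0 ∪ Cb) (cn t x i) = none := by
  cases h : pos t (Cm ∪ C0 ∪ Cb) (cn t x i) with
  | none => rfl
  | some p =>
    obtain ⟨h3, h4, h5, h6⟩ := pos_some h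
    obtain ⟨h7, h8⟩ := H.inj h3 hx (by omega) (by omega) h6
    omega

theorem TH.pos_top (H : TH t sd Cm C0 Cb l) {x : V} (hx : x ∈ Cm ∪ C0 ∪ Cb) :
    pos t (Cm ∪ C0 ∪ Cb) x = none := H.pos_out hx (i := 0) (Or.inl rfl)

theorem TH.pos_root (H : TH t sd Cm C0 Cb l) : pos t (Cm ∪ C0 ∪ Cb) t.root = none := by
  cases h : pos t (Cm ∪ C0 ∪ Cb) t.root with
  | none => rfl
  | some p =>
    obtain ⟨h3, h4, h5, h6⟩ := pos_some h
    exact absurd h6 (H.root_cn h3 (by omega))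

theorem TH.pos_l (H : TH t sd Cm C0 Cb l) : pos t (Cm ∪ C0 ∪ Cb) l = none := by
  cases h : pos t (Cm ∪ C0 ∪ Cb) l with
  | none => rfl
  | some p =>
    obtain ⟨h3, h4, h5, h6⟩ := pos_some h
    exact absurd h6 (H.ne_l h3 (by omega))

theorem TH.rem_cn (H : TH t sd Cm C0 Cb l) {x : V} (hx : x ∈ Cm ∪ C0 ∪ Cb) {i : ℕ}
    (h1 : 1 ≤ i) (h2 : i ≤ 10) : rem t Cm C0 Cb l (cn t x i) ↔ remp Cm C0 Cb x i := by
  unfold rem
  rw [H.pos_cn hx h1 h2]
  constructor
  · rintro (h | ⟨y, j, h3, h4⟩)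
    · exact absurd h (H.ne_l hx (by omega))
    · obtain ⟨rfl, rfl⟩ := Prod.mk.inj (Option.some.inj h3)
      exact h4
  · intro h
    exact Or.inr ⟨x, i, rfl, h⟩

theorem rem_none {v : V} (h : pos t (Cm ∪ C0 ∪ Cb) v = none) : rem t Cm C0 Cb l v ↔ v = l := by
  unfold rem
  rw [h]
  constructor
  · rintro (h | ⟨y, j, h3, h4⟩)
    · exact h
    · exact absurd h3 (Option.some_ne_none _).symm
  · intro h
    exact Or.inl h

theorem rem_l : rem t Cm C0 Cb l l := Or.inl rfl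

theorem TH.not_rem_one (H : TH t sd Cm C0 Cb l) {x : V} (hx : x ∈ Cm ∪ C0 ∪ Cb) :
    ¬ rem t Cm C0 Cb l (cn t x 1) := by
  rw [H.rem_cn hx le_rfl (by omega)]
  unfold remp
  omega

theorem TH.not_rem_out (H : TH t sd Cm C0 Cb l) {x : V} (hx : x ∈ Cm ∪ C0 ∪ Cb) {i : ℕ}
    (h1 : i = 0 ∨ i = 11) : ¬ rem t Cm C0 Cb l (cn t x i) := by
  rw [rem_none (H.pos_out hx h1)]
  exact H.ne_l hx (by omega)

theorem TH.not_rem_root (H : TH t sd Cm C0 Cb l) : ¬ rem t Cm C0 Cb l t.root := by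
  rw [rem_none H.pos_root]
  exact H.hlr.symm

theorem TH.not_rem_par_l (H : TH t sd Cm C0 Cb l) : ¬ rem t Cm C0 Cb l (t.par l) := by
  rintro (h | ⟨x, i, h1, h2⟩)
  · exact H.par_ne_l H.hlr h
  · obtain ⟨h3, h4, h5, h6⟩ := pos_some h1
    exact H.ne_l h3 (i := i + 1) (by simp only at h5; omega)
      (H.of_par h3 (by simp only at h5; omega) H.hlr h6.symm).symm

theorem TH.pos_par_l (H : TH t sd Cm C0 Cb l) : pos t (Cm ∪ C0 ∪ Cb) (t.par l) = none := by
  cases h : pos t (Cm ∪ C0 ∪ Cb) (t.par l) with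
  | none => rfl
  | some p =>
    obtain ⟨h3, h4, h5, h6⟩ := pos_some h
    exact absurd (H.of_par h3 (by omega) H.hlr h6.symm).symm (H.ne_l h3 (by omega))

theorem rem_cases {v : V} (h : rem t Cm C0 Cb l v) : v = l ∨ (∃ x ∈ Cm, v = cn t x 3) ∨
    (∃ x ∈ C0, v = cn t x 2) ∨ (∃ x ∈ C0, v = cn t x 3) ∨
    ∃ x ∈ Cb, ∃ i : Fin 8, v = cn t x (i.val + 2) := by
  rcases h with h | ⟨x, i, h1, h2⟩
  · exact Or.inl h
  · obtain ⟨h3, h4, h5, h6⟩ := pos_some h1
    simp only at h3 h4 h5 h6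
    right
    rcases h2 with ⟨h7, rfl⟩ | ⟨h7, rfl | rfl⟩ | ⟨h7, h8, h9⟩
    · exact Or.inl ⟨x, h7, h6.symm⟩
    · exact Or.inr (Or.inl ⟨x, h7, h6.symm⟩)
    · exact Or.inr (Or.inr (Or.inl ⟨x, h7, h6.symm⟩))
    · refine Or.inr (Or.inr (Or.inr ⟨x, h7, ⟨i - 2, by omega⟩, ?_⟩))
      rw [← h6]
      congr 1
      simp only
      omega

theorem q_none {v : V} (h : pos t (Cm ∪ C0 ∪ Cb) v = none) : q t Cm C0 Cb v = v := by
  unfold q
  rw [h]

theorem TH.q_cn (H : TH t sd Cm C0 Cb l) {x : V} (hx : x ∈ Cm ∪ C0 ∪ Cb) {i : ℕ}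
    (h1 : 1 ≤ i) (h2 : i ≤ 10) :
    q t Cm C0 Cb (cn t x i) = if i = jx Cb x then cn t x 1 else cn t x i := by
  unfold q
  rw [H.pos_cn hx h1 h2]

theorem jx_ge (x : V) : 3 ≤ jx Cb x ∧ jx Cb x ≤ 9 ∧ jx Cb x % 2 = 1 := by
  unfold jx
  split_ifs <;> omega

theorem jx_b {x : V} (h : x ∈ Cb) : jx Cb x = 9 := if_pos h

theorem jx_n {x : V} (h : x ∉ Cb) : jx Cb x = 3 := if_neg h

/-- the two cases for the parent -/
theorem TH.par_cases (H : TH t sd Cm C0 Cb l) {w : V} (hw : w ≠ t.root)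
    (hr : ¬ rem t Cm C0 Cb l w) :
    (q t Cm C0 Cb (t.par w) = t.par w ∧ ¬ rem t Cm C0 Cb l (t.par w)) ∨
    ∃ x ∈ Cm ∪ C0 ∪ Cb, t.par w = cn t x (jx Cb x) ∧ w = cn t x (jx Cb x + 1) ∧
      q t Cm C0 Cb (t.par w) = cn t x 1 := by
  cases h : pos t (Cm ∪ C0 ∪ Cb) (t.par w) with
  | none =>
    left
    refine ⟨q_none h, ?_⟩
    rw [rem_none h]
    exact H.par_ne_l hw
  | some p =>
    obtain ⟨x, i⟩ := p
    obtain ⟨h3, h4, h5, h6⟩ := pos_some h
    simp only at h3 h4 h5 h6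
    have hw' := H.of_par h3 (by omega) hw h6.symm
    by_cases hi : i = jx Cb x
    · right
      refine ⟨x, h3, by rw [← hi, h6], by rw [← hi, ← hw'], ?_⟩
      rw [← h6, H.q_cn h3 h4 h5, if_pos hi]
    · left
      refine ⟨by rw [← h6, H.q_cn h3 h4 h5, if_neg hi], ?_⟩
      rw [← h6, H.rem_cn h3 h4 h5]
      intro h7
      apply hr
      have h8 : i + 1 ≤ 10 := by
        rcases h7 with ⟨_, h7⟩ | ⟨_, h7⟩ | ⟨_, _, h7⟩ <;> omega
      rw [hw', H.rem_cn h3 (by omega) h8]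
      rcases h7 with ⟨h7, h9⟩ | ⟨h7, h9⟩ | ⟨h7, h9, h10⟩
      · rw [jx_n (H.mb h7)] at hi
        exact absurd h9 hi
      · rw [jx_n (H.zb h7)] at hi
        exact Or.inr (Or.inl ⟨h7, by omega⟩)
      · rw [jx_b h7] at hi
        exact Or.inr (Or.inr ⟨h7, by omega, by omega⟩)

theorem TH.not_rem_q (H : TH t sd Cm C0 Cb l) {w : V} (hr : ¬ rem t Cm C0 Cb l w) :
    ¬ rem t Cm C0 Cb l (q t Cm C0 Cb (t.par w)) := by
  by_cases hw : w = t.root
  · rw [hw, t.par_root, q_none H.pos_root]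
    exact H.not_rem_root
  · rcases H.par_cases hw hr with ⟨h1, h2⟩ | ⟨x, hx, _, _, h1⟩
    · rw [h1]
      exact h2
    · rw [h1]
      exact H.not_rem_one hx

theorem AB_sd (b : Bool) : (AB b).sd = b := by
  cases b <;> rfl

theorem AB_ne (b : Bool) : AB b ≠ Kd5.L ∧ AB b ≠ Kd5.P0 ∧ AB b ≠ Kd5.P1 := by
  cases b <;> refine ⟨?_, ?_, ?_⟩ <;> intro h <;> cases h

theorem AB_or (b : Bool) : AB b = Kd5.A ∨ AB b = Kd5.B := by
  cases b
  · exact Or.inr rfl
  · exact Or.inl rfl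

theorem kd_none {v : V} (h : pos t (Cm ∪ C0 ∪ Cb) v = none) : kdV t sd Cm C0 Cb v = AB (sd v) := by
  unfold kdV
  rw [h]

theorem TH.kd_cn (H : TH t sd Cm C0 Cb l) {x : V} (hx : x ∈ Cm ∪ C0 ∪ Cb) {i : ℕ}
    (h1 : 1 ≤ i) (h2 : i ≤ 10) : kdV t sd Cm C0 Cb (cn t x i) =
      if i = 1 then (if x ∈ Cm then Kd5.P0 else Kd5.P1) else
        if i = 2 ∧ x ∈ Cm then Kd5.L else AB (sd (cn t x i)) := by
  unfold kdV
  rw [H.pos_cn hx h1 h2]

theorem TH.kd_sd (H : TH t sd Cm C0 Cb l) (v : V) : (kdV t sd Cm C0 Cb v).sd = sd v := by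
  cases h : pos t (Cm ∪ C0 ∪ Cb) v with
  | none => rw [kd_none h, AB_sd]
  | some p =>
    obtain ⟨x, i⟩ := p
    obtain ⟨h3, h4, h5, h6⟩ := pos_some h
    simp only at h3 h4 h5 h6
    rw [← h6, H.kd_cn h3 h4 h5]
    split_ifs with h7 h8 h9
    · rw [H.sd_cn h3 (by omega), h7]
      rfl
    · rw [H.sd_cn h3 (by omega), h7]
      rfl
    · rw [H.sd_cn h3 (by omega), h9.1]
      rfl
    · exact AB_sd _

theorem TH.kd_L (H : TH t sd Cm C0 Cb l) (v : V) :
    kdV t sd Cm C0 Cb v = Kd5.L ↔ ∃ x ∈ Cm, cn t x 2 = v := by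
  constructor
  · intro hv
    cases h : pos t (Cm ∪ C0 ∪ Cb) v with
    | none =>
      rw [kd_none h] at hv
      exact absurd hv (AB_ne _).1
    | some p =>
      obtain ⟨x, i⟩ := p
      obtain ⟨h3, h4, h5, h6⟩ := pos_some h
      simp only at h3 h4 h5 h6
      rw [← h6, H.kd_cn h3 h4 h5] at hv
      split_ifs at hv with h7 h8 h9
      · refine ⟨x, h9.2, ?_⟩
        rw [← h6, h9.1]
      · exact absurd hv (AB_ne _).1
  · rintro ⟨x, hx, rfl⟩
    rw [H.kd_cn (mS hx) (by omega) (by omega), if_neg (by omega), if_pos ⟨rfl, hx⟩]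

theorem TH.kd_P0 (H : TH t sd Cm C0 Cb l) (v : V) :
    kdV t sd Cm C0 Cb v = Kd5.P0 ↔ ∃ x ∈ Cm, cn t x 1 = v := by
  constructor
  · intro hv
    cases h : pos t (Cm ∪ C0 ∪ Cb) v with
    | none =>
      rw [kd_none h] at hv
      exact absurd hv (AB_ne _).2.1
    | some p =>
      obtain ⟨x, i⟩ := p
      obtain ⟨h3, h4, h5, h6⟩ := pos_some h
      simp only at h3 h4 h5 h6
      rw [← h6, H.kd_cn h3 h4 h5] at hv
      split_ifs at hv with h7 h8 h9
      · refine ⟨x, h8, ?_⟩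
        rw [← h6, h7]
      · exact absurd hv (AB_ne _).2.1
  · rintro ⟨x, hx, rfl⟩
    rw [H.kd_cn (mS hx) (by omega) (by omega), if_pos rfl, if_pos hx]

theorem TH.kd_P1 (H : TH t sd Cm C0 Cb l) (v : V) :
    kdV t sd Cm C0 Cb v = Kd5.P1 ↔ ∃ x ∈ C0 ∪ Cb, cn t x 1 = v := by
  constructor
  · intro hv
    cases h : pos t (Cm ∪ C0 ∪ Cb) v with
    | none =>
      rw [kd_none h] at hv
      exact absurd hv (AB_ne _).2.2
    | some p =>
      obtain ⟨x, i⟩ := p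
      obtain ⟨h3, h4, h5, h6⟩ := pos_some h
      simp only at h3 h4 h5 h6
      rw [← h6, H.kd_cn h3 h4 h5] at hv
      split_ifs at hv with h7 h8 h9
      · refine ⟨x, ?_, ?_⟩
        · rcases cS h3 with h | h | h
          · exact absurd h h8
          · exact Finset.mem_union_left _ h
          · exact Finset.mem_union_right _ h
        · rw [← h6, h7]
      · exact absurd hv (AB_ne _).2.2
  · rintro ⟨x, hx, rfl⟩
    have h1 : x ∈ Cm ∪ C0 ∪ Cb ∧ x ∉ Cm := by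
      rcases Finset.mem_union.1 hx with h | h
      · exact ⟨zS h, H.zm h⟩
      · exact ⟨bS h, H.bm h⟩
    rw [H.kd_cn h1.1 (by omega) (by omega), if_pos rfl, if_neg h1.2]

theorem TH.kd_dom (H : TH t sd Cm C0 Cb l) (v : V) :
    Kd5.dm true (kdV t sd Cm C0 Cb v) = true ↔ ∃ x ∈ Cm ∪ C0 ∪ Cb, cn t x 1 = v := by
  constructor
  · intro hv
    have h1 : kdV t sd Cm C0 Cb v = Kd5.P0 ∨ kdV t sd Cm C0 Cb v = Kd5.P1 := by
      cases hk : kdV t sd Cm C0 Cb v <;> rw [hk] at hv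
      · exact absurd hv (by decide)
      · exact absurd hv (by decide)
      · exact Or.inl rfl
      · exact Or.inr rfl
      · exact absurd hv (by decide)
    rcases h1 with h1 | h1
    · obtain ⟨x, hx, h⟩ := (H.kd_P0 v).1 h1
      exact ⟨x, mS hx, h⟩
    · obtain ⟨x, hx, h⟩ := (H.kd_P1 v).1 h1
      refine ⟨x, ?_, h⟩
      rcases Finset.mem_union.1 hx with h | h
      · exact zS h
      · exact bS h
  · rintro ⟨x, hx, rfl⟩
    rw [H.kd_cn hx (by omega) (by omega), if_pos rfl]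
    split_ifs <;> rfl

end pos

end TwoTAux

namespace TwoTAux

variable {V : Type} [Fintype V] [DecidableEq V]

section kt

variable {t : RTr V} {sd : V → Bool} {Cm C0 Cb : Finset V} {l : V}

noncomputable instance instRem (t : RTr V) (Cm C0 Cb : Finset V) (l : V) :
    DecidablePred (rem t Cm C0 Cb l) := Classical.decPred _

/-- the vertices which are kept -/
abbrev WW (t : RTr V) (Cm C0 Cb : Finset V) (l : V) : Type := {v : V // ¬ rem t Cm C0 Cb l v}

theorem TH.q_top (H : TH t sd Cm C0 Cb l) {x : V} (hx : x ∈ Cm ∪ C0 ∪ Cb) :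
    q t Cm C0 Cb x = x := q_none (H.pos_top hx)

theorem TH.q_one (H : TH t sd Cm C0 Cb l) {x : V} (hx : x ∈ Cm ∪ C0 ∪ Cb) :
    q t Cm C0 Cb (cn t x 1) = cn t x 1 := by
  have := jx_ge (Cb := Cb) x
  rw [H.q_cn hx le_rfl (by omega), if_neg (by omega)]

theorem TH.par_one (H : TH t sd Cm C0 Cb l) {x : V} (hx : x ∈ Cm ∪ C0 ∪ Cb) :
    t.par (cn t x 1) = x := H.par_cn hx (i := 0) (by omega)

/-- the children of a vertex in the new tree -/
theorem TH.kids (H : TH t sd Cm C0 Cb l) {x c : V} (hx : x ∈ Cm ∪ C0 ∪ Cb) {i : ℕ}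
    (hi : i ≤ 11) (hc : c ≠ t.root) (hr : ¬ rem t Cm C0 Cb l c)
    (h : q t Cm C0 Cb (t.par c) = cn t x i) :
    c = cn t x (i + 1) ∨ (i = 1 ∧ c = cn t x (jx Cb x + 1)) := by
  rcases H.par_cases hc hr with ⟨h1, _⟩ | ⟨y, hy, _, h2, h3⟩
  · rw [h1] at h
    exact Or.inl (H.of_par hx hi hc h)
  · rw [h3] at h
    obtain ⟨rfl, rfl⟩ := H.inj hy hx (by omega) hi h
    exact Or.inr ⟨rfl, h2⟩

theorem TH.rem_m2 (H : TH t sd Cm C0 Cb l) {x : V} (hx : x ∈ Cm) :
    ¬ rem t Cm C0 Cb l (cn t x 2) := by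
  rw [H.rem_cn (mS hx) (by omega) (by omega)]
  rintro (⟨_, h⟩ | ⟨h, _⟩ | ⟨h, _⟩)
  · omega
  · exact H.m0 hx h
  · exact H.mb hx h

theorem TH.rem_m3 (H : TH t sd Cm C0 Cb l) {x : V} (hx : x ∈ Cm) :
    rem t Cm C0 Cb l (cn t x 3) := by
  rw [H.rem_cn (mS hx) (by omega) (by omega)]
  exact Or.inl ⟨hx, rfl⟩

theorem TH.rem_z (H : TH t sd Cm C0 Cb l) {x : V} (hx : x ∈ C0) {i : ℕ} (hi : i = 2 ∨ i = 3) :
    rem t Cm C0 Cb l (cn t x i) := by
  rw [H.rem_cn (zS hx) (by omega) (by omega)]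
  exact Or.inr (Or.inl ⟨hx, hi⟩)

theorem TH.rem_b (H : TH t sd Cm C0 Cb l) {x : V} (hx : x ∈ Cb) {i : ℕ} (h1 : 2 ≤ i)
    (h2 : i ≤ 9) : rem t Cm C0 Cb l (cn t x i) := by
  rw [H.rem_cn (bS hx) (by omega) (by omega)]
  exact Or.inr (Or.inr ⟨hx, h1, h2⟩)

theorem TH.rem_three (H : TH t sd Cm C0 Cb l) {x : V} (hx : x ∈ Cm ∪ C0 ∪ Cb) :
    rem t Cm C0 Cb l (cn t x 3) := by
  rcases cS hx with h | h | h
  · exact H.rem_m3 h
  · exact H.rem_z h (Or.inr rfl)
  · exact H.rem_b h (by omega) (by omega)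

theorem sl_iff (k : Kd5) : Kd5.sl k = true ↔ k = Kd5.L := by
  cases k <;> decide

theorem kt_exists (H : TH t sd Cm C0 Cb l) :
    ∃ X : KT (WW t Cm C0 Cb l) Kd5 Ps2, X.t.root.1 = t.root ∧
      (∀ w, (X.t.par w).1 = q t Cm C0 Cb (t.par w.1)) ∧ X.side = Kd5.sd ∧
      X.dom = Kd5.dm true ∧ X.spl = Kd5.sl ∧ X.cl = Kd5.cl ∧
      (∀ w, X.kd w = kdV t sd Cm C0 Cb w.1) ∧
      ∀ w, X.o w = if q t Cm C0 Cb (t.par w.1) = t.par w.1 then 0 else 1 := by
  obtain ⟨t', h1, h2⟩ := mk_rtr (W := WW t Cm C0 Cb l) ⟨t.root, H.not_rem_root⟩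
    (fun w => ⟨q t Cm C0 Cb (t.par w.1), H.not_rem_q w.2⟩) (fun w => t.dep w.1)
    (Subtype.ext (by
      show q t Cm C0 Cb (t.par t.root) = t.root
      rw [t.par_root, q_none H.pos_root]))
    (by
      intro w hw
      have hw' : w.1 ≠ t.root := fun h => hw (Subtype.ext h)
      show t.dep (q t Cm C0 Cb (t.par w.1)) < t.dep w.1
      rcases H.par_cases hw' w.2 with ⟨h1, _⟩ | ⟨x, hx, _, h2, h3⟩
      · rw [h1, t.dep_par _ hw']
        omega
      · have h4 := jx_ge (Cb := Cb) x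
        rw [h3, h2, H.dep_cn hx (by omega), H.dep_cn hx (by omega)]
        omega)
  have hpar : ∀ w, (t'.par w).1 = q t Cm C0 Cb (t.par w.1) := fun w => by rw [h2]
  have hroot : t'.root.1 = t.root := by rw [h1]
  have hne : ∀ w, w ≠ t'.root → w.1 ≠ t.root := by
    intro w hw h
    exact hw (Subtype.ext (h.trans hroot.symm))
  refine ⟨{ t := t', side := Kd5.sd, dom := Kd5.dm true, spl := Kd5.sl, cl := Kd5.cl,
            kd := fun w => kdV t sd Cm C0 Cb w.1,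
            o := fun w => if q t Cm C0 Cb (t.par w.1) = t.par w.1 then 0 else 1,
            side_par := ?_, spl_leaf := ?_, spl_root := ?_, spl_one := ?_, o_le := ?_,
            o_dom := ?_, dom_par := ?_ }, hroot, hpar, rfl, rfl, rfl, rfl, fun _ => rfl,
            fun _ => rfl⟩
  · -- side_par
    intro w hw
    rw [H.kd_sd, H.kd_sd, hpar]
    have h3 := H.hsd w.1 (hne w hw)
    rcases H.par_cases (hne w hw) w.2 with ⟨h4, _⟩ | ⟨x, hx, h4, _, h5⟩
    · rw [h4]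
      exact h3
    · rw [h4] at h3
      rw [h5]
      have h6 := jx_ge (Cb := Cb) x
      rw [H.sd_cn hx (by omega), h6.2.2] at h3
      rw [H.sd_cn hx (by omega)]
      exact h3
  · -- spl_leaf
    intro w hw
    rw [sl_iff, H.kd_L] at hw
    obtain ⟨x, hx, hxw⟩ := hw
    rw [Finset.eq_empty_iff_forall_notMem]
    intro c hc
    obtain ⟨hc1, hc2⟩ := mem_ch.1 hc
    have h3 : q t Cm C0 Cb (t.par c.1) = cn t x 2 := by
      rw [← hpar, hc2, hxw]
    rcases H.kids (mS hx) (by omega) (hne c hc1) c.2 h3 with h4 | ⟨h4, _⟩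
    · apply c.2
      rw [h4]
      exact H.rem_m3 hx
    · omega
  · -- spl_root
    show Kd5.sl (kdV t sd Cm C0 Cb t'.root.1) = false
    rw [hroot, kd_none H.pos_root]
    cases sd t.root <;> rfl
  · -- spl_one
    intro w
    rw [Finset.card_le_one]
    intro c hc c' hc'
    obtain ⟨hc1, hc2⟩ := Finset.mem_filter.1 hc
    obtain ⟨hc1', hc2'⟩ := Finset.mem_filter.1 hc'
    rw [sl_iff, H.kd_L] at hc2 hc2'
    obtain ⟨x, hx, hxc⟩ := hc2
    obtain ⟨x', hx', hxc'⟩ := hc2'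
    have h3 : w.1 = cn t x 1 := by
      rw [← (mem_ch.1 hc1).2, hpar, ← hxc, H.par_cn (mS hx) (i := 1) (by omega),
        H.q_one (mS hx)]
    have h3' : w.1 = cn t x' 1 := by
      rw [← (mem_ch.1 hc1').2, hpar, ← hxc', H.par_cn (mS hx') (i := 1) (by omega),
        H.q_one (mS hx')]
    have h4 := (H.inj (mS hx) (mS hx') (by omega) (by omega) (h3.symm.trans h3')).1
    apply Subtype.ext
    rw [← hxc, ← hxc', h4]
  · -- o_le
    intro w
    show (if q t Cm C0 Cb (t.par w.1) = t.par w.1 then 0 else 1) ≤ 1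
    split_ifs <;> omega
  · -- o_dom
    intro w hw ho
    have ho' : (if q t Cm C0 Cb (t.par w.1) = t.par w.1 then 0 else 1) = 1 := ho
    rcases H.par_cases (hne w hw) w.2 with ⟨h4, _⟩ | ⟨x, hx, h4, _, h5⟩
    · rw [if_pos h4] at ho'
      omega
    · rw [H.kd_dom, hpar, h5]
      exact ⟨x, hx, rfl⟩
  · -- dom_par
    intro w hw hd
    rw [H.kd_dom] at hd
    obtain ⟨x, hx, hxw⟩ := hd
    rw [hpar, ← hxw, H.par_one hx, H.q_top hx, kd_none (H.pos_top hx)]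
    cases sd x <;> rfl

/-- a total version of the projection -/
noncomputable def emb (d : WW t Cm C0 Cb l) (v : V) : WW t Cm C0 Cb l :=
  if h : ¬ rem t Cm C0 Cb l v then ⟨v, h⟩ else d

theorem emb_eq (d : WW t Cm C0 Cb l) {v : V} (h : ¬ rem t Cm C0 Cb l v) : emb d v = ⟨v, h⟩ :=
  dif_pos h

/-- vertices of the full tree -/
noncomputable def eV (d : WW t Cm C0 Cb l) (v : V) :
    EV (WW t Cm C0 Cb l) {x // x ∈ C0} {x // x ∈ Cb} :=
  match pos t (Cm ∪ C0 ∪ Cb) v with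
  | none => if v = l then .lf else .tok (emb d v)
  | some p =>
    if hb : p.1 ∈ Cb then
      (if p.2 = 9 then .sec (emb d (cn t p.1 1)) else
        if h : 2 ≤ p.2 ∧ p.2 < 9 then .inn ⟨p.1, hb⟩ ⟨p.2 - 2, by omega⟩ else .tok (emb d v))
    else if h0 : p.1 ∈ C0 then
      (if p.2 = 3 then .sec (emb d (cn t p.1 1)) else
        if p.2 = 2 then .ctr ⟨p.1, h0⟩ else .tok (emb d v))
    else (if p.2 = 3 then .sec (emb d (cn t p.1 1)) else .tok (emb d v))

/-- edges of the full tree -/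
noncomputable def eE (d : WW t Cm C0 Cb l) (v : V) :
    EE (WW t Cm C0 Cb l) {x // x ∈ C0} {x // x ∈ Cb} :=
  match pos t (Cm ∪ C0 ∪ Cb) v with
  | none => if v = l then .lf else .ord (emb d v)
  | some p =>
    if hb : p.1 ∈ Cb then
      (if h : 2 ≤ p.2 ∧ p.2 < 10 then .inn ⟨p.1, hb⟩ ⟨p.2 - 2, by omega⟩ else .ord (emb d v))
    else if h0 : p.1 ∈ C0 then
      (if p.2 = 2 then .ct1 ⟨p.1, h0⟩ else
        if p.2 = 3 then .ct2 ⟨p.1, h0⟩ else .ord (emb d v))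
    else (if p.2 = 3 then .sp2 (emb d (cn t p.1 2)) else .ord (emb d v))

theorem TH.eV_l (H : TH t sd Cm C0 Cb l) (d : WW t Cm C0 Cb l) : eV d l = .lf := by
  unfold eV
  rw [H.pos_l]
  exact if_pos rfl

theorem TH.eE_l (H : TH t sd Cm C0 Cb l) (d : WW t Cm C0 Cb l) : eE d l = .lf := by
  unfold eE
  rw [H.pos_l]
  exact if_pos rfl

theorem TH.eV_tok (H : TH t sd Cm C0 Cb l) (d : WW t Cm C0 Cb l) {v : V}
    (h : ¬ rem t Cm C0 Cb l v) : eV d v = .tok ⟨v, h⟩ := by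
  have hl : v ≠ l := fun h' => h (h' ▸ rem_l)
  cases hp : pos t (Cm ∪ C0 ∪ Cb) v with
  | none =>
    unfold eV
    rw [hp]
    simp only
    rw [if_neg hl, emb_eq d h]
  | some p =>
    obtain ⟨x, i⟩ := p
    obtain ⟨h3, h4, h5, h6⟩ := pos_some hp
    simp only at h3 h4 h5 h6
    have hr : ¬ remp Cm C0 Cb x i := by
      rw [← H.rem_cn h3 h4 h5, h6]
      exact h
    unfold eV
    rw [hp]
    simp only
    unfold remp at hr
    by_cases hb : x ∈ Cb
    · have h7 : ¬ (2 ≤ i ∧ i ≤ 9) := fun h => hr (Or.inr (Or.inr ⟨hb, h⟩))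
      rw [dif_pos hb, if_neg (by omega), dif_neg (by omega), emb_eq d h]
    · by_cases h0 : x ∈ C0
      · have h7 : ¬ (i = 2 ∨ i = 3) := fun h => hr (Or.inr (Or.inl ⟨h0, h⟩))
        rw [dif_neg hb, dif_pos h0, if_neg (by omega), if_neg (by omega), emb_eq d h]
      · have hm : x ∈ Cm := by
          rcases cS h3 with h | h | h
          · exact h
          · exact absurd h h0
          · exact absurd h hb
        have h7 : ¬ (i = 3) := fun h => hr (Or.inl ⟨hm, h⟩)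
        rw [dif_neg hb, dif_neg h0, if_neg h7, emb_eq d h]

theorem TH.eE_ord (H : TH t sd Cm C0 Cb l) (d : WW t Cm C0 Cb l) {v : V}
    (h : ¬ rem t Cm C0 Cb l v) : eE d v = .ord ⟨v, h⟩ := by
  have hl : v ≠ l := fun h' => h (h' ▸ rem_l)
  cases hp : pos t (Cm ∪ C0 ∪ Cb) v with
  | none =>
    unfold eE
    rw [hp]
    simp only
    rw [if_neg hl, emb_eq d h]
  | some p =>
    obtain ⟨x, i⟩ := p
    obtain ⟨h3, h4, h5, h6⟩ := pos_some hp
    simp only at h3 h4 h5 h6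
    have hr : ¬ remp Cm C0 Cb x i := by
      rw [← H.rem_cn h3 h4 h5, h6]
      exact h
    unfold eE
    rw [hp]
    simp only
    unfold remp at hr
    by_cases hb : x ∈ Cb
    · have h7 : ¬ (2 ≤ i ∧ i ≤ 9) := fun h => hr (Or.inr (Or.inr ⟨hb, h⟩))
      rw [dif_pos hb, dif_neg (by omega), emb_eq d h]
    · by_cases h0 : x ∈ C0
      · have h7 : ¬ (i = 2 ∨ i = 3) := fun h => hr (Or.inr (Or.inl ⟨h0, h⟩))
        rw [dif_neg hb, dif_pos h0, if_neg (by omega), if_neg (by omega), emb_eq d h]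
      · have hm : x ∈ Cm := by
          rcases cS h3 with h | h | h
          · exact h
          · exact absurd h h0
          · exact absurd h hb
        have h7 : ¬ (i = 3) := fun h => hr (Or.inl ⟨hm, h⟩)
        rw [dif_neg hb, dif_neg h0, if_neg h7, emb_eq d h]

theorem TH.eV_sec (H : TH t sd Cm C0 Cb l) (d : WW t Cm C0 Cb l) {x : V}
    (hx : x ∈ Cm ∪ C0 ∪ Cb) : eV d (cn t x (jx Cb x)) = .sec ⟨cn t x 1, H.not_rem_one hx⟩ := by
  have h1 := jx_ge (Cb := Cb) x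
  unfold eV
  rw [H.pos_cn hx (by omega) (by omega)]
  simp only
  by_cases hb : x ∈ Cb
  · rw [dif_pos hb, if_pos (jx_b hb), emb_eq d (H.not_rem_one hx)]
  · by_cases h0 : x ∈ C0
    · rw [dif_neg hb, dif_pos h0, if_pos (jx_n hb), emb_eq d (H.not_rem_one hx)]
    · rw [dif_neg hb, dif_neg h0, if_pos (jx_n hb), emb_eq d (H.not_rem_one hx)]

theorem TH.eV_ctr (H : TH t sd Cm C0 Cb l) (d : WW t Cm C0 Cb l) (x : {x // x ∈ C0}) :
    eV d (cn t x.1 2) = .ctr x := by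
  unfold eV
  rw [H.pos_cn (zS x.2) (by omega) (by omega)]
  simp only
  rw [dif_neg (H.zb x.2), dif_pos x.2, if_neg (by omega), if_pos trivial]

theorem TH.eV_inn (H : TH t sd Cm C0 Cb l) (d : WW t Cm C0 Cb l) (x : {x // x ∈ Cb})
    (i : ℕ) (hi : i < 7) : eV d (cn t x.1 (i + 2)) = .inn x ⟨i, hi⟩ := by
  unfold eV
  rw [H.pos_cn (bS x.2) (by omega) (by omega)]
  simp only
  rw [dif_pos x.2, if_neg (by omega), dif_pos (by omega)]
  simp only [Nat.add_sub_cancel]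

theorem TH.eE_sp2 (H : TH t sd Cm C0 Cb l) (d : WW t Cm C0 Cb l) {x : V} (hx : x ∈ Cm) :
    eE d (cn t x 3) = .sp2 ⟨cn t x 2, H.rem_m2 hx⟩ := by
  unfold eE
  rw [H.pos_cn (mS hx) (by omega) (by omega)]
  simp only
  rw [dif_neg (H.mb hx), dif_neg (H.m0 hx), if_pos trivial, emb_eq d (H.rem_m2 hx)]

theorem TH.eE_ct1 (H : TH t sd Cm C0 Cb l) (d : WW t Cm C0 Cb l) (x : {x // x ∈ C0}) :
    eE d (cn t x.1 2) = .ct1 x := by
  unfold eE
  rw [H.pos_cn (zS x.2) (by omega) (by omega)]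
  simp only
  rw [dif_neg (H.zb x.2), dif_pos x.2, if_pos trivial]

theorem TH.eE_ct2 (H : TH t sd Cm C0 Cb l) (d : WW t Cm C0 Cb l) (x : {x // x ∈ C0}) :
    eE d (cn t x.1 3) = .ct2 x := by
  unfold eE
  rw [H.pos_cn (zS x.2) (by omega) (by omega)]
  simp only
  rw [dif_neg (H.zb x.2), dif_pos x.2, if_neg (by omega), if_pos trivial]

theorem TH.eE_inn (H : TH t sd Cm C0 Cb l) (d : WW t Cm C0 Cb l) (x : {x // x ∈ Cb})
    (i : ℕ) (hi : i < 8) : eE d (cn t x.1 (i + 2)) = .inn x ⟨i, hi⟩ := by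
  unfold eE
  rw [H.pos_cn (bS x.2) (by omega) (by omega)]
  simp only
  rw [dif_pos x.2, dif_pos (by omega)]
  simp only [Nat.add_sub_cancel]

/-- decoding of vertices -/
noncomputable def dV (t : RTr V) (Cm C0 Cb : Finset V) (l : V) :
    EV (WW t Cm C0 Cb l) {x // x ∈ C0} {x // x ∈ Cb} → V
  | .tok w => w.1
  | .sec w => match pos t (Cm ∪ C0 ∪ Cb) w.1 with
    | some p => cn t p.1 (jx Cb p.1)
    | none => w.1
  | .ctr x => cn t x.1 2
  | .inn x i => cn t x.1 (i.val + 2)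
  | .lf => l

/-- decoding of edges -/
noncomputable def dE (t : RTr V) (Cm C0 Cb : Finset V) (l : V) :
    EE (WW t Cm C0 Cb l) {x // x ∈ C0} {x // x ∈ Cb} → V
  | .ord w => w.1
  | .sp2 w => t.dn w.1
  | .ct1 x => cn t x.1 2
  | .ct2 x => cn t x.1 3
  | .inn x i => cn t x.1 (i.val + 2)
  | .lf => l

theorem TH.dV_sec (H : TH t sd Cm C0 Cb l) {x : V} (hx : x ∈ Cm ∪ C0 ∪ Cb)
    (h : ¬ rem t Cm C0 Cb l (cn t x 1)) :
    dV t Cm C0 Cb l (.sec ⟨cn t x 1, h⟩) = cn t x (jx Cb x) := by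
  show (match pos t (Cm ∪ C0 ∪ Cb) (cn t x 1) with
    | some p => cn t p.1 (jx Cb p.1)
    | none => cn t x 1) = _
  rw [H.pos_cn hx (by omega) (by omega)]

theorem TH.dV_eV (H : TH t sd Cm C0 Cb l) (d : WW t Cm C0 Cb l) (v : V) :
    dV t Cm C0 Cb l (eV d v) = v := by
  by_cases hr : rem t Cm C0 Cb l v
  · rcases rem_cases hr with rfl | ⟨x, hx, rfl⟩ | ⟨x, hx, rfl⟩ | ⟨x, hx, rfl⟩ |
      ⟨x, hx, i, rfl⟩
    · rw [H.eV_l]
      rfl
    · have h1 := H.eV_sec d (mS hx)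
      rw [jx_n (H.mb hx)] at h1
      rw [h1, H.dV_sec (mS hx), jx_n (H.mb hx)]
    · rw [H.eV_ctr d ⟨x, hx⟩]
      rfl
    · have h1 := H.eV_sec d (zS hx)
      rw [jx_n (H.zb hx)] at h1
      rw [h1, H.dV_sec (zS hx), jx_n (H.zb hx)]
    · by_cases hi : i.val < 7
      · rw [H.eV_inn d ⟨x, hx⟩ i.val hi]
        rfl
      · have hi' : i.val + 2 = 9 := by omega
        have h1 := H.eV_sec d (bS hx)
        rw [jx_b hx] at h1
        rw [hi', h1, H.dV_sec (bS hx), jx_b hx]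
  · rw [H.eV_tok d hr]
    rfl

theorem TH.dE_eE (H : TH t sd Cm C0 Cb l) (d : WW t Cm C0 Cb l) (v : V) :
    dE t Cm C0 Cb l (eE d v) = v := by
  by_cases hr : rem t Cm C0 Cb l v
  · rcases rem_cases hr with rfl | ⟨x, hx, rfl⟩ | ⟨x, hx, rfl⟩ | ⟨x, hx, rfl⟩ |
      ⟨x, hx, i, rfl⟩
    · rw [H.eE_l]
      rfl
    · rw [H.eE_sp2 d hx]
      show t.dn (t.dn^[2] x) = t.dn^[3] x
      exact (Function.iterate_succ_apply' _ _ _).symm
    · rw [H.eE_ct1 d ⟨x, hx⟩]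
      rfl
    · rw [H.eE_ct2 d ⟨x, hx⟩]
      rfl
    · rw [H.eE_inn d ⟨x, hx⟩ i.val i.2]
      rfl
  · rw [H.eE_ord d hr]
    rfl

end kt

end TwoTAux

namespace TwoTAux

variable {V : Type} [Fintype V] [DecidableEq V]

section fin

variable {t : RTr V} {sd : V → Bool} {Cm C0 Cb : Finset V} {l : V}

theorem TH.eV_cases (H : TH t sd Cm C0 Cb l) (d : WW t Cm C0 Cb l) (v : V) :
    (∃ h : ¬ rem t Cm C0 Cb l v, eV d v = .tok ⟨v, h⟩) ∨ (v = l ∧ eV d v = .lf) ∨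
    (∃ x, ∃ hx : x ∈ Cm ∪ C0 ∪ Cb, v = cn t x (jx Cb x) ∧
      eV d v = .sec ⟨cn t x 1, H.not_rem_one hx⟩) ∨
    (∃ x : {x // x ∈ C0}, v = cn t x.1 2 ∧ eV d v = .ctr x) ∨
    ∃ x : {x // x ∈ Cb}, ∃ (i : ℕ) (hi : i < 7), v = cn t x.1 (i + 2) ∧
      eV d v = .inn x ⟨i, hi⟩ := by
  by_cases hr : rem t Cm C0 Cb l v
  · right
    rcases rem_cases hr with rfl | ⟨x, hx, rfl⟩ | ⟨x, hx, rfl⟩ | ⟨x, hx, rfl⟩ |
      ⟨x, hx, i, rfl⟩
    · exact Or.inl ⟨rfl, H.eV_l d⟩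
    · have h1 := H.eV_sec d (mS hx)
      rw [jx_n (H.mb hx)] at h1
      exact Or.inr (Or.inl ⟨x, mS hx, by rw [jx_n (H.mb hx)], h1⟩)
    · exact Or.inr (Or.inr (Or.inl ⟨⟨x, hx⟩, rfl, H.eV_ctr d ⟨x, hx⟩⟩))
    · have h1 := H.eV_sec d (zS hx)
      rw [jx_n (H.zb hx)] at h1
      exact Or.inr (Or.inl ⟨x, zS hx, by rw [jx_n (H.zb hx)], h1⟩)
    · by_cases hi : i.val < 7
      · exact Or.inr (Or.inr (Or.inr ⟨⟨x, hx⟩, i.val, hi, rfl, H.eV_inn d ⟨x, hx⟩ i.val hi⟩))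
      · have hi' : i.val + 2 = 9 := by omega
        have h1 := H.eV_sec d (bS hx)
        rw [jx_b hx] at h1
        exact Or.inr (Or.inl ⟨x, bS hx, by rw [jx_b hx, hi'], by rw [hi']; exact h1⟩)
  · exact Or.inl ⟨hr, H.eV_tok d hr⟩

/-- the vertices near the chains -/
def KV (t : RTr V) (Cm C0 Cb : Finset V) (v : V) : Prop :=
  ∃ x ∈ Cm ∪ C0 ∪ Cb, ∃ i, cn t x i = v ∧
    (i = 0 ∨ i = 1 ∨ (i = 2 ∧ x ∈ Cm) ∨ i = jx Cb x + 1)

theorem card_kept (H : TH t sd Cm C0 Cb l) :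
    Fintype.card (WW t Cm C0 Cb l) + (1 + Cm.card + 2 * C0.card + 8 * Cb.card) =
      Fintype.card V := by
  set I : Finset (V × ℕ) := Cm ×ˢ {3} ∪ C0 ×ˢ {2, 3} ∪ Cb ×ˢ Finset.Icc 2 9 with hI
  have hmem : ∀ p : V × ℕ, p ∈ I ↔ remp Cm C0 Cb p.1 p.2 := by
    intro p
    simp only [hI, Finset.mem_union, Finset.mem_product, Finset.mem_singleton, Finset.mem_insert,
      Finset.mem_Icc, remp]
    tauto
  have hIS : ∀ p ∈ I, p.1 ∈ Cm ∪ C0 ∪ Cb ∧ 1 ≤ p.2 ∧ p.2 ≤ 10 := by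
    intro p hp
    rw [hmem] at hp
    rcases hp with ⟨h1, h2⟩ | ⟨h1, h2⟩ | ⟨h1, h2⟩
    · exact ⟨mS h1, by omega, by omega⟩
    · exact ⟨zS h1, by omega, by omega⟩
    · exact ⟨bS h1, by omega, by omega⟩
  have hIc : I.card = Cm.card + 2 * C0.card + 8 * Cb.card := by
    rw [hI, Finset.card_union_of_disjoint, Finset.card_union_of_disjoint,
      Finset.card_product, Finset.card_product, Finset.card_product, Nat.card_Icc,
      Finset.card_singleton, Finset.card_pair (by omega)]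
    · omega
    · rw [Finset.disjoint_left]
      intro p h1 h2
      exact H.m0 (Finset.mem_product.1 h1).1 (Finset.mem_product.1 h2).1
    · rw [Finset.disjoint_left]
      intro p h1 h2
      rcases Finset.mem_union.1 h1 with h1 | h1
      · exact H.mb (Finset.mem_product.1 h1).1 (Finset.mem_product.1 h2).1
      · exact H.zb (Finset.mem_product.1 h1).1 (Finset.mem_product.1 h2).1
  have hset : (univ.filter fun v => rem t Cm C0 Cb l v) =
      insert l (I.image fun p => cn t p.1 p.2) := by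
    ext v
    rw [Finset.mem_filter, Finset.mem_insert, Finset.mem_image]
    constructor
    · rintro ⟨_, h | ⟨x, i, h1, h2⟩⟩
      · exact Or.inl h
      · exact Or.inr ⟨(x, i), (hmem (x, i)).2 h2, (pos_some h1).2.2.2⟩
    · rintro (rfl | ⟨p, hp, rfl⟩)
      · exact ⟨Finset.mem_univ _, rem_l⟩
      · obtain ⟨h1, h2, h3⟩ := hIS p hp
        exact ⟨Finset.mem_univ _, (H.rem_cn h1 h2 h3).2 ((hmem p).1 hp)⟩
  have hcard : (univ.filter fun v => rem t Cm C0 Cb l v).card =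
      1 + Cm.card + 2 * C0.card + 8 * Cb.card := by
    rw [hset, Finset.card_insert_of_notMem, Finset.card_image_of_injOn, hIc]
    · omega
    · intro p hp p' hp' h
      obtain ⟨h1, h2, h3⟩ := hIS p hp
      obtain ⟨h1', h2', h3'⟩ := hIS p' hp'
      obtain ⟨h4, h5⟩ := H.inj h1 h1' (by omega) (by omega) h
      exact Prod.ext h4 h5
    · intro h
      obtain ⟨p, hp, h4⟩ := Finset.mem_image.1 h
      obtain ⟨h1, h2, h3⟩ := hIS p hp
      exact H.ne_l h1 (by omega) h4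
  have h1 := Finset.card_filter_add_card_filter_not (s := (univ : Finset V))
    (fun v => rem t Cm C0 Cb l v)
  rw [hcard, Finset.card_univ] at h1
  have h2 : Fintype.card (WW t Cm C0 Cb l) =
      (univ.filter fun v => ¬ rem t Cm C0 Cb l v).card := Fintype.card_subtype _
  rw [h2]
  omega

theorem card_cls (H : TH t sd Cm C0 Cb l) {T : Finset V} (hT : T ⊆ Cm ∪ C0 ∪ Cb) {i : ℕ}
    (hi : i ≤ 11) (hr : ∀ x ∈ T, ¬ rem t Cm C0 Cb l (cn t x i)) (A : Finset (WW t Cm C0 Cb l))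
    (hA : ∀ w, w ∈ A ↔ ∃ x ∈ T, cn t x i = w.1) : A.card = T.card := by
  symm
  refine Finset.card_bij (fun x hx => ⟨cn t x i, hr x hx⟩) ?_ ?_ ?_
  · intro x hx
    rw [hA]
    exact ⟨x, hx, rfl⟩
  · intro x hx y hy h
    exact (H.inj (hT hx) (hT hy) hi hi (Subtype.ext_iff.1 h)).1
  · intro w hw
    obtain ⟨x, hx, h⟩ := (hA w).1 hw
    exact ⟨x, hx, Subtype.ext h⟩

end fin

end TwoTAux

/-- The properties of the tree with kinds in case (II). -/
structure TwoTree {V : Type} [Fintype V] [DecidableEq V] (t : RTr V) (sd : V → Bool) (n : ℕ)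
    (W : Type) [Fintype W] [DecidableEq W] (X : KT W Kd5 Ps2) (π β : Type) [Fintype π] [Fintype β]
    (m : ℕ) (pp : π → W) (bb : β → W) (lp : W) (e : V → EV W π β) (e' : V → EE W π β)
    (K : Finset W) : Prop where
  std : Std true X
  cardW : Fintype.card W + m + 2 * Fintype.card π + 8 * Fintype.card β = n
  cL : (univ.filter fun w => X.kd w = Kd5.L).card = m
  cP0 : (univ.filter fun w => X.kd w = Kd5.P0).card = m
  cP1 : (univ.filter fun w => X.kd w = Kd5.P1).card = Fintype.card π + Fintype.card β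
  cT : (univ.filter fun w => (X.kd w).sd = true).card + m + Fintype.card π + Fintype.card β ≤
    (univ.filter fun v => sd v = true).card
  cF : (univ.filter fun w => (X.kd w).sd = false).card ≤ (univ.filter fun v => sd v = false).card
  pp_inj : Function.Injective pp
  bb_inj : Function.Injective bb
  pp_kd : ∀ p, X.kd (pp p) = Kd5.P1
  bb_kd : ∀ b, X.kd (bb b) = Kd5.P1
  pb : ∀ p b, pp p ≠ bb b
  lp_kd : X.kd lp = Kd5.A ∨ X.kd lp = Kd5.B
  e_inj : Function.Injective e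
  e_ok : ∀ v, (e v).ok X
  e_sd : ∀ v, (e v).sd X lp = sd v
  e'_inj : ∀ u v, u ≠ t.root → v ≠ t.root → e' u = e' v → u = v
  e'_ok : ∀ v, v ≠ t.root → (e' v).ok X
  ends : ∀ v, v ≠ t.root → (e' v).ends X pp bb lp = (e v, e (t.par v)) ∨
    (e' v).ends X pp bb lp = (e (t.par v), e v)
  K_ch : ∀ w ∈ K, (X.t.ch w).card ≤ 2
  K_nb : ∀ w ∈ K, ((X.t.nb w).filter fun v => v ∉ K).card ≤ 1
  K_kd : ∀ w, X.kd w ≠ Kd5.A → X.kd w ≠ Kd5.B → w ∈ K
  K_dom : ∀ w, X.dom (X.kd w) = true → ∀ v ∈ X.t.nb w, v ∈ K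

open TwoTAux in
theorem two_tree {V : Type} [Fintype V] [DecidableEq V] (t : RTr V) (sd : V → Bool) (n : ℕ)
    (hV : Fintype.card V = n + 1) (hsd : ∀ w, w ≠ t.root → sd w ≠ sd (t.par w))
    (Cm C0 Cb : Finset V) (hm0 : Disjoint Cm C0) (hmb : Disjoint Cm Cb) (h0b : Disjoint C0 Cb)
    (hch : t.Chains (Cm ∪ C0 ∪ Cb)) (hs : ∀ x ∈ Cm ∪ C0 ∪ Cb, sd x = false) (l : V)
    (hl : t.ch l = ∅) (hlr : l ≠ t.root) :
    ∃ (W : Type) (i1 : Fintype W) (i2 : DecidableEq W) (X : KT W Kd5 Ps2)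
      (pp : {x // x ∈ C0} → W) (bb : {x // x ∈ Cb} → W) (lp : W)
      (e : V → EV W {x // x ∈ C0} {x // x ∈ Cb}) (e' : V → EE W {x // x ∈ C0} {x // x ∈ Cb})
      (K : Finset W),
      TwoTree t sd n W X {x // x ∈ C0} {x // x ∈ Cb} Cm.card pp bb lp e e' K := by
  classical
  have H : TH t sd Cm C0 Cb l := ⟨hsd, hm0, hmb, h0b, hch, hs, hl, hlr⟩
  obtain ⟨X, hroot, hpar, hside, hdom, hspl, hcl, hkd, ho⟩ := kt_exists H
  have hne : ∀ w, w ≠ X.t.root → w.1 ≠ t.root := by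
    intro w hw h
    exact hw (Subtype.ext (h.trans hroot.symm))
  have hcS : Fintype.card {x // x ∈ C0} = C0.card := Fintype.card_coe C0
  have hbS : Fintype.card {x // x ∈ Cb} = Cb.card := Fintype.card_coe Cb
  have hKV : ∀ w : WW t Cm C0 Cb l,
      w ∈ (univ.filter fun w : WW t Cm C0 Cb l => KV t Cm C0 Cb w.1) ↔ KV t Cm C0 Cb w.1 := by
    intro w
    rw [Finset.mem_filter]
    exact ⟨fun h => h.2, fun h => ⟨Finset.mem_univ _, h⟩⟩
  have hnb1 : ∀ w v : WW t Cm C0 Cb l, ∀ x ∈ Cm ∪ C0 ∪ Cb, cn t x 1 = w.1 → v ∈ X.t.nb w →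
      KV t Cm C0 Cb v.1 := by
    intro w v x hx hw hv
    unfold RTr.nb at hv
    rcases Finset.mem_union.1 hv with hv | hv
    · obtain ⟨h1, h2⟩ := mem_ch.1 hv
      have h3 : q t Cm C0 Cb (t.par v.1) = cn t x 1 := by rw [← hpar, h2, hw]
      rcases H.kids hx (by omega) (hne v h1) v.2 h3 with h4 | ⟨_, h4⟩
      · have h5 : x ∈ Cm := by
          rcases cS hx with h | h | h
          · exact h
          · exact absurd (by rw [h4]; exact H.rem_z h (Or.inl rfl)) v.2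
          · exact absurd (by rw [h4]; exact H.rem_b h (by omega) (by omega)) v.2
        exact ⟨x, hx, 2, h4.symm, Or.inr (Or.inr (Or.inl ⟨rfl, h5⟩))⟩
      · exact ⟨x, hx, _, h4.symm, Or.inr (Or.inr (Or.inr rfl))⟩
    · split_ifs at hv with h1
      · exact absurd hv (Finset.notMem_empty _)
      · have h2 := Finset.mem_singleton.1 hv
        refine ⟨x, hx, 0, ?_, Or.inl rfl⟩
        rw [h2, hpar, ← hw, H.par_one hx, H.q_top hx]
        rfl
  have hparl : X.kd ⟨t.par l, H.not_rem_par_l⟩ = AB (sd (t.par l)) := by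
    rw [hkd]
    exact kd_none H.pos_par_l
  have hsdX : ∀ w, X.side (X.kd w) = sd w.1 := by
    intro w
    rw [hside, hkd, H.kd_sd]
  refine ⟨WW t Cm C0 Cb l, inferInstance, inferInstance, X,
    fun x => ⟨cn t x.1 1, H.not_rem_one (zS x.2)⟩, fun x => ⟨cn t x.1 1, H.not_rem_one (bS x.2)⟩,
    ⟨t.par l, H.not_rem_par_l⟩, eV ⟨t.root, H.not_rem_root⟩, eE ⟨t.root, H.not_rem_root⟩,
    univ.filter (fun w => KV t Cm C0 Cb w.1), ?_⟩
  refine
    { std := ?_, cardW := ?_, cL := ?_, cP0 := ?_, cP1 := ?_, cT := ?_, cF := ?_,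
      pp_inj := ?_, bb_inj := ?_, pp_kd := ?_, bb_kd := ?_, pb := ?_, lp_kd := ?_,
      e_inj := ?_, e_ok := ?_, e_sd := ?_, e'_inj := ?_, e'_ok := ?_, ends := ?_,
      K_ch := ?_, K_nb := ?_, K_kd := ?_, K_dom := ?_ }
  · -- std
    refine ⟨hside, hdom, hspl, hcl, ?_, ?_, ?_⟩
    · intro w hw
      rw [hkd, H.kd_L] at hw
      obtain ⟨x, hx, hxw⟩ := hw
      rw [hkd, hpar, ← hxw, H.par_cn (mS hx) (i := 1) (by omega), H.q_one (mS hx), H.kd_P0]
      exact ⟨x, hx, rfl⟩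
    · intro w hw
      rw [hkd, H.kd_L] at hw
      obtain ⟨x, hx, hxw⟩ := hw
      rw [ho, ← hxw, H.par_cn (mS hx) (i := 1) (by omega), H.q_one (mS hx), if_pos rfl]
    · rw [hkd, hroot, kd_none H.pos_root]
      exact AB_or _
  · -- cardW
    have h1 := card_kept H
    rw [hV] at h1
    rw [hcS, hbS]
    omega
  · -- cL
    refine card_cls H (fun x hx => mS hx) (i := 2) (by omega) (fun x hx => H.rem_m2 hx) _ ?_
    intro w
    rw [Finset.mem_filter, hkd, H.kd_L]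
    exact ⟨fun h => h.2, fun h => ⟨Finset.mem_univ _, h⟩⟩
  · -- cP0
    refine card_cls H (fun x hx => mS hx) (i := 1) (by omega)
      (fun x hx => H.not_rem_one (mS hx)) _ ?_
    intro w
    rw [Finset.mem_filter, hkd, H.kd_P0]
    exact ⟨fun h => h.2, fun h => ⟨Finset.mem_univ _, h⟩⟩
  · -- cP1
    have hsub : C0 ∪ Cb ⊆ Cm ∪ C0 ∪ Cb := by
      intro x hx
      rcases Finset.mem_union.1 hx with h | h
      · exact zS h
      · exact bS h
    rw [hcS, hbS, ← Finset.card_union_of_disjoint h0b]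
    refine card_cls H hsub (i := 1) (by omega) (fun x hx => H.not_rem_one (hsub hx)) _ ?_
    intro w
    rw [Finset.mem_filter, hkd, H.kd_P1]
    exact ⟨fun h => h.2, fun h => ⟨Finset.mem_univ _, h⟩⟩
  · -- cT
    rw [hcS, hbS]
    set A1 : Finset V := (univ.filter fun w : WW t Cm C0 Cb l => (X.kd w).sd = true).image
      Subtype.val with hA1
    set A2 : Finset V := (Cm ∪ C0 ∪ Cb).image fun x => cn t x 3 with hA2
    have h1 : A1.card = (univ.filter fun w : WW t Cm C0 Cb l => (X.kd w).sd = true).card :=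
      Finset.card_image_of_injective _ Subtype.val_injective
    have h2 : A2.card = Cm.card + C0.card + Cb.card := by
      rw [hA2, Finset.card_image_of_injOn, Finset.card_union_of_disjoint,
        Finset.card_union_of_disjoint hm0]
      · rw [Finset.disjoint_left]
        intro x h3 h4
        rcases Finset.mem_union.1 h3 with h3 | h3
        · exact H.mb h3 h4
        · exact H.zb h3 h4
      · intro x hx y hy h
        exact (H.inj hx hy (by omega) (by omega) h).1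
    have h3 : Disjoint A1 A2 := by
      rw [Finset.disjoint_left]
      intro v hv hv'
      obtain ⟨w, _, rfl⟩ := Finset.mem_image.1 hv
      obtain ⟨x, hx, h4⟩ := Finset.mem_image.1 hv'
      apply w.2
      rw [← h4]
      exact H.rem_three hx
    have h4 : A1 ∪ A2 ⊆ univ.filter fun v => sd v = true := by
      intro v hv
      rw [Finset.mem_filter]
      refine ⟨Finset.mem_univ _, ?_⟩
      rcases Finset.mem_union.1 hv with hv | hv
      · obtain ⟨w, hw, rfl⟩ := Finset.mem_image.1 hv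
        have h5 := (Finset.mem_filter.1 hw).2
        rw [hkd, H.kd_sd] at h5
        exact h5
      · obtain ⟨x, hx, h4⟩ := Finset.mem_image.1 hv
        rw [← h4, H.sd_cn hx (by omega)]
        rfl
    have h5 := Finset.card_le_card h4
    rw [Finset.card_union_of_disjoint h3, h1, h2] at h5
    omega
  · -- cF
    refine Finset.card_le_card_of_injOn Subtype.val ?_ Subtype.val_injective.injOn
    intro w hw
    have hw' := (Finset.mem_filter.1 (Finset.mem_coe.1 hw)).2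
    rw [hkd, H.kd_sd] at hw'
    exact Finset.mem_coe.2 (Finset.mem_filter.2 ⟨Finset.mem_univ _, hw'⟩)
  · -- pp_inj
    intro x y h
    exact Subtype.ext (H.inj (zS x.2) (zS y.2) (by omega) (by omega) (Subtype.ext_iff.1 h)).1
  · -- bb_inj
    intro x y h
    exact Subtype.ext (H.inj (bS x.2) (bS y.2) (by omega) (by omega) (Subtype.ext_iff.1 h)).1
  · -- pp_kd
    intro x
    rw [hkd, H.kd_P1]
    exact ⟨x.1, Finset.mem_union_left _ x.2, rfl⟩
  · -- bb_kd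
    intro x
    rw [hkd, H.kd_P1]
    exact ⟨x.1, Finset.mem_union_right _ x.2, rfl⟩
  · -- pb
    intro x y h
    have h1 := (H.inj (zS x.2) (bS y.2) (by omega) (by omega) (Subtype.ext_iff.1 h)).1
    exact H.zb x.2 (h1 ▸ y.2)
  · -- lp_kd
    rw [hparl]
    exact AB_or _
  · -- e_inj
    exact Function.LeftInverse.injective (g := dV t Cm C0 Cb l) (H.dV_eV _)
  · -- e_ok
    intro v
    rcases H.eV_cases ⟨t.root, H.not_rem_root⟩ v with ⟨h, h1⟩ | ⟨_, h1⟩ | ⟨x, hx, _, h1⟩ |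
      ⟨x, _, h1⟩ | ⟨x, i, hi, _, h1⟩
    · rw [h1]
      trivial
    · rw [h1]
      trivial
    · rw [h1]
      show X.dom (X.kd _) = true
      rw [hdom, hkd, H.kd_dom]
      exact ⟨x, hx, rfl⟩
    · rw [h1]
      trivial
    · rw [h1]
      trivial
  · -- e_sd
    intro v
    rcases H.eV_cases ⟨t.root, H.not_rem_root⟩ v with ⟨h, h1⟩ | ⟨h, h1⟩ | ⟨x, hx, h, h1⟩ |
      ⟨x, h, h1⟩ | ⟨x, i, hi, h, h1⟩
    · rw [h1]
      exact hsdX _
    · rw [h1, h]
      show (! X.side (X.kd _)) = sd l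
      rw [hsdX]
      have h2 := hsd l hlr
      revert h2
      cases sd l <;> cases sd (t.par l) <;> simp
    · rw [h1, h, H.sd_cn hx (by have := jx_ge (Cb := Cb) x; omega), (jx_ge x).2.2]
      rfl
    · rw [h1, h, H.sd_cn (zS x.2) (by omega)]
      rfl
    · rw [h1, h, H.sd_cn (bS x.2) (by omega), Nat.add_mod_right]
      rfl
  · -- e'_inj
    intro u v _ _ h
    exact Function.LeftInverse.injective (g := dE t Cm C0 Cb l) (H.dE_eE _) h
  · -- e'_ok
    intro v hv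
    by_cases hr : rem t Cm C0 Cb l v
    · rcases rem_cases hr with rfl | ⟨x, hx, rfl⟩ | ⟨x, hx, rfl⟩ | ⟨x, hx, rfl⟩ |
        ⟨x, hx, i, rfl⟩
      · rw [H.eE_l]
        trivial
      · rw [H.eE_sp2 _ hx]
        show X.spl (X.kd _) = true
        rw [hspl, hkd, sl_iff, H.kd_L]
        exact ⟨x, hx, rfl⟩
      · rw [H.eE_ct1 _ ⟨x, hx⟩]
        trivial
      · rw [H.eE_ct2 _ ⟨x, hx⟩]
        trivial
      · rw [H.eE_inn _ ⟨x, hx⟩ i.val i.2]
        trivial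
    · rw [H.eE_ord _ hr]
      show _ ≠ X.t.root
      intro h
      apply hv
      rw [← hroot, ← h]
  · -- ends
    intro v hv
    by_cases hr : rem t Cm C0 Cb l v
    · rcases rem_cases hr with rfl | ⟨x, hx, rfl⟩ | ⟨x, hx, rfl⟩ | ⟨x, hx, rfl⟩ |
        ⟨x, hx, i, rfl⟩
      · left
        rw [H.eE_l, H.eV_l, H.eV_tok _ H.not_rem_par_l]
        rfl
      · right
        have h1 := H.eV_sec ⟨t.root, H.not_rem_root⟩ (mS hx)
        rw [jx_n (H.mb hx)] at h1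
        rw [H.eE_sp2 _ hx, h1, H.par_cn (mS hx) (i := 2) (by omega), H.eV_tok _ (H.rem_m2 hx)]
        show (EV.tok _, EV.sec (X.t.par _)) = _
        have h2 : X.t.par ⟨cn t x 2, H.rem_m2 hx⟩ = ⟨cn t x 1, H.not_rem_one (mS hx)⟩ := by
          apply Subtype.ext
          rw [hpar]
          show q t Cm C0 Cb (t.par (cn t x 2)) = cn t x 1
          rw [H.par_cn (mS hx) (i := 1) (by omega), H.q_one (mS hx)]
        rw [h2]
      · left
        rw [H.eE_ct1 _ ⟨x, hx⟩, H.eV_ctr _ ⟨x, hx⟩, H.par_cn (zS hx) (i := 1) (by omega),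
          H.eV_tok _ (H.not_rem_one (zS hx))]
        rfl
      · right
        have h1 := H.eV_sec ⟨t.root, H.not_rem_root⟩ (zS hx)
        rw [jx_n (H.zb hx)] at h1
        rw [H.eE_ct2 _ ⟨x, hx⟩, h1, H.par_cn (zS hx) (i := 2) (by omega),
          H.eV_ctr _ ⟨x, hx⟩]
        rfl
      · right
        have hi8 := i.2
        rw [H.eE_inn _ ⟨x, hx⟩ i.val i.2, H.par_cn (bS hx) (i := i.val + 1) (by omega)]
        show ((if h : i.val = 0 then EV.tok _ else EV.inn _ ⟨i.val - 1, _⟩),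
          (if h : i.val = 7 then EV.sec _ else EV.inn _ ⟨i.val, _⟩)) = _
        refine Prod.ext ?_ ?_
        · show (if h : i.val = 0 then EV.tok _ else EV.inn _ ⟨i.val - 1, _⟩) = _
          by_cases h0 : i.val = 0
          · rw [dif_pos h0]
            have h1 : i.val + 1 = 1 := by omega
            rw [h1, H.eV_tok _ (H.not_rem_one (bS hx))]
          · rw [dif_neg h0]
            have h1 := H.eV_inn ⟨t.root, H.not_rem_root⟩ ⟨x, hx⟩ (i.val - 1) (by omega)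
            have h2 : i.val - 1 + 2 = i.val + 1 := by omega
            rw [h2] at h1
            rw [h1]
        · show (if h : i.val = 7 then EV.sec _ else EV.inn _ ⟨i.val, _⟩) = _
          by_cases h7 : i.val = 7
          · rw [dif_pos h7]
            have h1 := H.eV_sec ⟨t.root, H.not_rem_root⟩ (bS hx)
            have h2 : jx Cb x = i.val + 2 := by rw [jx_b hx]; omega
            rw [h2] at h1
            rw [h1]
          · rw [dif_neg h7, H.eV_inn _ ⟨x, hx⟩ i.val (by omega)]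
    · left
      rw [H.eE_ord _ hr, H.eV_tok _ hr]
      show (EV.tok _, if X.o ⟨v, hr⟩ = 1 then EV.sec (X.t.par ⟨v, hr⟩) else
        EV.tok (X.t.par ⟨v, hr⟩)) = _
      rcases H.par_cases hv hr with ⟨h1, h2⟩ | ⟨x, hx, h1, h2, h3⟩
      · have h4 : X.o ⟨v, hr⟩ = 0 := by
          rw [ho]
          exact if_pos h1
        have h5 : X.t.par ⟨v, hr⟩ = ⟨t.par v, h2⟩ := by
          apply Subtype.ext
          rw [hpar]
          exact h1
        rw [h4, if_neg (by omega), h5, H.eV_tok _ h2]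
      · have h6 : q t Cm C0 Cb (t.par v) ≠ t.par v := by
          rw [h3, h1]
          intro h
          have h7 := jx_ge (Cb := Cb) x
          have h8 := (H.inj hx hx (by omega) (by omega) h).2
          omega
        have h4 : X.o ⟨v, hr⟩ = 1 := by
          rw [ho]
          exact if_neg h6
        have h5 : X.t.par ⟨v, hr⟩ = ⟨cn t x 1, H.not_rem_one hx⟩ := by
          apply Subtype.ext
          rw [hpar]
          exact h3
        rw [h4, if_pos rfl, h5, h1, H.eV_sec _ hx]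
  · -- K_ch
    intro w hw
    rw [hKV] at hw
    obtain ⟨x, hx, i, hxi, hi⟩ := hw
    have hj := jx_ge (Cb := Cb) x
    have h1 : ∀ c ∈ X.t.ch w, c.1 ∈ ({cn t x (i + 1), cn t x (jx Cb x + 1)} : Finset V) := by
      intro c hc
      obtain ⟨h1, h2⟩ := mem_ch.1 hc
      have h3 : q t Cm C0 Cb (t.par c.1) = cn t x i := by rw [← hpar, h2, hxi]
      rw [Finset.mem_insert, Finset.mem_singleton]
      rcases H.kids hx (by omega) (hne c h1) c.2 h3 with h4 | ⟨_, h4⟩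
      · exact Or.inl h4
      · exact Or.inr h4
    exact (Finset.card_le_card_of_injOn Subtype.val (fun c hc => h1 c (Finset.mem_coe.1 hc))
      Subtype.val_injective.injOn).trans Finset.card_le_two
  · -- K_nb
    intro w hw
    rw [hKV] at hw
    obtain ⟨x, hx, i, hxi, hi⟩ := hw
    have hj := jx_ge (Cb := Cb) x
    have key : ∀ v ∈ X.t.nb w, ¬ KV t Cm C0 Cb v.1 →
        v.1 = if i = 0 then q t Cm C0 Cb (t.par x) else cn t x (i + 1) := by
      intro v hv hvK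
      by_cases hi1 : i = 1
      · rw [hi1] at hxi
        exact absurd (hnb1 w v x hx hxi hv) hvK
      · unfold RTr.nb at hv
        rcases Finset.mem_union.1 hv with hv | hv
        · obtain ⟨h1, h2⟩ := mem_ch.1 hv
          have h3 : q t Cm C0 Cb (t.par v.1) = cn t x i := by rw [← hpar, h2, hxi]
          rcases H.kids hx (by omega) (hne v h1) v.2 h3 with h4 | ⟨h4, _⟩
          · by_cases hi0 : i = 0
            · exfalso
              rw [hi0] at h4
              exact hvK ⟨x, hx, 1, h4.symm, Or.inr (Or.inl rfl)⟩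
            · rw [if_neg hi0]
              exact h4
          · exact absurd h4 hi1
        · split_ifs at hv with h1
          · exact absurd hv (Finset.notMem_empty _)
          · have h2 := Finset.mem_singleton.1 hv
            have h3 : v.1 = q t Cm C0 Cb (t.par (cn t x i)) := by rw [h2, hpar, hxi]
            by_cases hi0 : i = 0
            · rw [if_pos hi0, h3, hi0]
              rfl
            · exfalso
              apply hvK
              refine ⟨x, hx, 1, ?_, Or.inr (Or.inl rfl)⟩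
              rw [h3]
              rcases hi with h | h | ⟨h, _⟩ | h
              · exact absurd h hi0
              · exact absurd h hi1
              · rw [h, H.par_cn hx (i := 1) (by omega), H.q_one hx]
              · rw [h, H.par_cn hx (by omega), H.q_cn hx (by omega) (by omega), if_pos rfl]
    rw [Finset.card_le_one]
    intro v hv v' hv'
    obtain ⟨h1, h2⟩ := Finset.mem_filter.1 hv
    obtain ⟨h1', h2'⟩ := Finset.mem_filter.1 hv'
    rw [hKV] at h2 h2'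
    exact Subtype.ext ((key v h1 h2).trans (key v' h1' h2').symm)
  · -- K_kd
    intro w hA hB
    rw [hKV]
    rw [hkd] at hA hB
    cases hk : kdV t sd Cm C0 Cb w.1 with
    | A => exact absurd hk hA
    | B => exact absurd hk hB
    | P0 =>
      obtain ⟨x, hx, h⟩ := (H.kd_P0 _).1 hk
      exact ⟨x, mS hx, 1, h, Or.inr (Or.inl rfl)⟩
    | P1 =>
      obtain ⟨x, hx, h⟩ := (H.kd_P1 _).1 hk
      refine ⟨x, ?_, 1, h, Or.inr (Or.inl rfl)⟩
      rcases Finset.mem_union.1 hx with h | h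
      · exact zS h
      · exact bS h
    | L =>
      obtain ⟨x, hx, h⟩ := (H.kd_L _).1 hk
      exact ⟨x, mS hx, 2, h, Or.inr (Or.inr (Or.inl ⟨rfl, hx⟩))⟩
  · -- K_dom
    intro w hd v hv
    rw [hdom, hkd, H.kd_dom] at hd
    obtain ⟨x, hx, h⟩ := hd
    rw [hKV]
    exact hnb1 w v x hx h hv

end Pool.Agent.Lib.MP_c5b475_co.KN
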