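import Pool.Agent.Lib.MP_c5b475_co.KN.PThm
import Pool.Agent.Lib.MP_c5b475_co.KN.CfgThm
import Pool.Agent.Lib.MP_c5b475_co.KN.EndII
import Pool.Agent.Lib.MP_c5b475_co.KN.ItC
import Pool.Agent.Lib.MP_c5b475_co.KN.TwoT
import Pool.Agent.Lib.MP_c5b475_co.KN.HubMn
import Pool.Agent.Lib.MP_c5b475_co.KN.CasI

/-!
# KN/CasII: case (II), many disjoint chains

CONSTANTS: `μ = min (e/4) (g/100)`, `ρ = ρH = μ/20`, `a = μ ρ ρH/2`, `r = ρ/2`, `ρ1 = a^2 r/200`,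
`b = ρ1^2 ρ^4 ρH^2/2`, `σ = b/100`, `β = τ = ρC = ρE = ρR = σ/20`, `c = ρR ρC^2/8`, `ε = a^2 r/64`; then `κ₁`,
`h0 = ⌈2/κ₁⌉₊`, `κ₂`, `θ = min θ₀ ((a^2 r/64)^2)`, `n₀` as in `CasI`. For `n` large: `m = ⌈μ n⌉₊`,
`q = m + ⌈(ρ1 + τ) n⌉₊`, `Nb = ⌊σ n⌋₊`, `N0 = q - m - 3 Nb`.

STEPS. (1) Disjoint `Cm, C0, Cb ⊆ S` of sizes `m, N0, Nb` (`m + N0 + Nb ≤ e n`); `l` = a vertex of
maximal depth; `two_tree`. (2) `hub_deg` for `X.t` (`κ₁`), `K` disjoint from `Hub` (`κ₁ n ≥ 2`), hence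
`hub_kd` and `hub_dom` from `K_kd`, `K_dom`. (3) `Bud true`: `labs`: side `true`: the weights 2 of `P0`,
`P1` add `#P0 + #P1 = m + N0 + Nb` to the number of tokens, `cT`; `5 (β + ρR) + 4 ρ + τ ≤ g`; side
`false`: `cF`. (A hub child has kind `A`, `B` or `L`: no dominoes; a vertex of kind `L` has a parent of
kind `P0`, so it is not a hub child.) `cols`: `ncl o + ∑ nch = card W - 1 - m` and
`card W - 1 - m + 2 q = n - 2 Nb - 1` by `cardW` and `q = m + N0 + 3 Nb`; `2 Nb + 1 ≥ (β + ρC + ρE + τ) n`.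
`qle` by the choice of `q`, `ncl J = m ≥ μ n`.
`hubs`: `∑ nch ≤ card W - 1 - ncl J ≤ (1 - μ) n` and `4 ρ + 6 ρR + ρC + ρH + τ ≤ μ`. (4) `cfg_exists`, `place`, `items_count`, `A = ⌈(a/2) n⌉₊`.
(5) `Two X lab D pp bb lp (C.Q J) J1 E RA RB Y1 Y2 Y3`: `col_ord` from the colour alternatives of
`place` (`OrdCol`) and `ord_out` (`w` not special and not the root, class `o`); a hub parent has offset 0
by `o_dom`, `hub_dom`, so the colour is `lh h + lab w`. `lab_B`, `lab_A` from the label alternatives and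
`out_B`, `out_A`, `out_A1` (a domino vertex is not a hub and not a child of a hub, so its label is in
`S` or `R`). (6) `end_two` with `B = ⌊b n⌋₊` (`K4`, `K5`: cast), then `f v = f' (e v)`.
-/

set_option autoImplicit false

namespace Pool.Agent.Lib.MP_c5b475_co.KN

open Finset

/-- the tree with kinds -/
private theorem c2_tree {V : Type} [Fintype V] [DecidableEq V] (t : RTr V) (sd : V → Bool)
    (n m N0 Nb : ℕ) (hn : 1 ≤ n) (hV : Fintype.card V = n + 1)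
    (hsd : ∀ w, w ≠ t.root → sd w ≠ sd (t.par w)) (S : Finset V) (hS : t.Chains S)
    (hs : ∀ x ∈ S, sd x = false) (hc : m + N0 + Nb ≤ S.card) :
    ∃ (W : Type) (_ : Fintype W) (_ : DecidableEq W) (X : KT W Kd5 Ps2) (π β : Type)
      (_ : Fintype π) (_ : DecidableEq π) (_ : Fintype β) (_ : DecidableEq β)
      (pp : π → W) (bb : β → W) (lp : W) (e : V → EV W π β) (e' : V → EE W π β) (K : Finset W),
      TwoTree t sd n W X π β m pp bb lp e e' K ∧ Fintype.card π = N0 ∧ Fintype.card β = Nb := by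
  classical
  obtain ⟨Cm, hCm, hm⟩ := exists_subset_card_eq (show m ≤ S.card by omega)
  have h1 : (S \ Cm).card = S.card - m := by rw [card_sdiff_of_subset hCm, hm]
  obtain ⟨C0, hC0, h0⟩ := exists_subset_card_eq (show N0 ≤ (S \ Cm).card by omega)
  have h2 : ((S \ Cm) \ C0).card = (S \ Cm).card - N0 := by rw [card_sdiff_of_subset hC0, h0]
  obtain ⟨Cb, hCb, hb⟩ := exists_subset_card_eq (show Nb ≤ ((S \ Cm) \ C0).card by omega)
  have hm0 : Disjoint Cm C0 := disjoint_left.2 fun x hx hx' => (mem_sdiff.1 (hC0 hx')).2 hx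
  have hmb : Disjoint Cm Cb := disjoint_left.2 fun x hx hx' =>
    (mem_sdiff.1 (mem_sdiff.1 (hCb hx')).1).2 hx
  have h0b : Disjoint C0 Cb := disjoint_left.2 fun x hx hx' => (mem_sdiff.1 (hCb hx')).2 hx
  have hsub : Cm ∪ C0 ∪ Cb ⊆ S := by
    intro x hx
    rw [mem_union, mem_union] at hx
    rcases hx with (hx | hx) | hx
    · exact hCm hx
    · exact (mem_sdiff.1 (hC0 hx)).1
    · exact (mem_sdiff.1 (mem_sdiff.1 (hCb hx)).1).1
  have hch : t.Chains (Cm ∪ C0 ∪ Cb) := ⟨fun x hx => hS.nroot x (hsub hx),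
    fun x hx => hS.one x (hsub hx), fun x hx y hy => hS.inj x (hsub hx) y (hsub hy)⟩
  haveI : Nonempty V := ⟨t.root⟩
  obtain ⟨l, hl⟩ := Finite.exists_max t.dep
  have hlc : t.ch l = ∅ := by
    rw [eq_empty_iff_forall_notMem]
    intro c hc
    unfold RTr.ch at hc
    rw [mem_filter] at hc
    have h3 := t.dep_par c hc.2.1
    rw [hc.2.2] at h3
    have h4 := hl c
    omega
  have hlr : l ≠ t.root := by
    intro h
    have h3 : 1 < Fintype.card V := by omega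
    obtain ⟨v, hv⟩ := Fintype.exists_ne_of_one_lt_card h3 t.root
    have h4 := t.dep_par v hv
    have h5 := hl v
    rw [h, t.dep_root] at h5
    omega
  obtain ⟨W, i1, i2, X, pp, bb, lp, e, e', K, T⟩ := two_tree t sd n hV hsd Cm C0 Cb hm0 hmb h0b hch
    (fun x hx => hs x (hsub hx)) l hlc hlr
  rw [hm] at T
  exact ⟨W, i1, i2, X, {x // x ∈ C0}, {x // x ∈ Cb}, inferInstance, inferInstance, inferInstance,
    inferInstance, pp, bb, lp, e, e', K, T, by rw [Fintype.card_coe, h0],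
    by rw [Fintype.card_coe, hb]⟩

section

variable {V : Type} [Fintype V] [DecidableEq V] {t : RTr V} {sd : V → Bool} {n : ℕ} {W : Type}
  [Fintype W] [DecidableEq W] {X : KT W Kd5 Ps2} {π β : Type} [Fintype π] [Fintype β] {m : ℕ}
  {pp : π → W} {bb : β → W} {lp : W} {e : V → EV W π β} {e' : V → EE W π β} {K : Finset W}

private theorem c2_dom (T : TwoTree t sd n W X π β m pp bb lp e e' K) (w : W) :
    X.dom (X.kd w) = true ↔ X.kd w = Kd5.P0 ∨ X.kd w = Kd5.P1 := by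
  rw [T.std.dom]
  cases X.kd w <;> simp [Kd5.dm]

private theorem c2_spl (T : TwoTree t sd n W X π β m pp bb lp e e' K) (w : W) :
    X.spl (X.kd w) = true ↔ X.kd w = Kd5.L := by
  rw [T.std.spl]
  cases X.kd w <;> simp [Kd5.sl]

/-- the hubs -/
private theorem c2_hub (T : TwoTree t sd n W X π β m pp bb lp e e' K) (κ₁ : ℝ) (hκ : 0 < κ₁)
    (hn : 1 ≤ n) (hn2 : 2 ≤ κ₁ * n) (h0 : ℕ) (hh : 2 / κ₁ ≤ h0) :
    ∃ Hub : Finset W, HubOK X Hub κ₁ h0 n := by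
  have hW : Fintype.card W ≤ n + 1 := by
    have := T.cardW
    omega
  obtain ⟨Hub, a1, a2, a3, a4, a5⟩ := X.t.hub_deg n κ₁ hκ hn hW
  have hK : Disjoint K Hub := a5 K (fun w hw => by
    have h1 : ((X.t.ch w).card : ℝ) ≤ 2 := by exact_mod_cast T.K_ch w hw
    exact h1.trans hn2) T.K_nb
  refine ⟨Hub, ?_, a2, a3, a4, ?_, ?_⟩
  · have h1 : (Hub.card : ℝ) ≤ h0 := a1.trans hh
    exact_mod_cast h1
  · intro w hw
    refine ⟨fun h => disjoint_left.1 hK (T.K_kd w ?_ ?_) h, fun v hv h =>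
      disjoint_left.1 hK (T.K_dom w hw v hv) h⟩
    · intro hA
      rcases (c2_dom T w).1 hw with h1 | h1 <;> simp [h1] at hA
    · intro hA
      rcases (c2_dom T w).1 hw with h1 | h1 <;> simp [h1] at hA
  · intro h hh'
    by_contra h1
    rw [not_or] at h1
    exact disjoint_left.1 hK (T.K_kd h h1.1 h1.2) hh'

/-- the budgets -/
private theorem c2_bud (T : TwoTree t sd n W X π β m pp bb lp e e' K) {κ : ℝ} {h0 : ℕ}
    {Hub : Finset W} (hub : HubOK X Hub κ h0 n) (hn : 1 ≤ n) (γ ρ ρR ρ1 ρC ρE ρH β₀ τ μ : ℝ)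
    (q : ℕ) (hsz : ∀ s : Bool, ((univ.filter fun v => sd v = s).card : ℝ) ≤ (1 - γ) * n)
    (hm : μ * n ≤ m) (hq : q = m + Fintype.card π + 3 * Fintype.card β) (hβ : 0 ≤ β₀)
    (hR : 0 ≤ ρR) (c1 : 5 * (β₀ + ρR) + 4 * ρ + τ ≤ γ)
    (c2 : 4 * ρ + 6 * ρR + ρC + ρH + τ ≤ μ)
    (c3 : (β₀ + ρC + ρE + τ) * n ≤ 2 * Fintype.card β + 1)
    (c4 : m + (ρ1 + τ) * n ≤ (q : ℝ)) : Bud true X Hub n q ρ ρR ρ1 ρC ρE ρH β₀ τ := by
  have hn' : (0 : ℝ) < n := by exact_mod_cast (by omega : 0 < n)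
  have eJ : ncl X Hub Ps2.J = m := (nclJ T.std hub).trans T.cL
  have eS := ncl_sum X T.std.cl Hub
  rw [eJ] at eS
  have eS' : (ncl X Hub Ps2.o : ℝ) + m + (∑ h ∈ Hub, ∑ k : Kd5, (Cfg.nch X h k : ℝ)) + 1 =
      Fintype.card W := by exact_mod_cast eS
  have eW : (Fintype.card W : ℝ) + m + 2 * Fintype.card π + 8 * Fintype.card β = n := by
    exact_mod_cast T.cardW
  have eq : (q : ℝ) = m + Fintype.card π + 3 * Fintype.card β := by exact_mod_cast hq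
  have hN : (∑ h ∈ Hub, ∑ k : Kd5, (Cfg.nch X h k : ℝ) / n) =
      (∑ h ∈ Hub, ∑ k : Kd5, (Cfg.nch X h k : ℝ)) / n := by
    simp_rw [← sum_div]
  have p1 : (0 : ℝ) ≤ Fintype.card π := by positivity
  have p2 : (0 : ℝ) ≤ Fintype.card β := by positivity
  have p3 : (0 : ℝ) ≤ ncl X Hub Ps2.o := by positivity
  refine ⟨?_, ?_, ?_, ?_⟩
  · rw [hN]
    have h1 : (∑ h ∈ Hub, ∑ k : Kd5, (Cfg.nch X h k : ℝ)) / n ≤ 1 - μ := by
      rw [div_le_iff₀ hn']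
      linarith
    linarith
  · intro s
    have h1 := wd_sum T.std hub s
    have h2 : ((univ.filter fun w => (X.kd w).sd = s).card : ℝ) + (if s = true then
      ((univ.filter fun w => X.kd w = Kd5.P0).card : ℝ) +
      ((univ.filter fun w => X.kd w = Kd5.P1).card : ℝ) else 0) ≤ (1 - γ) * n := by
      refine le_trans ?_ (hsz s)
      cases s with
      | false =>
        rw [if_neg (by simp), add_zero]
        exact_mod_cast T.cF
      | true =>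
        rw [if_pos rfl, T.cP0, T.cP1]
        have h3 := T.cT
        have h4 : (univ.filter fun w => (X.kd w).sd = true).card + (m + (Fintype.card π +
          Fintype.card β)) ≤ (univ.filter fun v => sd v = true).card := by omega
        exact_mod_cast h4
    have h3 : (∑ k ∈ univ.filter (fun k : Kd5 => k.sd = s),
        Kd5.wd true k * ((nk X Hub k : ℝ) / n + β₀ + ρR)) =
        (∑ k ∈ univ.filter (fun k : Kd5 => k.sd = s), Kd5.wd true k * (nk X Hub k : ℝ)) / n +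
        (∑ k ∈ univ.filter (fun k : Kd5 => k.sd = s), Kd5.wd true k) * (β₀ + ρR) := by
      rw [sum_div, sum_mul, ← sum_add_distrib]
      exact sum_congr rfl fun k _ => by ring
    have h4 : (∑ h ∈ Hub, ∑ k ∈ univ.filter (fun k : Kd5 => k.sd = s),
        (Cfg.nch X h k : ℝ) / n) =
        (∑ h ∈ Hub, ∑ k ∈ univ.filter (fun k : Kd5 => k.sd = s), (Cfg.nch X h k : ℝ)) / n := by
      simp_rw [← sum_div]
    have h5 : (∑ k ∈ univ.filter (fun k : Kd5 => k.sd = s), Kd5.wd true k) ≤ 5 := by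
      cases s with
      | false =>
        rw [show (univ.filter (fun k : Kd5 => k.sd = false)) = {Kd5.B, Kd5.L} from by decide,
          sum_pair (by decide)]
        simp only [Kd5.wd, Kd5.dm]
        norm_num
      | true =>
        rw [show (univ.filter (fun k : Kd5 => k.sd = true)) = {Kd5.A, Kd5.P0, Kd5.P1} from
          by decide, sum_insert (by decide), sum_pair (by decide)]
        simp only [Kd5.wd, Kd5.dm]
        norm_num
    have h6 : (∑ k ∈ univ.filter (fun k : Kd5 => k.sd = s), Kd5.wd true k) * (β₀ + ρR) ≤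
        5 * (β₀ + ρR) := mul_le_mul_of_nonneg_right h5 (by linarith)
    have h7 : (∑ k ∈ univ.filter (fun k : Kd5 => k.sd = s), Kd5.wd true k * (nk X Hub k : ℝ)) / n +
        (∑ h ∈ Hub, ∑ k ∈ univ.filter (fun k : Kd5 => k.sd = s), (Cfg.nch X h k : ℝ)) / n ≤
        1 - γ := by
      rw [← add_div, div_le_iff₀ hn']
      exact h1.trans h2
    rw [h3, h4]
    linarith
  · rw [hN, if_pos rfl]
    have h1 : ((ncl X Hub Ps2.o : ℝ) + (∑ h ∈ Hub, ∑ k : Kd5, (Cfg.nch X h k : ℝ)) + 2 * q) / n ≤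
        1 - (β₀ + ρC + ρE + τ) := by
      rw [div_le_iff₀ hn']
      linarith
    have h2 : ((ncl X Hub Ps2.o : ℝ) + (∑ h ∈ Hub, ∑ k : Kd5, (Cfg.nch X h k : ℝ)) + 2 * q) / n =
        (ncl X Hub Ps2.o : ℝ) / n + (∑ h ∈ Hub, ∑ k : Kd5, (Cfg.nch X h k : ℝ)) / n +
          2 * ((q : ℝ) / n) := by ring
    linarith
  · rw [eJ]
    exact c4

/-- the situation after the main stage -/
private theorem c2_two [NeZero n] (T : TwoTree t sd n W X π β m pp bb lp e e' K)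
    (C : Cfg n W Kd5 Ps2) {κ₁ : ℝ} {h0 : ℕ} (hub : HubOK X C.Hub κ₁ h0 n)
    {J1 E RA RB Y1 Y2 Y3 : Finset (ZMod n)} {F q : ℕ} {a r b β₀ τ θ : ℝ}
    (hX : Ext true X C J1 E RA RB Y1 Y2 Y3 F q a r b β₀ τ θ)
    (hq : q = m + Fintype.card π + 3 * Fintype.card β) (lab : W → ZMod n) (D : Finset W)
    (hD : ∀ w ∈ D, X.spl (X.kd w) = true) (hE : X.Emb (univ \ D) lab)
    (g4 : ∀ w ∉ D, (w ∈ C.Hub ∧ lab w = C.lh w) ∨ lab w ∈ C.S (X.kd w) ∨
      lab w ∈ C.R (X.kd w) ∨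
      (w ≠ X.t.root ∧ X.t.par w ∈ C.Hub ∧ lab w ∈ C.Y (X.t.par w) (X.kd w)))
    (g5 : ∀ w ∉ D, w ≠ X.t.root → X.col lab w ∈ C.Q (X.cl (X.kd w)) ∨ X.col lab w ∈ C.RC ∨
      (X.t.par w ∈ C.Hub ∧ lab w ∈ C.Y (X.t.par w) (X.kd w)) ∨
      (w ∈ C.Hub ∧ X.t.par w ∈ C.Hub))
    (g7 : ∀ w ∉ D, X.spl (X.kd w) = true → X.col lab w ∈ C.Q (X.cl (X.kd w)))
    (g8 : ∀ h ∈ C.Hub, lab h = C.lh h) :
    Two X lab D pp bb lp (C.Q Ps2.J) J1 E RA RB Y1 Y2 Y3 := by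
  have hside : ∀ w, X.side (X.kd w) = (X.kd w).sd := fun w => by rw [T.std.side]
  have hspl : ∀ w, X.spl (X.kd w) = true ↔ X.kd w = Kd5.L := c2_spl T
  have hsplf : (univ.filter fun w => X.spl (X.kd w) = true).card = m := by
    rw [← T.cL]
    exact congrArg card (filter_congr fun w _ => hspl w)
  have hspl' : ∀ w, X.kd w ≠ Kd5.L → X.spl (X.kd w) = false := by
    intro w hw
    cases h : X.spl (X.kd w) with
    | false => rfl
    | true => exact absurd ((hspl w).1 h) hw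
  have hLab : ∀ w ∉ D, C.Lab X (X.side (X.kd w)) (lab w) := by
    intro w hw
    rcases g4 w hw with ⟨h1, h2⟩ | h | h | ⟨_, h1, h2⟩
    · exact Or.inr (Or.inr ⟨w, h1, rfl, h2⟩)
    · exact Or.inl ⟨X.kd w, rfl, Or.inl h⟩
    · exact Or.inl ⟨X.kd w, rfl, Or.inr h⟩
    · exact Or.inr (Or.inl ⟨X.t.par w, h1, X.kd w, rfl, h2⟩)
  have ho : ∀ w, w ≠ X.t.root → X.t.par w ∈ C.Hub → X.o w = 0 := by
    intro w hw hp
    by_contra h1
    have h2 := X.o_le w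
    have h3 : X.o w = 1 := by omega
    exact (hub.hub_dom _ (X.o_dom w hw h3)).1 hp
  have hcl : ∀ w, X.kd w ≠ Kd5.L → X.cl (X.kd w) = Ps2.o := by
    intro w hw
    rw [T.std.cl]
    revert hw
    cases X.kd w <;> simp [Kd5.cl]
  have hpD : ∀ p, X.dom (X.kd (pp p)) = true := fun p => (c2_dom T _).2 (Or.inr (T.pp_kd p))
  have hbD : ∀ p, X.dom (X.kd (bb p)) = true := fun p => (c2_dom T _).2 (Or.inr (T.bb_kd p))
  exact {
    hD := hD
    hE := hE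
    spl_side := by
      intro k hk
      rw [T.std.spl] at hk
      rw [T.std.side]
      revert hk
      cases k <;> simp [Kd5.sl, Kd5.sd]
    dom_side := by
      intro k hk
      rw [T.std.dom] at hk
      rw [T.std.side]
      revert hk
      cases k <;> simp [Kd5.dm, Kd5.sd]
    spl_o := by
      intro w hw
      have h1 := (hspl w).1 hw
      exact ⟨T.std.so w h1, (c2_dom T _).2 (Or.inl (T.std.spar w h1))⟩
    pp_inj := T.pp_inj
    bb_inj := T.bb_inj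
    pp_dom := hpD
    bb_dom := hbD
    pb := T.pb
    sp := by
      intro w p hw h1
      have h2 := T.std.spar w ((hspl w).1 hw)
      rw [h1, T.pp_kd] at h2
      exact absurd h2 (by decide)
    sb := by
      intro w p hw h1
      have h2 := T.std.spar w ((hspl w).1 hw)
      rw [h1, T.bb_kd] at h2
      exact absurd h2 (by decide)
    lp_spl := by
      refine hspl' _ fun h1 => ?_
      rcases T.lp_kd with h2 | h2 <;> rw [h2] at h1 <;> exact absurd h1 (by decide)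
    cardW := by
      rw [hsplf]
      exact T.cardW
    starts := hX.starts rfl
    QJ1 := hX.QJ1
    E_out := fun s hs => ⟨(hX.E_out s hs).1, (hX.E_out s hs).2 rfl⟩
    cardJ := by
      rw [hX.cardJ, hsplf, hq]
    col_spl := by
      intro w hw hs
      have h1 := g7 w hw hs
      rwa [(hspl w).1 hs, T.std.cl] at h1
    col_ord := by
      intro w hw hs
      have hL : X.kd w ≠ Kd5.L := by
        intro h1
        rw [(hspl w).2 h1] at hs
        exact Bool.false_ne_true hs.symm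
      have hwD : w ∉ D := by
        intro h1
        rw [hD w h1] at hs
        exact Bool.false_ne_true hs.symm
      have hcol : ∀ (_ : X.t.par w ∈ C.Hub), X.col lab w = C.lh (X.t.par w) + lab w := by
        intro h1
        unfold KT.col
        rw [ho w hw h1, g8 _ h1]
        push_cast
        ring
      have hOrd : OrdCol C X (X.col lab w) := by
        rcases g5 w hwD hw with h1 | h1 | ⟨h1, h2⟩ | ⟨h1, h2⟩
        · rw [hcl w hL] at h1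
          exact Or.inl h1
        · exact Or.inr (Or.inl h1)
        · exact Or.inr (Or.inr (Or.inl ⟨X.t.par w, h1, X.kd w, X.side_par w hw, lab w, h2,
            hcol h1⟩))
        · refine Or.inr (Or.inr (Or.inr ⟨w, h1, hw, h2, ?_⟩))
          rw [hcol h2, g8 _ h1, add_comm]
      have h1 := hX.ord_out _ hOrd
      exact ⟨h1.1, h1.2.1 rfl, h1.2.2⟩
    Y12 := hX.Y12
    Y13 := hX.Y13
    Y23 := hX.Y23
    YR := hX.YR
    lab_B := by
      intro w hw hs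
      have h1 := hLab w hw
      rw [hs] at h1
      exact hX.out_B _ h1
    lab_A := by
      intro w hw hs
      have h1 := hLab w hw
      rw [hs] at h1
      refine ⟨hX.out_A _ h1, fun hd => ?_⟩
      refine hX.out_A1 (X.kd w) hd (lab w) ?_
      rcases g4 w hw with ⟨h2, _⟩ | h | h | ⟨h2, h3, _⟩
      · exact absurd h2 (hub.hub_dom w hd).1
      · exact Or.inl h
      · exact Or.inr h
      · refine absurd h3 ((hub.hub_dom w hd).2 _ ?_)
        unfold RTr.nb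
        rw [if_neg h2]
        exact mem_union_right _ (mem_singleton_self _) }

end

theorem case_two (γ ε₂ : ℝ) (hγ : 0 < γ) (hε : 0 < ε₂) :
    ∃ n₀ : ℕ, ∀ (n : ℕ) [NeZero n], n₀ ≤ n → ∀ (V : Type) [Fintype V] [DecidableEq V]
      (t : RTr V) (sd : V → Bool), Fintype.card V = n + 1 →
      (∀ w, w ≠ t.root → sd w ≠ sd (t.par w)) →
      (∀ s : Bool, ((univ.filter fun v => sd v = s).card : ℝ) ≤ (1 - γ) * n) →
      ∀ S : Finset V, t.Chains S → (∀ x ∈ S, sd x = false) → ε₂ * n ≤ (S.card : ℝ) →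
      ∃ f : V → ZMod n, (∀ u v, sd u = sd v → f u = f v → u = v) ∧
        ∀ u v, u ≠ t.root → v ≠ t.root → f u + f (t.par u) = f v + f (t.par v) → u = v := by
  -- constants
  obtain ⟨g, hg0, hgγ, hg1⟩ : ∃ g : ℝ, 0 < g ∧ g ≤ γ ∧ g ≤ 1 :=
    ⟨min γ 1, lt_min hγ one_pos, min_le_left _ _, min_le_right _ _⟩
  obtain ⟨e₀, he0, heε, he1⟩ : ∃ e₀ : ℝ, 0 < e₀ ∧ e₀ ≤ ε₂ ∧ e₀ ≤ 1 :=
    ⟨min ε₂ 1, lt_min hε one_pos, min_le_left _ _, min_le_right _ _⟩
  obtain ⟨μ, hμ, hμe, hμg⟩ : ∃ μ : ℝ, 0 < μ ∧ μ ≤ e₀ / 4 ∧ μ ≤ g / 100 :=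
    ⟨min (e₀ / 4) (g / 100), lt_min (by linarith) (by linarith), min_le_left _ _,
      min_le_right _ _⟩
  obtain ⟨ρ, hρd⟩ : ∃ ρ : ℝ, ρ = μ / 20 := ⟨_, rfl⟩
  have hρ : 0 < ρ := by rw [hρd]; linarith
  have hρ1 : ρ ≤ 1 / 2000 := by rw [hρd]; linarith
  obtain ⟨a, had⟩ : ∃ a : ℝ, a = μ * ρ * ρ / 2 := ⟨_, rfl⟩
  have ha : 0 < a := by rw [had]; positivity
  have haμ : a ≤ μ / 100 := by
    have h1 : ρ * ρ ≤ 1 * (1 / 2000) := mul_le_mul (by linarith) hρ1 hρ.le (by norm_num)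
    have h2 : μ * (ρ * ρ) ≤ μ * (1 * (1 / 2000)) := mul_le_mul_of_nonneg_left h1 hμ.le
    rw [had]
    linarith
  obtain ⟨r, hrd⟩ : ∃ r : ℝ, r = ρ / 2 := ⟨_, rfl⟩
  have hr : 0 < r := by rw [hrd]; linarith
  have hr1 : r ≤ 1 := by rw [hrd]; linarith
  obtain ⟨w, hwd⟩ : ∃ w : ℝ, w = a ^ 2 * r := ⟨_, rfl⟩
  have hw : 0 < w := by rw [hwd]; positivity
  have hwa : w ≤ a / 100 := by
    have h1 : a * r ≤ 1 / 100 * 1 := mul_le_mul (by linarith) hr1 hr.le (by norm_num)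
    have h2 : a * (a * r) ≤ a * (1 / 100 * 1) := mul_le_mul_of_nonneg_left h1 ha.le
    rw [hwd]
    linarith
  obtain ⟨ρ₁, hρ₁d⟩ : ∃ ρ₁ : ℝ, ρ₁ = w / 200 := ⟨_, rfl⟩
  have hρ₁ : 0 < ρ₁ := by rw [hρ₁d]; linarith
  obtain ⟨b, hbd⟩ : ∃ b : ℝ, b = ρ₁ ^ 2 * ρ ^ 4 * ρ ^ 2 / 2 := ⟨_, rfl⟩
  have hb : 0 < b := by rw [hbd]; positivity
  have hbρ : b ≤ ρ₁ / 100 := by
    have h1 : ρ ^ 4 ≤ 1 := pow_le_one₀ hρ.le (by linarith)
    have h2 : ρ ^ 2 ≤ 1 := pow_le_one₀ hρ.le (by linarith)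
    have h3 : ρ ^ 4 * ρ ^ 2 ≤ 1 * 1 := mul_le_mul h1 h2 (by positivity) (by norm_num)
    have h4 : ρ₁ * (ρ ^ 4 * ρ ^ 2) ≤ (1 / 50) * (1 * 1) :=
      mul_le_mul (by linarith) h3 (by positivity) (by norm_num)
    have h5 : ρ₁ * (ρ₁ * (ρ ^ 4 * ρ ^ 2)) ≤ ρ₁ * ((1 / 50) * (1 * 1)) :=
      mul_le_mul_of_nonneg_left h4 hρ₁.le
    rw [hbd]
    linarith
  obtain ⟨σ, hσd⟩ : ∃ σ : ℝ, σ = b / 100 := ⟨_, rfl⟩
  have hσ : 0 < σ := by rw [hσd]; linarith
  obtain ⟨δ, hδd⟩ : ∃ δ : ℝ, δ = σ / 20 := ⟨_, rfl⟩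
  have hδ : 0 < δ := by rw [hδd]; linarith
  obtain ⟨c, hcd⟩ : ∃ c : ℝ, c = δ * δ ^ 2 / 8 := ⟨_, rfl⟩
  have hc : 0 < c := by rw [hcd]; positivity
  obtain ⟨ε, hεd⟩ : ∃ ε : ℝ, ε = w / 64 := ⟨_, rfl⟩
  have hε' : 0 < ε := by rw [hεd]; linarith
  obtain ⟨κ₁, hκ₁, HP⟩ := place2 Kd5 Ps2 δ c ε hδ hc hε'
  obtain ⟨h0, hh0⟩ : ∃ h0 : ℕ, 2 / κ₁ ≤ h0 := exists_nat_ge _
  obtain ⟨κ₂, hκ₂, θ₀, hθ₀, n1, HP⟩ := HP h0
  obtain ⟨θ, hθ, hθθ, hθw⟩ : ∃ θ : ℝ, 0 < θ ∧ θ ≤ θ₀ ∧ θ ≤ (w / 64) ^ 2 :=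
    ⟨min θ₀ ((w / 64) ^ 2), lt_min hθ₀ (by positivity), min_le_left _ _, min_le_right _ _⟩
  have hsq : Real.sqrt θ ≤ w / 64 := by
    rw [← Real.sqrt_sq (show (0 : ℝ) ≤ w / 64 by positivity)]
    exact Real.sqrt_le_sqrt hθw
  obtain ⟨n2, HC⟩ := cfg_exists true ρ δ ρ₁ δ δ ρ δ δ μ hρ hδ hρ₁ hδ hδ hρ hδ hδ hμ
    (by linarith) h0 κ₁ κ₂ θ hκ₂ hθ
  obtain ⟨n3, hn3⟩ : ∃ n3 : ℕ, 2 / κ₁ ≤ n3 := exists_nat_ge _
  obtain ⟨n4, hn4⟩ : ∃ n4 : ℕ, 1000 / w ≤ n4 := exists_nat_ge _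
  obtain ⟨n5, hn5⟩ : ∃ n5 : ℕ, 100 / b ≤ n5 := exists_nat_ge _
  refine ⟨n1 + n2 + n3 + n4 + n5 + 1, ?_⟩
  intro n _ hn V _ _ t sd hV hsd hsz S hS hSs hSc
  -- large n
  have hN : (0 : ℝ) < n := by exact_mod_cast (by omega : 0 < n)
  have hN0 : (0 : ℝ) ≤ n := hN.le
  have q1 : 2 ≤ κ₁ * n := by
    have h1 : (n3 : ℝ) ≤ n := by exact_mod_cast (by omega : n3 ≤ n)
    have h2 := hn3.trans h1
    rw [div_le_iff₀ hκ₁] at h2
    linarith
  have q2 : 1000 ≤ w * n := by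
    have h1 : (n4 : ℝ) ≤ n := by exact_mod_cast (by omega : n4 ≤ n)
    have h2 := hn4.trans h1
    rw [div_le_iff₀ hw] at h2
    linarith
  have q3 : 100 ≤ b * n := by
    have h1 : (n5 : ℝ) ≤ n := by exact_mod_cast (by omega : n5 ≤ n)
    have h2 := hn5.trans h1
    rw [div_le_iff₀ hb] at h2
    linarith
  have y1 : μ * n ≤ e₀ * n / 4 := by
    have := mul_le_mul_of_nonneg_right hμe hN0
    linarith
  have y2 : μ * n ≤ n / 100 := by
    have := mul_le_mul_of_nonneg_right (show μ ≤ 1 / 100 by linarith) hN0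
    linarith
  have y3 : a * n ≤ μ * n / 100 := by
    have := mul_le_mul_of_nonneg_right haμ hN0
    linarith
  have y4 : w * n ≤ a * n / 100 := by
    have := mul_le_mul_of_nonneg_right hwa hN0
    linarith
  have y5 : ρ₁ * n = w * n / 200 := by rw [hρ₁d]; ring
  have y6 : b * n ≤ ρ₁ * n / 100 := by
    have := mul_le_mul_of_nonneg_right hbρ hN0
    linarith
  have y7 : σ * n = b * n / 100 := by rw [hσd]; ring
  have y8 : δ * n = σ * n / 20 := by rw [hδd]; ring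
  have y9 : ε * n = w * n / 64 := by rw [hεd]; ring
  have y10 : e₀ * n ≤ ε₂ * n := mul_le_mul_of_nonneg_right heε hN0
  -- the numbers
  obtain ⟨m, hm1, hm2⟩ : ∃ m : ℕ, μ * n ≤ m ∧ (m : ℝ) ≤ μ * n + 1 :=
    ⟨⌈μ * n⌉₊, Nat.le_ceil _, (Nat.ceil_lt_add_one (by positivity)).le⟩
  obtain ⟨s₀, hs1, hs2⟩ : ∃ s₀ : ℕ, ρ₁ * n + δ * n ≤ s₀ ∧ (s₀ : ℝ) ≤ ρ₁ * n + δ * n + 1 :=
    ⟨⌈ρ₁ * n + δ * n⌉₊, Nat.le_ceil _, (Nat.ceil_lt_add_one (by positivity)).le⟩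
  obtain ⟨Nb, hb1, hb2⟩ : ∃ Nb : ℕ, (Nb : ℝ) ≤ σ * n ∧ σ * n ≤ Nb + 1 :=
    ⟨⌊σ * n⌋₊, Nat.floor_le (by positivity), (Nat.lt_floor_add_one _).le⟩
  have h3Nb : 3 * Nb ≤ s₀ := by
    have h1 : (3 * Nb : ℝ) ≤ s₀ := by linarith
    exact_mod_cast h1
  obtain ⟨N0, hN0d⟩ : ∃ N0 : ℕ, N0 + 3 * Nb = s₀ := ⟨s₀ - 3 * Nb, by omega⟩
  have hN0s : (N0 : ℝ) ≤ s₀ := by exact_mod_cast (by omega : N0 ≤ s₀)
  have hNb0 : (0 : ℝ) ≤ Nb := by positivity
  have hcard : m + N0 + Nb ≤ S.card := by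
    have h1 : ((m + N0 + Nb : ℕ) : ℝ) ≤ ((m + s₀ : ℕ) : ℝ) :=
      Nat.cast_le.2 (by omega)
    push_cast at h1
    have h2 : ((m + N0 + Nb : ℕ) : ℝ) ≤ S.card := by
      push_cast
      linarith
    exact_mod_cast h2
  -- the tree
  obtain ⟨W, _, _, X, π, β, _, _, _, _, pp, bb, lp, e, e', K, T, hπ, hβ⟩ :=
    c2_tree t sd n m N0 Nb (by omega) hV hsd S hS hSs hcard
  obtain ⟨Hub, hub⟩ := c2_hub T κ₁ hκ₁ (by omega) q1 h0 hh0
  have hWc := T.cardW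
  rw [hπ, hβ] at hWc
  have hW1 : Fintype.card W ≤ n + 1 := by omega
  have hW2 : n ≤ 2 * Fintype.card W := by
    have h1 : ((2 * (m + 2 * N0 + 8 * Nb) : ℕ) : ℝ) ≤ n := by
      push_cast
      linarith
    have h2 : 2 * (m + 2 * N0 + 8 * Nb) ≤ n := by exact_mod_cast h1
    omega
  have hq : m + s₀ = m + Fintype.card π + 3 * Fintype.card β := by
    rw [hπ, hβ]
    omega
  have hbud : Bud true X Hub n (m + s₀) ρ δ ρ₁ δ δ ρ δ δ := by
    refine c2_bud T hub (by omega) γ ρ δ ρ₁ δ δ ρ δ δ μ (m + s₀) hsz hm1 hq hδ.le hδ.le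
      (by linarith) (by linarith) ?_ ?_
    · rw [hβ]
      linarith
    · push_cast
      linarith
  obtain ⟨C, J1, E, RA, RB, Y1, Y2, Y3, F, rfl, hC, hX⟩ := HC n (by omega) W X Hub (m + s₀) hW1
    T.std hub hbud (by
      rw [nclJ T.std hub, T.cL]
      exact hm1)
  rw [← hcd] at hC
  rw [← had, ← hrd, ← hbd] at hX
  obtain ⟨lab, D, g1, g2, g3, g4, g5, _, g7, g8⟩ := HP n (by omega) W X C hW1 hW2
    (hC.mono hθθ)
  obtain ⟨A, hA1, hA2⟩ : ∃ A : ℕ, a * n / 2 ≤ A ∧ (A : ℝ) ≤ a * n / 2 + 1 :=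
    ⟨⌈a * n / 2⌉₊, Nat.le_ceil _, (Nat.ceil_lt_add_one (by positivity)).le⟩
  obtain ⟨k1, k3⟩ := items_count true X C κ₁ h0 T.std hub J1 E RA RB Y1 Y2 Y3 F (m + s₀) a r b δ δ θ
    ε hX (T.cP0.trans T.cL.symm) lab D g1 g2 g3 g7 A (by
      have h1 : (a - δ - δ - ε) * n = a * n - 2 * (δ * n) - ε * n := by ring
      rw [h1]
      linarith) hδ.le
  have H : Two X lab D pp bb lp (C.Q Ps2.J) J1 E RA RB Y1 Y2 Y3 :=
    c2_two T C hub hX hq lab D g1 g3 g4 g5 (fun w hw hs => (g7 w hw hs).2.1) g8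
  obtain ⟨f, f1, f2⟩ := end_two H F ⌊b * n⌋₊ hX.F3
    (fun z s η hη => Nat.floor_le_of_le (hX.K4 rfl z s η hη))
    (fun y η hη => Nat.floor_le_of_le (hX.K5 rfl y η hη)) (hX.K6 rfl)
    (by
      rw [hβ]
      refine Nat.le_floor ?_
      push_cast
      linarith) A r θ hr.le hθ.le k1 k3 hX.Y2_big hX.Y2_aut
    (by
      rw [hπ]
      have h1 : ((6 * (D.card + N0) : ℕ) : ℝ) ≤ A := by
        push_cast
        linarith
      exact_mod_cast h1)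
    (by
      rw [hπ]
      have h1 : ((D.card : ℝ) + N0 + 2) * n < 3 / 64 * (w * n) * n := by
        refine mul_lt_mul_of_pos_right ?_ hN
        linarith
      have h2 : w * (n : ℝ) ^ 2 / 16 ≤ (A / 2 : ℝ) ^ 2 * r := by
        have h3 : (a * n / 4) ^ 2 ≤ (A / 2 : ℝ) ^ 2 :=
          pow_le_pow_left₀ (by positivity) (by linarith) 2
        have h4 := mul_le_mul_of_nonneg_right h3 hr.le
        have h5 : (a * n / 4) ^ 2 * r = w * (n : ℝ) ^ 2 / 16 := by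
          rw [hwd]
          ring
        linarith
      have h6 : Real.sqrt θ * (n : ℝ) ^ 2 ≤ w / 64 * (n : ℝ) ^ 2 :=
        mul_le_mul_of_nonneg_right hsq (by positivity)
      have h7 : 3 / 64 * (w * n) * n = w * (n : ℝ) ^ 2 / 16 - w / 64 * (n : ℝ) ^ 2 := by ring
      linarith)
  have hends : ∀ v, v ≠ t.root → f ((e' v).ends X pp bb lp).1 + f ((e' v).ends X pp bb lp).2 =
      f (e v) + f (e (t.par v)) := by
    intro v hv
    rcases T.ends v hv with h | h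
    · rw [h]
    · rw [h, add_comm]
  refine ⟨fun v => f (e v), fun u v hs h => T.e_inj (f1 (e u) (e v) (T.e_ok u) (T.e_ok v)
    (by rw [T.e_sd, T.e_sd]; exact hs) h), fun u v hu hv h => T.e'_inj u v hu hv
      (f2 (e' u) (e' v) (T.e'_ok u hu) (T.e'_ok v hv) ?_)⟩
  rw [hends u hu, hends v hv]
  exact h

end Pool.Agent.Lib.MP_c5b475_co.KN
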