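import Pool.Agent.Lib.MP_c5b475_co.KN.CasI
import Pool.Agent.Lib.MP_c5b475_co.KN.CasII

/-!
# KN/Cases: the two cases together

`γ = c0/4`, `ε₁ = c0/200`, `ε₂ = c0/40`. `side_le` gives the bound for the sides. If one side has at least
`ε₁ n` leaf-parents, use `case_one` with `sd` or with `! sd`. Otherwise `chains` gives
`12 |S| ≥ c0 n - 35 * 2 ε₁ n - 2`, all of `S` on one side `s`; use `case_two` with `sd` or `! sd`.
-/

set_option autoImplicit false

namespace Pool.Agent.Lib.MP_c5b475_co.KN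

open Finset

private theorem Cases_flip {W : Type} [Fintype W] [DecidableEq W] (sd : W → Bool) (s : Bool) :
    (univ.filter fun v => (!sd v) = s) = univ.filter fun v => sd v = !s := by
  ext v
  simp only [mem_filter, mem_univ, true_and]
  cases sd v <;> cases s <;> simp

theorem many_inner (c0 : ℝ) (hc : 0 < c0) :
    ∃ n₀ : ℕ, ∀ (n : ℕ) [NeZero n], n₀ ≤ n → ∀ (V : Type) [Fintype V] [DecidableEq V]
      (t : RTr V) (sd : V → Bool), Fintype.card V = n + 1 →
      (∀ w, w ≠ t.root → sd w ≠ sd (t.par w)) →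
      c0 * n ≤ ((univ.filter fun w => (t.ch w).Nonempty).card : ℝ) →
      ∃ f : V → ZMod n, (∀ u v, sd u = sd v → f u = f v → u = v) ∧
        ∀ u v, u ≠ t.root → v ≠ t.root → f u + f (t.par u) = f v + f (t.par v) → u = v := by
  obtain ⟨n1, h1⟩ := case_one (c0 / 4) (c0 / 200) (by positivity) (by positivity)
  obtain ⟨n2, h2⟩ := case_two (c0 / 4) (c0 / 40) (by positivity) (by positivity)
  refine ⟨max (max n1 n2) ⌈8 / c0⌉₊, ?_⟩
  intro n _ hn V _ _ t sd hcard hsd hNL
  have hn1 : n1 ≤ n := (le_max_left _ _).trans ((le_max_left _ _).trans hn)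
  have hn2 : n2 ≤ n := (le_max_right _ _).trans ((le_max_left _ _).trans hn)
  have hn3 : 8 / c0 ≤ n := (Nat.le_ceil _).trans (Nat.cast_le.2 ((le_max_right _ _).trans hn))
  rw [div_le_iff₀ hc] at hn3
  have hside : ∀ s : Bool, ((univ.filter fun v => sd v = s).card : ℝ) ≤ (1 - c0 / 4) * n := by
    intro s
    have h := t.side_le sd hsd s
    rw [hcard] at h
    have h' : (2 * (univ.filter fun w => sd w = s).card +
      (univ.filter fun w => (t.ch w).Nonempty).card : ℝ) ≤ 2 * ((n : ℝ) + 1) := by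
      exact_mod_cast h
    nlinarith
  have hsd' : ∀ w, w ≠ t.root → (!sd w) ≠ (!sd (t.par w)) := by
    intro w hw he
    exact hsd w hw (Bool.not_inj he)
  have hside' : ∀ s : Bool, ((univ.filter fun v => (!sd v) = s).card : ℝ) ≤
      (1 - c0 / 4) * n := by
    intro s
    rw [Cases_flip]
    exact hside _
  by_cases hA : c0 / 200 * n ≤
      ((univ.filter fun v => sd v = true ∧ ∃ c ∈ t.ch v, t.ch c = ∅).card : ℝ)
  · exact h1 n hn1 V t sd hcard hsd hside hA
  by_cases hB : c0 / 200 * n ≤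
      ((univ.filter fun v => (!sd v) = true ∧ ∃ c ∈ t.ch v, t.ch c = ∅).card : ℝ)
  · obtain ⟨f, hf1, hf2⟩ := h1 n hn1 V t (fun v => !sd v) hcard hsd' hside' hB
    exact ⟨f, fun u v huv => hf1 u v (by rw [huv]), hf2⟩
  push Not at hA hB
  have hLP : ((univ.filter fun w => ∃ c ∈ t.ch w, t.ch c = ∅).card : ℝ) ≤
      ((univ.filter fun v => sd v = true ∧ ∃ c ∈ t.ch v, t.ch c = ∅).card : ℝ) +
      ((univ.filter fun v => (!sd v) = true ∧ ∃ c ∈ t.ch v, t.ch c = ∅).card : ℝ) := by
    have hsub : (univ.filter fun w => ∃ c ∈ t.ch w, t.ch c = ∅) ⊆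
        (univ.filter fun v => sd v = true ∧ ∃ c ∈ t.ch v, t.ch c = ∅) ∪
        (univ.filter fun v => (!sd v) = true ∧ ∃ c ∈ t.ch v, t.ch c = ∅) := by
      intro v hv
      simp only [mem_filter, mem_univ, true_and, mem_union] at hv ⊢
      cases hs : sd v
      · exact Or.inr ⟨rfl, hv⟩
      · exact Or.inl ⟨rfl, hv⟩
    have h := (Finset.card_le_card hsub).trans (Finset.card_union_le _ _)
    exact_mod_cast h
  obtain ⟨S, s, hS, hSs, hcnt⟩ := t.chains sd hsd
  have hcnt' : ((univ.filter fun w => (t.ch w).Nonempty).card : ℝ) ≤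
      12 * (S.card : ℝ) + 35 * ((univ.filter fun w => ∃ c ∈ t.ch w, t.ch c = ∅).card : ℝ) + 2 := by
    exact_mod_cast hcnt
  have hScard : c0 / 40 * n ≤ (S.card : ℝ) := by nlinarith
  cases s
  · exact h2 n hn2 V t sd hcard hsd hside S hS hSs hScard
  · obtain ⟨f, hf1, hf2⟩ := h2 n hn2 V t (fun v => !sd v) hcard hsd' hside' S hS
      (fun x hx => by rw [hSs x hx]; rfl) hScard
    exact ⟨f, fun u v huv => hf1 u v (by rw [huv]), hf2⟩

end Pool.Agent.Lib.MP_c5b475_co.KN
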