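import Pool.Agent.Lib.MP_c5b475_co.KN.CfgD
import Pool.Agent.Lib.MP_c5b475_co.CF.Main

/-!
# KN/CfD: the random sets of the configuration theorem

Nine independent sequences of block types: `H` hub, `M true`, `M false` masks of the labels of the two
sides, `C false`, `C true` masks of the colours, `T true`, `T false` types of the labels of the two
sides, `TC` types of the colours, `bit` parity.
-/

set_option autoImplicit false

namespace Pool.Agent.Lib.MP_c5b475_co.KN.Cf

open Finset

/-- the sequences -/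
inductive Sq9
  | H | M (s : Bool) | C (j : Bool) | T (s : Bool) | TC | bit
  deriving DecidableEq, Fintype

/-- values of all sequences -/
abbrev Ty (N : ℕ) : Type := Option ((Fin N × Kd5) ⊕ (Kd5 ⊕ Fin 4))

/-- state of a block -/
abbrev State (N : ℕ) : Type := Sq9 → Ty N

variable {N : ℕ}

/-- hub `i`, children of kind `k` -/
def vh (i : Fin N) (k : Kd5) : Ty N := some (Sum.inl (i, k))

/-- kind `k` -/
def vk (k : Kd5) : Ty N := some (Sum.inr (Sum.inl k))

/-- number `j` -/
def vj (j : Fin 4) : Ty N := some (Sum.inr (Sum.inr j))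

/-- the block belongs to the children of kind `k` of hub `i` -/
def act (s : State N) (i : Fin N) (k : Kd5) : Prop :=
  s Sq9.H = vh i k ∧ s (Sq9.M k.sd) = none ∧ s (Sq9.C false) = none ∧ s (Sq9.C true) = none

/-- position of the start of a domino -/
def par (L : ℕ) (d : Bool) (s : State N) (p : ℕ) : Prop :=
  d = true → p % 2 = (if s Sq9.bit = none then 0 else 1) ∧ p + 1 < L

/-- main label sets -/
def gS (dm : Bool) (L : ℕ) (k : Kd5) (s : State N) (p : ℕ) : Prop :=
  s (Sq9.M k.sd) = none ∧ (∀ i k', k'.sd = k.sd → ¬ act s i k') ∧ s (Sq9.T k.sd) = vk k ∧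
    par L (Kd5.dm dm k) s p

/-- reserved label sets -/
def gR (dm : Bool) (L : ℕ) (k : Kd5) (s : State N) (p : ℕ) : Prop :=
  s (Sq9.M k.sd) = vk k ∧ par L (Kd5.dm dm k) s p

/-- labels of the children of kind `k` of hub `i` -/
def gY (L : ℕ) (i : Fin N) (k : Kd5) (s : State N) (p : ℕ) : Prop :=
  act s i k ∧ p + 2 ^ (i : ℕ) < L

/-- reserved labels of side `sd` number `j` (`0`: `RA`, `RB`; `1, 2, 3`: `Y1`, `Y2`, `Y3`) -/
def gres (sd : Bool) (j : Fin 4) (s : State N) (_ : ℕ) : Prop := s (Sq9.M sd) = vj j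

/-- reserved colours -/
def gRC (s : State N) (_ : ℕ) : Prop := s (Sq9.C false) ≠ none ∨ s (Sq9.C true) ≠ none

/-- parts of the reserved colours -/
def gC (j : Bool) (s : State N) (_ : ℕ) : Prop := s (Sq9.C j) = vj 0

/-- parity of the colour type `j` (`0`: ordinary, `1`: `J`, `2`: `J1`, `3`: `E`) -/
def dj (dm : Bool) (j : Fin 4) : Bool := dm && (j = 1 || j = 2)

/-- free colours of type `j` -/
def gQ (dm : Bool) (L : ℕ) (j : Fin 4) (s : State N) (p : ℕ) : Prop :=
  s (Sq9.C false) = none ∧ s (Sq9.C true) = none ∧ (∀ i k, ¬ act s i k) ∧ s Sq9.TC = vj j ∧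
    par L (dj dm j) s p

/-- free colours of type `j`, smaller pattern -/
def gQ0 (dm : Bool) (L : ℕ) (j : Fin 4) (s : State N) (p : ℕ) : Prop :=
  s Sq9.H = none ∧ s (Sq9.C false) = none ∧ s (Sq9.C true) = none ∧ s Sq9.TC = vj j ∧
    par L (dj dm j) s p

section sets

variable {n : ℕ} [NeZero n]

/-- state of the block of `x` -/
def sta (w : Sq9 → ℕ → Ty N) (L : ℕ) (x : ZMod n) : State N := fun k => w k (x.val / L)

/-- outside the zone around 0 -/
def Zn (L : ℕ) (x : ZMod n) : Prop := 2 * L + 2 < CF.cd x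

open Classical in
/-- the set with a given pattern -/
noncomputable def pset (w : Sq9 → ℕ → Ty N) (L : ℕ) (G : State N → ℕ → Prop) : Finset (ZMod n) :=
  univ.filter fun x => Zn L x ∧ G (sta w L x) (x.val % L)

end sets

open Classical in
/-- probability of a set of states -/
noncomputable def Pr (mu : Sq9 → Ty N → ℝ) (G : State N → Prop) : ℝ :=
  ∑ v : State N, if G v then ∏ j, mu j (v j) else 0

/-- densities of the patterns -/
structure Dens (N : ℕ) where
  /-- main labels (starts) -/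
  dS : Kd5 → ℝ
  /-- reserved labels (starts) -/
  dR : Kd5 → ℝ
  /-- children of hubs -/
  dY : Fin N → Kd5 → ℝ
  /-- each number of the reserved labels -/
  dX : ℝ
  /-- each half of the reserved colours -/
  dC : ℝ
  /-- colours (starts) -/
  dQ : Fin 4 → ℝ
  /-- lower bounds for the smaller patterns -/
  dQ0 : Fin 4 → ℝ

/-- the laws have the right densities -/
structure LawOK (mu : Sq9 → Ty N → ℝ) (D : Dens N) (dm : Bool) (L : ℕ) : Prop where
  nonneg : ∀ k t, 0 ≤ mu k t
  sum : ∀ k, ∑ t, mu k t = 1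
  pS : ∀ k p, p + 2 ^ N + 2 < L → Pr mu (fun s => gS dm L k s p) = D.dS k
  pR : ∀ k p, p + 2 ^ N + 2 < L → Pr mu (fun s => gR dm L k s p) = D.dR k
  pY : ∀ i k p, p + 2 ^ N + 2 < L → Pr mu (fun s => gY L i k s p) = D.dY i k
  pX : ∀ sd j p, Pr mu (fun s => gres sd j s p) = D.dX
  pC : ∀ j p, Pr mu (fun s => gC j s p) = D.dC
  pQ : ∀ j p, p + 2 ^ N + 2 < L → Pr mu (fun s => gQ dm L j s p) = D.dQ j
  pQ0 : ∀ j p, p + 2 ^ N + 2 < L → Pr mu (fun s => gQ0 dm L j s p) = D.dQ0 j

end Pool.Agent.Lib.MP_c5b475_co.KN.Cf
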