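import Pool.Agent.Lib.MP_c5b475_co.KN.CfP

/-!
# KN/CfE: the additional sets
-/

set_option autoImplicit false
set_option linter.unusedSectionVars false
set_option linter.unusedVariables false

namespace Pool.Agent.Lib.MP_c5b475_co.KN.Cf

open Finset

variable {N : ℕ}

section tree

variable {W : Type} [Fintype W] [DecidableEq W] {X : KT W Kd5 Ps2} {Hub : Finset W} {dm : Bool}

/-- all vertices of kind `k` except the root -/
theorem nk_add (X : KT W Kd5 Ps2) (Hub : Finset W) (k : Kd5) :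
    nk X Hub k + ∑ h ∈ Hub, Cfg.nch X h k =
      (univ.filter fun w => w ≠ X.t.root ∧ X.kd w = k).card := by
  classical
  have h1 : (univ.filter fun w => w ≠ X.t.root ∧ X.kd w = k).card =
      ((univ.filter fun w => w ≠ X.t.root ∧ X.kd w = k).filter fun w => X.t.par w ∉ Hub).card +
      ((univ.filter fun w => w ≠ X.t.root ∧ X.kd w = k).filter
        fun w => ¬ X.t.par w ∉ Hub).card := (Finset.card_filter_add_card_filter_not _).symm
  rw [h1]
  congr 1
  · unfold nk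
    rw [Finset.filter_filter]
    congr 1
    ext w
    simp only [Finset.mem_filter, Finset.mem_univ, true_and, and_assoc]
  · have h2 : ∀ w ∈ (univ.filter fun w => w ≠ X.t.root ∧ X.kd w = k).filter
        (fun w => ¬ X.t.par w ∉ Hub), X.t.par w ∈ Hub := by
      intro w hw
      exact not_not.1 (Finset.mem_filter.1 hw).2
    rw [Finset.card_eq_sum_card_fiberwise h2]
    refine Finset.sum_congr rfl fun h hh => ?_
    unfold Cfg.nch RTr.ch
    congr 1
    ext w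
    simp only [Finset.mem_filter, Finset.mem_univ, true_and, not_not]
    constructor
    · rintro ⟨⟨h3, h4⟩, h5⟩
      exact ⟨⟨⟨h3, h5⟩, by rw [h4]; exact hh⟩, h4⟩
    · rintro ⟨⟨⟨h3, h4⟩, _⟩, h5⟩
      exact ⟨⟨h3, h5⟩, h4⟩

/-- each special leaf has its own parent -/
theorem nclJ_le (hS : Std dm X) (Hub : Finset W) :
    ncl X Hub Ps2.J ≤ (univ.filter fun w => w ≠ X.t.root ∧ X.kd w = Kd5.P0).card := by
  classical
  unfold ncl
  have hk : ∀ w, X.cl (X.kd w) = Ps2.J → X.kd w = Kd5.L := by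
    intro w hw
    rw [hS.cl] at hw
    cases h : X.kd w <;> rw [h] at hw <;> simp [Kd5.cl] at hw ⊢
  refine Finset.card_le_card_of_injOn X.t.par (fun w hw => ?_) (fun w hw w' hw' he => ?_)
  · obtain ⟨_, h1, h2, _⟩ := Finset.mem_filter.1 (Finset.mem_coe.1 hw)
    have h3 := hS.spar w (hk w h2)
    refine Finset.mem_coe.2 (Finset.mem_filter.2 ⟨Finset.mem_univ _, fun h4 => ?_, h3⟩)
    rw [h4] at h3
    rcases hS.rootk with h5 | h5 <;> rw [h5] at h3 <;> simp at h3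
  · obtain ⟨_, h1, h2, _⟩ := Finset.mem_filter.1 (Finset.mem_coe.1 hw)
    obtain ⟨_, h1', h2', _⟩ := Finset.mem_filter.1 (Finset.mem_coe.1 hw')
    have h3 := X.spl_one (X.t.par w)
    rw [Finset.card_le_one] at h3
    have hs : ∀ v, X.cl (X.kd v) = Ps2.J → X.spl (X.kd v) = true := by
      intro v hv
      rw [hk v hv, hS.spl]
      rfl
    refine h3 w ?_ w' ?_
    · exact Finset.mem_filter.2 ⟨Finset.mem_filter.2 ⟨Finset.mem_univ _, h1, rfl⟩, hs w h2⟩
    · exact Finset.mem_filter.2 ⟨Finset.mem_filter.2 ⟨Finset.mem_univ _, h1', he.symm⟩, hs w' h2'⟩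

theorem nch_zero {h : W} {k : Kd5} (hS : Std dm X) (hk : k.sd = X.side (X.kd h)) :
    Cfg.nch X h k = 0 := by
  unfold Cfg.nch
  rw [Finset.card_eq_zero, Finset.filter_eq_empty_iff]
  intro w hw hkw
  obtain ⟨_, h1, h2⟩ := Finset.mem_filter.1 hw
  have h3 := X.side_par w h1
  rw [h2, hkw, ← hk, hS.side] at h3
  exact h3 rfl

end tree

section det

variable {n : ℕ} [NeZero n] {W : Type} [Fintype W] [DecidableEq W] {dm : Bool}
  {X : KT W Kd5 Ps2} {Hub : Finset W} {hi : W → Fin N} {L : ℕ} {w : Sq9 → ℕ → Ty N}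

theorem res_disj {sd : Bool} {j j' : Fin 4} (h : j ≠ j') :
    Disjoint (pset (n := n) w L (gres sd j)) (pset w L (gres sd j')) := by
  rw [Finset.disjoint_left]
  intro x h1 h2
  obtain ⟨_, h3⟩ := mem_pset.1 h1
  obtain ⟨_, h4⟩ := mem_pset.1 h2
  exact h (vj_inj (h3.symm.trans h4))

theorem Det.lab_res (H : Det n dm L X Hub hi) {sd : Bool} {x : ZMod n}
    (hx : (cfg n dm w L X Hub hi).Lab X sd x) (j : Fin 4) : x ∉ pset w L (gres sd j) := by
  intro h
  obtain ⟨hz, h1⟩ := mem_pset.1 h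
  rcases hx with ⟨k, hs, h5 | h5⟩ | ⟨h', hh, k, hs, h5⟩ | ⟨h', hh, hs, h5⟩
  · rw [H.std.side] at hs
    obtain ⟨_, h6, _⟩ := mem_pset.1 h5
    rw [hs] at h6
    exact vj_ne_none _ (h1.symm.trans h6)
  · rw [H.std.side] at hs
    obtain ⟨_, h6, _⟩ := mem_pset.1 h5
    rw [hs] at h6
    exact vk_ne_vj _ _ (h6.symm.trans h1)
  · rw [H.std.side] at hs
    have h6 := (mem_pset.1 (mem_Y h5).2).2.1.2.1
    rw [hs] at h6
    exact vj_ne_none _ (h1.symm.trans h6)
  · apply H.not_zn_lh (hi h')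
    have h6 : x = ((2 ^ (hi h' : ℕ) : ℕ) : ZMod n) := h5
    rw [← h6]
    exact hz

theorem Det.out_A1 (H : Det n dm L X Hub hi) (k : Kd5) (hk : X.dom k = true) (x : ZMod n)
    (hx : x ∈ (cfg n dm w L X Hub hi).S k ∨ x ∈ (cfg n dm w L X Hub hi).R k) (j : Fin 4) :
    x + 1 ∉ pset w L (gres true j) := by
  rw [H.std.dom] at hk
  have hx' : x ∈ pset w L (gS dm L k) ∨ x ∈ pset w L (gR dm L k) := hx
  obtain ⟨hz, h1, h2, h3, h4⟩ := dom_step hk hx'
  have hs : k.sd = true := by cases k <;> simp [Kd5.dm, Kd5.sd] at hk ⊢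
  intro h
  obtain ⟨_, h5⟩ := mem_pset.1 h
  unfold gres at h5
  rw [h1] at h5
  rcases hx' with hx' | hx'
  · have h6 := (mem_pset.1 hx').2.1
    rw [hs] at h6
    exact vj_ne_none _ (h5.symm.trans h6)
  · have h6 := (mem_pset.1 hx').2.1
    rw [hs] at h6
    exact vk_ne_vj _ _ (h6.symm.trans h5)

theorem step_gQ {j : Fin 4} (hj : dj dm j = true) {x : ZMod n}
    (hx : x ∈ pset w L (gQ dm L j)) :
    sta w L (x + 1) = sta w L x ∧ (x + 1).val = x.val + 1 ∧
      (x + 1).val % L = x.val % L + 1 ∧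
      (x.val % L) % 2 = (if sta w L x Sq9.bit = none then 0 else 1) := by
  obtain ⟨h1, _, _, _, _, h2⟩ := mem_pset.1 hx
  obtain ⟨h3, h4⟩ := h2 hj
  obtain ⟨h5, h6, h7⟩ := sta_add (w := w) (a := 1) h1 h4
  rw [Nat.cast_one] at h5 h6 h7
  exact ⟨h5, h6, h7, h3⟩

/-- the state at a used colour -/
theorem use_gQ {j : Fin 4} {c : ZMod n}
    (h : c ∈ pset w L (gQ dm L j) ∨ (dj dm j = true ∧ c - 1 ∈ pset w L (gQ dm L j))) :
    2 * L + 2 < c.val ∧ sta w L c (Sq9.C false) = none ∧ sta w L c (Sq9.C true) = none ∧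
      (∀ i k, ¬ act (sta w L c) i k) ∧ sta w L c Sq9.TC = vj j := by
  rcases h with h | ⟨hj, h⟩
  · obtain ⟨h1, h2, h3, h4, h5, _⟩ := mem_pset.1 h
    exact ⟨h1.lt.1, h2, h3, h4, h5⟩
  · obtain ⟨g1, g2, _⟩ := step_gQ hj h
    rw [sub_add_cancel] at g1 g2
    obtain ⟨h1, h2, h3, h4, h5, _⟩ := mem_pset.1 h
    rw [g1]
    exact ⟨by have := h1.lt.1; omega, h2, h3, h4, h5⟩

theorem Det.ord_use (H : Det n dm L X Hub hi) {c : ZMod n}
    (hc : OrdCol (cfg n dm w L X Hub hi) X c) {j : Fin 4} (hj : j ≠ 0) :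
    ¬ (c ∈ pset w L (gQ dm L j) ∨ (dj dm j = true ∧ c - 1 ∈ pset w L (gQ dm L j))) := by
  intro h
  obtain ⟨h1, h2, h3, h4, h5⟩ := use_gQ h
  rcases hc with hc | hc | ⟨h', hh, k, hs, y, hy, rfl⟩ | ⟨h', hh, hr, hp, rfl⟩
  · have hc' : c ∈ pset w L (gQ dm L 0) := hc
    have h6 := (mem_pset.1 hc').2.2.2.2.1
    exact hj (vj_inj (h5.symm.trans h6))
  · have hc' : c ∈ pset w L gRC := hc
    rcases (mem_pset.1 hc').2 with h6 | h6
    · exact h6 h2
    · exact h6 h3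
  · exact h4 _ _ (H.hubcol (mem_Y hy).2).1
  · have h6 : ((cfg n dm w L X Hub hi).lh h' + (cfg n dm w L X Hub hi).lh (X.t.par h')).val =
        2 ^ (hi h' : ℕ) + 2 ^ (hi (X.t.par h') : ℕ) := H.lh2_val _ _
    rw [h6] at h1
    have h7 := H.pow_lt (hi h')
    have h8 := H.pow_lt (hi (X.t.par h'))
    have h9 := H.big
    omega

/-- the parity rule -/
theorem par_gQ {j j' : Fin 4} (hj : dj dm j = true) (hj' : dj dm j' = true) {c : ZMod n}
    (hc : c ∈ pset w L (gQ dm L j)) : c + 1 ∉ pset w L (gQ dm L j') := by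
  intro h
  obtain ⟨g1, g2, g3, g4⟩ := step_gQ hj hc
  obtain ⟨_, _, _, _, _, h2⟩ := mem_pset.1 h
  obtain ⟨h3, h4⟩ := h2 hj'
  rw [g1, g3] at h3
  omega

theorem dj_one {dm : Bool} (h : dm = true) : dj dm 1 = true := by subst h; rfl

theorem dj_two {dm : Bool} (h : dm = true) : dj dm 2 = true := by subst h; rfl

end det

section counts

variable {n : ℕ} [NeZero n] {W : Type} [Fintype W] [DecidableEq W] {dm : Bool}
  {X : KT W Kd5 Ps2} {Hub : Finset W} {hi : W → Fin N} {q : ℕ}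
  {ρ ρR ρ1 ρC ρE ρH β τ μ δ e : ℝ} {L : ℕ} {mu : Sq9 → Ty N → ℝ} {D : Dens N}
  {w : Sq9 → ℕ → Ty N}

theorem Ctx.zone' (H : Ctx n dm X Hub hi q ρ ρR ρ1 ρC ρE ρH β τ μ δ e L mu D w) :
    ((5 : ℕ) : ℝ) * (4 * L + 5) ≤ e * n := by
  have := H.zone
  push_cast
  exact this

theorem Ctx.bounds (H : Ctx n dm X Hub hi q ρ ρR ρ1 ρC ρE ρH β τ μ δ e L mu D w) :
    ρ ≤ 1 ∧ ρH ≤ 1 ∧ δ + 2 * e ≤ τ ∧ (N + 1 : ℝ) * (δ + 2 * e) ≤ τ ∧ 10 * e ≤ δ := by
  have h1 := H.bud.hubs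
  have h2 : 0 ≤ ∑ h ∈ Hub, ∑ k : Kd5, (Cfg.nch X h k : ℝ) / n :=
    Finset.sum_nonneg fun h _ => Finset.sum_nonneg fun k _ => by positivity
  have h3 := H.ρ0
  have h4 := H.ρR0
  have h5 := H.ρC0
  have h6 := H.ρH0
  have h7 := H.τ0
  have h8 := H.δτ
  have h9 := H.eδ
  have h10 := H.δ0
  have h11 := H.e0
  have h12 : (0 : ℝ) ≤ N := Nat.cast_nonneg N
  refine ⟨by linarith, by linarith, ?_, ?_, h9⟩
  · nlinarith
  · nlinarith

theorem Ctx.cS (H : Ctx n dm X Hub hi q ρ ρR ρ1 ρC ρE ρH β τ μ δ e L mu D w) (k : Kd5) :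
    |((pset (n := n) w L (gS dm L k)).card : ℝ) - ((nk X Hub k : ℝ) + (β + δ) * n)| ≤
      2 * e * n := by
  have hn := nR_pos (n := n)
  have h1 := H.cnt.card H.zone' (by norm_num) (DS k) (gS dm L k) (D.dS k) (dep_gS dm L k)
    (fun p hp => H.law.pS k p hp)
  have h2 : (n : ℝ) * D.dS k = (nk X Hub k : ℝ) + (β + δ) * n := by
    rw [H.dS]
    field_simp
    ring
  rw [h2] at h1
  exact h1

theorem Ctx.cY (H : Ctx n dm X Hub hi q ρ ρR ρ1 ρC ρE ρH β τ μ δ e L mu D w) {h : W}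
    (hh : h ∈ Hub) {k : Kd5} (hk : k.sd ≠ X.side (X.kd h)) :
    |((pset (n := n) w L (gY L (hi h) k)).card : ℝ) - ((Cfg.nch X h k : ℝ) + δ * n)| ≤
      2 * e * n := by
  have hn := nR_pos (n := n)
  have h1 := H.cnt.card H.zone' (by norm_num) (DY k) (gY L (hi h) k) (D.dY (hi h) k)
    (dep_gY L (hi h) k) (fun p hp => H.law.pY (hi h) k p hp)
  have h2 : (n : ℝ) * D.dY (hi h) k = (Cfg.nch X h k : ℝ) + δ * n := by
    rw [H.dY h hh k hk]
    field_simp
  rw [h2] at h1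
  exact h1

theorem Ctx.cJ (H : Ctx n dm X Hub hi q ρ ρR ρ1 ρC ρE ρH β τ μ δ e L mu D w) :
    |((pset (n := n) w L (gQ dm L 1)).card : ℝ) - ((ncl X Hub Ps2.J : ℝ) + δ * n)| ≤
      2 * e * n := by
  have hn := nR_pos (n := n)
  have h1 := H.cnt.card H.zone' (by norm_num) DQ (gQ dm L 1) (D.dQ 1) (dep_gQ dm L 1)
    (fun p hp => H.law.pQ 1 p hp)
  have h2 : (n : ℝ) * D.dQ 1 = (ncl X Hub Ps2.J : ℝ) + δ * n := by
    rw [H.dQJ]
    field_simp
  rw [h2] at h1
  exact h1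

theorem Ctx.c1 (H : Ctx n dm X Hub hi q ρ ρR ρ1 ρC ρE ρH β τ μ δ e L mu D w) :
    |((pset (n := n) w L (gQ dm L 2)).card : ℝ) - ((q : ℝ) - (ncl X Hub Ps2.J : ℝ) + δ * n)| ≤
      2 * e * n := by
  have hn := nR_pos (n := n)
  have h1 := H.cnt.card H.zone' (by norm_num) DQ (gQ dm L 2) (D.dQ 2) (dep_gQ dm L 2)
    (fun p hp => H.law.pQ 2 p hp)
  have h2 : (n : ℝ) * D.dQ 2 = (q : ℝ) - (ncl X Hub Ps2.J : ℝ) + δ * n := by
    rw [H.dQ1]
    field_simp
  rw [h2] at h1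
  exact h1

/-- the trimmed set `J1` -/
theorem Ctx.trim (H : Ctx n dm X Hub hi q ρ ρR ρ1 ρC ρE ρH β τ μ δ e L mu D w) :
    ∃ J1 : Finset (ZMod n), J1 ⊆ pset w L (gQ dm L 2) ∧
      (pset (n := n) w L (gQ dm L 1)).card + J1.card = q ∧
      ((pset (n := n) w L (gQ dm L 2) \ J1).card : ℝ) ≤ (2 * δ + 4 * e) * n := by
  classical
  have hn := nR_pos (n := n)
  obtain ⟨b1, b2, b3, b4, b5⟩ := H.bounds
  have h1 := abs_le.1 H.cJ
  have h2 := abs_le.1 H.c1
  have h3 := H.bud.qle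
  have hρ1 := H.ρ10
  have he := H.e0
  have hδ := H.δ0
  set A := pset (n := n) w L (gQ dm L 1) with hA
  set B := pset (n := n) w L (gQ dm L 2) with hB
  have hAq : A.card ≤ q := by
    have h4 : (A.card : ℝ) ≤ q := by nlinarith [h1.2]
    exact_mod_cast h4
  have hqB : q - A.card ≤ B.card := by
    have h4 : ((q - A.card : ℕ) : ℝ) ≤ B.card := by
      rw [Nat.cast_sub hAq]
      nlinarith [h1.1, h2.1]
    exact_mod_cast h4
  obtain ⟨J1, hJ, hc⟩ := Finset.exists_subset_card_eq hqB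
  refine ⟨J1, hJ, by omega, ?_⟩
  have h5 := Finset.card_sdiff_add_card_eq_card hJ
  have h6 : ((B \ J1).card : ℝ) = B.card - (q - A.card) := by
    have h7 : ((B \ J1).card : ℝ) + ((q - A.card : ℕ) : ℝ) = B.card := by
      rw [← hc]
      exact_mod_cast h5
    rw [Nat.cast_sub hAq] at h7
    linarith
  rw [h6]
  nlinarith [h1.2, h2.2]

theorem Ctx.K1 (H : Ctx n dm X Hub hi q ρ ρR ρ1 ρC ρE ρH β τ μ δ e L mu D w)
    (he : 2 * e ≤ μ * ρ * ρH / 2) (x : ZMod n) : μ * ρ * ρH / 2 * n ≤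
      (((pset (n := n) w L (gQ dm L 1)).filter fun c => c - x ∈ pset w L (gres false 1)).card :
        ℝ) := by
  classical
  have hn := nR_pos (n := n)
  have h1 := H.cnt.pair H.zone' (by norm_num) DQ0 {.M false} (gQ0 dm L 1) (gres false 1)
    (D.dQ0 1) D.dX (dep_gQ0 dm L 1) (dep_gres false 1) (fun p hp => H.law.pQ0 1 p hp)
    (fun p _ => H.law.pX false 1 p) (-x) (fun h => absurd (disj_M_Q0 false).symm h)
  have h2 : (((pset (n := n) w L (gQ0 dm L 1)).filter fun c =>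
      c + -x ∈ pset w L (gres false 1)).card : ℝ) ≤
      (((pset (n := n) w L (gQ dm L 1)).filter fun c => c - x ∈ pset w L (gres false 1)).card :
        ℝ) := by
    have h3 : ((pset (n := n) w L (gQ0 dm L 1)).filter fun c =>
        c + -x ∈ pset w L (gres false 1)) ⊆
        ((pset (n := n) w L (gQ dm L 1)).filter fun c => c - x ∈ pset w L (gres false 1)) := by
      intro c hc
      obtain ⟨h4, h5⟩ := Finset.mem_filter.1 hc
      rw [← sub_eq_add_neg] at h5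
      exact Finset.mem_filter.2 ⟨pset_gQ0 h4, h5⟩
    exact_mod_cast Finset.card_le_card h3
  refine le_trans ?_ h2
  have h4 := (abs_le.1 h1).1
  have h5 : μ * ρH ≤ D.dQ0 1 := by
    refine le_trans ?_ (H.dQ0 1)
    rw [H.dQJ]
    have h6 : μ ≤ (ncl X Hub Ps2.J : ℝ) / n := by
      rw [le_div_iff₀ hn]
      exact H.nclJ
    have h7 := H.ρH0
    have h8 := H.δ0
    nlinarith
  have h6 : μ * ρH * ρ ≤ D.dQ0 1 * D.dX := by
    have h7 := H.ρ0
    have h8 := H.δ0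
    have h9 := H.μ0
    have h10 := H.ρH0
    rw [H.dX]
    exact mul_le_mul h5 (by linarith) h7.le (le_trans (by positivity) h5)
  have h7 : (n : ℝ) * (μ * ρH * ρ) ≤ n * (D.dQ0 1 * D.dX) := mul_le_mul_of_nonneg_left h6 hn.le
  nlinarith

theorem Ctx.K3 (H : Ctx n dm X Hub hi q ρ ρR ρ1 ρC ρE ρH β τ μ δ e L mu D w)
    (he : 2 * e * (N + 1) ≤ μ * ρ * ρH / 2) (s : ZMod n) : μ * ρ * ρH / 2 * n ≤
      ((((cfg n dm w L X Hub hi).S Kd5.P0 ∪ Hub.biUnion fun h =>
        (cfg n dm w L X Hub hi).Y h Kd5.P0).filter fun x =>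
          s - x ∈ pset w L (gres false 3)).card : ℝ) := by
  classical
  have hn := nR_pos (n := n)
  obtain ⟨b1, b2, b3, b4, b5⟩ := H.bounds
  have e0 := H.e0
  have ρ0 := H.ρ0
  have μ0 := H.μ0
  have ρH0 := H.ρH0
  have δ0 := H.δ0
  -- the two parts
  set P : ZMod n → Prop := fun x => s - x ∈ pset w L (gres false 3) with hP
  have hX := H.law.X01 (L := L)
  have h1 : ρ * (nk X Hub Kd5.P0 : ℝ) - 2 * e * n ≤
      ((((cfg n dm w L X Hub hi).S Kd5.P0).filter P).card : ℝ) := by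
    have h2 := H.cnt.opp H.zone' (by norm_num) (DS Kd5.P0) {.M false} (gS dm L Kd5.P0)
      (gres false 3) (D.dS Kd5.P0) D.dX (dep_gS dm L Kd5.P0) (dep_gres false 3)
      (fun p hp => H.law.pS Kd5.P0 p hp) (fun p _ => H.law.pX false 3 p) s
    have h3 := (abs_le.1 h2).1
    have h4 : ρ * (nk X Hub Kd5.P0 : ℝ) ≤ n * (D.dS Kd5.P0 * D.dX) := by
      rw [H.dS, H.dX]
      have h5 : (n : ℝ) * (((nk X Hub Kd5.P0 : ℝ) / n + β + δ) * (ρ + δ)) =
        ((nk X Hub Kd5.P0 : ℝ) + (β + δ) * n) * (ρ + δ) := by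
        field_simp
        ring
      rw [h5]
      have h6 : (0 : ℝ) ≤ nk X Hub Kd5.P0 := Nat.cast_nonneg _
      have h7 : 0 ≤ (β + δ) * n := by have := H.β0; positivity
      nlinarith
    have h5 : (((pset (n := n) w L (gS dm L Kd5.P0)).filter fun x =>
        s - x ∈ pset w L (gres false 3)).card : ℝ) =
        ((((cfg n dm w L X Hub hi).S Kd5.P0).filter P).card : ℝ) := rfl
    rw [← h5]
    linarith
  have h2 : ∀ h ∈ Hub, ρ * (Cfg.nch X h Kd5.P0 : ℝ) - 2 * e * n ≤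
      ((((cfg n dm w L X Hub hi).Y h Kd5.P0).filter P).card : ℝ) := by
    intro h hh
    by_cases hk : Kd5.P0.sd = X.side (X.kd h)
    · rw [nch_zero H.det.std hk]
      have h3 : (0 : ℝ) ≤ ((((cfg n dm w L X Hub hi).Y h Kd5.P0).filter P).card : ℝ) :=
        Nat.cast_nonneg _
      have h4 : 0 ≤ 2 * e * n := by positivity
      simp only [Nat.cast_zero, mul_zero, zero_sub]
      linarith
    · have hY : (cfg n dm w L X Hub hi).Y h Kd5.P0 = pset w L (gY L (hi h) Kd5.P0) := if_pos hk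
      have h2 := H.cnt.opp H.zone' (by norm_num) (DY Kd5.P0) {.M false} (gY L (hi h) Kd5.P0)
        (gres false 3) (D.dY (hi h) Kd5.P0) D.dX (dep_gY L (hi h) Kd5.P0) (dep_gres false 3)
        (fun p hp => H.law.pY (hi h) Kd5.P0 p hp) (fun p _ => H.law.pX false 3 p) s
      have h3 := (abs_le.1 h2).1
      have h4 : ρ * (Cfg.nch X h Kd5.P0 : ℝ) ≤ n * (D.dY (hi h) Kd5.P0 * D.dX) := by
        rw [H.dY h hh _ hk, H.dX]
        have h5 : (n : ℝ) * (((Cfg.nch X h Kd5.P0 : ℝ) / n + δ) * (ρ + δ)) =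
          ((Cfg.nch X h Kd5.P0 : ℝ) + δ * n) * (ρ + δ) := by
          field_simp
        rw [h5]
        have h6 : (0 : ℝ) ≤ Cfg.nch X h Kd5.P0 := Nat.cast_nonneg _
        have h7 : 0 ≤ δ * n := by positivity
        nlinarith
      rw [hY]
      linarith
  -- disjointness
  have h3 : ((((cfg n dm w L X Hub hi).S Kd5.P0 ∪ Hub.biUnion fun h =>
      (cfg n dm w L X Hub hi).Y h Kd5.P0).filter P).card : ℝ) =
      ((((cfg n dm w L X Hub hi).S Kd5.P0).filter P).card : ℝ) +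
        ∑ h ∈ Hub, ((((cfg n dm w L X Hub hi).Y h Kd5.P0).filter P).card : ℝ) := by
    rw [Finset.filter_union, Finset.filter_biUnion, Finset.card_union_of_disjoint,
      Finset.card_biUnion]
    · push_cast
      rfl
    · intro h hh h' hh' hne
      exact Finset.disjoint_filter_filter (cfg_YY H.det.inj hh hh' (by simp [hne]))
    · rw [Finset.disjoint_biUnion_right]
      intro h hh
      exact Finset.disjoint_filter_filter (cfg_SY rfl)
  rw [h3]
  have h4 := Finset.sum_le_sum h2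
  rw [Finset.sum_sub_distrib, Finset.sum_const, ← Finset.mul_sum, nsmul_eq_mul] at h4
  have h5 : (nk X Hub Kd5.P0 : ℝ) + ∑ h ∈ Hub, (Cfg.nch X h Kd5.P0 : ℝ) =
      ((univ.filter fun w => w ≠ X.t.root ∧ X.kd w = Kd5.P0).card : ℝ) := by
    rw [← nk_add X Hub Kd5.P0]
    push_cast
    rfl
  have h6 : (ncl X Hub Ps2.J : ℝ) ≤
      ((univ.filter fun w => w ≠ X.t.root ∧ X.kd w = Kd5.P0).card : ℝ) := by
    exact_mod_cast nclJ_le H.det.std Hub
  have h7 := H.nclJ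
  have h8 : (Hub.card : ℝ) ≤ N := by exact_mod_cast H.hubc
  have h9 : ρ * (μ * n) ≤ ρ * ((nk X Hub Kd5.P0 : ℝ) +
      ∑ h ∈ Hub, (Cfg.nch X h Kd5.P0 : ℝ)) := by
    refine mul_le_mul_of_nonneg_left ?_ ρ0.le
    rw [h5]
    linarith
  have h10 : (Hub.card : ℝ) * (2 * e * n) ≤ N * (2 * e * n) :=
    mul_le_mul_of_nonneg_right h8 (by positivity)
  have h11 : 2 * e * (N + 1) * n ≤ μ * ρ * ρH / 2 * n := mul_le_mul_of_nonneg_right he hn.le
  have h12 : μ * ρ * ρH * n ≤ μ * ρ * n := by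
    have : 0 ≤ μ * ρ * n := by positivity
    nlinarith
  nlinarith

theorem Ctx.I0_le (H : Ctx n dm X Hub hi q ρ ρR ρ1 ρC ρE ρH β τ μ δ e L mu D w) :
    (((cfg n dm w L X Hub hi).S Kd5.P0).card : ℝ) +
      ∑ h ∈ Hub, (((cfg n dm w L X Hub hi).Y h Kd5.P0).card : ℝ) ≤
      (univ.filter fun w => X.kd w = Kd5.P0).card + (β + τ) * n := by
  classical
  have hn := nR_pos (n := n)
  obtain ⟨b1, b2, b3, b4, b5⟩ := H.bounds
  have e0 := H.e0
  have δ0 := H.δ0
  have h1 : (((cfg n dm w L X Hub hi).S Kd5.P0).card : ℝ) ≤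
      (nk X Hub Kd5.P0 : ℝ) + β * n + (δ + 2 * e) * n := by
    have h2 := (abs_le.1 (H.cS Kd5.P0)).2
    have h3 : (((cfg n dm w L X Hub hi).S Kd5.P0).card : ℝ) =
      ((pset (n := n) w L (gS dm L Kd5.P0)).card : ℝ) := rfl
    rw [h3]
    linarith
  have h2 : ∀ h ∈ Hub, (((cfg n dm w L X Hub hi).Y h Kd5.P0).card : ℝ) ≤
      (Cfg.nch X h Kd5.P0 : ℝ) + (δ + 2 * e) * n := by
    intro h hh
    by_cases hk : Kd5.P0.sd = X.side (X.kd h)
    · have hY : (cfg n dm w L X Hub hi).Y h Kd5.P0 = ∅ := if_neg (not_not.2 hk)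
      rw [hY]
      simp only [Finset.card_empty, Nat.cast_zero]
      positivity
    · have hY : (cfg n dm w L X Hub hi).Y h Kd5.P0 = pset w L (gY L (hi h) Kd5.P0) := if_pos hk
      have h2 := (abs_le.1 (H.cY hh hk)).2
      rw [hY]
      linarith
  have h4 := Finset.sum_le_sum h2
  rw [Finset.sum_add_distrib, Finset.sum_const, nsmul_eq_mul] at h4
  have h5 : (nk X Hub Kd5.P0 : ℝ) + ∑ h ∈ Hub, (Cfg.nch X h Kd5.P0 : ℝ) =
      ((univ.filter fun w => w ≠ X.t.root ∧ X.kd w = Kd5.P0).card : ℝ) := by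
    rw [← nk_add X Hub Kd5.P0]
    push_cast
    rfl
  have h6 : ((univ.filter fun w => w ≠ X.t.root ∧ X.kd w = Kd5.P0).card : ℝ) ≤
      ((univ.filter fun w => X.kd w = Kd5.P0).card : ℝ) := by
    have h7 : (univ.filter fun w => w ≠ X.t.root ∧ X.kd w = Kd5.P0) ⊆
        (univ.filter fun w => X.kd w = Kd5.P0) := fun v hv =>
      Finset.mem_filter.2 ⟨Finset.mem_univ _, (Finset.mem_filter.1 hv).2.2⟩
    exact_mod_cast Finset.card_le_card h7
  have h8 : (Hub.card : ℝ) ≤ N := by exact_mod_cast H.hubc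
  have h9 : (Hub.card : ℝ) * ((δ + 2 * e) * n) ≤ N * ((δ + 2 * e) * n) :=
    mul_le_mul_of_nonneg_right h8 (by positivity)
  have h10 : (N + 1 : ℝ) * (δ + 2 * e) * n ≤ τ * n := mul_le_mul_of_nonneg_right b4 hn.le
  nlinarith

/-- all additional sets, given the three counts `K4, K5, K6` -/
theorem Ctx.ext0 (H : Ctx n dm X Hub hi q ρ ρR ρ1 ρC ρE ρH β τ μ δ e L mu D w) {θ : ℝ}
    (hθ : 12 * e ≤ θ) (hθn : 4 * (L : ℝ) ≤ θ * n)
    (h1 : 2 * e * (N + 1) ≤ μ * ρ * ρH / 2)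
    (h3 : 4 * δ + 10 * e ≤ ρ1 ^ 2 * ρ ^ 4 * ρH ^ 2 / 2)
    (k4 : ∀ z s η : ZMod n, Far (L + 3) η → n * (ρH * ρ1 * ρ ^ 4) - 3 * e * n ≤
      (((pset (n := n) w L (gQ dm L 2)).filter fun g => (∀ i, lB z η g i ∈
        pset w L (gres false 0)) ∧ z + s - g - 1 ∈ pset w L (gres true 0)).card : ℝ))
    (k5 : ∀ y η : ZMod n, Far (L + 3) η → n * ((ρH * ρ1) ^ 2 * ρ ^ 2) - 2 * e * n ≤
      (((pset (n := n) w L (gQ dm L 2)).filter fun h => h - η - 1 ∈ pset w L (gQ dm L 2) ∧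
        h + y ∈ pset w L (gres true 0) ∧ h + y + η + 2 ∈ pset w L (gres true 0)).card : ℝ))
    (k6 : ∀ x : ZMod n, ∀ q' < 2, ∀ sd : Bool, 4 * (L + 3) + 1 ≤
      ((pset (n := n) w L (gQ dm L 3)).filter fun s => s.val % 2 = q' ∧
        s - x ∈ pset w L (gres sd 0)).card) :
    ∃ J1 : Finset (ZMod n), Ext dm X (cfg n dm w L X Hub hi) J1 (pset w L (gQ dm L 3))
      (pset w L (gres true 0)) (pset w L (gres false 0)) (pset w L (gres false 1))
      (pset w L (gres false 2)) (pset w L (gres false 3)) (L + 3) q (μ * ρ * ρH / 2) (ρ / 2)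
      (ρ1 ^ 2 * ρ ^ 4 * ρH ^ 2 / 2) β τ θ := by
  classical
  have hn := nR_pos (n := n)
  obtain ⟨b1, b2, b3, b4, b5⟩ := H.bounds
  have e0 := H.e0
  have ρ0 := H.ρ0
  have ρ10 := H.ρ10
  have μ0 := H.μ0
  have ρH0 := H.ρH0
  have δ0 := H.δ0
  have hN : (0 : ℝ) ≤ N := Nat.cast_nonneg N
  obtain ⟨J1, hJ, hc, ht⟩ := H.trim
  -- ρ1 ≤ 1
  have hρ1 : ρ1 ≤ 1 := by
    have g1 := H.law.Q01 H.det.big 2
    rw [H.dQ1] at g1
    have g2 := H.bud.qle
    have g3 : ρ1 ≤ ((q : ℝ) - ncl X Hub Ps2.J) / n := by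
      rw [le_div_iff₀ hn]
      have := H.τ0
      nlinarith
    linarith [g1.2]
  -- membership in the colour sets
  have hmem : ∀ {c : ZMod n}, c ∈ (cfg n dm w L X Hub hi).Q Ps2.J ∪ J1 →
      ∃ j : Fin 4, (j = 1 ∨ j = 2) ∧ c ∈ pset w L (gQ dm L j) := by
    intro c hc
    rcases Finset.mem_union.1 hc with h | h
    · exact ⟨1, Or.inl rfl, h⟩
    · exact ⟨2, Or.inr rfl, hJ h⟩
  have hdj : ∀ {j : Fin 4}, (j = 1 ∨ j = 2) → dm = true → dj dm j = true := by
    rintro j (rfl | rfl) hd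
    · exact dj_one hd
    · exact dj_two hd
  refine ⟨J1, ?_⟩
  refine { Y12 := res_disj (by decide), Y13 := res_disj (by decide), Y23 := res_disj (by decide),
           YR := ?_, out_B := ?_, out_A := ?_, out_A1 := ?_, starts := ?_, QJ1 := ?_,
           E_out := ?_, ord_out := ?_, cardJ := hc, QJ_le := ?_, I0_le := H.I0_le, K1 := ?_,
           K3 := ?_, Y2_big := ?_, Y2_aut := ?_, F3 := by omega, K4 := ?_, K5 := ?_, K6 := ?_ }
  · rw [Finset.disjoint_union_left, Finset.disjoint_union_left]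
    exact ⟨⟨res_disj (by decide), res_disj (by decide)⟩, res_disj (by decide)⟩
  · intro x hx
    rw [Finset.mem_union, Finset.mem_union, Finset.mem_union]
    rintro (((h | h) | h) | h)
    all_goals exact H.det.lab_res hx _ h
  · intro x hx
    exact H.det.lab_res hx _
  · intro k hk x hx
    exact H.det.out_A1 k hk x hx 0
  · intro hd c hc hc1
    obtain ⟨j, hj, h4⟩ := hmem hc
    obtain ⟨j', hj', h5⟩ := hmem hc1
    exact par_gQ (hdj hj hd) (hdj hj' hd) h4 h5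
  · exact Finset.disjoint_of_subset_right hJ (cfg_QQ (by decide))
  · intro s hs
    refine ⟨fun h => ?_, fun hd h => ?_⟩
    · obtain ⟨j, hj, h4⟩ := hmem h
      have h5 : j ≠ 3 := by rcases hj with rfl | rfl <;> decide
      exact Finset.disjoint_left.1 (cfg_QQ h5) h4 hs
    · obtain ⟨j, hj, h4⟩ := hmem h
      have h5 : j ≠ 3 := by rcases hj with rfl | rfl <;> decide
      have h6 := (use_gQ (Or.inr ⟨hdj hj hd, h4⟩)).2.2.2.2
      have h7 := (mem_pset.1 hs).2.2.2.2.1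
      exact h5 (vj_inj (h6.symm.trans h7))
  · intro c hc
    refine ⟨fun h => ?_, fun hd h => ?_, fun h => ?_⟩
    · obtain ⟨j, hj, h4⟩ := hmem h
      have h5 : j ≠ 0 := by rcases hj with rfl | rfl <;> decide
      exact H.det.ord_use hc h5 (Or.inl h4)
    · obtain ⟨j, hj, h4⟩ := hmem h
      have h5 : j ≠ 0 := by rcases hj with rfl | rfl <;> decide
      exact H.det.ord_use hc h5 (Or.inr ⟨hdj hj hd, h4⟩)
    · exact H.det.ord_use hc (by decide : (3 : Fin 4) ≠ 0) (Or.inl h)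
  · have h4 := (abs_le.1 H.cJ).2
    have h5 : (((cfg n dm w L X Hub hi).Q Ps2.J).card : ℝ) =
      ((pset (n := n) w L (gQ dm L 1)).card : ℝ) := rfl
    have h6 : (δ + 2 * e) * n ≤ τ * n := mul_le_mul_of_nonneg_right b3 hn.le
    have h7 : (cfg n dm w L X Hub hi).Hub = Hub := rfl
    rw [h5, h7]
    linarith
  · intro x
    refine H.K1 ?_ x
    have : 2 * e ≤ 2 * e * (N + 1) := by nlinarith
    linarith
  · intro s
    exact H.K3 h1 s
  · have h4 := H.cnt.card H.zone' (by norm_num) {.M false} (gres false 2) D.dX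
      (dep_gres false 2) (fun p _ => H.law.pX false 2 p)
    have h5 := (abs_le.1 h4).1
    rw [H.dX] at h5
    have h6 : (0 : ℝ) < n * ρ := by positivity
    have h7 : (0 : ℝ) < n * δ := by positivity
    nlinarith
  · exact H.cnt.aut H.zone' (by norm_num) {.M false} (gres false 2) D.dX
      (dep_gres false 2) (fun p _ => H.law.pX false 2 p) H.law.X01.1 H.law.X01.2 hθ e0.le hθn
  · intro hd z s η hη
    have h4 := k4 z s η hη
    have h5 : (((pset (n := n) w L (gQ dm L 2)).filter fun g => (∀ i, lB z η g i ∈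
        pset w L (gres false 0)) ∧ z + s - g - 1 ∈ pset w L (gres true 0)).card : ℝ) ≤
        ((J1.filter fun g => (∀ i, lB z η g i ∈ pset w L (gres false 0)) ∧
          z + s - g - 1 ∈ pset w L (gres true 0)).card : ℝ) +
        ((pset (n := n) w L (gQ dm L 2) \ J1).card : ℝ) := by
      have h6 : ((pset (n := n) w L (gQ dm L 2)).filter fun g => (∀ i, lB z η g i ∈
          pset w L (gres false 0)) ∧ z + s - g - 1 ∈ pset w L (gres true 0)) ⊆
          (J1.filter fun g => (∀ i, lB z η g i ∈ pset w L (gres false 0)) ∧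
            z + s - g - 1 ∈ pset w L (gres true 0)) ∪ (pset (n := n) w L (gQ dm L 2) \ J1) := by
        intro g hg
        obtain ⟨h7, h8⟩ := Finset.mem_filter.1 hg
        by_cases hgJ : g ∈ J1
        · exact Finset.mem_union_left _ (Finset.mem_filter.2 ⟨hgJ, h8⟩)
        · exact Finset.mem_union_right _ (Finset.mem_sdiff.2 ⟨h7, hgJ⟩)
      exact_mod_cast le_trans (Finset.card_le_card h6) (Finset.card_union_le _ _)
    have h6 : ρ1 ^ 2 * ρ ^ 4 * ρH ^ 2 ≤ ρH * ρ1 * ρ ^ 4 := by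
      have g1 : ρ1 ^ 2 ≤ ρ1 := by nlinarith
      have g2 : ρH ^ 2 ≤ ρH := by nlinarith
      have g3 : ρ1 ^ 2 * ρH ^ 2 ≤ ρ1 * ρH := mul_le_mul g1 g2 (by positivity) ρ10.le
      have g4 : 0 < ρ ^ 4 := by positivity
      nlinarith
    have h7 : (n : ℝ) * (ρ1 ^ 2 * ρ ^ 4 * ρH ^ 2) ≤ n * (ρH * ρ1 * ρ ^ 4) :=
      mul_le_mul_of_nonneg_left h6 hn.le
    have h8 : (4 * δ + 10 * e) * n ≤ ρ1 ^ 2 * ρ ^ 4 * ρH ^ 2 / 2 * n :=
      mul_le_mul_of_nonneg_right h3 hn.le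
    have h9 : 0 < δ * n := by positivity
    have h10 : 0 < e * n := by positivity
    nlinarith
  · intro hd y η hη
    have h4 := k5 y η hη
    have h5 : (((pset (n := n) w L (gQ dm L 2)).filter fun h => h - η - 1 ∈
        pset w L (gQ dm L 2) ∧ h + y ∈ pset w L (gres true 0) ∧
          h + y + η + 2 ∈ pset w L (gres true 0)).card : ℝ) ≤
        ((J1.filter fun h => h - η - 1 ∈ J1 ∧ h + y ∈ pset w L (gres true 0) ∧
          h + y + η + 2 ∈ pset w L (gres true 0)).card : ℝ) +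
        ((pset (n := n) w L (gQ dm L 2) \ J1).card : ℝ) +
        ((pset (n := n) w L (gQ dm L 2) \ J1).card : ℝ) := by
      have h6 : ((pset (n := n) w L (gQ dm L 2)).filter fun h => h - η - 1 ∈
          pset w L (gQ dm L 2) ∧ h + y ∈ pset w L (gres true 0) ∧
            h + y + η + 2 ∈ pset w L (gres true 0)) ⊆
          (J1.filter fun h => h - η - 1 ∈ J1 ∧ h + y ∈ pset w L (gres true 0) ∧
            h + y + η + 2 ∈ pset w L (gres true 0)) ∪ (pset (n := n) w L (gQ dm L 2) \ J1) ∪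
          (univ.filter fun h : ZMod n => h - η - 1 ∈ pset (n := n) w L (gQ dm L 2) \ J1) := by
        intro g hg
        obtain ⟨h7, h8, h9⟩ := Finset.mem_filter.1 hg
        by_cases hgJ : g ∈ J1
        · by_cases hgJ' : g - η - 1 ∈ J1
          · exact Finset.mem_union_left _ (Finset.mem_union_left _
              (Finset.mem_filter.2 ⟨hgJ, hgJ', h9⟩))
          · exact Finset.mem_union_right _ (Finset.mem_filter.2 ⟨Finset.mem_univ _,
              Finset.mem_sdiff.2 ⟨h8, hgJ'⟩⟩)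
        · exact Finset.mem_union_left _ (Finset.mem_union_right _
            (Finset.mem_sdiff.2 ⟨h7, hgJ⟩))
      have h7 : (univ.filter fun h : ZMod n => h - η - 1 ∈
          pset (n := n) w L (gQ dm L 2) \ J1).card ≤
          (pset (n := n) w L (gQ dm L 2) \ J1).card := by
        refine Finset.card_le_card_of_injOn (fun h => h - η - 1) (fun h hh => ?_)
          (fun h _ h' _ he => ?_)
        · exact (Finset.mem_filter.1 (Finset.mem_coe.1 hh)).2
        · exact sub_left_injective (sub_left_injective he)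
      have h8 := le_trans (Finset.card_le_card h6) (Finset.card_union_le _ _)
      have h9 := Finset.card_union_le (J1.filter fun h => h - η - 1 ∈ J1 ∧
          h + y ∈ pset w L (gres true 0) ∧ h + y + η + 2 ∈ pset w L (gres true 0))
          (pset (n := n) w L (gQ dm L 2) \ J1)
      exact_mod_cast (by omega : _ ≤ _)
    have h6 : ρ1 ^ 2 * ρ ^ 4 * ρH ^ 2 ≤ (ρH * ρ1) ^ 2 * ρ ^ 2 := by
      have g1 : ρ ^ 4 ≤ ρ ^ 2 := pow_le_pow_of_le_one ρ0.le b1 (by norm_num)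
      have g2 : 0 ≤ (ρH * ρ1) ^ 2 := by positivity
      nlinarith
    have h7 : (n : ℝ) * (ρ1 ^ 2 * ρ ^ 4 * ρH ^ 2) ≤ n * ((ρH * ρ1) ^ 2 * ρ ^ 2) :=
      mul_le_mul_of_nonneg_left h6 hn.le
    have h8 : (4 * δ + 10 * e) * n ≤ ρ1 ^ 2 * ρ ^ 4 * ρH ^ 2 / 2 * n :=
      mul_le_mul_of_nonneg_right h3 hn.le
    nlinarith
  · intro hd x q' hq'
    exact ⟨k6 x q' hq' false, k6 x q' hq' true⟩

end counts

end Pool.Agent.Lib.MP_c5b475_co.KN.Cf
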