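import Pool.Agent.Lib.MP_c5b475_co.KN.CfPr
import Pool.Agent.Lib.MP_c5b475_co.KN.CfD

/-!
# KN/CfL: the laws of the nine sequences and the densities of the patterns
-/

set_option autoImplicit false
set_option linter.unusedSectionVars false

namespace Pool.Agent.Lib.MP_c5b475_co.KN.Cf

open Finset

variable {N : ℕ}

/-- values other than `none` -/
abbrev VV (N : ℕ) : Type := (Fin N × Kd5) ⊕ (Kd5 ⊕ Fin 4)

theorem prod_sq9 (f : Sq9 → ℝ) : ∏ k, f k =
    f .H * (f (.M true) * f (.M false)) * (f (.C true) * f (.C false)) *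
      (f (.T true) * f (.T false)) * f .TC * f .bit := by
  have : (univ : Finset Sq9) = {.H, .M true, .M false, .C true, .C false, .T true, .T false,
      .TC, .bit} := by decide
  rw [this]
  repeat rw [prod_insert (by decide)]
  rw [prod_singleton]
  ring

/-- width 1/2 for dominoes -/
noncomputable def hw (d : Bool) : ℝ := if d = true then 1 / 2 else 1

/-- mass of the hub roles of side `s` -/
noncomputable def hs (ν : Sq9 → VV N → ℝ) (s : Bool) : ℝ :=
  ∑ i : Fin N, ∑ k : Kd5, if k.sd = s then ν .H (Sum.inl (i, k)) else 0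

/-- mass of `none` -/
noncomputable def zn (ν : Sq9 → VV N → ℝ) (k : Sq9) : ℝ := 1 - ∑ v, ν k v

/-- the law of the parity bit -/
def BitOK (ν : Sq9 → VV N → ℝ) : Prop := zn ν .bit = 1 / 2

theorem ms_par {L : ℕ} {ν : Sq9 → VV N → ℝ} (hb : BitOK ν) (d : Bool) (p : ℕ) (hp : p + 1 < L) :
    ms (cpl ν .bit) (fun o => d = true → p % 2 = (if o = none then 0 else 1) ∧ p + 1 < L) =
      hw d := by
  classical
  cases d
  · simp only [Bool.false_eq_true, false_imp_iff]
    rw [ms_true, cpl_sum]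
    rfl
  · have h1 : zn ν .bit = 1 / 2 := hb
    have h2 : p % 2 = 0 ∨ p % 2 = 1 := by omega
    rcases h2 with h2 | h2
    · rw [ms_congr (cpl ν .bit) (A' := fun o => o = none) (fun o => by
        by_cases ho : o = none <;> simp [ho, h2, hp]), ms_none]
      rw [show 1 - ∑ v, ν .bit v = zn ν .bit from rfl, h1]
      simp [hw]
    · have h3 : ms (cpl ν .bit) (fun o => ¬ o = none) = 1 / 2 := by
        have h4 : ms (cpl ν .bit) (fun o => ¬ o = none) + ms (cpl ν .bit) (fun o => o = none) =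
            1 := by
          rw [← cpl_sum ν .bit]
          unfold ms
          rw [← sum_add_distrib]
          refine sum_congr rfl fun o _ => ?_
          by_cases ho : o = none <;> simp [ho]
        rw [ms_none, show 1 - ∑ v, ν .bit v = zn ν .bit from rfl, h1] at h4
        linarith
      rw [ms_congr (cpl ν .bit) (A' := fun o => ¬ o = none) (fun o => by
        by_cases ho : o = none <;> simp [ho, h2, hp]), h3]
      simp [hw]

theorem ms_vh (ν : Sq9 → VV N → ℝ) (k : Sq9) (i : Fin N) (k' : Kd5) :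
    ms (cpl ν k) (fun o => o = vh i k') = ν k (Sum.inl (i, k')) := ms_some ν _ _

theorem ms_vk (ν : Sq9 → VV N → ℝ) (k : Sq9) (k' : Kd5) :
    ms (cpl ν k) (fun o => o = vk k') = ν k (Sum.inr (Sum.inl k')) := ms_some ν _ _

theorem ms_vj (ν : Sq9 → VV N → ℝ) (k : Sq9) (j : Fin 4) :
    ms (cpl ν k) (fun o => o = vj j) = ν k (Sum.inr (Sum.inr j)) := ms_some ν _ _

theorem ms_hub (ν : Sq9 → VV N → ℝ) (s : Bool) :
    ms (cpl ν .H) (fun o => ∃ i k, k.sd = s ∧ o = vh i k) = hs ν s := by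
  classical
  unfold ms hs
  rw [Fintype.sum_option, Fintype.sum_sum_type, Fintype.sum_prod_type, if_neg (by
    rintro ⟨_, _, _, h⟩
    exact absurd h (by simp [vh])), zero_add]
  refine Eq.trans (congrArg₂ (· + ·) (sum_congr rfl fun i _ => sum_congr rfl fun k _ => ?_)
    (sum_eq_zero fun x _ => ?_)) (add_zero _)
  · by_cases h : k.sd = s
    · rw [if_pos ⟨i, k, h, rfl⟩, if_pos h]
      rfl
    · rw [if_neg, if_neg h]
      rintro ⟨i', k', h1, h2⟩
      simp only [vh, Option.some.injEq, Sum.inl.injEq, Prod.mk.injEq] at h2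
      exact h (h2.2 ▸ h1)
  · rw [if_neg]
    rintro ⟨i', k', _, h2⟩
    simp [vh] at h2

/-- a box: allowed values of every sequence -/
abbrev Box (N : ℕ) : Type := Sq9 → Option (VV N) → Prop

/-- the box with one condition for each type of sequence -/
def bx (h : Option (VV N) → Prop) (m : Bool → Option (VV N) → Prop) (c : Bool → Option (VV N) → Prop)
    (t : Bool → Option (VV N) → Prop) (tc : Option (VV N) → Prop) (b : Option (VV N) → Prop) :
    Box N
  | .H => h
  | .M s => m s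
  | .C j => c j
  | .T s => t s
  | .TC => tc
  | .bit => b

theorem pr_bx (ν : Sq9 → VV N → ℝ) (h : Option (VV N) → Prop) (m : Bool → Option (VV N) → Prop)
    (c : Bool → Option (VV N) → Prop) (t : Bool → Option (VV N) → Prop)
    (tc : Option (VV N) → Prop) (b : Option (VV N) → Prop) :
    pr (cpl ν) (fun σ => ∀ k, bx h m c t tc b k (σ k)) =
      ms (cpl ν .H) h * (ms (cpl ν (.M true)) (m true) * ms (cpl ν (.M false)) (m false)) *
        (ms (cpl ν (.C true)) (c true) * ms (cpl ν (.C false)) (c false)) *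
        (ms (cpl ν (.T true)) (t true) * ms (cpl ν (.T false)) (t false)) *
        ms (cpl ν .TC) tc * ms (cpl ν .bit) b := by
  rw [pr_box, prod_sq9]
  rfl

theorem bx_iff (σ : State N) (h : Option (VV N) → Prop) (m : Bool → Option (VV N) → Prop)
    (c : Bool → Option (VV N) → Prop) (t : Bool → Option (VV N) → Prop)
    (tc : Option (VV N) → Prop) (b : Option (VV N) → Prop) :
    (∀ k, bx h m c t tc b k (σ k)) ↔ h (σ .H) ∧ (∀ s, m s (σ (.M s))) ∧ (∀ s, c s (σ (.C s))) ∧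
      (∀ s, t s (σ (.T s))) ∧ tc (σ .TC) ∧ b (σ .bit) := by
  constructor
  · intro H
    exact ⟨H .H, fun s => H (.M s), fun s => H (.C s), fun s => H (.T s), H .TC, H .bit⟩
  · rintro ⟨h1, h2, h3, h4, h5, h6⟩ k
    cases k
    · exact h1
    · exact h2 _
    · exact h3 _
    · exact h4 _
    · exact h5
    · exact h6

theorem ms_all (ν : Sq9 → VV N → ℝ) (k : Sq9) : ms (cpl ν k) (fun _ => True) = 1 := by
  rw [ms_true, cpl_sum]

theorem ms_zn (ν : Sq9 → VV N → ℝ) (k : Sq9) : ms (cpl ν k) (fun o => o = none) = zn ν k :=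
  ms_none ν k

/-- probability of a role on side `s` of the labels, with a parity condition -/
theorem pr_S (L : ℕ) {ν : Sq9 → VV N → ℝ} (hb : BitOK ν) (dm : Bool) (k : Kd5) (p : ℕ)
    (hp : p + 1 < L) :
    pr (cpl ν) (fun σ => gS dm L k σ p) = zn ν (.M k.sd) *
      (1 - hs ν k.sd * (zn ν (.C false) * zn ν (.C true))) * ν (.T k.sd) (Sum.inr (Sum.inl k)) *
        hw (Kd5.dm dm k) := by
  classical
  have e : ∀ σ : State N, gS dm L k σ p ↔
      (∀ x, bx (fun _ => True) (fun s o => s = k.sd → o = none) (fun _ _ => True)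
        (fun s o => s = k.sd → o = vk k) (fun _ => True)
        (fun o => Kd5.dm dm k = true → p % 2 = (if o = none then 0 else 1) ∧ p + 1 < L) x (σ x)) ∧
      ¬ (∀ x, bx (fun o => ∃ i k', k'.sd = k.sd ∧ o = vh i k')
        (fun s o => s = k.sd → o = none) (fun _ o => o = none)
        (fun s o => s = k.sd → o = vk k) (fun _ => True)
        (fun o => Kd5.dm dm k = true → p % 2 = (if o = none then 0 else 1) ∧ p + 1 < L) x
          (σ x)) := by
    intro σ
    rw [bx_iff, bx_iff]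
    unfold gS act par
    constructor
    · rintro ⟨h1, h2, h3, h4⟩
      refine ⟨⟨trivial, fun s hs => hs ▸ h1, fun _ => trivial, fun s hs => hs ▸ h3, trivial, h4⟩, ?_⟩
      rintro ⟨⟨i, k', hk, hi⟩, g2, g3, g4, g5, g6⟩
      exact h2 i k' hk ⟨hi, g2 _ hk, g3 _, g3 _⟩
    · rintro ⟨⟨_, h2, _, h4, _, h6⟩, h7⟩
      refine ⟨h2 _ rfl, ?_, h4 _ rfl, h6⟩
      rintro i k' hk ⟨a1, a2, a3, a4⟩
      exact h7 ⟨⟨i, k', hk, a1⟩, h2, fun s => by cases s <;> assumption, h4, trivial, h6⟩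
  rw [pr_congr _ e, pr_sdiff _ (fun σ => by
    rw [bx_iff, bx_iff]
    rintro ⟨_, g2, g3, g4, g5, g6⟩
    exact ⟨trivial, g2, fun _ => trivial, g4, trivial, g6⟩), pr_bx, pr_bx, ms_hub, ms_par hb _ _ hp]
  cases h : k.sd <;> simp [ms_all, ms_zn, ms_vh, ms_vk, ms_vj, h] <;> ring

theorem pr_R (L : ℕ) {ν : Sq9 → VV N → ℝ} (hb : BitOK ν) (dm : Bool) (k : Kd5) (p : ℕ)
    (hp : p + 1 < L) :
    pr (cpl ν) (fun σ => gR dm L k σ p) = ν (.M k.sd) (Sum.inr (Sum.inl k)) * hw (Kd5.dm dm k) := by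
  classical
  rw [pr_congr _ (fun σ => show gR dm L k σ p ↔ (∀ x, bx (fun _ => True)
    (fun s o => s = k.sd → o = vk k) (fun _ _ => True) (fun _ _ => True) (fun _ => True)
    (fun o => Kd5.dm dm k = true → p % 2 = (if o = none then 0 else 1) ∧ p + 1 < L) x (σ x)) by
      rw [bx_iff]
      exact ⟨fun h => ⟨trivial, fun s hs => hs ▸ h.1, fun _ => trivial, fun _ => trivial, trivial,
        h.2⟩, fun h => ⟨h.2.1 _ rfl, h.2.2.2.2.2⟩⟩), pr_bx, ms_par hb _ _ hp]
  cases h : k.sd <;> simp [ms_all, ms_vh, ms_vk, ms_vj]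

theorem pr_Y (L : ℕ) {ν : Sq9 → VV N → ℝ} (i : Fin N) (k : Kd5) (p : ℕ)
    (hp : p + 2 ^ (i : ℕ) < L) :
    pr (cpl ν) (fun σ => gY L i k σ p) =
      ν .H (Sum.inl (i, k)) * zn ν (.M k.sd) * (zn ν (.C false) * zn ν (.C true)) := by
  classical
  rw [pr_congr _ (fun σ => show gY L i k σ p ↔ (∀ x, bx (fun o => o = vh i k)
    (fun s o => s = k.sd → o = none) (fun _ o => o = none) (fun _ _ => True) (fun _ => True)
    (fun _ => True) x (σ x)) by
      rw [bx_iff]
      exact ⟨fun h => ⟨h.1.1, fun s hs => hs ▸ h.1.2.1, fun s => by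
        cases s
        · exact h.1.2.2.1
        · exact h.1.2.2.2, fun _ => trivial, trivial, trivial⟩,
        fun h => ⟨⟨h.1, h.2.1 _ rfl, h.2.2.1 _, h.2.2.1 _⟩, hp⟩⟩), pr_bx]
  cases h : k.sd <;> simp [ms_all, ms_zn, ms_vh, ms_vk, ms_vj, -mul_eq_mul_left_iff, -mul_eq_mul_right_iff] <;> ring

theorem pr_res {ν : Sq9 → VV N → ℝ} (s : Bool) (j : Fin 4) (p : ℕ) :
    pr (cpl ν) (fun σ => gres s j σ p) = ν (.M s) (Sum.inr (Sum.inr j)) := by
  classical
  rw [pr_congr _ (fun σ => show gres s j σ p ↔ (∀ x, bx (fun _ => True)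
    (fun s' o => s' = s → o = vj j) (fun _ _ => True) (fun _ _ => True) (fun _ => True)
    (fun _ => True) x (σ x)) by
      rw [bx_iff]
      exact ⟨fun h => ⟨trivial, fun s' hs => hs ▸ h, fun _ => trivial, fun _ => trivial, trivial,
        trivial⟩, fun h => h.2.1 _ rfl⟩), pr_bx]
  cases s <;> simp [ms_all, ms_vh, ms_vk, ms_vj]

theorem pr_C {ν : Sq9 → VV N → ℝ} (j : Bool) (p : ℕ) :
    pr (cpl ν) (fun σ => gC j σ p) = ν (.C j) (Sum.inr (Sum.inr 0)) := by
  classical
  rw [pr_congr _ (fun σ => show gC j σ p ↔ (∀ x, bx (fun _ => True)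
    (fun _ _ => True) (fun s' o => s' = j → o = vj 0) (fun _ _ => True) (fun _ => True)
    (fun _ => True) x (σ x)) by
      rw [bx_iff]
      exact ⟨fun h => ⟨trivial, fun _ => trivial, fun s' hs => hs ▸ h, fun _ => trivial, trivial,
        trivial⟩, fun h => h.2.2.1 _ rfl⟩), pr_bx]
  cases j <;> simp [ms_all, ms_vh, ms_vk, ms_vj]

theorem pr_Q0 (L : ℕ) {ν : Sq9 → VV N → ℝ} (hb : BitOK ν) (dm : Bool) (j : Fin 4) (p : ℕ)
    (hp : p + 1 < L) :
    pr (cpl ν) (fun σ => gQ0 dm L j σ p) =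
      zn ν .H * (zn ν (.C false) * zn ν (.C true)) * ν .TC (Sum.inr (Sum.inr j)) * hw (dj dm j) := by
  classical
  rw [pr_congr _ (fun σ => show gQ0 dm L j σ p ↔ (∀ x, bx (fun o => o = none)
    (fun _ _ => True) (fun _ o => o = none) (fun _ _ => True) (fun o => o = vj j)
    (fun o => dj dm j = true → p % 2 = (if o = none then 0 else 1) ∧ p + 1 < L) x (σ x)) by
      rw [bx_iff]
      exact ⟨fun h => ⟨h.1, fun _ => trivial, fun s => by
        cases s
        · exact h.2.1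
        · exact h.2.2.1, fun _ => trivial, h.2.2.2.1, h.2.2.2.2⟩,
        fun h => ⟨h.1, h.2.2.1 _, h.2.2.1 _, h.2.2.2.2.1, h.2.2.2.2.2⟩⟩), pr_bx,
    ms_par hb _ _ hp]
  simp [ms_all, ms_zn, ms_vh, ms_vk, ms_vj, -mul_eq_mul_left_iff, -mul_eq_mul_right_iff]
  ring

/-- three-part difference -/
theorem pr_sdiff2 {ι T : Type} [Fintype ι] [DecidableEq ι] [Fintype T] (mu : ι → T → ℝ)
    {G G' G'' : (ι → T) → Prop} (h : ∀ t, G' t → G t) (h' : ∀ t, G'' t → G t)
    (hd : ∀ t, G' t → ¬ G'' t) :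
    pr mu (fun t => G t ∧ ¬ G' t ∧ ¬ G'' t) = pr mu G - pr mu G' - pr mu G'' := by
  classical
  unfold pr
  rw [← sum_sub_distrib, ← sum_sub_distrib]
  refine sum_congr rfl fun t _ => ?_
  by_cases h1 : G' t
  · have h2 := h t h1
    have h3 := hd t h1
    simp [h1, h2, h3]
  · by_cases h2 : G'' t
    · have h3 := h' t h2
      simp [h1, h2, h3]
    · by_cases h3 : G t <;> simp [h1, h2, h3]

theorem pr_Q (L : ℕ) {ν : Sq9 → VV N → ℝ} (hb : BitOK ν) (dm : Bool) (j : Fin 4) (p : ℕ)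
    (hp : p + 1 < L) :
    pr (cpl ν) (fun σ => gQ dm L j σ p) =
      (zn ν (.C false) * zn ν (.C true)) *
        (1 - hs ν true * zn ν (.M true) - hs ν false * zn ν (.M false)) * ν .TC (Sum.inr (Sum.inr j)) *
          hw (dj dm j) := by
  classical
  have e : ∀ σ : State N, gQ dm L j σ p ↔
      (∀ x, bx (fun _ => True) (fun _ _ => True) (fun _ o => o = none)
        (fun _ _ => True) (fun o => o = vj j)
        (fun o => dj dm j = true → p % 2 = (if o = none then 0 else 1) ∧ p + 1 < L) x (σ x)) ∧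
      ¬ (∀ x, bx (fun o => ∃ i k', k'.sd = true ∧ o = vh i k')
        (fun s o => s = true → o = none) (fun _ o => o = none)
        (fun _ _ => True) (fun o => o = vj j)
        (fun o => dj dm j = true → p % 2 = (if o = none then 0 else 1) ∧ p + 1 < L) x
          (σ x)) ∧
      ¬ (∀ x, bx (fun o => ∃ i k', k'.sd = false ∧ o = vh i k')
        (fun s o => s = false → o = none) (fun _ o => o = none)
        (fun _ _ => True) (fun o => o = vj j)
        (fun o => dj dm j = true → p % 2 = (if o = none then 0 else 1) ∧ p + 1 < L) x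
          (σ x)) := by
    intro σ
    rw [bx_iff, bx_iff, bx_iff]
    unfold gQ act par
    constructor
    · rintro ⟨h1, h2, h3, h4, h5⟩
      refine ⟨⟨trivial, fun _ => trivial, fun s => by cases s <;> assumption, fun _ => trivial, h4,
        h5⟩, ?_, ?_⟩
      · rintro ⟨⟨i, k', hk, hi⟩, g2, g3, g4, g5, g6⟩
        exact h3 i k' ⟨hi, g2 _ hk, h1, h2⟩
      · rintro ⟨⟨i, k', hk, hi⟩, g2, g3, g4, g5, g6⟩
        exact h3 i k' ⟨hi, g2 _ hk, h1, h2⟩
    · rintro ⟨⟨_, h2, h3, h4, h5, h6⟩, h7, h8⟩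
      refine ⟨h3 _, h3 _, ?_, h5, h6⟩
      rintro i k' ⟨a1, a2, a3, a4⟩
      cases hk : k'.sd
      · exact h8 ⟨⟨i, k', hk, a1⟩, fun s hs => by rw [hs, ← hk]; exact a2, h3, fun _ => trivial,
          h5, h6⟩
      · exact h7 ⟨⟨i, k', hk, a1⟩, fun s hs => by rw [hs, ← hk]; exact a2, h3, fun _ => trivial,
          h5, h6⟩
  rw [pr_congr _ e, pr_sdiff2 _ (fun σ => by
    rw [bx_iff, bx_iff]
    rintro ⟨_, g2, g3, g4, g5, g6⟩
    exact ⟨trivial, fun _ => trivial, g3, g4, g5, g6⟩) (fun σ => by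
    rw [bx_iff, bx_iff]
    rintro ⟨_, g2, g3, g4, g5, g6⟩
    exact ⟨trivial, fun _ => trivial, g3, g4, g5, g6⟩) (fun σ => by
    rw [bx_iff, bx_iff]
    rintro ⟨⟨i, k', hk, hi⟩, _⟩ ⟨⟨i2, k2, hk2, hi2⟩, _⟩
    rw [hi] at hi2
    simp only [vh, Option.some.injEq, Sum.inl.injEq, Prod.mk.injEq] at hi2
    rw [hi2.2, hk2] at hk
    exact absurd hk (by simp)), pr_bx, pr_bx, pr_bx, ms_hub, ms_hub, ms_par hb _ _ hp]
  simp [ms_all, ms_zn, ms_vh, ms_vk, ms_vj]
  ring

end Pool.Agent.Lib.MP_c5b475_co.KN.Cf
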