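import Pool.Agent.Lib.MP_c5b475_co.KN.Defs

/-!
# KN/Mix: the mixing lemma

A set with small autocorrelation defect is hit by almost every shift of any law of bounded density
with the right probability.
-/

set_option autoImplicit false
set_option linter.unusedSectionVars false

namespace Pool.Agent.Lib.MP_c5b475_co.KN

open Finset

variable {n : ℕ} [NeZero n]

/-- indicator of a set as a real number -/
noncomputable def one (S : Finset (ZMod n)) (x : ZMod n) : ℝ := if x ∈ S then 1 else 0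

theorem one_nonneg (S : Finset (ZMod n)) (x : ZMod n) : 0 ≤ one S x := by
  unfold one; split_ifs <;> norm_num

theorem one_le (S : Finset (ZMod n)) (x : ZMod n) : one S x ≤ 1 := by
  unfold one; split_ifs <;> norm_num

theorem one_of_mem {S : Finset (ZMod n)} {x : ZMod n} (h : x ∈ S) : one S x = 1 := if_pos h

theorem one_of_notMem {S : Finset (ZMod n)} {x : ZMod n} (h : x ∉ S) : one S x = 0 := if_neg h

theorem sum_one (S : Finset (ZMod n)) : ∑ x, one S x = (S.card : ℝ) := by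
  unfold one
  rw [Finset.sum_ite_mem]
  simp

theorem sum_one_shift (S : Finset (ZMod n)) (y : ZMod n) : ∑ x, one S (x + y) = (S.card : ℝ) := by
  rw [← sum_one S]
  exact Fintype.sum_equiv (Equiv.addRight y) _ _ fun x => rfl

theorem nR_pos : (0 : ℝ) < (n : ℝ) := by
  exact_mod_cast Nat.pos_of_ne_zero (NeZero.ne n)

theorem card_zmod : (Fintype.card (ZMod n) : ℝ) = n := by
  rw [ZMod.card]

theorem sum_one_one (S : Finset (ZMod n)) (y y' : ZMod n) :
    ∑ x, one S (x + y) * one S (x + y') =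
      ((S.filter fun x => x + (y' - y) ∈ S).card : ℝ) := by
  have h1 : ∑ x, one S (x + y) * one S (x + y') = ∑ z, one S z * one S (z + (y' - y)) := by
    refine Fintype.sum_equiv (Equiv.addRight y) _ _ fun x => ?_
    simp only [Equiv.coe_addRight]
    congr 2
    abel
  rw [h1, Finset.card_filter]
  push_cast
  unfold one
  simp only [ite_mul, one_mul, zero_mul]
  rw [Finset.sum_ite_mem]
  simp

theorem mix_sq {θ C : ℝ} (hC : 0 ≤ C) {S : Finset (ZMod n)} (hS : Aut θ S)
    {lam : ZMod n → ℝ} (h0 : ∀ y, 0 ≤ lam y) (h1 : ∀ y, lam y ≤ C / n) :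
    ∑ x, (∑ y, lam y * one S (x + y) - (∑ y, lam y) * S.card / n) ^ 2 ≤ C ^ 2 * θ * n := by
  have hn := nR_pos (n := n)
  set ρ : ℝ := (S.card : ℝ) / n with hρ
  have h2 : ∀ x : ZMod n, (∑ y, lam y * one S (x + y) - (∑ y, lam y) * S.card / n) =
      ∑ y, lam y * (one S (x + y) - ρ) := by
    intro x
    rw [hρ]
    simp only [mul_sub, Finset.sum_sub_distrib, ← Finset.sum_mul]
    ring
  have h3 : ∀ y y' : ZMod n, ∑ x, (one S (x + y) - ρ) * (one S (x + y') - ρ) =
      ((S.filter fun x => x + (y' - y) ∈ S).card : ℝ) - (S.card : ℝ) ^ 2 / n := by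
    intro y y'
    have h4 : ∀ x, (one S (x + y) - ρ) * (one S (x + y') - ρ) =
        one S (x + y) * one S (x + y') - ρ * one S (x + y) - ρ * one S (x + y') + ρ * ρ := by
      intro x; ring
    simp only [h4, Finset.sum_add_distrib, Finset.sum_sub_distrib, ← Finset.mul_sum]
    rw [sum_one_one, sum_one_shift, sum_one_shift, Finset.sum_const, Finset.card_univ, nsmul_eq_mul,
      card_zmod, hρ]
    field_simp
    ring
  have h4 : ∑ x, (∑ y, lam y * one S (x + y) - (∑ y, lam y) * S.card / n) ^ 2 =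
      ∑ y, ∑ y', lam y * lam y' * (((S.filter fun x => x + (y' - y) ∈ S).card : ℝ) -
        (S.card : ℝ) ^ 2 / n) := by
    calc ∑ x, (∑ y, lam y * one S (x + y) - (∑ y, lam y) * S.card / n) ^ 2
        = ∑ x, ∑ y, ∑ y', lam y * lam y' * ((one S (x + y) - ρ) * (one S (x + y') - ρ)) := by
          refine Finset.sum_congr rfl fun x _ => ?_
          rw [h2, sq, Finset.sum_mul_sum]
          refine Finset.sum_congr rfl fun y _ => Finset.sum_congr rfl fun y' _ => ?_
          ring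
      _ = ∑ y, ∑ y', ∑ x, lam y * lam y' * ((one S (x + y) - ρ) * (one S (x + y') - ρ)) := by
          rw [Finset.sum_comm]
          refine Finset.sum_congr rfl fun y _ => ?_
          rw [Finset.sum_comm]
      _ = _ := by
          refine Finset.sum_congr rfl fun y _ => Finset.sum_congr rfl fun y' _ => ?_
          rw [← Finset.mul_sum, h3]
  rw [h4]
  have h5 : ∀ y y' : ZMod n, lam y * lam y' * (((S.filter fun x => x + (y' - y) ∈ S).card : ℝ) -
        (S.card : ℝ) ^ 2 / n) ≤ (C / n) * (C / n) *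
        |((S.filter fun x => x + (y' - y) ∈ S).card : ℝ) - (S.card : ℝ) ^ 2 / n| := by
    intro y y'
    have h6 : lam y * lam y' ≤ (C / n) * (C / n) :=
      mul_le_mul (h1 y) (h1 y') (h0 y') (le_trans (h0 y) (h1 y))
    refine le_trans (mul_le_mul_of_nonneg_left (le_abs_self _) (mul_nonneg (h0 y) (h0 y'))) ?_
    exact mul_le_mul_of_nonneg_right h6 (abs_nonneg _)
  refine le_trans (Finset.sum_le_sum fun y _ => Finset.sum_le_sum fun y' _ => h5 y y') ?_
  have h6 : ∀ y : ZMod n, ∑ y' : ZMod n, (C / n) * (C / n) *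
        |((S.filter fun x => x + (y' - y) ∈ S).card : ℝ) - (S.card : ℝ) ^ 2 / n| ≤
      (C / n) * (C / n) * (θ * (n : ℝ) ^ 2) := by
    intro y
    rw [← Finset.mul_sum]
    refine mul_le_mul_of_nonneg_left ?_ (by positivity)
    refine le_trans (le_of_eq ?_) hS
    exact Fintype.sum_equiv (Equiv.subRight y) _ _ fun x => rfl
  refine le_trans (Finset.sum_le_sum fun y _ => h6 y) ?_
  rw [Finset.sum_const, Finset.card_univ, nsmul_eq_mul, card_zmod]
  refine le_of_eq ?_
  field_simp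

/-- **Mixing lemma.** -/
theorem mix {θ C : ℝ} (hθ : 0 ≤ θ) (hC : 0 ≤ C) {S : Finset (ZMod n)} (hS : Aut θ S)
    {lam : ZMod n → ℝ} (h0 : ∀ y, 0 ≤ lam y) (h1 : ∀ y, lam y ≤ C / n) :
    ∑ x, |∑ y, lam y * one S (x + y) - (∑ y, lam y) * S.card / n| ≤ C * √θ * n := by
  have hn := nR_pos (n := n)
  have h2 := mix_sq hC hS h0 h1
  set D : ZMod n → ℝ := fun x => ∑ y, lam y * one S (x + y) - (∑ y, lam y) * S.card / n with hD
  have h3 : (∑ x, |D x|) ^ 2 ≤ (n : ℝ) * ∑ x, (D x) ^ 2 := by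
    have h4 := sq_sum_le_card_mul_sum_sq (s := (Finset.univ : Finset (ZMod n))) (f := fun x => |D x|)
    rw [Finset.card_univ, card_zmod] at h4
    simpa [sq_abs] using h4
  have h4 : (∑ x, |D x|) ^ 2 ≤ (C * √θ * n) ^ 2 := by
    refine le_trans h3 (le_trans (mul_le_mul_of_nonneg_left h2 hn.le) (le_of_eq ?_))
    have h5 : (√θ) ^ 2 = θ := Real.sq_sqrt hθ
    rw [mul_pow, mul_pow, h5]
    ring
  exact (pow_le_pow_iff_left₀ (Finset.sum_nonneg fun x _ => abs_nonneg _) (by positivity)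
    two_ne_zero).1 h4

theorem mix_off {θ C : ℝ} (hθ : 0 ≤ θ) (hC : 0 ≤ C) {S : Finset (ZMod n)} (hS : Aut θ S)
    {lam : ZMod n → ℝ} (h0 : ∀ y, 0 ≤ lam y) (h1 : ∀ y, lam y ≤ C / n) (o : ZMod n) :
    ∑ x, |∑ y, lam y * one S (y + o + x) - (∑ y, lam y) * S.card / n| ≤ C * √θ * n := by
  refine le_trans (le_of_eq ?_) (mix hθ hC hS h0 h1)
  refine Fintype.sum_equiv (Equiv.addRight o) _ _ fun x => ?_
  simp only [Equiv.coe_addRight]
  have h3 : ∀ y : ZMod n, y + o + x = x + o + y := fun y => by abel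
  simp only [h3]

theorem mix_neg {θ C : ℝ} (hθ : 0 ≤ θ) (hC : 0 ≤ C) {S : Finset (ZMod n)} (hS : Aut θ S)
    {lam : ZMod n → ℝ} (h0 : ∀ y, 0 ≤ lam y) (h1 : ∀ y, lam y ≤ C / n) (o : ZMod n) :
    ∑ x, |∑ y, lam y * one S (x - (y + o)) - (∑ y, lam y) * S.card / n| ≤ C * √θ * n := by
  have h2 := mix_off hθ hC hS (lam := fun y => lam (-y)) (fun y => h0 _) (fun y => h1 _) (-o)
  refine le_trans (le_of_eq ?_) h2
  have h3 : ∑ y, lam (-y) = ∑ y, lam y := Fintype.sum_equiv (Equiv.neg _) _ _ fun x => rfl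
  refine Finset.sum_congr rfl fun x _ => ?_
  rw [h3]
  congr 2
  refine Fintype.sum_equiv (Equiv.neg _) _ _ fun y => ?_
  simp only [Equiv.neg_apply, neg_neg]
  congr 2
  abel

end Pool.Agent.Lib.MP_c5b475_co.KN
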