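import Pool.Agent.Lib.MP_c5b475_co.KN.CfS
import Pool.Agent.Lib.MP_c5b475_co.KN.Mix

/-!
# KN/CfN: counts of configurations
-/

set_option autoImplicit false
set_option linter.unusedSectionVars false

namespace Pool.Agent.Lib.MP_c5b475_co.KN.Cf

open Finset

variable {N : ℕ}

/-- `G` depends only on the coordinates in `D` -/
def DepOn (D : Finset Sq9) (G : State N → ℕ → Prop) : Prop :=
  ∀ s s' : State N, ∀ p, (∀ k ∈ D, s k = s' k) → G s p → G s' p

open Classical in
/-- the conclusion of the configuration lemma -/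
def Cnt (n : ℕ) [NeZero n] (mu : Sq9 → Ty N → ℝ) (w : Sq9 → ℕ → Ty N) (L m0 : ℕ) (e : ℝ) : Prop :=
  ∀ m ≤ m0, ∀ (D : Fin m → Finset Sq9) (s : Fin m → Bool) (a : Fin m → ZMod n)
    (G : Fin m → State N → ℕ → Prop) (q : Fin m → ℝ), (∀ i, DepOn (D i) (G i)) →
    (∀ i p, p + 2 ^ N + 2 < L → Pr mu (fun v => G i v p) = q i) →
    (∀ i j, i ≠ j → s i = s j → ¬ Disjoint (D i) (D j) → L ≤ CF.cd (a i - a j)) →
    |((univ.filter fun x : ZMod n => ∀ i, G i (sta w L (CF.pt (s i) (a i) x))
      ((CF.pt (s i) (a i) x).val % L)).card : ℝ) - n * ∏ i, q i| ≤ e * n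

section

variable {n : ℕ} [NeZero n]

open Classical in
theorem card_not_zn (L : ℕ) : (univ.filter fun x : ZMod n => ¬ Zn L x).card ≤ 4 * L + 5 := by
  have h1 : (univ.filter fun x : ZMod n => ¬ Zn L x) ⊆
      (range (2 * L + 3)).image (fun i : ℕ => (i : ZMod n)) ∪
        (range (2 * L + 3)).image (fun i : ℕ => -(i : ZMod n)) := by
    intro x hx
    have h2 : ¬ Zn L x := (Finset.mem_filter.1 hx).2
    unfold Zn CF.cd at h2
    rw [not_lt, min_le_iff] at h2
    rcases h2 with h2 | h2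
    · refine Finset.mem_union_left _ (Finset.mem_image.2 ⟨x.val, ?_, ?_⟩)
      · rw [Finset.mem_range]; omega
      · exact ZMod.natCast_zmod_val x
    · refine Finset.mem_union_right _ (Finset.mem_image.2 ⟨(-x).val, ?_, ?_⟩)
      · rw [Finset.mem_range]; omega
      · rw [ZMod.natCast_zmod_val, neg_neg]
  have h3 : (0 : ZMod n) ∈ (range (2 * L + 3)).image (fun i : ℕ => (i : ZMod n)) ∩
      (range (2 * L + 3)).image (fun i : ℕ => -(i : ZMod n)) := by
    rw [Finset.mem_inter]
    exact ⟨Finset.mem_image.2 ⟨0, by simp, by simp⟩, Finset.mem_image.2 ⟨0, by simp, by simp⟩⟩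
  have h4 := Finset.card_union_add_card_inter
    ((range (2 * L + 3)).image (fun i : ℕ => (i : ZMod n)))
    ((range (2 * L + 3)).image (fun i : ℕ => -(i : ZMod n)))
  have h5 : 0 < ((range (2 * L + 3)).image (fun i : ℕ => (i : ZMod n)) ∩
      (range (2 * L + 3)).image (fun i : ℕ => -(i : ZMod n))).card := Finset.card_pos.2 ⟨0, h3⟩
  have h6 : ((range (2 * L + 3)).image (fun i : ℕ => (i : ZMod n))).card ≤ 2 * L + 3 :=
    le_trans Finset.card_image_le (by rw [Finset.card_range])
  have h7 : ((range (2 * L + 3)).image (fun i : ℕ => -(i : ZMod n))).card ≤ 2 * L + 3 :=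
    le_trans Finset.card_image_le (by rw [Finset.card_range])
  have h8 := Finset.card_le_card h1
  omega

theorem pt_inj (s : Bool) (a : ZMod n) : Function.Injective (CF.pt s a) := by
  intro x y h
  unfold CF.pt at h
  split_ifs at h
  · exact add_right_cancel h
  · exact sub_right_injective h

open Classical in
theorem card_pt_not_zn (L : ℕ) (s : Bool) (a : ZMod n) :
    (univ.filter fun x : ZMod n => ¬ Zn L (CF.pt s a x)).card ≤ 4 * L + 5 := by
  refine le_trans (Finset.card_le_card_of_injOn (CF.pt s a) (fun x hx => ?_)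
    (pt_inj s a).injOn) (card_not_zn (n := n) L)
  have := (Finset.mem_filter.1 (Finset.mem_coe.1 hx)).2
  exact Finset.mem_coe.2 (Finset.mem_filter.2 ⟨Finset.mem_univ _, this⟩)

variable {mu : Sq9 → Ty N → ℝ} {w : Sq9 → ℕ → Ty N} {L m0 : ℕ} {e : ℝ}

open Classical in
/-- counts for the sets (outside the zone) -/
theorem Cnt.pset (hC : Cnt n mu w L m0 e) (hz : (m0 : ℝ) * (4 * L + 5) ≤ e * n) {m : ℕ}
    (hm : m ≤ m0) (D : Fin m → Finset Sq9) (s : Fin m → Bool) (a : Fin m → ZMod n)
    (G : Fin m → State N → ℕ → Prop) (q : Fin m → ℝ) (hD : ∀ i, DepOn (D i) (G i))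
    (hq : ∀ i p, p + 2 ^ N + 2 < L → Pr mu (fun v => G i v p) = q i)
    (hd : ∀ i j, i ≠ j → s i = s j → ¬ Disjoint (D i) (D j) → L ≤ CF.cd (a i - a j)) :
    |((univ.filter fun x : ZMod n => ∀ i, CF.pt (s i) (a i) x ∈ Cf.pset w L (G i)).card : ℝ) -
      n * ∏ i, q i| ≤ 2 * e * n := by
  have h1 := hC m hm D s a G q hD hq hd
  set A := univ.filter fun x : ZMod n => ∀ i, G i (sta w L (CF.pt (s i) (a i) x))
      ((CF.pt (s i) (a i) x).val % L) with hA
  set B := univ.filter fun x : ZMod n => ∀ i, CF.pt (s i) (a i) x ∈ Cf.pset w L (G i) with hB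
  have hBA : B ⊆ A := by
    intro x hx
    rw [hB, Finset.mem_filter] at hx
    rw [hA, Finset.mem_filter]
    exact ⟨hx.1, fun i => (mem_pset.1 (hx.2 i)).2⟩
  have hAB : A \ B ⊆ (univ : Finset (Fin m)).biUnion fun i =>
      univ.filter fun x : ZMod n => ¬ Zn L (CF.pt (s i) (a i) x) := by
    intro x hx
    obtain ⟨h2, h3⟩ := Finset.mem_sdiff.1 hx
    have h4 := (Finset.mem_filter.1 h2).2
    have h5 : ¬ ∀ i, CF.pt (s i) (a i) x ∈ Cf.pset w L (G i) := fun h =>
      h3 (Finset.mem_filter.2 ⟨Finset.mem_univ _, h⟩)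
    push Not at h5
    obtain ⟨i, hi⟩ := h5
    rw [Finset.mem_biUnion]
    refine ⟨i, Finset.mem_univ _, Finset.mem_filter.2 ⟨Finset.mem_univ _, fun h6 => ?_⟩⟩
    exact hi (mem_pset.2 ⟨h6, h4 i⟩)
  have h2 : (A \ B).card ≤ m * (4 * L + 5) := by
    refine le_trans (Finset.card_le_card hAB) (le_trans Finset.card_biUnion_le ?_)
    refine le_trans (Finset.sum_le_sum fun i _ => card_pt_not_zn L (s i) (a i)) ?_
    rw [Finset.sum_const, Finset.card_univ, Fintype.card_fin, smul_eq_mul]
  have h3 := Finset.card_sdiff_add_card_eq_card hBA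
  have h4 : ((A \ B).card : ℝ) ≤ e * n := by
    have h5 : ((A \ B).card : ℝ) ≤ (m : ℝ) * (4 * L + 5) := by exact_mod_cast h2
    have h6 : (m : ℝ) * (4 * L + 5) ≤ (m0 : ℝ) * (4 * L + 5) := by
      refine mul_le_mul_of_nonneg_right ?_ (by positivity)
      exact_mod_cast hm
    linarith
  have h5 : (A.card : ℝ) = (A \ B).card + B.card := by exact_mod_cast h3.symm
  have h6 : (0 : ℝ) ≤ ((A \ B).card : ℝ) := Nat.cast_nonneg _
  rw [h5] at h1
  rw [abs_le] at h1 ⊢
  constructor <;> linarith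

/-- size of one set -/
theorem Cnt.card (hC : Cnt n mu w L m0 e) (hz : (m0 : ℝ) * (4 * L + 5) ≤ e * n)
    (hm : 1 ≤ m0) (D : Finset Sq9) (G : State N → ℕ → Prop) (q : ℝ) (hD : DepOn D G)
    (hq : ∀ p, p + 2 ^ N + 2 < L → Pr mu (fun v => G v p) = q) :
    |((Cf.pset (n := n) w L G).card : ℝ) - n * q| ≤ 2 * e * n := by
  classical
  have h := hC.pset hz (m := 1) hm (fun _ => D) (fun _ => true) (fun _ => 0) (fun _ => G)
    (fun _ => q) (fun _ => hD) (fun _ => hq) (fun i j hij => absurd (Subsingleton.elim i j) hij)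
  have h2 : (univ.filter fun x : ZMod n => ∀ i : Fin 1, CF.pt true 0 x ∈ Cf.pset w L G) =
      Cf.pset w L G := by
    ext x
    simp only [Finset.mem_filter, Finset.mem_univ, true_and, CF.pt, if_true, add_zero]
    exact ⟨fun h => h 0, fun h _ => h⟩
  simp only [Finset.univ_unique, Finset.prod_const, Finset.card_singleton, pow_one] at h
  rw [h2] at h
  exact h

/-- two sets, same sign -/
theorem Cnt.pair (hC : Cnt n mu w L m0 e) (hz : (m0 : ℝ) * (4 * L + 5) ≤ e * n)
    (hm : 2 ≤ m0) (D D' : Finset Sq9) (G G' : State N → ℕ → Prop) (q q' : ℝ) (hD : DepOn D G)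
    (hD' : DepOn D' G') (hq : ∀ p, p + 2 ^ N + 2 < L → Pr mu (fun v => G v p) = q)
    (hq' : ∀ p, p + 2 ^ N + 2 < L → Pr mu (fun v => G' v p) = q') (a : ZMod n)
    (hd : ¬ Disjoint D D' → L ≤ CF.cd a) :
    |(((Cf.pset (n := n) w L G).filter fun x => x + a ∈ Cf.pset w L G').card : ℝ) -
      n * (q * q')| ≤ 2 * e * n := by
  classical
  have hcd : ∀ b : ZMod n, CF.cd (-b) = CF.cd b := fun b => by
    unfold CF.cd
    rw [neg_neg, min_comm]
  have h := hC.pset hz (m := 2) hm ![D, D'] ![true, true] ![0, a] ![G, G'] ![q, q']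
    (fun i => by fin_cases i <;> assumption) (fun i => by fin_cases i <;> assumption) (by
      intro i j hij _ hdis
      fin_cases i <;> fin_cases j
      · exact absurd rfl hij
      · have h3 := hd hdis
        have h4 : (![0, a] : Fin 2 → ZMod n) 0 - (![0, a] : Fin 2 → ZMod n) 1 = -a := by simp
        change L ≤ CF.cd ((![0, a] : Fin 2 → ZMod n) 0 - (![0, a] : Fin 2 → ZMod n) 1)
        rw [h4, hcd]
        exact h3
      · have h3 := hd (fun h => hdis h.symm)
        have h4 : (![0, a] : Fin 2 → ZMod n) 1 - (![0, a] : Fin 2 → ZMod n) 0 = a := by simp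
        change L ≤ CF.cd ((![0, a] : Fin 2 → ZMod n) 1 - (![0, a] : Fin 2 → ZMod n) 0)
        rw [h4]
        exact h3
      · exact absurd rfl hij)
  have h2 : (univ.filter fun x : ZMod n => ∀ i : Fin 2, CF.pt ((![true, true] : Fin 2 → Bool) i)
      ((![0, a] : Fin 2 → ZMod n) i) x ∈ Cf.pset w L ((![G, G'] : Fin 2 → _) i)) =
      (Cf.pset w L G).filter fun x => x + a ∈ Cf.pset w L G' := by
    ext x
    simp only [Finset.mem_filter, Finset.mem_univ, true_and]
    rw [Fin.forall_fin_two]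
    simp [CF.pt]
  rw [h2, Fin.prod_univ_two] at h
  simpa using h

/-- two sets, opposite sign -/
theorem Cnt.opp (hC : Cnt n mu w L m0 e) (hz : (m0 : ℝ) * (4 * L + 5) ≤ e * n)
    (hm : 2 ≤ m0) (D D' : Finset Sq9) (G G' : State N → ℕ → Prop) (q q' : ℝ) (hD : DepOn D G)
    (hD' : DepOn D' G') (hq : ∀ p, p + 2 ^ N + 2 < L → Pr mu (fun v => G v p) = q)
    (hq' : ∀ p, p + 2 ^ N + 2 < L → Pr mu (fun v => G' v p) = q') (a : ZMod n) :
    |(((Cf.pset (n := n) w L G).filter fun x => a - x ∈ Cf.pset w L G').card : ℝ) -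
      n * (q * q')| ≤ 2 * e * n := by
  classical
  have h := hC.pset hz (m := 2) hm ![D, D'] ![true, false] ![0, a] ![G, G'] ![q, q']
    (fun i => by fin_cases i <;> assumption) (fun i => by fin_cases i <;> assumption) (by
      intro i j hij hs _
      fin_cases i <;> fin_cases j
      · exact absurd rfl hij
      · exact absurd hs (by simp)
      · exact absurd hs (by simp)
      · exact absurd rfl hij)
  have h2 : (univ.filter fun x : ZMod n => ∀ i : Fin 2, CF.pt ((![true, false] : Fin 2 → Bool) i)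
      ((![0, a] : Fin 2 → ZMod n) i) x ∈ Cf.pset w L ((![G, G'] : Fin 2 → _) i)) =
      (Cf.pset w L G).filter fun x => a - x ∈ Cf.pset w L G' := by
    ext x
    simp only [Finset.mem_filter, Finset.mem_univ, true_and]
    rw [Fin.forall_fin_two]
    simp [CF.pt]
  rw [h2, Fin.prod_univ_two] at h
  simpa using h

theorem cd_le_sum (a b : ZMod n) : CF.cd (a + b) ≤ CF.cd a + CF.cd b := by
  have key : ∀ x : ZMod n, ∀ m : ℕ, CF.cd x ≤ m ↔ ∃ j : ℤ, |j| ≤ m ∧ ((j : ℤ) : ZMod n) = x := by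
    intro x m
    constructor
    · intro h
      unfold CF.cd at h
      rw [min_le_iff] at h
      rcases h with h | h
      · refine ⟨(x.val : ℤ), ?_, ?_⟩
        · rw [abs_of_nonneg (by positivity)]
          exact_mod_cast h
        · rw [Int.cast_natCast]
          exact ZMod.natCast_zmod_val x
      · refine ⟨-((-x).val : ℤ), ?_, ?_⟩
        · rw [abs_neg, abs_of_nonneg (by positivity)]
          exact_mod_cast h
        · rw [Int.cast_neg, Int.cast_natCast, ZMod.natCast_zmod_val, neg_neg]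
    · rintro ⟨j, h1, h2⟩
      unfold CF.cd
      have hle : ∀ k : ℕ, ((k : ℕ) : ZMod n).val ≤ k := fun k => by
        rw [ZMod.val_natCast]; exact Nat.mod_le _ _
      rcases le_total 0 j with h3 | h3
      · lift j to ℕ using h3
        rw [abs_of_nonneg (by positivity)] at h1
        refine le_trans (min_le_left _ _) ?_
        rw [← h2, Int.cast_natCast]
        exact le_trans (hle j) (by exact_mod_cast h1)
      · obtain ⟨k, rfl⟩ : ∃ k : ℕ, j = -(k : ℤ) := ⟨j.natAbs, by omega⟩
        rw [abs_neg, abs_of_nonneg (by positivity)] at h1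
        refine le_trans (min_le_right _ _) ?_
        rw [← h2, Int.cast_neg, Int.cast_natCast, neg_neg]
        exact le_trans (hle k) (by exact_mod_cast h1)
  rw [key]
  obtain ⟨j, h1, h2⟩ := (key a _).1 le_rfl
  obtain ⟨k, h3, h4⟩ := (key b _).1 le_rfl
  refine ⟨j + k, ?_, by rw [Int.cast_add, h2, h4]⟩
  push_cast
  exact le_trans (abs_add_le j k) (add_le_add h1 h3)

theorem cd_neg (b : ZMod n) : CF.cd (-b) = CF.cd b := by
  unfold CF.cd
  rw [neg_neg, min_comm]

theorem cd_nat (k : ℕ) : CF.cd ((k : ℕ) : ZMod n) ≤ k := by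
  unfold CF.cd
  refine le_trans (min_le_left _ _) ?_
  rw [ZMod.val_natCast]
  exact Nat.mod_le _ _

/-- far from 0 up to a small shift -/
theorem cd_shift {a b : ZMod n} {k M : ℕ} (h : M + k ≤ CF.cd a) (hb : CF.cd (b - a) ≤ k) :
    M ≤ CF.cd b := by
  have h1 := cd_le_sum b (-(b - a))
  have h2 : b + -(b - a) = a := by abel
  rw [h2, cd_neg] at h1
  omega

open Classical in
theorem card_near (L : ℕ) : (univ.filter fun x : ZMod n => CF.cd x < L).card ≤ 2 * L := by
  have h1 : (univ.filter fun x : ZMod n => CF.cd x < L) ⊆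
      (range L).image (fun i : ℕ => (i : ZMod n)) ∪
        (range L).image (fun i : ℕ => -(i : ZMod n)) := by
    intro x hx
    have h2 : CF.cd x < L := (Finset.mem_filter.1 hx).2
    unfold CF.cd at h2
    rw [min_lt_iff] at h2
    rcases h2 with h2 | h2
    · exact Finset.mem_union_left _ (Finset.mem_image.2 ⟨x.val, Finset.mem_range.2 h2,
        ZMod.natCast_zmod_val x⟩)
    · exact Finset.mem_union_right _ (Finset.mem_image.2 ⟨(-x).val, Finset.mem_range.2 h2, by
        rw [ZMod.natCast_zmod_val, neg_neg]⟩)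
  refine le_trans (Finset.card_le_card h1) (le_trans (Finset.card_union_le _ _) ?_)
  have h6 : ((range L).image (fun i : ℕ => (i : ZMod n))).card ≤ L :=
    le_trans Finset.card_image_le (by rw [Finset.card_range])
  have h7 : ((range L).image (fun i : ℕ => -(i : ZMod n))).card ≤ L :=
    le_trans Finset.card_image_le (by rw [Finset.card_range])
  omega

/-- small autocorrelation defect -/
theorem Cnt.aut (hC : Cnt n mu w L m0 e) (hz : (m0 : ℝ) * (4 * L + 5) ≤ e * n)
    (hm : 2 ≤ m0) (D : Finset Sq9) (G : State N → ℕ → Prop) (q : ℝ) (hD : DepOn D G)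
    (hq : ∀ p, p + 2 ^ N + 2 < L → Pr mu (fun v => G v p) = q) (hq0 : 0 ≤ q) (hq1 : q ≤ 1)
    {θ : ℝ} (he : 12 * e ≤ θ) (he0 : 0 ≤ e) (hn : 4 * (L : ℝ) ≤ θ * n) :
    Aut θ (Cf.pset (n := n) w L G) := by
  classical
  have hnp := nR_pos (n := n)
  have h1 := hC.card hz (by omega) D G q hD hq
  set A := Cf.pset (n := n) w L G with hA
  have hAn : (A.card : ℝ) ≤ n := by
    rw [← card_zmod (n := n)]
    exact_mod_cast Finset.card_le_univ _
  have hA0 : (0 : ℝ) ≤ A.card := Nat.cast_nonneg _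
  have h2 : |(A.card : ℝ) ^ 2 / n - n * (q * q)| ≤ 4 * e * n := by
    have h3 : (A.card : ℝ) ^ 2 / n - n * (q * q) = (A.card - n * q) * ((A.card + n * q) / n) := by
      field_simp
      ring
    rw [h3, abs_mul]
    have h4 : |((A.card : ℝ) + n * q) / n| ≤ 2 := by
      rw [abs_of_nonneg (by positivity), div_le_iff₀ hnp]
      nlinarith
    calc |(A.card : ℝ) - n * q| * |((A.card : ℝ) + n * q) / n| ≤ (2 * e * n) * 2 :=
          mul_le_mul h1 h4 (abs_nonneg _) (by positivity)
      _ = 4 * e * n := by ring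
  unfold Aut
  have h3 : ∀ s : ZMod n, |((A.filter fun x => x + s ∈ A).card : ℝ) - (A.card : ℝ) ^ 2 / n| ≤
      6 * e * n + (if CF.cd s < L then (n : ℝ) else 0) := by
    intro s
    by_cases hs : CF.cd s < L
    · rw [if_pos hs]
      have h4 : ((A.filter fun x => x + s ∈ A).card : ℝ) ≤ A.card := by
        exact_mod_cast Finset.card_filter_le _ _
      have h5 : (A.card : ℝ) ^ 2 / n ≤ n := by
        rw [div_le_iff₀ hnp]
        nlinarith
      have h6 : 0 ≤ (A.card : ℝ) ^ 2 / n := by positivity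
      have h7 : (0 : ℝ) ≤ ((A.filter fun x => x + s ∈ A).card : ℝ) := Nat.cast_nonneg _
      have h8 : 0 ≤ 6 * e * n := by positivity
      rw [abs_le]
      constructor <;> linarith
    · rw [if_neg hs, add_zero]
      have h4 := hC.pair hz hm D D G G q q hD hD hq hq s (fun _ => not_lt.1 hs)
      have h5 := abs_sub_le ((A.filter fun x => x + s ∈ A).card : ℝ) (n * (q * q))
        ((A.card : ℝ) ^ 2 / n)
      rw [abs_sub_comm (n * (q * q) : ℝ)] at h5
      linarith
  refine le_trans (Finset.sum_le_sum fun s _ => h3 s) ?_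
  rw [Finset.sum_add_distrib, Finset.sum_const, Finset.card_univ, nsmul_eq_mul, card_zmod,
    ← Finset.sum_filter, Finset.sum_const, nsmul_eq_mul]
  have h4 : (((univ.filter fun x : ZMod n => CF.cd x < L).card : ℕ) : ℝ) * n ≤ 2 * L * n := by
    refine mul_le_mul_of_nonneg_right ?_ hnp.le
    exact_mod_cast card_near (n := n) L
  have h5 : (n : ℝ) * (6 * e * n) ≤ θ / 2 * (n : ℝ) ^ 2 := by nlinarith
  have h6 : 2 * (L : ℝ) * n ≤ θ / 2 * (n : ℝ) ^ 2 := by nlinarith
  linarith

end

end Pool.Agent.Lib.MP_c5b475_co.KN.Cf
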