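import Pool.Agent.Lib.MP_c5b475_co.KN.CfN

/-!
# KN/CfP: the coordinates of the patterns, the context of the configuration theorem
-/

set_option autoImplicit false
set_option linter.unusedSectionVars false

namespace Pool.Agent.Lib.MP_c5b475_co.KN.Cf

open Finset

variable {N : ℕ}

theorem act_congr {s s' : State N} {i : Fin N} {k : Kd5} (h1 : s Sq9.H = s' Sq9.H)
    (h2 : s (Sq9.M k.sd) = s' (Sq9.M k.sd)) (h3 : s (Sq9.C false) = s' (Sq9.C false))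
    (h4 : s (Sq9.C true) = s' (Sq9.C true)) : act s i k ↔ act s' i k := by
  unfold act
  rw [h1, h2, h3, h4]

theorem par_congr {s s' : State N} {L : ℕ} {d : Bool} {p : ℕ} (h : s Sq9.bit = s' Sq9.bit) :
    par L d s p ↔ par L d s' p := by
  unfold par
  rw [h]

/-- coordinates of `gS` -/
def DS (k : Kd5) : Finset Sq9 := {.H, .M k.sd, .C false, .C true, .T k.sd, .bit}

/-- coordinates of `gR` -/
def DR (k : Kd5) : Finset Sq9 := {.M k.sd, .bit}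

/-- coordinates of `gY` -/
def DY (k : Kd5) : Finset Sq9 := {.H, .M k.sd, .C false, .C true}

/-- coordinates of `gQ` -/
def DQ : Finset Sq9 := {.H, .M false, .M true, .C false, .C true, .TC, .bit}

/-- coordinates of `gQ0` -/
def DQ0 : Finset Sq9 := {.H, .C false, .C true, .TC, .bit}

theorem dep_gS (dm : Bool) (L : ℕ) (k : Kd5) : DepOn (N := N) (DS k) (gS dm L k) := by
  intro s s' p h hs
  obtain ⟨h1, h2, h3, h4⟩ := hs
  have e1 := h .H (by simp [DS])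
  have e2 := h (.M k.sd) (by simp [DS])
  have e3 := h (.C false) (by simp [DS])
  have e4 := h (.C true) (by simp [DS])
  have e5 := h (.T k.sd) (by simp [DS])
  have e6 := h .bit (by simp [DS])
  refine ⟨by rw [← e2]; exact h1, fun i k' hk ha => h2 i k' hk ?_, by rw [← e5]; exact h3,
    (par_congr e6).1 h4⟩
  exact (act_congr e1 (by rw [hk]; exact e2) e3 e4).2 ha

theorem dep_gR (dm : Bool) (L : ℕ) (k : Kd5) : DepOn (N := N) (DR k) (gR dm L k) := by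
  intro s s' p h hs
  obtain ⟨h1, h2⟩ := hs
  have e2 := h (.M k.sd) (by simp [DR])
  have e6 := h .bit (by simp [DR])
  exact ⟨by rw [← e2]; exact h1, (par_congr e6).1 h2⟩

theorem dep_gY (L : ℕ) (i : Fin N) (k : Kd5) : DepOn (N := N) (DY k) (gY L i k) := by
  intro s s' p h hs
  obtain ⟨h1, h2⟩ := hs
  have e1 := h .H (by simp [DY])
  have e2 := h (.M k.sd) (by simp [DY])
  have e3 := h (.C false) (by simp [DY])
  have e4 := h (.C true) (by simp [DY])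
  exact ⟨(act_congr e1 e2 e3 e4).1 h1, h2⟩

theorem dep_gres (sd : Bool) (j : Fin 4) : DepOn (N := N) {.M sd} (gres sd j) := by
  intro s s' p h hs
  have e1 := h (.M sd) (by simp)
  unfold gres at hs ⊢
  rw [← e1]
  exact hs

theorem dep_gC (j : Bool) : DepOn (N := N) {.C j} (gC j) := by
  intro s s' p h hs
  have e1 := h (.C j) (by simp)
  unfold gC at hs ⊢
  rw [← e1]
  exact hs

theorem dep_gQ (dm : Bool) (L : ℕ) (j : Fin 4) : DepOn (N := N) DQ (gQ dm L j) := by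
  intro s s' p h hs
  obtain ⟨h1, h2, h3, h4, h5⟩ := hs
  have e1 := h .H (by simp [DQ])
  have e2 : ∀ k : Kd5, s (.M k.sd) = s' (.M k.sd) := fun k => h _ (by cases k.sd <;> simp [DQ])
  have e3 := h (.C false) (by simp [DQ])
  have e4 := h (.C true) (by simp [DQ])
  have e5 := h .TC (by simp [DQ])
  have e6 := h .bit (by simp [DQ])
  refine ⟨by rw [← e3]; exact h1, by rw [← e4]; exact h2, fun i k ha => h3 i k ?_,
    by rw [← e5]; exact h4, (par_congr e6).1 h5⟩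
  exact (act_congr e1 (e2 k) e3 e4).2 ha

theorem dep_gQ0 (dm : Bool) (L : ℕ) (j : Fin 4) : DepOn (N := N) DQ0 (gQ0 dm L j) := by
  intro s s' p h hs
  obtain ⟨h1, h2, h3, h4, h5⟩ := hs
  have e1 := h .H (by simp [DQ0])
  have e3 := h (.C false) (by simp [DQ0])
  have e4 := h (.C true) (by simp [DQ0])
  have e5 := h .TC (by simp [DQ0])
  have e6 := h .bit (by simp [DQ0])
  exact ⟨by rw [← e1]; exact h1, by rw [← e3]; exact h2, by rw [← e4]; exact h3,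
    by rw [← e5]; exact h4, (par_congr e6).1 h5⟩

/-- the smaller pattern -/
theorem gQ0_gQ {dm : Bool} {L : ℕ} {j : Fin 4} {s : State N} {p : ℕ} (h : gQ0 dm L j s p) :
    gQ dm L j s p := by
  obtain ⟨h1, h2, h3, h4, h5⟩ := h
  refine ⟨h2, h3, fun i k ha => ?_, h4, h5⟩
  have h6 := ha.1
  rw [h1] at h6
  simp [vh] at h6

theorem pset_gQ0 {n : ℕ} [NeZero n] {w : Sq9 → ℕ → Ty N} {dm : Bool} {L : ℕ} {j : Fin 4} :
    pset (n := n) w L (gQ0 dm L j) ⊆ pset w L (gQ dm L j) := by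
  intro x hx
  obtain ⟨h1, h2⟩ := mem_pset.1 hx
  exact mem_pset.2 ⟨h1, gQ0_gQ h2⟩

theorem disj_M_Q0 (sd : Bool) : Disjoint ({.M sd} : Finset Sq9) DQ0 := by
  unfold DQ0
  cases sd <;> decide

theorem disj_M_M : Disjoint ({.M true} : Finset Sq9) {.M false} := by decide

theorem disj_R_C (k : Kd5) (j : Bool) : Disjoint (DR k) ({.C j} : Finset Sq9) := by
  cases k <;> cases j <;> decide

theorem disj_C_C : Disjoint ({.C false} : Finset Sq9) {.C true} := by decide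

section prob

variable {mu : Sq9 → Ty N → ℝ}

theorem Pr_nonneg (h0 : ∀ k t, 0 ≤ mu k t) (G : State N → Prop) : 0 ≤ Pr mu G := by
  classical
  unfold Pr
  refine Finset.sum_nonneg fun v _ => ?_
  split_ifs
  · exact Finset.prod_nonneg fun j _ => h0 j _
  · exact le_rfl

theorem Pr_le_one (h0 : ∀ k t, 0 ≤ mu k t) (h1 : ∀ k, ∑ t, mu k t = 1) (G : State N → Prop) :
    Pr mu G ≤ 1 := by
  classical
  unfold Pr
  have h2 : ∑ v : State N, ∏ j, mu j (v j) = 1 := by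
    have h3 := Finset.prod_univ_sum (fun _ : Sq9 => (univ : Finset (Ty N))) mu
    rw [Fintype.piFinset_univ] at h3
    rw [← h3]
    exact Finset.prod_eq_one fun k _ => h1 k
  rw [← h2]
  refine Finset.sum_le_sum fun v _ => ?_
  split_ifs
  · exact le_rfl
  · exact Finset.prod_nonneg fun j _ => h0 j _

variable {D : Dens N} {dm : Bool} {L : ℕ}

theorem LawOK.S01 (h : LawOK mu D dm L) (hL : 2 ^ N + 2 < L) (k : Kd5) :
    0 ≤ D.dS k ∧ D.dS k ≤ 1 := by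
  rw [← h.pS k 0 (by omega)]
  exact ⟨Pr_nonneg h.nonneg _, Pr_le_one h.nonneg h.sum _⟩

theorem LawOK.R01 (h : LawOK mu D dm L) (hL : 2 ^ N + 2 < L) (k : Kd5) :
    0 ≤ D.dR k ∧ D.dR k ≤ 1 := by
  rw [← h.pR k 0 (by omega)]
  exact ⟨Pr_nonneg h.nonneg _, Pr_le_one h.nonneg h.sum _⟩

theorem LawOK.Y01 (h : LawOK mu D dm L) (hL : 2 ^ N + 2 < L) (i : Fin N) (k : Kd5) :
    0 ≤ D.dY i k ∧ D.dY i k ≤ 1 := by
  rw [← h.pY i k 0 (by omega)]
  exact ⟨Pr_nonneg h.nonneg _, Pr_le_one h.nonneg h.sum _⟩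

theorem LawOK.X01 (h : LawOK mu D dm L) : 0 ≤ D.dX ∧ D.dX ≤ 1 := by
  rw [← h.pX true 0 0]
  exact ⟨Pr_nonneg h.nonneg _, Pr_le_one h.nonneg h.sum _⟩

theorem LawOK.C01 (h : LawOK mu D dm L) : 0 ≤ D.dC ∧ D.dC ≤ 1 := by
  rw [← h.pC true 0]
  exact ⟨Pr_nonneg h.nonneg _, Pr_le_one h.nonneg h.sum _⟩

theorem LawOK.Q01 (h : LawOK mu D dm L) (hL : 2 ^ N + 2 < L) (j : Fin 4) :
    0 ≤ D.dQ j ∧ D.dQ j ≤ 1 := by
  rw [← h.pQ j 0 (by omega)]
  exact ⟨Pr_nonneg h.nonneg _, Pr_le_one h.nonneg h.sum _⟩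

theorem LawOK.Q001 (h : LawOK mu D dm L) (hL : 2 ^ N + 2 < L) (j : Fin 4) :
    0 ≤ D.dQ0 j ∧ D.dQ0 j ≤ 1 := by
  rw [← h.pQ0 j 0 (by omega)]
  exact ⟨Pr_nonneg h.nonneg _, Pr_le_one h.nonneg h.sum _⟩

end prob

/-- everything which is known about the random choice -/
structure Ctx {W : Type} [Fintype W] [DecidableEq W] (n : ℕ) [NeZero n] (dm : Bool)
    (X : KT W Kd5 Ps2) (Hub : Finset W) (hi : W → Fin N) (q : ℕ)
    (ρ ρR ρ1 ρC ρE ρH β τ μ δ e : ℝ) (L : ℕ) (mu : Sq9 → Ty N → ℝ) (D : Dens N)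
    (w : Sq9 → ℕ → Ty N) : Prop where
  det : Det n dm L X Hub hi
  cnt : Cnt n mu w L 5 e
  law : LawOK mu D dm L
  bud : Bud dm X Hub n q ρ ρR ρ1 ρC ρE ρH β τ
  hubk : ∀ h ∈ Hub, X.kd h = Kd5.A ∨ X.kd h = Kd5.B
  hubc : Hub.card ≤ N
  nclJ : μ * n ≤ (ncl X Hub Ps2.J : ℝ)
  dS : ∀ k, D.dS k = (nk X Hub k : ℝ) / n + β + δ
  dR : ∀ k, D.dR k = ρR + δ
  dX : D.dX = ρ + δ
  dC : D.dC = ρC / 2 + δ
  dQo : D.dQ 0 = (ncl X Hub Ps2.o : ℝ) / n + β + δ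
  dQJ : D.dQ 1 = (ncl X Hub Ps2.J : ℝ) / n + δ
  dQ1 : D.dQ 2 = ((q : ℝ) - ncl X Hub Ps2.J) / n + δ
  dQE : D.dQ 3 = ρE + δ
  dQ0 : ∀ j, ρH * D.dQ j ≤ D.dQ0 j
  dY : ∀ h ∈ Hub, ∀ k, Kd5.sd k ≠ X.side (X.kd h) →
    D.dY (hi h) k = (Cfg.nch X h k : ℝ) / n + δ
  ρ0 : 0 < ρ
  ρR0 : 0 < ρR
  ρ10 : 0 < ρ1
  ρC0 : 0 < ρC
  ρE0 : 0 < ρE
  ρH0 : 0 < ρH
  β0 : 0 < β
  τ0 : 0 < τ
  μ0 : 0 < μ
  βμ : β ≤ μ
  δ0 : 0 < δ
  e0 : 0 < e
  δτ : 100 * (N + 1) * δ ≤ τ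
  eδ : 10 * e ≤ δ
  zone : (5 : ℝ) * (4 * L + 5) ≤ e * n
  N1 : 1 ≤ N

end Pool.Agent.Lib.MP_c5b475_co.KN.Cf
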