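import Mathlib

/-!
# KN/CfPr: probabilities of events under a product law
-/

set_option autoImplicit false
set_option linter.unusedSectionVars false

namespace Pool.Agent.Lib.MP_c5b475_co.KN

open Finset

section pr

variable {ι T : Type} [Fintype ι] [DecidableEq ι] [Fintype T]

open Classical in
/-- probability of an event under a product law -/
noncomputable def pr (mu : ι → T → ℝ) (G : (ι → T) → Prop) : ℝ :=
  ∑ t : ι → T, if G t then ∏ k, mu k (t k) else 0

open Classical in
/-- mass of a set of values -/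
noncomputable def ms (m : T → ℝ) (A : T → Prop) : ℝ := ∑ v, if A v then m v else 0

theorem pr_box (mu : ι → T → ℝ) (A : ι → T → Prop) :
    pr mu (fun t => ∀ k, A k (t k)) = ∏ k, ms (mu k) (A k) := by
  classical
  unfold pr ms
  rw [Finset.prod_univ_sum, Fintype.piFinset_univ]
  refine sum_congr rfl fun t _ => ?_
  by_cases h : ∀ k, A k (t k)
  · rw [if_pos h]
    exact prod_congr rfl fun k _ => by rw [if_pos (h k)]
  · rw [if_neg h]
    push Not at h
    obtain ⟨k, hk⟩ := h
    exact (prod_eq_zero (mem_univ k) (by rw [if_neg hk])).symm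

theorem pr_congr (mu : ι → T → ℝ) {G G' : (ι → T) → Prop} (h : ∀ t, G t ↔ G' t) :
    pr mu G = pr mu G' := by
  have : G = G' := funext fun t => propext (h t)
  rw [this]

theorem pr_sdiff (mu : ι → T → ℝ) {G G' : (ι → T) → Prop} (h : ∀ t, G' t → G t) :
    pr mu (fun t => G t ∧ ¬ G' t) = pr mu G - pr mu G' := by
  classical
  unfold pr
  rw [← sum_sub_distrib]
  refine sum_congr rfl fun t _ => ?_
  by_cases h1 : G' t
  · have h2 := h t h1
    simp [h1, h2]
  · by_cases h2 : G t <;> simp [h1, h2]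

theorem pr_mono (mu : ι → T → ℝ) (h0 : ∀ k t, 0 ≤ mu k t) {G G' : (ι → T) → Prop}
    (h : ∀ t, G' t → G t) : pr mu G' ≤ pr mu G := by
  classical
  unfold pr
  refine sum_le_sum fun t _ => ?_
  have hp : 0 ≤ ∏ k, mu k (t k) := prod_nonneg fun k _ => h0 _ _
  by_cases h1 : G' t
  · rw [if_pos h1, if_pos (h t h1)]
  · rw [if_neg h1]
    split_ifs
    · exact hp
    · exact le_refl _

theorem ms_true (m : T → ℝ) : ms m (fun _ => True) = ∑ v, m v := by
  simp [ms]

theorem ms_congr (m : T → ℝ) {A A' : T → Prop} (h : ∀ v, A v ↔ A' v) : ms m A = ms m A' := by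
  have : A = A' := funext fun t => propext (h t)
  rw [this]

theorem ms_eq (m : T → ℝ) (v : T) : ms m (fun w => w = v) = m v := by
  classical
  unfold ms
  rw [sum_eq_single v (fun w _ hw => if_neg hw) (fun h => absurd (mem_univ v) h), if_pos rfl]

end pr

section opt

variable {ι V : Type} [Fintype ι] [DecidableEq ι] [Fintype V]

/-- a sub-probability, completed by `none` -/
noncomputable def cpl (ν : ι → V → ℝ) (k : ι) (o : Option V) : ℝ :=
  o.elim (1 - ∑ v, ν k v) (ν k)

theorem cpl_sum (ν : ι → V → ℝ) (k : ι) : ∑ o, cpl ν k o = 1 := by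
  rw [Fintype.sum_option]
  simp [cpl]

theorem cpl_nonneg (ν : ι → V → ℝ) (h0 : ∀ k v, 0 ≤ ν k v) (h1 : ∀ k, ∑ v, ν k v ≤ 1) (k : ι)
    (o : Option V) : 0 ≤ cpl ν k o := by
  cases o with
  | none => simp only [cpl, Option.elim_none]; linarith [h1 k]
  | some v => exact h0 k v

theorem ms_none (ν : ι → V → ℝ) (k : ι) :
    ms (cpl ν k) (fun o => o = none) = 1 - ∑ v, ν k v := by
  classical
  rw [ms_eq]
  rfl

theorem ms_some (ν : ι → V → ℝ) (k : ι) (v : V) :
    ms (cpl ν k) (fun o => o = some v) = ν k v := by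
  classical
  rw [ms_eq]
  rfl

end opt

end Pool.Agent.Lib.MP_c5b475_co.KN
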