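import Pool.Agent.Lib.MP_c5b475_co.KN.CfD

/-!
# KN/CfS: the configuration, deterministic fields
-/

set_option autoImplicit false
set_option linter.unusedSectionVars false

namespace Pool.Agent.Lib.MP_c5b475_co.KN.Cf

open Finset

variable {N n : ℕ} [NeZero n]

section arith

variable {w : Sq9 → ℕ → Ty N} {L : ℕ}

theorem mem_pset {G : State N → ℕ → Prop} {x : ZMod n} :
    x ∈ pset w L G ↔ Zn L x ∧ G (sta w L x) (x.val % L) := by
  unfold pset
  simp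

theorem Zn.lt {x : ZMod n} (h : Zn L x) : 2 * L + 2 < x.val ∧ x.val + (2 * L + 2) < n := by
  unfold Zn CF.cd at h
  have h1 : 2 * L + 2 < x.val := lt_of_lt_of_le h (min_le_left _ _)
  have h2 : 2 * L + 2 < (-x).val := lt_of_lt_of_le h (min_le_right _ _)
  have hx : x ≠ 0 := by
    rintro rfl
    simp at h1
  have : NeZero x := ⟨hx⟩
  rw [ZMod.val_neg_of_ne_zero] at h2
  have h3 := ZMod.val_lt x
  exact ⟨h1, by omega⟩

theorem Zn_of {x : ZMod n} (h1 : 2 * L + 2 < x.val) (h2 : x.val + (2 * L + 2) < n) : Zn L x := by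
  unfold Zn CF.cd
  have hx : x ≠ 0 := by
    rintro rfl
    simp at h1
  have : NeZero x := ⟨hx⟩
  rw [ZMod.val_neg_of_ne_zero]
  exact lt_min h1 (by omega)

theorem val_add_nat {x : ZMod n} {a : ℕ} (h : x.val + a < n) :
    (x + (a : ZMod n)).val = x.val + a := by
  have ha : (a : ZMod n).val = a := by
    rw [ZMod.val_natCast]
    exact Nat.mod_eq_of_lt (by omega)
  rw [ZMod.val_add_of_lt (by rw [ha]; exact h), ha]

/-- a small step inside a block -/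
theorem sta_add {x : ZMod n} {a : ℕ} (hz : Zn L x) (ha : x.val % L + a < L) :
    sta w L (x + (a : ZMod n)) = sta w L x ∧ (x + (a : ZMod n)).val = x.val + a ∧
      (x + (a : ZMod n)).val % L = x.val % L + a := by
  obtain ⟨h1, h2⟩ := hz.lt
  have h3 : (x + (a : ZMod n)).val = x.val + a := val_add_nat (by omega)
  have hL : 0 < L := by omega
  have h4 : (x.val + a) / L = x.val / L := by
    have h5 := Nat.div_add_mod x.val L
    have h6 : x.val + a = (x.val % L + a) + L * (x.val / L) := by omega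
    rw [h6, Nat.add_mul_div_left _ _ hL, Nat.div_eq_of_lt ha, zero_add]
  have h7 : (x.val + a) % L = x.val % L + a := by
    have h5 := Nat.div_add_mod x.val L
    have h6 : x.val + a = (x.val % L + a) + L * (x.val / L) := by omega
    rw [h6, Nat.add_mul_mod_self_left, Nat.mod_eq_of_lt ha]
  refine ⟨?_, h3, by rw [h3, h7]⟩
  unfold sta
  rw [h3, h4]

theorem vk_ne_none (k : Kd5) : (vk k : Ty N) ≠ none := by simp [vk]

theorem vj_ne_none (j : Fin 4) : (vj j : Ty N) ≠ none := by simp [vj]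

theorem vk_inj {k k' : Kd5} (h : (vk k : Ty N) = vk k') : k = k' := by
  simpa [vk] using h

theorem vj_inj {k k' : Fin 4} (h : (vj k : Ty N) = vj k') : k = k' := by
  simpa [vj] using h

theorem vk_ne_vj (k : Kd5) (j : Fin 4) : (vk k : Ty N) ≠ vj j := by simp [vk, vj]

theorem vh_inj {i i' : Fin N} {k k' : Kd5} (h : (vh i k : Ty N) = vh i' k') : i = i' ∧ k = k' := by
  simpa [vh] using h

theorem act_inj {s : State N} {i i' : Fin N} {k k' : Kd5} (h : act s i k) (h' : act s i' k') :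
    i = i' ∧ k = k' := vh_inj (h.1.symm.trans h'.1)

end arith

section cfg

variable {W : Type} [Fintype W] [DecidableEq W]

/-- the configuration -/
noncomputable def cfg (n : ℕ) [NeZero n] (dm : Bool) (w : Sq9 → ℕ → Ty N) (L : ℕ)
    (X : KT W Kd5 Ps2) (Hub : Finset W) (hi : W → Fin N) : Cfg n W Kd5 Ps2 where
  S k := pset w L (gS dm L k)
  R k := pset w L (gR dm L k)
  RC := pset w L gRC
  Q a := match a with
    | .o => pset w L (gQ dm L 0)
    | .J => pset w L (gQ dm L 1)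
  Hub := Hub
  lh h := ((2 ^ (hi h : ℕ) : ℕ) : ZMod n)
  Y h k := if k.sd ≠ X.side (X.kd h) then pset w L (gY L (hi h) k) else ∅

/-- hypotheses for the deterministic fields -/
structure Det (n : ℕ) (dm : Bool) (L : ℕ) (X : KT W Kd5 Ps2) (Hub : Finset W) (hi : W → Fin N) :
    Prop where
  std : Std dm X
  inj : ∀ h ∈ Hub, ∀ h' ∈ Hub, hi h = hi h' → h = h'
  big : 2 ^ N + 2 < L
  lrg : 6 * L + 8 < n

variable {dm : Bool} {w : Sq9 → ℕ → Ty N} {L : ℕ} {X : KT W Kd5 Ps2} {Hub : Finset W}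
  {hi : W → Fin N}

theorem Det.pow_lt (H : Det n dm L X Hub hi) (i : Fin N) : 2 ^ (i : ℕ) * 2 ≤ 2 ^ N := by
  rw [← pow_succ]
  exact Nat.pow_le_pow_right (by norm_num) i.2

theorem Det.lh_val (H : Det n dm L X Hub hi) (i : Fin N) :
    (((2 ^ (i : ℕ) : ℕ) : ZMod n)).val = 2 ^ (i : ℕ) := by
  have h1 := H.pow_lt i
  have h2 := H.big
  have h3 := H.lrg
  rw [ZMod.val_natCast]
  exact Nat.mod_eq_of_lt (by omega)

theorem Det.not_zn_lh (H : Det n dm L X Hub hi) (i : Fin N) :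
    ¬ Zn L (((2 ^ (i : ℕ) : ℕ) : ZMod n)) := by
  intro h
  have h1 := h.lt.1
  rw [H.lh_val] at h1
  have h2 := H.pow_lt i
  have h3 := H.big
  omega

theorem Det.lh2_val (H : Det n dm L X Hub hi) (i j : Fin N) :
    (((2 ^ (i : ℕ) : ℕ) : ZMod n) + ((2 ^ (j : ℕ) : ℕ) : ZMod n)).val =
      2 ^ (i : ℕ) + 2 ^ (j : ℕ) := by
  have h1 := H.pow_lt i
  have h1' := H.pow_lt j
  have h2 := H.big
  have h3 := H.lrg
  rw [← Nat.cast_add, ZMod.val_natCast]
  exact Nat.mod_eq_of_lt (by omega)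

theorem Det.not_zn_lh2 (H : Det n dm L X Hub hi) (i j : Fin N) :
    ¬ Zn L (((2 ^ (i : ℕ) : ℕ) : ZMod n) + ((2 ^ (j : ℕ) : ℕ) : ZMod n)) := by
  intro h
  have h1 := h.lt.1
  rw [H.lh2_val] at h1
  have h2 := H.pow_lt i
  have h4 := H.pow_lt j
  have h3 := H.big
  omega

/-- the colour of a child of a hub lies in the block of its label -/
theorem Det.hubcol (H : Det n dm L X Hub hi) {i : Fin N} {k : Kd5} {y : ZMod n}
    (hy : y ∈ pset w L (gY L i k)) :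
    act (sta w L (((2 ^ (i : ℕ) : ℕ) : ZMod n) + y)) i k ∧
      2 * L + 2 < (((2 ^ (i : ℕ) : ℕ) : ZMod n) + y).val := by
  obtain ⟨hz, ha, hp⟩ := mem_pset.1 hy
  obtain ⟨h1, h2, h3⟩ := sta_add (w := w) hz hp
  rw [add_comm, h1]
  refine ⟨ha, ?_⟩
  rw [h2]
  exact lt_of_lt_of_le hz.lt.1 (Nat.le_add_right _ _)

theorem Det.hubcol_out (H : Det n dm L X Hub hi) {i : Fin N} {k : Kd5} {y : ZMod n}
    (hy : y ∈ pset w L (gY L i k)) :
    (((2 ^ (i : ℕ) : ℕ) : ZMod n) + y) ∉ pset w L (gRC (N := N)) ∧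
      ∀ j, (((2 ^ (i : ℕ) : ℕ) : ZMod n) + y) ∉ pset w L (gQ dm L j) := by
  obtain ⟨ha, _⟩ := H.hubcol hy
  constructor
  · intro h
    obtain ⟨_, h2⟩ := mem_pset.1 h
    rcases h2 with h2 | h2
    · exact h2 ha.2.2.1
    · exact h2 ha.2.2.2
  · intro j h
    obtain ⟨_, _, _, h3, _⟩ := mem_pset.1 h
    exact h3 _ _ ha

theorem cfgQ (a : Ps2) : ∃ j : Fin 4, (cfg n dm w L X Hub hi).Q a = pset w L (gQ dm L j) := by
  cases a
  · exact ⟨0, rfl⟩
  · exact ⟨1, rfl⟩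

theorem mem_Y {h : W} {k : Kd5} {y : ZMod n} (hy : y ∈ (cfg n dm w L X Hub hi).Y h k) :
    k.sd ≠ X.side (X.kd h) ∧ y ∈ pset w L (gY L (hi h) k) := by
  unfold cfg at hy
  simp only at hy
  split_ifs at hy with h1
  · exact ⟨h1, hy⟩
  · simp at hy

/-- hub labels and hub-hub colours are in the zone -/
theorem zn_of_pset {G : State N → ℕ → Prop} {x : ZMod n} (h : x ∈ pset w L G) : Zn L x :=
  (mem_pset.1 h).1

theorem cfg_SS {k k' : Kd5} (hs : k.sd = k'.sd) (hk : k ≠ k') :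
    Disjoint ((cfg n dm w L X Hub hi).S k) ((cfg n dm w L X Hub hi).S k') := by
  rw [Finset.disjoint_left]
  intro x h1 h2
  obtain ⟨_, _, _, h3, _⟩ := mem_pset.1 h1
  obtain ⟨_, _, _, h4, _⟩ := mem_pset.1 h2
  rw [hs, h4] at h3
  exact hk (vk_inj h3).symm

theorem cfg_SR {k k' : Kd5} (hs : k.sd = k'.sd) :
    Disjoint ((cfg n dm w L X Hub hi).S k) ((cfg n dm w L X Hub hi).R k') := by
  rw [Finset.disjoint_left]
  intro x h1 h2
  obtain ⟨_, h3, _⟩ := mem_pset.1 h1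
  obtain ⟨_, h4, _⟩ := mem_pset.1 h2
  rw [hs, h4] at h3
  exact vk_ne_none _ h3

theorem cfg_SY {k : Kd5} {h : W} {k' : Kd5} (hs : k.sd = k'.sd) :
    Disjoint ((cfg n dm w L X Hub hi).S k) ((cfg n dm w L X Hub hi).Y h k') := by
  rw [Finset.disjoint_left]
  intro x h1 h2
  obtain ⟨_, _, h3, _⟩ := mem_pset.1 h1
  obtain ⟨_, h4, _⟩ := mem_pset.1 (mem_Y h2).2
  exact h3 _ _ hs.symm h4

theorem cfg_RY {k : Kd5} {h : W} {k' : Kd5} (hs : k.sd = k'.sd) :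
    Disjoint ((cfg n dm w L X Hub hi).R k) ((cfg n dm w L X Hub hi).Y h k') := by
  rw [Finset.disjoint_left]
  intro x h1 h2
  obtain ⟨_, h3, _⟩ := mem_pset.1 h1
  obtain ⟨_, h4, _⟩ := mem_pset.1 (mem_Y h2).2
  rw [hs] at h3
  exact vk_ne_none _ (h3.symm.trans h4.2.1)

theorem cfg_YY (hinj : ∀ h ∈ Hub, ∀ h' ∈ Hub, hi h = hi h' → h = h') {h h' : W} (hh : h ∈ Hub)
    (hh' : h' ∈ Hub) {k k' : Kd5} (hk : (h, k) ≠ (h', k')) :
    Disjoint ((cfg n dm w L X Hub hi).Y h k) ((cfg n dm w L X Hub hi).Y h' k') := by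
  rw [Finset.disjoint_left]
  intro x h1 h2
  obtain ⟨_, h3, _⟩ := mem_pset.1 (mem_Y h1).2
  obtain ⟨_, h4, _⟩ := mem_pset.1 (mem_Y h2).2
  obtain ⟨h5, h6⟩ := act_inj h3 h4
  exact hk (by rw [hinj h hh h' hh' h5, h6])

theorem Det.lh_out (H : Det n dm L X Hub hi) (i : Fin N) (G : State N → ℕ → Prop) :
    ((2 ^ (i : ℕ) : ℕ) : ZMod n) ∉ pset w L G := fun h => H.not_zn_lh i (zn_of_pset h)

theorem Det.lh_out_Y (H : Det n dm L X Hub hi) (i : Fin N) (h : W) (k : Kd5) :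
    ((2 ^ (i : ℕ) : ℕ) : ZMod n) ∉ (cfg n dm w L X Hub hi).Y h k :=
  fun h' => H.not_zn_lh i (zn_of_pset (mem_Y h').2)

/-- a start of a domino: the second element is in no other set -/
theorem dom_step {k : Kd5} (hk : Kd5.dm dm k = true) {x : ZMod n}
    (hx : x ∈ pset w L (gS dm L k) ∨ x ∈ pset w L (gR dm L k)) :
    Zn L x ∧ sta w L (x + 1) = sta w L x ∧ (x + 1).val = x.val + 1 ∧
      (x + 1).val % L = x.val % L + 1 ∧
      (x.val % L) % 2 = (if sta w L x Sq9.bit = none then 0 else 1) := by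
  have h : Zn L x ∧ par L (Kd5.dm dm k) (sta w L x) (x.val % L) := by
    rcases hx with hx | hx
    · obtain ⟨h1, _, _, _, h2⟩ := mem_pset.1 hx
      exact ⟨h1, h2⟩
    · obtain ⟨h1, _, h2⟩ := mem_pset.1 hx
      exact ⟨h1, h2⟩
  obtain ⟨h1, h2⟩ := h
  obtain ⟨h3, h4⟩ := h2 hk
  obtain ⟨h5, h6, h7⟩ := sta_add (w := w) (a := 1) h1 h4
  rw [Nat.cast_one] at h5 h6 h7
  exact ⟨h1, h5, h6, h7, h3⟩

theorem Det.dom_out (H : Det n dm L X Hub hi) (k : Kd5) (hk : X.dom k = true) (x : ZMod n)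
    (hx : x ∈ (cfg n dm w L X Hub hi).S k ∨ x ∈ (cfg n dm w L X Hub hi).R k) :
    ¬ (cfg n dm w L X Hub hi).Lab X (X.side k) (x + 1) := by
  rw [H.std.dom] at hk
  rw [H.std.side]
  have hx' : x ∈ pset w L (gS dm L k) ∨ x ∈ pset w L (gR dm L k) := hx
  obtain ⟨hz, h1, h2, h3, h4⟩ := dom_step hk hx'
  rintro (⟨k', hs, h5 | h5⟩ | ⟨h, hh, k', hs, h5⟩ | ⟨h, hh, hs, h5⟩)
  · rw [H.std.side] at hs
    obtain ⟨_, h6, h7, h8, h9⟩ := mem_pset.1 h5
    rw [h1] at h6 h7 h8 h9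
    rcases hx' with hx' | hx'
    · obtain ⟨_, _, _, g3, _⟩ := mem_pset.1 hx'
      rw [hs, g3] at h8
      have h10 := vk_inj h8
      subst h10
      obtain ⟨h11, _⟩ := h9 hk
      rw [h3] at h11
      omega
    · obtain ⟨_, g1, _⟩ := mem_pset.1 hx'
      rw [hs] at h6
      exact vk_ne_none _ (g1.symm.trans h6)
  · rw [H.std.side] at hs
    obtain ⟨_, h6, h9⟩ := mem_pset.1 h5
    rw [h1] at h6 h9
    rcases hx' with hx' | hx'
    · obtain ⟨_, g1, _⟩ := mem_pset.1 hx'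
      rw [hs] at h6
      exact vk_ne_none _ (h6.symm.trans g1)
    · obtain ⟨_, g1, _⟩ := mem_pset.1 hx'
      rw [hs, g1] at h6
      have h10 := vk_inj h6
      subst h10
      obtain ⟨h11, _⟩ := h9 hk
      rw [h3] at h11
      omega
  · rw [H.std.side] at hs
    obtain ⟨_, h6, _⟩ := mem_pset.1 (mem_Y h5).2
    rw [h1] at h6
    rcases hx' with hx' | hx'
    · obtain ⟨_, _, g2, _⟩ := mem_pset.1 hx'
      exact g2 _ _ hs h6
    · obtain ⟨_, g1, _⟩ := mem_pset.1 hx'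
      have h7 := h6.2.1
      rw [hs] at h7
      exact vk_ne_none _ (g1.symm.trans h7)
  · have h6 : (x + 1).val = 2 ^ (hi h : ℕ) := by
      rw [h5]
      exact H.lh_val _
    rw [h2] at h6
    have h7 := hz.lt.1
    have h8 := H.pow_lt (hi h)
    have h9 := H.big
    omega

theorem cfg_QQ {j j' : Fin 4} (h : j ≠ j') :
    Disjoint (pset (n := n) w L (gQ dm L j)) (pset w L (gQ dm L j')) := by
  rw [Finset.disjoint_left]
  intro x h1 h2
  obtain ⟨_, _, _, _, h3, _⟩ := mem_pset.1 h1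
  obtain ⟨_, _, _, _, h4, _⟩ := mem_pset.1 h2
  exact h (vj_inj (h3.symm.trans h4))

theorem cfg_QRC (j : Fin 4) : Disjoint (pset (n := n) w L (gQ dm L j)) (pset w L gRC) := by
  rw [Finset.disjoint_left]
  intro x h1 h2
  obtain ⟨_, h3, h4, _⟩ := mem_pset.1 h1
  obtain ⟨_, h5⟩ := mem_pset.1 h2
  rcases h5 with h5 | h5
  · exact h5 h3
  · exact h5 h4

theorem Det.YYc (H : Det n dm L X Hub hi) {h h' : W} (hh : h ∈ Hub) (hh' : h' ∈ Hub)
    {k k' : Kd5} {y y' : ZMod n} (hy : y ∈ (cfg n dm w L X Hub hi).Y h k)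
    (hy' : y' ∈ (cfg n dm w L X Hub hi).Y h' k')
    (he : (cfg n dm w L X Hub hi).lh h + y = (cfg n dm w L X Hub hi).lh h' + y') :
    h = h' ∧ k = k' := by
  have h1 := (H.hubcol (mem_Y hy).2).1
  have h2 := (H.hubcol (mem_Y hy').2).1
  have he' : (((2 ^ (hi h : ℕ) : ℕ) : ZMod n) + y) = (((2 ^ (hi h' : ℕ) : ℕ) : ZMod n) + y') := he
  rw [he'] at h1
  obtain ⟨h5, h6⟩ := act_inj h1 h2
  exact ⟨H.inj h hh h' hh' h5, h6⟩

theorem pow_pair {a b c d : ℕ} (hab : a ≠ b) (hcd : c ≠ d) (h : 2 ^ a + 2 ^ b = 2 ^ c + 2 ^ d) :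
    (a = c ∧ b = d) ∨ (a = d ∧ b = c) := by
  have key : ∀ a b c d : ℕ, a < b → c < d → 2 ^ a + 2 ^ b = 2 ^ c + 2 ^ d → a = c ∧ b = d := by
    intro a b c d hab hcd h
    have e1 : 2 ^ b ≤ 2 ^ a + 2 ^ b ∧ 2 ^ a + 2 ^ b < 2 ^ (b + 1) := by
      have h1 : 2 ^ a < 2 ^ b := Nat.pow_lt_pow_right (by norm_num) hab
      have h2 : 2 ^ (b + 1) = 2 ^ b * 2 := pow_succ 2 b
      have h3 : 0 < 2 ^ a := by positivity
      omega
    have e2 : 2 ^ d ≤ 2 ^ c + 2 ^ d ∧ 2 ^ c + 2 ^ d < 2 ^ (d + 1) := by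
      have h1 : 2 ^ c < 2 ^ d := Nat.pow_lt_pow_right (by norm_num) hcd
      have h2 : 2 ^ (d + 1) = 2 ^ d * 2 := pow_succ 2 d
      have h3 : 0 < 2 ^ c := by positivity
      omega
    have h1 : b < d + 1 := (Nat.pow_lt_pow_iff_right (by norm_num : 1 < 2)).1 (by omega)
    have h2 : d < b + 1 := (Nat.pow_lt_pow_iff_right (by norm_num : 1 < 2)).1 (by omega)
    have h3 : b = d := by omega
    subst h3
    have h4 : 2 ^ a = 2 ^ c := by omega
    exact ⟨Nat.pow_right_injective (le_refl 2) h4, rfl⟩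
  rcases Nat.lt_or_gt_of_ne hab with h1 | h1
  · rcases Nat.lt_or_gt_of_ne hcd with h2 | h2
    · exact Or.inl (key a b c d h1 h2 h)
    · obtain ⟨h3, h4⟩ := key a b d c h1 h2 (by omega)
      exact Or.inr ⟨h3, h4⟩
  · rcases Nat.lt_or_gt_of_ne hcd with h2 | h2
    · obtain ⟨h3, h4⟩ := key b a c d h1 h2 (by omega)
      exact Or.inr ⟨h4, h3⟩
    · obtain ⟨h3, h4⟩ := key b a d c h1 h2 (by omega)
      exact Or.inl ⟨h4, h3⟩

theorem Det.hh_inj (H : Det n dm L X Hub hi) {h h' : W} (hh : h ∈ Hub) (hh' : h' ∈ Hub)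
    (hr : h ≠ X.t.root) (hr' : h' ≠ X.t.root) (hp : X.t.par h ∈ Hub) (hp' : X.t.par h' ∈ Hub)
    (he : (cfg n dm w L X Hub hi).lh h + (cfg n dm w L X Hub hi).lh (X.t.par h) =
      (cfg n dm w L X Hub hi).lh h' + (cfg n dm w L X Hub hi).lh (X.t.par h')) : h = h' := by
  have he' : (((2 ^ (hi h : ℕ) : ℕ) : ZMod n) + ((2 ^ (hi (X.t.par h) : ℕ) : ℕ) : ZMod n)) =
    (((2 ^ (hi h' : ℕ) : ℕ) : ZMod n) + ((2 ^ (hi (X.t.par h') : ℕ) : ℕ) : ZMod n)) := he
  have h1 := congrArg ZMod.val he'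
  rw [H.lh2_val, H.lh2_val] at h1
  have d1 := X.t.dep_par h hr
  have d2 := X.t.dep_par h' hr'
  have e1 : (hi h : ℕ) ≠ (hi (X.t.par h) : ℕ) := fun e => by
    have h2 := H.inj h hh _ hp (Fin.ext e)
    rw [← h2] at d1
    omega
  have e2 : (hi h' : ℕ) ≠ (hi (X.t.par h') : ℕ) := fun e => by
    have h2 := H.inj h' hh' _ hp' (Fin.ext e)
    rw [← h2] at d2
    omega
  rcases pow_pair e1 e2 h1 with ⟨h2, _⟩ | ⟨h2, h3⟩
  · exact H.inj h hh h' hh' (Fin.ext h2)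
  · have g1 := H.inj h hh _ hp' (Fin.ext h2)
    have g2 := H.inj _ hp h' hh' (Fin.ext h3)
    rw [g2] at d1
    rw [← g1] at d2
    omega

end cfg

end Pool.Agent.Lib.MP_c5b475_co.KN.Cf
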