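import Mathlib

/-!
# KN/Tree: rooted trees, kinds, partial embeddings
-/

set_option autoImplicit false

namespace Pool.Agent.Lib.MP_c5b475_co.KN

open Finset

/-- A rooted tree given by its parent map. -/
structure RTr (W : Type) where
  /-- the root -/
  root : W
  /-- the parent map, fixing the root -/
  par : W → W
  /-- the depth -/
  dep : W → ℕ
  dep_root : dep root = 0
  par_root : par root = root
  dep_par : ∀ w, w ≠ root → dep w = dep (par w) + 1

namespace RTr

variable {W : Type} [Fintype W] [DecidableEq W]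

/-- `a` is an ancestor of `w`, or `a = w` -/
def Anc (t : RTr W) (a w : W) : Prop := ∃ i : ℕ, t.par^[i] w = a

open Classical in
/-- number of descendants (with the vertex itself) -/
noncomputable def sz (t : RTr W) (a : W) : ℕ := (univ.filter fun w => t.Anc a w).card

/-- children -/
def ch (t : RTr W) (w : W) : Finset W := univ.filter fun c => c ≠ t.root ∧ t.par c = w

/-- neighbours -/
def nb (t : RTr W) (w : W) : Finset W := t.ch w ∪ (if w = t.root then ∅ else {t.par w})

/-- heavy children -/
noncomputable def hch (t : RTr W) (K0 : ℕ) (w : W) : Finset W :=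
  (t.ch w).filter fun c => K0 ≤ t.sz c

/-- `w` is joined to its ancestor `c` by a path avoiding `U` -/
def Pc (t : RTr W) (U : Finset W) (w c : W) : Prop :=
  ∃ i : ℕ, t.par^[i] w = c ∧ ∀ j ≤ i, t.par^[j] w ∉ U

end RTr

/-- A rooted tree with kinds of vertices. `side`: label side of a kind; `dom`: vertices of this
kind carry two consecutive labels; `spl`: special leaves (they may be dropped); `cl`: colour class of
the edge to the parent; `o w`: offset (0 or 1) of the edge from `w` to its parent. -/
structure KT (W Kd Ψ : Type) [Fintype W] [DecidableEq W] where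
  /-- the rooted tree -/
  t : RTr W
  /-- the side of a kind -/
  side : Kd → Bool
  /-- kinds whose vertices carry two consecutive labels -/
  dom : Kd → Bool
  /-- kinds of the special leaves -/
  spl : Kd → Bool
  /-- colour class of the edge to the parent -/
  cl : Kd → Ψ
  /-- the kind of a vertex -/
  kd : W → Kd
  /-- offset of the edge to the parent -/
  o : W → ℕ
  side_par : ∀ w, w ≠ t.root → side (kd w) ≠ side (kd (t.par w))
  spl_leaf : ∀ w, spl (kd w) = true → t.ch w = ∅
  spl_root : spl (kd t.root) = false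
  spl_one : ∀ w, ((t.ch w).filter fun c => spl (kd c) = true).card ≤ 1
  o_le : ∀ w, o w ≤ 1
  o_dom : ∀ w, w ≠ t.root → o w = 1 → dom (kd (t.par w)) = true
  dom_par : ∀ w, w ≠ t.root → dom (kd w) = true → dom (kd (t.par w)) = false

namespace KT

variable {W Kd Ψ : Type} [Fintype W] [DecidableEq W]

/-- colour of the edge from `w` to its parent -/
def col {n : ℕ} (X : KT W Kd Ψ) (lab : W → ZMod n) (w : W) : ZMod n :=
  lab w + lab (X.t.par w) + (X.o w : ZMod n)

/-- `w` has an edge to its parent inside `A` -/
def EdgeIn (X : KT W Kd Ψ) (A : Finset W) (w : W) : Prop :=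
  w ≠ X.t.root ∧ w ∈ A ∧ X.t.par w ∈ A

/-- `lab` is a correct labelling of the part of the tree on `A` -/
structure Emb {n : ℕ} (X : KT W Kd Ψ) (A : Finset W) (lab : W → ZMod n) : Prop where
  inj : ∀ u ∈ A, ∀ v ∈ A, X.side (X.kd u) = X.side (X.kd v) → lab u = lab v → u = v
  dmn : ∀ u ∈ A, ∀ v ∈ A, X.side (X.kd u) = X.side (X.kd v) → X.dom (X.kd u) = true →
    lab v ≠ lab u + 1
  cin : ∀ u v, X.EdgeIn A u → X.EdgeIn A v → X.col lab u = X.col lab v → u = v

end KT

/-- The sets used by the main stage. `S`: main label sets; `R`: reserved label sets; `RC`: reserved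
colours; `Q`: colour classes; `Hub`: vertices of large degree, with labels `lh`; `Y h k`: label set
for the children of kind `k` of the hub `h`. -/
structure Cfg (n : ℕ) (W Kd Ψ : Type) where
  /-- main label sets -/
  S : Kd → Finset (ZMod n)
  /-- reserved label sets -/
  R : Kd → Finset (ZMod n)
  /-- reserved colours -/
  RC : Finset (ZMod n)
  /-- colour classes -/
  Q : Ψ → Finset (ZMod n)
  /-- hubs -/
  Hub : Finset W
  /-- labels of the hubs -/
  lh : W → ZMod n
  /-- label sets for the children of the hubs -/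
  Y : W → Kd → Finset (ZMod n)

namespace Cfg

variable {n : ℕ} {W Kd Ψ : Type} [Fintype W] [DecidableEq W]

/-- `x` is a label used on side `b` (by anybody) -/
def Lab (C : Cfg n W Kd Ψ) (X : KT W Kd Ψ) (b : Bool) (x : ZMod n) : Prop :=
  (∃ k, X.side k = b ∧ (x ∈ C.S k ∨ x ∈ C.R k)) ∨
    (∃ h ∈ C.Hub, ∃ k, X.side k = b ∧ x ∈ C.Y h k) ∨
    ∃ h ∈ C.Hub, X.side (X.kd h) = b ∧ x = C.lh h

/-- number of children of kind `k` -/
def nch (X : KT W Kd Ψ) [DecidableEq Kd] (h : W) (k : Kd) : ℕ :=
  ((X.t.ch h).filter fun c => X.kd c = k).card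

end Cfg

end Pool.Agent.Lib.MP_c5b475_co.KN
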