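import Pool.Agent.Lib.MP_c5b475_co.KN.Defs
import Pool.Agent.Lib.MP_c5b475_co.KN.Tree

/-!
# KN/EDef: definitions for the exact ends
-/

set_option autoImplicit false

namespace Pool.Agent.Lib.MP_c5b475_co.KN

open Finset

/-- distance from 0 -/
def cyd {n : ℕ} [NeZero n] (x : ZMod n) : ℕ := min x.val (-x).val

/-- `η` and `2 η` are far from 0 -/
def Far {n : ℕ} [NeZero n] (F : ℕ) (η : ZMod n) : Prop := F ≤ cyd η ∧ F ≤ cyd (2 * η)

/-- vertices of the full tree in case (II): tokens, second vertices of dominoes, centres of the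
unplaced cherries, inner vertices of the bare paths, one leaf -/
inductive EV (W π β : Type)
  | tok (w : W) : EV W π β
  | sec (w : W) : EV W π β
  | ctr (p : π) : EV W π β
  | inn (b : β) (i : Fin 7) : EV W π β
  | lf : EV W π β

/-- edges of the full tree in case (II) -/
inductive EE (W π β : Type)
  | ord (w : W) : EE W π β
  | sp2 (w : W) : EE W π β
  | ct1 (p : π) : EE W π β
  | ct2 (p : π) : EE W π β
  | inn (b : β) (i : Fin 8) : EE W π β
  | lf : EE W π β

variable {W Kd Ψ π β : Type} [Fintype W] [DecidableEq W]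

/-- the vertices which exist -/
def EV.ok (X : KT W Kd Ψ) : EV W π β → Prop
  | .sec w => X.dom (X.kd w) = true
  | _ => True

/-- the edges which exist -/
def EE.ok (X : KT W Kd Ψ) : EE W π β → Prop
  | .ord w => w ≠ X.t.root
  | .sp2 w => X.spl (X.kd w) = true
  | _ => True

/-- side of a vertex -/
def EV.sd (X : KT W Kd Ψ) (lp : W) : EV W π β → Bool
  | .tok w => X.side (X.kd w)
  | .sec _ => true
  | .ctr _ => false
  | .inn _ i => decide (i.val % 2 = 1)
  | .lf => ! X.side (X.kd lp)

/-- ends of an edge; `pp`, `bb`: tokens of the unplaced cherries and of the bare paths, `lp`: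
neighbour of the leaf -/
def EE.ends (X : KT W Kd Ψ) (pp : π → W) (bb : β → W) (lp : W) : EE W π β → EV W π β × EV W π β
  | .ord w => (.tok w, if X.o w = 1 then .sec (X.t.par w) else .tok (X.t.par w))
  | .sp2 w => (.tok w, .sec (X.t.par w))
  | .ct1 p => (.ctr p, .tok (pp p))
  | .ct2 p => (.ctr p, .sec (pp p))
  | .inn b i =>
      (if h : i.val = 0 then .tok (bb b) else .inn b ⟨i.val - 1, by omega⟩,
        if h : i.val = 7 then .sec (bb b) else .inn b ⟨i.val, by omega⟩)
  | .lf => (.lf, .tok lp)

end Pool.Agent.Lib.MP_c5b475_co.KN
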