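import Pool.Agent.Lib.MP_c5b475_co.KN.PThm0
import Pool.Agent.Lib.MP_c5b475_co.KN.EDef
import Pool.Agent.Lib.MP_c5b475_co.KN.Bpa

/-!
# KN/CfgD: the standard kinds, and the additional sets for the exact ends
-/

set_option autoImplicit false

namespace Pool.Agent.Lib.MP_c5b475_co.KN

open Finset

/-- Kinds: ordinary vertices of the two sides, parents of the special leaves, dominoes without
special leaf, special leaves. -/
inductive Kd5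
  | A | B | P0 | P1 | L
  deriving DecidableEq, Fintype

/-- colour classes: ordinary edges, edges of the special leaves -/
inductive Ps2
  | o | J
  deriving DecidableEq, Fintype

/-- the side of a kind -/
def Kd5.sd : Kd5 → Bool
  | .A => true
  | .B => false
  | .P0 => true
  | .P1 => true
  | .L => false

/-- domino kinds -/
def Kd5.dm (dm : Bool) : Kd5 → Bool
  | .P0 => dm
  | .P1 => dm
  | _ => false

/-- special leaves -/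
def Kd5.sl : Kd5 → Bool
  | .L => true
  | _ => false

/-- colour class of the edge to the parent -/
def Kd5.cl : Kd5 → Ps2
  | .L => .J
  | _ => .o

variable {n : ℕ} {W : Type} [Fintype W] [DecidableEq W]

/-- `X` uses the standard kinds; `dm = true` in case (II). -/
structure Std (dm : Bool) (X : KT W Kd5 Ps2) : Prop where
  side : X.side = Kd5.sd
  dom : X.dom = Kd5.dm dm
  spl : X.spl = Kd5.sl
  cl : X.cl = Kd5.cl
  spar : ∀ w, X.kd w = Kd5.L → X.kd (X.t.par w) = Kd5.P0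
  so : ∀ w, X.kd w = Kd5.L → X.o w = 0
  rootk : X.kd X.t.root = Kd5.A ∨ X.kd X.t.root = Kd5.B

/-- The facts about the hubs which belong to the tree. -/
structure HubOK (X : KT W Kd5 Ps2) (Hub : Finset W) (κ₁ : ℝ) (h0 n : ℕ) : Prop where
  hub_card : Hub.card ≤ h0
  hub_big : ∀ w, w ∉ Hub → ((X.t.ch w).card : ℝ) ≤ κ₁ * n
  hub_nb : ∀ w, w ∉ Hub → ((X.t.nb w).filter fun v => v ∈ Hub).card ≤ 1
  hub_sz : ∀ h ∈ Hub, κ₁ * n ≤ (X.t.sz h : ℝ)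
  hub_dom : ∀ w, X.dom (X.kd w) = true → w ∉ Hub ∧ ∀ v ∈ X.t.nb w, v ∉ Hub
  hub_kd : ∀ h ∈ Hub, X.kd h = Kd5.A ∨ X.kd h = Kd5.B

/-- number of vertices of kind `k` which are not children of hubs -/
def nk (X : KT W Kd5 Ps2) (Hub : Finset W) (k : Kd5) : ℕ :=
  (univ.filter fun w => w ≠ X.t.root ∧ X.kd w = k ∧ X.t.par w ∉ Hub).card

/-- number of vertices with colour class `a` which are not children of hubs -/
def ncl (X : KT W Kd5 Ps2) (Hub : Finset W) (a : Ps2) : ℕ :=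
  (univ.filter fun w => w ≠ X.t.root ∧ X.cl (X.kd w) = a ∧ X.t.par w ∉ Hub).card

/-- width of a kind -/
def Kd5.wd (dm : Bool) (k : Kd5) : ℝ := if Kd5.dm dm k = true then 2 else 1

/-- The budgets: relative masses of all sets, with slack `τ`. `q`: number of starts in `Q J ∪ J1`. -/
structure Bud (dm : Bool) (X : KT W Kd5 Ps2) (Hub : Finset W) (n q : ℕ)
    (ρ ρR ρ1 ρC ρE ρH β τ : ℝ) : Prop where
  hubs : (∑ h ∈ Hub, ∑ k : Kd5, (Cfg.nch X h k : ℝ) / n) + 4 * ρ + 6 * ρR + ρC + ρH + τ ≤ 1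
  labs : ∀ s : Bool, (∑ k ∈ univ.filter (fun k : Kd5 => k.sd = s),
      Kd5.wd dm k * ((nk X Hub k : ℝ) / n + β + ρR)) +
    (∑ h ∈ Hub, ∑ k ∈ univ.filter (fun k : Kd5 => k.sd = s), (Cfg.nch X h k : ℝ) / n) +
      4 * ρ + τ ≤ 1
  cols : (ncl X Hub Ps2.o : ℝ) / n + β + (∑ h ∈ Hub, ∑ k : Kd5, (Cfg.nch X h k : ℝ) / n) +
    (if dm = true then 2 else 1) * ((q : ℝ) / n) + ρC + ρE + τ ≤ 1
  qle : (ncl X Hub Ps2.J : ℝ) + (ρ1 + τ) * n ≤ q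

/-- a colour used by an ordinary edge -/
def OrdCol (C : Cfg n W Kd5 Ps2) (X : KT W Kd5 Ps2) (c : ZMod n) : Prop :=
  c ∈ C.Q Ps2.o ∨ c ∈ C.RC ∨
    (∃ h ∈ C.Hub, ∃ k : Kd5, X.side k ≠ X.side (X.kd h) ∧ ∃ y ∈ C.Y h k, c = C.lh h + y) ∨
    (∃ h ∈ C.Hub, h ≠ X.t.root ∧ X.t.par h ∈ C.Hub ∧ c = C.lh h + C.lh (X.t.par h))

/-- The additional sets: `Y1, Y2, Y3, RB` (side `false`), `RA` (side `true`), `J1` starts of colour
dominoes (case (II)) or colours, `E` spare single colours. -/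
structure Ext [NeZero n] (dm : Bool) (X : KT W Kd5 Ps2) (C : Cfg n W Kd5 Ps2)
    (J1 E RA RB Y1 Y2 Y3 : Finset (ZMod n)) (F q : ℕ) (a r b β τ θ : ℝ) : Prop where
  Y12 : Disjoint Y1 Y2
  Y13 : Disjoint Y1 Y3
  Y23 : Disjoint Y2 Y3
  YR : Disjoint (Y1 ∪ Y2 ∪ Y3) RB
  out_B : ∀ x, C.Lab X false x → x ∉ Y1 ∪ Y2 ∪ Y3 ∪ RB
  out_A : ∀ x, C.Lab X true x → x ∉ RA
  out_A1 : ∀ k, X.dom k = true → ∀ x, x ∈ C.S k ∨ x ∈ C.R k → x + 1 ∉ RA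
  starts : dm = true → ∀ c ∈ C.Q Ps2.J ∪ J1, c + 1 ∉ C.Q Ps2.J ∪ J1
  QJ1 : Disjoint (C.Q Ps2.J) J1
  E_out : ∀ s ∈ E, s ∉ C.Q Ps2.J ∪ J1 ∧ (dm = true → s - 1 ∉ C.Q Ps2.J ∪ J1)
  ord_out : ∀ c, OrdCol C X c → c ∉ C.Q Ps2.J ∪ J1 ∧ (dm = true → c - 1 ∉ C.Q Ps2.J ∪ J1) ∧ c ∉ E
  cardJ : (C.Q Ps2.J).card + J1.card = q
  QJ_le : ((C.Q Ps2.J).card : ℝ) ≤ (ncl X C.Hub Ps2.J : ℝ) + τ * n
  I0_le : ((C.S Kd5.P0).card : ℝ) + ∑ h ∈ C.Hub, ((C.Y h Kd5.P0).card : ℝ) ≤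
    (univ.filter fun w => X.kd w = Kd5.P0).card + (β + τ) * n
  K1 : ∀ x : ZMod n, a * n ≤ (((C.Q Ps2.J).filter fun c => c - x ∈ Y1).card : ℝ)
  K3 : ∀ s : ZMod n, a * n ≤ (((C.S Kd5.P0 ∪ C.Hub.biUnion fun h => C.Y h Kd5.P0).filter
    fun x => s - x ∈ Y3).card : ℝ)
  Y2_big : r * n ≤ (Y2.card : ℝ)
  Y2_aut : Aut θ Y2
  F3 : 3 ≤ F
  K4 : dm = true → ∀ z s η : ZMod n, Far F η → b * n ≤ ((J1.filter fun g =>
    (∀ i, lB z η g i ∈ RB) ∧ z + s - g - 1 ∈ RA).card : ℝ)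
  K5 : dm = true → ∀ y η : ZMod n, Far F η → b * n ≤ ((J1.filter fun h => h - η - 1 ∈ J1 ∧
    h + y ∈ RA ∧ h + y + η + 2 ∈ RA).card : ℝ)
  K6 : dm = true → ∀ x : ZMod n, ∀ q < 2,
    4 * F + 1 ≤ (E.filter fun s => s.val % 2 = q ∧ s - x ∈ RB).card ∧
    4 * F + 1 ≤ (E.filter fun s => s.val % 2 = q ∧ s - x ∈ RA).card

end Pool.Agent.Lib.MP_c5b475_co.KN
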