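import Pool.Agent.Lib.MP_c5b475_co.KN.RT1

/-!
# KN/CovA: pieces of a rooted tree outside a set `U` containing the root

`exists_top`: follow the parents of `w` until the parent is in `U` (this happens, because the root is in
`U` and every vertex reaches it, `iter_dep`): `Nat.find` for `∃ i, par^[i+1] w ∈ U`.
`top_unique`: if `Pc U w c`, `Pc U w c'`, `par c, par c' ∈ U` with `c = par^[i] w`, `c' = par^[i'] w`, `i < i'`, then
`par^[i+1] w = par c ∈ U`, but `i + 1 ≤ i'` gives `∉ U`.
-/

set_option autoImplicit false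

namespace Pool.Agent.Lib.MP_c5b475_co.KN

open Finset

namespace RTr

variable {W : Type} [Fintype W] [DecidableEq W] (t : RTr W) {U : Finset W}

theorem exists_top (hU : t.root ∈ U) {w : W} (hw : w ∉ U) : ∃ c, t.Pc U w c ∧ t.par c ∈ U := by
  classical
  have hne : w ≠ t.root := by
    rintro rfl
    exact hw hU
  have hd := t.dep_par w hne
  have hex : ∃ i, t.par^[i + 1] w ∈ U := by
    refine ⟨t.dep (t.par w), ?_⟩
    rw [← hd, t.iter_dep]
    exact hU
  refine ⟨t.par^[Nat.find hex] w, ⟨Nat.find hex, rfl, fun j hj => ?_⟩, ?_⟩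
  · rcases j with _ | j
    · exact hw
    · exact Nat.find_min hex (Nat.lt_of_succ_le hj)
  · have := Nat.find_spec hex
    rwa [Function.iterate_succ_apply'] at this

open Classical in
/-- the root of the piece of `w` -/
noncomputable def top (t : RTr W) (U : Finset W) (w : W) : W :=
  if h : ∃ c, t.Pc U w c ∧ t.par c ∈ U then h.choose else w

theorem top_spec (hU : t.root ∈ U) {w : W} (hw : w ∉ U) :
    t.Pc U w (t.top U w) ∧ t.par (t.top U w) ∈ U := by
  classical
  have h := t.exists_top hU hw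
  unfold top
  rw [dif_pos h]
  exact h.choose_spec

theorem top_unique {w c c' : W} (h : t.Pc U w c) (hc : t.par c ∈ U) (h' : t.Pc U w c')
    (hc' : t.par c' ∈ U) : c = c' := by
  obtain ⟨i, hi, h1⟩ := h
  obtain ⟨i', hi', h1'⟩ := h'
  rcases lt_trichotomy i i' with h2 | h2 | h2
  · exfalso
    apply h1' (i + 1) h2
    rw [Function.iterate_succ_apply', hi]
    exact hc
  · rw [← hi, ← hi', h2]
  · exfalso
    apply h1 (i' + 1) h2
    rw [Function.iterate_succ_apply', hi']
    exact hc'

theorem top_eq (hU : t.root ∈ U) {w c : W} (h : t.Pc U w c) (hc : t.par c ∈ U) :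
    t.top U w = c := by
  have hw : w ∉ U := by
    obtain ⟨i, _, h1⟩ := h
    exact h1 0 (Nat.zero_le i)
  obtain ⟨h1, h2⟩ := t.top_spec hU hw
  exact t.top_unique h1 h2 h hc

theorem pc_not_mem {w c : W} (h : t.Pc U w c) : w ∉ U ∧ c ∉ U := by
  obtain ⟨i, hi, h1⟩ := h
  refine ⟨h1 0 (Nat.zero_le i), ?_⟩
  rw [← hi]
  exact h1 i le_rfl

theorem pc_refl {w : W} (h : w ∉ U) : t.Pc U w w := by
  refine ⟨0, rfl, fun j hj => ?_⟩
  obtain rfl : j = 0 := Nat.le_zero.1 hj
  exact h

/-- the parent of a piece vertex different from the root of the piece -/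
theorem pc_par {w c : W} (h : t.Pc U w c) (hne : w ≠ c) : t.Pc U (t.par w) c ∧ t.par w ∉ U := by
  obtain ⟨i, hi, h1⟩ := h
  rcases i with _ | i
  · exact absurd hi hne
  · refine ⟨⟨i, hi, fun j hj => h1 (j + 1) (Nat.succ_le_succ hj)⟩, h1 1 (by omega)⟩

/-- a child outside `U` of a piece vertex is in the piece -/
theorem pc_child {w c v : W} (h : t.Pc U w c) (hv : t.par v = w) (hvU : v ∉ U) : t.Pc U v c := by
  obtain ⟨i, hi, h1⟩ := h
  refine ⟨i + 1, ?_, fun j hj => ?_⟩
  · rw [Function.iterate_succ_apply, hv, hi]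
  · rcases j with _ | j
    · exact hvU
    · rw [Function.iterate_succ_apply, hv]
      exact h1 j (by omega)

theorem pc_dep (hU : t.root ∈ U) {w c : W} (h : t.Pc U w c) (hne : w ≠ c) : t.dep c < t.dep w := by
  have hw : w ≠ t.root := by
    rintro rfl
    exact (t.pc_not_mem h).1 hU
  have h1 := (t.pc_par h hne).1
  have h2 : t.dep c ≤ t.dep (t.par w) := by
    obtain ⟨i, hi, _⟩ := h1
    exact t.anc_dep ⟨i, hi⟩
  have h3 := t.dep_par w hw
  omega

end RTr

end Pool.Agent.Lib.MP_c5b475_co.KN
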