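import Mathlib

/-!
# KN/Enum
Sort the elements of `A` by `f`: take a list of the elements of `A` (`A.toList`) and `List.mergeSort` (or
`List.insertionSort`) for the total preorder `f a ≤ f b`; it is a permutation of `A.toList`, without
duplicates, pairwise ordered. `e t` = its `t`-th element (`getD` with default). Or: induction on `|A|`,
removing an element with the largest value of `f` (`Finset.exists_max_image`) and putting it at place
`|A| - 1`.
-/

set_option autoImplicit false

namespace Pool.Agent.Lib.MP_c5b475_co.KN

open Finset

private theorem enum_aux {W : Type} [DecidableEq W] [Inhabited W] (f : W → ℕ) (n : ℕ) :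
    ∀ A : Finset W, A.card = n →
    ∃ e : ℕ → W, (∀ t < A.card, e t ∈ A) ∧ (∀ t < A.card, ∀ u < A.card, e t = e u → t = u) ∧
      (∀ w ∈ A, ∃ t < A.card, e t = w) ∧ ∀ t u, t ≤ u → u < A.card → f (e t) ≤ f (e u) := by
  induction n with
  | zero =>
    intro A hA
    have : A = ∅ := Finset.card_eq_zero.1 hA
    subst this
    exact ⟨fun _ => default, by simp, by simp, by simp, by simp⟩
  | succ n ih =>
    intro A hA
    obtain ⟨a, ha, hmax⟩ := Finset.exists_max_image A f (Finset.card_pos.1 (by omega))
    have hc : (A.erase a).card = n := by rw [Finset.card_erase_of_mem ha]; omega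
    obtain ⟨e, h1, h2, h3, h4⟩ := ih (A.erase a) hc
    rw [hc] at h1 h2 h3 h4
    refine ⟨fun t => if t < n then e t else a, ?_, ?_, ?_, ?_⟩
    · intro t ht
      by_cases h : t < n
      · simp only [h, if_true]
        exact Finset.mem_of_mem_erase (h1 t h)
      · simp only [h, if_false]
        exact ha
    · intro t ht u hu htu
      rw [hA] at ht hu
      by_cases h : t < n
      · by_cases h' : u < n
        · simp only [h, h', if_true] at htu
          exact h2 t h u h' htu
        · simp only [h, h', if_true, if_false] at htu
          exact absurd htu (Finset.ne_of_mem_erase (h1 t h))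
      · by_cases h' : u < n
        · simp only [h, h', if_true, if_false] at htu
          exact absurd htu.symm (Finset.ne_of_mem_erase (h1 u h'))
        · omega
    · intro w hw
      by_cases h : w = a
      · exact ⟨n, by omega, by simp [h]⟩
      · obtain ⟨t, ht, he⟩ := h3 w (Finset.mem_erase.2 ⟨h, hw⟩)
        exact ⟨t, by omega, by simp [ht, he]⟩
    · intro t u htu hu
      rw [hA] at hu
      by_cases h : u < n
      · simp only [h, lt_of_le_of_lt htu h, if_true]
        exact h4 t u htu h
      · by_cases h' : t < n
        · simp only [h, h', if_true, if_false]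
          exact hmax _ (Finset.mem_of_mem_erase (h1 t h'))
        · simp only [h, h', if_false]
          exact le_refl _

/-- enumeration of a finite set along an increasing function -/
theorem enum_mono {W : Type} [DecidableEq W] [Inhabited W] (A : Finset W) (f : W → ℕ) :
    ∃ e : ℕ → W, (∀ t < A.card, e t ∈ A) ∧ (∀ t < A.card, ∀ u < A.card, e t = e u → t = u) ∧
      (∀ w ∈ A, ∃ t < A.card, e t = w) ∧ ∀ t u, t ≤ u → u < A.card → f (e t) ≤ f (e u) :=
  enum_aux f A.card A rfl

end Pool.Agent.Lib.MP_c5b475_co.KN
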