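import Pool.Agent.Lib.MP_c5b475_co.KN.PThm0

set_option autoImplicit false

namespace Pool.Agent.Lib.MP_c5b475_co.KN

open Finset

variable {n : ℕ} {W Kd Ψ : Type} [Fintype W] [DecidableEq W] [Fintype Kd] [DecidableEq Kd]
  [Fintype Ψ] [DecidableEq Ψ]

open Classical in
/-- The roots of the pieces which are given to the nibble. `U` is the union of `Z` and `D`. -/
noncomputable def Iset [NeZero n] (X : KT W Kd Ψ) (C : Cfg n W Kd Ψ) (U : Finset W) (κ₂ : ℝ) :
    Finset W :=
  univ.filter fun c => c ∉ U ∧ X.t.par c ∈ U ∧ X.spl (X.kd c) = false ∧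
    (X.t.par c ∈ C.Hub → κ₂ * n ≤ (Cfg.nch X (X.t.par c) (X.kd c) : ℝ))

open Classical in
/-- the vertices of the pieces with roots in `cov` -/
noncomputable def Cov (X : KT W Kd Ψ) (U cov : Finset W) : Finset W :=
  univ.filter fun w => ∃ c ∈ cov, X.t.Pc U w c

end Pool.Agent.Lib.MP_c5b475_co.KN
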