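import Pool.Agent.Lib.MP_c5b475_co.KN.Defs

/-!
# KN/Sq
`ρ = |S| / n`. Expand the square: `∑_y (∑_{x∈Ω} (1_S(x+y) - ρ))^2 = ∑_{x,x' ∈ Ω} ∑_y (1_S(x+y) - ρ)(1_S(x'+y) - ρ)`
and the inner sum is `#{z ∈ S : z + (x' - x) ∈ S} - |S|^2/n` (put `z = x + y`; `∑_y 1_S(x+y) = |S|`,
`∑_y ρ^2 = |S|^2/n`). For fixed `x` the sum over `x' ∈ Ω` of its absolute value is at most the sum over all
`s = x' - x`, i.e. `≤ θ n^2` by `h`. The second form: same computation with
`1_S(y - x) 1_S(y - x')`, `z = y - x`, difference `x - x'`.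
-/

set_option autoImplicit false

namespace Pool.Agent.Lib.MP_c5b475_co.KN

open Finset

/-- the autocorrelation of the balanced indicator function -/
private theorem sq_corr {n : ℕ} [NeZero n] (S : Finset (ZMod n)) (s : ZMod n) :
    ∑ z : ZMod n, ((if z ∈ S then (1 : ℝ) else 0) - S.card / n) *
      ((if z + s ∈ S then (1 : ℝ) else 0) - S.card / n) =
      ((S.filter fun x => x + s ∈ S).card : ℝ) - (S.card : ℝ) ^ 2 / n := by
  have hn : (n : ℝ) ≠ 0 := Nat.cast_ne_zero.mpr (NeZero.ne n)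
  have h1 : ∑ z : ZMod n, (if z ∈ S then (1 : ℝ) else 0) = S.card := by
    rw [Finset.sum_ite_mem, Finset.univ_inter, Finset.sum_const, nsmul_eq_mul, mul_one]
  have h2 : ∑ z : ZMod n, (if z + s ∈ S then (1 : ℝ) else 0) = S.card := by
    rw [← h1]
    exact Fintype.sum_equiv (Equiv.addRight s) _ _ (fun z => rfl)
  have h3 : ∑ z : ZMod n, (if z ∈ S then (1 : ℝ) else 0) * (if z + s ∈ S then (1 : ℝ) else 0) =
      ((S.filter fun x => x + s ∈ S).card : ℝ) := by
    rw [Finset.card_filter, Nat.cast_sum]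
    simp only [Nat.cast_ite, Nat.cast_one, Nat.cast_zero]
    rw [← Finset.univ_inter S, ← Finset.sum_ite_mem]
    apply Finset.sum_congr rfl
    intro z _
    rw [Finset.univ_inter]
    by_cases hz : z ∈ S
    · rw [if_pos hz, if_pos hz, one_mul]
    · rw [if_neg hz, if_neg hz, zero_mul]
  have h4 : ∀ z : ZMod n, ((if z ∈ S then (1 : ℝ) else 0) - S.card / n) *
      ((if z + s ∈ S then (1 : ℝ) else 0) - S.card / n) =
      (if z ∈ S then (1 : ℝ) else 0) * (if z + s ∈ S then (1 : ℝ) else 0) -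
      (if z ∈ S then (1 : ℝ) else 0) * (S.card / n) -
      (if z + s ∈ S then (1 : ℝ) else 0) * (S.card / n) + (S.card / n) * (S.card / n) := by
    intro z
    ring
  rw [Finset.sum_congr rfl (fun z _ => h4 z), Finset.sum_add_distrib, Finset.sum_sub_distrib,
    Finset.sum_sub_distrib, ← Finset.sum_mul, ← Finset.sum_mul, h1, h2, h3, Finset.sum_const,
    Finset.card_univ, ZMod.card, nsmul_eq_mul]
  field_simp
  ring

/-- mixing in the mean square, for the indicator of a set -/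
theorem aut_sq {n : ℕ} [NeZero n] {θ : ℝ} {S : Finset (ZMod n)} (h : Aut θ S)
    (Ω : Finset (ZMod n)) :
    ∑ y : ZMod n, (∑ x ∈ Ω, ((if x + y ∈ S then (1 : ℝ) else 0) - S.card / n)) ^ 2 ≤
      Ω.card * (θ * (n : ℝ) ^ 2) := by
  have e1 : ∑ y : ZMod n, (∑ x ∈ Ω, ((if x + y ∈ S then (1 : ℝ) else 0) - S.card / n)) ^ 2 =
      ∑ x ∈ Ω, ∑ x' ∈ Ω, (((S.filter fun z => z + (x' - x) ∈ S).card : ℝ) -
        (S.card : ℝ) ^ 2 / n) := by
    simp only [sq (∑ x ∈ Ω, _), Finset.sum_mul_sum]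
    rw [Finset.sum_comm]
    apply Finset.sum_congr rfl
    intro x _
    rw [Finset.sum_comm]
    apply Finset.sum_congr rfl
    intro x' _
    rw [← sq_corr S (x' - x)]
    refine Fintype.sum_equiv (Equiv.addLeft x) _ _ (fun y => ?_)
    have e : Equiv.addLeft x y + (x' - x) = x' + y := by
      change x + y + (x' - x) = x' + y
      ring
    rw [e]
    rfl
  rw [e1]
  have e2 : ∀ x ∈ Ω, ∑ x' ∈ Ω, (((S.filter fun z => z + (x' - x) ∈ S).card : ℝ) -
      (S.card : ℝ) ^ 2 / n) ≤ θ * (n : ℝ) ^ 2 := by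
    intro x _
    refine le_trans ?_ h
    refine le_trans (Finset.sum_le_sum fun x' _ => le_abs_self _) ?_
    refine le_trans (Finset.sum_le_sum_of_subset_of_nonneg (Finset.subset_univ Ω)
      fun _ _ _ => abs_nonneg _) ?_
    exact le_of_eq (Fintype.sum_equiv (Equiv.subRight x) _ _ (fun y => rfl))
  refine (Finset.sum_le_sum e2).trans ?_
  rw [Finset.sum_const, nsmul_eq_mul]

/-- mixing in the mean square, reflected form -/
theorem aut_sq' {n : ℕ} [NeZero n] {θ : ℝ} {S : Finset (ZMod n)} (h : Aut θ S)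
    (Ω : Finset (ZMod n)) :
    ∑ y : ZMod n, (∑ x ∈ Ω, ((if y - x ∈ S then (1 : ℝ) else 0) - S.card / n)) ^ 2 ≤
      Ω.card * (θ * (n : ℝ) ^ 2) := by
  have h1 := aut_sq h (Ω.map (Equiv.neg (ZMod n)).toEmbedding)
  rw [Finset.card_map] at h1
  refine le_trans (le_of_eq ?_) h1
  apply Finset.sum_congr rfl
  intro y _
  rw [Finset.sum_map]
  congr 1
  apply Finset.sum_congr rfl
  intro x _
  have e : (Equiv.neg (ZMod n)).toEmbedding x + y = y - x := by
    change -x + y = y - x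
    ring
  rw [e]

end Pool.Agent.Lib.MP_c5b475_co.KN
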