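import Pool.Agent.Lib.MP_c5b475_co.KN.Grd
import Pool.Agent.Lib.MP_c5b475_co.KN.Sq

/-!
# KN/ZSt: the Z stage
Let `ρ k = |Q (cl k)|/n`, `σ k = |S k|/n`, `IS z k` = vertices of `IS` with parent `z` and kind `k`,
`m z = #{u ∈ IS : par u = z}`. `J = Kd × Bool × ZMod n`,
`F z x (k,false,y) = ∑_{u ∈ IS z k} (1[x + o u + y ∈ Q (cl k)] - ρ k)`,
`F z x (k,true,y) = ∑_{u ∈ IS z k} (1[y - (x + o u) ∈ S k] - σ k)`.
Apply `greedy` with `A = Hub`, `B = Z \ Hub`, `lab = lh`, `RS = CS = ∅`, `rk = dep`,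
`a z = 2 (m z) sqrt(θ/c) sqrt n`, `b z = 2 n (m z)^2`, `M = sqrt 8 * n * sqrt n`.
(1) `Emb Hub lh`: `lh_inj`; `dmn` is void (`hub_dom`: a `dom` vertex is not in `Hub`); colours: if `u`, `par u` are
in `Hub` then `o u = 0` (`o_dom`, `hub_dom`), so `col = lh u + lh (par u)`, `hh_inj`. `hRS`: `lh_out`. `hCS`:
`hh_out`. `hdA` void. `hdR`: `dom_out` (`x + 1` is not in `Lab`: not in any `R k'`, not a hub label).
(2) `low X Hub B dep w ⊆ (nb w ∩ Hub) ∪ ({par w} if par w ∈ B)`, because a child in `B` has larger depth;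
so at most `1 + 1` (`hub_nb`), and at most `1` for `dom` vertices (`hub_dom`). Adjacent vertices have
different depth.
(3) `hF`: for `|Ω| ≥ c n/2`: for each `k`, by Cauchy-Schwarz
`∑_y (∑_{x∈Ω} F z x (k,false,y))^2 ≤ |IS z k| ∑_{u ∈ IS z k} ∑_y (∑_{x∈Ω} (1[x + o u + y ∈ Q] - ρ))^2 ≤ |IS z k|^2 |Ω| θ n^2`
(`aut_sq`, translate `y` by `o u`), the same for `true` (`aut_sq'`); `∑_k |IS z k|^2 ≤ (m z)^2`. Sum
`≤ 2 (m z)^2 |Ω| θ n^2 ≤ (a z |Ω|)^2 = 4 (m z)^2 (θ/c) n |Ω|^2` because `|Ω| ≥ c n/2`.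
(4) `hFb`: `|F z x (k,_,y)| ≤ |IS z k|`. (5) `hFM`: `|∑_{B'} F| ≤ ∑_z |IS z k|`, sum of squares
`≤ 2 n (∑_z m z)^2 ≤ 2 n |IS|^2 ≤ 2 n (n+1)^2 ≤ 8 n^3`.
(6) Result: `∑_j (∑_B F)^2 ≤ ∑_z (2 M a z + b z) ≤ (4 sqrt 8 sqrt(θ/c) n^2 + 2 n κ₁ n) ∑_z m z`, since
`m z ≤ κ₁ n` (`hub_big`), and `∑ m z ≤ n + 1 ≤ 2 n`: total `≤ (23 sqrt(θ/c) + 4 κ₁) n^3 ≤ κ^2 n^3`.
(7) `Stat`: the expression inside the absolute value of the first sum is `D y = ∑_{z ∈ B} F z (lab z) (k,false,y)`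
(every `w ∈ IS` has its parent in `B`), and `∑_y |D y| ≤ sqrt(n ∑ D^2) ≤ sqrt(n κ^2 n^3) = κ n^2`. Same for `true`.
It is convenient to prove (3)-(5) as separate private lemmas.
-/

set_option autoImplicit false

namespace Pool.Agent.Lib.MP_c5b475_co.KN

open Finset

variable {n : ℕ} {W Kd Ψ : Type} [Fintype W] [DecidableEq W] [Fintype Kd] [DecidableEq Kd]
  [Fintype Ψ] [DecidableEq Ψ]

/-- The statistics of the attached roots `IS` of kind `k` under a labelling. -/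
def Stat [NeZero n] (X : KT W Kd Ψ) (C : Cfg n W Kd Ψ) (IS : Finset W) (lab : W → ZMod n)
    (κ : ℝ) : Prop :=
  ∀ k, (∑ y : ZMod n, |((IS.filter fun w => X.kd w = k ∧
      lab (X.t.par w) + (X.o w : ZMod n) + y ∈ C.Q (X.cl k)).card : ℝ) -
      (IS.filter fun w => X.kd w = k).card * (C.Q (X.cl k)).card / n| ≤ κ * (n : ℝ) ^ 2) ∧
    ∑ y : ZMod n, |((IS.filter fun w => X.kd w = k ∧
      y - (lab (X.t.par w) + (X.o w : ZMod n)) ∈ C.S k).card : ℝ) -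
      (IS.filter fun w => X.kd w = k).card * (C.S k).card / n| ≤ κ * (n : ℝ) ^ 2

/-- one contribution to the statistics -/
private noncomputable def zsG [NeZero n] (X : KT W Kd Ψ) (C : Cfg n W Kd Ψ) (k : Kd) (s : Bool)
    (v y : ZMod n) : ℝ :=
  if s = true then (if y - v ∈ C.S k then (1 : ℝ) else 0) - (C.S k).card / n
  else (if v + y ∈ C.Q (X.cl k) then (1 : ℝ) else 0) - (C.Q (X.cl k)).card / n

/-- the attached roots of kind `k` with parent `z` -/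
private def zsI (X : KT W Kd Ψ) (IS : Finset W) (z : W) (k : Kd) : Finset W :=
  IS.filter fun u => X.t.par u = z ∧ X.kd u = k

/-- the vector of a vertex `z` with label `x` -/
private noncomputable def zsF [NeZero n] (X : KT W Kd Ψ) (C : Cfg n W Kd Ψ) (IS : Finset W) (z : W)
    (x : ZMod n) (j : Kd × Bool × ZMod n) : ℝ :=
  ∑ u ∈ zsI X IS z j.1, zsG X C j.1 j.2.1 (x + (X.o u : ZMod n)) j.2.2

private theorem zs_frac [NeZero n] (S : Finset (ZMod n)) (p : Prop) [Decidable p] :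
    |(if p then (1 : ℝ) else 0) - (S.card : ℝ) / n| ≤ 1 := by
  have hn : (0 : ℝ) < n := by exact_mod_cast Nat.pos_of_ne_zero (NeZero.ne n)
  have h1 : (S.card : ℝ) / n ≤ 1 := by
    rw [div_le_one hn]
    have := S.card_le_univ
    rw [ZMod.card] at this
    exact_mod_cast this
  have h0 : 0 ≤ (S.card : ℝ) / n := by positivity
  rw [abs_le]
  split_ifs <;> constructor <;> linarith

private theorem zsG_abs [NeZero n] (X : KT W Kd Ψ) (C : Cfg n W Kd Ψ) (k : Kd) (s : Bool)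
    (v y : ZMod n) : |zsG X C k s v y| ≤ 1 := by
  unfold zsG
  cases s
  · exact zs_frac _ _
  · exact zs_frac _ _

private theorem zsG_sq [NeZero n] {X : KT W Kd Ψ} {C : Cfg n W Kd Ψ} {β c κ₁ κ₂ θ : ℝ} {h0 : ℕ}
    (hok : CfgOK C X β c κ₁ κ₂ θ h0) (k : Kd) (s : Bool) (Ω : Finset (ZMod n)) :
    ∑ y, (∑ x ∈ Ω, zsG X C k s x y) ^ 2 ≤ Ω.card * (θ * (n : ℝ) ^ 2) := by
  cases s
  · exact aut_sq (hok.autQ (X.cl k)) Ω
  · exact aut_sq' (hok.autS k) Ω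

private theorem zsG_sqo [NeZero n] {X : KT W Kd Ψ} {C : Cfg n W Kd Ψ} {β c κ₁ κ₂ θ : ℝ} {h0 : ℕ}
    (hok : CfgOK C X β c κ₁ κ₂ θ h0) (k : Kd) (s : Bool) (Ω : Finset (ZMod n)) (r : ZMod n) :
    ∑ y, (∑ x ∈ Ω, zsG X C k s (x + r) y) ^ 2 ≤ Ω.card * (θ * (n : ℝ) ^ 2) := by
  have h := zsG_sq hok k s (Ω.map (addRightEmbedding r))
  rw [card_map] at h
  simpa only [sum_map, addRightEmbedding_apply] using h

private theorem zsF_sq [NeZero n] {X : KT W Kd Ψ} {C : Cfg n W Kd Ψ} {β c κ₁ κ₂ θ : ℝ} {h0 : ℕ}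
    (hok : CfgOK C X β c κ₁ κ₂ θ h0) (IS : Finset W) (z : W) (k : Kd) (s : Bool)
    (Ω : Finset (ZMod n)) :
    ∑ y, (∑ x ∈ Ω, zsF X C IS z x (k, s, y)) ^ 2 ≤
      ((zsI X IS z k).card : ℝ) ^ 2 * (Ω.card * (θ * (n : ℝ) ^ 2)) := by
  have h1 : ∀ y : ZMod n, (∑ x ∈ Ω, zsF X C IS z x (k, s, y)) ^ 2 ≤
      ((zsI X IS z k).card : ℝ) * ∑ u ∈ zsI X IS z k,
        (∑ x ∈ Ω, zsG X C k s (x + (X.o u : ZMod n)) y) ^ 2 := by
    intro y
    have h2 : ∑ x ∈ Ω, zsF X C IS z x (k, s, y) =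
        ∑ u ∈ zsI X IS z k, ∑ x ∈ Ω, zsG X C k s (x + (X.o u : ZMod n)) y := by
      unfold zsF
      rw [sum_comm]
    rw [h2]
    exact sq_sum_le_card_mul_sum_sq
  calc ∑ y, (∑ x ∈ Ω, zsF X C IS z x (k, s, y)) ^ 2
      ≤ ∑ y : ZMod n, ((zsI X IS z k).card : ℝ) * ∑ u ∈ zsI X IS z k,
        (∑ x ∈ Ω, zsG X C k s (x + (X.o u : ZMod n)) y) ^ 2 := sum_le_sum fun y _ => h1 y
    _ = ((zsI X IS z k).card : ℝ) * ∑ u ∈ zsI X IS z k, ∑ y : ZMod n,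
        (∑ x ∈ Ω, zsG X C k s (x + (X.o u : ZMod n)) y) ^ 2 := by
        rw [← mul_sum, sum_comm]
    _ ≤ ((zsI X IS z k).card : ℝ) * ∑ _u ∈ zsI X IS z k, (Ω.card * (θ * (n : ℝ) ^ 2)) :=
        mul_le_mul_of_nonneg_left (sum_le_sum fun u _ => zsG_sqo hok k s Ω _) (by positivity)
    _ = _ := by
        rw [sum_const, nsmul_eq_mul]
        ring

private theorem zsF_abs [NeZero n] (X : KT W Kd Ψ) (C : Cfg n W Kd Ψ) (IS : Finset W) (z : W)
    (x : ZMod n) (j : Kd × Bool × ZMod n) : |zsF X C IS z x j| ≤ (zsI X IS z j.1).card := by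
  unfold zsF
  refine (abs_sum_le_sum_abs _ _).trans ((sum_le_sum fun u _ => zsG_abs X C _ _ _ _).trans ?_)
  rw [sum_const, nsmul_eq_mul, mul_one]

private theorem zsI_sum (X : KT W Kd Ψ) (IS : Finset W) (z : W) :
    ∑ k, ((zsI X IS z k).card : ℝ) = ((IS.filter fun u => X.t.par u = z).card : ℝ) := by
  have h := card_eq_sum_card_fiberwise (f := X.kd) (s := IS.filter fun u => X.t.par u = z)
    (t := (univ : Finset Kd)) (fun x _ => by simp)
  rw [h]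
  push_cast
  refine sum_congr rfl fun k _ => ?_
  unfold zsI
  rw [filter_filter]

private theorem zsI_sq (X : KT W Kd Ψ) (IS : Finset W) (z : W) :
    ∑ k, ((zsI X IS z k).card : ℝ) ^ 2 ≤ ((IS.filter fun u => X.t.par u = z).card : ℝ) ^ 2 := by
  rw [← zsI_sum]
  exact sum_sq_le_sq_sum_of_nonneg fun k _ => by positivity

private theorem zs_sumJ [NeZero n] (f : Kd → Bool → ZMod n → ℝ) :
    ∑ j : Kd × Bool × ZMod n, f j.1 j.2.1 j.2.2 = ∑ k, ∑ s, ∑ y, f k s y := by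
  rw [Fintype.sum_prod_type]
  refine sum_congr rfl fun k _ => ?_
  rw [Fintype.sum_prod_type]

private theorem zs_sumB (B IS : Finset W) (X : KT W Kd Ψ) :
    ∑ z ∈ B, ((IS.filter fun u => X.t.par u = z).card : ℝ) ≤ IS.card := by
  have h : ∑ z ∈ B, (IS.filter fun u => X.t.par u = z).card ≤ IS.card := by
    rw [← card_biUnion]
    · exact card_le_card (by
        intro u hu
        simp only [mem_biUnion, mem_filter] at hu
        obtain ⟨_, _, h1, _⟩ := hu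
        exact h1)
    · intro z _ z' _ hzz
      rw [Function.onFun, disjoint_left]
      intro u hu hu'
      rw [mem_filter] at hu hu'
      exact hzz (hu.2.symm.trans hu'.2)
  exact_mod_cast h

/-- (3) -/
private theorem zs_hF [NeZero n] {X : KT W Kd Ψ} {C : Cfg n W Kd Ψ} {β c κ₁ κ₂ θ : ℝ} {h0 : ℕ}
    (hok : CfgOK C X β c κ₁ κ₂ θ h0) (hc : 0 < c) (hθ : 0 < θ) (IS : Finset W) (z : W)
    (Ω : Finset (ZMod n)) (hΩ : c * n / 2 ≤ (Ω.card : ℝ)) :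
    ∑ j, (∑ x ∈ Ω, zsF X C IS z x j) ^ 2 ≤
      (2 * ((IS.filter fun u => X.t.par u = z).card : ℝ) * Real.sqrt (θ / c) * Real.sqrt n *
        Ω.card) ^ 2 := by
  have h1 := zs_sumJ (Kd := Kd) (n := n) (fun k s y => (∑ x ∈ Ω, zsF X C IS z x (k, s, y)) ^ 2)
  have h2 : ∑ j : Kd × Bool × ZMod n, (∑ x ∈ Ω, zsF X C IS z x j) ^ 2 ≤
      ∑ k, ∑ _s : Bool, ((zsI X IS z k).card : ℝ) ^ 2 * (Ω.card * (θ * (n : ℝ) ^ 2)) := by
    rw [h1]
    exact sum_le_sum fun k _ => sum_le_sum fun s _ => zsF_sq hok IS z k s Ω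
  refine h2.trans ?_
  set m : ℝ := ((IS.filter fun u => X.t.par u = z).card : ℝ) with hm
  have h3 : ∑ k, ∑ _s : Bool, ((zsI X IS z k).card : ℝ) ^ 2 * (Ω.card * (θ * (n : ℝ) ^ 2)) =
      2 * (∑ k, ((zsI X IS z k).card : ℝ) ^ 2) * (Ω.card * (θ * (n : ℝ) ^ 2)) := by
    rw [mul_assoc, sum_mul, mul_sum]
    refine sum_congr rfl fun k _ => ?_
    rw [sum_const, card_univ, Fintype.card_bool, nsmul_eq_mul]
    push_cast
    ring
  rw [h3]
  have h4 := zsI_sq X IS z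
  rw [← hm] at h4
  have hΩ0 : (0 : ℝ) ≤ Ω.card := by positivity
  have h5 : (2 * m * Real.sqrt (θ / c) * Real.sqrt n * Ω.card) ^ 2 =
      4 * m ^ 2 * (θ / c) * n * (Ω.card : ℝ) ^ 2 := by
    have e1 : Real.sqrt (θ / c) ^ 2 = θ / c := Real.sq_sqrt (by positivity)
    have e2 : Real.sqrt (n : ℝ) ^ 2 = n := Real.sq_sqrt (by positivity)
    calc _ = 4 * m ^ 2 * Real.sqrt (θ / c) ^ 2 * Real.sqrt (n : ℝ) ^ 2 * (Ω.card : ℝ) ^ 2 := by ring
      _ = _ := by rw [e1, e2]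
  rw [h5]
  calc 2 * (∑ k, ((zsI X IS z k).card : ℝ) ^ 2) * (Ω.card * (θ * (n : ℝ) ^ 2))
      ≤ 2 * m ^ 2 * (Ω.card * (θ * (n : ℝ) ^ 2)) :=
        mul_le_mul_of_nonneg_right (by linarith) (by positivity)
    _ = 4 * m ^ 2 * (θ / c) * n * ((c * n / 2) * Ω.card) := by
        field_simp
        ring
    _ ≤ 4 * m ^ 2 * (θ / c) * n * (Ω.card * Ω.card) :=
        mul_le_mul_of_nonneg_left (mul_le_mul_of_nonneg_right hΩ hΩ0) (by positivity)
    _ = _ := by ring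

/-- (4) -/
private theorem zs_hFb [NeZero n] (X : KT W Kd Ψ) (C : Cfg n W Kd Ψ) (IS : Finset W) (z : W)
    (x : ZMod n) : ∑ j, zsF X C IS z x j ^ 2 ≤
      2 * n * ((IS.filter fun u => X.t.par u = z).card : ℝ) ^ 2 := by
  have h1 := zs_sumJ (Kd := Kd) (n := n) (fun k s y => zsF X C IS z x (k, s, y) ^ 2)
  have h2 : ∑ j : Kd × Bool × ZMod n, zsF X C IS z x j ^ 2 ≤
      ∑ k, ∑ _s : Bool, ∑ _y : ZMod n, ((zsI X IS z k).card : ℝ) ^ 2 := by
    rw [h1]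
    refine sum_le_sum fun k _ => sum_le_sum fun s _ => sum_le_sum fun y _ => ?_
    rw [← sq_abs]
    exact pow_le_pow_left₀ (abs_nonneg _) (zsF_abs X C IS z x (k, s, y)) 2
  refine h2.trans ?_
  have h3 : ∑ k, ∑ _s : Bool, ∑ _y : ZMod n, ((zsI X IS z k).card : ℝ) ^ 2 =
      2 * n * ∑ k, ((zsI X IS z k).card : ℝ) ^ 2 := by
    rw [mul_sum]
    refine sum_congr rfl fun k _ => ?_
    rw [sum_const, sum_const, card_univ, Fintype.card_bool, card_univ, ZMod.card, nsmul_eq_mul,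
      nsmul_eq_mul]
    push_cast
    ring
  rw [h3]
  exact mul_le_mul_of_nonneg_left (zsI_sq X IS z) (by positivity)

/-- (5) -/
private theorem zs_hFM [NeZero n] (X : KT W Kd Ψ) (C : Cfg n W Kd Ψ) (hn : 2 ≤ n)
    (hW : Fintype.card W ≤ n + 1) (IS B : Finset W) (l : W → ZMod n) :
    ∑ j, (∑ w ∈ B, zsF X C IS w (l w) j) ^ 2 ≤ (Real.sqrt 8 * n * Real.sqrt n) ^ 2 := by
  have h1 := zs_sumJ (Kd := Kd) (n := n)
    (fun k s y => (∑ w ∈ B, zsF X C IS w (l w) (k, s, y)) ^ 2)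
  have h2 : ∑ j : Kd × Bool × ZMod n, (∑ w ∈ B, zsF X C IS w (l w) j) ^ 2 ≤
      ∑ k, ∑ _s : Bool, ∑ _y : ZMod n, (∑ w ∈ B, ((zsI X IS w k).card : ℝ)) ^ 2 := by
    rw [h1]
    refine sum_le_sum fun k _ => sum_le_sum fun s _ => sum_le_sum fun y _ => ?_
    rw [← sq_abs]
    exact pow_le_pow_left₀ (abs_nonneg _) ((abs_sum_le_sum_abs _ _).trans
      (sum_le_sum fun w _ => zsF_abs X C IS w (l w) (k, s, y))) 2
  refine h2.trans ?_
  have h3 : ∑ k, ∑ _s : Bool, ∑ _y : ZMod n, (∑ w ∈ B, ((zsI X IS w k).card : ℝ)) ^ 2 =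
      2 * n * ∑ k, (∑ w ∈ B, ((zsI X IS w k).card : ℝ)) ^ 2 := by
    rw [mul_sum]
    refine sum_congr rfl fun k _ => ?_
    rw [sum_const, sum_const, card_univ, Fintype.card_bool, card_univ, ZMod.card, nsmul_eq_mul,
      nsmul_eq_mul]
    push_cast
    ring
  rw [h3]
  have h4 : ∑ k, (∑ w ∈ B, ((zsI X IS w k).card : ℝ)) ^ 2 ≤ (2 * (n : ℝ)) ^ 2 := by
    refine (sum_sq_le_sq_sum_of_nonneg fun k _ => sum_nonneg fun w _ => by positivity).trans ?_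
    refine pow_le_pow_left₀ (sum_nonneg fun k _ => sum_nonneg fun w _ => by positivity) ?_ 2
    rw [sum_comm]
    have h5 : ∑ w ∈ B, ∑ k, ((zsI X IS w k).card : ℝ) =
        ∑ w ∈ B, ((IS.filter fun u => X.t.par u = w).card : ℝ) :=
      sum_congr rfl fun w _ => zsI_sum X IS w
    rw [h5]
    refine (zs_sumB B IS X).trans ?_
    have h6 : IS.card ≤ 2 * n := (IS.card_le_univ).trans (hW.trans (by omega))
    exact_mod_cast h6
  have e1 : Real.sqrt 8 ^ 2 = 8 := Real.sq_sqrt (by norm_num)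
  have e2 : Real.sqrt (n : ℝ) ^ 2 = n := Real.sq_sqrt (by positivity)
  calc 2 * n * ∑ k, (∑ w ∈ B, ((zsI X IS w k).card : ℝ)) ^ 2 ≤ 2 * n * (2 * (n : ℝ)) ^ 2 :=
        mul_le_mul_of_nonneg_left h4 (by positivity)
    _ = 8 * (n : ℝ) ^ 2 * n := by ring
    _ = Real.sqrt 8 ^ 2 * (n : ℝ) ^ 2 * Real.sqrt (n : ℝ) ^ 2 := by rw [e1, e2]
    _ = _ := by ring

/-- in a hub, edges have offset 0 -/
private theorem zs_o [NeZero n] {X : KT W Kd Ψ} {C : Cfg n W Kd Ψ} {β c κ₁ κ₂ θ : ℝ} {h0 : ℕ}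
    (hok : CfgOK C X β c κ₁ κ₂ θ h0) {u : W} (hu : X.EdgeIn C.Hub u) : X.o u = 0 := by
  obtain ⟨h1, h2, h3⟩ := hu
  have h4 := X.o_le u
  by_contra h5
  have h6 : X.o u = 1 := by omega
  exact (hok.hub_dom _ (X.o_dom u h1 h6)).1 h3

/-- (1) -/
private theorem zs_emb [NeZero n] {X : KT W Kd Ψ} {C : Cfg n W Kd Ψ} {β c κ₁ κ₂ θ : ℝ} {h0 : ℕ}
    (hok : CfgOK C X β c κ₁ κ₂ θ h0) : X.Emb C.Hub C.lh where
  inj := fun u hu v hv hs h => hok.lh_inj u hu v hv hs h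
  dmn := fun u hu v _ _ hd => absurd hu (hok.hub_dom u hd).1
  cin := by
    intro u v hu hv h
    unfold KT.col at h
    rw [zs_o hok hu, zs_o hok hv] at h
    simp only [Nat.cast_zero, add_zero] at h
    exact hok.hh_inj u hu.2.1 v hv.2.1 hu.1 hv.1 hu.2.2 hv.2.2 h

/-- (2) -/
private theorem zs_low (X : KT W Kd Ψ) (C : Cfg n W Kd Ψ) (B : Finset W) (w : W) :
    low X C.Hub B X.t.dep w ⊆ ((X.t.nb w).filter fun v => v ∈ C.Hub) ∪ {X.t.par w} := by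
  intro v hv
  unfold low at hv
  rw [mem_filter] at hv
  obtain ⟨h1, h2⟩ := hv
  rw [mem_union, mem_filter, mem_singleton]
  rcases h2 with h2 | ⟨h2, h3⟩
  · exact Or.inl ⟨h1, h2⟩
  · right
    unfold RTr.nb at h1
    rw [mem_union] at h1
    rcases h1 with h1 | h1
    · unfold RTr.ch at h1
      rw [mem_filter] at h1
      have h4 := X.t.dep_par v h1.2.1
      rw [h1.2.2] at h4
      omega
    · split_ifs at h1 with h5
      · simp at h1
      · rwa [mem_singleton] at h1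

private theorem zs_dep (X : KT W Kd Ψ) {w v : W} (h : v ∈ X.t.nb w) : X.t.dep v ≠ X.t.dep w := by
  unfold RTr.nb at h
  rw [mem_union] at h
  rcases h with h1 | h1
  · unfold RTr.ch at h1
    rw [mem_filter] at h1
    have h4 := X.t.dep_par v h1.2.1
    rw [h1.2.2] at h4
    omega
  · split_ifs at h1 with h5
    · simp at h1
    · rw [mem_singleton] at h1
      have h4 := X.t.dep_par w h5
      rw [h1]
      omega

private theorem zs_D [NeZero n] (X : KT W Kd Ψ) (C : Cfg n W Kd Ψ) (IS B : Finset W)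
    (hB : ∀ w ∈ IS, X.t.par w ∈ B) (lab : W → ZMod n) (k : Kd) (s : Bool) (y : ZMod n) :
    ∑ w ∈ B, zsF X C IS w (lab w) (k, s, y) =
      ∑ u ∈ IS.filter (fun u => X.kd u = k), zsG X C k s (lab (X.t.par u) + (X.o u : ZMod n)) y := by
  rw [← sum_fiberwise_of_maps_to (s := IS.filter fun u => X.kd u = k) (t := B) (g := X.t.par)
    (fun i hi => hB i (mem_filter.1 hi).1)]
  refine sum_congr rfl fun w _ => ?_
  unfold zsF zsI
  rw [filter_filter]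
  have h : (IS.filter fun u => X.t.par u = w ∧ X.kd u = k) =
      IS.filter fun u => X.kd u = k ∧ X.t.par u = w := filter_congr fun u _ => and_comm
  simp only [h]
  refine sum_congr rfl fun u hu => ?_
  rw [(mem_filter.1 hu).2.2]

private theorem zs_D0 [NeZero n] (X : KT W Kd Ψ) (C : Cfg n W Kd Ψ) (IS B : Finset W)
    (hB : ∀ w ∈ IS, X.t.par w ∈ B) (lab : W → ZMod n) (k : Kd) (y : ZMod n) :
    ((IS.filter fun w => X.kd w = k ∧
      lab (X.t.par w) + (X.o w : ZMod n) + y ∈ C.Q (X.cl k)).card : ℝ) -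
      (IS.filter fun w => X.kd w = k).card * (C.Q (X.cl k)).card / n =
    ∑ w ∈ B, zsF X C IS w (lab w) (k, false, y) := by
  rw [zs_D X C IS B hB]
  simp only [zsG, Bool.false_eq_true, if_false]
  rw [sum_sub_distrib, sum_boole, sum_const, nsmul_eq_mul, filter_filter, mul_div_assoc]

private theorem zs_D1 [NeZero n] (X : KT W Kd Ψ) (C : Cfg n W Kd Ψ) (IS B : Finset W)
    (hB : ∀ w ∈ IS, X.t.par w ∈ B) (lab : W → ZMod n) (k : Kd) (y : ZMod n) :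
    ((IS.filter fun w => X.kd w = k ∧
      y - (lab (X.t.par w) + (X.o w : ZMod n)) ∈ C.S k).card : ℝ) -
      (IS.filter fun w => X.kd w = k).card * (C.S k).card / n =
    ∑ w ∈ B, zsF X C IS w (lab w) (k, true, y) := by
  rw [zs_D X C IS B hB]
  simp only [zsG, if_true]
  rw [sum_sub_distrib, sum_boole, sum_const, nsmul_eq_mul, filter_filter, mul_div_assoc]

/-- (7) -/
private theorem zs_CS [NeZero n] (X : KT W Kd Ψ) (C : Cfg n W Kd Ψ) (IS B : Finset W)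
    (lab : W → ZMod n) {κ : ℝ} (hκ : 0 < κ)
    (h : ∑ j, (∑ w ∈ B, zsF X C IS w (lab w) j) ^ 2 ≤ κ ^ 2 * (n : ℝ) ^ 3) (k : Kd) (s : Bool) :
    ∑ y, |∑ w ∈ B, zsF X C IS w (lab w) (k, s, y)| ≤ κ * (n : ℝ) ^ 2 := by
  have h1 := zs_sumJ (Kd := Kd) (n := n)
    (fun k s y => (∑ w ∈ B, zsF X C IS w (lab w) (k, s, y)) ^ 2)
  have h2 : ∑ y, (∑ w ∈ B, zsF X C IS w (lab w) (k, s, y)) ^ 2 ≤ κ ^ 2 * (n : ℝ) ^ 3 := by
    refine le_trans ?_ h
    refine le_trans ?_ h1.symm.le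
    refine le_trans ?_ (single_le_sum (f := fun k => ∑ s : Bool, ∑ y,
      (∑ w ∈ B, zsF X C IS w (lab w) (k, s, y)) ^ 2)
      (fun k _ => sum_nonneg fun s _ => sum_nonneg fun y _ => sq_nonneg _) (mem_univ k))
    exact single_le_sum (f := fun s : Bool => ∑ y,
      (∑ w ∈ B, zsF X C IS w (lab w) (k, s, y)) ^ 2)
      (fun s _ => sum_nonneg fun y _ => sq_nonneg _) (mem_univ s)
  have h3 : (∑ y, |∑ w ∈ B, zsF X C IS w (lab w) (k, s, y)|) ^ 2 ≤ (κ * (n : ℝ) ^ 2) ^ 2 := by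
    refine sq_sum_le_card_mul_sum_sq.trans ?_
    rw [card_univ, ZMod.card]
    simp only [sq_abs]
    calc (n : ℝ) * ∑ y, (∑ w ∈ B, zsF X C IS w (lab w) (k, s, y)) ^ 2
        ≤ n * (κ ^ 2 * (n : ℝ) ^ 3) := mul_le_mul_of_nonneg_left h2 (by positivity)
      _ = _ := by ring
  exact (le_abs_self _).trans (abs_le_of_sq_le_sq h3 (by positivity))

/-- (6) -/
private theorem zs_fin [NeZero n] {X : KT W Kd Ψ} {C : Cfg n W Kd Ψ} {β c κ₁ κ₂ θ κ : ℝ} {h0 : ℕ}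
    (hok : CfgOK C X β c κ₁ κ₂ θ h0) (hκ₁ : 0 < κ₁) (hn : 2 ≤ n)
    (hW : Fintype.card W ≤ n + 1) (IS B : Finset W) (hB : ∀ w ∈ B, w ∉ C.Hub)
    (hIS : ∀ w ∈ IS, w ≠ X.t.root) (hk1 : 16 * κ₁ ≤ κ ^ 2)
    (hth : 100 * Real.sqrt (θ / c) ≤ κ ^ 2) :
    ∑ w ∈ B, (2 * (Real.sqrt 8 * n * Real.sqrt n) *
      (2 * ((IS.filter fun u => X.t.par u = w).card : ℝ) * Real.sqrt (θ / c) * Real.sqrt n) +
      2 * n * ((IS.filter fun u => X.t.par u = w).card : ℝ) ^ 2) ≤ κ ^ 2 * (n : ℝ) ^ 3 := by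
  have hn0 : (0 : ℝ) < n := by exact_mod_cast (by omega : 0 < n)
  have hs : 0 ≤ Real.sqrt (θ / c) := Real.sqrt_nonneg _
  have hterm : ∀ w ∈ B, 2 * (Real.sqrt 8 * n * Real.sqrt n) *
      (2 * ((IS.filter fun u => X.t.par u = w).card : ℝ) * Real.sqrt (θ / c) * Real.sqrt n) +
      2 * n * ((IS.filter fun u => X.t.par u = w).card : ℝ) ^ 2 ≤
      ((12 * Real.sqrt (θ / c) + 2 * κ₁) * (n : ℝ) ^ 2) *
        ((IS.filter fun u => X.t.par u = w).card : ℝ) := by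
    intro w hw
    have h1 : ((IS.filter fun u => X.t.par u = w).card : ℝ) ≤ κ₁ * n := by
      refine le_trans ?_ (hok.hub_big w (hB w hw))
      have : (IS.filter fun u => X.t.par u = w).card ≤ (X.t.ch w).card := by
        refine card_le_card fun u hu => ?_
        rw [mem_filter] at hu
        unfold RTr.ch
        rw [mem_filter]
        exact ⟨mem_univ _, hIS u hu.1, hu.2⟩
      exact_mod_cast this
    set m : ℝ := ((IS.filter fun u => X.t.par u = w).card : ℝ) with hm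
    have hm0 : 0 ≤ m := by positivity
    have e2 : Real.sqrt (n : ℝ) ^ 2 = n := Real.sq_sqrt (by positivity)
    have e8 : Real.sqrt 8 ≤ 3 := by
      rw [show (3 : ℝ) = Real.sqrt (3 ^ 2) from (Real.sqrt_sq (by norm_num)).symm]
      exact Real.sqrt_le_sqrt (by norm_num)
    calc 2 * (Real.sqrt 8 * n * Real.sqrt n) * (2 * m * Real.sqrt (θ / c) * Real.sqrt n) +
          2 * n * m ^ 2
        = 4 * Real.sqrt 8 * (Real.sqrt (θ / c) * n * Real.sqrt n ^ 2 * m) + 2 * n * m * m := by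
          ring
      _ = 4 * Real.sqrt 8 * (Real.sqrt (θ / c) * n * n * m) + 2 * n * m * m := by rw [e2]
      _ ≤ 4 * 3 * (Real.sqrt (θ / c) * n * n * m) + 2 * n * m * (κ₁ * n) := by
          refine add_le_add ?_ ?_
          · refine mul_le_mul_of_nonneg_right (by linarith) (by positivity)
          · exact mul_le_mul_of_nonneg_left h1 (by positivity)
      _ = _ := by ring
  refine (sum_le_sum hterm).trans ?_
  rw [← mul_sum]
  have h5 : ∑ w ∈ B, ((IS.filter fun u => X.t.par u = w).card : ℝ) ≤ 2 * n := by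
    refine (zs_sumB B IS X).trans ?_
    have h6 : IS.card ≤ 2 * n := (IS.card_le_univ).trans (hW.trans (by omega))
    exact_mod_cast h6
  calc ((12 * Real.sqrt (θ / c) + 2 * κ₁) * (n : ℝ) ^ 2) *
        ∑ w ∈ B, ((IS.filter fun u => X.t.par u = w).card : ℝ)
      ≤ ((12 * Real.sqrt (θ / c) + 2 * κ₁) * (n : ℝ) ^ 2) * (2 * n) :=
        mul_le_mul_of_nonneg_left h5 (by positivity)
    _ = (24 * Real.sqrt (θ / c) + 4 * κ₁) * (n : ℝ) ^ 3 := by ring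
    _ ≤ κ ^ 2 * (n : ℝ) ^ 3 := mul_le_mul_of_nonneg_right (by linarith) (by positivity)

/-- **Z stage.** -/
theorem zstage [NeZero n] (X : KT W Kd Ψ) (C : Cfg n W Kd Ψ) {β c κ₁ κ₂ θ κ : ℝ} {h0 : ℕ}
    (hc : 0 < c) (hκ : 0 < κ) (hκ₁ : 0 < κ₁) (hθ : 0 < θ) (hn : 2 ≤ n)
    (hW : Fintype.card W ≤ n + 1)
    (hok : CfgOK C X β c κ₁ κ₂ θ h0) (Z IS : Finset W) (hHub : C.Hub ⊆ Z)
    (hIS : ∀ w ∈ IS, w ≠ X.t.root ∧ X.t.par w ∈ Z ∧ X.t.par w ∉ C.Hub)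
    (hsz : (7 * Z.card : ℝ) ≤ c * n / 2) (hk1 : 16 * κ₁ ≤ κ ^ 2)
    (hth : 100 * Real.sqrt (θ / c) ≤ κ ^ 2) :
    ∃ lab : W → ZMod n, X.Emb Z lab ∧ (∀ h ∈ C.Hub, lab h = C.lh h) ∧
      (∀ z ∈ Z, z ∉ C.Hub → lab z ∈ C.R (X.kd z)) ∧
      (∀ u, X.EdgeIn Z u → ¬ X.EdgeIn C.Hub u → X.col lab u ∈ C.RC) ∧ Stat X C IS lab κ := by
  classical
  have hn0 : (0 : ℝ) < n := by exact_mod_cast (by omega : 0 < n)
  have hBH : ∀ w ∈ Z \ C.Hub, w ∉ C.Hub := fun w hw => (mem_sdiff.1 hw).2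
  obtain ⟨lab, g1, g2, g3, g4, g5⟩ := greedy X C c hc hn C.Hub (Z \ C.Hub) disjoint_sdiff C.lh
    (zs_emb hok) ∅ ∅ (fun u hu _ k hk => (hok.lh_out u hu k hk).2.1)
    (fun u hu _ => by
      unfold KT.col
      rw [zs_o hok hu, Nat.cast_zero, add_zero]
      exact (hok.hh_out u hu.2.1 hu.1 hu.2.2).1)
    (fun u hu hd => absurd hu (hok.hub_dom u hd).1)
    (fun k hd x hx => ⟨fun k' hk' hx' => hok.dom_out k hd x (Or.inr hx)
      (Or.inl ⟨k', hk', Or.inr hx'⟩), fun u hu hs hx' => hok.dom_out k hd x (Or.inr hx)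
      (Or.inr (Or.inr ⟨u, hu, hs, hx'.symm⟩))⟩)
    X.t.dep
    (fun w hw => (card_le_card (zs_low X C _ w)).trans ((card_union_le _ _).trans (by
      rw [card_singleton]
      exact Nat.add_le_add_right (hok.hub_nb w (hBH w hw)) 1)))
    (fun w hw hd => (card_le_card (zs_low X C _ w)).trans ((card_union_le _ _).trans (by
      rw [card_singleton, card_eq_zero.2 (filter_eq_empty_iff.2 (hok.hub_dom w hd).2)])))
    (fun w _ v _ hv => zs_dep X hv) hok.LBR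
    (by
      have h1 : ((Z \ C.Hub).card : ℝ) ≤ Z.card := by exact_mod_cast card_le_card sdiff_subset
      rw [card_empty, Nat.cast_zero]
      linarith)
    (zsF X C IS)
    (fun z => 2 * ((IS.filter fun u => X.t.par u = z).card : ℝ) * Real.sqrt (θ / c) *
      Real.sqrt n)
    (fun z => 2 * n * ((IS.filter fun u => X.t.par u = z).card : ℝ) ^ 2)
    (Real.sqrt 8 * n * Real.sqrt n) (by positivity) (fun w _ => by positivity)
    (fun w _ Ω hΩ => zs_hF hok hc hθ IS w Ω hΩ) (fun w _ x => zs_hFb X C IS w x)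
    (fun B' _ l => zs_hFM X C hn hW IS B' l)
  have hZ : C.Hub ∪ (Z \ C.Hub) = Z := union_sdiff_of_subset hHub
  rw [hZ] at g2 g4
  have g6 := g5.trans (zs_fin (κ := κ) hok hκ₁ hn hW IS (Z \ C.Hub) hBH (fun w hw => (hIS w hw).1)
    hk1 hth)
  have hB : ∀ w ∈ IS, X.t.par w ∈ Z \ C.Hub := fun w hw => mem_sdiff.2 (hIS w hw).2
  refine ⟨lab, g2, g1, fun z hz hzh => g3 z (mem_sdiff.2 ⟨hz, hzh⟩), g4, fun k => ⟨?_, ?_⟩⟩
  · simp only [zs_D0 X C IS _ hB lab k]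
    exact zs_CS X C IS _ lab hκ g6 k false
  · simp only [zs_D1 X C IS _ hB lab k]
    exact zs_CS X C IS _ lab hκ g6 k true

end Pool.Agent.Lib.MP_c5b475_co.KN
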