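import Pool.Agent.Lib.MP_c5b475_co.KN.CovA
import Pool.Agent.Lib.MP_c5b475_co.KN.Enum
import Pool.Agent.Lib.MP_c5b475_co.KN.ZSt
import Pool.Agent.Lib.MP_c5b475_co.KN.Stage

/-!
# KN/CovB: the pieces of the tree as a family `Pcs`

`exists_enm`: for `c ∈ IS` apply `enum_mono` to `A = pcs X U c`, `f = dep` (`Inhabited W` by the root);
`e c 0 = c`: `c ∈ pcs c`, its index `t` has `dep (e c 0) ≤ dep (e c t) = dep c`, but every other element of the
piece has depth `> dep c` (`pc_dep`). `idx_spec`, `idx_e`: `surj`, `inj`.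
`par_step`: `e c t ≠ c` (`inj`, `zero`, `t ≥ 1`), so `pc_par` gives `par (e c t) ∈ pcs c`, not in `U`; its index is
`< t`, otherwise `mono` gives `dep (e c t) ≤ dep (par (e c t))`, but a vertex that is not the root (it is not in
`U`) has depth one more than its parent.
`sum_T_le`: the pieces of different `c, c' ∈ IS` are disjoint (`top_unique`), `∑ T i = ∑_{c ∈ IS} |pcs c|`.
`count_steps`: the map `(c,t) ↦ e c t` from `{(c,t) : c ∈ IS, t < |pcs c|, q c t}` to `{w ∉ U : p w}` is injective: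
equal images are in two pieces, so `c = c'` by `top_unique`, then `t = t'` by `inj`.
-/

set_option autoImplicit false

namespace Pool.Agent.Lib.MP_c5b475_co.KN

open Finset

variable {n : ℕ} {W Kd Ψ : Type} [Fintype W] [DecidableEq W] [Fintype Kd] [DecidableEq Kd]
  [Fintype Ψ] [DecidableEq Ψ]

open Classical in
/-- the piece with root `c` -/
noncomputable def pcs (X : KT W Kd Ψ) (U : Finset W) (c : W) : Finset W :=
  univ.filter fun w => X.t.Pc U w c

/-- `e c` enumerates the piece with root `c ∈ IS`, along the depth, starting with `c`. -/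
structure Enm (X : KT W Kd Ψ) (U IS : Finset W) (e : W → ℕ → W) : Prop where
  mem : ∀ c ∈ IS, ∀ t < (pcs X U c).card, e c t ∈ pcs X U c
  inj : ∀ c ∈ IS, ∀ t < (pcs X U c).card, ∀ u < (pcs X U c).card, e c t = e c u → t = u
  surj : ∀ c ∈ IS, ∀ w ∈ pcs X U c, ∃ t < (pcs X U c).card, e c t = w
  mono : ∀ c ∈ IS, ∀ t u, t ≤ u → u < (pcs X U c).card → X.t.dep (e c t) ≤ X.t.dep (e c u)
  zero : ∀ c ∈ IS, e c 0 = c

open Classical in
/-- position of `w` in the enumeration of the piece of `c` -/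
noncomputable def idx (X : KT W Kd Ψ) (U : Finset W) (e : W → ℕ → W) (c w : W) : ℕ :=
  if h : ∃ t < (pcs X U c).card, e c t = w then h.choose else 0

/-- the pairs (hub, kind) with their own label sets -/
abbrev HP [NeZero n] (X : KT W Kd Ψ) (C : Cfg n W Kd Ψ) (κ₂ : ℝ) : Type :=
  {p : W × Kd // p.1 ∈ C.Hub ∧ κ₂ * n ≤ (Cfg.nch X p.1 p.2 : ℝ)}

open Classical in
/-- label set of step `0` of the piece with root `c` -/
noncomputable def ph0 [NeZero n] (X : KT W Kd Ψ) (C : Cfg n W Kd Ψ) (κ₂ : ℝ) (c : W) :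
    Kd ⊕ HP X C κ₂ :=
  if h : X.t.par c ∈ C.Hub ∧ κ₂ * n ≤ (Cfg.nch X (X.t.par c) (X.kd c) : ℝ) then
    Sum.inr ⟨(X.t.par c, X.kd c), h⟩ else Sum.inl (X.kd c)

open Classical in
/-- the family of pieces with roots in `IS` -/
noncomputable def mkP [NeZero n] (X : KT W Kd Ψ) (C : Cfg n W Kd Ψ) (U IS Z : Finset W) (κ₂ : ℝ)
    (e : W → ℕ → W) (lab₀ : W → ZMod n) : Pcs n (Kd ⊕ HP X C κ₂) Ψ {c : W // c ∈ IS} where
  T c := (pcs X U c.1).card
  ph c t := if t = 0 then ph0 X C κ₂ c.1 else Sum.inl (X.kd (e c.1 t))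
  att c := if X.t.par c.1 ∈ C.Hub ∨ X.t.par c.1 ∉ Z then none
    else some (lab₀ (X.t.par c.1) + (X.o c.1 : ZMod n), X.cl (X.kd c.1))
  pr c t := if idx X U e c.1 (X.t.par (e c.1 t)) < t then idx X U e c.1 (X.t.par (e c.1 t)) else 0
  ofs c t := (X.o (e c.1 t) : ZMod n)
  cl c t := X.cl (X.kd (e c.1 t))

open Classical in
/-- the label sets of the family -/
noncomputable def mkS [NeZero n] (X : KT W Kd Ψ) (C : Cfg n W Kd Ψ) (κ₂ : ℝ) :
    Kd ⊕ HP X C κ₂ → Finset (ZMod n)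
  | Sum.inl k => C.S k
  | Sum.inr p => C.Y p.1.1 p.1.2

open Classical in
/-- `IS` is contained in `Iset`; its elements are exactly the allowed roots. -/
theorem exists_enm (X : KT W Kd Ψ) (U IS : Finset W) (hU : X.t.root ∈ U) (hIS : ∀ c ∈ IS, c ∉ U) :
    ∃ e : W → ℕ → W, Enm X U IS e := by
  have : Inhabited W := ⟨X.t.root⟩
  choose e he using fun c => enum_mono (pcs X U c) X.t.dep
  refine ⟨e, ⟨fun c _ => (he c).1, fun c _ => (he c).2.1, fun c _ => (he c).2.2.1,
    fun c _ => (he c).2.2.2, ?_⟩⟩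
  intro c hc
  have hcU := hIS c hc
  have hmem : c ∈ pcs X U c := mem_filter.2 ⟨mem_univ _, X.t.pc_refl hcU⟩
  obtain ⟨t, ht, hte⟩ := (he c).2.2.1 c hmem
  have h0 : 0 < (pcs X U c).card := card_pos.2 ⟨c, hmem⟩
  have h1 := (he c).2.2.2 0 t (Nat.zero_le _) ht
  rw [hte] at h1
  by_contra hne
  have h2 : X.t.Pc U (e c 0) c := (mem_filter.1 ((he c).1 0 h0)).2
  have h3 := X.t.pc_dep hU h2 hne
  omega

theorem idx_spec (X : KT W Kd Ψ) {U IS : Finset W} {e : W → ℕ → W} (he : Enm X U IS e) {c w : W}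
    (hc : c ∈ IS) (hw : w ∈ pcs X U c) :
    idx X U e c w < (pcs X U c).card ∧ e c (idx X U e c w) = w := by
  have h := he.surj c hc w hw
  unfold idx
  rw [dif_pos h]
  exact h.choose_spec

theorem idx_e (X : KT W Kd Ψ) {U IS : Finset W} {e : W → ℕ → W} (he : Enm X U IS e) {c : W}
    (hc : c ∈ IS) {t : ℕ} (ht : t < (pcs X U c).card) : idx X U e c (e c t) = t := by
  obtain ⟨h1, h2⟩ := idx_spec X he hc (he.mem c hc t ht)
  exact he.inj c hc _ h1 _ ht h2

/-- For a step `t ≥ 1` the parent of `e c t` is in the piece and has a smaller index. -/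
theorem par_step (X : KT W Kd Ψ) {U IS : Finset W} {e : W → ℕ → W} (he : Enm X U IS e)
    (hU : X.t.root ∈ U) {c : W} (hc : c ∈ IS) {t : ℕ} (h1 : 1 ≤ t) (ht : t < (pcs X U c).card) :
    X.t.par (e c t) ∈ pcs X U c ∧ idx X U e c (X.t.par (e c t)) < t ∧ e c t ∉ U ∧
      X.t.par (e c t) ∉ U := by
  classical
  have hmem := he.mem c hc t ht
  have hpc : X.t.Pc U (e c t) c := by
    unfold pcs at hmem
    exact (mem_filter.1 hmem).2
  have hne : e c t ≠ c := by
    intro h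
    have h2 : e c t = e c 0 := by rw [h, he.zero c hc]
    have := he.inj c hc t ht 0 (by omega) h2
    omega
  obtain ⟨h3, h4⟩ := X.t.pc_par hpc hne
  have h5 := (X.t.pc_not_mem hpc).1
  have hp : X.t.par (e c t) ∈ pcs X U c := by
    unfold pcs
    exact mem_filter.2 ⟨mem_univ _, h3⟩
  refine ⟨hp, ?_, h5, h4⟩
  obtain ⟨h6, h7⟩ := idx_spec X he hc hp
  by_contra hlt
  have h8 := he.mono c hc t _ (not_lt.1 hlt) h6
  rw [h7] at h8
  have h9 : e c t ≠ X.t.root := fun h => h5 (h ▸ hU)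
  have h10 := X.t.dep_par _ h9
  omega

/-- the pieces are disjoint and `∑ T ≤ card W` -/
theorem sum_T_le [NeZero n] (X : KT W Kd Ψ) (C : Cfg n W Kd Ψ) {U IS Z : Finset W} (κ₂ : ℝ)
    (e : W → ℕ → W) (lab₀ : W → ZMod n) (hU : X.t.root ∈ U)
    (hIS : ∀ c ∈ IS, c ∉ U ∧ X.t.par c ∈ U) :
    ∑ i, (mkP X C U IS Z κ₂ e lab₀).T i ≤ Fintype.card W := by
  classical
  have _ := hU
  have h1 : ∑ i, (mkP X C U IS Z κ₂ e lab₀).T i =
      ((univ : Finset {c : W // c ∈ IS}).biUnion fun c => pcs X U c.1).card := by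
    rw [card_biUnion]
    · rfl
    · intro c _ c' _ hne
      show Disjoint (pcs X U c.1) (pcs X U c'.1)
      rw [Finset.disjoint_left]
      intro w hw hw'
      unfold pcs at hw hw'
      exact hne (Subtype.ext (X.t.top_unique (mem_filter.1 hw).2 (hIS c.1 c.2).2
        (mem_filter.1 hw').2 (hIS c'.1 c'.2).2))
  rw [h1]
  exact card_le_univ _

open Classical in
/-- Counting steps by vertices: for a property `p` of vertices. -/
theorem count_steps [NeZero n] (X : KT W Kd Ψ) {U IS : Finset W} {e : W → ℕ → W}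
    (he : Enm X U IS e) (hU : X.t.root ∈ U) (hIS : ∀ c ∈ IS, c ∉ U ∧ X.t.par c ∈ U)
    (q : W → ℕ → Prop) (p : W → Prop)
    (hq : ∀ c ∈ IS, ∀ t < (pcs X U c).card, q c t → p (e c t)) :
    ∑ c : {c : W // c ∈ IS}, ((range (pcs X U c.1).card).filter fun t => q c.1 t).card ≤
      (univ.filter fun w => w ∉ U ∧ p w).card := by
  have _ := hU
  rw [← card_sigma]
  refine card_le_card_of_injOn (fun x => e x.1.1 x.2) ?_ ?_
  · intro x hx
    rw [mem_coe, mem_sigma, mem_filter, mem_range] at hx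
    have h1 := he.mem x.1.1 x.1.2 x.2 hx.2.1
    unfold pcs at h1
    rw [mem_coe, mem_filter]
    exact ⟨mem_univ _, (X.t.pc_not_mem (mem_filter.1 h1).2).1, hq _ x.1.2 _ hx.2.1 hx.2.2⟩
  · intro x hx y hy hxy
    rw [mem_coe, mem_sigma, mem_filter, mem_range] at hx hy
    obtain ⟨⟨c, hc⟩, t⟩ := x
    obtain ⟨⟨c', hc'⟩, t'⟩ := y
    have hxy' : e c t = e c' t' := hxy
    have h1 := he.mem c hc t hx.2.1
    have h2 := he.mem c' hc' t' hy.2.1
    rw [← hxy'] at h2
    unfold pcs at h1 h2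
    have h3 := X.t.top_unique (mem_filter.1 h1).2 (hIS c hc).2 (mem_filter.1 h2).2 (hIS c' hc').2
    subst h3
    have h4 := he.inj c hc t hx.2.1 t' hy.2.1 hxy'
    subst h4
    rfl

end Pool.Agent.Lib.MP_c5b475_co.KN
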