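import Pool.Agent.Lib.MP_c5b475_co.KN.CovB

/-!
# KN/CovC: loads of the family of pieces

`U = Z ∪ D`, `IS = Iset X C U κ₂`. For `c ∈ IS` (see `Iset`): `c ∉ U`, `par c ∈ U`, `spl (kd c) = false`, and
`par c ∈ Hub` implies `κ₂ n ≤ nch`.

`loads_inl`: `count_steps` with `q c t := ph = inl k` and `p w := kd w = k ∧ par w ∉ Hub`. Step `0`: if
`ph0 c = inl k` then not (`par c ∈ Hub` and `κ₂ n ≤ nch`), so `par c ∉ Hub` by `Iset`, and `kd c = k`; `e c 0 = c`.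
Step `t ≥ 1`: `kd (e c t) = k`, and `par (e c t) ∉ U` (`par_step`), `Hub ⊆ Z ⊆ U`. A vertex outside `U` is not the
root, so the count is `≤` the left side of `loadS`.
`loads_inr`: `ph i t = inr p` only for `t = 0`, `par c = p.1`, `kd c = p.2`; so the sum is at most
`nch X p.1 p.2` (the vertices `c` are children of `p.1` of kind `p.2`; `c` is not the root because `c ∉ U`),
and `Y_big` (with the second component of `p.2`).
`loads_col`: the pieces with `att.map snd = some a` are counted by step `0`: `count_steps` with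
`q c t := (t = 0 ∧ (att).map snd = some a) ∨ (1 ≤ t ∧ cl = a)` and `p w := cl (kd w) = a ∧ par w ∉ Hub` (an attached root
has `par c ∉ Hub`), then `loadQ`. (`#{i : ..} = ∑_i #{t ∈ range (T i) : t = 0 ∧ ..}` since `1 ≤ T i`.)
-/

set_option autoImplicit false

namespace Pool.Agent.Lib.MP_c5b475_co.KN

open Finset

variable {n : ℕ} {W Kd Ψ : Type} [Fintype W] [DecidableEq W] [Fintype Kd] [DecidableEq Kd]
  [Fintype Ψ] [DecidableEq Ψ]

private theorem CovC_root [NeZero n] (X : KT W Kd Ψ) {Z D : Finset W} (hroot : X.t.root ∈ Z) :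
    X.t.root ∈ Z ∪ D := mem_union_left _ hroot

private theorem CovC_iset [NeZero n] (X : KT W Kd Ψ) (C : Cfg n W Kd Ψ) {κ₂ : ℝ} {U : Finset W}
    {c : W} (h : c ∈ Iset X C U κ₂) : c ∉ U ∧ X.t.par c ∈ U ∧
      (X.t.par c ∈ C.Hub → κ₂ * n ≤ (Cfg.nch X (X.t.par c) (X.kd c) : ℝ)) := by
  classical
  unfold Iset at h
  rw [mem_filter] at h
  exact ⟨h.2.1, h.2.2.1, h.2.2.2.2⟩

private theorem CovC_is [NeZero n] (X : KT W Kd Ψ) (C : Cfg n W Kd Ψ) {κ₂ : ℝ} {U : Finset W} :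
    ∀ c ∈ Iset X C U κ₂, c ∉ U ∧ X.t.par c ∈ U := fun _ h =>
  ⟨(CovC_iset X C h).1, (CovC_iset X C h).2.1⟩

private theorem CovC_pos [NeZero n] (X : KT W Kd Ψ) (C : Cfg n W Kd Ψ) {κ₂ : ℝ} {U : Finset W}
    {c : W} (h : c ∈ Iset X C U κ₂) : 0 < (pcs X U c).card := by
  classical
  refine card_pos.2 ⟨c, ?_⟩
  unfold pcs
  exact mem_filter.2 ⟨mem_univ _, X.t.pc_refl (CovC_iset X C h).1⟩

private theorem CovC_count [NeZero n] (X : KT W Kd Ψ) (C : Cfg n W Kd Ψ) {κ₂ : ℝ} {U : Finset W}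
    {e : W → ℕ → W} (he : Enm X U (Iset X C U κ₂) e) (hU : X.t.root ∈ U) (q : W → ℕ → Prop)
    (p : W → Prop) (hq : ∀ c ∈ Iset X C U κ₂, ∀ t < (pcs X U c).card, q c t → p (e c t))
    (F : {c : W // c ∈ Iset X C U κ₂} → Finset ℕ)
    (hF : ∀ i, ∀ t ∈ F i, t < (pcs X U i.1).card ∧ q i.1 t) (S : Finset W)
    (hS : ∀ w, w ∉ U → p w → w ∈ S) : ∑ i, (F i).card ≤ S.card := by
  classical
  have h1 := count_steps (n := n) X he hU (CovC_is X C) q p hq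
  refine le_trans (sum_le_sum fun i _ => card_le_card ?_) (h1.trans (card_le_card ?_))
  · intro t ht
    exact mem_filter.2 ⟨mem_range.2 (hF i t ht).1, (hF i t ht).2⟩
  · intro w hw
    exact hS w (mem_filter.1 hw).2.1 (mem_filter.1 hw).2.2

open Classical in
theorem loads_inl [NeZero n] (X : KT W Kd Ψ) (C : Cfg n W Kd Ψ) {β c κ₁ κ₂ θ : ℝ} {h0 : ℕ}
    (hok : CfgOK C X β c κ₁ κ₂ θ h0) {Z D : Finset W} (hroot : X.t.root ∈ Z) (hHub : C.Hub ⊆ Z)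
    {e : W → ℕ → W} (he : Enm X (Z ∪ D) (Iset X C (Z ∪ D) κ₂) e) (lab₀ : W → ZMod n) (k : Kd) :
    ∑ i, ((range ((mkP X C (Z ∪ D) (Iset X C (Z ∪ D) κ₂) Z κ₂ e lab₀).T i)).filter fun t =>
      (mkP X C (Z ∪ D) (Iset X C (Z ∪ D) κ₂) Z κ₂ e lab₀).ph i t = Sum.inl k).card ≤
      (C.S k).card := by
  have hU : X.t.root ∈ Z ∪ D := mem_union_left _ hroot
  refine le_trans (CovC_count X C he hU
    (fun v t => (t = 0 ∧ ph0 X C κ₂ v = Sum.inl k) ∨ (1 ≤ t ∧ X.kd (e v t) = k))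
    (fun w => X.kd w = k ∧ X.t.par w ∉ C.Hub) ?_ _ ?_ _ ?_) (hok.loadS k)
  · intro v hv t ht hq
    rcases hq with ⟨h0, h2⟩ | ⟨h0, h2⟩
    · subst h0
      rw [he.zero v hv]
      unfold ph0 at h2
      by_cases h3 : X.t.par v ∈ C.Hub ∧ κ₂ * n ≤ (Cfg.nch X (X.t.par v) (X.kd v) : ℝ)
      · rw [dif_pos h3] at h2
        cases h2
      · rw [dif_neg h3] at h2
        exact ⟨Sum.inl.inj h2, fun h4 => h3 ⟨h4, (CovC_iset X C hv).2.2 h4⟩⟩
    · have h3 := par_step X he hU hv h0 ht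
      exact ⟨h2, fun h4 => h3.2.2.2 (mem_union_left _ (hHub h4))⟩
  · intro i t ht
    rw [mem_filter] at ht
    refine ⟨mem_range.1 ht.1, ?_⟩
    have h3 : (if t = 0 then ph0 X C κ₂ i.1 else Sum.inl (X.kd (e i.1 t))) = Sum.inl k := ht.2
    by_cases h0 : t = 0
    · rw [if_pos h0] at h3
      exact Or.inl ⟨h0, h3⟩
    · rw [if_neg h0] at h3
      exact Or.inr ⟨Nat.one_le_iff_ne_zero.2 h0, Sum.inl.inj h3⟩
  · intro w hw hp
    rw [mem_filter]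
    exact ⟨mem_univ _, fun h => hw (h ▸ hU), hp⟩

open Classical in
theorem loads_inr [NeZero n] (X : KT W Kd Ψ) (C : Cfg n W Kd Ψ) {β c κ₁ κ₂ θ : ℝ} {h0 : ℕ}
    (hok : CfgOK C X β c κ₁ κ₂ θ h0) {Z D : Finset W} (hroot : X.t.root ∈ Z) (hHub : C.Hub ⊆ Z)
    {e : W → ℕ → W} (he : Enm X (Z ∪ D) (Iset X C (Z ∪ D) κ₂) e) (lab₀ : W → ZMod n)
    (p : HP X C κ₂) :
    ∑ i, ((range ((mkP X C (Z ∪ D) (Iset X C (Z ∪ D) κ₂) Z κ₂ e lab₀).T i)).filter fun t =>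
      (mkP X C (Z ∪ D) (Iset X C (Z ∪ D) κ₂) Z κ₂ e lab₀).ph i t = Sum.inr p).card ≤
      (C.Y p.1.1 p.1.2).card := by
  have hU : X.t.root ∈ Z ∪ D := mem_union_left _ hroot
  have _ := hHub
  have h5 := hok.Y_big p.1.1 p.2.1 p.1.2 p.2.2
  refine le_trans ?_ h5
  unfold Cfg.nch
  refine CovC_count X C he hU (fun v t => t = 0 ∧ ph0 X C κ₂ v = Sum.inr p)
    (fun w => X.t.par w = p.1.1 ∧ X.kd w = p.1.2) ?_ _ ?_ _ ?_
  · intro v hv t ht hq
    obtain ⟨h0, h2⟩ := hq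
    subst h0
    rw [he.zero v hv]
    unfold ph0 at h2
    by_cases h3 : X.t.par v ∈ C.Hub ∧ κ₂ * n ≤ (Cfg.nch X (X.t.par v) (X.kd v) : ℝ)
    · rw [dif_pos h3] at h2
      have h4 := Sum.inr.inj h2
      rw [← h4]
      exact ⟨rfl, rfl⟩
    · rw [dif_neg h3] at h2
      cases h2
  · intro i t ht
    rw [mem_filter] at ht
    refine ⟨mem_range.1 ht.1, ?_⟩
    have h3 : (if t = 0 then ph0 X C κ₂ i.1 else Sum.inl (X.kd (e i.1 t))) = Sum.inr p := ht.2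
    by_cases h0 : t = 0
    · rw [if_pos h0] at h3
      exact ⟨h0, h3⟩
    · rw [if_neg h0] at h3
      cases h3
  · intro w hw hp
    rw [mem_filter, RTr.mem_ch]
    exact ⟨⟨fun h => hw (h ▸ hU), hp.1⟩, hp.2⟩

open Classical in
theorem loads_col [NeZero n] (X : KT W Kd Ψ) (C : Cfg n W Kd Ψ) {β c κ₁ κ₂ θ : ℝ} {h0 : ℕ}
    (hok : CfgOK C X β c κ₁ κ₂ θ h0) {Z D : Finset W} (hroot : X.t.root ∈ Z) (hHub : C.Hub ⊆ Z)
    {e : W → ℕ → W} (he : Enm X (Z ∪ D) (Iset X C (Z ∪ D) κ₂) e) (lab₀ : W → ZMod n) (a : Ψ) :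
    (univ.filter fun i =>
      ((mkP X C (Z ∪ D) (Iset X C (Z ∪ D) κ₂) Z κ₂ e lab₀).att i).map Prod.snd = some a).card +
    ∑ i, ((range ((mkP X C (Z ∪ D) (Iset X C (Z ∪ D) κ₂) Z κ₂ e lab₀).T i)).filter fun t =>
      1 ≤ t ∧ (mkP X C (Z ∪ D) (Iset X C (Z ∪ D) κ₂) Z κ₂ e lab₀).cl i t = a).card ≤
      (C.Q a).card := by
  have hU : X.t.root ∈ Z ∪ D := mem_union_left _ hroot
  obtain ⟨G, hG⟩ : ∃ G : {v : W // v ∈ Iset X C (Z ∪ D) κ₂} → Finset ℕ, G = fun i =>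
    (range ((mkP X C (Z ∪ D) (Iset X C (Z ∪ D) κ₂) Z κ₂ e lab₀).T i)).filter fun t =>
      1 ≤ t ∧ (mkP X C (Z ∪ D) (Iset X C (Z ∪ D) κ₂) Z κ₂ e lab₀).cl i t = a := ⟨_, rfl⟩
  have hGm : ∀ i, ∀ t ∈ G i, t < (pcs X (Z ∪ D) i.1).card ∧ 1 ≤ t ∧
      X.cl (X.kd (e i.1 t)) = a := by
    intro i t ht
    rw [hG] at ht
    rw [mem_filter] at ht
    exact ⟨mem_range.1 ht.1, ht.2⟩
  refine le_trans ?_ (hok.loadQ a)
  refine le_trans ?_ (CovC_count X C he hU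
    (fun v t => (t = 0 ∧ (X.t.par v ∉ C.Hub ∧ X.cl (X.kd v) = a)) ∨
      (1 ≤ t ∧ X.cl (X.kd (e v t)) = a))
    (fun w => X.cl (X.kd w) = a ∧ X.t.par w ∉ C.Hub) ?_
    (fun i => if ((mkP X C (Z ∪ D) (Iset X C (Z ∪ D) κ₂) Z κ₂ e lab₀).att i).map Prod.snd =
      some a then insert 0 (G i) else G i) ?_ _ ?_)
  · rw [card_filter, ← sum_add_distrib]
    refine sum_le_sum fun i _ => ?_
    have hGi : ((range ((mkP X C (Z ∪ D) (Iset X C (Z ∪ D) κ₂) Z κ₂ e lab₀).T i)).filter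
        fun t => 1 ≤ t ∧ (mkP X C (Z ∪ D) (Iset X C (Z ∪ D) κ₂) Z κ₂ e lab₀).cl i t = a) =
        G i := by
      rw [hG]
    rw [hGi]
    by_cases hc : ((mkP X C (Z ∪ D) (Iset X C (Z ∪ D) κ₂) Z κ₂ e lab₀).att i).map Prod.snd =
      some a
    · rw [if_pos hc, if_pos hc]
      have h6 : (0 : ℕ) ∉ G i := by
        intro h7
        have := (hGm i 0 h7).2.1
        omega
      rw [card_insert_of_notMem h6, add_comm]
    · rw [if_neg hc, if_neg hc, zero_add]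
  · intro v hv t ht hq
    rcases hq with ⟨h0, h2⟩ | ⟨h0, h2⟩
    · subst h0
      rw [he.zero v hv]
      exact ⟨h2.2, h2.1⟩
    · have h3 := par_step X he hU hv h0 ht
      exact ⟨h2, fun h4 => h3.2.2.2 (mem_union_left _ (hHub h4))⟩
  · intro i t ht
    by_cases hc : ((mkP X C (Z ∪ D) (Iset X C (Z ∪ D) κ₂) Z κ₂ e lab₀).att i).map Prod.snd =
      some a
    · have ht' : t ∈ insert 0 (G i) := by
        rwa [if_pos hc] at ht
      rw [mem_insert] at ht'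
      rcases ht' with h7 | h7
      · subst h7
        refine ⟨CovC_pos X C i.2, Or.inl ⟨rfl, ?_⟩⟩
        have hc' : (if X.t.par i.1 ∈ C.Hub ∨ X.t.par i.1 ∉ Z then none
          else some (lab₀ (X.t.par i.1) + (X.o i.1 : ZMod n), X.cl (X.kd i.1))).map Prod.snd =
            some a := hc
        by_cases h5 : X.t.par i.1 ∈ C.Hub ∨ X.t.par i.1 ∉ Z
        · rw [if_pos h5] at hc'
          cases hc'
        · rw [if_neg h5] at hc'
          exact ⟨fun h6 => h5 (Or.inl h6), Option.some.inj hc'⟩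
      · exact ⟨(hGm i t h7).1, Or.inr (hGm i t h7).2⟩
    · have ht' : t ∈ G i := by
        rwa [if_neg hc] at ht
      exact ⟨(hGm i t ht').1, Or.inr (hGm i t ht').2⟩
  · intro w hw hp
    rw [mem_filter]
    exact ⟨mem_univ _, fun h => hw (h ▸ hU), hp⟩

end Pool.Agent.Lib.MP_c5b475_co.KN
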