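import Pool.Agent.Lib.MP_c5b475_co.KN.CovB

/-!
# KN/CovD: from the embedded pieces to a labelling of the tree

`P = mkP ..`, `U = Z ∪ D`, `cv` = set of the roots in `cov`. DEFINITION of `lab`: `lab₀ w` for `w ∈ Z`; for `w`
in `Cov X U cv`: `c = top U w ∈ cv`, `t = idx c w`, `lab w = y c t`; else `0`. (`Cov` is disjoint from `U`.)
(d1) for `w ∈ Cov`: `w = e c t`, `t < T c` (`idx_spec`).
(d2) labels (`Good`): `t = 0` (`w = c`): `ph0 c`, either `inr`: `lab w ∈ Y (par w) (kd w)` with `par w ∈ Hub`,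
`w ∈ cv`, or `inl`: `lab w ∈ S (kd w)`. `t ≥ 1`: `lab w ∈ S (kd w)`.
(d3) colours, `w ∈ Cov`, `par w ∉ D`: `t = 0`: `par w ∈ U`, so `par w ∈ Z`; if `par w ∈ Hub` then `ph0 = inr` by
`Iset` and (d2) gives the second alternative; if `par w ∉ Hub` then `P.col c y 0 = some (lab₀ (par w) + o w + y c 0,
cl (kd w))`, this is `X.col lab w`. `t ≥ 1`: `par w ∈ pcs c`, `pr c t = idx c (par w)` (`par_step`), so `P.col c (y c) t` is
`some (lab (par w) + o w + lab w, cl (kd w))`. In both cases `Good` gives `X.col lab w ∈ Q (cl (kd w))`.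
Record: for `w ∈ Cov` with `par w ∉ D` and not (`w ∈ cv`, `par w ∈ Hub`): `P.col c (y c) t = some (X.col lab w, cl (kd w))`.
(d4) `inj`. Two vertices of `Z`: `hE`. `u ∈ Z`, `v ∈ Cov`: `lab u = lh u` or `∈ R`, `lab v ∈ S` or `Y`: `lh_out`,
`SR`, `RY`. Two vertices `u = e c t`, `v = e c' t'` of `Cov`, `u ≠ v`, so `(c,t) ≠ (c',t')`: if the `ph` are equal,
`Sep`; otherwise the label sets are disjoint: `SS`, `SY`, `YY` (the kinds in `ph` are the kinds of `u`, `v`).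
(d5) `dmn`: a `dom` vertex is not in `Hub` and has no neighbour in `Hub` (`hub_dom`), so its label is in `S` or
`R` of its kind; `dom_out` says that `lab u + 1` is not in `Lab`, while `lab v ∈ Lab`.
(d6) `cin`. Edges of `Z ∪ Cov`: `w ∈ Z`, `par w ∈ Z` (colour in `RC`, or an edge of `Hub`); `w ∈ Cov`,
`par w ∈ Z ∪ Cov` (never in `D`): colour in `Q` as in (d3), or `w ∈ cv`, `par w = h ∈ Hub`, `lab w ∈ Y h (kd w)` and then
`o w = 0` (`o_dom`, `hub_dom`), colour `= lh h + lab w`. `w ∈ Z`, `par w ∈ Cov` is impossible (`hch`). All pairs: `Z`,`Z`: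
`hE`. `RC`/`Q`: `QRC`; hub edge (`o = 0`) / `Q`: `hh_out`; `RC`/hub child: `YQ`; hub edge/hub child: `hh_out`;
`Q`/`Q`: classes different: `QQ`, equal: `Sep`; `Q`/hub child: `YQ`; two hub children: `YYc` gives the same
hub and kind, so the labels are equal and `Sep` (same `ph = inr ..`) says it is the same step.
-/

set_option autoImplicit false

namespace Pool.Agent.Lib.MP_c5b475_co.KN

open Finset

variable {n : ℕ} {W Kd Ψ : Type} [Fintype W] [DecidableEq W] [Fintype Kd] [DecidableEq Kd]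
  [Fintype Ψ] [DecidableEq Ψ]

open Classical in
/-- the labelling -/
private noncomputable def CovD_lab [NeZero n] (X : KT W Kd Ψ) (Z U IS : Finset W) (e : W → ℕ → W)
    (lab₀ : W → ZMod n) (y : {w : W // w ∈ IS} → ℕ → ZMod n) (w : W) : ZMod n :=
  if w ∈ Z then lab₀ w else
    if h : X.t.top U w ∈ IS then y ⟨X.t.top U w, h⟩ (idx X U e (X.t.top U w) w) else 0

/-- a step of a piece, for a vertex of a covered piece -/
private theorem CovD_step [NeZero n] (X : KT W Kd Ψ) (C : Cfg n W Kd Ψ) {κ₂ : ℝ} {Z D U : Finset W}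
    (hU : U = Z ∪ D) (hroot : X.t.root ∈ Z) {e : W → ℕ → W} (he : Enm X U (Iset X C U κ₂) e)
    (lab₀ : W → ZMod n) (y : {w : W // w ∈ Iset X C U κ₂} → ℕ → ZMod n)
    (i : {w : W // w ∈ Iset X C U κ₂}) {w : W} (hw : X.t.Pc U w i.1) :
    idx X U e i.1 w < (pcs X U i.1).card ∧ e i.1 (idx X U e i.1 w) = w ∧
      CovD_lab X Z U (Iset X C U κ₂) e lab₀ y w = y i (idx X U e i.1 w) ∧ w ∉ U := by
  classical
  have hrU : X.t.root ∈ U := by rw [hU]; exact mem_union_left _ hroot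
  have hwU : w ∉ U := (X.t.pc_not_mem hw).1
  have hi := i.2
  unfold Iset at hi
  rw [mem_filter] at hi
  have hmem : w ∈ pcs X U i.1 := by
    unfold pcs
    rw [mem_filter]
    exact ⟨mem_univ _, hw⟩
  obtain ⟨h1, h2⟩ := idx_spec X he i.2 hmem
  refine ⟨h1, h2, ?_, hwU⟩
  have htop : X.t.top U w = i.1 := X.t.top_eq hrU hw hi.2.2.1
  have hwZ : w ∉ Z := fun h => hwU (by rw [hU]; exact mem_union_left _ h)
  unfold CovD_lab
  rw [if_neg hwZ]
  obtain ⟨c, hc⟩ := i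
  simp only at htop ⊢
  subst htop
  rw [dif_pos hc]

private theorem CovD_rec [NeZero n] (X : KT W Kd Ψ) (C : Cfg n W Kd Ψ) {κ₂ : ℝ} {Z D U : Finset W}
    (hU : U = Z ∪ D) (hroot : X.t.root ∈ Z) {e : W → ℕ → W} (he : Enm X U (Iset X C U κ₂) e)
    (lab₀ : W → ZMod n) (y : {w : W // w ∈ Iset X C U κ₂} → ℕ → ZMod n)
    (cov : Finset {w : W // w ∈ Iset X C U κ₂})
    (hG : ∀ i ∈ cov, (mkP X C U (Iset X C U κ₂) Z κ₂ e lab₀).Good (mkS X C κ₂) C.Q i (y i))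
    {w : W} {i : {w : W // w ∈ Iset X C U κ₂}} (hi : i ∈ cov) (hw : X.t.Pc U w i.1) :
    ∃ t < (mkP X C U (Iset X C U κ₂) Z κ₂ e lab₀).T i, e i.1 t = w ∧
      CovD_lab X Z U (Iset X C U κ₂) e lab₀ y w = y i t ∧ w ∉ U ∧
      (((mkP X C U (Iset X C U κ₂) Z κ₂ e lab₀).ph i t = Sum.inl (X.kd w) ∧
        CovD_lab X Z U (Iset X C U κ₂) e lab₀ y w ∈ C.S (X.kd w) ∧
        (X.t.par w ∉ D → (mkP X C U (Iset X C U κ₂) Z κ₂ e lab₀).col i (y i) t =
            some (X.col (CovD_lab X Z U (Iset X C U κ₂) e lab₀ y) w, X.cl (X.kd w)) ∧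
          X.col (CovD_lab X Z U (Iset X C U κ₂) e lab₀ y) w ∈ C.Q (X.cl (X.kd w)))) ∨
       (∃ h : X.t.par w ∈ C.Hub ∧ κ₂ * n ≤ (Cfg.nch X (X.t.par w) (X.kd w) : ℝ),
        (mkP X C U (Iset X C U κ₂) Z κ₂ e lab₀).ph i t = Sum.inr ⟨(X.t.par w, X.kd w), h⟩ ∧
        w = i.1 ∧
        CovD_lab X Z U (Iset X C U κ₂) e lab₀ y w ∈ C.Y (X.t.par w) (X.kd w))) := by
  classical
  have hrU : X.t.root ∈ U := by rw [hU]; exact mem_union_left _ hroot
  obtain ⟨h1, h2, h3, h4⟩ := CovD_step X C hU hroot he lab₀ y i hw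
  obtain ⟨g1, g2⟩ := hG i hi (idx X U e i.1 w) h1
  have hiI := i.2
  unfold Iset at hiI
  rw [mem_filter] at hiI
  obtain ⟨-, k1, k2, k3, k4⟩ := hiI
  refine ⟨idx X U e i.1 w, h1, h2, h3, h4, ?_⟩
  by_cases ht : idx X U e i.1 w = 0
  · -- the root of the piece
    have hwi : w = i.1 := by rw [← h2, ht]; exact he.zero _ i.2
    by_cases hh : X.t.par w ∈ C.Hub ∧ κ₂ * n ≤ (Cfg.nch X (X.t.par w) (X.kd w) : ℝ)
    · right
      have hph : (mkP X C U (Iset X C U κ₂) Z κ₂ e lab₀).ph i (idx X U e i.1 w) =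
          Sum.inr ⟨(X.t.par w, X.kd w), hh⟩ := by
        have e1 : (mkP X C U (Iset X C U κ₂) Z κ₂ e lab₀).ph i (idx X U e i.1 w) =
            ph0 X C κ₂ i.1 := if_pos ht
        rw [e1, ← hwi]
        unfold ph0
        rw [dif_pos hh]
      refine ⟨hh, hph, hwi, ?_⟩
      rw [hph] at g1
      rw [h3]
      exact g1
    · left
      have hph : (mkP X C U (Iset X C U κ₂) Z κ₂ e lab₀).ph i (idx X U e i.1 w) =
          Sum.inl (X.kd w) := by
        have e1 : (mkP X C U (Iset X C U κ₂) Z κ₂ e lab₀).ph i (idx X U e i.1 w) =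
            ph0 X C κ₂ i.1 := if_pos ht
        rw [e1, ← hwi]
        unfold ph0
        rw [dif_neg hh]
      refine ⟨hph, ?_, ?_⟩
      · rw [hph] at g1
        rw [h3]
        exact g1
      · intro hD
        rw [← hwi] at k2 k4
        have hZ : X.t.par w ∈ Z := by
          rw [hU, mem_union] at k2
          exact k2.resolve_right hD
        have hnH : X.t.par w ∉ C.Hub := fun h => hh ⟨h, k4 h⟩
        have hatt : (mkP X C U (Iset X C U κ₂) Z κ₂ e lab₀).att i =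
            some (lab₀ (X.t.par w) + (X.o w : ZMod n), X.cl (X.kd w)) := by
          have e1 : (mkP X C U (Iset X C U κ₂) Z κ₂ e lab₀).att i =
              if X.t.par i.1 ∈ C.Hub ∨ X.t.par i.1 ∉ Z then none
              else some (lab₀ (X.t.par i.1) + (X.o i.1 : ZMod n), X.cl (X.kd i.1)) := rfl
          rw [e1, ← hwi, if_neg (by rintro (h | h); exacts [hnH h, h hZ])]
        have hcol : (mkP X C U (Iset X C U κ₂) Z κ₂ e lab₀).col i (y i) (idx X U e i.1 w) =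
            some (X.col (CovD_lab X Z U (Iset X C U κ₂) e lab₀ y) w, X.cl (X.kd w)) := by
          unfold Pcs.col
          rw [if_pos ht, hatt]
          have e2 : CovD_lab X Z U (Iset X C U κ₂) e lab₀ y (X.t.par w) = lab₀ (X.t.par w) := by
            unfold CovD_lab
            rw [if_pos hZ]
          have e3 : y i 0 = CovD_lab X Z U (Iset X C U κ₂) e lab₀ y w := by rw [h3, ht]
          unfold KT.col
          rw [e2, ← e3]
          simp only [Option.map_some]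
          congr 2
          ring
        refine ⟨hcol, ?_⟩
        exact g2 _ (by rw [hcol]; exact rfl)
  · left
    have hph : (mkP X C U (Iset X C U κ₂) Z κ₂ e lab₀).ph i (idx X U e i.1 w) =
        Sum.inl (X.kd w) := by
      have e1 : (mkP X C U (Iset X C U κ₂) Z κ₂ e lab₀).ph i (idx X U e i.1 w) =
          Sum.inl (X.kd (e i.1 (idx X U e i.1 w))) := if_neg ht
      rw [e1, h2]
    refine ⟨hph, ?_, ?_⟩
    · rw [hph] at g1
      rw [h3]
      exact g1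
    · intro _
      obtain ⟨p1, p2, p3, p4⟩ := par_step X he hrU i.2 (Nat.one_le_iff_ne_zero.2 ht) h1
      rw [h2] at p1 p2 p4
      have hpc : X.t.Pc U (X.t.par w) i.1 := by
        unfold pcs at p1
        exact (mem_filter.1 p1).2
      obtain ⟨q1, q2, q3, q4⟩ := CovD_step X C hU hroot he lab₀ y i hpc
      have hcol : (mkP X C U (Iset X C U κ₂) Z κ₂ e lab₀).col i (y i) (idx X U e i.1 w) =
          some (X.col (CovD_lab X Z U (Iset X C U κ₂) e lab₀ y) w, X.cl (X.kd w)) := by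
        unfold Pcs.col
        rw [if_neg ht]
        have e1 : (mkP X C U (Iset X C U κ₂) Z κ₂ e lab₀).pr i (idx X U e i.1 w) =
            idx X U e i.1 (X.t.par w) := by
          have e2 : (mkP X C U (Iset X C U κ₂) Z κ₂ e lab₀).pr i (idx X U e i.1 w) =
            if idx X U e i.1 (X.t.par (e i.1 (idx X U e i.1 w))) < idx X U e i.1 w then
              idx X U e i.1 (X.t.par (e i.1 (idx X U e i.1 w))) else 0 := rfl
          rw [e2, h2, if_pos p2]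
        have e3 : (mkP X C U (Iset X C U κ₂) Z κ₂ e lab₀).ofs i (idx X U e i.1 w) =
            (X.o w : ZMod n) := by
          have e2 : (mkP X C U (Iset X C U κ₂) Z κ₂ e lab₀).ofs i (idx X U e i.1 w) =
            (X.o (e i.1 (idx X U e i.1 w)) : ZMod n) := rfl
          rw [e2, h2]
        have e4 : (mkP X C U (Iset X C U κ₂) Z κ₂ e lab₀).cl i (idx X U e i.1 w) =
            X.cl (X.kd w) := by
          have e2 : (mkP X C U (Iset X C U κ₂) Z κ₂ e lab₀).cl i (idx X U e i.1 w) =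
            X.cl (X.kd (e i.1 (idx X U e i.1 w))) := rfl
          rw [e2, h2]
        rw [e1, e3, e4]
        unfold KT.col
        rw [h3, q3]
        congr 2
        ring
      refine ⟨hcol, ?_⟩
      exact g2 _ (by rw [hcol]; exact rfl)

open Classical in
theorem finish [NeZero n] (X : KT W Kd Ψ) (C : Cfg n W Kd Ψ) {β c κ₁ κ₂ θ : ℝ} {h0 : ℕ}
    (hok : CfgOK C X β c κ₁ κ₂ θ h0) {Z D : Finset W} (hZD : Disjoint Z D)
    (hroot : X.t.root ∈ Z) (hHub : C.Hub ⊆ Z)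
    (hch : ∀ w, w ∉ Z → w ∉ D → ∀ v ∈ X.t.ch w, v ∉ Z)
    {e : W → ℕ → W} (he : Enm X (Z ∪ D) (Iset X C (Z ∪ D) κ₂) e) {lab₀ : W → ZMod n}
    (hE : X.Emb Z lab₀) (hlh : ∀ h ∈ C.Hub, lab₀ h = C.lh h)
    (hR : ∀ z ∈ Z, z ∉ C.Hub → lab₀ z ∈ C.R (X.kd z))
    (hRC : ∀ u, X.EdgeIn Z u → ¬ X.EdgeIn C.Hub u → X.col lab₀ u ∈ C.RC)
    (cov : Finset {w : W // w ∈ Iset X C (Z ∪ D) κ₂})
    (y : {w : W // w ∈ Iset X C (Z ∪ D) κ₂} → ℕ → ZMod n)
    (hG : ∀ i ∈ cov, (mkP X C (Z ∪ D) (Iset X C (Z ∪ D) κ₂) Z κ₂ e lab₀).Good (mkS X C κ₂) C.Q i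
      (y i))
    (hSep : ∀ i ∈ cov, ∀ j ∈ cov,
      ∀ t < (mkP X C (Z ∪ D) (Iset X C (Z ∪ D) κ₂) Z κ₂ e lab₀).T i,
      ∀ u < (mkP X C (Z ∪ D) (Iset X C (Z ∪ D) κ₂) Z κ₂ e lab₀).T j, (i, t) ≠ (j, u) →
      (mkP X C (Z ∪ D) (Iset X C (Z ∪ D) κ₂) Z κ₂ e lab₀).Sep i (y i) t j (y j) u) :
    ∃ lab : W → ZMod n, (∀ z ∈ Z, lab z = lab₀ z) ∧
      X.Emb (Z ∪ Cov X (Z ∪ D) (cov.image Subtype.val)) lab ∧
      (∀ w ∈ Cov X (Z ∪ D) (cov.image Subtype.val), lab w ∈ C.S (X.kd w) ∨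
        (w ∈ cov.image Subtype.val ∧ X.t.par w ∈ C.Hub ∧ lab w ∈ C.Y (X.t.par w) (X.kd w))) ∧
      ∀ w ∈ Cov X (Z ∪ D) (cov.image Subtype.val), X.t.par w ∉ D →
        X.col lab w ∈ C.Q (X.cl (X.kd w)) ∨ (w ∈ cov.image Subtype.val ∧
          X.t.par w ∈ C.Hub ∧ lab w ∈ C.Y (X.t.par w) (X.kd w)) := by
  have hrU : X.t.root ∈ Z ∪ D := mem_union_left _ hroot
  have hrec := fun (w : W) (i : {w : W // w ∈ Iset X C (Z ∪ D) κ₂}) (hi : i ∈ cov)
    (hw : X.t.Pc (Z ∪ D) w i.1) => CovD_rec X C (κ₂ := κ₂) (Z := Z) (D := D) (U := Z ∪ D) rfl hroot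
      he lab₀ y cov hG hi hw
  obtain ⟨lab, hlab⟩ : ∃ lab : W → ZMod n,
      lab = CovD_lab X Z (Z ∪ D) (Iset X C (Z ∪ D) κ₂) e lab₀ y := ⟨_, rfl⟩
  rw [← hlab] at hrec
  have hlZ : ∀ z ∈ Z, lab z = lab₀ z := by
    intro z hz
    rw [hlab]
    unfold CovD_lab
    rw [if_pos hz]
  obtain ⟨P, hP⟩ : ∃ P : Pcs n (Kd ⊕ HP X C κ₂) Ψ {w : W // w ∈ Iset X C (Z ∪ D) κ₂},
      P = mkP X C (Z ∪ D) (Iset X C (Z ∪ D) κ₂) Z κ₂ e lab₀ := ⟨_, rfl⟩
  rw [← hP] at hrec hG hSep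
  clear hlab
  have hcvm : ∀ w, w ∈ Cov X (Z ∪ D) (cov.image Subtype.val) ↔ ∃ i ∈ cov,
      X.t.Pc (Z ∪ D) w i.1 := by
    intro w
    unfold Cov
    rw [mem_filter]
    constructor
    · rintro ⟨-, c, hc, h⟩
      obtain ⟨i, hi, rfl⟩ := mem_image.1 hc
      exact ⟨i, hi, h⟩
    · rintro ⟨i, hi, h⟩
      exact ⟨mem_univ _, i.1, mem_image_of_mem _ hi, h⟩
  obtain ⟨V, hV⟩ : ∃ V : Finset W, V = Cov X (Z ∪ D) (cov.image Subtype.val) := ⟨_, rfl⟩
  rw [← hV] at hcvm ⊢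
  -- the record of a covered vertex
  have hr : ∀ w ∈ V, ∃ i ∈ cov, ∃ t < P.T i, e i.1 t = w ∧ lab w = y i t ∧ w ∉ Z ∧ w ∉ D ∧
      ((P.ph i t = Sum.inl (X.kd w) ∧ lab w ∈ C.S (X.kd w) ∧
        (X.t.par w ∉ D → P.col i (y i) t = some (X.col lab w, X.cl (X.kd w)) ∧
          X.col lab w ∈ C.Q (X.cl (X.kd w)))) ∨
       (∃ h : X.t.par w ∈ C.Hub ∧ κ₂ * n ≤ (Cfg.nch X (X.t.par w) (X.kd w) : ℝ),
        P.ph i t = Sum.inr ⟨(X.t.par w, X.kd w), h⟩ ∧ w ∈ cov.image Subtype.val ∧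
        lab w ∈ C.Y (X.t.par w) (X.kd w))) := by
    intro w hw
    obtain ⟨i, hi, h⟩ := (hcvm w).1 hw
    obtain ⟨t, ht, h1, h2, h3, h4⟩ := hrec w i hi h
    refine ⟨i, hi, t, ht, h1, h2, fun h' => h3 (mem_union_left _ h'),
      fun h' => h3 (mem_union_right _ h'), ?_⟩
    rcases h4 with h4 | ⟨hh, h5, h6, h7⟩
    · exact Or.inl h4
    · exact Or.inr ⟨hh, h5, by rw [h6]; exact mem_image_of_mem _ hi, h7⟩
  have hlabZ : ∀ u ∈ Z, (u ∈ C.Hub ∧ lab u = C.lh u) ∨ (u ∉ C.Hub ∧ lab u ∈ C.R (X.kd u)) := by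
    intro u hu
    by_cases h : u ∈ C.Hub
    · exact Or.inl ⟨h, (hlZ u hu).trans (hlh u h)⟩
    · refine Or.inr ⟨h, ?_⟩
      rw [hlZ u hu]
      exact hR u hu h
  -- labels of Z against labels of V
  have hZV : ∀ u ∈ Z, ∀ v ∈ V, X.side (X.kd u) = X.side (X.kd v) → lab u ≠ lab v := by
    intro u hu v hv hs hl
    obtain ⟨i, hi, t, ht, -, -, -, -, h4⟩ := hr v hv
    rcases hlabZ u hu with ⟨h1, h2⟩ | ⟨h1, h2⟩
    · obtain ⟨k1, k2, k3⟩ := hok.lh_out u h1 (X.kd v) hs.symm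
      rw [← h2, hl] at k1 k3
      rcases h4 with ⟨-, h5, -⟩ | ⟨hh, -, -, h5⟩
      · exact k1 h5
      · exact k3 _ hh.1 h5
    · rw [hl] at h2
      rcases h4 with ⟨-, h5, -⟩ | ⟨hh, -, -, h5⟩
      · exact disjoint_left.1 (hok.SR (X.kd v) (X.kd u) hs.symm) h5 h2
      · exact disjoint_left.1 (hok.RY (X.kd u) _ hh.1 (X.kd v) hs) h2 h5
  -- the steps of two different vertices of V
  have hVV : ∀ u ∈ V, ∀ v ∈ V, X.side (X.kd u) = X.side (X.kd v) → lab u = lab v → u = v := by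
    intro u hu v hv hs hl
    by_contra huv
    obtain ⟨i, hi, t, ht, h1, h2, -, -, h4⟩ := hr u hu
    obtain ⟨j, hj, s, hs', k1, k2, -, -, k4⟩ := hr v hv
    have hne : (i, t) ≠ (j, s) := by
      intro h
      obtain ⟨rfl, rfl⟩ := Prod.mk.inj h
      exact huv (h1.symm.trans k1)
    have hph : P.ph i t ≠ P.ph j s := by
      intro h
      exact (hSep i hi j hj t ht s hs' hne).1 h (h2.symm.trans (hl.trans k2))
    rcases h4 with ⟨a1, a2, -⟩ | ⟨hh, a1, -, a2⟩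
    · rcases k4 with ⟨b1, b2, -⟩ | ⟨hh', b1, -, b2⟩
      · have hk : X.kd u ≠ X.kd v := fun h => hph (by rw [a1, b1, h])
        rw [hl] at a2
        exact disjoint_left.1 (hok.SS _ _ hs hk) a2 b2
      · rw [hl] at a2
        exact disjoint_left.1 (hok.SY (X.kd u) _ hh'.1 (X.kd v) hs) a2 b2
    · rcases k4 with ⟨b1, b2, -⟩ | ⟨hh', b1, -, b2⟩
      · rw [hl] at a2
        exact disjoint_left.1 (hok.SY (X.kd v) _ hh.1 (X.kd u) hs.symm) b2 a2
      · have hk : (X.t.par u, X.kd u) ≠ (X.t.par v, X.kd v) := by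
          intro h
          apply hph
          rw [a1, b1]
          congr 1
          exact Subtype.ext h
        rw [hl] at a2
        exact disjoint_left.1 (hok.YY _ hh.1 _ hh'.1 _ _ hs hk) a2 b2
  refine ⟨lab, hlZ, ⟨?_, ?_, ?_⟩, ?_, ?_⟩
  · -- inj
    intro u hu v hv hs hl
    rcases mem_union.1 hu with hu | hu
    · rcases mem_union.1 hv with hv | hv
      · exact hE.inj u hu v hv hs (by rw [← hlZ u hu, ← hlZ v hv, hl])
      · exact absurd hl (hZV u hu v hv hs)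
    · rcases mem_union.1 hv with hv | hv
      · exact absurd hl.symm (hZV v hv u hu hs.symm)
      · exact hVV u hu v hv hs hl
  · -- dmn
    intro u hu v hv hs hd hl
    obtain ⟨d1, d2⟩ := hok.hub_dom u hd
    have hlu : lab u ∈ C.S (X.kd u) ∨ lab u ∈ C.R (X.kd u) := by
      rcases mem_union.1 hu with hu | hu
      · rcases hlabZ u hu with ⟨h1, -⟩ | ⟨-, h2⟩
        · exact absurd h1 d1
        · exact Or.inr h2
      · obtain ⟨i, hi, t, ht, -, -, h3, -, h4⟩ := hr u hu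
        rcases h4 with ⟨-, h5, -⟩ | ⟨hh, -, -, -⟩
        · exact Or.inl h5
        · have hur : u ≠ X.t.root := fun h => h3 (h ▸ hroot)
          have hnb : X.t.par u ∈ X.t.nb u := by
            unfold RTr.nb
            rw [if_neg hur]
            exact mem_union_right _ (mem_singleton_self _)
          exact absurd hh.1 (d2 _ hnb)
    apply hok.dom_out (X.kd u) hd (lab u) hlu
    rw [← hl, hs]
    unfold Cfg.Lab
    rcases mem_union.1 hv with hv | hv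
    · rcases hlabZ v hv with ⟨h1, h2⟩ | ⟨-, h2⟩
      · exact Or.inr (Or.inr ⟨v, h1, rfl, h2⟩)
      · exact Or.inl ⟨X.kd v, rfl, Or.inr h2⟩
    · obtain ⟨i, hi, t, ht, -, -, h3, -, h4⟩ := hr v hv
      rcases h4 with ⟨-, h5, -⟩ | ⟨hh, -, -, h5⟩
      · exact Or.inl ⟨X.kd v, rfl, Or.inl h5⟩
      · exact Or.inr (Or.inl ⟨_, hh.1, X.kd v, rfl, h5⟩)
  · -- cin
    -- offsets at the hubs
    have ho : ∀ w, w ≠ X.t.root → X.t.par w ∈ C.Hub → X.o w = 0 := by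
      intro w hw hh
      have h1 := X.o_le w
      have h2 : X.o w ≠ 1 := fun h => (hok.hub_dom _ (X.o_dom w hw h)).1 hh
      omega
    -- classification of the edges
    have hcl : ∀ w, X.EdgeIn (Z ∪ V) w → (X.EdgeIn Z w ∧ ¬ X.EdgeIn C.Hub w ∧
        X.col lab w ∈ C.RC) ∨ (X.EdgeIn Z w ∧ X.EdgeIn C.Hub w ∧
        X.col lab w = C.lh w + C.lh (X.t.par w)) ∨
        (w ∈ V ∧ ∃ i ∈ cov, ∃ t < P.T i, e i.1 t = w ∧
          P.col i (y i) t = some (X.col lab w, X.cl (X.kd w)) ∧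
          X.col lab w ∈ C.Q (X.cl (X.kd w))) ∨
        (w ∈ V ∧ X.t.par w ∈ C.Hub ∧ lab w ∈ C.Y (X.t.par w) (X.kd w) ∧
          X.side (X.kd w) ≠ X.side (X.kd (X.t.par w)) ∧
          X.col lab w = C.lh (X.t.par w) + lab w) := by
      rintro w ⟨hw1, hw2, hw3⟩
      have hpD : X.t.par w ∉ D := by
        intro h
        rcases mem_union.1 hw3 with h3 | h3
        · exact disjoint_left.1 hZD h3 h
        · obtain ⟨-, -, -, -, -, -, -, h4, -⟩ := hr _ h3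
          exact h4 h
      rcases mem_union.1 hw2 with h2 | h2
      · rcases mem_union.1 hw3 with h3 | h3
        · have hEZ : X.EdgeIn Z w := ⟨hw1, h2, h3⟩
          have hc0 : X.col lab w = X.col lab₀ w := by
            unfold KT.col
            rw [hlZ _ h2, hlZ _ h3]
          by_cases hH : X.EdgeIn C.Hub w
          · right
            left
            refine ⟨hEZ, hH, ?_⟩
            unfold KT.col
            rw [hlZ _ h2, hlZ _ h3, hlh _ hH.2.1, hlh _ hH.2.2, ho w hw1 hH.2.2, Nat.cast_zero,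
              add_zero]
          · left
            refine ⟨hEZ, hH, ?_⟩
            rw [hc0]
            exact hRC w hEZ hH
        · exfalso
          obtain ⟨-, -, -, -, -, -, h5, h6, -⟩ := hr _ h3
          refine hch _ h5 h6 w ?_ h2
          unfold RTr.ch
          rw [mem_filter]
          exact ⟨mem_univ _, hw1, rfl⟩
      · right
        right
        obtain ⟨i, hi, t, ht, h1, -, -, -, h4⟩ := hr w h2
        rcases h4 with ⟨-, -, h5⟩ | ⟨hh, -, -, h5⟩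
        · left
          exact ⟨h2, i, hi, t, ht, h1, (h5 hpD).1, (h5 hpD).2⟩
        · right
          refine ⟨h2, hh.1, h5, X.side_par w hw1, ?_⟩
          unfold KT.col
          rw [ho w hw1 hh.1, Nat.cast_zero, add_zero, hlZ _ (hHub hh.1), hlh _ hh.1, add_comm]
    -- mixed pairs are impossible
    have hAC : ∀ {u v : W} {a : Ψ}, X.col lab u ∈ C.RC → X.col lab v ∈ C.Q a →
        X.col lab u ≠ X.col lab v := fun h1 h2 h => disjoint_left.1 (hok.QRC _) h2 (h ▸ h1)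
    intro u v hu hv hc
    rcases hcl u hu with ⟨a1, a2, a3⟩ | ⟨a1, a2, a3⟩ | ⟨a1, i, hi, t, ht, a2, a3, a4⟩ |
      ⟨a1, a2, a3, a4, a5⟩
    · rcases hcl v hv with ⟨b1, b2, b3⟩ | ⟨b1, b2, b3⟩ | ⟨b1, j, hj, s, hs, b2, b3, b4⟩ |
        ⟨b1, b2, b3, b4, b5⟩
      · refine hE.cin u v a1 b1 ?_
        unfold KT.col at hc ⊢
        rw [← hlZ _ a1.2.1, ← hlZ _ a1.2.2, ← hlZ _ b1.2.1, ← hlZ _ b1.2.2, hc]
      · refine hE.cin u v a1 b1 ?_
        unfold KT.col at hc ⊢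
        rw [← hlZ _ a1.2.1, ← hlZ _ a1.2.2, ← hlZ _ b1.2.1, ← hlZ _ b1.2.2, hc]
      · exact absurd hc (hAC a3 b4)
      · rw [hc, b5] at a3
        exact absurd a3 (hok.YQ _ b2 _ b4 _ b3).1
    · rcases hcl v hv with ⟨b1, b2, b3⟩ | ⟨b1, b2, b3⟩ | ⟨b1, j, hj, s, hs, b2, b3, b4⟩ |
        ⟨b1, b2, b3, b4, b5⟩
      · refine hE.cin u v a1 b1 ?_
        unfold KT.col at hc ⊢
        rw [← hlZ _ a1.2.1, ← hlZ _ a1.2.2, ← hlZ _ b1.2.1, ← hlZ _ b1.2.2, hc]
      · refine hE.cin u v a1 b1 ?_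
        unfold KT.col at hc ⊢
        rw [← hlZ _ a1.2.1, ← hlZ _ a1.2.2, ← hlZ _ b1.2.1, ← hlZ _ b1.2.2, hc]
      · rw [← hc, a3] at b4
        exact absurd b4 ((hok.hh_out u a2.2.1 a2.1 a2.2.2).2.1 _)
      · exact absurd (a3.symm.trans (hc.trans b5))
          ((hok.hh_out u a2.2.1 a2.1 a2.2.2).2.2 _ b2 _ b4 _ b3)
    · rcases hcl v hv with ⟨b1, b2, b3⟩ | ⟨b1, b2, b3⟩ | ⟨b1, j, hj, s, hs, b2, b3, b4⟩ |
        ⟨b1, b2, b3, b4, b5⟩
      · exact absurd hc.symm (hAC b3 a4)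
      · rw [hc, b3] at a4
        exact absurd a4 ((hok.hh_out v b2.2.1 b2.1 b2.2.2).2.1 _)
      · by_contra huv
        have hne : (i, t) ≠ (j, s) := by
          intro h
          obtain ⟨rfl, rfl⟩ := Prod.mk.inj h
          exact huv (a2.symm.trans b2)
        by_cases hcc : X.cl (X.kd u) = X.cl (X.kd v)
        · refine (hSep i hi j hj t ht s hs hne).2 (X.col lab u, X.cl (X.kd u)) ?_ ?_
          · rw [a3]
            exact rfl
          · rw [b3, hc, hcc]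
            exact rfl
        · rw [hc] at a4
          exact disjoint_left.1 (hok.QQ _ _ hcc) a4 b4
      · rw [hc, b5] at a4
        exact absurd a4 ((hok.YQ _ b2 _ b4 _ b3).2 _)
    · rcases hcl v hv with ⟨b1, b2, b3⟩ | ⟨b1, b2, b3⟩ | ⟨b1, j, hj, s, hs, b2, b3, b4⟩ |
        ⟨b1, b2, b3, b4, b5⟩
      · rw [← hc, a5] at b3
        exact absurd b3 (hok.YQ _ a2 _ a4 _ a3).1
      · exact absurd (b3.symm.trans (hc.symm.trans a5))
          ((hok.hh_out v b2.2.1 b2.1 b2.2.2).2.2 _ a2 _ a4 _ a3)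
      · rw [← hc, a5] at b4
        exact absurd b4 ((hok.YQ _ a2 _ a4 _ a3).2 _)
      · have h1 : C.lh (X.t.par u) + lab u = C.lh (X.t.par v) + lab v :=
          a5.symm.trans (hc.trans b5)
        obtain ⟨h2, h3⟩ := hok.YYc _ a2 _ b2 _ _ a4 b4 _ a3 _ b3 h1
        rw [h2] at h1
        exact hVV u a1 v b1 (by rw [h3]) (add_left_cancel h1)
  · intro w hw
    obtain ⟨i, hi, t, ht, -, -, -, -, h4⟩ := hr w hw
    rcases h4 with ⟨-, h5, -⟩ | ⟨hh, -, h6, h5⟩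
    · exact Or.inl h5
    · exact Or.inr ⟨h6, hh.1, h5⟩
  · intro w hw hD
    obtain ⟨i, hi, t, ht, -, -, -, -, h4⟩ := hr w hw
    rcases h4 with ⟨-, -, h5⟩ | ⟨hh, -, h6, h5⟩
    · exact Or.inl (h5 hD).2
    · exact Or.inr ⟨h6, hh.1, h5⟩

end Pool.Agent.Lib.MP_c5b475_co.KN
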