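import Pool.Agent.Lib.MP_c5b475_co.KN.CovB

/-!
# KN/CovS: statistics of the attached pieces

Let `P = mkP ..`, `IS' = IS.filter (par ∈ Z ∧ par ∉ Hub)`. `att i = some a` iff `i.1 ∈ IS'`, and then
`a = (lab₀ (par i) + o i, cl (kd i))`, `P.rt i = lab₀ (par i) + o i`, `ph i 0 = inl (kd i)`.

`mult`: if `(att i).map fst = some r` then `lab₀ (par i) = r - o i`, `par i ∈ Z \\ Hub`. For a given side `s` and
given `o ∈ {0,1}` there is at most one `z ∈ Z` with `side (kd z) = s` and `lab₀ z = r - o` (`Emb.inj`), it has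
at most `κ₁ n` children (`hub_big`); so at most `4 κ₁ n` in all.
`st1`: for `a ≠ cl k` the class `P.cls (inl k) a` is empty. For `a = cl k` it consists of the `i` with
`i.1 ∈ IS'`, `kd i = k`; the cardinalities of the filters over the subtype are those of the filters over
`W` in `Stat` (`Finset.card_bij` / `Finset.card_subtype`), so the sum is the first sum of `Stat`. `st2` the
same with the second. `mss`: `mass` with `k = kd i`, `k' = kd (par i)` (`side_par`),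
`x = lab₀ (par i) ∈ R (kd (par i))`, `o = o i ≤ 1`; and `1 - κ ≤ 1 - θ`.
-/

set_option autoImplicit false

namespace Pool.Agent.Lib.MP_c5b475_co.KN

open Finset

variable {n : ℕ} {W Kd Ψ : Type} [Fintype W] [DecidableEq W] [Fintype Kd] [DecidableEq Kd]
  [Fintype Ψ] [DecidableEq Ψ]

private theorem CovS_card {IS : Finset W} (p : {c : W // c ∈ IS} → Prop) (q : W → Prop)
    [DecidablePred p] [DecidablePred q] (h : ∀ i, p i ↔ q i.1) :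
    (univ.filter p).card = (IS.filter q).card := by
  refine card_bij (fun i _ => i.1) ?_ ?_ ?_
  · intro i hi
    exact mem_filter.2 ⟨i.2, (h i).1 (mem_filter.1 hi).2⟩
  · intro i _ i' _ he
    exact Subtype.ext he
  · intro w hw
    obtain ⟨h1, h2⟩ := mem_filter.1 hw
    exact ⟨⟨w, h1⟩, mem_filter.2 ⟨mem_univ _, (h ⟨w, h1⟩).2 h2⟩, rfl⟩

private theorem CovS_att [NeZero n] (X : KT W Kd Ψ) (C : Cfg n W Kd Ψ) (U IS Z : Finset W) (κ₂ : ℝ)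
    (e : W → ℕ → W) (lab₀ : W → ZMod n) (i : {c : W // c ∈ IS}) {x : ZMod n × Ψ}
    (h : (mkP X C U IS Z κ₂ e lab₀).att i = some x) :
    (X.t.par i.1 ∈ Z ∧ X.t.par i.1 ∉ C.Hub) ∧
      x = (lab₀ (X.t.par i.1) + (X.o i.1 : ZMod n), X.cl (X.kd i.1)) := by
  unfold mkP at h
  dsimp only at h
  by_cases h1 : X.t.par i.1 ∈ C.Hub ∨ X.t.par i.1 ∉ Z
  · rw [if_pos h1] at h
    cases h
  · rw [if_neg h1] at h
    push Not at h1
    exact ⟨⟨h1.2, h1.1⟩, (Option.some.inj h).symm⟩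

private theorem CovS_att' [NeZero n] (X : KT W Kd Ψ) (C : Cfg n W Kd Ψ) (U IS Z : Finset W)
    (κ₂ : ℝ) (e : W → ℕ → W) (lab₀ : W → ZMod n) (i : {c : W // c ∈ IS})
    (h : X.t.par i.1 ∈ Z ∧ X.t.par i.1 ∉ C.Hub) :
    (mkP X C U IS Z κ₂ e lab₀).att i =
      some (lab₀ (X.t.par i.1) + (X.o i.1 : ZMod n), X.cl (X.kd i.1)) := by
  unfold mkP
  dsimp only
  rw [if_neg]
  push Not
  exact ⟨h.2, h.1⟩

private theorem CovS_ph [NeZero n] (X : KT W Kd Ψ) (C : Cfg n W Kd Ψ) (U IS Z : Finset W) (κ₂ : ℝ)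
    (e : W → ℕ → W) (lab₀ : W → ZMod n) (i : {c : W // c ∈ IS}) (h : X.t.par i.1 ∉ C.Hub) :
    (mkP X C U IS Z κ₂ e lab₀).ph i 0 = Sum.inl (X.kd i.1) := by
  unfold mkP
  dsimp only
  rw [if_pos rfl]
  unfold ph0
  rw [dif_neg]
  rintro ⟨h1, _⟩
  exact h h1

private theorem CovS_rt [NeZero n] (X : KT W Kd Ψ) (C : Cfg n W Kd Ψ) (U IS Z : Finset W) (κ₂ : ℝ)
    (e : W → ℕ → W) (lab₀ : W → ZMod n) (i : {c : W // c ∈ IS})
    (h : X.t.par i.1 ∈ Z ∧ X.t.par i.1 ∉ C.Hub) :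
    (mkP X C U IS Z κ₂ e lab₀).rt i = lab₀ (X.t.par i.1) + (X.o i.1 : ZMod n) := by
  unfold Pcs.rt
  rw [CovS_att' X C U IS Z κ₂ e lab₀ i h]
  rfl

private theorem CovS_cls [NeZero n] (X : KT W Kd Ψ) (C : Cfg n W Kd Ψ) (U IS Z : Finset W) (κ₂ : ℝ)
    (e : W → ℕ → W) (lab₀ : W → ZMod n) (i : {c : W // c ∈ IS}) (k : Kd) (a : Ψ) :
    ((mkP X C U IS Z κ₂ e lab₀).ph i 0 = Sum.inl k ∧
      ((mkP X C U IS Z κ₂ e lab₀).att i).map Prod.snd = some a) ↔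
      (X.t.par i.1 ∈ Z ∧ X.t.par i.1 ∉ C.Hub) ∧ X.kd i.1 = k ∧ X.cl k = a := by
  constructor
  · rintro ⟨h1, h2⟩
    rw [Option.map_eq_some_iff] at h2
    obtain ⟨x, h3, h4⟩ := h2
    obtain ⟨h5, h6⟩ := CovS_att X C U IS Z κ₂ e lab₀ i h3
    rw [CovS_ph X C U IS Z κ₂ e lab₀ i h5.2] at h1
    have h7 : X.kd i.1 = k := Sum.inl.inj h1
    refine ⟨h5, h7, ?_⟩
    rw [h6] at h4
    rw [← h4, ← h7]
  · rintro ⟨h1, h2, h3⟩
    rw [CovS_ph X C U IS Z κ₂ e lab₀ i h1.2, CovS_att' X C U IS Z κ₂ e lab₀ i h1, h2]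
    refine ⟨rfl, ?_⟩
    rw [← h3]
    rfl

/-- counting in a class -/
private theorem CovS_count [NeZero n] (X : KT W Kd Ψ) (C : Cfg n W Kd Ψ) (U IS Z : Finset W)
    (κ₂ : ℝ) (e : W → ℕ → W) (lab₀ : W → ZMod n) [DecidableEq (Kd ⊕ HP X C κ₂)] (k : Kd)
    (p : {c : W // c ∈ IS} → Prop) (q r : W → Prop) [DecidablePred p] [DecidablePred q]
    [DecidablePred r] (hr : ∀ w, r w ↔ X.t.par w ∈ Z ∧ X.t.par w ∉ C.Hub)
    (h : ∀ i, (X.t.par i.1 ∈ Z ∧ X.t.par i.1 ∉ C.Hub) → (p i ↔ q i.1)) :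
    (((mkP X C U IS Z κ₂ e lab₀).cls (Sum.inl k) (X.cl k)).filter p).card =
      ((IS.filter r).filter fun w => X.kd w = k ∧ q w).card := by
  unfold Pcs.cls
  rw [filter_filter, filter_filter]
  refine CovS_card _ _ fun i => ?_
  rw [CovS_cls X C U IS Z κ₂ e lab₀ i k (X.cl k), hr]
  constructor
  · rintro ⟨⟨h1, h2, _⟩, h3⟩
    exact ⟨h1, h2, (h i h1).1 h3⟩
  · rintro ⟨h1, h2, h3⟩
    exact ⟨⟨h1, h2, rfl⟩, (h i h1).2 h3⟩

private theorem CovS_empty [NeZero n] (X : KT W Kd Ψ) (C : Cfg n W Kd Ψ) (U IS Z : Finset W)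
    (κ₂ : ℝ) (e : W → ℕ → W) (lab₀ : W → ZMod n) [DecidableEq (Kd ⊕ HP X C κ₂)] {k : Kd} {a : Ψ}
    (ha : X.cl k ≠ a) : (mkP X C U IS Z κ₂ e lab₀).cls (Sum.inl k) a = ∅ := by
  unfold Pcs.cls
  rw [filter_eq_empty_iff]
  intro i _ h
  rw [CovS_cls X C U IS Z κ₂ e lab₀ i k a] at h
  exact ha h.2.2

private theorem CovS_zero [NeZero n] (X : KT W Kd Ψ) (C : Cfg n W Kd Ψ) (U IS Z : Finset W)
    (κ₂ κ : ℝ) (hκ : 0 ≤ κ) (e : W → ℕ → W) (lab₀ : W → ZMod n) [DecidableEq (Kd ⊕ HP X C κ₂)]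
    {k : Kd} {a : Ψ} (ha : X.cl k ≠ a) (p : ZMod n → {c : W // c ∈ IS} → Prop)
    [∀ y, DecidablePred (p y)] (m : ℕ) :
    ∑ y : ZMod n, |((((mkP X C U IS Z κ₂ e lab₀).cls (Sum.inl k) a).filter (p y)).card : ℝ) -
      ((mkP X C U IS Z κ₂ e lab₀).cls (Sum.inl k) a).card * m / n| ≤ κ * (n : ℝ) ^ 2 := by
  rw [CovS_empty X C U IS Z κ₂ e lab₀ ha]
  simp only [filter_empty, card_empty, Nat.cast_zero, zero_mul, zero_div, sub_zero, abs_zero,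
    sum_const_zero]
  positivity

private theorem CovS_ne_root [NeZero n] (X : KT W Kd Ψ) (C : Cfg n W Kd Ψ) {κ₂ : ℝ}
    {Z D : Finset W} (hroot : X.t.root ∈ Z) {w : W} (hw : w ∈ Iset X C (Z ∪ D) κ₂) :
    w ≠ X.t.root := by
  intro h
  unfold Iset at hw
  rw [mem_filter] at hw
  apply hw.2.1
  rw [h]
  exact mem_union_left _ hroot

open Classical in
theorem mult [NeZero n] (X : KT W Kd Ψ) (C : Cfg n W Kd Ψ) {β c κ₁ κ₂ θ : ℝ} {h0 : ℕ}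
    (hok : CfgOK C X β c κ₁ κ₂ θ h0) {Z D : Finset W} (hroot : X.t.root ∈ Z) (hHub : C.Hub ⊆ Z)
    (e : W → ℕ → W) {lab₀ : W → ZMod n} (hE : X.Emb Z lab₀) (hκ₁ : 0 ≤ κ₁) (r : ZMod n) :
    ((univ.filter fun i =>
      ((mkP X C (Z ∪ D) (Iset X C (Z ∪ D) κ₂) Z κ₂ e lab₀).att i).map Prod.fst = some r).card : ℝ)
      ≤ 4 * κ₁ * n := by
  have _ := hHub
  obtain ⟨Zr, hZr⟩ : ∃ Zr : Finset W, Zr = Z.filter fun z => z ∉ C.Hub ∧
    (lab₀ z = r ∨ lab₀ z = r - 1) := ⟨_, rfl⟩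
  have hcard : Zr.card ≤ 4 := by
    have h1 : Zr.card ≤ ((univ : Finset Bool) ×ˢ ({r, r - 1} : Finset (ZMod n))).card := by
      refine card_le_card_of_injOn (fun z => (X.side (X.kd z), lab₀ z)) ?_ ?_
      · intro z hz
        rw [mem_coe, hZr, mem_filter] at hz
        rw [mem_coe, mem_product]
        refine ⟨mem_univ _, ?_⟩
        rw [mem_insert, mem_singleton]
        exact hz.2.2
      · intro z hz z' hz' he
        rw [mem_coe, hZr, mem_filter] at hz hz'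
        rw [Prod.mk.injEq] at he
        exact hE.inj z hz.1 z' hz'.1 he.1 he.2
    have h2 : ({r, r - 1} : Finset (ZMod n)).card ≤ 2 := card_le_two
    rw [card_product] at h1
    have h3 : (univ : Finset Bool).card = 2 := by simp
    rw [h3] at h1
    omega
  have hle : (univ.filter fun i =>
      ((mkP X C (Z ∪ D) (Iset X C (Z ∪ D) κ₂) Z κ₂ e lab₀).att i).map Prod.fst = some r).card ≤
      (Zr.biUnion fun z => X.t.ch z).card := by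
    refine card_le_card_of_injOn (fun i => i.1) ?_ ?_
    · intro i hi
      rw [mem_coe, mem_filter, Option.map_eq_some_iff] at hi
      obtain ⟨_, x, h1, h2⟩ := hi
      obtain ⟨h3, h4⟩ := CovS_att X C _ _ Z κ₂ e lab₀ i h1
      rw [h4] at h2
      have hi2 := CovS_ne_root X C (D := D) hroot i.2
      rw [mem_coe, mem_biUnion]
      refine ⟨X.t.par i.1, ?_, ?_⟩
      · rw [hZr, mem_filter]
        refine ⟨h3.1, h3.2, ?_⟩
        have h5 : lab₀ (X.t.par i.1) + (X.o i.1 : ZMod n) = r := h2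
        have h6 := X.o_le i.1
        have h7 : X.o i.1 = 0 ∨ X.o i.1 = 1 := by omega
        rcases h7 with h7 | h7
        · left
          rw [h7, Nat.cast_zero, add_zero] at h5
          exact h5
        · right
          rw [h7, Nat.cast_one] at h5
          rw [← h5, add_sub_cancel_right]
      · rw [RTr.mem_ch]
        exact ⟨hi2, rfl⟩
    · intro i _ i' _ he
      exact Subtype.ext he
  calc ((univ.filter fun i =>
      ((mkP X C (Z ∪ D) (Iset X C (Z ∪ D) κ₂) Z κ₂ e lab₀).att i).map Prod.fst = some r).card : ℝ)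
      ≤ ((Zr.biUnion fun z => X.t.ch z).card : ℝ) := by exact_mod_cast hle
    _ ≤ ((∑ z ∈ Zr, (X.t.ch z).card : ℕ) : ℝ) := by exact_mod_cast card_biUnion_le
    _ = ∑ z ∈ Zr, ((X.t.ch z).card : ℝ) := Nat.cast_sum _ _
    _ ≤ Zr.card • (κ₁ * n) := by
      refine sum_le_card_nsmul _ _ _ fun z hz => ?_
      rw [hZr, mem_filter] at hz
      exact hok.hub_big z hz.2.1
    _ = (Zr.card : ℝ) * (κ₁ * n) := nsmul_eq_mul _ _
    _ ≤ 4 * (κ₁ * n) := by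
      refine mul_le_mul_of_nonneg_right ?_ (mul_nonneg hκ₁ (Nat.cast_nonneg _))
      exact_mod_cast hcard
    _ = 4 * κ₁ * n := by ring

open Classical in
theorem st1 [NeZero n] (X : KT W Kd Ψ) (C : Cfg n W Kd Ψ) {κ₂ κ : ℝ} {Z D : Finset W}
    (hκ : 0 ≤ κ) (e : W → ℕ → W) {lab₀ : W → ZMod n}
    (hS : Stat X C ((Iset X C (Z ∪ D) κ₂).filter fun w => X.t.par w ∈ Z ∧ X.t.par w ∉ C.Hub)
      lab₀ κ) (k : Kd) (a : Ψ) :
    ∑ y : ZMod n, |((((mkP X C (Z ∪ D) (Iset X C (Z ∪ D) κ₂) Z κ₂ e lab₀).cls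
      (Sum.inl k) a).filter fun i =>
        (mkP X C (Z ∪ D) (Iset X C (Z ∪ D) κ₂) Z κ₂ e lab₀).rt i + y ∈ C.Q a).card : ℝ) -
      ((mkP X C (Z ∪ D) (Iset X C (Z ∪ D) κ₂) Z κ₂ e lab₀).cls (Sum.inl k) a).card *
        (C.Q a).card / n| ≤ κ * (n : ℝ) ^ 2 := by
  by_cases ha : X.cl k = a
  · subst ha
    refine le_trans (le_of_eq ?_) (hS k).1
    refine sum_congr rfl fun y _ => ?_
    rw [CovS_count X C (Z ∪ D) (Iset X C (Z ∪ D) κ₂) Z κ₂ e lab₀ k _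
      (fun w => lab₀ (X.t.par w) + (X.o w : ZMod n) + y ∈ C.Q (X.cl k))
      (fun w => X.t.par w ∈ Z ∧ X.t.par w ∉ C.Hub) (fun w => Iff.rfl) (fun i hi => by
        rw [CovS_rt X C _ _ Z κ₂ e lab₀ i hi])]
    have h1 := CovS_count X C (Z ∪ D) (Iset X C (Z ∪ D) κ₂) Z κ₂ e lab₀ k (fun _ => True)
      (fun _ => True) (fun w => X.t.par w ∈ Z ∧ X.t.par w ∉ C.Hub) (fun w => Iff.rfl)
      (fun i hi => Iff.rfl)
    simp only [filter_true, and_true] at h1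
    rw [h1]
  · exact CovS_zero X C (Z ∪ D) (Iset X C (Z ∪ D) κ₂) Z κ₂ κ hκ e lab₀ ha _ _

open Classical in
theorem st2 [NeZero n] (X : KT W Kd Ψ) (C : Cfg n W Kd Ψ) {κ₂ κ : ℝ} {Z D : Finset W}
    (hκ : 0 ≤ κ) (e : W → ℕ → W) {lab₀ : W → ZMod n}
    (hS : Stat X C ((Iset X C (Z ∪ D) κ₂).filter fun w => X.t.par w ∈ Z ∧ X.t.par w ∉ C.Hub)
      lab₀ κ) (k : Kd) (a : Ψ) :
    ∑ y : ZMod n, |((((mkP X C (Z ∪ D) (Iset X C (Z ∪ D) κ₂) Z κ₂ e lab₀).cls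
      (Sum.inl k) a).filter fun i =>
        y - (mkP X C (Z ∪ D) (Iset X C (Z ∪ D) κ₂) Z κ₂ e lab₀).rt i ∈ C.S k).card : ℝ) -
      ((mkP X C (Z ∪ D) (Iset X C (Z ∪ D) κ₂) Z κ₂ e lab₀).cls (Sum.inl k) a).card *
        (C.S k).card / n| ≤ κ * (n : ℝ) ^ 2 := by
  by_cases ha : X.cl k = a
  · subst ha
    refine le_trans (le_of_eq ?_) (hS k).2
    refine sum_congr rfl fun y _ => ?_
    rw [CovS_count X C (Z ∪ D) (Iset X C (Z ∪ D) κ₂) Z κ₂ e lab₀ k _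
      (fun w => y - (lab₀ (X.t.par w) + (X.o w : ZMod n)) ∈ C.S k)
      (fun w => X.t.par w ∈ Z ∧ X.t.par w ∉ C.Hub) (fun w => Iff.rfl) (fun i hi => by
        rw [CovS_rt X C _ _ Z κ₂ e lab₀ i hi])]
    have h1 := CovS_count X C (Z ∪ D) (Iset X C (Z ∪ D) κ₂) Z κ₂ e lab₀ k (fun _ => True)
      (fun _ => True) (fun w => X.t.par w ∈ Z ∧ X.t.par w ∉ C.Hub) (fun w => Iff.rfl)
      (fun i hi => Iff.rfl)
    simp only [filter_true, and_true] at h1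
    rw [h1]
  · exact CovS_zero X C (Z ∪ D) (Iset X C (Z ∪ D) κ₂) Z κ₂ κ hκ e lab₀ ha _ _

open Classical in
theorem mss [NeZero n] (X : KT W Kd Ψ) (C : Cfg n W Kd Ψ) {β c κ₁ κ₂ θ κ : ℝ} {h0 : ℕ}
    (hok : CfgOK C X β c κ₁ κ₂ θ h0) {Z D : Finset W} (hroot : X.t.root ∈ Z) (hHub : C.Hub ⊆ Z)
    (hθκ : θ ≤ κ) (e : W → ℕ → W) {lab₀ : W → ZMod n}
    (hR : ∀ z ∈ Z, z ∉ C.Hub → lab₀ z ∈ C.R (X.kd z)) (i : {c : W // c ∈ Iset X C (Z ∪ D) κ₂})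
    (r : ZMod n) (a : Ψ)
    (hi : (mkP X C (Z ∪ D) (Iset X C (Z ∪ D) κ₂) Z κ₂ e lab₀).att i = some (r, a)) :
    (1 - κ) * ((mkS X C κ₂ ((mkP X C (Z ∪ D) (Iset X C (Z ∪ D) κ₂) Z κ₂ e lab₀).ph i 0)).card *
      (C.Q a).card / n) ≤
      (((mkS X C κ₂ ((mkP X C (Z ∪ D) (Iset X C (Z ∪ D) κ₂) Z κ₂ e lab₀).ph i 0)).filter
        fun y => r + y ∈ C.Q a).card : ℝ) := by
  have _ := hHub
  obtain ⟨h3, h4⟩ := CovS_att X C _ _ Z κ₂ e lab₀ i hi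
  rw [Prod.mk.injEq] at h4
  obtain ⟨h5, h6⟩ := h4
  rw [CovS_ph X C _ _ Z κ₂ e lab₀ i h3.2]
  have h7 : mkS X C κ₂ (Sum.inl (X.kd i.1)) = C.S (X.kd i.1) := rfl
  rw [h7, h5, h6]
  have hne : i.1 ≠ X.t.root := CovS_ne_root X C (D := D) hroot i.2
  refine le_trans ?_ (hok.mass (X.kd i.1) (X.kd (X.t.par i.1)) (X.side_par i.1 hne)
    (lab₀ (X.t.par i.1)) (hR _ h3.1 h3.2) (X.o i.1) (X.o_le i.1))
  refine mul_le_mul_of_nonneg_right (by linarith) ?_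
  positivity

end Pool.Agent.Lib.MP_c5b475_co.KN
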