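import Pool.Agent.Lib.MP_c5b475_co.KN.EApp

/-!
# KN/EThm: near-perfect simultaneous embedding of pieces
-/

set_option autoImplicit false
set_option linter.unusedSectionVars false

namespace Pool.Agent.Lib.MP_c5b475_co.KN

open Finset NB

/-- **Theorem E** (near-perfect simultaneous embedding of pieces). -/
theorem main_pieces (Φm Ψ : Type) [Fintype Φm] [DecidableEq Φm] [Fintype Ψ] [DecidableEq Ψ]
    (K : ℕ) (β ε : ℝ) (hβ : 0 < β) (hε : 0 < ε) :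
    ∃ κ : ℝ, 0 < κ ∧ ∀ κ₂ : ℝ, 0 < κ₂ → ∃ θ : ℝ, 0 < θ ∧ ∃ n₀ : ℕ, ∀ (n : ℕ) [NeZero n],
      n₀ ≤ n → ∀ (Φh : Type) [Fintype Φh] [DecidableEq Φh]
      (S : Φm ⊕ Φh → Finset (ZMod n)) (Q : Ψ → Finset (ZMod n))
      (I : Type) [Fintype I] [DecidableEq I] (P : Pcs n (Φm ⊕ Φh) Ψ I),
      (∀ i, 1 ≤ P.T i) → (∀ i, P.T i ≤ K) → ∑ i, P.T i ≤ 2 * n →
      (∀ i t, 1 ≤ t → P.pr i t < t) →
      (∀ i t, 1 ≤ t → ∃ φ, P.ph i t = Sum.inl φ) →
      (∀ i a, P.att i = some a → ∃ φ, P.ph i 0 = Sum.inl φ) →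
      (∀ φ, β * n ≤ ((S (Sum.inl φ)).card : ℝ)) → (∀ h, κ₂ * n ≤ ((S (Sum.inr h)).card : ℝ)) →
      (∀ c, β * n ≤ ((Q c).card : ℝ)) →
      ∑ φ, (S φ).card ≤ 2 * n → ∑ c, (Q c).card ≤ n →
      (∀ φ, Aut θ (S φ)) → (∀ c, Aut θ (Q c)) →
      (∀ φ, ∑ i, ((range (P.T i)).filter fun t => P.ph i t = φ).card ≤ (S φ).card) →
      (∀ c, (univ.filter fun i => (P.att i).map Prod.snd = some c).card +
        ∑ i, ((range (P.T i)).filter fun t => 1 ≤ t ∧ P.cl i t = c).card ≤ (Q c).card) →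
      (∀ r : ZMod n, ((univ.filter fun i => (P.att i).map Prod.fst = some r).card : ℝ) ≤ κ * n) →
      (∀ φ c, ∑ y : ZMod n, |(((P.cls (Sum.inl φ) c).filter fun i => P.rt i + y ∈ Q c).card : ℝ) -
        (P.cls (Sum.inl φ) c).card * (Q c).card / n| ≤ κ * (n : ℝ) ^ 2) →
      (∀ φ c, ∑ y : ZMod n, |(((P.cls (Sum.inl φ) c).filter
        fun i => y - P.rt i ∈ S (Sum.inl φ)).card : ℝ) -
        (P.cls (Sum.inl φ) c).card * (S (Sum.inl φ)).card / n| ≤ κ * (n : ℝ) ^ 2) →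
      (∀ i r c, P.att i = some (r, c) → (1 - κ) * ((S (P.ph i 0)).card * (Q c).card / n) ≤
        (((S (P.ph i 0)).filter fun y => r + y ∈ Q c).card : ℝ)) →
      ∃ (cov : Finset I) (y : I → ℕ → ZMod n),
        ((univ \ cov).card : ℝ) ≤ ε * n ∧ (∀ i ∈ cov, P.Good S Q i (y i)) ∧
        ∀ i ∈ cov, ∀ j ∈ cov, ∀ t < P.T i, ∀ u < P.T j, (i, t) ≠ (j, u) →
          P.Sep i (y i) t j (y j) u := by
  obtain ⟨κN, hκN, hN⟩ := nibble (1 + 2 * K) (show 0 < ε / 20 by positivity)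
  set B1 : ℝ := 1 / β ^ 2 with hB1
  have hB1p : 0 < B1 := by positivity
  set k : ℝ := ((1 + 2 * K : ℕ) : ℝ) with hkdef
  have hk1 : 1 ≤ k := by
    rw [hkdef]
    push_cast
    have : (0 : ℝ) ≤ K := Nat.cast_nonneg K
    linarith
  set D : ℝ := 1 + k * (Fintype.card Φm * (Fintype.card Ψ * B1)) with hD
  have hDp : 0 < D := by positivity
  set κ : ℝ := min (κN / (2 * B1)) (ε / (16 * D)) with hκdef
  have hκ : 0 < κ := lt_min (by positivity) (by positivity)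
  have hκa : κ * B1 ≤ κN / 2 := by
    have h1 : κ ≤ κN / (2 * B1) := min_le_left _ _
    rw [le_div_iff₀ (by positivity)] at h1
    linarith
  have hκb : 4 * κ * D ≤ ε / 4 := by
    have h1 : κ ≤ ε / (16 * D) := min_le_right _ _
    rw [le_div_iff₀ (by positivity)] at h1
    linarith
  refine ⟨κ, hκ, fun κ₂ hκ₂ => ?_⟩
  set C : ℝ := CC β κ₂ with hC
  have hCp : 0 < C := by
    rw [hC]
    unfold CC
    positivity
  set s : ℝ := ε / (4 * ((4 * K + 8 * k) * (C * B1))) with hs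
  have hKk : 0 < 4 * (K : ℝ) + 8 * k := by positivity
  have hsp : 0 < s := by positivity
  refine ⟨s ^ 2, by positivity, ⌈32 * (K : ℝ) ^ 2 * C / ε +
    2 * (2 * (K : ℝ) ^ 2 * (C * C) + K * C) / κN⌉₊, ?_⟩
  intro n _ hn Φh _ _ S Q I _ _ P h1 h2 h3 h4 h5 h6 h7 h8 h9 h10 h11 h12 h13 h14 h15 h16 h17 h18 h19
  have hnp := nR_pos (n := n)
  have H : Hyp S Q P K β κ₂ (s ^ 2) :=
    { T1 := h1, TK := h2, pr := h4, phl := h5, pha := h6, Sb := h7, Sh := h8, Qb := h9,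
      SA := h12, QA := h13, b0 := hβ, k0 := hκ₂, t0 := sq_nonneg s }
  have hnR : 32 * (K : ℝ) ^ 2 * C / ε + 2 * (2 * (K : ℝ) ^ 2 * (C * C) + K * C) / κN ≤ n :=
    le_trans (Nat.le_ceil _) (by exact_mod_cast hn)
  have hn1 : 32 * (K : ℝ) ^ 2 * C ≤ ε * n := by
    have h : 32 * (K : ℝ) ^ 2 * C / ε ≤ n := by
      have : 0 ≤ 2 * (2 * (K : ℝ) ^ 2 * (C * C) + K * C) / κN := by positivity
      linarith
    rw [div_le_iff₀ hε] at h
    linarith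
  have hn2 : 2 * (2 * (K : ℝ) ^ 2 * (C * C) + K * C) ≤ κN * n := by
    have h : 2 * (2 * (K : ℝ) ^ 2 * (C * C) + K * C) / κN ≤ n := by
      have : 0 ≤ 32 * (K : ℝ) ^ 2 * C / ε := by positivity
      linarith
    rw [div_le_iff₀ hκN] at h
    linarith
  have hI : (Fintype.card I : ℝ) ≤ 2 * n := by
    have h : Fintype.card I ≤ ∑ i, P.T i := by
      have := Finset.sum_le_sum (s := (univ : Finset I)) (f := fun _ => 1) (g := fun i => P.T i)
        fun i _ => h1 i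
      simpa using this
    exact_mod_cast le_trans h h3
  have hBBn : BB n β κ₂ * n = C := by
    unfold BB
    rw [← hC]
    field_simp
  have hBB0 := H.BB_nonneg
  -- coweights
  have hcw : ∀ u v, u ≠ v → cw (vv S Q P) (ww S Q P) u v ≤ κN := by
    intro u v huv
    refine le_trans (H.cw_le hκ.le h16 u v huv) ?_
    rw [← hB1]
    have e1 : (Fintype.card I : ℝ) * ((K : ℝ) ^ 2 * (BB n β κ₂ * BB n β κ₂)) ≤
        2 * n * ((K : ℝ) ^ 2 * (BB n β κ₂ * BB n β κ₂)) :=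
      mul_le_mul_of_nonneg_right hI (by positivity)
    have e2 : 2 * (n : ℝ) * ((K : ℝ) ^ 2 * (BB n β κ₂ * BB n β κ₂)) + K * BB n β κ₂ =
        (2 * (K : ℝ) ^ 2 * (C * C) + K * C) / n := by
      rw [← hBBn]
      field_simp
    have e3 : (2 * (K : ℝ) ^ 2 * (C * C) + K * C) / n ≤ κN / 2 := by
      rw [div_le_iff₀ hnp]
      linarith
    linarith
  obtain ⟨cov, y, c1, c2, c3⟩ := apply_nibble P H.krn h2 hN hcw
  refine ⟨cov, y, le_trans c1 ?_, c2, c3⟩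
  have d1 : ∑ i, (1 - dg (vv S Q P) (ww S Q P) (Sum.inl i)) ≤
      2 * n * (κ + K * E1 β κ₂ (s ^ 2) + 2 * (K : ℝ) ^ 2 * BB n β κ₂) := by
    refine le_trans (Finset.sum_le_sum fun i _ => H.dg_piece hκ.le h19 i) ?_
    rw [Finset.sum_const, Finset.card_univ, nsmul_eq_mul]
    refine mul_le_mul_of_nonneg_right hI ?_
    have := H.E1_nonneg
    positivity
  have d2 := H.exc_tot h14 h15 h17 h18
  rw [← hB1] at d2
  have d3 : ∑ i, (P.T i : ℝ) ≤ 2 * n := by exact_mod_cast h3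
  have d4 : (Fintype.card (Tok S Q I) : ℝ) ≤ 5 * n := by
    rw [card_tok]
    have e1 : ((∑ φ, (S φ).card : ℕ) : ℝ) ≤ 2 * n := by exact_mod_cast h10
    have e2 : ((∑ c, (Q c).card : ℕ) : ℝ) ≤ n := by exact_mod_cast h11
    linarith
  have hE : E1 β κ₂ (s ^ 2) = C * s * B1 := by
    unfold E1
    rw [Real.sqrt_sq hsp.le]
  have hE2 : (4 * K + 8 * k) * E1 β κ₂ (s ^ 2) = ε / 4 := by
    rw [hE, hs]
    field_simp
  have hE0 : 0 ≤ E1 β κ₂ (s ^ 2) := H.E1_nonneg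
  rw [← hkdef]
  have d5 : k * ∑ v : Tok S Q I, max (dg (vv S Q P) (ww S Q P) v - 1) 0 ≤
      k * (2 * (2 * n * E1 β κ₂ (s ^ 2) +
        Fintype.card Φm * (Fintype.card Ψ * (κ * B1 * n)))) := by
    refine mul_le_mul_of_nonneg_left (le_trans d2 ?_) (by linarith)
    have := mul_le_mul_of_nonneg_right d3 hE0
    linarith
  have d6 : ε / 20 * (Fintype.card (Tok S Q I) : ℝ) ≤ ε / 4 * n := by
    have := mul_le_mul_of_nonneg_left d4 (show 0 ≤ ε / 20 by positivity)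
    linarith
  have d7 : (8 : ℝ) * (K : ℝ) ^ 2 * (BB n β κ₂ * n) ≤ ε / 4 * n := by
    rw [hBBn]
    linarith
  have d8 : 2 * (2 * n * (κ + K * E1 β κ₂ (s ^ 2) + 2 * (K : ℝ) ^ 2 * BB n β κ₂) +
      k * (2 * (2 * n * E1 β κ₂ (s ^ 2) + Fintype.card Φm * (Fintype.card Ψ * (κ * B1 * n))))) =
      4 * κ * D * n + (4 * K + 8 * k) * E1 β κ₂ (s ^ 2) * n +
        8 * (K : ℝ) ^ 2 * (BB n β κ₂ * n) := by
    rw [hD]
    ring
  have d9 : 4 * κ * D * n ≤ ε / 4 * n := mul_le_mul_of_nonneg_right hκb hnp.le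
  rw [hE2] at d8
  linarith

end Pool.Agent.Lib.MP_c5b475_co.KN
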