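import Pool.Agent.Lib.MP_c5b475_co.KN.CovC
import Pool.Agent.Lib.MP_c5b475_co.KN.CovS
import Pool.Agent.Lib.MP_c5b475_co.KN.CovD
import Pool.Agent.Lib.MP_c5b475_co.KN.EThm

/-!
# KN/CovThm: Theorem E for the tree
-/

set_option autoImplicit false

namespace Pool.Agent.Lib.MP_c5b475_co.KN

open Finset

theorem Aut.mono {n : ℕ} [NeZero n] {θ θ' : ℝ} (h : θ ≤ θ') {S : Finset (ZMod n)}
    (hS : Aut θ S) : Aut θ' S :=
  le_trans hS (mul_le_mul_of_nonneg_right h (by positivity))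

open Classical in
/-- **Covered pieces**: Theorem E for the tree. -/
theorem covered (Kd Ψ : Type) [Fintype Kd] [DecidableEq Kd] [Fintype Ψ] [DecidableEq Ψ]
    (K : ℕ) (β ε : ℝ) (hβ : 0 < β) (hε : 0 < ε) :
    ∃ κ : ℝ, 0 < κ ∧ ∀ κ₂ : ℝ, 0 < κ₂ → ∃ θ₀ : ℝ, 0 < θ₀ ∧ ∃ n₀ : ℕ,
      ∀ (n : ℕ) [NeZero n], n₀ ≤ n → ∀ (W : Type) [Fintype W] [DecidableEq W] (X : KT W Kd Ψ)
      (C : Cfg n W Kd Ψ) (c κ₁ θ : ℝ) (h0 : ℕ), Fintype.card W ≤ n + 1 → θ ≤ θ₀ →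
      0 ≤ κ₁ → 4 * κ₁ ≤ κ →
      CfgOK C X β c κ₁ κ₂ θ h0 →
      ∀ (Z D : Finset W), Disjoint Z D → X.t.root ∈ Z → C.Hub ⊆ Z →
      (∀ w, w ∉ Z → w ∉ D → ∀ v ∈ X.t.ch w, v ∉ Z) →
      (∀ v, (univ.filter fun w => X.t.Pc (Z ∪ D) w v).card ≤ K) →
      ∀ lab₀ : W → ZMod n, X.Emb Z lab₀ → (∀ h ∈ C.Hub, lab₀ h = C.lh h) →
      (∀ z ∈ Z, z ∉ C.Hub → lab₀ z ∈ C.R (X.kd z)) →
      (∀ u, X.EdgeIn Z u → ¬ X.EdgeIn C.Hub u → X.col lab₀ u ∈ C.RC) →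
      Stat X C ((Iset X C (Z ∪ D) κ₂).filter fun w => X.t.par w ∈ Z ∧ X.t.par w ∉ C.Hub) lab₀ κ →
      ∃ (cov : Finset W) (lab : W → ZMod n), cov ⊆ Iset X C (Z ∪ D) κ₂ ∧
        ((Iset X C (Z ∪ D) κ₂ \ cov).card : ℝ) ≤ ε * n ∧ (∀ z ∈ Z, lab z = lab₀ z) ∧
        X.Emb (Z ∪ Cov X (Z ∪ D) cov) lab ∧
        (∀ w ∈ Cov X (Z ∪ D) cov, lab w ∈ C.S (X.kd w) ∨
          (w ∈ cov ∧ X.t.par w ∈ C.Hub ∧ lab w ∈ C.Y (X.t.par w) (X.kd w))) ∧
        ∀ w ∈ Cov X (Z ∪ D) cov, X.t.par w ∉ D → X.col lab w ∈ C.Q (X.cl (X.kd w)) ∨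
          (w ∈ cov ∧ X.t.par w ∈ C.Hub ∧ lab w ∈ C.Y (X.t.par w) (X.kd w)) := by
  obtain ⟨κ, hκ, H⟩ := main_pieces Kd Ψ K β ε hβ hε
  refine ⟨κ, hκ, fun κ₂ hκ₂ => ?_⟩
  obtain ⟨θ₁, hθ₁, n₁, H⟩ := H κ₂ hκ₂
  refine ⟨min θ₁ κ, lt_min hθ₁ hκ, max n₁ 1, ?_⟩
  intro n _ hn W _ _ X C c κ₁ θ h0 hW hθ hκ₁0 hκ₁ hok Z D hZD hroot hHub hch hK lab₀ hE hlh hR
    hRC hS
  have hn1 : 1 ≤ n := le_trans (le_max_right _ _) hn
  have hn0 : n₁ ≤ n := le_trans (le_max_left _ _) hn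
  have hθ1 : θ ≤ θ₁ := le_trans hθ (min_le_left _ _)
  have hθκ : θ ≤ κ := le_trans hθ (min_le_right _ _)
  have hU : X.t.root ∈ Z ∪ D := mem_union_left _ hroot
  have hIS : ∀ v ∈ Iset X C (Z ∪ D) κ₂, v ∉ Z ∪ D := fun v hv => by
    simp only [Iset, mem_filter] at hv
    exact hv.2.1
  have hIS' : ∀ v ∈ Iset X C (Z ∪ D) κ₂, v ∉ Z ∪ D ∧ X.t.par v ∈ Z ∪ D := fun v hv => by
    simp only [Iset, mem_filter] at hv
    exact ⟨hv.2.1, hv.2.2.1⟩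
  obtain ⟨e, he⟩ := exists_enm X (Z ∪ D) (Iset X C (Z ∪ D) κ₂) hU hIS
  have hph : ∀ (i : {v : W // v ∈ Iset X C (Z ∪ D) κ₂}),
      X.t.par i.1 ∉ C.Hub → ph0 X C κ₂ i.1 = Sum.inl (X.kd i.1) := fun i hi => by
    unfold ph0
    rw [dif_neg fun h => hi h.1]
  obtain ⟨cov, y, h1, h2, h3⟩ := H n hn0 (HP X C κ₂) (mkS X C κ₂) C.Q
    {v : W // v ∈ Iset X C (Z ∪ D) κ₂} (mkP X C (Z ∪ D) (Iset X C (Z ∪ D) κ₂) Z κ₂ e lab₀)
    (fun i => by
      have : i.1 ∈ pcs X (Z ∪ D) i.1 := by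
        simp only [pcs, mem_filter, mem_univ, true_and]
        exact ⟨0, rfl, fun j hj => by
          have : j = 0 := by omega
          subst this
          exact hIS _ i.2⟩
      exact card_pos.2 ⟨_, this⟩)
    (fun i => hK i.1)
    (le_trans (sum_T_le X C κ₂ e lab₀ hU hIS') (by omega))
    (fun i t ht => by
      show (if idx X (Z ∪ D) e i.1 (X.t.par (e i.1 t)) < t then
        idx X (Z ∪ D) e i.1 (X.t.par (e i.1 t)) else 0) < t
      split_ifs with h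
      · exact h
      · omega)
    (fun i t ht => ⟨X.kd (e i.1 t), by
      show (if t = 0 then ph0 X C κ₂ i.1 else Sum.inl (X.kd (e i.1 t))) =
        Sum.inl (X.kd (e i.1 t))
      rw [if_neg (by omega)]⟩)
    (fun i a hi => by
      have hi' : X.t.par i.1 ∉ C.Hub := by
        intro hc
        have hi : (if X.t.par i.1 ∈ C.Hub ∨ X.t.par i.1 ∉ Z then none
          else some (lab₀ (X.t.par i.1) + (X.o i.1 : ZMod n), X.cl (X.kd i.1))) = some a := hi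
        rw [if_pos (Or.inl hc)] at hi
        exact absurd hi (by simp)
      exact ⟨X.kd i.1, by
        show (if (0 : ℕ) = 0 then ph0 X C κ₂ i.1 else Sum.inl (X.kd (e i.1 0))) =
          Sum.inl (X.kd i.1)
        rw [if_pos rfl, hph i hi']⟩)
    (fun k => hok.S_big k)
    (fun p => le_trans p.2.2 (by exact_mod_cast hok.Y_big _ p.2.1 _ p.2.2))
    (fun a => hok.Q_big a)
    (by
      rw [Fintype.sum_sum_type]
      refine le_trans (Nat.add_le_add_left ?_ _) hok.sumL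
      calc ∑ p : HP X C κ₂, (mkS X C κ₂ (Sum.inr p)).card
          = ∑ p : HP X C κ₂, (fun q : W × Kd => (C.Y q.1 q.2).card) p.1 := rfl
        _ = ∑ q ∈ (univ : Finset (HP X C κ₂)).image Subtype.val, (C.Y q.1 q.2).card := by
            rw [sum_image fun a _ b _ h => Subtype.ext h]
        _ ≤ ∑ q ∈ C.Hub ×ˢ (univ : Finset Kd), (C.Y q.1 q.2).card := by
            refine sum_le_sum_of_subset fun q hq => ?_
            obtain ⟨p, _, rfl⟩ := mem_image.1 hq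
            exact mem_product.2 ⟨p.2.1, mem_univ _⟩
        _ = _ := by rw [sum_product])
    hok.sumQ
    (fun φ => by
      cases φ with
      | inl k => exact Aut.mono hθ1 (hok.autS k)
      | inr p => exact Aut.mono hθ1 (hok.autY _ p.2.1 _ p.2.2))
    (fun a => Aut.mono hθ1 (hok.autQ a))
    (fun φ => by
      cases φ with
      | inl k => exact loads_inl X C hok hroot hHub he lab₀ k
      | inr p => exact loads_inr X C hok hroot hHub he lab₀ p)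
    (fun a => loads_col X C hok hroot hHub he lab₀ a)
    (fun r => le_trans (mult X C hok hroot hHub e hE hκ₁0 r)
      (mul_le_mul_of_nonneg_right hκ₁ (by positivity)))
    (fun k a => st1 X C hκ.le e hS k a)
    (fun k a => st2 X C hκ.le e hS k a)
    (fun i r a hi => mss X C hok hroot hHub hθκ e hR i r a hi)
  obtain ⟨lab, g1, g2, g3, g4⟩ := finish X C hok hZD hroot hHub hch he hE hlh hR hRC cov y h2 h3
  refine ⟨cov.image Subtype.val, lab, ?_, ?_, g1, g2, g3, g4⟩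
  · intro v hv
    obtain ⟨i, _, rfl⟩ := mem_image.1 hv
    exact i.2
  · refine le_trans ?_ h1
    have : (Iset X C (Z ∪ D) κ₂ \ cov.image Subtype.val).card ≤ (univ \ cov).card := by
      refine card_le_card_of_surjOn Subtype.val ?_
      intro v hv
      rw [mem_coe, mem_sdiff] at hv
      refine ⟨⟨v, hv.1⟩, ?_, rfl⟩
      rw [mem_coe, mem_sdiff]
      exact ⟨mem_univ _, fun h => hv.2 (mem_image.2 ⟨_, h, rfl⟩)⟩
    exact_mod_cast this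

end Pool.Agent.Lib.MP_c5b475_co.KN
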