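import Pool.Agent.Lib.MP_c5b475_co.KN.Deg2

/-!
# KN/Cow: coweights and the degrees of the pieces
-/

set_option autoImplicit false
set_option linter.unusedSectionVars false

namespace Pool.Agent.Lib.MP_c5b475_co.KN

open Finset NB

variable {n : ℕ} [NeZero n] {Φm Φh Ψ I : Type} [Fintype Φm] [DecidableEq Φm]
  [Fintype Φh] [DecidableEq Φh] [Fintype Ψ] [DecidableEq Ψ] [Fintype I] [DecidableEq I]
  {S : Φm ⊕ Φh → Finset (ZMod n)} {Q : Ψ → Finset (ZMod n)}
  {P : Pcs n (Φm ⊕ Φh) Ψ I} {K : ℕ} {β κ₂ θ : ℝ}

/-- uniform bound for all kernels -/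
noncomputable def BB (n : ℕ) (β κ₂ : ℝ) : ℝ := CC β κ₂ / n

theorem Hyp.BB_nonneg (H : Hyp S Q P K β κ₂ θ) : 0 ≤ BB n β κ₂ :=
  div_nonneg H.CC_pos.le (Nat.cast_nonneg _)

theorem ite_nonneg' (p : Prop) [Decidable p] : (0 : ℝ) ≤ if p then 1 else 0 := by
  split_ifs <;> norm_num

theorem ite_le_one' (p : Prop) [Decidable p] : (if p then (1 : ℝ) else 0) ≤ 1 := by
  split_ifs <;> norm_num

/-- a labelled piece without collision, or a collision -/
theorem one_le_sep (P : Pcs n (Φm ⊕ Φh) Ψ I) (i : I) (y : ℕ → ZMod n) :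
    1 ≤ ind (SepIn P i y) + ∑ u ∈ range (P.T i), ∑ t ∈ range u,
      ((if y u = y t then 1 else 0) +
        (if y u = y t + P.base i t y - P.base i u y then 1 else 0)) := by
  have h0 : ∀ u t, (0 : ℝ) ≤ (if y u = y t then 1 else 0) +
        (if y u = y t + P.base i t y - P.base i u y then 1 else 0) := fun u t =>
    add_nonneg (ite_nonneg' _) (ite_nonneg' _)
  by_cases h : SepIn P i y
  · rw [ind_pos h]
    have := Finset.sum_nonneg (s := range (P.T i)) (f := fun u => ∑ t ∈ range u,
      (((if y u = y t then 1 else 0) +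
        (if y u = y t + P.base i t y - P.base i u y then 1 else 0)) : ℝ))
      fun u _ => Finset.sum_nonneg fun t _ => h0 u t
    linarith
  · rw [ind_neg h, zero_add]
    -- there is a collision `t < u`
    have h1 : ∃ t u, t < u ∧ u < P.T i ∧ (y u = y t ∨
        y u = y t + P.base i t y - P.base i u y) := by
      unfold SepIn at h
      push Not at h
      obtain ⟨t, ht, u, hu, htu, h2⟩ := h
      have h3 : y t = y u ∨ ∃ a, P.col i y t = some a ∧ P.col i y u = some a := by
        by_contra h4
        push Not at h4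
        apply h2
        refine ⟨fun _ => h4.1, fun a ha hb => ?_⟩
        exact h4.2 a ha hb
      have h4 : y t = y u ∨ y t + P.base i t y = y u + P.base i u y := by
        rcases h3 with h3 | ⟨⟨c, ψ⟩, ha, hb⟩
        · exact Or.inl h3
        · right
          have h5 := ((col_eq_some P i t y c ψ).1 ha).2
          have h6 := ((col_eq_some P i u y c ψ).1 hb).2
          rw [h5, h6]
          abel
      rcases Nat.lt_or_gt_of_ne htu with h5 | h5
      · refine ⟨t, u, h5, hu, ?_⟩
        rcases h4 with h4 | h4
        · exact Or.inl h4.symm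
        · exact Or.inr (by rw [h4]; abel)
      · refine ⟨u, t, h5, ht, ?_⟩
        rcases h4 with h4 | h4
        · exact Or.inl h4
        · exact Or.inr (by rw [← h4]; abel)
    obtain ⟨t, u, htu, hu, h2⟩ := h1
    have h3 : (1 : ℝ) ≤ (if y u = y t then 1 else 0) +
        (if y u = y t + P.base i t y - P.base i u y then 1 else 0) := by
      rcases h2 with h2 | h2
      · rw [if_pos h2]
        have := ite_nonneg' (y u = y t + P.base i t y - P.base i u y)
        linarith
      · rw [if_pos h2]
        have := ite_nonneg' (y u = y t)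
        linarith
    refine le_trans h3 ?_
    refine le_trans (Finset.single_le_sum (f := fun t => ((if y u = y t then 1 else 0) +
        (if y u = y t + P.base i t y - P.base i u y then 1 else 0) : ℝ))
        (fun t _ => h0 u t) (Finset.mem_range.2 htu)) ?_
    exact Finset.single_le_sum (f := fun u => ∑ t ∈ range u,
      ((if y u = y t then 1 else 0) +
        (if y u = y t + P.base i t y - P.base i u y then 1 else 0) : ℝ))
      (fun u _ => Finset.sum_nonneg fun t _ => h0 u t) (Finset.mem_range.2 hu)

/-- degree of a piece -/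
theorem Hyp.dg_piece (H : Hyp S Q P K β κ₂ θ) {κ : ℝ} (hκ : 0 ≤ κ)
    (hatt : ∀ i r c, P.att i = some (r, c) →
      (1 - κ) * ((S (P.ph i 0)).card * (Q c).card / n) ≤
        (((S (P.ph i 0)).filter fun y => r + y ∈ Q c).card : ℝ)) (i : I) :
    1 - dg (vv S Q P) (ww S Q P) (Sum.inl i) ≤
      κ + K * E1 β κ₂ θ + 2 * (K : ℝ) ^ 2 * BB n β κ₂ := by
  rw [dg_inl P H.krn]
  have hB := H.BB_nonneg
  have h1 := H.loss hκ hatt i
  have h2 := EX_mono (H.krn i) (P.T i) fun y => one_le_sep P i y
  rw [EX_add, EX_sum] at h2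
  simp only [EX_sum, EX_add] at h2
  have h3 : ∀ u ∈ range (P.T i), ∑ t ∈ range u,
      (EX (kt S Q P i) (P.T i) (fun y => if y u = y t then 1 else 0) +
        EX (kt S Q P i) (P.T i)
          (fun y => if y u = y t + P.base i t y - P.base i u y then 1 else 0)) ≤
      K * (2 * BB n β κ₂) := by
    intro u hu
    have hu' := Finset.mem_range.1 hu
    have hK := H.TK i
    have h4 : ∀ t ∈ range u,
        (EX (kt S Q P i) (P.T i) (fun y => if y u = y t then 1 else 0) +
        EX (kt S Q P i) (P.T i)
          (fun y => if y u = y t + P.base i t y - P.base i u y then 1 else 0)) ≤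
        2 * BB n β κ₂ := by
      intro t ht
      have ht' := Finset.mem_range.1 ht
      have h5 : Dep u (fun y : ℕ → ZMod n => y t) := fun y y' h => h t ht'
      have h6 : Dep u (fun y : ℕ → ZMod n => y t + P.base i t y - P.base i u y) := by
        intro y y' h
        have h7 := H.base_dep i u y y' h
        have h8 := H.base_dep i t y y' fun s hs => h s (by omega)
        simp only at h7 h8
        simp only [h t ht', h7, h8]
      have h7 := EX_hit1 (H.krn i) hu' (H.kt_le i u) hB h5
      have h8 := EX_hit1 (H.krn i) hu' (H.kt_le i u) hB h6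
      unfold BB at h7 h8 ⊢
      linarith
    refine le_trans (Finset.sum_le_sum h4) ?_
    rw [Finset.sum_const, Finset.card_range, nsmul_eq_mul]
    refine mul_le_mul_of_nonneg_right ?_ (by linarith)
    exact_mod_cast (by omega : u ≤ K)
  have h4 := Finset.sum_le_sum h3
  rw [Finset.sum_const, Finset.card_range, nsmul_eq_mul] at h4
  have h5 : (P.T i : ℝ) * (K * (2 * BB n β κ₂)) ≤ K * (K * (2 * BB n β κ₂)) := by
    refine mul_le_mul_of_nonneg_right ?_ (by positivity)
    exact_mod_cast H.TK i
  have h6 : (K : ℝ) * (K * (2 * BB n β κ₂)) = 2 * (K : ℝ) ^ 2 * BB n β κ₂ := by ring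
  unfold E1
  linarith

/-- one step uses a given label or colour -/
theorem Hyp.hit_le (H : Hyp S Q P K β κ₂ θ) (i : I) (a : LC S Q) {t : ℕ} (ht : t < P.T i) :
    EX (kt S Q P i) (P.T i) (fun y => if y t = tg P i t y a then 1 else 0) ≤ BB n β κ₂ :=
  EX_hit1 (H.krn i) ht (H.kt_le i t) H.BB_nonneg (H.tg_dep a i t)

/-- same step, a label and a colour -/
theorem Hyp.pair_lc (H : Hyp S Q P K β κ₂ θ) (i : I) (a : Σ φ : Φm ⊕ Φh, {x : ZMod n // x ∈ S φ})
    (b : Σ c : Ψ, {x : ZMod n // x ∈ Q c}) {t : ℕ} (ht : t < P.T i)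
    (hb : P.cc i t = some b.1) :
    EX (kt S Q P i) (P.T i) (fun y => (if y t = a.2.1 then 1 else 0) *
      (if y t = b.2.1 - P.base i t y then 1 else 0)) ≤
      BB n β κ₂ * BB n β κ₂ + (if t = 0 then
        ind ((P.att i).map Prod.fst = some (b.2.1 - a.2.1)) else 0) * ((1 / β ^ 2) / n) := by
  have hB := H.BB_nonneg
  have hb0 := H.b0
  by_cases h0 : t = 0
  · subst h0
    rw [if_pos rfl]
    have h1 : ∀ y : ℕ → ZMod n, (if y 0 = a.2.1 then (1 : ℝ) else 0) *
        (if y 0 = b.2.1 - P.base i 0 y then 1 else 0) ≤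
        ind ((P.att i).map Prod.fst = some (b.2.1 - a.2.1)) *
          (if y 0 = a.2.1 then 1 else 0) := by
      intro y
      by_cases h2 : y 0 = a.2.1
      · rw [if_pos h2, one_mul, mul_one]
        by_cases h3 : y 0 = b.2.1 - P.base i 0 y
        · rw [if_pos h3]
          rw [base_zero] at h3
          have h4 : (P.att i).map Prod.fst = some (b.2.1 - a.2.1) := by
            have h5 : (P.att i).map Prod.snd = some b.1 := by
              unfold Pcs.cc at hb
              simpa using hb
            cases h6 : P.att i with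
            | none => rw [h6] at h5; simp at h5
            | some rc =>
              have h7 : P.rt i = rc.1 := by
                unfold Pcs.rt
                rw [h6]
                rfl
              rw [h7, h2] at h3
              simp only [Option.map_some, Option.some.injEq]
              rw [h3]
              abel
          rw [ind_pos h4]
        · rw [if_neg h3]
          exact ind_nonneg _
      · rw [if_neg h2, zero_mul, mul_zero]
    refine le_trans (EX_mono (H.krn i) _ h1) ?_
    rw [EX_smul]
    have h2 : EX (kt S Q P i) (P.T i) (fun y => if y 0 = a.2.1 then 1 else 0) ≤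
        (1 / β ^ 2) / n := by
      have h3 : Dep 1 (fun y : ℕ → ZMod n => if y 0 = a.2.1 then (1 : ℝ) else 0) := by
        intro y y' h
        have := h 0 (by omega)
        simp only [this]
      refine le_trans (EX_le (H.krn i) (H.T1 i) (fun y => ite_nonneg' _) h3) ?_
      have h4 := law_zero_some (S := S) (Q := Q) hb a.2.1
      unfold law at h4
      rw [zero_add] at h4
      rw [h4]
      obtain ⟨φ, hφ⟩ := H.cc_inl hb
      rw [hφ]
      exact le_trans (ker_le (H.idl_pos φ _) _ _) (H.one_div_idl φ _)
    have h3 := mul_le_mul_of_nonneg_left h2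
      (ind_nonneg ((P.att i).map Prod.fst = some (b.2.1 - a.2.1)))
    have h4 : 0 ≤ BB n β κ₂ * BB n β κ₂ := mul_nonneg hB hB
    linarith
  · rw [if_neg h0, zero_mul, add_zero]
    have h1 : ∀ y : ℕ → ZMod n, (if y t = a.2.1 then (1 : ℝ) else 0) *
        (if y t = b.2.1 - P.base i t y then 1 else 0) ≤
        (if y (P.pr i t) = b.2.1 - P.ofs i t - a.2.1 then 1 else 0) *
          (if y t = a.2.1 then 1 else 0) := by
      intro y
      by_cases h2 : y t = a.2.1
      · rw [if_pos h2, one_mul, mul_one]
        by_cases h3 : y t = b.2.1 - P.base i t y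
        · rw [if_pos h3]
          rw [base_pos P i (by omega)] at h3
          rw [if_pos]
          rw [← h2, h3]
          abel
        · rw [if_neg h3]
          exact ite_nonneg' _
      · rw [if_neg h2, zero_mul, mul_zero]
    refine le_trans (EX_mono (H.krn i) _ h1) ?_
    exact EX_hit2 (H.krn i) (H.pr i t (by omega)) ht (H.kt_le i) hB
      (Dep.const _ (b.2.1 - P.ofs i t - a.2.1)) (Dep.const _ a.2.1)

theorem ind_mul_le {p : Prop} {v w : ℝ} (hw : 0 ≤ w) (h : p → v ≤ w) : ind p * v ≤ w := by
  by_cases hp : p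
  · rw [ind_pos hp, one_mul]
    exact h hp
  · rw [ind_neg hp, zero_mul]
    exact hw

/-- two different labels or colours in one piece -/
theorem Hyp.pair_le (H : Hyp S Q P K β κ₂ θ) {a b : LC S Q} (hab : a ≠ b) :
    ∃ r : ZMod n, ∀ i, ∀ t < P.T i, ∀ s < P.T i,
      ind (cmp P i t a ∧ cmp P i s b) * EX (kt S Q P i) (P.T i)
        (fun y => (if y t = tg P i t y a then 1 else 0) *
          (if y s = tg P i s y b then 1 else 0)) ≤
      BB n β κ₂ * BB n β κ₂ + (if t = 0 ∧ s = 0 then
        ind ((P.att i).map Prod.fst = some r) else 0) * ((1 / β ^ 2) / n) := by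
  have hB := H.BB_nonneg
  have hb0 := H.b0
  have hBB : 0 ≤ BB n β κ₂ * BB n β κ₂ := mul_nonneg hB hB
  have hn := nR_pos (n := n)
  have hR : ∀ (r : ZMod n) (i : I) (t s : ℕ), 0 ≤ (if t = 0 ∧ s = 0 then
        ind ((P.att i).map Prod.fst = some r) else 0) * ((1 / β ^ 2) / (n : ℝ)) := by
    intro r i t s
    refine mul_nonneg ?_ (by positivity)
    split_ifs
    · exact ind_nonneg _
    · exact le_rfl
  -- different steps
  have hne : ∀ i, ∀ t < P.T i, ∀ s < P.T i, t ≠ s → EX (kt S Q P i) (P.T i)
        (fun y => (if y t = tg P i t y a then 1 else 0) *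
          (if y s = tg P i s y b then 1 else 0)) ≤ BB n β κ₂ * BB n β κ₂ := by
    intro i t ht s hs hts
    rcases Nat.lt_or_gt_of_ne hts with h | h
    · exact EX_hit2 (H.krn i) h hs (H.kt_le i) hB (H.tg_dep a i t) (H.tg_dep b i s)
    · have h1 := EX_hit2 (H.krn i) h ht (H.kt_le i) hB (H.tg_dep b i s) (H.tg_dep a i t)
      refine le_trans (le_of_eq ?_) h1
      congr 1
      funext y
      ring
  have hzero : ∀ i t, (∀ y : ℕ → ZMod n, (if y t = tg P i t y a then (1 : ℝ) else 0) *
          (if y t = tg P i t y b then 1 else 0) = 0) →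
      EX (kt S Q P i) (P.T i) (fun y => (if y t = tg P i t y a then 1 else 0) *
          (if y t = tg P i t y b then 1 else 0)) ≤ BB n β κ₂ * BB n β κ₂ := by
    intro i t h
    simp only [h]
    rw [EX_zero]
    exact hBB
  rcases a with a | a
  · rcases b with b | b
    · refine ⟨0, fun i t ht s hs => ?_⟩
      refine ind_mul_le (add_nonneg hBB (hR _ _ _ _)) fun hc => ?_
      refine le_trans ?_ (le_add_of_nonneg_right (hR _ _ _ _))
      by_cases hts : t = s
      · subst hts
        refine hzero i t fun y => ?_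
        obtain ⟨h1, h2⟩ := hc
        obtain ⟨φ, x⟩ := a
        obtain ⟨φ', x'⟩ := b
        have h3 : φ = φ' := by
          have h1' : P.ph i t = φ := h1
          have h2' : P.ph i t = φ' := h2
          rw [← h1', ← h2']
        subst h3
        have h4 : x.1 ≠ x'.1 := fun h => hab (by rw [Subtype.ext h])
        change (if y t = x.1 then (1 : ℝ) else 0) * (if y t = x'.1 then 1 else 0) = 0
        by_cases h5 : y t = x.1
        · rw [if_neg (show ¬ y t = x'.1 from fun h => h4 (by rw [← h5, h])), mul_zero]
        · rw [if_neg h5, zero_mul]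
      · exact hne i t ht s hs hts
    · refine ⟨b.2.1 - a.2.1, fun i t ht s hs => ?_⟩
      refine ind_mul_le (add_nonneg hBB (hR _ _ _ _)) fun hc => ?_
      by_cases hts : t = s
      · subst hts
        have h1 := H.pair_lc i a b ht hc.2
        simp only [and_self]
        exact h1
      · exact le_trans (hne i t ht s hs hts) (le_add_of_nonneg_right (hR _ _ _ _))
  · rcases b with b | b
    · refine ⟨a.2.1 - b.2.1, fun i t ht s hs => ?_⟩
      refine ind_mul_le (add_nonneg hBB (hR _ _ _ _)) fun hc => ?_
      by_cases hts : t = s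
      · subst hts
        have h1 := H.pair_lc i b a ht hc.1
        simp only [and_self]
        refine le_trans (le_of_eq ?_) h1
        congr 1
        funext y
        exact mul_comm _ _
      · exact le_trans (hne i t ht s hs hts) (le_add_of_nonneg_right (hR _ _ _ _))
    · refine ⟨0, fun i t ht s hs => ?_⟩
      refine ind_mul_le (add_nonneg hBB (hR _ _ _ _)) fun hc => ?_
      refine le_trans ?_ (le_add_of_nonneg_right (hR _ _ _ _))
      by_cases hts : t = s
      · subst hts
        refine hzero i t fun y => ?_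
        obtain ⟨h1, h2⟩ := hc
        obtain ⟨φ, x⟩ := a
        obtain ⟨φ', x'⟩ := b
        have h3 : φ = φ' := by
          have h1' : P.cc i t = some φ := h1
          have h2' : P.cc i t = some φ' := h2
          rw [h1'] at h2'
          exact Option.some.inj h2'
        subst h3
        have h4 : x.1 ≠ x'.1 := fun h => hab (by rw [Subtype.ext h])
        change (if y t = x.1 - P.base i t y then (1 : ℝ) else 0) *
          (if y t = x'.1 - P.base i t y then 1 else 0) = 0
        by_cases h5 : y t = x.1 - P.base i t y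
        · rw [if_neg (show ¬ y t = x'.1 - P.base i t y from fun h =>
            h4 (by rw [h5] at h; exact sub_left_inj.1 h)), mul_zero]
        · rw [if_neg h5, zero_mul]
      · exact hne i t ht s hs hts

/-- coweight of two labels or colours -/
theorem Hyp.cw_lc (H : Hyp S Q P K β κ₂ θ) {κ : ℝ}
    (hmul : ∀ r : ZMod n, ((univ.filter fun i => (P.att i).map Prod.fst = some r).card : ℝ) ≤
      κ * n) {a b : LC S Q} (hab : a ≠ b) :
    cw (vv S Q P) (ww S Q P) (Sum.inr a) (Sum.inr b) ≤
      Fintype.card I * ((K : ℝ) ^ 2 * (BB n β κ₂ * BB n β κ₂)) + κ * (1 / β ^ 2) := by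
  have hB := H.BB_nonneg
  have hb0 := H.b0
  have hn := nR_pos (n := n)
  obtain ⟨r, hr⟩ := H.pair_le hab
  rw [cw_eq P H.krn]
  have h1 : ∀ i, EX (kt S Q P i) (P.T i) (fun y => ind (SepIn P i y) *
      (ind (Inc P i y (Sum.inr a)) * ind (Inc P i y (Sum.inr b)))) ≤
      (K : ℝ) ^ 2 * (BB n β κ₂ * BB n β κ₂) +
        ind ((P.att i).map Prod.fst = some r) * ((1 / β ^ 2) / n) := by
    intro i
    have h2 : ∀ y, ind (SepIn P i y) *
        (ind (Inc P i y (Sum.inr a)) * ind (Inc P i y (Sum.inr b))) ≤
        ∑ t ∈ range (P.T i), ∑ s ∈ range (P.T i), ind (cmp P i t a ∧ cmp P i s b) *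
          ((if y t = tg P i t y a then 1 else 0) * (if y s = tg P i s y b then 1 else 0)) := by
      intro y
      have h3 := mul_le_mul (ind_Inc_le P i y a) (ind_Inc_le P i y b) (ind_nonneg _)
        (Finset.sum_nonneg fun t _ => mul_nonneg (ind_nonneg _) (ite_nonneg' _))
      have h4 := mul_le_mul_of_nonneg_right (ind_le_one (SepIn P i y))
        (mul_nonneg (ind_nonneg (Inc P i y (Sum.inr a))) (ind_nonneg (Inc P i y (Sum.inr b))))
      rw [one_mul] at h4
      refine le_trans h4 (le_trans h3 (le_of_eq ?_))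
      rw [Finset.sum_mul_sum]
      refine Finset.sum_congr rfl fun t _ => Finset.sum_congr rfl fun s _ => ?_
      have h5 : ind (cmp P i t a ∧ cmp P i s b) = ind (cmp P i t a) * ind (cmp P i s b) := by
        by_cases h6 : cmp P i t a
        · by_cases h7 : cmp P i s b
          · rw [ind_pos ⟨h6, h7⟩, ind_pos h6, ind_pos h7, one_mul]
          · rw [ind_neg (fun h => h7 h.2), ind_neg h7, mul_zero]
        · rw [ind_neg (fun h => h6 h.1), ind_neg h6, zero_mul]
      rw [h5]
      ring
    refine le_trans (EX_mono (H.krn i) _ h2) ?_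
    simp only [EX_sum, EX_smul]
    have h3 : ∀ t ∈ range (P.T i), ∑ s ∈ range (P.T i), ind (cmp P i t a ∧ cmp P i s b) *
        EX (kt S Q P i) (P.T i) (fun y => (if y t = tg P i t y a then 1 else 0) *
          (if y s = tg P i s y b then 1 else 0)) ≤
        K * (BB n β κ₂ * BB n β κ₂) + (if t = 0 then
          ind ((P.att i).map Prod.fst = some r) else 0) * ((1 / β ^ 2) / n) := by
      intro t ht
      refine le_trans (Finset.sum_le_sum fun s hs => hr i t (Finset.mem_range.1 ht) s
        (Finset.mem_range.1 hs)) ?_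
      rw [Finset.sum_add_distrib]
      refine add_le_add ?_ ?_
      · rw [Finset.sum_const, Finset.card_range, nsmul_eq_mul]
        refine mul_le_mul_of_nonneg_right ?_ (mul_nonneg hB hB)
        exact_mod_cast H.TK i
      · rw [← Finset.sum_mul]
        refine mul_le_mul_of_nonneg_right ?_ (by positivity)
        by_cases h0 : t = 0
        · simp only [h0, true_and, if_true]
          rw [Finset.sum_ite_eq']
          split_ifs
          · exact le_rfl
          · exact ind_nonneg _
        · simp [h0]
    refine le_trans (Finset.sum_le_sum h3) ?_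
    rw [Finset.sum_add_distrib]
    refine add_le_add ?_ ?_
    · rw [Finset.sum_const, Finset.card_range, nsmul_eq_mul, sq, mul_assoc]
      refine mul_le_mul_of_nonneg_right ?_ (by positivity)
      exact_mod_cast H.TK i
    · rw [← Finset.sum_mul]
      refine mul_le_mul_of_nonneg_right ?_ (by positivity)
      rw [Finset.sum_ite_eq']
      split_ifs
      · exact le_rfl
      · exact ind_nonneg _
  refine le_trans (Finset.sum_le_sum fun i _ => h1 i) ?_
  rw [Finset.sum_add_distrib]
  refine add_le_add (le_of_eq ?_) ?_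
  · rw [Finset.sum_const, Finset.card_univ, nsmul_eq_mul]
  · rw [← Finset.sum_mul, sum_ind_filter]
    refine le_trans (mul_le_mul_of_nonneg_right (hmul r) (by positivity)) (le_of_eq ?_)
    field_simp

/-- coweight of a piece and a label or colour -/
theorem Hyp.cw_piece (H : Hyp S Q P K β κ₂ θ) (j : I) (b : LC S Q) :
    cw (vv S Q P) (ww S Q P) (Sum.inl j) (Sum.inr b) ≤ K * BB n β κ₂ := by
  have hB := H.BB_nonneg
  rw [cw_eq P H.krn]
  have h1 : ∀ i, EX (kt S Q P i) (P.T i) (fun y => ind (SepIn P i y) *
      (ind (Inc (S := S) (Q := Q) P i y (Sum.inl j)) * ind (Inc P i y (Sum.inr b)))) ≤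
      if i = j then K * BB n β κ₂ else 0 := by
    intro i
    by_cases h : i = j
    · rw [if_pos h]
      have h2 : ∀ y, ind (SepIn P i y) *
          (ind (Inc (S := S) (Q := Q) P i y (Sum.inl j)) * ind (Inc P i y (Sum.inr b))) ≤
          ∑ t ∈ range (P.T i), (if y t = tg P i t y b then 1 else 0) := by
        intro y
        have h3 := mul_le_mul_of_nonneg_right (ind_le_one (SepIn P i y))
          (mul_nonneg (ind_nonneg (Inc (S := S) (Q := Q) P i y (Sum.inl j)))
            (ind_nonneg (Inc P i y (Sum.inr b))))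
        have h4 := mul_le_mul_of_nonneg_right
          (ind_le_one (Inc (S := S) (Q := Q) P i y (Sum.inl j)))
          (ind_nonneg (Inc P i y (Sum.inr b)))
        have h5 := ind_Inc_le P i y b
        have h6 : ∑ t ∈ range (P.T i), ind (cmp P i t b) *
            (if y t = tg P i t y b then (1 : ℝ) else 0) ≤
            ∑ t ∈ range (P.T i), (if y t = tg P i t y b then 1 else 0) := by
          refine Finset.sum_le_sum fun t _ => ?_
          have := mul_le_mul_of_nonneg_right (ind_le_one (cmp P i t b))
            (ite_nonneg' (y t = tg P i t y b))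
          linarith
        linarith
      refine le_trans (EX_mono (H.krn i) _ h2) ?_
      rw [EX_sum]
      refine le_trans (Finset.sum_le_sum fun t ht => H.hit_le i b (Finset.mem_range.1 ht)) ?_
      rw [Finset.sum_const, Finset.card_range, nsmul_eq_mul]
      refine mul_le_mul_of_nonneg_right ?_ hB
      exact_mod_cast H.TK i
    · rw [if_neg h]
      have h2 : (fun y => ind (SepIn P i y) *
          (ind (Inc (S := S) (Q := Q) P i y (Sum.inl j)) * ind (Inc P i y (Sum.inr b)))) =
          fun _ => 0 := by
        funext y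
        rw [ind_neg (show ¬ Inc (S := S) (Q := Q) P i y (Sum.inl j) from h)]
        ring
      rw [h2, EX_zero]
  refine le_trans (Finset.sum_le_sum fun i _ => h1 i) ?_
  simp

theorem Hyp.cw_pieces (H : Hyp S Q P K β κ₂ θ) {j j' : I} (h : j ≠ j') :
    cw (vv S Q P) (ww S Q P) (Sum.inl j) (Sum.inl j') = 0 := by
  rw [cw_eq P H.krn]
  refine Finset.sum_eq_zero fun i _ => ?_
  have h2 : (fun y => ind (SepIn P i y) * (ind (Inc (S := S) (Q := Q) P i y (Sum.inl j)) *
      ind (Inc (S := S) (Q := Q) P i y (Sum.inl j')))) = fun _ => 0 := by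
    funext y
    by_cases h3 : i = j
    · rw [ind_neg (show ¬ Inc (S := S) (Q := Q) P i y (Sum.inl j') from
        fun h4 => h (by rw [← h3]; exact h4))]
      ring
    · rw [ind_neg (show ¬ Inc (S := S) (Q := Q) P i y (Sum.inl j) from h3)]
      ring
  rw [h2, EX_zero]

theorem cw_comm {V E : Type} [Fintype V] [DecidableEq V] [Fintype E] [DecidableEq E]
    (vs : E → Finset V) (w : E → ℝ) (u v : V) : cw vs w u v = cw vs w v u := by
  unfold cw
  simp only [and_comm]

/-- all coweights -/
theorem Hyp.cw_le (H : Hyp S Q P K β κ₂ θ) {κ : ℝ} (hκ : 0 ≤ κ)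
    (hmul : ∀ r : ZMod n, ((univ.filter fun i => (P.att i).map Prod.fst = some r).card : ℝ) ≤
      κ * n) (u v : Tok S Q I) (huv : u ≠ v) :
    cw (vv S Q P) (ww S Q P) u v ≤
      Fintype.card I * ((K : ℝ) ^ 2 * (BB n β κ₂ * BB n β κ₂)) + κ * (1 / β ^ 2) +
        K * BB n β κ₂ := by
  have hB := H.BB_nonneg
  have hb0 := H.b0
  have h1 : 0 ≤ Fintype.card I * ((K : ℝ) ^ 2 * (BB n β κ₂ * BB n β κ₂)) := by positivity
  have h2 : 0 ≤ κ * (1 / β ^ 2) := by positivity
  have h3 : 0 ≤ K * BB n β κ₂ := by positivity
  rcases u with j | a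
  · rcases v with j' | b
    · rw [H.cw_pieces (fun h => huv (by rw [h]))]
      linarith
    · have := H.cw_piece j b
      linarith
  · rcases v with j | b
    · rw [cw_comm]
      have := H.cw_piece j a
      linarith
    · have := H.cw_lc hmul (fun h => huv (by rw [h]) : a ≠ b)
      linarith

end Pool.Agent.Lib.MP_c5b475_co.KN
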