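import Pool.Agent.Lib.MP_c5b475_co.KN.PcB

set_option autoImplicit false

namespace Pool.Agent.Lib.MP_c5b475_co.KN

open Finset

namespace RTr

variable {W : Type} [Fintype W] [DecidableEq W]

open Classical in
/-- **Cut lemma.** -/
theorem cut (t : RTr W) (R K0 : ℕ) (hR : 2 ≤ R) (hK0 : 2 ≤ K0) (hN : K0 ≤ Fintype.card W)
    (dm : W → Prop) (hdm : ∀ w, w ≠ t.root → dm w → ¬ dm (t.par w)) (Z0 : Finset W)
    (hZ0 : ∀ z ∈ Z0, K0 ≤ t.sz z) :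
    ∃ Z D : Finset W, Disjoint Z D ∧ t.root ∈ Z ∧ Z0 ⊆ Z ∧ (∀ z ∈ Z, K0 ≤ t.sz z) ∧
      K0 * Z.card ≤ 2 * R * (K0 * (1 + Z0.card) + 2 * Fintype.card W) ∧
      R * D.card ≤ 2 * Fintype.card W ∧
      (∀ w, w ∉ Z → w ∉ D → ∀ c ∈ t.ch w, c ∉ Z) ∧
      (∀ d ∈ D, ((t.ch d).filter fun c => c ∉ D).card ≤ 1) ∧
      (∀ d ∈ D, dm d → t.ch d ⊆ D) ∧
      (∀ d ∈ D, t.par d ∉ D → K0 ≤ t.sz d) ∧
      ∀ c, (univ.filter fun w => t.Pc (Z ∪ D) w c).card ≤ 2 * R * K0 := by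
  obtain ⟨j, hj, hD⟩ := t.exists_res (K0 := K0) (dm := dm) (Z0 := Z0) (R := R) (by omega)
  refine ⟨t.ZZ K0 R dm Z0 j, t.DD K0 R dm Z0 j, t.zz_disj hN hZ0, ?_, ?_, t.zz_heavy hN hZ0,
    ?_, hD, fun w h1 h2 => t.zz_child hR hj hN hZ0 h1 h2, fun d hd => ?_,
    fun d hd h => t.dd_dm hN hdm hd h, fun d hd h => t.dd_par hN hd h, fun c => ?_⟩
  · exact t.z1_sub_zz (by omega) (by simp [Z1])
  · exact fun z hz => t.z1_sub_zz (by omega) (by simp [Z1, hz])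
  · have h1 := t.z1_card (Z0 := Z0) hN
    have h2 := t.zz_card (K0 := K0) (R := R) (dm := dm) (Z0 := Z0) (j := j)
    calc K0 * (t.ZZ K0 R dm Z0 j).card ≤ K0 * (2 * R * (t.Z1 K0 Z0).card) :=
          Nat.mul_le_mul_left _ h2
      _ = 2 * R * (K0 * (t.Z1 K0 Z0).card) := by ring
      _ ≤ _ := Nat.mul_le_mul_left _ h1
  · convert t.dd_child hN hd
  · exact t.pc_bound hR (by omega) hj hN hZ0 c

end RTr

end Pool.Agent.Lib.MP_c5b475_co.KN
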