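import Pool.Agent.Lib.MP_c5b475_co.KN.CvD
import Pool.Agent.Lib.MP_c5b475_co.Few.BF

/-!
# KN/CvB: block frame theorem for hosts divided into coverings of `K_{μ,μ}`
-/

set_option autoImplicit false

namespace Pool.Agent.Lib.MP_c5b475_co

open Finset

/-- **One part.** Copies of `T` rooted at the vertices of the side `true` of the part `Q`. -/
theorem RT.cvb_part {U : Type*} [Fintype U] [DecidableEq U] {T : SimpleGraph U} (R : RT T)
    (I : Finset U) {m : ℕ} [NeZero m] (lab : U → ZMod m) (hc : R.c ∈ I)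
    (hpar : ∀ u ∈ I, u ≠ R.c → R.par u ∈ I)
    (hout : ∀ u, u ∉ I → R.par u ∈ I ∧ (R.dep u : ZMod 2) = 1)
    (linj : ∀ u ∈ I, ∀ v ∈ I, (R.dep u : ZMod 2) = R.dep v → lab u = lab v → u = v)
    (lty : ∀ u ∈ I, ∀ v ∈ I, u ≠ R.c → v ≠ R.c →
      lab u + lab (R.par u) = lab v + lab (R.par v) → u = v)
    (hcard : I.card = m + 1)
    {V : Type*} [Fintype V] [DecidableEq V] (G : SimpleGraph V) [DecidableRel G.Adj]
    (hd : ∀ v, G.degree v + 1 = Fintype.card U) (s : V → Bool)
    (hs : ∀ u v, G.Adj u v → s v = !(s u)) (Q : V → Prop) [DecidablePred Q]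
    (lb : V → ZMod m) (M : ZMod m → V → V) (m1 : ∀ t v, Q v → G.Adj v (M t v))
    (m2 : ∀ t v, Q v → Q (M t v)) (m3 : ∀ t v, M t (M t v) = v)
    (m4 : ∀ t v, Q v → lb (M t v) = t - lb v)
    (m5 : ∀ t v w, Q v → G.Adj v w → Q w → lb v + lb w = t → w = M t v) :
    ∃ f : {v : V // s v = true ∧ Q v} → (U ↪ V), (∀ i, T.map (f i) ≤ G) ∧
      (∀ x y, s x = true → Q x → G.Adj x y → ∃! i, s(x, y) ∈ (T.map (f i)).edgeSet) ∧
      ∀ i, ∀ e ∈ (T.map (f i)).edgeSet, ∃ x, (s x = true ∧ Q x) ∧ x ∈ e := by
  classical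
  have hne : ∀ u : U, u ∉ I → u ≠ R.c := fun u hu h => hu (h ▸ hc)
  have h01 : ∀ a : ZMod 2, a ≠ 0 → a = 1 := by decide
  have hdp : ∀ u, u ≠ R.c → ((R.dep u : ZMod 2) = 0 ↔ ¬ (R.dep (R.par u) : ZMod 2) = 0) := by
    intro u hu
    have h1 : (R.dep u : ZMod 2) = R.dep (R.par u) + 1 := by
      rw [← R.dep_par u hu]
      push_cast
      ring
    rw [h1]
    generalize (R.dep (R.par u) : ZMod 2) = x
    revert x
    decide
  have hdI : ∀ u, u ∉ I → ¬ (R.dep u : ZMod 2) = 0 := by
    intro u hu h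
    rw [(hout u hu).2] at h
    exact absurd h (by decide)
  -- the walks
  let mm : {u : U // u ≠ R.c} → V → V := fun u v =>
    if u.1 ∈ I then M (lab u.1 + lab (R.par u.1)) v else v
  have hmI : ∀ (u : {u : U // u ≠ R.c}) (v : V), u.1 ∈ I →
      mm u v = M (lab u.1 + lab (R.par u.1)) v := fun u v h => by
    simp only [mm, if_pos h]
  have hmm : ∀ i v, mm i (mm i v) = v := by
    intro i v
    by_cases h : i.1 ∈ I
    · rw [hmI _ _ h, hmI _ _ h, m3]
    · simp only [mm, if_neg h]
  have hpinj := R.phi_inj mm hmm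
  -- properties of the walks
  have hphi : ∀ v, s v = true → Q v → ∀ u ∈ I, s (R.phi mm v u) =
      (if (R.dep u : ZMod 2) = 0 then true else false) ∧ Q (R.phi mm v u) ∧
      lb (R.phi mm v u) = if (R.dep u : ZMod 2) = 0 then lab u + (lb v - lab R.c) else
        lab u - (lb v - lab R.c) := by
    intro v hv0 hvQ
    refine R.ind (P := fun u => u ∈ I → s (R.phi mm v u) =
      (if (R.dep u : ZMod 2) = 0 then true else false) ∧ Q (R.phi mm v u) ∧
      lb (R.phi mm v u) = if (R.dep u : ZMod 2) = 0 then lab u + (lb v - lab R.c) else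
        lab u - (lb v - lab R.c)) ?_ ?_
    · intro _
      rw [R.phi_c, R.dep_c]
      simp [hv0, hvQ]
    · intro u hu ih huI
      obtain ⟨i1, i2, i3⟩ := ih (hpar u huI hu)
      have g1 := m1 (lab u + lab (R.par u)) _ i2
      have g2 := m2 (lab u + lab (R.par u)) _ i2
      have g3 := m4 (lab u + lab (R.par u)) _ i2
      have g4 := hdp u hu
      rw [R.phi_ne mm v hu, hmI _ _ huI]
      show s (M (lab u + lab (R.par u)) (R.phi mm v (R.par u))) = _ ∧
        Q (M (lab u + lab (R.par u)) (R.phi mm v (R.par u))) ∧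
        lb (M (lab u + lab (R.par u)) (R.phi mm v (R.par u))) = _
      rw [hs _ _ g1, g3, i1, i3]
      by_cases h0 : (R.dep u : ZMod 2) = 0
      · have h1 := g4.mp h0
        simp only [if_pos h0, if_neg h1]
        refine ⟨rfl, g2, ?_⟩
        ring
      · have h1 : (R.dep (R.par u) : ZMod 2) = 0 := by
          by_contra h1
          exact h0 (g4.mpr h1)
        simp only [if_neg h0, if_pos h1]
        refine ⟨rfl, g2, ?_⟩
        ring
  have hphis : ∀ v, s v = true → Q v → ∀ u ∈ I, (R.dep u : ZMod 2) = 0 →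
      s (R.phi mm v u) = true := by
    intro v h1 h2 u h3 h4
    rw [(hphi v h1 h2 u h3).1, if_pos h4]
  -- the walks reach every vertex
  let L := {v : V // s v = true ∧ Q v}
  have hsurj : ∀ u ∈ I, (R.dep u : ZMod 2) = 0 → ∀ x : L, ∃ v : L, R.phi mm v.1 u = x.1 := by
    intro u hu h0 x
    have h1 : Function.Injective (fun v : L => (⟨R.phi mm v.1 u,
        hphis v.1 v.2.1 v.2.2 u hu h0, (hphi v.1 v.2.1 v.2.2 u hu).2.1⟩ : L)) := by
      intro v w hvw
      apply Subtype.ext
      exact hpinj u (congrArg Subtype.val hvw)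
    obtain ⟨v, hv⟩ := (Finite.injective_iff_surjective.1 h1) x
    exact ⟨v, congrArg Subtype.val hv⟩
  -- the outer vertices
  let W := {u : U // u ∉ I}
  have hWp : ∀ w : W, R.par w.1 ∈ I ∧ (R.dep (R.par w.1) : ZMod 2) = 0 := by
    intro w
    refine ⟨(hout w.1 w.2).1, ?_⟩
    by_contra h
    exact hdI w.1 w.2 ((hdp w.1 (hne w.1 w.2)).mpr h)
  have hWcard : Fintype.card W + (m + 1) = Fintype.card U := by
    rw [← hcard, Fintype.card_subtype_compl, Fintype.card_coe]
    have := card_le_univ I
    omega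
  -- lists
  let S : V → Finset V := fun x => G.neighborFinset x \ univ.image (fun t => M t x)
  have hSm : ∀ x, Q x → ∀ z, z ∈ S x ↔ G.Adj x z ∧ ¬ Q z := by
    intro x hx z
    simp only [S, mem_sdiff, SimpleGraph.mem_neighborFinset, mem_image, mem_univ, true_and,
      not_exists]
    refine and_congr_right fun h => ?_
    constructor
    · intro h1 h2
      exact h1 (lb x + lb z) (m5 _ x z hx h h2 rfl).symm
    · intro h1 t h2
      exact h1 (h2 ▸ m2 t x hx)
  have hScard : ∀ x, Q x → (S x).card = Fintype.card W := by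
    intro x hx
    have h1 : univ.image (fun t => M t x) ⊆ G.neighborFinset x := by
      intro v hv
      rw [mem_image] at hv
      obtain ⟨z, _, rfl⟩ := hv
      rw [SimpleGraph.mem_neighborFinset]
      exact m1 _ _ hx
    have h2 : (univ.image (fun t => M t x)).card = m := by
      rw [card_image_of_injective, card_univ, ZMod.card]
      intro t t' htt
      have e1 := m4 t x hx
      have htt' : M t x = M t' x := htt
      rw [htt', m4 t' x hx] at e1
      exact (sub_left_injective e1).symm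
    have h3 := hd x
    rw [card_sdiff_of_subset h1, h2, SimpleGraph.card_neighborFinset_eq_degree]
    omega
  have hphiQ : ∀ (v : L) (w : W), Q (R.phi mm v.1 (R.par w.1)) := fun v w =>
    (hphi v.1 v.2.1 v.2.2 _ (hWp w).1).2.1
  obtain ⟨y, hy1, hy2⟩ := galvin (E := L × W) (fun e => e.1)
    (fun e => R.phi mm e.1.1 (R.par e.2.1)) (fun e => (Fintype.equivFin W e.2).val)
    (by
      rintro ⟨i, w⟩ ⟨i', w'⟩ h1 h2
      have h3 : w = w' := (Fintype.equivFin W).injective (Fin.ext h2)
      have h4 : i = i' := h1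
      rw [h3, h4])
    (by
      rintro ⟨i, w⟩ ⟨i', w'⟩ h1 h2
      have h3 : w = w' := (Fintype.equivFin W).injective (Fin.ext h2)
      subst h3
      have h4 : i = i' := Subtype.ext (hpinj _ h1)
      rw [h4])
    (D := Fintype.card W) (fun e => (Fintype.equivFin W e.2).isLt)
    (fun e => S (R.phi mm e.1.1 (R.par e.2.1))) (fun e => (hScard _ (hphiQ e.1 e.2)).ge)
  have hyadj : ∀ i w, G.Adj (R.phi mm i.1 (R.par w.1)) (y (i, w)) := fun i w =>
    ((hSm _ (hphiQ i w) _).1 (hy1 (i, w))).1
  have hyQ : ∀ e, ¬ Q (y e) := by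
    rintro ⟨i, w⟩
    exact ((hSm _ (hphiQ i w) _).1 (hy1 (i, w))).2
  have hys : ∀ e, s (y e) = false := by
    rintro ⟨i, w⟩
    rw [hs _ _ (hyadj i w), hphis i.1 i.2.1 i.2.2 _ (hWp w).1 (hWp w).2]
    rfl
  -- the copies
  let F : L → U → V := fun i u => if h : u ∈ I then R.phi mm i.1 u else y (i, ⟨u, h⟩)
  have hFI : ∀ i u, u ∈ I → F i u = R.phi mm i.1 u := by
    intro i u hu
    simp only [F, hu, dif_pos]
  have hFO : ∀ i u (h : u ∉ I), F i u = y (i, ⟨u, h⟩) := by
    intro i u h
    simp only [F, h, dif_neg, not_false_iff]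
  have hFQ : ∀ i u, Q (F i u) ↔ u ∈ I := by
    intro i u
    by_cases hu : u ∈ I
    · rw [hFI i u hu]
      exact ⟨fun _ => hu, fun _ => (hphi i.1 i.2.1 i.2.2 u hu).2.1⟩
    · rw [hFO i u hu]
      exact ⟨fun h => absurd h (hyQ _), fun h => absurd h hu⟩
  have hFs : ∀ i u, s (F i u) = if (R.dep u : ZMod 2) = 0 then true else false := by
    intro i u
    by_cases hu : u ∈ I
    · rw [hFI i u hu]
      exact (hphi i.1 i.2.1 i.2.2 u hu).1
    · rw [hFO i u hu, hys, if_neg (hdI u hu)]
  have hFinj : ∀ i, Function.Injective (F i) := by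
    intro i u v huv
    have hQ : u ∈ I ↔ v ∈ I := by rw [← hFQ i u, ← hFQ i v, huv]
    have hdd : (R.dep u : ZMod 2) = R.dep v := by
      have h1 := hFs i u
      rw [huv, hFs i v] at h1
      by_cases hu0 : (R.dep u : ZMod 2) = 0
      · by_cases hv0 : (R.dep v : ZMod 2) = 0
        · rw [hu0, hv0]
        · rw [if_pos hu0, if_neg hv0] at h1
          exact absurd h1 (by simp)
      · by_cases hv0 : (R.dep v : ZMod 2) = 0
        · rw [if_neg hu0, if_pos hv0] at h1
          exact absurd h1 (by simp)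
        · rw [h01 _ hu0, h01 _ hv0]
    by_cases hu : u ∈ I
    · have hv := hQ.1 hu
      rw [hFI i u hu, hFI i v hv] at huv
      have e1 := (hphi i.1 i.2.1 i.2.2 u hu).2.2
      have e2 := (hphi i.1 i.2.1 i.2.2 v hv).2.2
      rw [huv, e2] at e1
      refine linj u hu v hv hdd ?_
      by_cases hu0 : (R.dep u : ZMod 2) = 0
      · rw [if_pos hu0, if_pos (hdd ▸ hu0)] at e1
        exact (add_right_cancel e1).symm
      · rw [if_neg hu0, if_neg (fun h => hu0 (hdd.trans h))] at e1
        exact (sub_left_injective e1).symm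
    · have hv : v ∉ I := fun h => hu (hQ.2 h)
      rw [hFO i u hu, hFO i v hv] at huv
      by_contra hne'
      exact hy2 (i, ⟨u, hu⟩) (i, ⟨v, hv⟩)
        (fun h => hne' (congrArg Subtype.val (congrArg Prod.snd h))) (Or.inl rfl) huv
  let f : L → (U ↪ V) := fun i => ⟨F i, hFinj i⟩
  have hf : ∀ i u, f i u = F i u := fun i u => rfl
  -- even and odd end of an edge
  let ev : U → U := fun u => if (R.dep u : ZMod 2) = 0 then u else R.par u
  let od : U → U := fun u => if (R.dep u : ZMod 2) = 0 then R.par u else u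
  have hev : ∀ u, u ≠ R.c → ev u ∈ I ∧ (R.dep (ev u) : ZMod 2) = 0 := by
    intro u hu
    by_cases h0 : (R.dep u : ZMod 2) = 0
    · have huI : u ∈ I := by
        by_contra huI
        exact hdI u huI h0
      simp only [ev, if_pos h0]
      exact ⟨huI, h0⟩
    · have h1 : (R.dep (R.par u) : ZMod 2) = 0 := by
        by_contra h1
        exact h0 ((hdp u hu).mpr h1)
      simp only [ev, if_neg h0]
      refine ⟨?_, h1⟩
      by_cases huI : u ∈ I
      · exact hpar u huI hu
      · exact (hout u huI).1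
  have hod : ∀ u, u ≠ R.c → (R.dep (od u) : ZMod 2) ≠ 0 ∧ (u ∈ I ↔ od u ∈ I) := by
    intro u hu
    by_cases h0 : (R.dep u : ZMod 2) = 0
    · have huI : u ∈ I := by
        by_contra huI
        exact hdI u huI h0
      simp only [od, if_pos h0]
      exact ⟨(hdp u hu).mp h0, fun _ => hpar u huI hu, fun _ => huI⟩
    · have h1 : od u = u := if_neg h0
      rw [h1]
      exact ⟨h0, Iff.rfl⟩
  have hedge : ∀ i u, u ≠ R.c → s(F i u, F i (R.par u)) = s(F i (ev u), F i (od u)) := by
    intro i u hu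
    by_cases h0 : (R.dep u : ZMod 2) = 0
    · simp only [ev, od, if_pos h0]
    · simp only [ev, od, if_neg h0]
      exact Sym2.eq_swap
  -- the edges inside the part
  have hM : ∀ i u, u ≠ R.c → u ∈ I → F i (od u) = M (lab u + lab (R.par u)) (F i (ev u)) := by
    intro i u hu huI
    have hp := hpar u huI hu
    have h1 : F i u = M (lab u + lab (R.par u)) (F i (R.par u)) := by
      rw [hFI i u huI, hFI i _ hp, R.phi_ne mm i.1 hu, hmI _ _ huI]
    by_cases h0 : (R.dep u : ZMod 2) = 0
    · simp only [ev, od, if_pos h0]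
      rw [h1, m3]
    · simp only [ev, od, if_neg h0]
      exact h1
  have hadj : ∀ i u, u ≠ R.c → G.Adj (F i (ev u)) (F i (od u)) := by
    intro i u hu
    by_cases huI : u ∈ I
    · rw [hM i u hu huI]
      exact m1 _ _ ((hFQ i _).2 (hev u hu).1)
    · have h0 := hdI u huI
      simp only [ev, od, if_neg h0]
      rw [hFI i _ (hout u huI).1, hFO i u huI]
      exact hyadj i ⟨u, huI⟩
  refine ⟨f, ?_, ?_, ?_⟩
  · intro i a b hab
    have h1 : s(a, b) ∈ (T.map (f i)).edgeSet := hab
    rw [R.mem_map_edge] at h1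
    obtain ⟨⟨u, hu⟩, he⟩ := h1
    have h2 : s(a, b) ∈ G.edgeSet := by
      rw [he, hf, hf, hedge i u hu]
      exact hadj i u hu
    exact h2
  · intro x z hxs hxQ hxz
    have hzs : s z = false := by
      rw [hs x z hxz, hxs]
      rfl
    have hmem : ∀ i, s(x, z) ∈ (T.map (f i)).edgeSet ↔ ∃ u, u ≠ R.c ∧
        F i (ev u) = x ∧ F i (od u) = z := by
      intro i
      rw [R.mem_map_edge]
      constructor
      · rintro ⟨⟨u, hu⟩, he⟩
        rw [hf, hf, hedge i u hu, Sym2.eq_iff] at he
        rcases he with ⟨h3, h4⟩ | ⟨h3, h4⟩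
        · exact ⟨u, hu, h3.symm, h4.symm⟩
        · exfalso
          have h5 := hFs i (ev u)
          rw [← h4, hzs, if_pos (hev u hu).2] at h5
          exact absurd h5 (by simp)
      · rintro ⟨u, hu, h3, h4⟩
        refine ⟨⟨u, hu⟩, ?_⟩
        rw [hf, hf, hedge i u hu, h3, h4]
    by_cases hzQ : Q z
    · -- an edge of the part
      have hS : ∀ a : ZMod m, ∃ u ∈ I, u ≠ R.c ∧ lab u + lab (R.par u) = a := by
        intro a
        have h1 : ((I.erase R.c).image (fun u => lab u + lab (R.par u))) = univ := by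
          rw [← card_eq_iff_eq_univ, card_image_of_injOn, card_erase_of_mem hc, hcard, ZMod.card]
          · rfl
          · intro u hu v hv huv
            rw [mem_coe, mem_erase] at hu hv
            exact lty u hu.2 v hv.2 hu.1 hv.1 huv
        have h2 : a ∈ ((I.erase R.c).image (fun u => lab u + lab (R.par u))) := by
          rw [h1]; exact mem_univ a
        rw [mem_image] at h2
        obtain ⟨u, hu, h3⟩ := h2
        rw [mem_erase] at hu
        exact ⟨u, hu.2, hu.1, h3⟩
      obtain ⟨u, huI, hu, hut⟩ := hS (lb x + lb z)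
      obtain ⟨v, hv⟩ := hsurj (ev u) (hev u hu).1 (hev u hu).2 ⟨x, hxs, hxQ⟩
      have hv' : F v (ev u) = x := by
        rw [hFI v _ (hev u hu).1]
        exact hv
      refine ⟨v, (hmem v).2 ⟨u, hu, hv', ?_⟩, ?_⟩
      · rw [hM v u hu huI, hv', hut]
        exact (m5 _ x z hxQ hxz hzQ rfl).symm
      · intro w hw
        obtain ⟨u', hu', h3, h4⟩ := (hmem w).1 hw
        have huI' : u' ∈ I := by
          rw [(hod u' hu').2, ← hFQ w, h4]
          exact hzQ
        have h5 := hM w u' hu' huI'
        rw [h3, h4] at h5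
        have h6 := m4 (lab u' + lab (R.par u')) x hxQ
        rw [← h5] at h6
        have h7 : lab u' + lab (R.par u') = lab u + lab (R.par u) := by
          rw [hut, h6]
          ring
        have h8 := lty u' huI' u huI hu' hu h7
        subst h8
        apply Subtype.ext
        apply hpinj (ev u')
        show R.phi mm w.1 (ev u') = R.phi mm v.1 (ev u')
        rw [hv, ← hFI w _ (hev u' hu).1, h3]
    · -- an outer edge
      have hzS : z ∈ S x := (hSm x hxQ z).2 ⟨hxz, hzQ⟩
      have hstart : ∀ w : W, ∃ v : L, R.phi mm v.1 (R.par w.1) = x := fun w =>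
        hsurj _ (hWp w).1 (hWp w).2 ⟨x, hxs, hxQ⟩
      choose st hst using hstart
      have himg : (univ.image (fun w : W => y (st w, w))) = S x := by
        apply eq_of_subset_of_card_le
        · intro v hv
          rw [mem_image] at hv
          obtain ⟨w, _, rfl⟩ := hv
          have := hy1 (st w, w)
          simp only [hst] at this
          exact this
        · rw [hScard x hxQ, card_image_of_injective, card_univ]
          intro w w' h
          by_contra hne'
          refine hy2 (st w, w) (st w', w')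
            (fun h => hne' (congrArg Prod.snd h)) (Or.inr ?_) h
          show R.phi mm (st w).1 (R.par w.1) = R.phi mm (st w').1 (R.par w'.1)
          rw [hst, hst]
      rw [← himg, mem_image] at hzS
      obtain ⟨w, _, hw⟩ := hzS
      have hwc : w.1 ≠ R.c := hne w.1 w.2
      have hw0 : ¬ (R.dep w.1 : ZMod 2) = 0 := hdI w.1 w.2
      refine ⟨st w, (hmem _).mpr ⟨w.1, hwc, ?_, ?_⟩, ?_⟩
      · simp only [ev, if_neg hw0]
        rw [hFI _ _ (hWp w).1]
        exact hst w
      · simp only [od, if_neg hw0]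
        rw [hFO _ w.1 w.2]
        exact hw
      · intro i hi
        obtain ⟨u, hu, h3, h4⟩ := (hmem i).1 hi
        have huI : u ∉ I := by
          intro h
          apply hzQ
          rw [← h4, hFQ, ← (hod u hu).2]
          exact h
        have hu0 : ¬ (R.dep u : ZMod 2) = 0 := hdI u huI
        simp only [ev, if_neg hu0] at h3
        simp only [od, if_neg hu0] at h4
        rw [hFI _ _ (hout u huI).1] at h3
        rw [hFO _ _ huI] at h4
        by_contra hne'
        refine hy2 (i, ⟨u, huI⟩) (st w, w) (fun h => hne' (congrArg Prod.fst h)) (Or.inr ?_)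
          (h4.trans hw.symm)
        show R.phi mm i.1 (R.par u) = R.phi mm (st w).1 (R.par w.1)
        rw [h3, hst]
  · intro i e he
    rw [R.mem_map_edge] at he
    obtain ⟨⟨u, hu⟩, rfl⟩ := he
    refine ⟨F i (ev u), ⟨?_, (hFQ i _).2 (hev u hu).1⟩, ?_⟩
    · rw [hFs, if_pos (hev u hu).2]
    · rw [hf, hf, hedge i u hu]
      exact Sym2.mem_mk_left _ _

/-- Block frame theorem, parts which are coverings of `K_{μ,μ}`. -/
theorem block_cover {n : ℕ} {T : SimpleGraph (Fin (n + 1))} {V : Type} [Fintype V]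
    [DecidableEq V] (G : SimpleGraph V) [DecidableRel G.Adj] (hG : G.IsRegularOfDegree n)
    (hf : CoverBlocks G (fun μ => 1 ≤ μ ∧ ClosedMod T μ)) : Decomposes T G := by
  classical
  obtain ⟨B, μ, s, bk, lb, hP, hs', hlb, hex⟩ := hf
  obtain ⟨M, m1, m2, m3, m4, m5⟩ := CoverBlocks.matchings hlb hex
  have hnz : ∀ b, NeZero (μ b) := fun b => ⟨by have := (hP b).1; omega⟩
  have hs : ∀ u v, G.Adj u v → s v = !(s u) := by
    intro u v h
    have := hs' u v h
    revert this
    cases s u <;> cases s v <;> simp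
  have hpart : ∀ b, ∃ f : {v : V // s v = true ∧ bk v = b} → (Fin (n + 1) ↪ V),
      (∀ i, T.map (f i) ≤ G) ∧
      (∀ x y, s x = true → bk x = b → G.Adj x y → ∃! i, s(x, y) ∈ (T.map (f i)).edgeSet) ∧
      ∀ i, ∀ e ∈ (T.map (f i)).edgeSet, ∃ x, (s x = true ∧ bk x = b) ∧ x ∈ e := by
    intro b
    have := hnz b
    obtain ⟨R, I, lab, hc, hpar, hout, linj, lty, hcard⟩ := (hP b).2
    refine R.cvb_part I lab hc hpar hout linj lty hcard G
      (fun v => by rw [hG v, Fintype.card_fin]) s hs (fun v => bk v = b)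
      (fun v => (lb v : ZMod (μ b))) (fun t v => M t.val v) (fun t v _ => m1 _ v)
      (fun t v hv => (m2 _ v).trans hv) (fun t v => m3 _ v) ?_ ?_
    · intro t v hv
      have h := m4 t.val v
      subst hv
      rw [ZMod.natCast_zmod_val] at h
      exact h
    · intro t v w hv h1 h2 h3
      refine m5 t.val v w h1 (h2.trans hv.symm) ?_
      subst hv
      rw [ZMod.natCast_zmod_val]
      exact h3
  choose f hf1 hf2 hf3 using hpart
  refine ⟨(b : B) × {v : V // s v = true ∧ bk v = b}, fun p => f p.1 p.2,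
    fun p => hf1 p.1 p.2, ?_⟩
  have key : ∀ a z, s a = true → G.Adj a z →
      ∃! p : (b : B) × {v : V // s v = true ∧ bk v = b},
        s(a, z) ∈ (T.map (f p.1 p.2)).edgeSet := by
    intro a z ha haz
    obtain ⟨i, hi, hiu⟩ := hf2 (bk a) a z ha rfl haz
    refine ⟨⟨bk a, i⟩, hi, ?_⟩
    rintro ⟨b', i'⟩ hi'
    obtain ⟨x', ⟨hx1, hx2⟩, hx'⟩ := hf3 b' i' _ hi'
    rw [Sym2.mem_iff] at hx'
    rcases hx' with hx' | hx'
    · rw [hx'] at hx2
      subst hx2
      have := hiu i' hi'
      rw [this]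
    · rw [hx', hs a z haz, ha] at hx1
      exact absurd hx1 (by simp)
  intro d hd
  induction d using Sym2.ind with
  | _ a z =>
    have haz : G.Adj a z := hd
    by_cases ha : s a = true
    · exact key a z ha haz
    · have hz : s z = true := by
        rw [Bool.not_eq_true] at ha
        rw [hs a z haz, ha]
        rfl
      rw [Sym2.eq_swap]
      exact key z a hz haz.symm

end Pool.Agent.Lib.MP_c5b475_co
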