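import Pool.Agent.Lib.MP_c5b475_co.Few.DefsB

/-!
# KN/CvD: hosts divided into covering graphs of `K_{μ,μ}`
-/

set_option autoImplicit false

namespace Pool.Agent.Lib.MP_c5b475_co

/-- `G` is bipartite, and its vertices can be divided into parts (`bk`), a number `μ b` with `P (μ b)`
being given for each part, and labelled (`lb`, the labels of the part `b` are below `μ b`) so that
each vertex `x` has in its own part for each `j < μ` exactly one neighbour with label `j` (the parts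
induce covering graphs of `K_{μ,μ}`). -/
def CoverBlocks {V : Type} (G : SimpleGraph V) (P : ℕ → Prop) : Prop :=
  ∃ (B : Type) (μ : B → ℕ) (s : V → Bool) (bk : V → B) (lb : V → ℕ),
    (∀ b, P (μ b)) ∧ (∀ x y, G.Adj x y → s x ≠ s y) ∧ (∀ x, lb x < μ (bk x)) ∧
    ∀ x, ∀ j < μ (bk x), ∃! y, G.Adj x y ∧ bk y = bk x ∧ lb y = j

theorem CoverBlocks.mono {V : Type} {G : SimpleGraph V} {P Q : ℕ → Prop}
    (h : CoverBlocks G P) (hPQ : ∀ μ, P μ → Q μ) : CoverBlocks G Q := by
  obtain ⟨B, μ, s, bk, lb, h1, h2⟩ := h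
  exact ⟨B, μ, s, bk, lb, fun b => hPQ _ (h1 b), h2⟩

/-- The matchings of a host divided into coverings of `K_{μ,μ}`: `K t v` is the neighbour of `v` in
the part of `v` such that the label sum is `t` modulo `μ`. -/
theorem CoverBlocks.matchings {V B : Type} {G : SimpleGraph V} {μ : B → ℕ} {bk : V → B}
    {lb : V → ℕ} (hlb : ∀ x, lb x < μ (bk x))
    (h : ∀ x, ∀ j < μ (bk x), ∃! y, G.Adj x y ∧ bk y = bk x ∧ lb y = j) :
    ∃ K : ℕ → V → V, (∀ t v, G.Adj v (K t v)) ∧ (∀ t v, bk (K t v) = bk v) ∧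
      (∀ t v, K t (K t v) = v) ∧
      (∀ t v, ((lb (K t v) : ZMod (μ (bk v))) = (t : ZMod (μ (bk v))) - lb v)) ∧
      (∀ t v w, G.Adj v w → bk w = bk v →
        (lb v : ZMod (μ (bk v))) + lb w = (t : ZMod (μ (bk v))) → w = K t v) := by
  classical
  have hex : ∀ (t : ℕ) (v : V), ∃ y, (G.Adj v y ∧ bk y = bk v ∧
      (lb y : ZMod (μ (bk v))) = (t : ZMod (μ (bk v))) - lb v) ∧
      ∀ w, G.Adj v w → bk w = bk v →
        (lb v : ZMod (μ (bk v))) + lb w = (t : ZMod (μ (bk v))) → w = y := by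
    intro t v
    have hn : NeZero (μ (bk v)) := ⟨by have := hlb v; omega⟩
    obtain ⟨y, ⟨h1, h2, h3⟩, h4⟩ := h v ((t : ZMod (μ (bk v))) - lb v).val (ZMod.val_lt _)
    refine ⟨y, ⟨h1, h2, ?_⟩, ?_⟩
    · rw [h3, ZMod.natCast_zmod_val]
    · intro w g1 g2 g3
      refine h4 w ⟨g1, g2, ?_⟩
      have g4 : ((lb w : ℕ) : ZMod (μ (bk v))) = (t : ZMod (μ (bk v))) - lb v := by
        rw [← g3]
        ring
      rw [← g4, ZMod.val_natCast, Nat.mod_eq_of_lt]
      have := hlb w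
      rw [g2] at this
      exact this
  choose K hK hKu using hex
  refine ⟨K, fun t v => (hK t v).1, fun t v => (hK t v).2.1, ?_, fun t v => (hK t v).2.2, ?_⟩
  · intro t v
    obtain ⟨h1, h2, h3⟩ := hK t v
    refine (hKu t (K t v) v h1.symm h2.symm ?_).symm
    rw [h2, h3]
    ring
  · intro t v w h1 h2 h3
    exact hKu t v w h1 h2 h3

end Pool.Agent.Lib.MP_c5b475_co
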