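import Pool.Agent.Lib.MP_c5b475_co.KN.CvD
import Pool.Agent.Lib.MP_c5b475_co.Few.Frame

/-!
# KN/CvF: framed trees decompose hosts divided into coverings of `K_{μ,μ}`, `μ ≥ K`
-/

set_option autoImplicit false

namespace Pool.Agent.Lib.MP_c5b475_co

open Finset

section mixed

variable {V : Type*} [Fintype V] [DecidableEq V] {G : SimpleGraph V} {s : V → Bool}

/-- A 1-factorization in which prescribed indices get prescribed matchings. -/
theorem cvf_mixed {ι : Type*} [Fintype ι] [DecidableEq ι] (P : ι → Prop)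
    [DecidablePred P] (t : ι → ℕ) (K : ℕ) (htK : ∀ i, P i → t i < K)
    (htinj : ∀ i j, P i → P j → t i = t j → i = j) [DecidableRel G.Adj]
    (hd : ∀ v, G.degree v = Fintype.card ι)
    (hs : ∀ u v, G.Adj u v → s u ≠ s v) (M : ℕ → V → V)
    (hMadj : ∀ i, ∀ v, G.Adj v (M i v)) (hMM : ∀ i v, M i (M i v) = v)
    (hMinj : ∀ i < K, ∀ j < K, ∀ v, M i v = M j v → i = j) :
    ∃ m : ι → V → V, (∀ i v, G.Adj v (m i v)) ∧ (∀ i v, m i (m i v) = v) ∧
      (∀ u v, G.Adj u v → ∃! i, m i u = v) ∧ ∀ i, P i → m i = M (t i) := by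
  classical
  let G' : SimpleGraph V :=
    { Adj := fun u v => G.Adj u v ∧ ∀ i, P i → M (t i) u ≠ v
      symm := ⟨fun u v h => ⟨h.1.symm, fun i hi e => h.2 i hi (by rw [← e, hMM])⟩⟩
      loopless := ⟨fun v h => G.loopless.irrefl v h.1⟩ }
  have hG' : ∀ v, G'.degree v = Fintype.card {i : ι // ¬ P i} := by
    intro v
    have h5 : G'.neighborFinset v = G.neighborFinset v \
        (univ.filter P).image (fun i => M (t i) v) := by
      ext w
      simp only [SimpleGraph.mem_neighborFinset, mem_sdiff, mem_image, mem_filter, mem_univ,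
        true_and, not_exists, not_and]
      exact Iff.rfl
    have h6 : (univ.filter P).image (fun i => M (t i) v) ⊆ G.neighborFinset v := by
      intro w hw
      rw [mem_image] at hw
      obtain ⟨i, hi, rfl⟩ := hw
      rw [mem_filter] at hi
      rw [SimpleGraph.mem_neighborFinset]
      exact hMadj _ v
    have h7 : ((univ.filter P).image (fun i => M (t i) v)).card = (univ.filter P).card := by
      apply card_image_of_injOn
      intro i hi j hj h
      rw [mem_coe, mem_filter] at hi hj
      exact htinj i j hi.2 hj.2 (hMinj _ (htK i hi.2) _ (htK j hj.2) v h)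
    rw [← SimpleGraph.card_neighborFinset_eq_degree, h5, card_sdiff_of_subset h6, h7,
      SimpleGraph.card_neighborFinset_eq_degree, hd v, Fintype.card_subtype_compl,
      Fintype.card_subtype]
  obtain ⟨m', h1', h2', h3'⟩ := exists_factorization' s G' hG' (fun u v h => hs u v h.1)
  let m : ι → V → V := fun i => if h : P i then M (t i) else m' ⟨i, h⟩
  have hmin : ∀ i, P i → m i = M (t i) := fun i h => dif_pos h
  have hmout : ∀ (i : ι) (h : ¬ P i), m i = m' ⟨i, h⟩ := fun i h => dif_neg h
  refine ⟨m, ?_, ?_, ?_, hmin⟩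
  · intro i v
    by_cases h : P i
    · rw [hmin i h]
      exact hMadj _ v
    · rw [hmout i h]
      exact (h1' _ v).1
  · intro i v
    by_cases h : P i
    · rw [hmin i h]
      exact hMM _ v
    · rw [hmout i h]
      exact h2' _ v
  · intro u v huv
    by_cases h : ∃ j, P j ∧ M (t j) u = v
    · obtain ⟨j, hj, hjv⟩ := h
      refine ⟨j, ?_, ?_⟩
      · change m j u = v
        rw [hmin j hj]
        exact hjv
      · intro i hi
        have hi' : m i u = v := hi
        by_cases hiP : P i
        · rw [hmin i hiP] at hi'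
          exact htinj i j hiP hj (hMinj _ (htK i hiP) _ (htK j hj) u (hi'.trans hjv.symm))
        · rw [hmout i hiP] at hi'
          exact absurd (hjv.trans hi'.symm) ((h1' ⟨i, hiP⟩ u).2 j hj)
    · push Not at h
      have hG'uv : G'.Adj u v := ⟨huv, h⟩
      obtain ⟨i, hi, hu⟩ := h3' u v hG'uv
      refine ⟨i.1, ?_, ?_⟩
      · change m i.1 u = v
        rw [hmout i.1 i.2]
        exact hi
      · intro j hj
        have hj' : m j u = v := hj
        by_cases hjP : P j
        · rw [hmin j hjP] at hj'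
          exact absurd hj' (h j hjP)
        · rw [hmout j hjP] at hj'
          rw [← hu ⟨j, hjP⟩ hj']

end mixed

section frame

variable {U : Type*} [Fintype U] [DecidableEq U] {T : SimpleGraph U} (R : RT T)
  {V : Type*} [Fintype V] [DecidableEq V] {G : SimpleGraph V}

/-- **Frame theorem**, abstract host. -/
theorem RT.cvf_frame (I : Finset U) (lab : U → ℕ) (K : ℕ) (hc : R.c ∈ I)
    (hpar : ∀ u ∈ I, u ≠ R.c → R.par u ∈ I) (hout : ∀ u, u ∉ I → R.par u ∈ I)
    (linj : ∀ u ∈ I, ∀ v ∈ I, (R.dep u : ZMod 2) = R.dep v → lab u = lab v → u = v)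
    (llt : ∀ u ∈ I, ∀ v ∈ I, (R.dep u : ZMod 2) ≠ R.dep v → lab u + lab v < K)
    (lty : ∀ u ∈ I, ∀ v ∈ I, u ≠ R.c → v ≠ R.c →
      lab u + lab (R.par u) = lab v + lab (R.par v) → u = v)
    (hdis : Disjoint (R.forb I lab 0 \ R.types I lab) (R.forb I lab 1 \ R.types I lab))
    (h01 : (R.forb I lab 0 \ R.types I lab).card ≤ (R.out I 1).card)
    (h10 : (R.forb I lab 1 \ R.types I lab).card ≤ (R.out I 0).card)
    [DecidableRel G.Adj] (hd : ∀ v, G.degree v + 1 = Fintype.card U) (s : V → ZMod 2)
    (hs : ∀ u v, G.Adj u v → s v = s u + 1) {B : Type*} (μ : B → ℕ) (bk : V → B) (lb : V → ℕ)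
    (hK : ∀ b, K ≤ μ b) (M : ℕ → V → V) (hMadj : ∀ i v, G.Adj v (M i v))
    (hMb : ∀ i v, bk (M i v) = bk v) (hMM : ∀ i v, M i (M i v) = v)
    (hMl : ∀ t v, ((lb (M t v) : ZMod (μ (bk v))) = (t : ZMod (μ (bk v))) - lb v))
    (hMu : ∀ t v w, G.Adj v w → bk w = bk v →
      (lb v : ZMod (μ (bk v))) + lb w = (t : ZMod (μ (bk v))) → w = M t v) :
    ∃ f : {v : V // s v = 0} → (U ↪ V), (∀ i, T.map (f i) ≤ G) ∧
      ∀ e ∈ G.edgeSet, ∃! i, e ∈ (T.map (f i)).edgeSet := by
  classical
  have hne : ∀ u : U, u ∉ I → u ≠ R.c := fun u hu h => hu (h ▸ hc)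
  have hpne : ∀ u : U, u ≠ R.c → (R.dep u : ZMod 2) ≠ R.dep (R.par u) := by
    intro u hu
    rw [R.dep_cast hu]
    generalize (R.dep (R.par u) : ZMod 2) = x
    revert x
    decide
  obtain ⟨E0, t0, hE0, ht0, ht0i, ht0s⟩ := exists_assign _ _ h01
  obtain ⟨E1, t1, hE1, ht1, ht1i, ht1s⟩ := exists_assign _ _ h10
  have hE0' : ∀ u ∈ E0, u ∉ I ∧ (R.dep u : ZMod 2) = 1 := by
    intro u hu
    have := hE0 hu
    rw [RT.out, mem_filter, mem_sdiff] at this
    exact ⟨this.1.2, this.2⟩
  have hE1' : ∀ u ∈ E1, u ∉ I ∧ (R.dep u : ZMod 2) = 0 := by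
    intro u hu
    have := hE1 hu
    rw [RT.out, mem_filter, mem_sdiff] at this
    exact ⟨this.1.2, this.2⟩
  have hE01 : ∀ u, u ∈ E0 → u ∉ E1 := by
    intro u h0 h1
    have := (hE0' u h0).2.symm.trans (hE1' u h1).2
    exact absurd this (by decide)
  let P : {u : U // u ≠ R.c} → Prop := fun i => i.1 ∈ I ∨ i.1 ∈ E0 ∨ i.1 ∈ E1
  let t : {u : U // u ≠ R.c} → ℕ := fun i =>
    if i.1 ∈ I then lab i.1 + lab (R.par i.1) else if i.1 ∈ E0 then t0 i.1 else t1 i.1
  have htI : ∀ i : {u : U // u ≠ R.c}, i.1 ∈ I → t i = lab i.1 + lab (R.par i.1) := by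
    intro i hi
    simp only [t, hi, if_true]
  have htE0 : ∀ i : {u : U // u ≠ R.c}, i.1 ∈ E0 → t i = t0 i.1 := by
    intro i hi
    simp only [t, (hE0' _ hi).1, hi, if_true, if_false]
  have htE1 : ∀ i : {u : U // u ≠ R.c}, i.1 ∈ E1 → t i = t1 i.1 := by
    intro i hi
    have h0 : i.1 ∉ E0 := fun h => hE01 _ h hi
    simp only [t, (hE1' _ hi).1, h0, if_false]
  -- forbidden types are small
  have hforb : ∀ (a : ZMod 2) (x : ℕ), x ∈ R.forb I lab a → x < K := by
    intro a x hx
    rw [RT.forb, mem_image] at hx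
    obtain ⟨⟨w, u⟩, hwu, rfl⟩ := hx
    rw [mem_product, RT.out, mem_filter, mem_sdiff, mem_filter] at hwu
    obtain ⟨⟨⟨_, hwI⟩, hwa⟩, huI, hua⟩ := hwu
    apply llt _ (hout w hwI) u huI
    intro e
    exact hpne w (hne w hwI) ((hwa.trans hua.symm).trans e.symm)
  have hItype : ∀ i : {u : U // u ≠ R.c}, i.1 ∈ I → t i ∈ R.types I lab := by
    intro i hi
    rw [htI i hi, RT.types, mem_image]
    exact ⟨i.1, mem_erase.mpr ⟨i.2, hi⟩, rfl⟩
  have hE0type : ∀ i : {u : U // u ≠ R.c}, i.1 ∈ E0 →
      t i ∈ R.forb I lab 0 \ R.types I lab := by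
    intro i hi
    rw [htE0 i hi]
    exact ht0 _ hi
  have hE1type : ∀ i : {u : U // u ≠ R.c}, i.1 ∈ E1 →
      t i ∈ R.forb I lab 1 \ R.types I lab := by
    intro i hi
    rw [htE1 i hi]
    exact ht1 _ hi
  have hcast : ∀ b : B, ∀ i < K, ∀ j < K, (i : ZMod (μ b)) = (j : ZMod (μ b)) → i = j := by
    intro b i hi j hj h
    rw [ZMod.natCast_eq_natCast_iff] at h
    have h5 := hK b
    exact Nat.ModEq.eq_of_lt_of_lt h (by omega) (by omega)
  have hMinj : ∀ i < K, ∀ j < K, ∀ v, M i v = M j v → i = j := by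
    intro i hi j hj v h
    have h5 := hMl i v
    have h6 := hMl j v
    rw [h, h6] at h5
    exact (hcast _ i hi j hj (sub_left_injective h5).symm)
  have hsb : ∀ u v, G.Adj u v → (decide (s u = 0)) ≠ (decide (s v = 0)) := by
    intro u v h
    have := hs u v h
    rw [this]
    generalize s u = p
    revert p
    decide
  obtain ⟨m, h1, h2, h3, h4⟩ := cvf_mixed (G := G) (s := fun v => decide (s v = 0)) P t K
    (by
      rintro i (hi | hi | hi)
      · rw [htI i hi]
        exact llt _ hi _ (hpar _ hi i.2) (hpne _ i.2)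
      · exact hforb 0 _ (mem_sdiff.mp (hE0type i hi)).1
      · exact hforb 1 _ (mem_sdiff.mp (hE1type i hi)).1)
    (by
      rintro i j (hi | hi | hi) (hj | hj | hj) hij
      · rw [htI i hi, htI j hj] at hij
        exact Subtype.ext (lty _ hi _ hj i.2 j.2 hij)
      · have := hItype i hi
        rw [hij] at this
        exact absurd this (mem_sdiff.mp (hE0type j hj)).2
      · have := hItype i hi
        rw [hij] at this
        exact absurd this (mem_sdiff.mp (hE1type j hj)).2
      · have := hItype j hj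
        rw [← hij] at this
        exact absurd this (mem_sdiff.mp (hE0type i hi)).2
      · rw [htE0 i hi, htE0 j hj] at hij
        exact Subtype.ext (ht0i _ hi _ hj hij)
      · have h5 := hE0type i hi
        have h6 := hE1type j hj
        rw [hij] at h5
        exact absurd h6 (disjoint_left.mp hdis h5)
      · have := hItype j hj
        rw [← hij] at this
        exact absurd this (mem_sdiff.mp (hE1type i hi)).2
      · have h5 := hE1type i hi
        have h6 := hE0type j hj
        rw [hij] at h5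
        exact absurd h5 (disjoint_left.mp hdis h6)
      · rw [htE1 i hi, htE1 j hj] at hij
        exact Subtype.ext (ht1i _ hi _ hj hij))
    (by
      intro v
      rw [Fintype.card_subtype_compl, Fintype.card_subtype_eq]
      have := hd v
      omega) hsb M hMadj hMM hMinj
  have hmI : ∀ i : {u : U // u ≠ R.c}, i.1 ∈ I →
      m i = M (lab i.1 + lab (R.par i.1)) := by
    intro i hi
    rw [h4 i (Or.inl hi), htI i hi]
  have hphi : ∀ v, ∀ u ∈ I, bk (R.phi m v u) = bk v ∧
      ((R.dep u : ZMod 2) = 0 → (lb (R.phi m v u) : ZMod (μ (bk v))) =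
        lab u + ((lb v : ZMod (μ (bk v))) - lab R.c)) ∧
      ((R.dep u : ZMod 2) ≠ 0 → (lb (R.phi m v u) : ZMod (μ (bk v))) =
        lab u - ((lb v : ZMod (μ (bk v))) - lab R.c)) := by
    intro v
    refine R.ind (P := fun u => u ∈ I → bk (R.phi m v u) = bk v ∧
      ((R.dep u : ZMod 2) = 0 → (lb (R.phi m v u) : ZMod (μ (bk v))) =
        lab u + ((lb v : ZMod (μ (bk v))) - lab R.c)) ∧
      ((R.dep u : ZMod 2) ≠ 0 → (lb (R.phi m v u) : ZMod (μ (bk v))) =
        lab u - ((lb v : ZMod (μ (bk v))) - lab R.c))) ?_ ?_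
    · intro _
      rw [R.phi_c, R.dep_c]
      refine ⟨rfl, fun _ => by ring, fun h => absurd rfl h⟩
    · intro u hu ih huI
      obtain ⟨i1, i2, i3⟩ := ih (hpar u huI hu)
      have g := hMl (lab u + lab (R.par u)) (R.phi m v (R.par u))
      have gb := hMb (lab u + lab (R.par u)) (R.phi m v (R.par u))
      rw [R.phi_ne m v hu, hmI _ huI]
      rw [i1] at g gb
      refine ⟨gb, ?_, ?_⟩
      · intro h0
        have hp : (R.dep (R.par u) : ZMod 2) ≠ 0 := fun h => hpne u hu (h0.trans h.symm)
        change (lb (M (lab u + lab (R.par u)) (R.phi m v (R.par u))) : ZMod (μ (bk v))) = _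
        rw [g, i3 hp]
        push_cast
        ring
      · intro h0
        have hp : (R.dep (R.par u) : ZMod 2) = 0 := by
          by_contra h
          exact hpne u hu ((zmod2_ne h0).trans (zmod2_ne h).symm)
        change (lb (M (lab u + lab (R.par u)) (R.phi m v (R.par u))) : ZMod (μ (bk v))) = _
        rw [g, i2 hp]
        push_cast
        ring
  have hsm : ∀ i v, s (m i v) = s v + 1 := fun i v => hs v _ (h1 i v)
  have hsphi := R.side_phi m hsm
  have hminj : ∀ (i j : {u : U // u ≠ R.c}) (z : V), m i z = m j z → i = j := fun i j z h =>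
    (h3 z (m j z) (h1 j z)).unique h rfl
  -- labels are small
  have hlab : ∀ u ∈ I, ∀ v ∈ I, u ≠ v → lab u < K ∧ lab v < K := by
    have aux : ∀ u ∈ I, u ≠ R.c → lab u < K := by
      intro u hu huc
      have := llt u hu _ (hpar u hu huc) (hpne u huc)
      omega
    have aux2 : ∀ v ∈ I, v ≠ R.c → lab R.c < K := by
      intro v hv hvc
      by_cases h : (R.dep R.c : ZMod 2) = R.dep v
      · have h5 : (R.dep R.c : ZMod 2) ≠ R.dep (R.par v) := by
          rw [h]
          exact hpne v hvc
        have := llt R.c hc _ (hpar v hv hvc) h5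
        omega
      · have := llt R.c hc v hv h
        omega
    intro u hu v hv huv
    by_cases huc : u = R.c
    · have hvc : v ≠ R.c := fun h => huv (huc.trans h.symm)
      rw [huc]
      exact ⟨aux2 v hv hvc, aux v hv hvc⟩
    · refine ⟨aux u hu huc, ?_⟩
      by_cases hvc : v = R.c
      · rw [hvc]
        exact aux2 u hu huc
      · exact aux v hv hvc
  refine R.decompose_layer' I hc hpar hout m h1 h2 h3 s hs ?_ ?_
  · intro v hv u hu u' hu' h
    by_contra hne'
    obtain ⟨hl, hl'⟩ := hlab u hu u' hu' hne'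
    have hdd : (R.dep u : ZMod 2) = R.dep u' := by
      have h4 := hsphi v u
      have h5 := hsphi v u'
      rw [h] at h4
      rw [h4] at h5
      exact add_left_cancel h5
    by_cases hu0 : (R.dep u : ZMod 2) = 0
    · have e1 := (hphi v u hu).2.1 hu0
      have e2 := (hphi v u' hu').2.1 (hdd ▸ hu0)
      rw [h, e2] at e1
      exact hne' (linj u hu u' hu' hdd (hcast _ _ hl _ hl' (add_right_cancel e1).symm))
    · have e1 := (hphi v u hu).2.2 hu0
      have e2 := (hphi v u' hu').2.2 (hdd ▸ hu0)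
      rw [h, e2] at e1
      exact hne' (linj u hu u' hu' hdd (hcast _ _ hl _ hl' (sub_left_injective e1).symm))
  · intro v hv w hw u hu hdu j hj hdj h
    have hwc := w.2
    have hpw := hout w.1 hw
    -- the type between the parent of `w` and `u`
    have hadj' : G.Adj (R.phi m v (R.par w.1)) (R.phi m v u) := by
      rw [← h]
      exact h1 _ _
    have hMt : R.phi m v u = M (lab (R.par w.1) + lab u) (R.phi m v (R.par w.1)) := by
      have hdw := R.dep_cast hwc
      obtain ⟨b1, c1, d1⟩ := hphi v _ hpw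
      obtain ⟨b2, c2, d2⟩ := hphi v u hu
      apply hMu _ _ _ hadj' (b2.trans b1.symm)
      rw [b1]
      by_cases hz0 : (R.dep (R.par w.1) : ZMod 2) = 0
      · have hu0 : (R.dep u : ZMod 2) ≠ 0 := by
          rw [hdu, hdw, hz0]
          decide
        rw [c1 hz0, d2 hu0]
        push_cast
        ring
      · have hu0 : (R.dep u : ZMod 2) = 0 := by
          rw [hdu, hdw, zmod2_ne hz0]
          decide
        rw [d1 hz0, c2 hu0]
        push_cast
        ring
    -- the index carrying this type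
    have hx : ∃ i : {u : U // u ≠ R.c}, P i ∧ t i = lab (R.par w.1) + lab u ∧ i ≠ j := by
      have hmem : ∀ a : ZMod 2, (R.dep w.1 : ZMod 2) = a →
          lab (R.par w.1) + lab u ∈ R.forb I lab a := by
        intro a ha
        rw [RT.forb, mem_image]
        refine ⟨(w.1, u), ?_, rfl⟩
        rw [mem_product, RT.out, mem_filter, mem_sdiff, mem_filter]
        exact ⟨⟨⟨mem_univ _, hw⟩, ha⟩, hu, hdu.trans ha⟩
      by_cases hT : lab (R.par w.1) + lab u ∈ R.types I lab
      · rw [RT.types, mem_image] at hT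
        obtain ⟨x, hx, hxe⟩ := hT
        rw [mem_erase] at hx
        refine ⟨⟨x, hx.1⟩, Or.inl hx.2, ?_, ?_⟩
        · rw [htI ⟨x, hx.1⟩ hx.2]
          exact hxe
        · intro e
          rw [← e] at hj
          exact hj hx.2
      · by_cases ha : (R.dep w.1 : ZMod 2) = 0
        · obtain ⟨e, he, hte⟩ := ht0s _ (mem_sdiff.mpr ⟨hmem 0 ha, hT⟩)
          refine ⟨⟨e, hne e (hE0' e he).1⟩, Or.inr (Or.inl he), ?_, ?_⟩
          · rw [htE0 ⟨e, hne e (hE0' e he).1⟩ he]
            exact hte
          · intro hej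
            have h5 := (hE0' e he).2
            have h6 : (R.dep j.1 : ZMod 2) = 1 := by rw [← hej]; exact h5
            rw [hdj, ha] at h6
            exact absurd h6 (by decide)
        · have ha1 := zmod2_ne ha
          obtain ⟨e, he, hte⟩ := ht1s _ (mem_sdiff.mpr ⟨hmem 1 ha1, hT⟩)
          refine ⟨⟨e, hne e (hE1' e he).1⟩, Or.inr (Or.inr he), ?_, ?_⟩
          · rw [htE1 ⟨e, hne e (hE1' e he).1⟩ he]
            exact hte
          · intro hej
            have h5 := (hE1' e he).2
            have h6 : (R.dep j.1 : ZMod 2) = 0 := by rw [← hej]; exact h5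
            rw [hdj, ha1] at h6
            exact absurd h6 (by decide)
    obtain ⟨i, hiP, hit, hij⟩ := hx
    rw [hMt, ← hit, ← h4 i hiP] at h
    exact hij (hminj _ _ _ h).symm

end frame

/-- Framed trees decompose hosts divided into coverings of `K_{μ,μ}`, `μ ≥ K`. -/
theorem frame_cover {n K : ℕ} {T : SimpleGraph (Fin (n + 1))} (h : Framed T K) {V : Type}
    [Fintype V] [DecidableEq V] (G : SimpleGraph V) [DecidableRel G.Adj]
    (hG : G.IsRegularOfDegree n) (hf : CoverBlocks G (fun μ => K ≤ μ)) : Decomposes T G := by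
  classical
  obtain ⟨R, I, lab, hc, hpar, hout, linj, llt, lty, hdis, h01, h10⟩ := h
  obtain ⟨B, μ, s, bk, lb, hK, hs, hlb, hex⟩ := hf
  obtain ⟨M, m1, m2, m3, m4, m5⟩ := CoverBlocks.matchings hlb hex
  obtain ⟨f, hf1, hf2⟩ := R.cvf_frame (G := G) I lab K hc hpar hout linj llt lty hdis h01 h10
    (fun v => by rw [hG v, Fintype.card_fin]) (fun v => if s v = true then 0 else 1)
    (by
      intro u v huv
      have h5 := hs u v huv
      cases hu : s u <;> cases hv : s v
      · rw [hu, hv] at h5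
        exact absurd rfl h5
      · simp
        decide
      · simp
      · rw [hu, hv] at h5
        exact absurd rfl h5) μ bk lb hK M m1 m2 m3 m4 m5
  exact ⟨_, f, hf1, hf2⟩

end Pool.Agent.Lib.MP_c5b475_co
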