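import Pool.Agent.Lib.MP_c5b475_co.KN.HstC
import Pool.Agent.Lib.MP_c5b475_co.KN.Cases
import Pool.Agent.Lib.MP_c5b475_co.Few.FIN

/-!
# KN/HstB: choice and cyclic labelling of a closed core
-/

set_option autoImplicit false

namespace Pool.Agent.Lib.MP_c5b475_co.KN

open Finset

/-- A tree with at most `q + 1` non-leaf vertices has a set of `q + 1` vertices which contains them
and induces a tree with many non-leaf vertices. -/
theorem hst_core {n q : ℕ} {T : SimpleGraph (Fin (n + 1))} (R : RT T) (hc : IsInner T R.c)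
    (hq : q ≤ n) (N : Finset (Fin (n + 1))) (hN : ∀ u, u ∈ N ↔ IsInner T u)
    (hk : N.card ≤ q + 1) :
    ∃ (I : Finset (Fin (n + 1))), N ⊆ I ∧ I.card = q + 1 ∧
      ∃ J : Finset (Fin (n + 1)), J ⊆ I ∧ (∀ u ∈ J, ∃ w ∈ I, w ≠ R.c ∧ R.par w = u) ∧
        (N.card ≤ J.card ∨ q < n ∧ q + 1 - N.card ≤ J.card) := by
  classical
  set N1 := N.filter fun u => ∃ w ∈ N, w ≠ R.c ∧ R.par w = u with hN1
  set N0 := N.filter fun u => ¬ ∃ w ∈ N, w ≠ R.c ∧ R.par w = u with hN0
  have hsum : N1.card + N0.card = N.card := Finset.card_filter_add_card_filter_not _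
  -- a child which is a leaf
  have hlam : ∀ u, ∃ w, u ∈ N0 → w ∉ N ∧ w ≠ R.c ∧ R.par w = u := by
    intro u
    by_cases hu : u ∈ N0
    · rw [hN0, mem_filter, hN] at hu
      obtain ⟨⟨v, w, hv, hw, hvw⟩, h2⟩ := hu
      have key : ∀ x, T.Adj u x → x ≠ R.par u ∨ u = R.c → x ≠ R.c ∧ R.par x = u := by
        intro x hx hxp
        rcases (R.adj_iff u x).1 hx with ⟨h3, h4⟩ | ⟨h3, h4⟩
        · rcases hxp with h5 | h5
          · exact absurd h4 h5
          · exact absurd h5 h3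
        · exact ⟨h3, h4.symm⟩
      have key2 : ∀ x, T.Adj u x → x ≠ R.par u ∨ u = R.c → x ∉ N ∧ x ≠ R.c ∧ R.par x = u := by
        intro x hx hxp
        obtain ⟨h3, h4⟩ := key x hx hxp
        exact ⟨fun h => h2 ⟨x, h, h3, h4⟩, h3, h4⟩
      by_cases hv' : v = R.par u
      · exact ⟨w, fun _ => key2 w hw (Or.inl fun h => hvw (hv'.trans h.symm))⟩
      · exact ⟨v, fun _ => key2 v hv (Or.inl hv')⟩
    · exact ⟨u, fun h => absurd h hu⟩
  choose lam hlam using hlam
  set E0 := N0.image lam with hE0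
  have hE0c : E0.card = N0.card := by
    rw [hE0, card_image_of_injOn]
    intro x hx y hy hxy
    have h1 := (hlam x hx).2.2
    have h2 := (hlam y hy).2.2
    have hxy' : lam x = lam y := hxy
    rw [← h1, ← h2, hxy']
  obtain ⟨F, hF, hFc⟩ := Finset.exists_subset_card_eq
    (show min N0.card (q + 1 - N.card) ≤ E0.card by rw [hE0c]; exact min_le_left _ _)
  have hdis : Disjoint N F := by
    rw [Finset.disjoint_left]
    intro x hx hxF
    obtain ⟨u, hu, rfl⟩ := mem_image.1 (hF hxF)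
    exact (hlam u hu).1 hx
  have hNF : (N ∪ F).card ≤ q + 1 := by
    rw [card_union_of_disjoint hdis, hFc]
    omega
  obtain ⟨I, hI1, _, hI2⟩ := Finset.exists_subsuperset_card_eq (Finset.subset_univ (N ∪ F)) hNF
    (by rw [card_univ, Fintype.card_fin]; omega)
  refine ⟨I, subset_union_left.trans hI1, hI2, N1 ∪ F.image R.par, ?_, ?_, ?_⟩
  · intro x hx
    rcases mem_union.1 hx with h | h
    · exact hI1 (mem_union_left _ (mem_filter.1 h).1)
    · obtain ⟨w, hw, rfl⟩ := mem_image.1 h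
      obtain ⟨u, hu, rfl⟩ := mem_image.1 (hF hw)
      rw [(hlam u hu).2.2]
      exact hI1 (mem_union_left _ (mem_filter.1 hu).1)
  · intro x hx
    rcases mem_union.1 hx with h | h
    · obtain ⟨w, hw, h1⟩ := (mem_filter.1 h).2
      exact ⟨w, hI1 (mem_union_left _ hw), h1⟩
    · obtain ⟨w, hw, rfl⟩ := mem_image.1 h
      obtain ⟨u, hu, rfl⟩ := mem_image.1 (hF hw)
      exact ⟨lam u, hI1 (mem_union_right _ hw), (hlam u hu).2.1, rfl⟩
  · have h1 : Disjoint N1 (F.image R.par) := by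
      rw [Finset.disjoint_left]
      intro x hx hxF
      obtain ⟨w, hw, rfl⟩ := mem_image.1 hxF
      obtain ⟨u, hu, rfl⟩ := mem_image.1 (hF hw)
      rw [(hlam u hu).2.2] at hx
      exact (mem_filter.1 hu).2 (mem_filter.1 hx).2
    have h2 : (F.image R.par).card = F.card := by
      rw [card_image_of_injOn]
      intro x hx y hy hxy
      obtain ⟨u, hu, rfl⟩ := mem_image.1 (hF hx)
      obtain ⟨v, hv, rfl⟩ := mem_image.1 (hF hy)
      have hxy' : R.par (lam u) = R.par (lam v) := hxy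
      rw [(hlam u hu).2.2, (hlam v hv).2.2] at hxy'
      rw [hxy']
    have h3 : N.card + E0.card ≤ n + 1 := by
      have h4 : Disjoint N E0 := by
        rw [Finset.disjoint_left]
        intro x hx hxF
        obtain ⟨u, hu, rfl⟩ := mem_image.1 hxF
        exact (hlam u hu).1 hx
      rw [← card_union_of_disjoint h4]
      refine (card_le_univ _).trans ?_
      rw [Fintype.card_fin]
    rw [card_union_of_disjoint h1, h2, hFc]
    rw [hE0c] at h3
    omega

/-- labelling property of a modulus -/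
def Cyc (m c : ℕ) : Prop :=
  ∀ (V : Type) [Fintype V] [DecidableEq V] (t : RTr V) (sd : V → Bool),
    Fintype.card V = m + 1 → (∀ w, w ≠ t.root → sd w ≠ sd (t.par w)) →
    c ≤ (univ.filter fun w => (t.ch w).Nonempty).card →
    ∃ f : V → ZMod m, (∀ u v, sd u = sd v → f u = f v → u = v) ∧
      ∀ u v, u ≠ t.root → v ≠ t.root → f u + f (t.par u) = f v + f (t.par v) → u = v

/-- cyclic labelling of a closed core -/
theorem hst_lab {n m q c : ℕ} {T : SimpleGraph (Fin (n + 1))} (R : RT T)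
    (I : Finset (Fin (n + 1))) (hcI : R.c ∈ I) (hpar : ∀ u ∈ I, u ≠ R.c → R.par u ∈ I)
    (hI : I.card = q + 1) (hqm : q ≤ m) (J : Finset (Fin (n + 1))) (hJI : J ⊆ I)
    (hJ : ∀ u ∈ J, ∃ w ∈ I, w ≠ R.c ∧ R.par w = u) (hJc : c ≤ J.card) (hcyc : Cyc m c) :
    ∃ lab : Fin (n + 1) → ZMod m,
      (∀ u ∈ I, ∀ v ∈ I, (R.dep u : ZMod 2) = R.dep v → lab u = lab v → u = v) ∧
      ∀ u ∈ I, ∀ v ∈ I, u ≠ R.c → v ≠ R.c →
        lab u + lab (R.par u) = lab v + lab (R.par v) → u = v := by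
  classical
  let V := {u : Fin (n + 1) // u ∈ I} ⊕ Fin (m - q)
  let par : V → V := Sum.elim
    (fun u => if h : u.1 = R.c then Sum.inl ⟨R.c, hcI⟩ else Sum.inl ⟨R.par u.1, hpar u.1 u.2 h⟩)
    (fun _ => Sum.inl ⟨R.c, hcI⟩)
  let dep : V → ℕ := Sum.elim (fun u => R.dep u.1) (fun _ => 1)
  have hroot : ∀ u : {u : Fin (n + 1) // u ∈ I}, (Sum.inl u : V) ≠ Sum.inl ⟨R.c, hcI⟩ ↔
      u.1 ≠ R.c := by
    intro u
    constructor
    · intro h h'
      exact h (congrArg Sum.inl (Subtype.ext h'))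
    · intro h h'
      exact h (congrArg Subtype.val (Sum.inl.inj h'))
  have hpl : ∀ (u : {u : Fin (n + 1) // u ∈ I}) (h : u.1 ≠ R.c),
      par (Sum.inl u) = Sum.inl ⟨R.par u.1, hpar u.1 u.2 h⟩ := by
    intro u h
    simp only [par, Sum.elim_inl, dif_neg h]
  let t : RTr V :=
    { root := Sum.inl ⟨R.c, hcI⟩
      par := par
      dep := dep
      dep_root := R.dep_c
      par_root := by simp [par]
      dep_par := by
        rintro (u | j) hu
        · rw [hroot] at hu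
          rw [hpl u hu]
          exact (R.dep_par u.1 hu).symm
        · show 1 = R.dep R.c + 1
          rw [R.dep_c] }
  let sd : V → Bool := Sum.elim (fun u => decide ((R.dep u.1 : ZMod 2) = 0)) (fun _ => false)
  have h01 : ∀ x : ZMod 2, (decide (x + 1 = 0)) ≠ decide (x = 0) := by decide
  have h02 : ∀ x y : ZMod 2, x = y → decide (x = 0) = decide (y = 0) := by
    intro x y h
    rw [h]
  have hsd : ∀ w, w ≠ t.root → sd w ≠ sd (t.par w) := by
    rintro (u | j) hu
    · have hu' := (hroot u).1 hu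
      show decide ((R.dep u.1 : ZMod 2) = 0) ≠ sd (par (Sum.inl u))
      rw [hpl u hu']
      show decide ((R.dep u.1 : ZMod 2) = 0) ≠ decide ((R.dep (R.par u.1) : ZMod 2) = 0)
      rw [← R.dep_par u.1 hu']
      push_cast
      exact h01 _
    · show false ≠ decide ((R.dep R.c : ZMod 2) = 0)
      rw [R.dep_c]
      decide
  have hcard : Fintype.card V = m + 1 := by
    show Fintype.card ({u : Fin (n + 1) // u ∈ I} ⊕ Fin (m - q)) = m + 1
    rw [Fintype.card_sum, Fintype.card_coe, hI, Fintype.card_fin]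
    omega
  have hcount : c ≤ (univ.filter fun w => (t.ch w).Nonempty).card := by
    refine hJc.trans ?_
    have h1 : (J.attach.image fun u => (Sum.inl ⟨u.1, hJI u.2⟩ : V)) ⊆
        univ.filter fun w => (t.ch w).Nonempty := by
      intro x hx
      obtain ⟨u, _, rfl⟩ := mem_image.1 hx
      obtain ⟨w, hw, hwc, hwu⟩ := hJ u.1 u.2
      rw [mem_filter]
      refine ⟨mem_univ _, ⟨Sum.inl ⟨w, hw⟩, ?_⟩⟩
      unfold RTr.ch
      rw [mem_filter]
      refine ⟨mem_univ _, (hroot ⟨w, hw⟩).2 hwc, ?_⟩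
      show par (Sum.inl ⟨w, hw⟩) = _
      rw [hpl ⟨w, hw⟩ hwc]
      exact congrArg Sum.inl (Subtype.ext hwu)
    refine le_trans (le_of_eq ?_) (card_le_card h1)
    rw [card_image_of_injective, card_attach]
    intro x y hxy
    have hxy' : (Sum.inl ⟨x.1, hJI x.2⟩ : V) = Sum.inl ⟨y.1, hJI y.2⟩ := hxy
    have h3 : (⟨x.1, hJI x.2⟩ : {u : Fin (n + 1) // u ∈ I}) = ⟨y.1, hJI y.2⟩ := Sum.inl.inj hxy'
    exact Subtype.ext (congrArg (fun z : {u : Fin (n + 1) // u ∈ I} => z.1) h3)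
  obtain ⟨f, hf1, hf2⟩ := hcyc V t sd hcard hsd hcount
  have hlI : ∀ (u : Fin (n + 1)) (h : u ∈ I),
      (if h : u ∈ I then f (Sum.inl ⟨u, h⟩) else 0) = f (Sum.inl ⟨u, h⟩) := fun u h => dif_pos h
  refine ⟨fun u => if h : u ∈ I then f (Sum.inl ⟨u, h⟩) else 0, ?_, ?_⟩
  · intro u hu v hv hd he
    simp only [hlI u hu, hlI v hv] at he
    have h1 := hf1 (Sum.inl ⟨u, hu⟩) (Sum.inl ⟨v, hv⟩) (h02 _ _ hd) he
    exact congrArg Subtype.val (Sum.inl.inj h1)
  · intro u hu v hv huc hvc he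
    simp only [hlI u hu, hlI v hv, hlI _ (hpar u hu huc), hlI _ (hpar v hv hvc)] at he
    have h1 := hf2 (Sum.inl ⟨u, hu⟩) (Sum.inl ⟨v, hv⟩) ((hroot ⟨u, hu⟩).2 huc)
      ((hroot ⟨v, hv⟩).2 hvc) (by
        show f _ + f (par (Sum.inl ⟨u, hu⟩)) = f _ + f (par (Sum.inl ⟨v, hv⟩))
        rw [hpl ⟨u, hu⟩ huc, hpl ⟨v, hv⟩ hvc]
        exact he)
    exact congrArg Subtype.val (Sum.inl.inj h1)

/-- Decomposition of the hosts in `CycHost` for all sets `S` with `q` elements which can be the set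
of the label sums of the core. -/
theorem hst_main {n m q c : ℕ} {T : SimpleGraph (Fin (n + 1))} (hT : T.IsTree) (h2 : 2 ≤ n)
    (hq : q ≤ n) (hqm : q ≤ m) (hk : Nat.card {u // IsInner T u} ≤ q + 1)
    (hc : c ≤ Nat.card {u // IsInner T u})
    (hc' : q < n → c ≤ q + 1 - Nat.card {u // IsInner T u}) (hcyc : Cyc m c) :
    ∃ S : Finset (ZMod m), S.card = q ∧ ∀ {V : Type} [Fintype V] [DecidableEq V]
      (G : SimpleGraph V) [DecidableRel G.Adj], G.IsRegularOfDegree n → CycHost G m S →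
        Decomposes T G := by
  classical
  obtain ⟨r, hr⟩ := fin_exists_inner hT (by rw [Fintype.card_fin]; omega)
  obtain ⟨R, hR, _⟩ := exists_RT hT r
  subst hR
  set N : Finset (Fin (n + 1)) := univ.filter fun u => IsInner T u with hN
  have hN' : ∀ u, u ∈ N ↔ IsInner T u := fun u => by rw [hN, mem_filter]; simp
  have hNc : Nat.card {u // IsInner T u} = N.card := by
    rw [Nat.card_eq_fintype_card, Fintype.card_subtype]
  rw [hNc] at hk hc hc'
  obtain ⟨I, hNI, hIc, J, hJI, hJ, hJc⟩ := hst_core R hr hq N hN' hk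
  have hcI : R.c ∈ I := hNI ((hN' _).2 hr)
  have hpar : ∀ u, u ≠ R.c → R.par u ∈ I := fun u hu =>
    hNI ((hN' _).2 (fin_par_inner R hr hu))
  have hout : ∀ u, u ∉ I → R.par u ∈ I := fun u hu => hpar u fun h => hu (h ▸ hcI)
  have hJc' : c ≤ J.card := by
    rcases hJc with h | ⟨h1, h2⟩
    · exact hc.trans h
    · exact (hc' h1).trans h2
  obtain ⟨lab, hl1, hl2⟩ := hst_lab R I hcI (fun u _ h => hpar u h) hIc hqm J hJI hJ hJc' hcyc
  have hS : ((I.erase R.c).image fun u => lab u + lab (R.par u)).card = q := by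
    rw [card_image_of_injOn, card_erase_of_mem hcI, hIc]
    · rfl
    · intro u hu v hv huv
      rw [mem_coe, mem_erase] at hu hv
      exact hl2 u hu.2 v hv.2 hu.1 hv.1 huv
  refine ⟨(I.erase R.c).image fun u => lab u + lab (R.par u), hS, ?_⟩
  intro V _ _ G _ hG hf
  exact cyc_closed R I lab _ hcI (fun u _ h => hpar u h) hout hl1
    (fun u hu h => mem_image_of_mem _ (mem_erase.2 ⟨h, hu⟩)) hl2 (by rw [hS, hIc]) G hG hf

end Pool.Agent.Lib.MP_c5b475_co.KN
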