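import Pool.Agent.Lib.MP_c5b475_co.KN.HstA
import Pool.Agent.Lib.MP_c5b475_co.KN.HstB
import Pool.Agent.Lib.MP_c5b475_co.Few.LAB
import Pool.Agent.Lib.MP_c5b475_co.Few.LDH

/-!
# KN/HstD: hosts divided into coverings of `K_{m,m}`, hosts with at most `2 n + 2` vertices
-/

set_option autoImplicit false

namespace Pool.Agent.Lib.MP_c5b475_co

/-- `G` is bipartite, and its vertices can be divided into parts (`bk`) and coloured with `m` colours
(`cl`) so that each vertex has in its own part exactly one neighbour of each colour (the parts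
induce covering graphs of `K_{m,m}`). -/
def PartRegular {V : Type} (G : SimpleGraph V) (m : ℕ) : Prop :=
  ∃ (B : Type) (s : V → Bool) (bk : V → B) (cl : V → Fin m), (∀ x y, G.Adj x y → s x ≠ s y) ∧
    ∀ x j, ∃! y, G.Adj x y ∧ bk y = bk x ∧ cl y = j

/-- `G` is bipartite, and its vertices can be divided into parts (`bk`) and coloured with `m` colours
(`cl`) so that each vertex has in its own part exactly one neighbour of each colour different from
its own colour, and no neighbour of its own colour (the parts induce covering graphs of `K_{m,m}`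
minus a perfect matching). -/
def CrownRegular {V : Type} (G : SimpleGraph V) (m : ℕ) : Prop :=
  ∃ (B : Type) (s : V → Bool) (bk : V → B) (cl : V → Fin m), (∀ x y, G.Adj x y → s x ≠ s y) ∧
    (∀ x j, j ≠ cl x → ∃! y, G.Adj x y ∧ bk y = bk x ∧ cl y = j) ∧
    ∀ x y, G.Adj x y → bk y = bk x → cl y ≠ cl x

namespace KN

open Finset

theorem factor_part {V : Type} {G : SimpleGraph V} {m : ℕ} (hm : 1 ≤ m) (hf : HasFactor G m) :
    PartRegular G m := by
  classical
  have hm0 : NeZero m := ⟨by omega⟩
  obtain ⟨B, mk, s, bk, lb, hv, hs, hb, hl, hadj, hblk⟩ := HstA_coord hf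
  let ε : Fin m ≃ ZMod m := (ZMod.finEquiv m).toEquiv
  refine ⟨B, s, bk, fun v => ε.symm (lb v), ?_, ?_⟩
  · intro x y h
    rw [hadj x y h]
    cases s x <;> simp
  · intro x j
    refine ⟨mk (!(s x)) (bk x) (ε j), ⟨?_, hb _ _ _, ?_⟩, ?_⟩
    · have := hblk (s x) (bk x) (lb x) (ε j)
      rw [hv] at this
      exact this
    · show ε.symm (lb (mk _ _ _)) = j
      rw [hl, Equiv.symm_apply_apply]
    · rintro y ⟨h1, h2, h3⟩
      rw [← hv y, hadj x y h1, h2]
      have h4 : lb y = ε j := by
        rw [← h3]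
        exact (Equiv.apply_symm_apply _ _).symm
      rw [h4]

theorem part_cyc {V : Type} {G : SimpleGraph V} {m : ℕ} [NeZero m] (hf : PartRegular G m)
    (S : Finset (ZMod m)) (hS : S.card = m) : CycHost G m S := by
  classical
  have hS' : S = univ := by
    rw [← card_eq_iff_eq_univ, hS, ZMod.card]
  subst hS'
  obtain ⟨B, s, bk, cl, h1, h2⟩ := hf
  let ε : Fin m ≃ ZMod m := (ZMod.finEquiv m).toEquiv
  refine ⟨B, s, bk, fun v => ε (cl v), ?_, fun _ _ _ _ => mem_univ _, ?_⟩
  · intro u v h
    have := h1 u v h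
    revert this
    cases s u <;> cases s v <;> simp
  · intro v t _
    obtain ⟨w, ⟨g1, g2, g3⟩, g4⟩ := h2 v (ε.symm (t - ε (cl v)))
    refine ⟨w, ⟨g1, g2, ?_⟩, ?_⟩
    · show ε (cl v) + ε (cl w) = t
      rw [g3, Equiv.apply_symm_apply, add_sub_cancel]
    · rintro y ⟨k1, k2, k3⟩
      refine g4 y ⟨k1, k2, ?_⟩
      have k3' : ε (cl v) + ε (cl y) = t := k3
      rw [← k3', add_sub_cancel_left, Equiv.symm_apply_apply]

theorem crown_cyc {V : Type} {G : SimpleGraph V} {m : ℕ} [NeZero m] (hf : CrownRegular G m)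
    (S : Finset (ZMod m)) (hS : S.card + 1 = m) : CycHost G m S := by
  classical
  obtain ⟨t0, ht0⟩ : ∃ t0, t0 ∉ S := by
    by_contra hcon
    push Not at hcon
    have h1 : S = univ := by
      ext x
      simp [hcon x]
    rw [h1, card_univ, ZMod.card] at hS
    omega
  have hS' : ∀ t, t ∈ S ↔ t ≠ t0 := by
    have h1 : S = univ.erase t0 := by
      apply eq_of_subset_of_card_le
      · intro x hx
        rw [mem_erase]
        exact ⟨fun h => ht0 (h ▸ hx), mem_univ _⟩
      · rw [card_erase_of_mem (mem_univ _), card_univ, ZMod.card]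
        omega
    intro t
    rw [h1, mem_erase]
    exact ⟨fun h => h.1, fun h => ⟨h, mem_univ _⟩⟩
  obtain ⟨B, s, bk, cl, h1, h2, h3⟩ := hf
  let ε : Fin m ≃ ZMod m := (ZMod.finEquiv m).toEquiv
  have hs : ∀ u v, G.Adj u v → s v = !(s u) := by
    intro u v h
    have := h1 u v h
    revert this
    cases s u <;> cases s v <;> simp
  let lb : V → ZMod m := fun v => if s v = true then ε (cl v) else t0 - ε (cl v)
  have lt : ∀ v, s v = true → lb v = ε (cl v) := fun v h => if_pos h
  have lf : ∀ v, s v = false → lb v = t0 - ε (cl v) := fun v h => if_neg (by rw [h]; simp)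
  refine ⟨B, s, bk, lb, hs, ?_, ?_⟩
  · intro u v h hb
    rw [hS']
    have h4 := h3 u v h hb
    have h5 := hs u v h
    intro h6
    cases hu : s u
    · rw [hu] at h5
      rw [lf u hu, lt v h5] at h6
      apply h4
      apply ε.injective
      have h7 : ε (cl v) - ε (cl u) = 0 := by
        have : t0 - ε (cl u) + ε (cl v) - t0 = 0 := by rw [h6]; ring
        rw [← this]; ring
      exact sub_eq_zero.1 h7
    · rw [hu] at h5
      rw [lt u hu, lf v h5] at h6
      apply h4
      apply ε.injective
      have h7 : ε (cl u) - ε (cl v) = 0 := by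
        have : ε (cl u) + (t0 - ε (cl v)) - t0 = 0 := by rw [h6]; ring
        rw [← this]; ring
      exact (sub_eq_zero.1 h7).symm
  · intro v t ht
    rw [hS'] at ht
    cases hv : s v
    · -- label sum `t0 - cl v + cl w`
      have hj : ε.symm (t - t0 + ε (cl v)) ≠ cl v := by
        intro h
        apply ht
        have h4 := congrArg ε h
        rw [Equiv.apply_symm_apply] at h4
        have h5 : t - t0 = 0 := by
          have : t - t0 + ε (cl v) - ε (cl v) = 0 := by rw [h4]; ring
          rw [← this]; ring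
        exact sub_eq_zero.1 h5
      obtain ⟨w, ⟨g1, g2, g3⟩, g4⟩ := h2 v _ hj
      have hw := hs v w g1
      rw [hv] at hw
      refine ⟨w, ⟨g1, g2, ?_⟩, ?_⟩
      · show lb v + lb w = t
        rw [lf v hv, lt w hw, g3, Equiv.apply_symm_apply]
        ring
      · rintro y ⟨k1, k2, k3⟩
        refine g4 y ⟨k1, k2, ?_⟩
        have hy := hs v y k1
        rw [hv] at hy
        have k3' : lb v + lb y = t := k3
        rw [lf v hv, lt y hy] at k3'
        rw [← k3']
        apply ε.injective
        rw [Equiv.apply_symm_apply]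
        ring
    · have hj : ε.symm (ε (cl v) + t0 - t) ≠ cl v := by
        intro h
        apply ht
        have h4 := congrArg ε h
        rw [Equiv.apply_symm_apply] at h4
        have h5 : t0 - t = 0 := by
          have : ε (cl v) + t0 - t - ε (cl v) = 0 := by rw [h4]; ring
          rw [← this]; ring
        exact (sub_eq_zero.1 h5).symm
      obtain ⟨w, ⟨g1, g2, g3⟩, g4⟩ := h2 v _ hj
      have hw := hs v w g1
      rw [hv] at hw
      refine ⟨w, ⟨g1, g2, ?_⟩, ?_⟩
      · show lb v + lb w = t
        rw [lt v hv, lf w hw, g3, Equiv.apply_symm_apply]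
        ring
      · rintro y ⟨k1, k2, k3⟩
        refine g4 y ⟨k1, k2, ?_⟩
        have hy := hs v y k1
        rw [hv] at hy
        have k3' : lb v + lb y = t := k3
        rw [lt v hv, lf y hy] at k3'
        rw [← k3']
        apply ε.injective
        rw [Equiv.apply_symm_apply]
        ring

/-- the degree in the parts -/
theorem part_le {V : Type} [Fintype V] [DecidableEq V] {G : SimpleGraph V} [DecidableRel G.Adj]
    {n m : ℕ} (hG : G.IsRegularOfDegree n) (hV : Nonempty V) :
    (PartRegular G m → m ≤ n) ∧ (CrownRegular G m → m ≤ n + 1) := by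
  classical
  obtain ⟨v⟩ := hV
  constructor
  · rintro ⟨B, s, bk, cl, h1, h2⟩
    choose y hy _ using h2
    have h3 : (univ.image (y v)).card ≤ (G.neighborFinset v).card := by
      apply card_le_card
      intro w hw
      obtain ⟨j, _, rfl⟩ := mem_image.1 hw
      rw [SimpleGraph.mem_neighborFinset]
      exact (hy v j).1
    rw [card_image_of_injective, card_univ, Fintype.card_fin,
      SimpleGraph.card_neighborFinset_eq_degree, hG v] at h3
    · exact h3
    · intro i j hij
      rw [← (hy v i).2.2, ← (hy v j).2.2, hij]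
  · rintro ⟨B, s, bk, cl, h1, h2, h3⟩
    have h4 : ∀ j, ∃ y, j ≠ cl v → G.Adj v y ∧ cl y = j := by
      intro j
      by_cases h : j = cl v
      · exact ⟨v, fun h' => absurd h h'⟩
      · obtain ⟨y, hy, _⟩ := h2 v j h
        exact ⟨y, fun _ => ⟨hy.1, hy.2.2⟩⟩
    choose y hy using h4
    have h3 : ((univ.erase (cl v)).image y).card ≤ (G.neighborFinset v).card := by
      apply card_le_card
      intro w hw
      obtain ⟨j, hj, rfl⟩ := mem_image.1 hw
      rw [SimpleGraph.mem_neighborFinset]
      exact (hy j (mem_erase.1 hj).1).1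
    rw [card_image_of_injOn, card_erase_of_mem (mem_univ _), card_univ, Fintype.card_fin,
      SimpleGraph.card_neighborFinset_eq_degree, hG v] at h3
    · omega
    · intro i hi j hj hij
      rw [mem_coe, mem_erase] at hi hj
      rw [← (hy i hi.1).2, ← (hy j hj.1).2, hij]

theorem empty_dec {U V : Type} {T : SimpleGraph U} {G : SimpleGraph V} (hV : IsEmpty V) :
    Decomposes T G :=
  ⟨Empty, fun i => i.elim, fun i => i.elim, fun e he => by
    induction e using Sym2.ind with
    | _ x y => exact (hV.false x).elim⟩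

/-- **Hosts divided into coverings of `K_{m,m}` or of `K_{m,m}` minus a perfect matching.** -/
theorem hosts_part (ε : ℝ) (hε : 0 < ε) : ∃ m0 : ℕ, ∀ n m : ℕ, m0 ≤ m →
    ∀ T : SimpleGraph (Fin (n + 1)), T.IsTree → ε * m ≤ (Nat.card {u // IsInner T u} : ℝ) →
    ∀ (V : Type) [Fintype V] [DecidableEq V] (G : SimpleGraph V) [DecidableRel G.Adj],
      G.IsRegularOfDegree n →
      (PartRegular G m ∧ ((Nat.card {u // IsInner T u} : ℝ) ≤ (1 - ε) * m ∨ n = m)) ∨
      (CrownRegular G m ∧ ((Nat.card {u // IsInner T u} : ℝ) ≤ (1 - ε) * m ∨ n + 1 = m)) →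
      Decomposes T G := by
  obtain ⟨m1, h1⟩ := many_inner (ε / 2) (by positivity)
  refine ⟨max (max m1 ⌈2 / ε⌉₊) 3, ?_⟩
  intro n m hm T hT hk V _ _ G _ hG hhost
  have hm1 : m1 ≤ m := (le_max_left _ _).trans ((le_max_left _ _).trans hm)
  have hm2 : 2 / ε ≤ m :=
    (Nat.le_ceil _).trans (Nat.cast_le.2 ((le_max_right _ _).trans ((le_max_left _ _).trans hm)))
  have hm3 : 3 ≤ m := (le_max_right _ _).trans hm
  have hm0 : NeZero m := ⟨by omega⟩
  rw [div_le_iff₀ hε] at hm2
  by_cases hV : IsEmpty V
  · exact empty_dec hV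
  rw [not_isEmpty_iff] at hV
  obtain ⟨p1, p2⟩ := part_le (m := m) hG hV
  set k := Nat.card {u // IsInner T u} with hkd
  set c := ⌈ε / 2 * m⌉₊ with hcd
  have hc1 : (c : ℝ) ≤ ε * m := by
    have h2 : (c : ℝ) < ε / 2 * m + 1 := Nat.ceil_lt_add_one (by positivity)
    linarith
  have hck : c ≤ k := by
    have : (c : ℝ) ≤ k := hc1.trans hk
    exact_mod_cast this
  have hcyc : Cyc m c := by
    intro W _ _ t sd hW hsd hcount
    refine h1 m hm1 W t sd hW hsd ?_
    refine (Nat.le_ceil _).trans ?_
    exact_mod_cast hcount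
  have hkn : k ≤ n + 1 := by
    rw [hkd]
    have h3 := Nat.card_le_card_of_injective (Subtype.val : {u // IsInner T u} → Fin (n + 1))
      Subtype.val_injective
    rw [Nat.card_eq_fintype_card (α := Fin (n + 1)), Fintype.card_fin] at h3
    exact h3
  have hkm : (k : ℝ) ≤ (1 - ε) * m → k + c ≤ m := by
    intro h3
    have h4 : (k : ℝ) + c ≤ m := by linarith
    exact_mod_cast h4
  rcases hhost with ⟨hp, hh⟩ | ⟨hp, hh⟩
  · have hmn := p1 hp
    have hkq : k ≤ m + 1 := by
      rcases hh with h3 | h3
      · have := hkm h3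
        omega
      · omega
    obtain ⟨S, hS, hdec⟩ := hst_main (q := m) hT (by omega) hmn le_rfl hkq hck (by
      intro hlt
      rcases hh with h3 | h3
      · have := hkm h3
        omega
      · omega) hcyc
    exact hdec G hG (part_cyc hp S hS)
  · have hmn := p2 hp
    have hkq : k ≤ m - 1 + 1 := by
      rcases hh with h3 | h3
      · have := hkm h3
        omega
      · omega
    obtain ⟨S, hS, hdec⟩ := hst_main (q := m - 1) hT (by omega) (by omega) (by omega) hkq hck (by
      intro hlt
      rcases hh with h3 | h3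
      · have := hkm h3
        omega
      · omega) hcyc
    exact hdec G hG (crown_cyc hp S (by omega))

/-- non-leaf vertices exist -/
theorem inner_pos {n : ℕ} {T : SimpleGraph (Fin (n + 1))} (hT : T.IsTree) (h2 : 2 ≤ n) :
    1 ≤ Nat.card {u // IsInner T u} := by
  classical
  obtain ⟨r, hr⟩ := fin_exists_inner hT (by rw [Fintype.card_fin]; omega)
  rw [Nat.card_eq_fintype_card]
  exact Fintype.card_pos_iff.2 ⟨⟨r, hr⟩⟩

/-- **Hosts with a `K_{m,m}`-factor.** -/
theorem hosts_factor (ε : ℝ) (hε : 0 < ε) : ∃ m0 : ℕ, ∀ n m : ℕ, m0 ≤ m →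
    ∀ T : SimpleGraph (Fin (n + 1)), T.IsTree →
    ((Nat.card {u // IsInner T u} : ℝ) ≤ (1 - ε) * m ∨ n = m) →
    ∀ (V : Type) [Fintype V] [DecidableEq V] (G : SimpleGraph V) [DecidableRel G.Adj],
      G.IsRegularOfDegree n → HasFactor G m → Decomposes T G := by
  set ε' : ℝ := min ε (1 / 10 ^ 10) with hε'
  have hε0 : 0 < ε' := by
    rw [hε']
    positivity
  obtain ⟨m1, h1⟩ := hosts_part ε' hε0
  refine ⟨max m1 2, ?_⟩
  intro n m hm T hT hk V _ _ G _ hG hf
  have hm1 : m1 ≤ m := (le_max_left _ _).trans hm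
  have hm2 : 2 ≤ m := (le_max_right _ _).trans hm
  by_cases hV : IsEmpty V
  · exact empty_dec hV
  rw [not_isEmpty_iff] at hV
  have hp := factor_part (by omega) hf
  have hmn := (part_le (m := m) hG hV).1 hp
  by_cases hs : 10 ^ 10 * Nat.card {u // IsInner T u} ≤ m
  · have hk1 := inner_pos hT (by omega)
    refine all_linear_block hT hk1 le_rfl (hs.trans hmn) G hG (m := m) (by omega) ?_
    exact (factor_blocks (by omega) le_rfl hf).mono fun μ h => h.1
  · refine h1 n m hm1 T hT ?_ V G hG (Or.inl ⟨hp, ?_⟩)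
    · have h3 : (m : ℝ) ≤ 10 ^ 10 * (Nat.card {u // IsInner T u} : ℝ) := by
        have h4 : m ≤ 10 ^ 10 * Nat.card {u // IsInner T u} := by omega
        exact_mod_cast h4
      have h5 : ε' * m ≤ 1 / 10 ^ 10 * m :=
        mul_le_mul_of_nonneg_right (min_le_right _ _) (Nat.cast_nonneg _)
      refine h5.trans ?_
      rw [div_mul_eq_mul_div, one_mul, div_le_iff₀ (by positivity), mul_comm]
      exact h3
    · rcases hk with h | h
      · left
        refine h.trans ?_
        refine mul_le_mul_of_nonneg_right ?_ (Nat.cast_nonneg _)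
        have : ε' ≤ ε := min_le_left _ _
        linarith
      · exact Or.inr h

end KN

end Pool.Agent.Lib.MP_c5b475_co
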