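import Pool.Agent.Lib.MP_c5b475_co.KN.CvD
import Pool.Agent.Lib.MP_c5b475_co.KN.HstD

/-!
# KN/CvS: splitting the parts of hosts divided into coverings of `K_{μ,μ}`
-/

set_option autoImplicit false

namespace Pool.Agent.Lib.MP_c5b475_co

/-- index of the block of the colour `c < μ` -/
def cvIdx (m0 μ c : ℕ) : ℕ := min (c / m0) (μ / m0 - 1)

/-- size of the block `i` -/
def cvSz (m0 μ i : ℕ) : ℕ := if i + 1 = μ / m0 then μ - m0 * i else m0

theorem cvSz_bounds {m0 μ i : ℕ} (h0 : 1 ≤ m0) : m0 ≤ cvSz m0 μ i ∧ cvSz m0 μ i < 2 * m0 := by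
  unfold cvSz
  split_ifs with h
  · have h1 := Nat.div_add_mod μ m0
    have h2 := Nat.mod_lt μ (show m0 > 0 by omega)
    rw [← h] at h1
    have h3 : m0 * (i + 1) = m0 * i + m0 := by ring
    omega
  · omega

theorem cv_pos {m0 μ c : ℕ} (h0 : 1 ≤ m0) (hμ : m0 ≤ μ) (hc : c < μ) :
    m0 * cvIdx m0 μ c ≤ c ∧ c - m0 * cvIdx m0 μ c < cvSz m0 μ (cvIdx m0 μ c) := by
  have h1 := Nat.div_add_mod μ m0
  have h2 := Nat.mod_lt μ (show m0 > 0 by omega)
  have h3 := Nat.div_add_mod c m0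
  have h4 := Nat.mod_lt c (show m0 > 0 by omega)
  have h5 : 1 ≤ μ / m0 := (Nat.one_le_div_iff (by omega)).2 hμ
  have h6 : c / m0 ≤ μ / m0 := Nat.div_le_div_right hc.le
  have h7 : m0 * cvIdx m0 μ c ≤ m0 * (c / m0) := Nat.mul_le_mul_left _ (min_le_left _ _)
  refine ⟨by omega, ?_⟩
  unfold cvSz
  by_cases h8 : c / m0 ≤ μ / m0 - 1
  · have h9 : cvIdx m0 μ c = c / m0 := min_eq_left h8
    rw [h9]
    split_ifs with h
    · omega
    · omega
  · have h9 : cvIdx m0 μ c = μ / m0 - 1 := min_eq_right (by omega)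
    rw [h9, if_pos (by omega)]
    have h10 : m0 * (μ / m0 - 1) ≤ m0 * (μ / m0) := Nat.mul_le_mul_left _ (by omega)
    have h11 : m0 * (μ / m0 - 1) ≤ m0 * (c / m0) := Nat.mul_le_mul_left _ (by omega)
    omega

theorem cv_inv {m0 μ i j : ℕ} (h0 : 1 ≤ m0) (hμ : m0 ≤ μ) (hi : i ≤ μ / m0 - 1)
    (hj : j < cvSz m0 μ i) : m0 * i + j < μ ∧ cvIdx m0 μ (m0 * i + j) = i := by
  have h1 := Nat.div_add_mod μ m0
  have h2 := Nat.mod_lt μ (show m0 > 0 by omega)
  have h5 : 1 ≤ μ / m0 := (Nat.one_le_div_iff (by omega)).2 hμ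
  have h3 : (m0 * i + j) / m0 = i + j / m0 := by
    rw [Nat.mul_add_div (by omega)]
  unfold cvSz at hj
  split_ifs at hj with h
  · have h4 : m0 * (i + 1) = m0 * i + m0 := by ring
    rw [← h] at h1
    refine ⟨by omega, ?_⟩
    unfold cvIdx
    rw [h3, ← h]
    have : i + 1 - 1 = i := by omega
    rw [this]
    exact min_eq_right (Nat.le_add_right _ _)
  · have h6 : j / m0 = 0 := Nat.div_eq_of_lt hj
    have h7 : m0 * (i + 1) ≤ m0 * (μ / m0) := Nat.mul_le_mul_left _ (by omega)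
    have h4 : m0 * (i + 1) = m0 * i + m0 := by ring
    refine ⟨by omega, ?_⟩
    unfold cvIdx
    rw [h3, h6, add_zero]
    exact min_eq_left hi

/-- Splitting the parts: only colours which differ by less than `2 m0` are needed. -/
theorem split_near {V : Type} {G : SimpleGraph V} {m0 : ℕ} (h0 : 1 ≤ m0) (B : Type) (μ : B → ℕ)
    (s : V → Bool) (bk : V → B) (lb : V → ℕ) (hμ : ∀ b, m0 ≤ μ b)
    (hs : ∀ x y, G.Adj x y → s x ≠ s y) (hlb : ∀ x, lb x < μ (bk x))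
    (h : ∀ x, ∀ j < μ (bk x), lb x < j + 2 * m0 → j < lb x + 2 * m0 →
      ∃! y, G.Adj x y ∧ bk y = bk x ∧ lb y = j) :
    CoverBlocks G (fun μ => m0 ≤ μ ∧ μ < 2 * m0) := by
  refine ⟨B × ℕ, fun p => cvSz m0 (μ p.1) p.2, s,
    fun x => (bk x, cvIdx m0 (μ (bk x)) (lb x)),
    fun x => lb x - m0 * cvIdx m0 (μ (bk x)) (lb x), fun p => cvSz_bounds h0, hs, ?_, ?_⟩
  · intro x
    exact (cv_pos h0 (hμ _) (hlb x)).2
  · intro x j hj
    have hj' : j < cvSz m0 (μ (bk x)) (cvIdx m0 (μ (bk x)) (lb x)) := hj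
    have hidx : cvIdx m0 (μ (bk x)) (lb x) ≤ μ (bk x) / m0 - 1 := min_le_right _ _
    obtain ⟨g1, g2⟩ := cv_inv h0 (hμ _) hidx hj'
    obtain ⟨g3, g4⟩ := cv_pos h0 (hμ (bk x)) (hlb x)
    have g5 := (cvSz_bounds (m0 := m0) (μ := μ (bk x)) (i := cvIdx m0 (μ (bk x)) (lb x)) h0).2
    obtain ⟨y, ⟨k1, k2, k3⟩, k4⟩ := h x _ g1 (by omega) (by omega)
    refine ⟨y, ⟨k1, ?_, ?_⟩, ?_⟩
    · show (bk y, cvIdx m0 (μ (bk y)) (lb y)) = (bk x, cvIdx m0 (μ (bk x)) (lb x))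
      rw [k3, k2, g2]
    · show lb y - m0 * cvIdx m0 (μ (bk y)) (lb y) = j
      rw [k3, k2, g2]
      omega
    · rintro z ⟨l1, l2, l3⟩
      have l2' : (bk z, cvIdx m0 (μ (bk z)) (lb z)) = (bk x, cvIdx m0 (μ (bk x)) (lb x)) := l2
      rw [Prod.mk.injEq] at l2'
      have l3' : lb z - m0 * cvIdx m0 (μ (bk z)) (lb z) = j := l3
      obtain ⟨l4, l5⟩ := l2'
      have l6 := (cv_pos h0 (hμ (bk z)) (hlb z)).1
      rw [l5] at l3' l6
      exact k4 z ⟨l1, l4, by omega⟩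

/-- Splitting parts which are coverings of `K_{μ,μ}`. -/
theorem split_cover {V : Type} {G : SimpleGraph V} {m m0 : ℕ} (h0 : 1 ≤ m0) (hm : m0 ≤ m)
    (hf : CoverBlocks G (fun μ => m ≤ μ)) : CoverBlocks G (fun μ => m0 ≤ μ ∧ μ < 2 * m0) := by
  obtain ⟨B, μ, s, bk, lb, h1, h2, h3, h4⟩ := hf
  exact split_near h0 B μ s bk lb (fun b => hm.trans (h1 b)) h2 h3 (fun x j hj _ _ => h4 x j hj)

theorem part_cover {V : Type} {G : SimpleGraph V} {m : ℕ} (hf : PartRegular G m) :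
    CoverBlocks G (fun μ => m ≤ μ) := by
  obtain ⟨B, s, bk, cl, h1, h2⟩ := hf
  refine ⟨B, fun _ => m, s, bk, fun x => (cl x : ℕ), fun _ => le_rfl, h1, fun x => (cl x).2, ?_⟩
  intro x j hj
  obtain ⟨y, ⟨g1, g2, g3⟩, g4⟩ := h2 x ⟨j, hj⟩
  refine ⟨y, ⟨g1, g2, ?_⟩, ?_⟩
  · show (cl y : ℕ) = j
    rw [g3]
  · rintro z ⟨k1, k2, k3⟩
    exact g4 z ⟨k1, k2, Fin.ext k3⟩

theorem crown_cover {V : Type} {G : SimpleGraph V} {m m0 : ℕ} (h0 : 1 ≤ m0) (hm : 4 * m0 ≤ m)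
    (hf : CrownRegular G m) : CoverBlocks G (fun μ => m0 ≤ μ ∧ μ < 2 * m0) := by
  obtain ⟨B, s, bk, cl, h1, h2, h3⟩ := hf
  have hs : ∀ u v, G.Adj u v → s v = !(s u) := by
    intro u v h
    have := h1 u v h
    revert this
    cases s u <;> cases s v <;> simp
  -- shifted colours on the side `false`
  let lb : V → ℕ := fun x => if s x = true then (cl x : ℕ) else
    if 2 * m0 ≤ (cl x : ℕ) then (cl x : ℕ) - 2 * m0 else (cl x : ℕ) + m - 2 * m0
  have lt : ∀ v, s v = true → lb v = (cl v : ℕ) := fun v h => if_pos h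
  have lf : ∀ v, s v = false → lb v =
      if 2 * m0 ≤ (cl v : ℕ) then (cl v : ℕ) - 2 * m0 else (cl v : ℕ) + m - 2 * m0 :=
    fun v h => if_neg (by rw [h]; simp)
  have hlb : ∀ x, lb x < m := by
    intro x
    have h4 := (cl x).2
    cases hx : s x
    · rw [lf x hx]
      split_ifs <;> omega
    · rw [lt x hx]
      exact h4
  refine split_near h0 B (fun _ => m) s bk lb (fun _ => by omega) h1 hlb ?_
  intro x j hj hj1 hj2
  have hj' : j < m := hj
  have hclx := (cl x).2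
  cases hx : s x
  · -- the neighbour is on the side `true`: colour `j`
    have hne : (⟨j, hj'⟩ : Fin m) ≠ cl x := by
      intro h
      have h4 := congrArg Fin.val h
      simp only at h4
      rw [lf x hx] at hj1 hj2
      split_ifs at hj1 hj2 <;> omega
    obtain ⟨y, ⟨g1, g2, g3⟩, g4⟩ := h2 x _ hne
    have hy := hs x y g1
    rw [hx] at hy
    refine ⟨y, ⟨g1, g2, ?_⟩, ?_⟩
    · rw [lt y hy, g3]
    · rintro z ⟨k1, k2, k3⟩
      have hz := hs x z k1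
      rw [hx] at hz
      rw [lt z hz] at k3
      exact g4 z ⟨k1, k2, Fin.ext k3⟩
  · -- the neighbour is on the side `false`: colour `j + 2 m0` modulo `m`
    rw [lt x hx] at hj1 hj2
    have hex : ∃ c : Fin m, ∀ c' : Fin m, (if 2 * m0 ≤ (c' : ℕ) then (c' : ℕ) - 2 * m0 else
        (c' : ℕ) + m - 2 * m0) = j ↔ c' = c := by
      by_cases h4 : j + 2 * m0 < m
      · refine ⟨⟨j + 2 * m0, h4⟩, fun c' => ?_⟩
        rw [Fin.ext_iff]
        have := c'.2
        simp only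
        split_ifs <;> omega
      · refine ⟨⟨j + 2 * m0 - m, by omega⟩, fun c' => ?_⟩
        rw [Fin.ext_iff]
        have := c'.2
        simp only
        split_ifs <;> omega
    obtain ⟨c, hc⟩ := hex
    have hne : c ≠ cl x := by
      intro h
      have h4 := (hc c).2 rfl
      rw [h] at h4
      split_ifs at h4 <;> omega
    obtain ⟨y, ⟨g1, g2, g3⟩, g4⟩ := h2 x _ hne
    have hy := hs x y g1
    rw [hx] at hy
    refine ⟨y, ⟨g1, g2, ?_⟩, ?_⟩
    · rw [lf y hy]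
      exact (hc (cl y)).2 g3
    · rintro z ⟨k1, k2, k3⟩
      have hz := hs x z k1
      rw [hx] at hz
      rw [lf z hz] at k3
      exact g4 z ⟨k1, k2, (hc (cl z)).1 k3⟩

end Pool.Agent.Lib.MP_c5b475_co
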