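import Pool.Agent.Lib.MP_c5b475_co.KN.Tree
import Pool.Agent.Lib.MP_c5b475_co.Defs
import Pool.Agent.Lib.MP_c5b475_co.Rooted

/-!
# KN/Dec: a labelling modulo `n` gives a decomposition of `K_{n,n}`
-/

set_option autoImplicit false

namespace Pool.Agent.Lib.MP_c5b475_co.KN

open Finset

/-- the graph of a rooted tree -/
def RTr.IsFor {U : Type} (t : RTr U) (T : SimpleGraph U) : Prop :=
  ∀ x y, T.Adj x y ↔ (x ≠ t.root ∧ t.par x = y) ∨ (y ≠ t.root ∧ t.par y = x)

/-- A finite tree can be rooted at any vertex. -/
theorem exists_rtr {U : Type} [Fintype U] [DecidableEq U] {T : SimpleGraph U} (hT : T.IsTree)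
    (c : U) : ∃ t : RTr U, t.root = c ∧ t.IsFor T := by
  obtain ⟨R, hR, _⟩ := exists_RT hT c
  subst hR
  have e0 : ∀ w, w ≠ R.c → R.dep w = R.dep (if w = R.c then R.c else R.par w) + 1 :=
    fun w hw => by rw [if_neg hw, R.dep_par w hw]
  refine ⟨⟨R.c, (fun u => if u = R.c then R.c else R.par u), R.dep, R.dep_c, if_pos rfl, e0⟩,
    rfl, fun x y => ?_⟩
  rw [R.adj_iff]
  constructor
  · rintro (⟨h1, h2⟩ | ⟨h1, h2⟩)
    · exact Or.inl ⟨h1, by simp only [if_neg h1]; exact h2.symm⟩
    · exact Or.inr ⟨h1, by simp only [if_neg h1]; exact h2.symm⟩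
  · rintro (⟨h1, h2⟩ | ⟨h1, h2⟩)
    · simp only [ne_eq] at h1
      simp only [if_neg h1] at h2
      exact Or.inl ⟨h1, h2.symm⟩
    · simp only [ne_eq] at h1
      simp only [if_neg h1] at h2
      exact Or.inr ⟨h1, h2.symm⟩

/-- A labelling with distinct labels on each side and distinct edge sums gives a decomposition of
`K_{n,n}` into `n` copies of the tree. -/
theorem dec {n : ℕ} [NeZero n] {U : Type} [Fintype U] [DecidableEq U] {T : SimpleGraph U}
    (t : RTr U) (hT : t.IsFor T) (hcard : Fintype.card U = n + 1) (sd : U → Bool)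
    (hsd : ∀ v, v ≠ t.root → sd v ≠ sd (t.par v)) (f : U → ZMod n)
    (hinj : ∀ u v, sd u = sd v → f u = f v → u = v)
    (hcol : ∀ u v, u ≠ t.root → v ≠ t.root → f u + f (t.par u) = f v + f (t.par v) → u = v) :
    Decomposes T (completeBipartiteGraph (Fin n) (Fin n)) := by
  classical
  have ec : Fintype.card (ZMod n) = Fintype.card (Fin n) := by
    rw [ZMod.card, Fintype.card_fin]
  set ε : ZMod n ≃ Fin n := Fintype.equivOfCardEq ec with hε
  set g : ZMod n → U → Fin n ⊕ Fin n := fun τ u =>
    if sd u = true then Sum.inl (ε (f u + τ)) else Sum.inr (ε (f u - τ)) with hg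
  have gt : ∀ τ u, sd u = true → g τ u = Sum.inl (ε (f u + τ)) := fun τ u h => by
    rw [hg]; simp only [if_pos h]
  have gf : ∀ τ u, sd u ≠ true → g τ u = Sum.inr (ε (f u - τ)) := fun τ u h => by
    rw [hg]; simp only [if_neg h]
  have ginj : ∀ τ, Function.Injective (g τ) := by
    intro τ u v h
    by_cases hu : sd u = true
    · by_cases hv : sd v = true
      · rw [gt τ u hu, gt τ v hv] at h
        have h1 := ε.injective (Sum.inl.inj h)
        exact hinj u v (hu.trans hv.symm) (add_right_cancel h1)
      · rw [gt τ u hu, gf τ v hv] at h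
        exact absurd h (by simp)
    · by_cases hv : sd v = true
      · rw [gf τ u hu, gt τ v hv] at h
        exact absurd h (by simp)
      · rw [gf τ u hu, gf τ v hv] at h
        have h1 := ε.injective (Sum.inr.inj h)
        have h2 : sd u = sd v := by
          rw [Bool.not_eq_true] at hu hv
          rw [hu, hv]
        exact hinj u v h2 (sub_left_injective h1)
  -- the two ends of an edge lie on different sides
  have hside : ∀ u v, T.Adj u v → sd u ≠ sd v := by
    intro u v h
    rcases (hT u v).1 h with ⟨h1, h2⟩ | ⟨h1, h2⟩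
    · rw [← h2]
      exact hsd u h1
    · rw [← h2]
      exact (hsd v h1).symm
  -- every colour occurs
  set Φ : {u : U // u ≠ t.root} → ZMod n := fun u => f u.1 + f (t.par u.1) with hΦ
  have hΦb : Function.Bijective Φ := by
    rw [Fintype.bijective_iff_injective_and_card]
    refine ⟨fun u v h => Subtype.ext (hcol u.1 v.1 u.2 v.2 h), ?_⟩
    rw [ZMod.card]
    have h1 := Fintype.card_subtype_compl (fun u : U => u = t.root)
    rw [Fintype.card_subtype_eq, hcard] at h1
    exact h1
  -- for each colour there is exactly one edge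
  have hedge : ∀ c : ZMod n, ∃ p q, sd p = true ∧ sd q ≠ true ∧ T.Adj p q ∧ f p + f q = c ∧
      ∀ u v, sd u = true → sd v ≠ true → T.Adj u v → f u + f v = c → u = p := by
    intro c
    obtain ⟨w, hw⟩ := hΦb.2 c
    have hun : ∀ u v, T.Adj u v → f u + f v = c → (u = w.1 ∧ v = t.par w.1) ∨
        (v = w.1 ∧ u = t.par w.1) := by
      intro u v h1 h2
      rcases (hT u v).1 h1 with ⟨h3, h4⟩ | ⟨h3, h4⟩
      · left
        have h5 : (⟨u, h3⟩ : {u : U // u ≠ t.root}) = w := hΦb.1 (by
          rw [hw]
          change f u + f (t.par u) = c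
          rw [h4]
          exact h2)
        rw [← h5]
        exact ⟨rfl, h4.symm⟩
      · right
        have h5 : (⟨v, h3⟩ : {u : U // u ≠ t.root}) = w := hΦb.1 (by
          rw [hw]
          change f v + f (t.par v) = c
          rw [h4, add_comm]
          exact h2)
        rw [← h5]
        exact ⟨rfl, h4.symm⟩
    have hadj : T.Adj w.1 (t.par w.1) := (hT _ _).2 (Or.inl ⟨w.2, rfl⟩)
    have hs := hsd w.1 w.2
    by_cases hw1 : sd w.1 = true
    · have hw2 : sd (t.par w.1) ≠ true := fun h => hs (hw1.trans h.symm)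
      refine ⟨w.1, t.par w.1, hw1, hw2, hadj, hw, fun u v hu hv h1 h2 => ?_⟩
      rcases hun u v h1 h2 with ⟨h3, _⟩ | ⟨h3, _⟩
      · exact h3
      · rw [h3] at hv
        exact absurd hw1 hv
    · have hw2 : sd (t.par w.1) = true := by
        by_contra h
        rw [Bool.not_eq_true] at hw1 h
        exact hs (hw1.trans h.symm)
      refine ⟨t.par w.1, w.1, hw2, hw1, hadj.symm, (add_comm _ _).trans hw,
        fun u v hu hv h1 h2 => ?_⟩
      rcases hun u v h1 h2 with ⟨h3, _⟩ | ⟨_, h3⟩
      · rw [h3] at hu
        exact absurd hu hw1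
      · exact h3
  have key : ∀ a b : Fin n, ∃! τ, (T.map (⟨g τ, ginj τ⟩ : U ↪ Fin n ⊕ Fin n)).Adj
      (Sum.inl a) (Sum.inr b) := by
    intro a b
    obtain ⟨p, q, hp, hq, hpq, hsum, huni⟩ := hedge (ε.symm a + ε.symm b)
    refine ⟨ε.symm a - f p, ?_, ?_⟩
    · simp only [SimpleGraph.map_adj]
      refine ⟨p, q, hpq, ?_, ?_⟩
      · change g _ p = Sum.inl a
        rw [gt _ p hp]
        congr 1
        rw [show f p + (ε.symm a - f p) = ε.symm a by abel]
        exact ε.apply_symm_apply a
      · change g _ q = Sum.inr b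
        rw [gf _ q hq]
        congr 1
        rw [show f q - (ε.symm a - f p) = (f p + f q) - ε.symm a by abel, hsum,
          show ε.symm a + ε.symm b - ε.symm a = ε.symm b by abel]
        exact ε.apply_symm_apply b
    · intro τ hτ
      simp only [SimpleGraph.map_adj] at hτ
      obtain ⟨u, v, huv, h1, h2⟩ := hτ
      change g τ u = Sum.inl a at h1
      change g τ v = Sum.inr b at h2
      have hu : sd u = true := by
        by_contra h
        rw [gf τ u h] at h1
        exact absurd h1 (by simp)
      have hv : sd v ≠ true := by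
        intro h
        rw [gt τ v h] at h2
        exact absurd h2 (by simp)
      rw [gt τ u hu] at h1
      rw [gf τ v hv] at h2
      have h3 : f u + τ = ε.symm a := by
        rw [Equiv.eq_symm_apply]
        exact Sum.inl.inj h1
      have h4 : f v - τ = ε.symm b := by
        rw [Equiv.eq_symm_apply]
        exact Sum.inr.inj h2
      have h5 := huni u v hu hv huv (by rw [← h3, ← h4]; abel)
      rw [← h3, h5]
      abel
  refine ⟨ZMod n, fun τ => ⟨g τ, ginj τ⟩, fun τ => ?_, fun e he => ?_⟩
  · intro x y h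
    rw [SimpleGraph.map_adj] at h
    obtain ⟨u, v, huv, rfl, rfl⟩ := h
    have hs := hside u v huv
    change (completeBipartiteGraph (Fin n) (Fin n)).Adj (g τ u) (g τ v)
    by_cases hu : sd u = true
    · have hv : sd v ≠ true := fun h => hs (hu.trans h.symm)
      rw [gt τ u hu, gf τ v hv]
      simp
    · have hv : sd v = true := by
        by_contra h
        rw [Bool.not_eq_true] at hu h
        exact hs (hu.trans h.symm)
      rw [gf τ u hu, gt τ v hv]
      simp
  · induction e using Sym2.ind with
    | _ x y =>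
      rw [SimpleGraph.mem_edgeSet] at he
      rcases x with a | b
      · rcases y with a' | b'
        · simp at he
        · obtain ⟨τ, h1, h2⟩ := key a b'
          exact ⟨τ, h1, h2⟩
      · rcases y with a' | b'
        · obtain ⟨τ, h1, h2⟩ := key a' b
          refine ⟨τ, ?_, fun τ' h => h2 τ' ?_⟩
          · exact (SimpleGraph.mem_edgeSet _).2 h1.symm
          · exact ((SimpleGraph.mem_edgeSet _).1 h).symm
        · simp at he

end Pool.Agent.Lib.MP_c5b475_co.KN
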