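import Mathlib

/-!
# KN/Defs: definitions for the main stage

`Aut`: a set of residues with small autocorrelation defect (mixing set). `Pcs`: a family of rooted
pieces, given as lists of steps. Step `t` of piece `i` chooses a label `y t` from the label set of
`ph i t`; its colour is `parent label + offset + y t`, of colour class `cl`. The parent label of step
`0` is a fixed residue (attached piece) or does not exist (free piece, no colour).
-/

set_option autoImplicit false

namespace Pool.Agent.Lib.MP_c5b475_co.KN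

open Finset

/-- small autocorrelation defect -/
def Aut {n : ℕ} [NeZero n] (θ : ℝ) (S : Finset (ZMod n)) : Prop :=
  ∑ s : ZMod n, |((S.filter fun x => x + s ∈ S).card : ℝ) - (S.card : ℝ) ^ 2 / n| ≤
    θ * (n : ℝ) ^ 2

/-- A family of rooted pieces. -/
structure Pcs (n : ℕ) (Φ Ψ I : Type) where
  /-- number of steps -/
  T : I → ℕ
  /-- label set used by a step -/
  ph : I → ℕ → Φ
  /-- attachment of the root: label of the attachment and colour class; `none` for a free piece -/
  att : I → Option (ZMod n × Ψ)
  /-- parent step of a step `t ≥ 1` -/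
  pr : I → ℕ → ℕ
  /-- offset of the edge from a step `t ≥ 1` to its parent -/
  ofs : I → ℕ → ZMod n
  /-- colour class of the edge from a step `t ≥ 1` to its parent -/
  cl : I → ℕ → Ψ

variable {n : ℕ} {Φ Ψ I : Type}

/-- colour (with its class) of step `t` of piece `i` under the labelling `y` of the steps -/
def Pcs.col (P : Pcs n Φ Ψ I) (i : I) (y : ℕ → ZMod n) (t : ℕ) : Option (ZMod n × Ψ) :=
  if t = 0 then (P.att i).map fun rc => (rc.1 + y 0, rc.2)
  else some (y (P.pr i t) + P.ofs i t + y t, P.cl i t)

/-- `y` is a correct embedding of piece `i` -/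
def Pcs.Good (P : Pcs n Φ Ψ I) (S : Φ → Finset (ZMod n)) (Q : Ψ → Finset (ZMod n)) (i : I)
    (y : ℕ → ZMod n) : Prop :=
  ∀ t < P.T i, y t ∈ S (P.ph i t) ∧ ∀ a ∈ P.col i y t, a.1 ∈ Q a.2

/-- the step `t` of piece `i` and the step `u` of piece `j` do not collide -/
def Pcs.Sep (P : Pcs n Φ Ψ I) (i : I) (y : ℕ → ZMod n) (t : ℕ) (j : I) (z : ℕ → ZMod n) (u : ℕ) :
    Prop :=
  (P.ph i t = P.ph j u → y t ≠ z u) ∧ ∀ a ∈ P.col i y t, a ∉ P.col j z u

/-- the attached pieces whose root has label set `φ` and colour class `c` -/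
def Pcs.cls [Fintype I] [DecidableEq Φ] [DecidableEq Ψ] (P : Pcs n Φ Ψ I) (φ : Φ) (c : Ψ) :
    Finset I :=
  univ.filter fun i => P.ph i 0 = φ ∧ (P.att i).map Prod.snd = some c

/-- label of the attachment (0 for a free piece) -/
def Pcs.rt (P : Pcs n Φ Ψ I) (i : I) : ZMod n := ((P.att i).map Prod.fst).getD 0

end Pool.Agent.Lib.MP_c5b475_co.KN
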