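import Pool.Agent.Lib.MP_c5b475_co.KN.Hg

/-!
# KN/Deg: the total excess of the degrees
-/

set_option autoImplicit false
set_option linter.unusedSectionVars false

namespace Pool.Agent.Lib.MP_c5b475_co.KN

open Finset NB

theorem max_sum_le {A : Type} (s : Finset A) (f : A → ℝ) :
    max (∑ a ∈ s, f a) 0 ≤ ∑ a ∈ s, max (f a) 0 :=
  max_le (Finset.sum_le_sum fun _ _ => le_max_left _ _)
    (Finset.sum_nonneg fun _ _ => le_max_right _ _)

/-- one group of vertices of the hypergraph -/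
theorem grp {I J : Type} [Fintype I] [Fintype J] (T : I → ℕ) (hT : ∀ i, 1 ≤ T i)
    (cp : I → ℕ → Prop) (f : I → ℕ → ℝ) {s : ℝ} (hs : 0 < s)
    (hload : ∑ i, ∑ t ∈ range (T i), ind (cp i t) ≤ s) (Cl : J → Finset I)
    (hcl : ∀ i, ind (cp i 0) * (f i 0 - 1 / s) = ∑ j, ind (i ∈ Cl j) * (f i 0 - 1 / s)) :
    max (∑ i, ∑ t ∈ range (T i), ind (cp i t) * f i t - 1) 0 ≤
      ∑ i, ∑ t ∈ range (T i), ind (1 ≤ t ∧ cp i t) * max (f i t - 1 / s) 0 +
        ∑ j, max (∑ i ∈ Cl j, (f i 0 - 1 / s)) 0 := by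
  classical
  have h1 : 0 ≤ ∑ i, ∑ t ∈ range (T i), ind (1 ≤ t ∧ cp i t) * max (f i t - 1 / s) 0 :=
    Finset.sum_nonneg fun i _ => Finset.sum_nonneg fun t _ =>
      mul_nonneg (ind_nonneg _) (le_max_right _ _)
  have h2 : 0 ≤ ∑ j, max (∑ i ∈ Cl j, (f i 0 - 1 / s)) 0 :=
    Finset.sum_nonneg fun j _ => le_max_right _ _
  refine max_le ?_ (add_nonneg h1 h2)
  have h3 : ∑ i, ∑ t ∈ range (T i), ind (cp i t) * f i t - 1 ≤
      ∑ i, ∑ t ∈ range (T i), ind (cp i t) * (f i t - 1 / s) := by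
    simp only [mul_sub, Finset.sum_sub_distrib]
    have h4 : ∑ i, ∑ t ∈ range (T i), ind (cp i t) * (1 / s) ≤ 1 := by
      simp only [← Finset.sum_mul]
      rw [mul_one_div, div_le_one hs]
      exact hload
    linarith
  refine le_trans h3 ?_
  have h4 : ∀ i, ∑ t ∈ range (T i), ind (cp i t) * (f i t - 1 / s) ≤
      ∑ t ∈ range (T i), ind (1 ≤ t ∧ cp i t) * max (f i t - 1 / s) 0 +
        ∑ j, ind (i ∈ Cl j) * (f i 0 - 1 / s) := by
    intro i
    rw [← hcl i]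
    obtain ⟨m, hm⟩ : ∃ m, T i = m + 1 := ⟨T i - 1, by have := hT i; omega⟩
    rw [hm, Finset.sum_range_succ', Finset.sum_range_succ']
    have h5 : ind (1 ≤ 0 ∧ cp i 0) = 0 := ind_neg (by omega)
    rw [h5, zero_mul, add_zero]
    refine add_le_add (Finset.sum_le_sum fun t _ => ?_) le_rfl
    have h6 : ind (1 ≤ t + 1 ∧ cp i (t + 1)) = ind (cp i (t + 1)) :=
      ind_congr ⟨fun h => h.2, fun h => ⟨by omega, h⟩⟩
    rw [h6]
    exact mul_le_mul_of_nonneg_left (le_max_left _ _) (ind_nonneg _)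
  refine le_trans (Finset.sum_le_sum fun i _ => h4 i) ?_
  rw [Finset.sum_add_distrib]
  refine add_le_add le_rfl ?_
  rw [Finset.sum_comm]
  refine Finset.sum_le_sum fun j _ => ?_
  refine le_trans (le_of_eq ?_) (le_max_left _ _)
  have h7 : ∀ i, ind (i ∈ Cl j) * (f i 0 - 1 / s) = if i ∈ Cl j then (f i 0 - 1 / s) else 0 := by
    intro i
    by_cases h : i ∈ Cl j
    · rw [ind_pos h, if_pos h, one_mul]
    · rw [ind_neg h, if_neg h, zero_mul]
  simp only [h7]
  rw [Finset.sum_ite_mem]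
  simp

variable {n : ℕ} [NeZero n] {Φm Φh Ψ I : Type} [Fintype Φm] [DecidableEq Φm]
  [Fintype Φh] [DecidableEq Φh] [Fintype Ψ] [DecidableEq Ψ] [Fintype I] [DecidableEq I]
  {S : Φm ⊕ Φh → Finset (ZMod n)} {Q : Ψ → Finset (ZMod n)}
  {P : Pcs n (Φm ⊕ Φh) Ψ I} {K : ℕ} {β κ₂ θ : ℝ}

theorem mem_cls {i : I} {φ : Φm ⊕ Φh} {ψ : Ψ} :
    i ∈ P.cls φ ψ ↔ P.ph i 0 = φ ∧ P.cc i 0 = some ψ := by
  unfold Pcs.cls Pcs.cc
  simp

theorem Hyp.Qcard_pos (H : Hyp S Q P K β κ₂ θ) (c : Ψ) : (0 : ℝ) < ((Q c).card : ℝ) := by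
  have hn := nR_pos (n := n)
  have := H.b0
  exact lt_of_lt_of_le (by positivity) (H.Qb c)

theorem base_zero (P : Pcs n (Φm ⊕ Φh) Ψ I) (i : I) (y : ℕ → ZMod n) : P.base i 0 y = P.rt i := by
  unfold Pcs.base
  rw [if_pos rfl]

theorem law_zero_none {i : I} (h : P.cc i 0 = none) (x : ZMod n) :
    law S Q P i 0 x = one (S (P.ph i 0)) x / ((S (P.ph i 0)).card : ℝ) := by
  rw [law_eq]
  change kt S Q P i 0 (fun _ => 0) x = _
  rw [kt_none h]

theorem law_zero_some {i : I} {ψ : Ψ} (h : P.cc i 0 = some ψ) (x : ZMod n) :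
    law S Q P i 0 x = ker (S (P.ph i 0)) (Q ψ) (P.rt i) x := by
  rw [law_eq]
  change kt S Q P i 0 (fun _ => 0) x = _
  rw [kt_some h, base_zero]

theorem Hyp.claw_zero_some (H : Hyp S Q P K β κ₂ θ) {i : I} {ψ : Ψ} (h : P.cc i 0 = some ψ)
    (c : ZMod n) : claw S Q P i 0 c = ker (S (P.ph i 0)) (Q ψ) (P.rt i) (c - P.rt i) := by
  rw [H.claw_eq]
  change kt S Q P i 0 (fun _ => 0) (c - P.base i 0 (fun _ => 0)) = _
  rw [kt_some h, base_zero]

/-- grouping of the attached roots -/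
theorem grp_cls (i : I) (φ : Φm ⊕ Φh) (v : ℝ) (h : P.cc i 0 = none → P.ph i 0 = φ → v = 0) :
    ind (P.ph i 0 = φ) * v = ∑ ψ : Ψ, ind (i ∈ P.cls φ ψ) * v := by
  have h1 : ∀ ψ, ind (i ∈ P.cls φ ψ) = ind (P.ph i 0 = φ) * (if P.cc i 0 = some ψ then 1 else 0) := by
    intro ψ
    by_cases h2 : P.ph i 0 = φ
    · by_cases h3 : P.cc i 0 = some ψ
      · rw [ind_pos (mem_cls.2 ⟨h2, h3⟩), ind_pos h2, if_pos h3, one_mul]
      · rw [ind_neg (fun H => h3 (mem_cls.1 H).2), if_neg h3, mul_zero]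
    · rw [ind_neg (fun H => h2 (mem_cls.1 H).1), ind_neg h2, zero_mul]
  simp only [h1]
  cases h4 : P.cc i 0 with
  | none =>
    by_cases h2 : P.ph i 0 = φ
    · rw [h h4 h2]
      simp
    · rw [ind_neg h2]
      simp
  | some ψ =>
    simp only [Option.some.injEq]
    rw [← Finset.sum_mul, ← Finset.mul_sum]
    simp

theorem grp_cls' (i : I) (ψ : Ψ) (v : ℝ) :
    ind (P.cc i 0 = some ψ) * v = ∑ φ : Φm ⊕ Φh, ind (i ∈ P.cls φ ψ) * v := by
  have h1 : ∀ φ, ind (i ∈ P.cls φ ψ) = ind (P.cc i 0 = some ψ) * (if P.ph i 0 = φ then 1 else 0) := by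
    intro φ
    by_cases h3 : P.cc i 0 = some ψ
    · by_cases h2 : P.ph i 0 = φ
      · rw [ind_pos (mem_cls.2 ⟨h2, h3⟩), ind_pos h3, if_pos h2, one_mul]
      · rw [ind_neg (fun H => h2 (mem_cls.1 H).1), if_neg h2, mul_zero]
    · rw [ind_neg (fun H => h3 (mem_cls.1 H).2), ind_neg h3, zero_mul]
  simp only [h1]
  rw [← Finset.sum_mul, ← Finset.mul_sum, Finset.sum_ite_eq]
  simp

theorem sum_ind_filter {A : Type} (s : Finset A) (p : A → Prop) [DecidablePred p] :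
    ∑ a ∈ s, ind (p a) = ((s.filter p).card : ℝ) := by
  rw [Finset.card_filter]
  push_cast
  refine Finset.sum_congr rfl fun a _ => ?_
  by_cases h : p a
  · rw [ind_pos h, if_pos h]
  · rw [ind_neg h, if_neg h]

/-- excess of the labels in one label set -/
theorem Hyp.lab_exc (H : Hyp S Q P K β κ₂ θ) (φ : Φm ⊕ Φh)
    (hload : ∑ i, ((range (P.T i)).filter fun t => P.ph i t = φ).card ≤ (S φ).card)
    {x : ZMod n} (hx : x ∈ S φ) :
    max (∑ i, ∑ t ∈ range (P.T i), ind (P.ph i t = φ) * law S Q P i t x - 1) 0 ≤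
      ∑ i, ∑ t ∈ range (P.T i), ind (1 ≤ t ∧ P.ph i t = φ) *
        max (law S Q P i t x - 1 / ((S φ).card : ℝ)) 0 +
      ∑ ψ, max (∑ i ∈ P.cls φ ψ, (law S Q P i 0 x - 1 / ((S φ).card : ℝ))) 0 := by
  refine grp P.T H.T1 (fun i t => P.ph i t = φ) (fun i t => law S Q P i t x) (H.card_pos φ) ?_
    (fun ψ => P.cls φ ψ) ?_
  · simp only [sum_ind_filter]
    exact_mod_cast hload
  · intro i
    refine grp_cls i φ _ fun h1 h2 => ?_
    rw [law_zero_none h1, h2, one_of_mem hx, sub_self]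

/-- excess of the colours in one colour class -/
theorem Hyp.col_exc (H : Hyp S Q P K β κ₂ θ) (ψ : Ψ)
    (hload : (univ.filter fun i => (P.att i).map Prod.snd = some ψ).card +
        ∑ i, ((range (P.T i)).filter fun t => 1 ≤ t ∧ P.cl i t = ψ).card ≤ (Q ψ).card)
    (c : ZMod n) :
    max (∑ i, ∑ t ∈ range (P.T i), ind (P.cc i t = some ψ) * claw S Q P i t c - 1) 0 ≤
      ∑ i, ∑ t ∈ range (P.T i), ind (1 ≤ t ∧ P.cc i t = some ψ) *
        max (claw S Q P i t c - 1 / ((Q ψ).card : ℝ)) 0 +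
      ∑ φ, max (∑ i ∈ P.cls φ ψ, (claw S Q P i 0 c - 1 / ((Q ψ).card : ℝ))) 0 := by
  refine grp P.T H.T1 (fun i t => P.cc i t = some ψ) (fun i t => claw S Q P i t c)
    (H.Qcard_pos ψ) ?_ (fun φ => P.cls φ ψ) ?_
  · have h1 : ∀ i, ∑ t ∈ range (P.T i), ind (P.cc i t = some ψ) =
        (if (P.att i).map Prod.snd = some ψ then (1 : ℝ) else 0) +
          (((range (P.T i)).filter fun t => 1 ≤ t ∧ P.cl i t = ψ).card : ℝ) := by
      intro i
      rw [← sum_ind_filter]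
      obtain ⟨m, hm⟩ : ∃ m, P.T i = m + 1 := ⟨P.T i - 1, by have := H.T1 i; omega⟩
      rw [hm, Finset.sum_range_succ', Finset.sum_range_succ']
      have h5 : ind (1 ≤ 0 ∧ P.cl i 0 = ψ) = 0 := ind_neg (by omega)
      rw [h5, add_zero, add_comm]
      congr 1
      · by_cases h : (P.att i).map Prod.snd = some ψ
        · rw [if_pos h]
          exact ind_pos (by unfold Pcs.cc; simpa using h)
        · rw [if_neg h]
          exact ind_neg (by unfold Pcs.cc; simpa using h)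
      · refine Finset.sum_congr rfl fun t _ => ?_
        rw [cc_pos P i (by omega)]
        exact ind_congr ⟨fun h => ⟨by omega, Option.some.inj h⟩, fun h => by rw [h.2]⟩
    simp only [h1]
    rw [Finset.sum_add_distrib]
    have h2 : (((univ.filter fun i => (P.att i).map Prod.snd = some ψ).card : ℕ) : ℝ) +
        ((∑ i, ((range (P.T i)).filter fun t => 1 ≤ t ∧ P.cl i t = ψ).card : ℕ) : ℝ) ≤
        ((Q ψ).card : ℝ) := by exact_mod_cast hload
    push_cast at h2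
    rw [Finset.card_filter] at h2
    push_cast at h2
    exact h2
  · intro i
    exact grp_cls' i ψ _

/-- error of one non-root step -/
noncomputable def E1 (β κ₂ θ : ℝ) : ℝ := CC β κ₂ * √θ * (1 / β ^ 2)

theorem Hyp.E1_nonneg (H : Hyp S Q P K β κ₂ θ) : 0 ≤ E1 β κ₂ θ := by
  have := H.CC_pos
  have := H.b0
  unfold E1
  positivity

theorem Hyp.cls_lab (H : Hyp S Q P K β κ₂ θ) {κ : ℝ} (φ : Φm ⊕ Φh) (ψ : Ψ)
    (R1 : ∀ φ c, ∑ y : ZMod n, |(((P.cls (Sum.inl φ) c).filter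
        fun i => P.rt i + y ∈ Q c).card : ℝ) -
        (P.cls (Sum.inl φ) c).card * (Q c).card / n| ≤ κ * (n : ℝ) ^ 2) :
    ∑ x ∈ S φ, max (∑ i ∈ P.cls φ ψ, (law S Q P i 0 x - 1 / ((S φ).card : ℝ))) 0 ≤
      if φ.isLeft then κ * (1 / β ^ 2) * n else 0 := by
  have hn := nR_pos (n := n)
  rcases φ with φ | h
  · simp only [Sum.isLeft_inl, if_true]
    have hi := H.idl_pos φ ψ
    have h1 : ∀ x ∈ S (Sum.inl φ), max (∑ i ∈ P.cls (Sum.inl φ) ψ,
        (law S Q P i 0 x - 1 / ((S (Sum.inl φ)).card : ℝ))) 0 ≤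
        |(((P.cls (Sum.inl φ) ψ).filter fun i => P.rt i + x ∈ Q ψ).card : ℝ) -
        (P.cls (Sum.inl φ) ψ).card * (Q ψ).card / n| / idl (S (Sum.inl φ)) (Q ψ) := by
      intro x hx
      refine max_le ?_ (by positivity)
      have h2 : ∀ i ∈ P.cls (Sum.inl φ) ψ, law S Q P i 0 x ≤
          one (Q ψ) (P.rt i + x) / idl (S (Sum.inl φ)) (Q ψ) := by
        intro i hi'
        obtain ⟨h3, h4⟩ := mem_cls.1 hi'
        rw [law_zero_some h4, h3]
        have := ker_le_one_mul hi (P.rt i) x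
        rwa [one_of_mem hx, one_mul] at this
      rw [Finset.sum_sub_distrib, Finset.sum_const, nsmul_eq_mul]
      have h3 : ∑ i ∈ P.cls (Sum.inl φ) ψ, law S Q P i 0 x ≤
          (((P.cls (Sum.inl φ) ψ).filter fun i => P.rt i + x ∈ Q ψ).card : ℝ) /
            idl (S (Sum.inl φ)) (Q ψ) := by
        refine le_trans (Finset.sum_le_sum h2) (le_of_eq ?_)
        rw [← Finset.sum_div]
        congr 1
        rw [Finset.card_filter]
        push_cast
        rfl
      have h4 : ((P.cls (Sum.inl φ) ψ).card : ℝ) * (1 / ((S (Sum.inl φ)).card : ℝ)) =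
          ((P.cls (Sum.inl φ) ψ).card * (Q ψ).card / n) / idl (S (Sum.inl φ)) (Q ψ) := by
        have h5 := (one_idl_mul hi).1
        have h6 := (one_idl_mul hi).2
        unfold idl
        field_simp
      rw [h4]
      refine le_trans (sub_le_sub_right h3 _) ?_
      rw [← sub_div]
      exact div_le_div_of_nonneg_right (le_abs_self _) hi.le
    refine le_trans (Finset.sum_le_sum h1) ?_
    rw [← Finset.sum_div]
    have h2 : ∑ x ∈ S (Sum.inl φ), |(((P.cls (Sum.inl φ) ψ).filter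
        fun i => P.rt i + x ∈ Q ψ).card : ℝ) - (P.cls (Sum.inl φ) ψ).card * (Q ψ).card / n| ≤
        κ * (n : ℝ) ^ 2 :=
      le_trans (Finset.sum_le_sum_of_subset_of_nonneg (Finset.subset_univ _)
        fun x _ _ => abs_nonneg _) (R1 φ ψ)
    refine le_trans (div_le_div_of_nonneg_right h2 hi.le) ?_
    have hκ : 0 ≤ κ * (n : ℝ) := by
      have h3 : 0 ≤ κ * (n : ℝ) ^ 2 := le_trans (Finset.sum_nonneg fun x _ => abs_nonneg _) h2
      have h4 : κ * (n : ℝ) ^ 2 = (κ * n) * n := by ring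
      rw [h4] at h3
      exact nonneg_of_mul_nonneg_left h3 hn
    have h3 := H.div_idl φ ψ hκ
    have h4 : κ * (n : ℝ) ^ 2 = κ * n * n := by ring
    rw [h4]
    refine le_trans h3 (le_of_eq ?_)
    ring
  · simp only [Sum.isLeft_inr, Bool.false_eq_true, if_false]
    have h1 : P.cls (Sum.inr h) ψ = ∅ := by
      rw [Finset.eq_empty_iff_forall_notMem]
      intro i hi
      obtain ⟨h3, h4⟩ := mem_cls.1 hi
      obtain ⟨φ, hφ⟩ := H.cc_inl h4
      rw [hφ] at h3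
      exact absurd h3 (by simp)
    rw [h1]
    simp

theorem sum_isLeft (v : ℝ) :
    ∑ φ : Φm ⊕ Φh, (if φ.isLeft then v else 0) = Fintype.card Φm * v := by
  rw [Fintype.sum_sum_type]
  simp

/-- total excess of the labels -/
theorem Hyp.lab_tot (H : Hyp S Q P K β κ₂ θ) {κ : ℝ}
    (hload : ∀ φ, ∑ i, ((range (P.T i)).filter fun t => P.ph i t = φ).card ≤ (S φ).card)
    (R1 : ∀ φ c, ∑ y : ZMod n, |(((P.cls (Sum.inl φ) c).filter
        fun i => P.rt i + y ∈ Q c).card : ℝ) -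
        (P.cls (Sum.inl φ) c).card * (Q c).card / n| ≤ κ * (n : ℝ) ^ 2) :
    ∑ φ, ∑ x ∈ S φ, max (∑ i, ∑ t ∈ range (P.T i), ind (P.ph i t = φ) *
      law S Q P i t x - 1) 0 ≤
      (∑ i, (P.T i : ℝ)) * E1 β κ₂ θ +
        Fintype.card Φm * (Fintype.card Ψ * (κ * (1 / β ^ 2) * n)) := by
  have h1 : ∀ φ, ∑ x ∈ S φ, max (∑ i, ∑ t ∈ range (P.T i), ind (P.ph i t = φ) *
      law S Q P i t x - 1) 0 ≤
      ∑ i, ∑ t ∈ range (P.T i), ind (1 ≤ t ∧ P.ph i t = φ) *
        (∑ x ∈ S φ, max (law S Q P i t x - 1 / ((S φ).card : ℝ)) 0) +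
      ∑ ψ : Ψ, (if φ.isLeft then κ * (1 / β ^ 2) * n else 0) := by
    intro φ
    refine le_trans (Finset.sum_le_sum fun x hx => H.lab_exc φ (hload φ) hx) ?_
    rw [Finset.sum_add_distrib]
    refine add_le_add (le_of_eq ?_) ?_
    · rw [Finset.sum_comm]
      refine Finset.sum_congr rfl fun i _ => ?_
      rw [Finset.sum_comm]
      refine Finset.sum_congr rfl fun t _ => ?_
      rw [Finset.mul_sum]
    · rw [Finset.sum_comm]
      exact Finset.sum_le_sum fun ψ _ => H.cls_lab φ ψ R1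
  refine le_trans (Finset.sum_le_sum fun φ _ => h1 φ) ?_
  rw [Finset.sum_add_distrib]
  refine add_le_add ?_ ?_
  · rw [Finset.sum_comm, Finset.sum_mul]
    refine Finset.sum_le_sum fun i _ => ?_
    rw [Finset.sum_comm]
    have h2 : ∀ t ∈ range (P.T i), ∑ φ, ind (1 ≤ t ∧ P.ph i t = φ) *
        (∑ x ∈ S φ, max (law S Q P i t x - 1 / ((S φ).card : ℝ)) 0) ≤ E1 β κ₂ θ := by
      intro t _
      by_cases ht : 1 ≤ t
      · have h3 : ∀ φ, ind (1 ≤ t ∧ P.ph i t = φ) *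
            (∑ x ∈ S φ, max (law S Q P i t x - 1 / ((S φ).card : ℝ)) 0) =
            if P.ph i t = φ then
              (∑ x ∈ S φ, max (law S Q P i t x - 1 / ((S φ).card : ℝ)) 0) else 0 := by
          intro φ
          by_cases h4 : P.ph i t = φ
          · rw [ind_pos ⟨ht, h4⟩, if_pos h4, one_mul]
          · rw [ind_neg (fun h => h4 h.2), if_neg h4, zero_mul]
        simp only [h3]
        rw [Finset.sum_ite_eq]
        simp only [Finset.mem_univ, if_true]
        refine le_trans (le_of_eq (Finset.sum_congr rfl fun x hx => ?_))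
          (le_trans (Finset.sum_le_sum_of_subset_of_nonneg (Finset.subset_univ (S (P.ph i t)))
            (f := fun x => max (law S Q P i t x -
              one (S (P.ph i t)) x / ((S (P.ph i t)).card : ℝ)) 0)
            fun x _ _ => le_max_right _ _) (H.law_exc i ht))
        rw [one_of_mem hx]
      · have h3 : ∀ φ, ind (1 ≤ t ∧ P.ph i t = φ) = 0 := fun φ => ind_neg fun h => ht h.1
        simp only [h3, zero_mul, Finset.sum_const_zero]
        exact H.E1_nonneg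
    refine le_trans (Finset.sum_le_sum h2) (le_of_eq ?_)
    simp
  · rw [Finset.sum_comm]
    simp only [sum_isLeft]
    simp
    exact le_of_eq (by ring)

end Pool.Agent.Lib.MP_c5b475_co.KN
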