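import Pool.Agent.Lib.MP_c5b475_co.KN.Deg

/-!
# KN/Deg2: the total excess of the degrees, colours and conclusion
-/

set_option autoImplicit false
set_option linter.unusedSectionVars false

namespace Pool.Agent.Lib.MP_c5b475_co.KN

open Finset NB

variable {n : ℕ} [NeZero n] {Φm Φh Ψ I : Type} [Fintype Φm] [DecidableEq Φm]
  [Fintype Φh] [DecidableEq Φh] [Fintype Ψ] [DecidableEq Ψ] [Fintype I] [DecidableEq I]
  {S : Φm ⊕ Φh → Finset (ZMod n)} {Q : Ψ → Finset (ZMod n)}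
  {P : Pcs n (Φm ⊕ Φh) Ψ I} {K : ℕ} {β κ₂ θ : ℝ}

theorem Hyp.cls_col (H : Hyp S Q P K β κ₂ θ) {κ : ℝ} (φ : Φm ⊕ Φh) (ψ : Ψ)
    (R2 : ∀ φ c, ∑ y : ZMod n, |(((P.cls (Sum.inl φ) c).filter
        fun i => y - P.rt i ∈ S (Sum.inl φ)).card : ℝ) -
        (P.cls (Sum.inl φ) c).card * (S (Sum.inl φ)).card / n| ≤ κ * (n : ℝ) ^ 2) :
    ∑ c ∈ Q ψ, max (∑ i ∈ P.cls φ ψ, (claw S Q P i 0 c - 1 / ((Q ψ).card : ℝ))) 0 ≤
      if φ.isLeft then κ * (1 / β ^ 2) * n else 0 := by
  have hn := nR_pos (n := n)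
  rcases φ with φ | h
  · simp only [Sum.isLeft_inl, if_true]
    have hi := H.idl_pos φ ψ
    have h1 : ∀ c ∈ Q ψ, max (∑ i ∈ P.cls (Sum.inl φ) ψ,
        (claw S Q P i 0 c - 1 / ((Q ψ).card : ℝ))) 0 ≤
        |(((P.cls (Sum.inl φ) ψ).filter fun i => c - P.rt i ∈ S (Sum.inl φ)).card : ℝ) -
        (P.cls (Sum.inl φ) ψ).card * (S (Sum.inl φ)).card / n| / idl (S (Sum.inl φ)) (Q ψ) := by
      intro c hc
      refine max_le ?_ (by positivity)
      have h2 : ∀ i ∈ P.cls (Sum.inl φ) ψ, claw S Q P i 0 c ≤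
          one (S (Sum.inl φ)) (c - P.rt i) / idl (S (Sum.inl φ)) (Q ψ) := by
        intro i hi'
        obtain ⟨h3, h4⟩ := mem_cls.1 hi'
        rw [H.claw_zero_some h4, h3]
        have h5 := ker_le_one_mul hi (P.rt i) (c - P.rt i)
        have h6 : P.rt i + (c - P.rt i) = c := by abel
        rwa [h6, one_of_mem hc, mul_one] at h5
      rw [Finset.sum_sub_distrib, Finset.sum_const, nsmul_eq_mul]
      have h3 : ∑ i ∈ P.cls (Sum.inl φ) ψ, claw S Q P i 0 c ≤
          (((P.cls (Sum.inl φ) ψ).filter fun i => c - P.rt i ∈ S (Sum.inl φ)).card : ℝ) /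
            idl (S (Sum.inl φ)) (Q ψ) := by
        refine le_trans (Finset.sum_le_sum h2) (le_of_eq ?_)
        rw [← Finset.sum_div]
        congr 1
        rw [Finset.card_filter]
        push_cast
        rfl
      have h4 : ((P.cls (Sum.inl φ) ψ).card : ℝ) * (1 / ((Q ψ).card : ℝ)) =
          ((P.cls (Sum.inl φ) ψ).card * (S (Sum.inl φ)).card / n) /
            idl (S (Sum.inl φ)) (Q ψ) := by
        have h5 := (one_idl_mul hi).1
        have h6 := (one_idl_mul hi).2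
        unfold idl
        field_simp
      rw [h4]
      refine le_trans (sub_le_sub_right h3 _) ?_
      rw [← sub_div]
      exact div_le_div_of_nonneg_right (le_abs_self _) hi.le
    refine le_trans (Finset.sum_le_sum h1) ?_
    rw [← Finset.sum_div]
    have h2 : ∑ c ∈ Q ψ, |(((P.cls (Sum.inl φ) ψ).filter
        fun i => c - P.rt i ∈ S (Sum.inl φ)).card : ℝ) -
        (P.cls (Sum.inl φ) ψ).card * (S (Sum.inl φ)).card / n| ≤ κ * (n : ℝ) ^ 2 :=
      le_trans (Finset.sum_le_sum_of_subset_of_nonneg (Finset.subset_univ _)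
        fun x _ _ => abs_nonneg _) (R2 φ ψ)
    refine le_trans (div_le_div_of_nonneg_right h2 hi.le) ?_
    have hκ : 0 ≤ κ * (n : ℝ) := by
      have h3 : 0 ≤ κ * (n : ℝ) ^ 2 := le_trans (Finset.sum_nonneg fun x _ => abs_nonneg _) h2
      have h4 : κ * (n : ℝ) ^ 2 = (κ * n) * n := by ring
      rw [h4] at h3
      exact nonneg_of_mul_nonneg_left h3 hn
    have h3 := H.div_idl φ ψ hκ
    have h4 : κ * (n : ℝ) ^ 2 = κ * n * n := by ring
    rw [h4]
    refine le_trans h3 (le_of_eq ?_)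
    ring
  · simp only [Sum.isLeft_inr, Bool.false_eq_true, if_false]
    have h1 : P.cls (Sum.inr h) ψ = ∅ := by
      rw [Finset.eq_empty_iff_forall_notMem]
      intro i hi
      obtain ⟨h3, h4⟩ := mem_cls.1 hi
      obtain ⟨φ, hφ⟩ := H.cc_inl h4
      rw [hφ] at h3
      exact absurd h3 (by simp)
    rw [h1]
    simp

/-- total excess of the colours -/
theorem Hyp.col_tot (H : Hyp S Q P K β κ₂ θ) {κ : ℝ}
    (hload : ∀ ψ, (univ.filter fun i => (P.att i).map Prod.snd = some ψ).card +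
        ∑ i, ((range (P.T i)).filter fun t => 1 ≤ t ∧ P.cl i t = ψ).card ≤ (Q ψ).card)
    (R2 : ∀ φ c, ∑ y : ZMod n, |(((P.cls (Sum.inl φ) c).filter
        fun i => y - P.rt i ∈ S (Sum.inl φ)).card : ℝ) -
        (P.cls (Sum.inl φ) c).card * (S (Sum.inl φ)).card / n| ≤ κ * (n : ℝ) ^ 2) :
    ∑ ψ, ∑ c ∈ Q ψ, max (∑ i, ∑ t ∈ range (P.T i), ind (P.cc i t = some ψ) *
      claw S Q P i t c - 1) 0 ≤
      (∑ i, (P.T i : ℝ)) * E1 β κ₂ θ +
        Fintype.card Φm * (Fintype.card Ψ * (κ * (1 / β ^ 2) * n)) := by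
  have h1 : ∀ ψ, ∑ c ∈ Q ψ, max (∑ i, ∑ t ∈ range (P.T i), ind (P.cc i t = some ψ) *
      claw S Q P i t c - 1) 0 ≤
      ∑ i, ∑ t ∈ range (P.T i), ind (1 ≤ t ∧ P.cc i t = some ψ) *
        (∑ c ∈ Q ψ, max (claw S Q P i t c - 1 / ((Q ψ).card : ℝ)) 0) +
      ∑ φ : Φm ⊕ Φh, (if φ.isLeft then κ * (1 / β ^ 2) * n else 0) := by
    intro ψ
    refine le_trans (Finset.sum_le_sum fun c _ => H.col_exc ψ (hload ψ) c) ?_
    rw [Finset.sum_add_distrib]
    refine add_le_add (le_of_eq ?_) ?_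
    · rw [Finset.sum_comm]
      refine Finset.sum_congr rfl fun i _ => ?_
      rw [Finset.sum_comm]
      refine Finset.sum_congr rfl fun t _ => ?_
      rw [Finset.mul_sum]
    · rw [Finset.sum_comm]
      exact Finset.sum_le_sum fun φ _ => H.cls_col φ ψ R2
  refine le_trans (Finset.sum_le_sum fun φ _ => h1 φ) ?_
  rw [Finset.sum_add_distrib]
  refine add_le_add ?_ ?_
  · rw [Finset.sum_comm, Finset.sum_mul]
    refine Finset.sum_le_sum fun i _ => ?_
    rw [Finset.sum_comm]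
    have h2 : ∀ t ∈ range (P.T i), ∑ ψ, ind (1 ≤ t ∧ P.cc i t = some ψ) *
        (∑ c ∈ Q ψ, max (claw S Q P i t c - 1 / ((Q ψ).card : ℝ)) 0) ≤ E1 β κ₂ θ := by
      intro t _
      by_cases ht : 1 ≤ t
      · have h3 : ∀ ψ, ind (1 ≤ t ∧ P.cc i t = some ψ) *
            (∑ c ∈ Q ψ, max (claw S Q P i t c - 1 / ((Q ψ).card : ℝ)) 0) =
            if P.cl i t = ψ then
              (∑ c ∈ Q ψ, max (claw S Q P i t c - 1 / ((Q ψ).card : ℝ)) 0) else 0 := by
          intro ψ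
          rw [cc_pos P i ht]
          by_cases h4 : P.cl i t = ψ
          · rw [ind_pos ⟨ht, by rw [h4]⟩, if_pos h4, one_mul]
          · rw [ind_neg (fun h => h4 (Option.some.inj h.2)), if_neg h4, zero_mul]
        simp only [h3]
        rw [Finset.sum_ite_eq]
        simp only [Finset.mem_univ, if_true]
        refine le_trans (le_of_eq (Finset.sum_congr rfl fun x hx => ?_))
          (le_trans (Finset.sum_le_sum_of_subset_of_nonneg (Finset.subset_univ (Q (P.cl i t)))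
            (f := fun x => max (claw S Q P i t x -
              one (Q (P.cl i t)) x / ((Q (P.cl i t)).card : ℝ)) 0)
            fun x _ _ => le_max_right _ _) (H.claw_exc i ht))
        rw [one_of_mem hx]
      · have h3 : ∀ ψ, ind (1 ≤ t ∧ P.cc i t = some ψ) = 0 := fun φ => ind_neg fun h => ht h.1
        simp only [h3, zero_mul, Finset.sum_const_zero]
        exact H.E1_nonneg
    refine le_trans (Finset.sum_le_sum h2) (le_of_eq ?_)
    simp
  · simp only [sum_isLeft]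
    simp
    exact le_of_eq (by ring)

theorem Hyp.tg_dep (H : Hyp S Q P K β κ₂ θ) (a : LC S Q) (i : I) (t : ℕ) :
    Dep t (fun y => tg P i t y a) := by
  rcases a with a | b
  · exact Dep.const t _
  · exact H.tgt_dep i t _

/-- total excess of the degrees -/
theorem Hyp.exc_tot (H : Hyp S Q P K β κ₂ θ) {κ : ℝ}
    (hload : ∀ φ, ∑ i, ((range (P.T i)).filter fun t => P.ph i t = φ).card ≤ (S φ).card)
    (hload' : ∀ ψ, (univ.filter fun i => (P.att i).map Prod.snd = some ψ).card +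
        ∑ i, ((range (P.T i)).filter fun t => 1 ≤ t ∧ P.cl i t = ψ).card ≤ (Q ψ).card)
    (R1 : ∀ φ c, ∑ y : ZMod n, |(((P.cls (Sum.inl φ) c).filter
        fun i => P.rt i + y ∈ Q c).card : ℝ) -
        (P.cls (Sum.inl φ) c).card * (Q c).card / n| ≤ κ * (n : ℝ) ^ 2)
    (R2 : ∀ φ c, ∑ y : ZMod n, |(((P.cls (Sum.inl φ) c).filter
        fun i => y - P.rt i ∈ S (Sum.inl φ)).card : ℝ) -
        (P.cls (Sum.inl φ) c).card * (S (Sum.inl φ)).card / n| ≤ κ * (n : ℝ) ^ 2) :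
    ∑ v : Tok S Q I, max (dg (vv S Q P) (ww S Q P) v - 1) 0 ≤
      2 * ((∑ i, (P.T i : ℝ)) * E1 β κ₂ θ +
        Fintype.card Φm * (Fintype.card Ψ * (κ * (1 / β ^ 2) * n))) := by
  rw [Fintype.sum_sum_type]
  have h0 : ∑ j : I, max (dg (vv S Q P) (ww S Q P) (Sum.inl j) - 1) 0 = 0 := by
    refine Finset.sum_eq_zero fun j _ => max_eq_right ?_
    rw [dg_inl P H.krn]
    have h1 := EX_mono (H.krn j) (P.T j) (g := fun y => ind (SepIn P j y)) (g' := fun _ => 1)
      fun y => ind_le_one _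
    have h2 := EX_one_le (H.krn j) (P.T j)
    linarith
  rw [h0, zero_add, Fintype.sum_sum_type, Fintype.sum_sigma, Fintype.sum_sigma, two_mul]
  refine add_le_add (le_trans ?_ (H.lab_tot hload R1)) (le_trans ?_ (H.col_tot hload' R2))
  · refine Finset.sum_le_sum fun φ _ => ?_
    rw [← Finset.sum_coe_sort (S φ)]
    refine Finset.sum_le_sum fun x _ => max_le_max_right 0 (sub_le_sub_right ?_ 1)
    exact dg_inr_le P H.krn (Sum.inl ⟨φ, x⟩) (H.tg_dep _)
  · refine Finset.sum_le_sum fun ψ _ => ?_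
    rw [← Finset.sum_coe_sort (Q ψ)]
    refine Finset.sum_le_sum fun x _ => max_le_max_right 0 (sub_le_sub_right ?_ 1)
    exact dg_inr_le P H.krn (Sum.inr ⟨ψ, x⟩) (H.tg_dep _)

end Pool.Agent.Lib.MP_c5b475_co.KN
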