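import Pool.Agent.Lib.MP_c5b475_co.KN.Cow
import Pool.Agent.Lib.MP_c5b475_co.NB.Nib
import Pool.Agent.Lib.MP_c5b475_co.NB.Clean

/-!
# KN/EApp: the nibble applied to the hypergraph of labelled pieces
-/

set_option autoImplicit false
set_option linter.unusedSectionVars false

namespace Pool.Agent.Lib.MP_c5b475_co.KN

open Finset NB

section good

variable {n : ℕ} [NeZero n] {Φ Ψ I : Type} [Fintype Φ] [DecidableEq Φ] [Fintype Ψ] [DecidableEq Ψ]
  [Fintype I] [DecidableEq I] {S : Φ → Finset (ZMod n)} {Q : Ψ → Finset (ZMod n)}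

theorem good_of_pos (P : Pcs n Φ Ψ I) (hk : ∀ i, Krn (kt S Q P i)) (e : Edg P)
    (h : 0 < ww S Q P e) : SepIn P e.1 (ext e.2) ∧ P.Good S Q e.1 (ext e.2) := by
  have h1 : SepIn P e.1 (ext e.2) := by
    by_contra h2
    unfold ww at h
    rw [ind_neg h2, zero_mul] at h
    exact lt_irrefl _ h
  refine ⟨h1, fun t ht => ?_⟩
  have h2 : 0 < Wt (kt S Q P e.1) e.2 := by
    unfold ww at h
    rw [ind_pos h1, one_mul] at h
    exact h
  have h3 : kt S Q P e.1 t (ext e.2) (ext e.2 t) ≠ 0 := by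
    intro h4
    have h5 : Wt (kt S Q P e.1) e.2 = 0 := by
      unfold Wt
      refine Finset.prod_eq_zero (Finset.mem_univ (⟨t, ht⟩ : Fin (P.T e.1))) ?_
      have h6 : ext e.2 t = e.2 ⟨t, ht⟩ := by
        unfold ext
        rw [dif_pos ht]
      rw [h6] at h4
      exact h4
    rw [h5] at h2
    exact lt_irrefl _ h2
  have h4 : 0 < kt S Q P e.1 t (ext e.2) (ext e.2 t) :=
    lt_of_le_of_ne ((hk _).nonneg _ _ _) (Ne.symm h3)
  cases hc : P.cc e.1 t with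
  | none =>
    rw [kt_none hc] at h4
    refine ⟨?_, ?_⟩
    · by_contra h5
      rw [one_of_notMem h5, zero_div] at h4
      exact lt_irrefl _ h4
    · rintro ⟨c, ψ⟩ ha
      have h5 := ((col_eq_some P e.1 t (ext e.2) c ψ).1 ha).1
      rw [hc] at h5
      exact absurd h5 (by simp)
  | some ψ =>
    rw [kt_some hc] at h4
    obtain ⟨h5, h6⟩ := ker_pos h4
    refine ⟨h5, ?_⟩
    rintro ⟨c, ψ'⟩ ha
    obtain ⟨h7, h8⟩ := (col_eq_some P e.1 t (ext e.2) c ψ').1 ha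
    rw [hc] at h7
    have h9 : ψ = ψ' := Option.some.inj h7
    subst h9
    rw [h8] at h6
    have h10 : P.base e.1 t (ext e.2) + (c - P.base e.1 t (ext e.2)) = c := by abel
    rw [h10] at h6
    exact h6

theorem sep_of_disjoint (P : Pcs n Φ Ψ I) {e f : Edg P}
    (hd : Disjoint (vv S Q P e) (vv S Q P f)) (he : P.Good S Q e.1 (ext e.2))
    {t u : ℕ} (ht : t < P.T e.1) (hu : u < P.T f.1) :
    P.Sep e.1 (ext e.2) t f.1 (ext f.2) u := by
  constructor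
  · intro h1 h2
    have h3 := (he t ht).1
    have h4 : (Sum.inr (Sum.inl ⟨P.ph e.1 t, ⟨ext e.2 t, h3⟩⟩) : Tok S Q I) ∈ vv S Q P e := by
      rw [mem_vv]
      exact ⟨t, ht, rfl, rfl⟩
    have h5 : (Sum.inr (Sum.inl ⟨P.ph e.1 t, ⟨ext e.2 t, h3⟩⟩) : Tok S Q I) ∈ vv S Q P f := by
      rw [mem_vv]
      exact ⟨u, hu, h1.symm, h2.symm⟩
    exact Finset.disjoint_left.1 hd h4 h5
  · rintro ⟨c, ψ⟩ ha hb
    have h3 : c ∈ Q ψ := (he t ht).2 (c, ψ) ha
    obtain ⟨h1, h2⟩ := (col_eq_some P e.1 t (ext e.2) c ψ).1 ha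
    obtain ⟨h1', h2'⟩ := (col_eq_some P f.1 u (ext f.2) c ψ).1 hb
    have h4 : (Sum.inr (Sum.inr ⟨ψ, ⟨c, h3⟩⟩) : Tok S Q I) ∈ vv S Q P e := by
      rw [mem_vv]
      exact ⟨t, ht, h1, h2⟩
    have h5 : (Sum.inr (Sum.inr ⟨ψ, ⟨c, h3⟩⟩) : Tok S Q I) ∈ vv S Q P f := by
      rw [mem_vv]
      exact ⟨u, hu, h1', h2'⟩
    exact Finset.disjoint_left.1 hd h4 h5

theorem card_tok :
    (Fintype.card (Tok S Q I) : ℝ) = Fintype.card I + (((∑ φ, (S φ).card : ℕ) : ℝ) +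
      ((∑ c, (Q c).card : ℕ) : ℝ)) := by
  have h : Fintype.card (Tok S Q I) = Fintype.card I + ((∑ φ, (S φ).card) +
      (∑ c, (Q c).card)) := by
    rw [Fintype.card_sum, Fintype.card_sum, Fintype.card_sigma, Fintype.card_sigma]
    simp
  rw [h]
  push_cast
  ring

/-- nibble applied to the hypergraph of labelled pieces -/
theorem apply_nibble (P : Pcs n Φ Ψ I) (hk : ∀ i, Krn (kt S Q P i)) {K : ℕ}
    (hK : ∀ i, P.T i ≤ K) {η κN : ℝ}
    (hN : ∀ (V E : Type) [Fintype V] [DecidableEq V] [Fintype E] [DecidableEq E]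
      (vs : E → Finset V) (w : E → ℝ) (I : Finset V), (∀ e, 0 ≤ w e) →
      (∀ e, (vs e).card ≤ 1 + 2 * K) → (∀ v, dg vs w v ≤ 1) →
      (∀ u v, u ≠ v → cw vs w u v ≤ κN) →
      ∃ M : Finset E, (∀ e ∈ M, 0 < w e) ∧
        (∀ e ∈ M, ∀ f ∈ M, e ≠ f → Disjoint (vs e) (vs f)) ∧
        ((I.filter fun i => ∀ e ∈ M, i ∉ vs e).card : ℝ) ≤
          2 * ∑ i ∈ I, (1 - dg vs w i) + η * (Fintype.card V : ℝ))
    (hc : ∀ u v, u ≠ v → cw (vv S Q P) (ww S Q P) u v ≤ κN) :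
    ∃ (cov : Finset I) (y : I → ℕ → ZMod n),
      ((univ \ cov).card : ℝ) ≤ 2 * (∑ i, (1 - dg (vv S Q P) (ww S Q P) (Sum.inl i)) +
        ((1 + 2 * K : ℕ) : ℝ) * ∑ v, max (dg (vv S Q P) (ww S Q P) v - 1) 0) +
          η * (Fintype.card (Tok S Q I) : ℝ) ∧
      (∀ i ∈ cov, P.Good S Q i (y i)) ∧
      ∀ i ∈ cov, ∀ j ∈ cov, ∀ t < P.T i, ∀ u < P.T j, (i, t) ≠ (j, u) →
          P.Sep i (y i) t j (y j) u := by
  set I' : Finset (Tok S Q I) := univ.map ⟨Sum.inl, Sum.inl_injective⟩ with hI'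
  obtain ⟨w', h0, h1, h2, h3⟩ := clean (vv S Q P) (ww_nonneg P hk) (card_vv P hK) I'
  obtain ⟨M, hM1, hM2, hM3⟩ := hN (Tok S Q I) (Edg P) (vv S Q P) w' I' h0 (card_vv P hK) h2
    (fun u v huv => le_trans (Finset.sum_le_sum fun e _ => h1 e) (hc u v huv))
  have hpos : ∀ e ∈ M, SepIn P e.1 (ext e.2) ∧ P.Good S Q e.1 (ext e.2) := fun e he =>
    good_of_pos P hk e (lt_of_lt_of_le (hM1 e he) (h1 e))
  set cov : Finset I := M.image (fun e => e.1) with hcov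
  have hch : ∀ i : I, ∃ y : ℕ → ZMod n, i ∈ cov → ∃ e ∈ M, ∃ h : e.1 = i, y = ext e.2 := by
    intro i
    by_cases hi : i ∈ cov
    · obtain ⟨e, he, hei⟩ := Finset.mem_image.1 hi
      exact ⟨ext e.2, fun _ => ⟨e, he, hei, rfl⟩⟩
    · exact ⟨fun _ => 0, fun h => absurd h hi⟩
  choose y hy using hch
  refine ⟨cov, y, ?_, ?_, ?_⟩
  · have h5 : ∑ i ∈ I', (1 - dg (vv S Q P) (ww S Q P) i) =
        ∑ i, (1 - dg (vv S Q P) (ww S Q P) (Sum.inl i)) := by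
      rw [hI', Finset.sum_map]
      rfl
    rw [h5] at h3
    refine le_trans ?_ (le_trans hM3 (by linarith))
    rw [Nat.cast_le, ← Finset.card_map ⟨Sum.inl, Sum.inl_injective⟩]
    refine Finset.card_le_card fun v hv => ?_
    obtain ⟨i, hi, rfl⟩ := Finset.mem_map.1 hv
    simp only [Finset.mem_filter]
    refine ⟨Finset.mem_map.2 ⟨i, Finset.mem_univ _, rfl⟩, fun e he h6 => ?_⟩
    rw [mem_vv] at h6
    have h7 : e.1 = i := h6
    exact (Finset.mem_sdiff.1 hi).2 (Finset.mem_image.2 ⟨e, he, h7⟩)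
  · intro i hi
    obtain ⟨e, he, hei, hye⟩ := hy i hi
    subst hei
    rw [hye]
    exact (hpos e he).2
  · intro i hi j hj t ht u hu htu
    obtain ⟨e, he, hei, hye⟩ := hy i hi
    obtain ⟨f, hf, hfj, hyf⟩ := hy j hj
    subst hei
    subst hfj
    rw [hye, hyf]
    by_cases hef : e = f
    · subst hef
      exact (hpos e he).1 t ht u hu (fun h => htu (by rw [h]))
    · exact sep_of_disjoint P (hM2 e he f hf hef) (hpos e he).2 ht hu

end good

end Pool.Agent.Lib.MP_c5b475_co.KN
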