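import Pool.Agent.Lib.MP_c5b475_co.KN.Mix

/-!
# KN/EX: iterated expectations over adapted kernels
-/

set_option autoImplicit false
set_option linter.unusedSectionVars false

namespace Pool.Agent.Lib.MP_c5b475_co.KN

open Finset

variable {n : ℕ} [NeZero n]

/-- `g` depends only on the coordinates below `p` -/
def Dep {β : Type} (p : ℕ) (g : (ℕ → ZMod n) → β) : Prop :=
  ∀ y y', (∀ s < p, y s = y' s) → g y = g y'

theorem Dep.mono {β : Type} {p q : ℕ} (h : p ≤ q) {g : (ℕ → ZMod n) → β} (hg : Dep p g) :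
    Dep q g := fun y y' H => hg y y' fun s hs => H s (lt_of_lt_of_le hs h)

theorem Dep.const {β : Type} (p : ℕ) (c : β) : Dep (n := n) p (fun _ => c) := fun _ _ _ => rfl

theorem Dep.update {β : Type} {p m : ℕ} (h : p ≤ m) {g : (ℕ → ZMod n) → β} (hg : Dep p g)
    (y : ℕ → ZMod n) (x : ZMod n) : g (Function.update y m x) = g y :=
  hg _ _ fun s hs => Function.update_of_ne (by omega) _ _

/-- iterated expectation over the first `m` coordinates -/
noncomputable def EX (k : ℕ → (ℕ → ZMod n) → ZMod n → ℝ) : ℕ → ((ℕ → ZMod n) → ℝ) → ℝ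
  | 0, g => g (fun _ => 0)
  | m + 1, g => EX k m (fun y => ∑ x, k m y x * g (Function.update y m x))

/-- the kernels are nonnegative, of mass at most one, and adapted -/
structure Krn (k : ℕ → (ℕ → ZMod n) → ZMod n → ℝ) : Prop where
  nonneg : ∀ t y x, 0 ≤ k t y x
  sum_le : ∀ t y, ∑ x, k t y x ≤ 1
  dep : ∀ t x, Dep t (fun y => k t y x)

variable {k : ℕ → (ℕ → ZMod n) → ZMod n → ℝ}

theorem EX_mono (hk : Krn k) (m : ℕ) : ∀ {g g' : (ℕ → ZMod n) → ℝ}, (∀ y, g y ≤ g' y) →
    EX k m g ≤ EX k m g' := by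
  induction m with
  | zero => exact fun h => h _
  | succ m ih =>
    intro g g' h
    exact ih fun y => Finset.sum_le_sum fun x _ => mul_le_mul_of_nonneg_left (h _) (hk.nonneg _ _ _)

theorem EX_add (m : ℕ) : ∀ (g g' : (ℕ → ZMod n) → ℝ),
    EX k m (fun y => g y + g' y) = EX k m g + EX k m g' := by
  induction m with
  | zero => exact fun g g' => rfl
  | succ m ih =>
    intro g g'
    change EX k m _ = EX k m _ + EX k m _
    rw [← ih]
    congr 1
    funext y
    rw [← Finset.sum_add_distrib]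
    exact Finset.sum_congr rfl fun x _ => by ring

theorem EX_smul (m : ℕ) : ∀ (c : ℝ) (g : (ℕ → ZMod n) → ℝ),
    EX k m (fun y => c * g y) = c * EX k m g := by
  induction m with
  | zero => exact fun c g => rfl
  | succ m ih =>
    intro c g
    change EX k m _ = c * EX k m _
    rw [← ih]
    congr 1
    funext y
    rw [Finset.mul_sum]
    exact Finset.sum_congr rfl fun x _ => by ring

theorem EX_zero (m : ℕ) : EX k m (fun _ => 0) = 0 := by
  have h := EX_smul (k := k) m 0 (fun _ => 0)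
  simpa using h

theorem EX_sum {A : Type} (s : Finset A) (m : ℕ) (g : A → (ℕ → ZMod n) → ℝ) :
    EX k m (fun y => ∑ a ∈ s, g a y) = ∑ a ∈ s, EX k m (g a) := by
  classical
  induction s using Finset.induction_on with
  | empty => simpa using EX_zero (k := k) m
  | insert a s ha ih =>
    simp only [Finset.sum_insert ha]
    rw [EX_add, ih]

theorem EX_nonneg (hk : Krn k) (m : ℕ) {g : (ℕ → ZMod n) → ℝ} (h : ∀ y, 0 ≤ g y) :
    0 ≤ EX k m g := by
  rw [← EX_zero (k := k) m]
  exact EX_mono hk m h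

theorem EX_sub (m : ℕ) (g g' : (ℕ → ZMod n) → ℝ) :
    EX k m (fun y => g y - g' y) = EX k m g - EX k m g' := by
  have h := EX_add (k := k) m (fun y => g y - g' y) g'
  simp only [sub_add_cancel] at h
  linarith

theorem EX_succ (m : ℕ) (g : (ℕ → ZMod n) → ℝ) :
    EX k (m + 1) g = EX k m (fun y => ∑ x, k m y x * g (Function.update y m x)) := rfl

theorem EX_succ_le (hk : Krn k) {m p : ℕ} (hp : p ≤ m) {g : (ℕ → ZMod n) → ℝ} (h : ∀ y, 0 ≤ g y)
    (hg : Dep p g) : EX k (m + 1) g ≤ EX k m g := by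
  rw [EX_succ]
  refine EX_mono hk m fun y => ?_
  have h1 : ∑ x, k m y x * g (Function.update y m x) = (∑ x, k m y x) * g y := by
    rw [Finset.sum_mul]
    exact Finset.sum_congr rfl fun x _ => by rw [hg.update hp]
  rw [h1]
  nlinarith [hk.sum_le m y, h y]

/-- coordinates which do not matter can be dropped -/
theorem EX_le (hk : Krn k) {m p : ℕ} (hp : p ≤ m) {g : (ℕ → ZMod n) → ℝ} (h : ∀ y, 0 ≤ g y)
    (hg : Dep p g) : EX k m g ≤ EX k p g := by
  induction m with
  | zero =>
    have h1 : p = 0 := by omega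
    rw [h1]
  | succ m ih =>
    rcases Nat.lt_or_ge m p with h1 | h1
    · have h2 : p = m + 1 := by omega
      rw [h2]
    · exact le_trans (EX_succ_le hk h1 h hg) (ih h1)

theorem EX_one_le (hk : Krn k) (m : ℕ) : EX k m (fun _ => 1) ≤ 1 :=
  EX_le hk (Nat.zero_le m) (fun _ => by norm_num) (Dep.const 0 1)

/-- probability that a step hits a target which is known before -/
theorem EX_hit (hk : Krn k) {m t : ℕ} (ht : t < m) {B : ℝ} (hB : ∀ y x, k t y x ≤ B)
    {g : (ℕ → ZMod n) → ℝ} (h : ∀ y, 0 ≤ g y) (hg : Dep t g)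
    {τ : (ℕ → ZMod n) → ZMod n} (hτ : Dep t τ) :
    EX k m (fun y => g y * (if y t = τ y then 1 else 0)) ≤ B * EX k t g := by
  have h1 : Dep (t + 1) (fun y => g y * (if y t = τ y then 1 else 0)) := by
    intro y y' H
    have h2 := hg y y' fun s hs => H s (by omega)
    have h3 := hτ y y' fun s hs => H s (by omega)
    have h4 := H t (by omega)
    simp only [h2, h3, h4]
  have h2 : ∀ y, 0 ≤ g y * (if y t = τ y then (1 : ℝ) else 0) := fun y =>
    mul_nonneg (h y) (by split_ifs <;> norm_num)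
  refine le_trans (EX_le hk (show t + 1 ≤ m by omega) h2 h1) ?_
  rw [EX_succ, ← EX_smul]
  refine EX_mono hk t fun y => ?_
  have h3 : ∀ x, k t y x * (g (Function.update y t x) *
      (if (Function.update y t x) t = τ (Function.update y t x) then (1 : ℝ) else 0)) =
      if x = τ y then k t y x * g y else 0 := by
    intro x
    rw [hg.update le_rfl, hτ.update le_rfl, Function.update_self]
    split_ifs <;> ring
  simp only [h3]
  rw [Finset.sum_ite_eq' Finset.univ (τ y) (fun x => k t y x * g y)]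
  simp only [Finset.mem_univ, if_true]
  exact mul_le_mul_of_nonneg_right (hB y _) (h y)

theorem EX_hit1 (hk : Krn k) {m t : ℕ} (ht : t < m) {B : ℝ} (hB : ∀ y x, k t y x ≤ B)
    (hB0 : 0 ≤ B) {τ : (ℕ → ZMod n) → ZMod n} (hτ : Dep t τ) :
    EX k m (fun y => if y t = τ y then 1 else 0) ≤ B := by
  have h := EX_hit hk ht hB (g := fun _ => 1) (fun _ => by norm_num) (Dep.const t 1) hτ
  simp only [one_mul] at h
  refine le_trans h ?_
  have := mul_le_mul_of_nonneg_left (EX_one_le hk t) hB0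
  linarith

theorem EX_hit2 (hk : Krn k) {m t u : ℕ} (htu : t < u) (hu : u < m) {B : ℝ}
    (hB : ∀ s y x, k s y x ≤ B) (hB0 : 0 ≤ B)
    {τ σ : (ℕ → ZMod n) → ZMod n} (hτ : Dep t τ) (hσ : Dep u σ) :
    EX k m (fun y => (if y t = τ y then 1 else 0) * (if y u = σ y then 1 else 0)) ≤ B * B := by
  have h1 : Dep u (fun y : ℕ → ZMod n => if y t = τ y then (1 : ℝ) else 0) := by
    intro y y' H
    have h3 := hτ y y' fun s hs => H s (by omega)
    have h4 := H t (by omega)
    simp only [h3, h4]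
  refine le_trans (EX_hit hk hu (hB u) (fun y => by split_ifs <;> norm_num) h1 hσ) ?_
  exact mul_le_mul_of_nonneg_left (EX_hit1 hk htu (hB t) hB0 hτ) hB0

/-- the total mass lost -/
theorem EX_loss (m : ℕ) :
    1 - EX k m (fun _ => 1) = ∑ t ∈ range m, EX k t (fun y => 1 - ∑ x, k t y x) := by
  induction m with
  | zero => simp [EX]
  | succ m ih =>
    rw [Finset.sum_range_succ, ← ih, EX_sub, EX_succ]
    simp only [mul_one]
    ring

/-- a finite word as an infinite one -/
def ext {m : ℕ} (φ : Fin m → ZMod n) (t : ℕ) : ZMod n := if h : t < m then φ ⟨t, h⟩ else 0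

theorem ext_snoc {m : ℕ} (φ : Fin m → ZMod n) (x : ZMod n) :
    ext (Fin.snoc φ x : Fin (m + 1) → ZMod n) = Function.update (ext φ) m x := by
  funext t
  unfold ext
  by_cases h1 : t = m
  · subst h1
    rw [Function.update_self, dif_pos (by omega)]
    have h2 : (⟨t, by omega⟩ : Fin (t + 1)) = Fin.last t := rfl
    rw [h2, Fin.snoc_last]
  · rw [Function.update_of_ne h1]
    by_cases h2 : t < m
    · rw [dif_pos (by omega), dif_pos h2]
      have h3 : (⟨t, by omega⟩ : Fin (m + 1)) = Fin.castSucc ⟨t, h2⟩ := rfl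
      rw [h3, Fin.snoc_castSucc]
    · rw [dif_neg (by omega), dif_neg h2]

/-- weight of a word -/
noncomputable def Wt (k : ℕ → (ℕ → ZMod n) → ZMod n → ℝ) {m : ℕ} (φ : Fin m → ZMod n) : ℝ :=
  ∏ t : Fin m, k t (ext φ) (φ t)

theorem Wt_nonneg (hk : Krn k) {m : ℕ} (φ : Fin m → ZMod n) : 0 ≤ Wt k φ :=
  Finset.prod_nonneg fun t _ => hk.nonneg _ _ _

theorem Wt_snoc (hk : Krn k) {m : ℕ} (φ : Fin m → ZMod n) (x : ZMod n) :
    Wt k (Fin.snoc φ x : Fin (m + 1) → ZMod n) = Wt k φ * k m (ext φ) x := by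
  unfold Wt
  rw [Fin.prod_univ_castSucc]
  congr 1
  · refine Finset.prod_congr rfl fun t _ => ?_
    rw [Fin.snoc_castSucc, ext_snoc]
    exact (hk.dep _ _).update t.isLt.le _ _
  · rw [Fin.snoc_last, ext_snoc]
    exact (hk.dep _ _).update le_rfl _ _

theorem EX_eq (hk : Krn k) (m : ℕ) : ∀ g : (ℕ → ZMod n) → ℝ,
    EX k m g = ∑ φ : Fin m → ZMod n, Wt k φ * g (ext φ) := by
  induction m with
  | zero =>
    intro g
    have h1 : ∀ φ : Fin 0 → ZMod n, Wt k φ * g (ext φ) = g (fun _ => 0) := by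
      intro φ
      have h2 : ext φ = fun _ => 0 := by
        funext t
        unfold ext
        rw [dif_neg (by omega)]
      rw [h2]
      simp [Wt]
    simp only [h1, Finset.sum_const, Finset.card_univ]
    simp [EX]
  | succ m ih =>
    intro g
    rw [EX_succ, ih]
    have h1 : ∑ φ : Fin (m + 1) → ZMod n, Wt k φ * g (ext φ) =
        ∑ p : ZMod n × (Fin m → ZMod n), Wt k p.2 * k m (ext p.2) p.1 *
          g (Function.update (ext p.2) m p.1) := by
      refine (Fintype.sum_equiv (Fin.snocEquiv fun _ => ZMod n) _ _ fun p => ?_).symm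
      have h2 : (Fin.snocEquiv (fun _ : Fin (m + 1) => ZMod n)) p =
          (Fin.snoc p.2 p.1 : Fin (m + 1) → ZMod n) := rfl
      rw [h2, Wt_snoc hk, ext_snoc]
    rw [h1, Fintype.sum_prod_type, Finset.sum_comm]
    refine Finset.sum_congr rfl fun φ _ => ?_
    rw [Finset.mul_sum]
    exact Finset.sum_congr rfl fun x _ => by ring

end Pool.Agent.Lib.MP_c5b475_co.KN
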