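import Pool.Agent.Lib.MP_c5b475_co.KN.EiD

/-!
# KN/EiA: case (II), the bare paths and the last leaf

`card_sing`: `n - 2 (|QJ| + |J1|)` elements satisfy the filter (the `2 (|QJ| + |J1|)` elements `c`,
`c + 1`, `c ∈ QJ ∪ J1`, are distinct by `starts`), the `card W - 1 - #spl` ordinary colours are distinct
(`Emb.cin`, ordinary vertices and their parents are not in `D`) and satisfy the filter (`col_ord`); so
the number is `n - 2 (#spl + |π| + 3|β|) - (n - #spl - 2|π| - 8|β| - 1 - #spl) = 2|β| + 1`.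
`sing_stage`: `leaf_pairs` with `S0 = Sing`, `E ⊆ Sing` by `E_out` and `col_ord`, `x = lab lp`, `R = RB`
if `lp` is on side `true`, else `RA`; then `bpa` with `J = J1`, `U = ∅`, `R1 = RB`, `R2 = RA`,
`F1 = F2 = {s0 - lab lp}`; `s k + 2 η k ∈ Sing` is not in `J1`.
-/

set_option autoImplicit false

namespace Pool.Agent.Lib.MP_c5b475_co.KN

open Finset

variable {n : ℕ} [NeZero n] {W Kd Ψ π β : Type} [Fintype W] [DecidableEq W] [Fintype π]
  [DecidableEq π] [Fintype β] [DecidableEq β]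

private theorem eia_par {X : KT W Kd Ψ} {lab : W → ZMod n} {D : Finset W} {pp : π → W} {bb : β → W}
    {lp : W} {QJ J1 E RA RB Y1 Y2 Y3 : Finset (ZMod n)}
    (H : Two X lab D pp bb lp QJ J1 E RA RB Y1 Y2 Y3) {w : W} (h1 : w ≠ X.t.root)
    (h2 : X.spl (X.kd w) = false) : X.EdgeIn (univ \ D) w := by
  refine ⟨h1, ?_, ?_⟩
  · rw [Finset.mem_sdiff]
    refine ⟨Finset.mem_univ _, fun h => ?_⟩
    rw [H.hD w h] at h2
    exact Bool.noConfusion h2
  · rw [Finset.mem_sdiff]
    refine ⟨Finset.mem_univ _, fun h => ?_⟩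
    have h3 := X.spl_leaf _ (H.hD _ h)
    have h4 : w ∈ X.t.ch (X.t.par w) := by
      unfold RTr.ch
      rw [Finset.mem_filter]
      exact ⟨Finset.mem_univ _, h1, rfl⟩
    rw [h3] at h4
    exact Finset.notMem_empty _ h4

theorem card_sing {X : KT W Kd Ψ} {lab : W → ZMod n} {D : Finset W} {pp : π → W} {bb : β → W}
    {lp : W} {QJ J1 E RA RB Y1 Y2 Y3 : Finset (ZMod n)}
    (H : Two X lab D pp bb lp QJ J1 E RA RB Y1 Y2 Y3) :
    (Sing X lab QJ J1).card = 2 * Fintype.card β + 1 := by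
  set P : Finset (ZMod n) := QJ ∪ J1 with hP
  set T : Finset (ZMod n) := univ.filter fun c => c ∉ P ∧ c - 1 ∉ P with hT
  set O : Finset W := univ.filter fun w => w ≠ X.t.root ∧ X.spl (X.kd w) = false with hO
  have hPc : P.card = (univ.filter fun w => X.spl (X.kd w) = true).card +
      Fintype.card π + 3 * Fintype.card β := by
    rw [hP, Finset.card_union_of_disjoint H.QJ1]
    exact H.cardJ
  -- the set `T`
  have hTc : T.card + 2 * P.card = n := by
    have h1 : T = univ \ (P ∪ P.image (fun c => c + 1)) := by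
      ext c
      simp only [hT, Finset.mem_filter, Finset.mem_univ, true_and, Finset.mem_sdiff,
        Finset.mem_union, Finset.mem_image, not_or, not_exists, not_and]
      constructor
      · rintro ⟨h1, h2⟩
        refine ⟨h1, fun x hx hxc => h2 ?_⟩
        rw [← hxc, add_sub_cancel_right]
        exact hx
      · rintro ⟨h1, h2⟩
        exact ⟨h1, fun h => h2 _ h (sub_add_cancel _ _)⟩
    have h2 : Disjoint P (P.image (fun c => c + 1)) := by
      rw [Finset.disjoint_left]
      intro c hc hc'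
      obtain ⟨d, hd, hdc⟩ := Finset.mem_image.1 hc'
      rw [← hdc] at hc
      exact H.starts d hd hc
    have h3 : (P ∪ P.image (fun c => c + 1)).card = 2 * P.card := by
      rw [Finset.card_union_of_disjoint h2,
        Finset.card_image_of_injective _ (add_left_injective 1)]
      omega
    have h4 := Finset.card_sdiff_add_card_eq_card
      (Finset.subset_univ (P ∪ P.image (fun c => c + 1)))
    rw [← h1, h3, Finset.card_univ, ZMod.card] at h4
    exact h4
  -- the ordinary colours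
  have hOc : O.card + 1 + (univ.filter fun w => X.spl (X.kd w) = true).card = Fintype.card W := by
    have h1 : O = (univ.filter fun w => ¬ X.spl (X.kd w) = true).erase X.t.root := by
      ext w
      simp only [hO, Finset.mem_filter, Finset.mem_univ, true_and, Finset.mem_erase,
        Bool.not_eq_true]
    have h2 : X.t.root ∈ (univ.filter fun w => ¬ X.spl (X.kd w) = true) := by
      rw [Finset.mem_filter, X.spl_root]
      exact ⟨Finset.mem_univ _, Bool.false_ne_true⟩
    have h3 := Finset.card_erase_add_one h2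
    rw [← h1] at h3
    have h4 := Finset.card_filter_add_card_filter_not (s := (univ : Finset W))
      (fun w => X.spl (X.kd w) = true)
    rw [Finset.card_univ] at h4
    omega
  have hinj : Set.InjOn (fun w => X.col lab w) (↑O : Set W) := by
    intro u hu v hv huv
    have hu' := (Finset.mem_filter.1 (Finset.mem_coe.1 hu)).2
    have hv' := (Finset.mem_filter.1 (Finset.mem_coe.1 hv)).2
    exact H.hE.cin u v (eia_par H hu'.1 hu'.2) (eia_par H hv'.1 hv'.2) huv
  have hsub : O.image (fun w => X.col lab w) ⊆ T := by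
    intro c hc
    obtain ⟨w, hw, rfl⟩ := Finset.mem_image.1 hc
    have hw' := (Finset.mem_filter.1 hw).2
    have h := H.col_ord w hw'.1 hw'.2
    rw [hT, Finset.mem_filter]
    exact ⟨Finset.mem_univ _, h.1, h.2.1⟩
  have h5 := Finset.card_sdiff_add_card_eq_card hsub
  rw [Finset.card_image_of_injOn hinj] at h5
  have h6 : Sing X lab QJ J1 = T \ O.image (fun w => X.col lab w) := rfl
  rw [h6]
  have h7 := H.cardW
  omega

theorem sing_stage {X : KT W Kd Ψ} {lab : W → ZMod n} {D : Finset W} {pp : π → W} {bb : β → W}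
    {lp : W} {QJ J1 E RA RB Y1 Y2 Y3 : Finset (ZMod n)}
    (H : Two X lab D pp bb lp QJ J1 E RA RB Y1 Y2 Y3) (F B : ℕ) (hF : 3 ≤ F)
    (K4 : ∀ z s η : ZMod n, Far F η → B ≤ (J1.filter fun g => (∀ i, lB z η g i ∈ RB) ∧
      z + s - g - 1 ∈ RA).card)
    (K5 : ∀ y η : ZMod n, Far F η → B ≤ (J1.filter fun h => h - η - 1 ∈ J1 ∧ h + y ∈ RA ∧
      h + y + η + 2 ∈ RA).card)
    (K6 : ∀ x : ZMod n, ∀ q < 2, 4 * F + 1 ≤ (E.filter fun s => s.val % 2 = q ∧ s - x ∈ RB).card ∧
      4 * F + 1 ≤ (E.filter fun s => s.val % 2 = q ∧ s - x ∈ RA).card)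
    (num : 30 * Fintype.card β + 20 ≤ B) :
    ∃ (s0 : ZMod n) (s η g h : β → ZMod n),
      (s0 ∈ Sing X lab QJ J1 ∧ (X.side (X.kd lp) = true → s0 - lab lp ∈ RB) ∧
        (X.side (X.kd lp) = false → s0 - lab lp ∈ RA)) ∧
      (∀ i, s i ∈ Sing X lab QJ J1 ∧ s i + 2 * η i ∈ Sing X lab QJ J1 ∧ s i ≠ s0 ∧
        s i + 2 * η i ≠ s0) ∧
      Function.Injective s ∧ (∀ i j, s i + 2 * η i = s j + 2 * η j → i = j) ∧
      (∀ i j, s i ≠ s j + 2 * η j) ∧
      (∀ k i, lJ (η k) (g k) (h k) i ∈ J1) ∧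
      (∀ k i k' i', lJ (η k) (g k) (h k) i = lJ (η k') (g k') (h k') i' → k = k' ∧ i = i') ∧
      (∀ k i, lB (lab (bb k)) (η k) (g k) i ∈ RB ∧
        lB (lab (bb k)) (η k) (g k) i ≠ s0 - lab lp) ∧
      (∀ k i k' i', lB (lab (bb k)) (η k) (g k) i = lB (lab (bb k')) (η k') (g k') i' →
        k = k' ∧ i = i') ∧
      (∀ k i, lA (lab (bb k)) (s k) (η k) (g k) (h k) i ∈ RA ∧
        lA (lab (bb k)) (s k) (η k) (g k) (h k) i ≠ s0 - lab lp) ∧
      (∀ k i k' i', lA (lab (bb k)) (s k) (η k) (g k) (h k) i =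
        lA (lab (bb k')) (s k') (η k') (g k') (h k') i' → k = k' ∧ i = i') := by
  have hES : E ⊆ Sing X lab QJ J1 := by
    intro c hc
    have h1 := H.E_out c hc
    unfold Sing
    rw [Finset.mem_sdiff, Finset.mem_filter]
    refine ⟨⟨Finset.mem_univ _, h1⟩, fun h => ?_⟩
    obtain ⟨w, hw, hwc⟩ := Finset.mem_image.1 h
    have hw' := (Finset.mem_filter.1 hw).2
    rw [← hwc] at hc
    exact (H.col_ord w hw'.1 hw'.2).2.2 hc
  have K6' : ∀ q < 2, 4 * F + 1 ≤ (E.filter fun s => s.val % 2 = q ∧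
      s - lab lp ∈ (if X.side (X.kd lp) = true then RB else RA)).card := by
    intro q hq
    by_cases hs : X.side (X.kd lp) = true
    · rw [if_pos hs]
      exact (K6 (lab lp) q hq).1
    · rw [if_neg hs]
      exact (K6 (lab lp) q hq).2
  obtain ⟨s0, s, η, h1, h2, h3, h4, h5, h6, h7⟩ := leaf_pairs (β := β) F (Sing X lab QJ J1) E
    (if X.side (X.kd lp) = true then RB else RA) (lab lp) hES (card_sing H) K6'
  have hs : ∀ k, s k + 2 * η k ∉ J1 := by
    intro k hk
    have h8 := (h3 k).2.1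
    unfold Sing at h8
    rw [Finset.mem_sdiff, Finset.mem_filter] at h8
    exact h8.1.2.1 (Finset.mem_union_right _ hk)
  obtain ⟨g, h, g1, g2, g3, g4, g5, g6⟩ := bpa F B hF J1 ∅ RB RA {s0 - lab lp} {s0 - lab lp}
    (fun k => lab (bb k)) s η h7 hs K4 K5 (by
      rw [Finset.card_empty, Finset.card_singleton]
      omega)
  refine ⟨s0, s, η, g, h, ⟨h1, ?_, ?_⟩, h3, h4, h5, h6, fun k i => (g1 k i).1, g2, ?_, g4, ?_, g6⟩
  · intro hs
    rw [if_pos hs] at h2
    exact h2
  · intro hs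
    rw [if_neg (by rw [hs]; exact Bool.false_ne_true)] at h2
    exact h2
  · intro k i
    exact ⟨(g3 k i).1, fun h => (g3 k i).2 (Finset.mem_singleton.2 h)⟩
  · intro k i
    exact ⟨(g5 k i).1, fun h => (g5 k i).2 (Finset.mem_singleton.2 h)⟩

end Pool.Agent.Lib.MP_c5b475_co.KN
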