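import Pool.Agent.Lib.MP_c5b475_co.KN.PrF

/-!
# KN/LfS: the colour of the last leaf, and the pairs

`S0`: the unused single colours, `|S0| = 2N + 1`; `E ⊆ S0` reserve colours. Choose `s0 ∈ E` with
`s0 - x ∈ R`, not in the forbidden label set, of the parity whose class in `S0` is odd (`n` even) (there
are `≥ 1` such by `K6`); then `S0 \ {s0}` satisfies the hypotheses of `pair_all`, because each parity
class of `E` has at least `4F + 1` elements.
-/

set_option autoImplicit false

namespace Pool.Agent.Lib.MP_c5b475_co.KN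

open Finset

private theorem LfS_sum {n : ℕ} [NeZero n] (S0 : Finset (ZMod n)) :
    (S0.filter fun s => s.val % 2 = 0).card + (S0.filter fun s => s.val % 2 = 1).card = S0.card := by
  rw [← Finset.card_filter_add_card_filter_not (s := S0) (p := fun s => s.val % 2 = 0)]
  congr 2
  apply Finset.filter_congr
  intro s _
  omega

private theorem LfS_pick {n : ℕ} [NeZero n] (m : ℕ) (S0 : Finset (ZMod n))
    (hS : S0.card = 2 * m + 1) :
    ∃ q < 2, Even n → ∃ r < 2, r ≠ q ∧ ¬ Even (S0.filter fun s => s.val % 2 = q).card ∧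
      Even (S0.filter fun s => s.val % 2 = r).card := by
  have h := LfS_sum S0
  by_cases h0 : Even (S0.filter fun s => s.val % 2 = 0).card
  · refine ⟨1, by norm_num, fun _ => ⟨0, by norm_num, by norm_num, ?_, h0⟩⟩
    intro h1
    have := h0.add h1
    rw [h, hS] at this
    rw [Nat.even_iff] at this
    omega
  · refine ⟨0, by norm_num, fun _ => ⟨1, by norm_num, by norm_num, h0, ?_⟩⟩
    by_contra h1
    have h2 := (Nat.not_even_iff_odd.mp h0).add_odd (Nat.not_even_iff_odd.mp h1)
    rw [h, hS, Nat.even_iff] at h2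
    omega

theorem leaf_pairs {n : ℕ} [NeZero n] {β : Type} [Fintype β] (F : ℕ)
    (S0 E R : Finset (ZMod n)) (x : ZMod n) (hES : E ⊆ S0)
    (hS : S0.card = 2 * Fintype.card β + 1)
    (K6 : ∀ q < 2, 4 * F + 1 ≤ (E.filter fun s => s.val % 2 = q ∧ s - x ∈ R).card) :
    ∃ (s0 : ZMod n) (s η : β → ZMod n), s0 ∈ S0 ∧ s0 - x ∈ R ∧
      (∀ i, s i ∈ S0 ∧ s i + 2 * η i ∈ S0 ∧ s i ≠ s0 ∧ s i + 2 * η i ≠ s0) ∧
      Function.Injective s ∧ (∀ i j, s i + 2 * η i = s j + 2 * η j → i = j) ∧
      (∀ i j, s i ≠ s j + 2 * η j) ∧ ∀ i, Far F (η i) := by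
  obtain ⟨q, hq, hpick⟩ := LfS_pick (Fintype.card β) S0 hS
  have hne : (E.filter fun s => s.val % 2 = q ∧ s - x ∈ R).Nonempty := by
    rw [← Finset.card_pos]
    have := K6 q hq
    omega
  obtain ⟨s0, hs0⟩ := hne
  rw [Finset.mem_filter] at hs0
  obtain ⟨hs0E, hs0q, hs0R⟩ := hs0
  have hs0S : s0 ∈ S0 := hES hs0E
  have hbig0 : ∀ r < 2, 4 * F + 1 ≤ (S0.filter fun s => s.val % 2 = r).card := by
    intro r hr
    refine (K6 r hr).trans (Finset.card_le_card ?_)
    intro s hs
    rw [Finset.mem_filter] at hs ⊢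
    exact ⟨hES hs.1, hs.2.1⟩
  have hcq : ((S0.erase s0).filter fun s => s.val % 2 = q).card + 1 =
      (S0.filter fun s => s.val % 2 = q).card := by
    rw [Finset.filter_erase, Finset.card_erase_add_one]
    rw [Finset.mem_filter]
    exact ⟨hs0S, hs0q⟩
  have hcr : ∀ r, r ≠ q → ((S0.erase s0).filter fun s => s.val % 2 = r).card =
      (S0.filter fun s => s.val % 2 = r).card := by
    intro r hr
    rw [Finset.filter_erase, Finset.erase_eq_of_notMem]
    rw [Finset.mem_filter]
    rintro ⟨_, h⟩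
    exact hr (h.symm.trans hs0q)
  have hcard : (S0.erase s0).card = 2 * Fintype.card β := by
    have := Finset.card_erase_add_one hs0S
    omega
  have hev : Even n → ∀ r < 2, Even ((S0.erase s0).filter fun s => s.val % 2 = r).card := by
    intro hn r hr
    obtain ⟨r', hr', hr'q, hodd, heven⟩ := hpick hn
    by_cases hrq : r = q
    · subst hrq
      rw [← hcq] at hodd
      by_contra h
      exact hodd ((Nat.not_even_iff_odd.mp h).add_one)
    · have hrr : r = r' := by omega
      subst hrr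
      rw [hcr r hrq]
      exact heven
  have hbig : ∀ r < 2, 4 * F ≤ ((S0.erase s0).filter fun s => s.val % 2 = r).card := by
    intro r hr
    have h1 := hbig0 r hr
    by_cases hrq : r = q
    · subst hrq
      omega
    · rw [hcr r hrq]
      omega
  obtain ⟨s, η, h1, h2, h3, h4, h5⟩ := pair_all F (S0.erase s0) hcard hev hbig
  refine ⟨s0, s, η, hs0S, hs0R, fun i => ?_, h2, h3, h4, h5⟩
  obtain ⟨ha, hb⟩ := h1 i
  exact ⟨Finset.mem_of_mem_erase ha, Finset.mem_of_mem_erase hb, Finset.ne_of_mem_erase ha,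
    Finset.ne_of_mem_erase hb⟩

end Pool.Agent.Lib.MP_c5b475_co.KN
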