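import Pool.Agent.Lib.MP_c5b475_co.KN.SwS
import Pool.Agent.Lib.MP_c5b475_co.KN.LfS
import Pool.Agent.Lib.MP_c5b475_co.KN.Bpa

/-!
# KN/EiD: data of the exact end in case (II)
-/

set_option autoImplicit false

namespace Pool.Agent.Lib.MP_c5b475_co.KN

open Finset

variable {n : ℕ} [NeZero n] {W Kd Ψ π β : Type} [Fintype W] [DecidableEq W] [Fintype π]
  [DecidableEq π] [Fintype β] [DecidableEq β]

/-- The situation after the main stage in case (II). -/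
structure Two (X : KT W Kd Ψ) (lab : W → ZMod n) (D : Finset W) (pp : π → W) (bb : β → W) (lp : W)
    (QJ J1 E RA RB Y1 Y2 Y3 : Finset (ZMod n)) : Prop where
  hD : ∀ w ∈ D, X.spl (X.kd w) = true
  hE : X.Emb (univ \ D) lab
  spl_side : ∀ k, X.spl k = true → X.side k = false
  dom_side : ∀ k, X.dom k = true → X.side k = true
  spl_o : ∀ w, X.spl (X.kd w) = true → X.o w = 0 ∧ X.dom (X.kd (X.t.par w)) = true
  pp_inj : Function.Injective pp
  bb_inj : Function.Injective bb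
  pp_dom : ∀ p, X.dom (X.kd (pp p)) = true
  bb_dom : ∀ b, X.dom (X.kd (bb b)) = true
  pb : ∀ p b, pp p ≠ bb b
  sp : ∀ w p, X.spl (X.kd w) = true → X.t.par w ≠ pp p
  sb : ∀ w b, X.spl (X.kd w) = true → X.t.par w ≠ bb b
  lp_spl : X.spl (X.kd lp) = false
  cardW : Fintype.card W + (univ.filter fun w => X.spl (X.kd w) = true).card +
    2 * Fintype.card π + 8 * Fintype.card β = n
  -- colours
  starts : ∀ c ∈ QJ ∪ J1, c + 1 ∉ QJ ∪ J1
  QJ1 : Disjoint QJ J1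
  E_out : ∀ s ∈ E, s ∉ QJ ∪ J1 ∧ s - 1 ∉ QJ ∪ J1
  cardJ : QJ.card + J1.card = (univ.filter fun w => X.spl (X.kd w) = true).card +
    Fintype.card π + 3 * Fintype.card β
  col_spl : ∀ w, w ∉ D → X.spl (X.kd w) = true → X.col lab w ∈ QJ
  col_ord : ∀ w, w ≠ X.t.root → X.spl (X.kd w) = false →
    X.col lab w ∉ QJ ∪ J1 ∧ X.col lab w - 1 ∉ QJ ∪ J1 ∧ X.col lab w ∉ E
  -- labels
  Y12 : Disjoint Y1 Y2
  Y13 : Disjoint Y1 Y3
  Y23 : Disjoint Y2 Y3
  YR : Disjoint (Y1 ∪ Y2 ∪ Y3) RB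
  lab_B : ∀ w, w ∉ D → X.side (X.kd w) = false → lab w ∉ Y1 ∪ Y2 ∪ Y3 ∪ RB
  lab_A : ∀ w, w ∉ D → X.side (X.kd w) = true → lab w ∉ RA ∧
    (X.dom (X.kd w) = true → lab w + 1 ∉ RA)

/-- The unused single colours. -/
def Sing (X : KT W Kd Ψ) (lab : W → ZMod n) (QJ J1 : Finset (ZMod n)) : Finset (ZMod n) :=
  (univ.filter fun c => c ∉ QJ ∪ J1 ∧ c - 1 ∉ QJ ∪ J1) \
    ((univ.filter fun w => w ≠ X.t.root ∧ X.spl (X.kd w) = false).image fun w => X.col lab w)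

end Pool.Agent.Lib.MP_c5b475_co.KN
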