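import Mathlib

/-!
# KN/Pick
`∑_{x ∈ Ω} ∑_j v_j F x j = ∑_j v_j (∑_{x ∈ Ω} F x j) ≤ sqrt(∑ v_j ^ 2) sqrt(∑_j (∑_x F x j) ^ 2) ≤ M a |Ω|`
(Cauchy-Schwarz: `Finset.sum_mul_sq_le_sq_mul_sq` and `abs_le_of_sq_le_sq`). So some `x ∈ Ω` has
`∑_j v_j F x j ≤ M a` (`Finset.exists_le_of_sum_le`), and
`∑ (v + F x)^2 = ∑ v^2 + 2 ∑ v F x + ∑ (F x)^2 ≤ ∑ v^2 + 2 M a + b`.
-/

set_option autoImplicit false

namespace Pool.Agent.Lib.MP_c5b475_co.KN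

open Finset

/-- Choice of a point which increases a potential only a little. -/
theorem pick {G J : Type} [Fintype J] (Ω : Finset G) (hΩ : Ω.Nonempty) (v : J → ℝ)
    (F : G → J → ℝ) (M a b : ℝ) (hM : 0 ≤ M) (ha : 0 ≤ a) (hv : ∑ j, v j ^ 2 ≤ M ^ 2)
    (hF : ∑ j, (∑ x ∈ Ω, F x j) ^ 2 ≤ (a * Ω.card) ^ 2) (hb : ∀ x ∈ Ω, ∑ j, F x j ^ 2 ≤ b) :
    ∃ x ∈ Ω, ∑ j, (v j + F x j) ^ 2 ≤ ∑ j, v j ^ 2 + 2 * M * a + b := by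
  have h1 : ∑ x ∈ Ω, ∑ j, v j * F x j = ∑ j, v j * ∑ x ∈ Ω, F x j := by
    rw [Finset.sum_comm]
    exact Finset.sum_congr rfl fun j _ => (Finset.mul_sum _ _ _).symm
  have h2 : (∑ j, v j * ∑ x ∈ Ω, F x j) ^ 2 ≤ (M * (a * Ω.card)) ^ 2 := by
    refine (Finset.sum_mul_sq_le_sq_mul_sq univ v fun j => ∑ x ∈ Ω, F x j).trans ?_
    rw [mul_pow]
    exact mul_le_mul hv hF (Finset.sum_nonneg fun j _ => sq_nonneg _) (sq_nonneg _)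
  have h3 : ∑ j, v j * ∑ x ∈ Ω, F x j ≤ M * (a * Ω.card) :=
    (le_abs_self _).trans (abs_le_of_sq_le_sq h2 (by positivity))
  obtain ⟨x, hx, h4⟩ : ∃ x ∈ Ω, ∑ j, v j * F x j ≤ M * a := by
    refine Finset.exists_le_of_sum_le hΩ ?_
    rw [h1, Finset.sum_const, nsmul_eq_mul]
    linarith
  refine ⟨x, hx, ?_⟩
  have h5 : ∑ j, (v j + F x j) ^ 2 =
      ∑ j, v j ^ 2 + 2 * ∑ j, v j * F x j + ∑ j, F x j ^ 2 := by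
    rw [Finset.mul_sum, ← Finset.sum_add_distrib, ← Finset.sum_add_distrib]
    exact Finset.sum_congr rfl fun j _ => by ring
  rw [h5]
  have := hb x hx
  linarith

end Pool.Agent.Lib.MP_c5b475_co.KN
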