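import Pool.Agent.Lib.MP_c5b475_co.KN.PThm0
import Pool.Agent.Lib.MP_c5b475_co.KN.Pick

/-!
# KN/Grd: greedy extension
Induction on `|B|`, with the additional conclusion (put it into your private induction statement)
`(**)  #{u : EdgeIn (A ∪ B) u, ¬ EdgeIn A u} ≤ 2 |B|`. `B = ∅`: `lab' = lab`. Step: let `w ∈ B` have the
largest rank, `B' = B \ {w}`. All hypotheses hold for `B'` (`low X A B' rk v ⊆ low X A B rk v`). Let `l` be the
labelling of `A ∪ B'`. The neighbours of `w` in `A ∪ B'` are in `low X A B rk w`, so they are at most two (at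
most one if `w` is a `dom` vertex). For a neighbour `v` put `r v = l v + o w` if `v = par w` and
`r v = l v + o v` if `v` is a child: the colour of the edge between `w` and `v` will be `x + r v`, `x` the
label of `w`. CLAIM: `r v ≠ r v'` for two different neighbours. Then `w` is not `dom`, so `o v' = 0` for every
child `v'` (`o_dom`). Two children: `l v ≠ l v'` by `inj` (both on the side opposite to `w`, `side_par`).
`v = par w`, `v'` a child: if `o w = 0` again `inj` (`par w ≠ v'` by depth); if `o w = 1` then `par w` is `dom`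
and `l v' ≠ l (par w) + 1` by `dmn`.
CHOICE: `Ω` = set of `x ∈ R (kd w)` with `x + r v ∈ RC` for all neighbours `v ∈ A ∪ B'` (if there are less
than two use `hL` with an arbitrary second shift `≠`; `1 ≠ 0` in `ZMod n` by `2 ≤ n`), `x ≠ l u` for
`u ∈ RS ∪ B'`, and `x + r v ≠ X.col l u` for all `u ∈ CS` and all `u` with `EdgeIn (A ∪ B') u`, `¬ EdgeIn A u`
(at most `|CS| + 2 |B'|` colours, each excludes at most one `x` for each of the two `v`). So
`|Ω| ≥ c n - |RS| - |B'| - 2 (|CS| + 2 |B'|) ≥ c n / 2`. By `pick` (vector `v j = ∑_{B'} F w' (l w') j`, its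
square sum is `≤ M ^ 2` by `hFM`) choose `x ∈ Ω` and put `lab' = Function.update l w x`.
CHECK: labels agree on `A ∪ B'` (`w` is not in it). `inj`: a vertex `u ∈ A \ RS` on the side of `w` has
`l u ∉ R (kd w)` (`hRS`), the others are excluded. `dmn` for `(w,u)`: `hdR` (`u ∈ A`), and for `u ∈ B'`:
`l u ∈ R (kd u)`, `x + 1 ∉ R (kd u)`; for `(u,w)`, `u` `dom`: `hdA` if `u ∈ A`; if `u ∈ B'`, `l u ∈ R (kd u)` and
`l u + 1 ∉ R (kd w)` by `hdR` for the kind of `u`; `(w,w)`: `1 ≠ 0`. `cin`: an edge of `A ∪ B` is an edge of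
`A ∪ B'` or joins `w` to a neighbour `v`; its colour is then `x + r v ∈ RC`. Two new edges: the claim. New and
old: an edge of `A` not in `CS` has colour `∉ RC` (`hCS`), the others are excluded. The other conclusions
are clear; `(**)`: at most two new edges.
-/

set_option autoImplicit false

namespace Pool.Agent.Lib.MP_c5b475_co.KN

open Finset

variable {n : ℕ} {W Kd Ψ : Type} [Fintype W] [DecidableEq W] [Fintype Kd] [DecidableEq Kd]
  [Fintype Ψ] [DecidableEq Ψ]

/-- labelled neighbours of `w` when `w` is labelled -/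
def low (X : KT W Kd Ψ) (A B : Finset W) (rk : W → ℕ) (w : W) : Finset W :=
  (X.t.nb w).filter fun v => v ∈ A ∨ (v ∈ B ∧ rk v ≤ rk w)

private lemma grd_dep (t : RTr W) {w : W} (h : w ≠ t.root) : t.par w ≠ w := by
  intro e
  have := t.dep_par w h
  rw [e] at this
  omega

private lemma grd_two (t : RTr W) {w v : W} (h : v ≠ t.root) (hv : t.par v = w)
    (h' : w ≠ t.root) (hw : v = t.par w) : False := by
  have h1 := t.dep_par v h
  have h2 := t.dep_par w h'
  rw [hv] at h1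
  rw [← hw] at h2
  omega

private lemma grd_nb {t : RTr W} {w v : W} :
    v ∈ t.nb w ↔ (v ≠ t.root ∧ t.par v = w) ∨ (w ≠ t.root ∧ v = t.par w) := by
  unfold RTr.nb RTr.ch
  rw [mem_union, mem_filter]
  by_cases h : w = t.root
  · rw [if_pos h]
    simp [h]
  · rw [if_neg h]
    simp [h]

private lemma grd_nb_ne {t : RTr W} {w v : W} (h : v ∈ t.nb w) : v ≠ w := by
  rintro rfl
  rcases grd_nb.1 h with ⟨h1, h2⟩ | ⟨h1, h2⟩
  · exact grd_dep t h1 h2
  · exact grd_dep t h1 h2.symm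

/-- the shift of the colour of the edge between `w` and `v` -/
private def rr (X : KT W Kd Ψ) (l : W → ZMod n) (w v : W) : ZMod n :=
  if v ≠ X.t.root ∧ X.t.par v = w then l v + (X.o v : ZMod n) else l v + (X.o w : ZMod n)

/-- the edge between `w` and `v` -/
private def ed (X : KT W Kd Ψ) (w v : W) : W :=
  if v ≠ X.t.root ∧ X.t.par v = w then v else w

private lemma grd_new (X : KT W Kd Ψ) {D : Finset W} {w u : W}
    (h : X.EdgeIn (insert w D) u) : X.EdgeIn D u ∨ ∃ v ∈ D, v ∈ X.t.nb w ∧ u = ed X w v := by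
  obtain ⟨h1, h2, h3⟩ := h
  by_cases hu : u = w
  · subst hu
    right
    have h4 : X.t.par u ∈ D := by
      rcases mem_insert.1 h3 with e | e
      · exact absurd e (grd_dep X.t h1)
      · exact e
    refine ⟨X.t.par u, h4, grd_nb.2 (Or.inr ⟨h1, rfl⟩), ?_⟩
    unfold ed
    rw [if_neg]
    rintro ⟨h5, h6⟩
    exact grd_two X.t h5 h6 h1 rfl
  · have h4 : u ∈ D := by
      rcases mem_insert.1 h2 with e | e
      · exact absurd e hu
      · exact e
    by_cases hp : X.t.par u = w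
    · right
      refine ⟨u, h4, grd_nb.2 (Or.inl ⟨h1, hp⟩), ?_⟩
      unfold ed
      rw [if_pos ⟨h1, hp⟩]
    · left
      refine ⟨h1, h4, ?_⟩
      rcases mem_insert.1 h3 with e | e
      · exact absurd e hp
      · exact e

private lemma grd_col (X : KT W Kd Ψ) (l : W → ZMod n) {w v : W} (x : ZMod n)
    (h : v ∈ X.t.nb w) : X.col (Function.update l w x) (ed X w v) = x + rr X l w v := by
  have hne := grd_nb_ne h
  unfold ed rr KT.col
  by_cases hc : v ≠ X.t.root ∧ X.t.par v = w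
  · rw [if_pos hc, if_pos hc, Function.update_of_ne hne, hc.2, Function.update_self]
    ring
  · rw [if_neg hc, if_neg hc]
    rcases grd_nb.1 h with h1 | ⟨h1, h2⟩
    · exact absurd h1 hc
    · rw [Function.update_self, ← h2, Function.update_of_ne hne]
      ring

private lemma grd_old (X : KT W Kd Ψ) (l : W → ZMod n) {w u : W} {D : Finset W} (x : ZMod n)
    (hw : w ∉ D) (h : X.EdgeIn D u) : X.col (Function.update l w x) u = X.col l u := by
  have h1 : u ≠ w := fun e => hw (e ▸ h.2.1)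
  have h2 : X.t.par u ≠ w := fun e => hw (e ▸ h.2.2)
  unfold KT.col
  rw [Function.update_of_ne h1, Function.update_of_ne h2]

private lemma grd_side (X : KT W Kd Ψ) {w v : W} (h : v ∈ X.t.nb w) :
    X.side (X.kd v) ≠ X.side (X.kd w) := by
  rcases grd_nb.1 h with ⟨h1, h2⟩ | ⟨h1, h2⟩
  · have := X.side_par v h1
    rwa [h2] at this
  · have := X.side_par w h1
    rw [← h2] at this
    exact this.symm

private lemma grd_side2 (X : KT W Kd Ψ) {w v v' : W} (h : v ∈ X.t.nb w) (h' : v' ∈ X.t.nb w) :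
    X.side (X.kd v) = X.side (X.kd v') := by
  have h1 := grd_side X h
  have h2 := grd_side X h'
  revert h1 h2
  cases X.side (X.kd v) <;> cases X.side (X.kd v') <;> cases X.side (X.kd w) <;> simp

private lemma grd_inj (X : KT W Kd Ψ) {D : Finset W} {l : W → ZMod n} (hE : X.Emb D l) {w : W}
    (hd : X.dom (X.kd w) = false) {v v' : W} (hv : v ∈ X.t.nb w) (hv' : v' ∈ X.t.nb w)
    (hD : v ∈ D) (hD' : v' ∈ D) (h : rr X l w v = rr X l w v') : v = v' := by
  have hch : ∀ u, u ≠ X.t.root → X.t.par u = w → X.o u = 0 := by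
    intro u h1 h2
    by_contra h3
    have h4 : X.o u = 1 := by
      have := X.o_le u
      omega
    have h5 := X.o_dom u h1 h4
    rw [h2, hd] at h5
    exact Bool.noConfusion h5
  have hmix : ∀ v v', v ∈ X.t.nb w → v' ∈ X.t.nb w → v ∈ D → v' ∈ D → (v ≠ X.t.root ∧ X.t.par v = w) →
      (w ≠ X.t.root ∧ v' = X.t.par w) → rr X l w v = rr X l w v' → v = v' := by
    intro v v' hv hv' hD hD' hc hp h
    have hn : ¬ (v' ≠ X.t.root ∧ X.t.par v' = w) := by
      rintro ⟨h1, h2⟩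
      exact grd_two X.t h1 h2 hp.1 hp.2
    unfold rr at h
    rw [if_pos hc, if_neg hn, hch v hc.1 hc.2, Nat.cast_zero, add_zero] at h
    by_cases ho : X.o w = 0
    · rw [ho, Nat.cast_zero, add_zero] at h
      exact hE.inj v hD v' hD' (grd_side2 X hv hv') h
    · have h4 : X.o w = 1 := by
        have := X.o_le w
        omega
      have h5 := X.o_dom w hp.1 h4
      rw [← hp.2] at h5
      rw [h4, Nat.cast_one] at h
      exact absurd h (hE.dmn v' hD' v hD (grd_side2 X hv' hv) h5)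
  rcases grd_nb.1 hv with hc | hp <;> rcases grd_nb.1 hv' with hc' | hp'
  · unfold rr at h
    rw [if_pos hc, if_pos hc', hch v hc.1 hc.2, hch v' hc'.1 hc'.2, Nat.cast_zero, add_zero,
      add_zero] at h
    exact hE.inj v hD v' hD' (grd_side2 X hv hv') h
  · exact hmix v v' hv hv' hD hD' hc hp' h
  · exact (hmix v' v hv' hv hD' hD hc' hp h.symm).symm
  · rw [hp.2, hp'.2]

/-- two different shifts which cover the shifts of at most two neighbours -/
private lemma grd_shifts (hn : 2 ≤ n) (N : Finset W) (hN : N.card ≤ 2) (r : W → ZMod n)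
    (hr : ∀ v ∈ N, ∀ v' ∈ N, r v = r v' → v = v') :
    ∃ r1 r2 : ZMod n, r1 ≠ r2 ∧ ∀ v ∈ N, r v = r1 ∨ r v = r2 := by
  have : Fact (1 < n) := ⟨by omega⟩
  have h10 : (1 : ZMod n) ≠ 0 := one_ne_zero
  have h1 : ∀ s : ZMod n, s ≠ s + 1 := by
    intro s h
    apply h10
    have : s + 1 = s + 0 := by rw [add_zero]; exact h.symm
    exact add_left_cancel this
  interval_cases hc : N.card
  · rw [card_eq_zero] at hc
    subst hc
    exact ⟨0, 0 + 1, h1 0, fun v hv => absurd hv (notMem_empty v)⟩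
  · obtain ⟨v, rfl⟩ := card_eq_one.1 hc
    refine ⟨r v, r v + 1, h1 _, fun u hu => ?_⟩
    rw [mem_singleton.1 hu]
    exact Or.inl rfl
  · obtain ⟨v, v', hvv, rfl⟩ := card_eq_two.1 hc
    refine ⟨r v, r v', fun h => hvv (hr v (by simp) v' (by simp) h), fun u hu => ?_⟩
    rcases mem_insert.1 hu with h | h
    · rw [h]; exact Or.inl rfl
    · rw [mem_singleton.1 h]; exact Or.inr rfl

open Classical in
/-- the new edges -/
private noncomputable def NE (X : KT W Kd Ψ) (A B : Finset W) : Finset W :=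
  univ.filter fun u => X.EdgeIn (A ∪ B) u ∧ ¬ X.EdgeIn A u

private lemma grd_choose [NeZero n] (X : KT W Kd Ψ) (C : Cfg n W Kd Ψ) (c : ℝ) (hc : 0 < c)
    (hn : 2 ≤ n) (D RS CS B' E : Finset W) (l : W → ZMod n) (w : W) (hE : X.Emb D l)
    (h2 : ((X.t.nb w).filter fun v => v ∈ D).card ≤ 2)
    (h1 : X.dom (X.kd w) = true → ((X.t.nb w).filter fun v => v ∈ D).card ≤ 1)
    (hL : ∀ (r r' : ZMod n), r ≠ r' → c * n ≤
      (((C.R (X.kd w)).filter fun x => x + r ∈ C.RC ∧ x + r' ∈ C.RC).card : ℝ))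
    (hEc : E.card ≤ 2 * B'.card)
    (hsz : (RS.card + 2 * CS.card + 7 * (B'.card + 1) : ℝ) ≤ c * n / 2)
    {J : Type} [Fintype J] (F : ZMod n → J → ℝ) (v : J → ℝ) (a b M : ℝ) (hM : 0 ≤ M)
    (ha : 0 ≤ a)
    (hF : ∀ Ω : Finset (ZMod n), c * n / 2 ≤ (Ω.card : ℝ) →
      ∑ j, (∑ x ∈ Ω, F x j) ^ 2 ≤ (a * Ω.card) ^ 2)
    (hFb : ∀ x, ∑ j, F x j ^ 2 ≤ b)
    (hFM : ∑ j, v j ^ 2 ≤ M ^ 2) :
    ∃ x ∈ C.R (X.kd w), (∀ u ∈ X.t.nb w, u ∈ D → x + rr X l w u ∈ C.RC) ∧
      (∀ u, u ∈ RS ∨ u ∈ B' → x ≠ l u) ∧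
      (∀ u ∈ X.t.nb w, u ∈ D → ∀ u', u' ∈ CS ∨ u' ∈ E → x + rr X l w u ≠ X.col l u') ∧
      ∑ j, (v j + F x j) ^ 2 ≤ ∑ j, v j ^ 2 + 2 * M * a + b := by
  classical
  have hinj : ∀ u ∈ (X.t.nb w).filter (fun v => v ∈ D), ∀ u' ∈ (X.t.nb w).filter (fun v => v ∈ D),
      rr X l w u = rr X l w u' → u = u' := by
    intro u hu u' hu' he
    by_contra hne
    have hd : X.dom (X.kd w) = false := by
      by_contra hd
      rw [Bool.not_eq_false] at hd
      exact hne (card_le_one.1 (h1 hd) u hu u' hu')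
    rw [mem_filter] at hu hu'
    exact hne (grd_inj X hE hd hu.1 hu'.1 hu.2 hu'.2 he)
  obtain ⟨r1, r2, hr, hN⟩ := grd_shifts hn _ h2 (rr X l w) hinj
  set G := (C.R (X.kd w)).filter fun x => x + r1 ∈ C.RC ∧ x + r2 ∈ C.RC with hG
  set Bad := (RS ∪ B').image l ∪ ((CS ∪ E).image (fun u => X.col l u - r1) ∪
    (CS ∪ E).image (fun u => X.col l u - r2)) with hBad
  have hGc := hL r1 r2 hr
  have hBc : (Bad.card : ℝ) ≤ RS.card + 2 * CS.card + 5 * B'.card := by
    have e1 : Bad.card ≤ (RS.card + B'.card) + ((CS.card + E.card) + (CS.card + E.card)) := by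
      refine (card_union_le _ _).trans (Nat.add_le_add ?_ ((card_union_le _ _).trans
        (Nat.add_le_add ?_ ?_)))
      · exact card_image_le.trans (card_union_le _ _)
      · exact card_image_le.trans (card_union_le _ _)
      · exact card_image_le.trans (card_union_le _ _)
    have e2 : Bad.card ≤ RS.card + 2 * CS.card + 5 * B'.card := by omega
    exact_mod_cast e2
  have hΩc : c * n / 2 ≤ ((G \ Bad).card : ℝ) := by
    have e1 : G.card ≤ (G \ Bad).card + Bad.card := by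
      have := card_sdiff_add_card_inter G Bad
      have h3 : (G ∩ Bad).card ≤ Bad.card := card_le_card inter_subset_right
      omega
    have e2 : (G.card : ℝ) ≤ (G \ Bad).card + Bad.card := by exact_mod_cast e1
    have e3 : (0 : ℝ) ≤ B'.card := Nat.cast_nonneg _
    linarith
  have hn0 : (0 : ℝ) < n := by
    have : 0 < n := by omega
    exact_mod_cast this
  have hne : (G \ Bad).Nonempty := by
    rw [← card_pos]
    have : (0 : ℝ) < ((G \ Bad).card : ℝ) := lt_of_lt_of_le (by positivity) hΩc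
    exact_mod_cast this
  obtain ⟨x, hx, hpot⟩ := pick (G \ Bad) hne v F M a b hM ha hFM (hF _ hΩc) (fun x _ => hFb x)
  rw [mem_sdiff, hG, mem_filter, hBad, mem_union, mem_union, not_or, not_or] at hx
  obtain ⟨⟨hx1, hx2, hx3⟩, hx4, hx5, hx6⟩ := hx
  refine ⟨x, hx1, ?_, ?_, ?_, hpot⟩
  · intro u hu hD
    rcases hN u (mem_filter.2 ⟨hu, hD⟩) with h | h
    · rw [h]; exact hx2
    · rw [h]; exact hx3
  · intro u hu he
    apply hx4
    rw [mem_image]
    refine ⟨u, ?_, he.symm⟩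
    rw [mem_union]
    exact hu
  · intro u hu hD u' hu' he
    rcases hN u (mem_filter.2 ⟨hu, hD⟩) with h | h
    · apply hx5
      rw [mem_image]
      refine ⟨u', by rw [mem_union]; exact hu', ?_⟩
      rw [← he, h, add_sub_cancel_right]
    · apply hx6
      rw [mem_image]
      refine ⟨u', by rw [mem_union]; exact hu', ?_⟩
      rw [← he, h, add_sub_cancel_right]

private lemma grd_ver [NeZero n] (X : KT W Kd Ψ) (C : Cfg n W Kd Ψ) (hn : 2 ≤ n)
    (A B' RS CS : Finset W) (lab l : W → ZMod n) (w : W) (x : ZMod n) (hwA : w ∉ A) (hwB : w ∉ B')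
    (hlA : ∀ u ∈ A, l u = lab u) (hE : X.Emb (A ∪ B') l)
    (hlB : ∀ u ∈ B', l u ∈ C.R (X.kd u))
    (hlC : ∀ u, X.EdgeIn (A ∪ B') u → ¬ X.EdgeIn A u → X.col l u ∈ C.RC)
    (hRS : ∀ u ∈ A, u ∉ RS → ∀ k, X.side k = X.side (X.kd u) → lab u ∉ C.R k)
    (hCS : ∀ u, X.EdgeIn A u → u ∉ CS → X.col lab u ∉ C.RC)
    (hdA : ∀ u ∈ A, X.dom (X.kd u) = true → ∀ k, X.side k = X.side (X.kd u) →
      lab u + 1 ∉ C.R k)
    (hdR : ∀ k, X.dom k = true → ∀ x ∈ C.R k, (∀ k', X.side k' = X.side k → x + 1 ∉ C.R k') ∧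
      ∀ u ∈ A, X.side (X.kd u) = X.side k → lab u ≠ x + 1)
    (h1 : X.dom (X.kd w) = true → ((X.t.nb w).filter fun v => v ∈ A ∪ B').card ≤ 1)
    (hx : x ∈ C.R (X.kd w)) (hxC : ∀ u ∈ X.t.nb w, u ∈ A ∪ B' → x + rr X l w u ∈ C.RC)
    (hxl : ∀ u, u ∈ RS ∨ u ∈ B' → x ≠ l u)
    (hxc : ∀ u ∈ X.t.nb w, u ∈ A ∪ B' → ∀ u', u' ∈ CS ∨ u' ∈ NE X A B' →
      x + rr X l w u ≠ X.col l u') :
    X.Emb (insert w (A ∪ B')) (Function.update l w x) ∧
      (∀ u, X.EdgeIn (insert w (A ∪ B')) u → ¬ X.EdgeIn A u →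
        X.col (Function.update l w x) u ∈ C.RC) := by
  classical
  have hwD : w ∉ A ∪ B' := by
    rw [mem_union]
    rintro (h | h)
    · exact hwA h
    · exact hwB h
  have : Fact (1 < n) := ⟨by omega⟩
  have h10 : (1 : ZMod n) ≠ 0 := one_ne_zero
  have hx1 : x ≠ x + 1 := by
    intro h
    apply h10
    have : x + 1 = x + 0 := by rw [add_zero]; exact h.symm
    exact add_left_cancel this
  have hup : ∀ u ∈ A ∪ B', Function.update l w x u = l u := by
    intro u hu
    have hne : u ≠ w := by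
      rintro rfl
      exact hwD hu
    exact Function.update_of_ne hne _ _
  -- no label of `A ∪ B'` on the side of `w` is equal to `x`
  have hxD : ∀ u ∈ A ∪ B', X.side (X.kd u) = X.side (X.kd w) → l u ≠ x := by
    intro u hu hs he
    rcases mem_union.1 hu with h | h
    · by_cases hr : u ∈ RS
      · exact hxl u (Or.inl hr) he.symm
      · apply hRS u h hr (X.kd w) hs.symm
        rw [← hlA u h, he]
        exact hx
    · exact hxl u (Or.inr h) he.symm
  have hold : ∀ u, X.EdgeIn (A ∪ B') u → X.col (Function.update l w x) u = X.col l u :=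
    fun u hu => grd_old X l x hwD hu
  have hinjr : ∀ v v', v ∈ X.t.nb w → v' ∈ X.t.nb w → v ∈ A ∪ B' → v' ∈ A ∪ B' →
      rr X l w v = rr X l w v' → v = v' := by
    intro v v' hv hv' hD hD' he
    by_contra hne
    have hd : X.dom (X.kd w) = false := by
      by_contra hd
      rw [Bool.not_eq_false] at hd
      exact hne (card_le_one.1 (h1 hd) v (mem_filter.2 ⟨hv, hD⟩) v' (mem_filter.2 ⟨hv', hD'⟩))
    exact hne (grd_inj X hE hd hv hv' hD hD' he)
  -- new edge against old edge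
  have hno : ∀ v, v ∈ X.t.nb w → v ∈ A ∪ B' → ∀ u, X.EdgeIn (A ∪ B') u →
      x + rr X l w v ≠ X.col l u := by
    intro v hv hD u hu
    by_cases hA : X.EdgeIn A u
    · by_cases hC : u ∈ CS
      · exact hxc v hv hD u (Or.inl hC)
      · intro he
        apply hCS u hA hC
        have e1 : X.col lab u = X.col l u := by
          unfold KT.col
          rw [hlA u hA.2.1, hlA _ hA.2.2]
        rw [e1, ← he]
        exact hxC v hv hD
    · apply hxc v hv hD u (Or.inr _)
      unfold NE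
      rw [mem_filter]
      exact ⟨mem_univ u, hu, hA⟩
  refine ⟨⟨?_, ?_, ?_⟩, ?_⟩
  · intro u hu v hv hs he
    rcases mem_insert.1 hu with rfl | hu <;> rcases mem_insert.1 hv with e | hv
    · exact e.symm
    · rw [Function.update_self, hup v hv] at he
      exact absurd he.symm (hxD v hv hs.symm)
    · rw [e, Function.update_self, hup u hu] at he
      rw [e] at hs
      exact absurd he (hxD u hu hs)
    · rw [hup u hu, hup v hv] at he
      exact hE.inj u hu v hv hs he
  · intro u hu v hv hs hd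
    rcases mem_insert.1 hu with rfl | hu <;> rcases mem_insert.1 hv with e | hv
    · rw [e, Function.update_self]
      exact hx1
    · rw [Function.update_self, hup v hv]
      rcases mem_union.1 hv with h | h
      · rw [hlA v h]
        exact (hdR _ hd x hx).2 v h hs.symm
      · intro he
        apply (hdR _ hd x hx).1 (X.kd v) hs.symm
        rw [← he]
        exact hlB v h
    · rw [e, Function.update_self, hup u hu]
      rw [e] at hs
      intro he
      rcases mem_union.1 hu with h | h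
      · apply hdA u h hd (X.kd w) hs.symm
        rw [← hlA u h, ← he]
        exact hx
      · apply (hdR _ hd (l u) (hlB u h)).1 (X.kd w) hs.symm
        rw [← he]
        exact hx
    · rw [hup u hu, hup v hv]
      exact hE.dmn u hu v hv hs hd
  · intro u v hu hv he
    rcases grd_new X hu with hu | ⟨u1, hu1, hu2, rfl⟩ <;>
      rcases grd_new X hv with hv | ⟨v1, hv1, hv2, rfl⟩
    · rw [hold u hu, hold v hv] at he
      exact hE.cin u v hu hv he
    · rw [hold u hu, grd_col X l x hv2] at he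
      exact absurd he.symm (hno v1 hv2 hv1 u hu)
    · rw [hold v hv, grd_col X l x hu2] at he
      exact absurd he (hno u1 hu2 hu1 v hv)
    · rw [grd_col X l x hu2, grd_col X l x hv2] at he
      rw [hinjr u1 v1 hu2 hv2 hu1 hv1 (add_left_cancel he)]
  · intro u hu hA
    rcases grd_new X hu with hu | ⟨u1, hu1, hu2, rfl⟩
    · rw [hold u hu]
      exact hlC u hu hA
    · rw [grd_col X l x hu2]
      exact hxC u1 hu2 hu1

private lemma grd_NE (X : KT W Kd Ψ) (A B' : Finset W) (w : W)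
    (h2 : ((X.t.nb w).filter fun v => v ∈ A ∪ B').card ≤ 2) :
    (NE X A (insert w B')).card ≤ (NE X A B').card + 2 := by
  classical
  have h1 : NE X A (insert w B') ⊆ NE X A B' ∪
      ((X.t.nb w).filter fun v => v ∈ A ∪ B').image (ed X w) := by
    intro u hu
    unfold NE at hu
    rw [mem_filter, union_insert] at hu
    rw [mem_union]
    rcases grd_new X hu.2.1 with h | ⟨v, hv1, hv2, rfl⟩
    · left
      unfold NE
      rw [mem_filter]
      exact ⟨mem_univ u, h, hu.2.2⟩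
    · right
      exact mem_image_of_mem _ (mem_filter.2 ⟨hv2, hv1⟩)
  refine (card_le_card h1).trans ((card_union_le _ _).trans ?_)
  have h3 : (((X.t.nb w).filter fun v => v ∈ A ∪ B').image (ed X w)).card ≤ 2 :=
    card_image_le.trans h2
  omega

private lemma grd_low (X : KT W Kd Ψ) (A B' : Finset W) (rk : W → ℕ) (w : W)
    (hw : ∀ u ∈ B', rk u ≤ rk w) :
    ((X.t.nb w).filter fun v => v ∈ A ∪ B') ⊆ low X A (insert w B') rk w := by
  intro v hv
  unfold low
  rw [mem_filter] at hv ⊢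
  refine ⟨hv.1, ?_⟩
  rcases mem_union.1 hv.2 with h | h
  · exact Or.inl h
  · exact Or.inr ⟨mem_insert_of_mem h, hw v h⟩

private lemma grd_low2 (X : KT W Kd Ψ) (A B' : Finset W) (rk : W → ℕ) (w v : W) :
    low X A B' rk v ⊆ low X A (insert w B') rk v := by
  intro u hu
  unfold low at hu ⊢
  rw [mem_filter] at hu ⊢
  refine ⟨hu.1, ?_⟩
  rcases hu.2 with h | h
  · exact Or.inl h
  · exact Or.inr ⟨mem_insert_of_mem h.1, h.2⟩

private lemma grd_main [NeZero n] (X : KT W Kd Ψ) (C : Cfg n W Kd Ψ) (c : ℝ) (hc : 0 < c)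
    (hn : 2 ≤ n) (A : Finset W) (lab : W → ZMod n) (hE : X.Emb A lab)
    (RS CS : Finset W)
    (hRS : ∀ u ∈ A, u ∉ RS → ∀ k, X.side k = X.side (X.kd u) → lab u ∉ C.R k)
    (hCS : ∀ u, X.EdgeIn A u → u ∉ CS → X.col lab u ∉ C.RC)
    (hdA : ∀ u ∈ A, X.dom (X.kd u) = true → ∀ k, X.side k = X.side (X.kd u) →
      lab u + 1 ∉ C.R k)
    (hdR : ∀ k, X.dom k = true → ∀ x ∈ C.R k, (∀ k', X.side k' = X.side k → x + 1 ∉ C.R k') ∧
      ∀ u ∈ A, X.side (X.kd u) = X.side k → lab u ≠ x + 1)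
    (rk : W → ℕ)
    (hL : ∀ k (r r' : ZMod n), r ≠ r' → c * n ≤
      (((C.R k).filter fun x => x + r ∈ C.RC ∧ x + r' ∈ C.RC).card : ℝ))
    {J : Type} [Fintype J] (F : W → ZMod n → J → ℝ) (a b : W → ℝ) (M : ℝ) (hM : 0 ≤ M)
    (B : Finset W) :
    Disjoint A B → (∀ w ∈ B, (low X A B rk w).card ≤ 2) →
    (∀ w ∈ B, X.dom (X.kd w) = true → (low X A B rk w).card ≤ 1) →
    ((RS.card + 2 * CS.card + 7 * B.card : ℝ) ≤ c * n / 2) →
    (∀ w ∈ B, 0 ≤ a w) →
    (∀ w ∈ B, ∀ Ω : Finset (ZMod n), c * n / 2 ≤ (Ω.card : ℝ) →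
      ∑ j, (∑ x ∈ Ω, F w x j) ^ 2 ≤ (a w * Ω.card) ^ 2) →
    (∀ w ∈ B, ∀ x, ∑ j, F w x j ^ 2 ≤ b w) →
    (∀ B' ⊆ B, ∀ l : W → ZMod n, ∑ j, (∑ w ∈ B', F w (l w) j) ^ 2 ≤ M ^ 2) →
    ∃ lab' : W → ZMod n, (∀ u ∈ A, lab' u = lab u) ∧ X.Emb (A ∪ B) lab' ∧
      (∀ w ∈ B, lab' w ∈ C.R (X.kd w)) ∧
      (∀ u, X.EdgeIn (A ∪ B) u → ¬ X.EdgeIn A u → X.col lab' u ∈ C.RC) ∧
      (NE X A B).card ≤ 2 * B.card ∧
      ∑ j, (∑ w ∈ B, F w (lab' w) j) ^ 2 ≤ ∑ w ∈ B, (2 * M * a w + b w) := by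
  classical
  induction B using Finset.induction_on_max_value rk with
  | empty =>
    intro _ _ _ _ _ _ _ _
    refine ⟨lab, fun _ _ => rfl, ?_, fun w hw => absurd hw (notMem_empty w), ?_, ?_, ?_⟩
    · rw [union_empty]
      exact hE
    · intro u hu hA
      rw [union_empty] at hu
      exact absurd hu hA
    · rw [card_empty, Nat.mul_zero, Nat.le_zero, card_eq_zero]
      unfold NE
      rw [filter_eq_empty_iff]
      intro u _ hu
      rw [union_empty] at hu
      exact hu.2 hu.1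
    · simp
  | insert w B' hwB hrk ih =>
    intro hAB h2 h1 hsz ha hF hFb hFM
    have hsub : B' ⊆ insert w B' := subset_insert w B'
    have hwi : w ∈ insert w B' := mem_insert_self w B'
    have hcard : (insert w B').card = B'.card + 1 := card_insert_of_notMem hwB
    have hcR : ((insert w B').card : ℝ) = B'.card + 1 := by exact_mod_cast hcard
    have hwA : w ∉ A := fun h => (disjoint_left.1 hAB h) hwi
    rw [hcR] at hsz
    obtain ⟨l, hlA, hlE, hlB, hlC, hlN, hlP⟩ := ih (disjoint_of_subset_right hsub hAB)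
      (fun v hv => (card_le_card (grd_low2 X A B' rk w v)).trans (h2 v (hsub hv)))
      (fun v hv hd => (card_le_card (grd_low2 X A B' rk w v)).trans (h1 v (hsub hv) hd))
      (by linarith) (fun v hv => ha v (hsub hv)) (fun v hv => hF v (hsub hv))
      (fun v hv => hFb v (hsub hv)) (fun B'' hB'' => hFM B'' (hB''.trans hsub))
    have h2' : ((X.t.nb w).filter fun v => v ∈ A ∪ B').card ≤ 2 :=
      (card_le_card (grd_low X A B' rk w hrk)).trans (h2 w hwi)
    have h1' : X.dom (X.kd w) = true → ((X.t.nb w).filter fun v => v ∈ A ∪ B').card ≤ 1 :=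
      fun hd => (card_le_card (grd_low X A B' rk w hrk)).trans (h1 w hwi hd)
    obtain ⟨x, hx, hxC, hxl, hxc, hpot⟩ := grd_choose X C c hc hn (A ∪ B') RS CS B' (NE X A B') l w
      hlE h2' h1' (hL (X.kd w)) hlN hsz (F w) (fun j => ∑ v ∈ B', F v (l v) j) (a w) (b w) M hM
      (ha w hwi) (hF w hwi) (hFb w hwi) (hFM B' hsub l)
    obtain ⟨hv1, hv2⟩ := grd_ver X C hn A B' RS CS lab l w x hwA hwB hlA hlE hlB hlC hRS hCS hdA hdR
      h1' hx hxC hxl hxc
    have hun : A ∪ insert w B' = insert w (A ∪ B') := union_insert w A B'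
    refine ⟨Function.update l w x, ?_, ?_, ?_, ?_, ?_, ?_⟩
    · intro u hu
      have hne' : u ≠ w := by
        rintro rfl
        exact hwA hu
      rw [Function.update_of_ne hne', hlA u hu]
    · rw [hun]
      exact hv1
    · intro u hu
      rcases mem_insert.1 hu with rfl | h
      · rw [Function.update_self]
        exact hx
      · have hne' : u ≠ w := by
          rintro rfl
          exact hwB h
        rw [Function.update_of_ne hne']
        exact hlB u h
    · rw [hun]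
      exact hv2
    · rw [hcard]
      have := grd_NE X A B' w h2'
      omega
    · rw [sum_insert hwB]
      have e1 : ∀ j, ∑ v ∈ insert w B', F v (Function.update l w x v) j =
          ∑ v ∈ B', F v (l v) j + F w x j := by
        intro j
        rw [sum_insert hwB, Function.update_self, add_comm]
        congr 1
        refine sum_congr rfl fun v hv => ?_
        have hne' : v ≠ w := by
          rintro rfl
          exact hwB hv
        rw [Function.update_of_ne hne']
      simp only [e1]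
      linarith

/-- **Greedy extension with potential.** -/
theorem greedy [NeZero n] (X : KT W Kd Ψ) (C : Cfg n W Kd Ψ) (c : ℝ) (hc : 0 < c) (hn : 2 ≤ n)
    (A B : Finset W) (hAB : Disjoint A B) (lab : W → ZMod n) (hE : X.Emb A lab)
    (RS CS : Finset W)
    (hRS : ∀ u ∈ A, u ∉ RS → ∀ k, X.side k = X.side (X.kd u) → lab u ∉ C.R k)
    (hCS : ∀ u, X.EdgeIn A u → u ∉ CS → X.col lab u ∉ C.RC)
    (hdA : ∀ u ∈ A, X.dom (X.kd u) = true → ∀ k, X.side k = X.side (X.kd u) →
      lab u + 1 ∉ C.R k)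
    (hdR : ∀ k, X.dom k = true → ∀ x ∈ C.R k, (∀ k', X.side k' = X.side k → x + 1 ∉ C.R k') ∧
      ∀ u ∈ A, X.side (X.kd u) = X.side k → lab u ≠ x + 1)
    (rk : W → ℕ) (h2 : ∀ w ∈ B, (low X A B rk w).card ≤ 2)
    (h1 : ∀ w ∈ B, X.dom (X.kd w) = true → (low X A B rk w).card ≤ 1)
    (hne : ∀ w ∈ B, ∀ v ∈ B, v ∈ X.t.nb w → rk v ≠ rk w)
    (hL : ∀ k (r r' : ZMod n), r ≠ r' → c * n ≤
      (((C.R k).filter fun x => x + r ∈ C.RC ∧ x + r' ∈ C.RC).card : ℝ))
    (hsz : (RS.card + 2 * CS.card + 7 * B.card : ℝ) ≤ c * n / 2)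
    {J : Type} [Fintype J] (F : W → ZMod n → J → ℝ) (a b : W → ℝ) (M : ℝ) (hM : 0 ≤ M)
    (ha : ∀ w ∈ B, 0 ≤ a w)
    (hF : ∀ w ∈ B, ∀ Ω : Finset (ZMod n), c * n / 2 ≤ (Ω.card : ℝ) →
      ∑ j, (∑ x ∈ Ω, F w x j) ^ 2 ≤ (a w * Ω.card) ^ 2)
    (hFb : ∀ w ∈ B, ∀ x, ∑ j, F w x j ^ 2 ≤ b w)
    (hFM : ∀ B' ⊆ B, ∀ l : W → ZMod n, ∑ j, (∑ w ∈ B', F w (l w) j) ^ 2 ≤ M ^ 2) :
    ∃ lab' : W → ZMod n, (∀ u ∈ A, lab' u = lab u) ∧ X.Emb (A ∪ B) lab' ∧
      (∀ w ∈ B, lab' w ∈ C.R (X.kd w)) ∧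
      (∀ u, X.EdgeIn (A ∪ B) u → ¬ X.EdgeIn A u → X.col lab' u ∈ C.RC) ∧
      ∑ j, (∑ w ∈ B, F w (lab' w) j) ^ 2 ≤ ∑ w ∈ B, (2 * M * a w + b w) := by
  obtain ⟨lab', h3, h4, h5, h6, -, h7⟩ := grd_main X C c hc hn A lab hE RS CS hRS hCS hdA hdR rk hL F
    a b M hM B hAB h2 h1 hsz ha hF hFb hFM
  exact ⟨lab', h3, h4, h5, h6, h7⟩

end Pool.Agent.Lib.MP_c5b475_co.KN
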