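import Pool.Agent.Lib.MP_c5b475_co.KN.Law
import Pool.Agent.Lib.MP_c5b475_co.NB.Surv

/-!
# KN/Hg: the hypergraph of labelled pieces
-/

set_option autoImplicit false
set_option linter.unusedSectionVars false

namespace Pool.Agent.Lib.MP_c5b475_co.KN

open Finset NB

variable {n : ℕ} [NeZero n] {Φ Ψ I : Type} [Fintype Φ] [DecidableEq Φ] [Fintype Ψ] [DecidableEq Ψ]
  [Fintype I] [DecidableEq I]

/-- labels and colours as vertices of the hypergraph -/
abbrev LC (S : Φ → Finset (ZMod n)) (Q : Ψ → Finset (ZMod n)) : Type :=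
  (Σ φ : Φ, {x : ZMod n // x ∈ S φ}) ⊕ (Σ c : Ψ, {x : ZMod n // x ∈ Q c})

/-- vertices of the hypergraph -/
abbrev Tok (S : Φ → Finset (ZMod n)) (Q : Ψ → Finset (ZMod n)) (I : Type) : Type :=
  I ⊕ LC S Q

/-- edges of the hypergraph: labelled pieces -/
abbrev Edg (P : Pcs n Φ Ψ I) : Type := Σ i : I, (Fin (P.T i) → ZMod n)

variable {S : Φ → Finset (ZMod n)} {Q : Ψ → Finset (ZMod n)}

/-- step `t` of piece `i` may use the label or colour `a` -/
def cmp (P : Pcs n Φ Ψ I) (i : I) (t : ℕ) : LC S Q → Prop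
  | Sum.inl a => P.ph i t = a.1
  | Sum.inr b => P.cc i t = some b.1

/-- the label which step `t` must choose in order to use `a` -/
def tg (P : Pcs n Φ Ψ I) (i : I) (t : ℕ) (y : ℕ → ZMod n) : LC S Q → ZMod n
  | Sum.inl a => a.2.1
  | Sum.inr b => b.2.1 - P.base i t y

/-- the labelled piece `(i, y)` uses the vertex `v` -/
def Inc (P : Pcs n Φ Ψ I) (i : I) (y : ℕ → ZMod n) : Tok S Q I → Prop
  | Sum.inl j => i = j
  | Sum.inr a => ∃ t < P.T i, cmp P i t a ∧ y t = tg P i t y a

/-- the vertices of an edge -/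
noncomputable def vv (S : Φ → Finset (ZMod n)) (Q : Ψ → Finset (ZMod n)) (P : Pcs n Φ Ψ I)
    (e : Edg P) : Finset (Tok S Q I) := by
  classical exact univ.filter (fun v => Inc P e.1 (ext e.2) v)

theorem mem_vv (P : Pcs n Φ Ψ I) (e : Edg P) (v : Tok S Q I) :
    v ∈ vv S Q P e ↔ Inc P e.1 (ext e.2) v := by
  unfold vv
  simp

/-- no collision inside the piece -/
def SepIn (P : Pcs n Φ Ψ I) (i : I) (y : ℕ → ZMod n) : Prop :=
  ∀ t < P.T i, ∀ u < P.T i, t ≠ u → P.Sep i y t i y u

/-- weight of an edge -/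
noncomputable def ww (S : Φ → Finset (ZMod n)) (Q : Ψ → Finset (ZMod n)) (P : Pcs n Φ Ψ I)
    (e : Edg P) : ℝ := ind (SepIn P e.1 (ext e.2)) * Wt (kt S Q P e.1) e.2

theorem sum_ww (P : Pcs n Φ Ψ I) (hk : ∀ i, Krn (kt S Q P i)) (g : I → (ℕ → ZMod n) → ℝ) :
    ∑ e : Edg P, ww S Q P e * g e.1 (ext e.2) =
      ∑ i, EX (kt S Q P i) (P.T i) (fun y => ind (SepIn P i y) * g i y) := by
  rw [Fintype.sum_sigma]
  refine Finset.sum_congr rfl fun i _ => ?_
  rw [EX_eq (hk i)]
  refine Finset.sum_congr rfl fun φ _ => ?_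
  unfold ww
  ring

theorem ww_nonneg (P : Pcs n Φ Ψ I) (hk : ∀ i, Krn (kt S Q P i)) (e : Edg P) :
    0 ≤ ww S Q P e := mul_nonneg (ind_nonneg _) (Wt_nonneg (hk _) _)

theorem card_vv (P : Pcs n Φ Ψ I) {K : ℕ} (hK : ∀ i, P.T i ≤ K) (e : Edg P) :
    (vv S Q P e).card ≤ 1 + 2 * K := by
  classical
  set y := ext e.2 with hy
  set L : ℕ → Finset (Tok S Q I) := fun t => univ.filter (fun v => match v with
    | Sum.inl _ => False
    | Sum.inr (Sum.inl a) => P.ph e.1 t = a.1 ∧ y t = a.2.1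
    | Sum.inr (Sum.inr _) => False) with hL
  set R : ℕ → Finset (Tok S Q I) := fun t => univ.filter (fun v => match v with
    | Sum.inl _ => False
    | Sum.inr (Sum.inl _) => False
    | Sum.inr (Sum.inr b) => P.cc e.1 t = some b.1 ∧ y t = b.2.1 - P.base e.1 t y) with hR
  have h1 : vv S Q P e ⊆ {Sum.inl e.1} ∪ ((range (P.T e.1)).biUnion L ∪
      (range (P.T e.1)).biUnion R) := by
    intro v hv
    rw [mem_vv] at hv
    rcases v with j | a | b
    · have h2 : e.1 = j := hv
      simp [h2]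
    · obtain ⟨t, ht, h2, h3⟩ := hv
      refine Finset.mem_union_right _ (Finset.mem_union_left _ ?_)
      rw [Finset.mem_biUnion]
      exact ⟨t, Finset.mem_range.2 ht, Finset.mem_filter.2 ⟨Finset.mem_univ _, h2, h3⟩⟩
    · obtain ⟨t, ht, h2, h3⟩ := hv
      refine Finset.mem_union_right _ (Finset.mem_union_right _ ?_)
      rw [Finset.mem_biUnion]
      exact ⟨t, Finset.mem_range.2 ht, Finset.mem_filter.2 ⟨Finset.mem_univ _, h2, h3⟩⟩
  have h2 : ∀ t, (L t).card ≤ 1 := by
    intro t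
    rw [Finset.card_le_one]
    intro a ha b hb
    rw [hL, Finset.mem_filter] at ha hb
    obtain ⟨-, ha⟩ := ha
    obtain ⟨-, hb⟩ := hb
    rcases a with j | ⟨φ, x⟩ | a
    · exact ha.elim
    · rcases b with j | ⟨φ', x'⟩ | b
      · exact hb.elim
      · simp only at ha hb
        obtain ⟨h3, h4⟩ := ha
        obtain ⟨h5, h6⟩ := hb
        have h7 : φ = φ' := by rw [← h3, ← h5]
        subst h7
        have h8 : x = x' := Subtype.ext (by rw [← h4, ← h6])
        rw [h8]
      · exact hb.elim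
    · exact ha.elim
  have h3 : ∀ t, (R t).card ≤ 1 := by
    intro t
    rw [Finset.card_le_one]
    intro a ha b hb
    rw [hR, Finset.mem_filter] at ha hb
    obtain ⟨-, ha⟩ := ha
    obtain ⟨-, hb⟩ := hb
    rcases a with j | a | ⟨φ, x⟩
    · exact ha.elim
    · exact ha.elim
    · rcases b with j | b | ⟨φ', x'⟩
      · exact hb.elim
      · exact hb.elim
      · simp only at ha hb
        obtain ⟨h3, h4⟩ := ha
        obtain ⟨h5, h6⟩ := hb
        have h7 : φ = φ' := by
          rw [h3] at h5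
          exact Option.some.inj h5
        subst h7
        have h8 : x.1 = x'.1 := by
          rw [h4] at h6
          exact sub_left_inj.1 h6
        have h9 : x = x' := Subtype.ext h8
        rw [h9]
  refine le_trans (Finset.card_le_card h1) (le_trans (Finset.card_union_le _ _) ?_)
  rw [Finset.card_singleton]
  refine Nat.add_le_add_left (le_trans (Finset.card_union_le _ _) ?_) 1
  have h4 : ((range (P.T e.1)).biUnion L).card ≤ P.T e.1 := by
    refine le_trans (Finset.card_biUnion_le) ?_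
    refine le_trans (Finset.sum_le_sum fun t _ => h2 t) ?_
    simp
  have h5 : ((range (P.T e.1)).biUnion R).card ≤ P.T e.1 := by
    refine le_trans (Finset.card_biUnion_le) ?_
    refine le_trans (Finset.sum_le_sum fun t _ => h3 t) ?_
    simp
  have h6 := hK e.1
  omega

theorem dg_eq (P : Pcs n Φ Ψ I) (hk : ∀ i, Krn (kt S Q P i)) (v : Tok S Q I) :
    dg (vv S Q P) (ww S Q P) v =
      ∑ i, EX (kt S Q P i) (P.T i) (fun y => ind (SepIn P i y) * ind (Inc P i y v)) := by
  rw [← sum_ww P hk (fun i y => ind (Inc P i y v))]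
  unfold dg
  rw [Finset.sum_filter]
  refine Finset.sum_congr rfl fun e _ => ?_
  by_cases h : v ∈ vv S Q P e
  · rw [if_pos h, ind_pos ((mem_vv P e v).1 h), mul_one]
  · rw [if_neg h, ind_neg (fun h' => h ((mem_vv P e v).2 h')), mul_zero]

theorem cw_eq (P : Pcs n Φ Ψ I) (hk : ∀ i, Krn (kt S Q P i)) (u v : Tok S Q I) :
    cw (vv S Q P) (ww S Q P) u v =
      ∑ i, EX (kt S Q P i) (P.T i)
        (fun y => ind (SepIn P i y) * (ind (Inc P i y u) * ind (Inc P i y v))) := by
  rw [← sum_ww P hk (fun i y => ind (Inc P i y u) * ind (Inc P i y v))]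
  unfold cw
  rw [Finset.sum_filter]
  refine Finset.sum_congr rfl fun e _ => ?_
  by_cases h : u ∈ vv S Q P e
  · by_cases h' : v ∈ vv S Q P e
    · rw [if_pos ⟨h, h'⟩, ind_pos ((mem_vv P e u).1 h), ind_pos ((mem_vv P e v).1 h')]
      ring
    · rw [if_neg (fun H => h' H.2), ind_neg (fun h2 => h' ((mem_vv P e v).2 h2))]
      ring
  · rw [if_neg (fun H => h H.1), ind_neg (fun h2 => h ((mem_vv P e u).2 h2))]
    ring

theorem dg_inl (P : Pcs n Φ Ψ I) (hk : ∀ i, Krn (kt S Q P i)) (j : I) :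
    dg (vv S Q P) (ww S Q P) (Sum.inl j) =
      EX (kt S Q P j) (P.T j) (fun y => ind (SepIn P j y)) := by
  rw [dg_eq P hk]
  have h1 : ∀ i, EX (kt S Q P i) (P.T i) (fun y => ind (SepIn P i y) *
      ind (Inc (S := S) (Q := Q) P i y (Sum.inl j))) =
      if i = j then EX (kt S Q P j) (P.T j) (fun y => ind (SepIn P j y)) else 0 := by
    intro i
    by_cases h : i = j
    · subst h
      rw [if_pos rfl]
      congr 1
      funext y
      rw [ind_pos (show Inc (S := S) (Q := Q) P i y (Sum.inl i) from rfl), mul_one]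
    · rw [if_neg h]
      have h2 : (fun y => ind (SepIn P i y) * ind (Inc (S := S) (Q := Q) P i y (Sum.inl j))) =
          fun _ => 0 := by
        funext y
        rw [ind_neg (show ¬ Inc (S := S) (Q := Q) P i y (Sum.inl j) from h), mul_zero]
      rw [h2, EX_zero]
  simp only [h1]
  simp

theorem ind_Inc_le (P : Pcs n Φ Ψ I) (i : I) (y : ℕ → ZMod n) (a : LC S Q) :
    ind (Inc P i y (Sum.inr a)) ≤
      ∑ t ∈ range (P.T i), ind (cmp P i t a) * (if y t = tg P i t y a then 1 else 0) := by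
  by_cases h : Inc P i y (Sum.inr a)
  · rw [ind_pos h]
    obtain ⟨t, ht, h1, h2⟩ := h
    have h3 : ind (cmp P i t a) * (if y t = tg P i t y a then (1 : ℝ) else 0) = 1 := by
      rw [ind_pos h1, if_pos h2, one_mul]
    refine le_trans h3.ge ?_
    exact Finset.single_le_sum (f := fun t => ind (cmp P i t a) *
      (if y t = tg P i t y a then (1 : ℝ) else 0))
      (fun t _ => mul_nonneg (ind_nonneg _) (by split_ifs <;> norm_num)) (Finset.mem_range.2 ht)
  · rw [ind_neg h]
    exact Finset.sum_nonneg fun t _ => mul_nonneg (ind_nonneg _) (by split_ifs <;> norm_num)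

/-- upper bound of a degree by the laws -/
theorem dg_inr_le (P : Pcs n Φ Ψ I) (hk : ∀ i, Krn (kt S Q P i)) (a : LC S Q)
    (hdep : ∀ i t, Dep t (fun y => tg P i t y a)) :
    dg (vv S Q P) (ww S Q P) (Sum.inr a) ≤ ∑ i, ∑ t ∈ range (P.T i), ind (cmp P i t a) *
      EX (kt S Q P i) (t + 1) (fun y => if y t = tg P i t y a then 1 else 0) := by
  rw [dg_eq P hk]
  refine Finset.sum_le_sum fun i _ => ?_
  refine le_trans (EX_mono (hk i) (P.T i) (g' := fun y => ∑ t ∈ range (P.T i),
    ind (cmp P i t a) * (if y t = tg P i t y a then 1 else 0)) fun y => ?_) ?_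
  · refine le_trans ?_ (ind_Inc_le P i y a)
    have := mul_le_mul_of_nonneg_right (ind_le_one (SepIn P i y))
      (ind_nonneg (Inc P i y (Sum.inr a)))
    linarith
  · rw [EX_sum]
    refine Finset.sum_le_sum fun t ht => ?_
    rw [EX_smul]
    refine mul_le_mul_of_nonneg_left ?_ (ind_nonneg _)
    have ht' := Finset.mem_range.1 ht
    refine EX_le (hk i) (show t + 1 ≤ P.T i by omega) (fun y => by split_ifs <;> norm_num) ?_
    intro y y' h
    have h1 := h t (by omega)
    have h2 := hdep i t y y' fun s hs => h s (by omega)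
    simp only at h2
    simp only [h1, h2]

end Pool.Agent.Lib.MP_c5b475_co.KN
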