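import Pool.Agent.Lib.MP_c5b475_co.KN.RT1

/-!
# KN/Host: heavy vertices, hosts and weights

A vertex is heavy if `K0 ≤ sz`. Ancestors of heavy vertices are heavy (`sz_mono`). The host of `w` is
the first heavy ancestor (`w` itself if heavy). `om h` = number of vertices with host `h`.

`om_count`: the fibres of `host` are disjoint, so `∑_h om h = card W` (over all `h`), and each `h` in the
filter contributes at least `K0`.
`om_leaf`: for a heavy `h` without heavy children the descendants of `h` are exactly the vertices with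
host `h`: a descendant `w ≠ h` of `h` is not heavy, because otherwise the child of `h` above `w` (an
ancestor of `w`) would be heavy; the first heavy ancestor of `w` lies on the path from `w` to `h`, it is a
descendant of `h`, so it is `h`. Conversely `host w = h` gives `Anc h w`.
`brn` (branch vertices are at most as many as heavy leaves): every heavy vertex except the root is a
heavy child of its parent (which is heavy), so `∑_{w heavy} |hch w| = (number of heavy) - 1`
(`hch w` for heavy `w` are disjoint and their union is the set of heavy vertices ≠ root). Hence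
`∑_{w heavy} (1 - |hch w|) = 1` over the integers; leaves contribute `1`, vertices with one heavy child
`0`, branch vertices at most `-1`. (The root is heavy by `hN`, `sz_root`.)
-/

set_option autoImplicit false

namespace Pool.Agent.Lib.MP_c5b475_co.KN

open Finset

namespace RTr

variable {W : Type} [Fintype W] [DecidableEq W]

open Classical in
/-- first heavy ancestor -/
noncomputable def host (t : RTr W) (K0 : ℕ) (w : W) : W :=
  if h : ∃ i : ℕ, K0 ≤ t.sz (t.par^[i] w) then t.par^[Nat.find h] w else t.root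

open Classical in
/-- number of vertices with host `h` -/
noncomputable def om (t : RTr W) (K0 : ℕ) (h : W) : ℕ := (univ.filter fun w => t.host K0 w = h).card

theorem host_heavy (t : RTr W) {K0 : ℕ} (hN : K0 ≤ Fintype.card W) (w : W) :
    K0 ≤ t.sz (t.host K0 w) := by
  have h : ∃ i : ℕ, K0 ≤ t.sz (t.par^[i] w) := ⟨t.dep w, by rw [t.iter_dep, t.sz_root]; exact hN⟩
  rw [host, dif_pos h]
  exact Nat.find_spec h

theorem host_of_heavy (t : RTr W) {K0 : ℕ} {w : W} (h : K0 ≤ t.sz w) : t.host K0 w = w := by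
  have h' : ∃ i : ℕ, K0 ≤ t.sz (t.par^[i] w) := ⟨0, h⟩
  have h0 : Nat.find h' = 0 := (Nat.find_eq_zero h').2 h
  rw [host, dif_pos h', h0]
  rfl

theorem host_of_light (t : RTr W) {K0 : ℕ} (hN : K0 ≤ Fintype.card W) {w : W}
    (h : ¬ K0 ≤ t.sz w) : t.host K0 w = t.host K0 (t.par w) := by
  have h1 : ∃ i : ℕ, K0 ≤ t.sz (t.par^[i] w) := ⟨t.dep w, by rw [t.iter_dep, t.sz_root]; exact hN⟩
  have h2 : ∃ i : ℕ, K0 ≤ t.sz (t.par^[i] (t.par w)) :=
    ⟨t.dep (t.par w), by rw [t.iter_dep, t.sz_root]; exact hN⟩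
  have h3 : Nat.find h1 = Nat.find h2 + 1 := by
    refine (Nat.find_eq_iff h1).2 ⟨?_, fun n hn => ?_⟩
    · rw [Function.iterate_succ_apply]
      exact Nat.find_spec h2
    · rcases n with _ | n
      · exact h
      · rw [Function.iterate_succ_apply]
        exact Nat.find_min h2 (by omega)
  rw [host, dif_pos h1, host, dif_pos h2, h3, Function.iterate_succ_apply]

/-- the host lies on the path from `w` to any heavy ancestor -/
theorem host_between (t : RTr W) {K0 : ℕ} {w : W} {i : ℕ} (h : K0 ≤ t.sz (t.par^[i] w)) :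
    ∃ i₀ ≤ i, t.host K0 w = t.par^[i₀] w := by
  have h' : ∃ i : ℕ, K0 ≤ t.sz (t.par^[i] w) := ⟨i, h⟩
  refine ⟨Nat.find h', Nat.find_min' h' h, ?_⟩
  rw [host, dif_pos h']

private theorem host_eq_of_anc (t : RTr W) {K0 : ℕ} {h w : W} (hh : K0 ≤ t.sz h)
    (hl : t.hch K0 h = ∅) (hw : t.Anc h w) : t.host K0 w = h := by
  obtain ⟨i, hi⟩ : ∃ i, Nat.find hw = i := ⟨_, rfl⟩
  have h1 : t.par^[i] w = h := hi ▸ Nat.find_spec hw
  have h2 : ∀ j < i, t.par^[j] w ≠ h := fun j hj => Nat.find_min hw (hi ▸ hj)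
  obtain ⟨i₀, hi₀, hi₁⟩ := t.host_between (w := w) (i := i) (K0 := K0) (by rw [h1]; exact hh)
  rcases hi₀.eq_or_lt with h3 | h3
  · rw [hi₁, h3, h1]
  · exfalso
    have h4 : K0 ≤ t.sz (t.par^[i₀] w) := by
      have h5 : ∃ i : ℕ, K0 ≤ t.sz (t.par^[i] w) := ⟨i, by rw [h1]; exact hh⟩
      have h6 : K0 ≤ t.sz (t.host K0 w) := by
        rw [host, dif_pos h5]
        exact Nat.find_spec h5
      rwa [hi₁] at h6
    have h7 : t.Anc (t.par^[i - 1] w) (t.par^[i₀] w) :=
      ⟨i - 1 - i₀, by rw [← Function.iterate_add_apply]; congr 1; omega⟩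
    have h8 : K0 ≤ t.sz (t.par^[i - 1] w) := h4.trans (t.sz_mono h7)
    have h9 : t.par (t.par^[i - 1] w) = h := by
      have h13 := Function.iterate_succ_apply' t.par (i - 1) w
      rw [show (i - 1).succ = i by omega, h1] at h13
      exact h13.symm
    have h10 : t.par^[i - 1] w ≠ t.root := fun h11 => h2 (i - 1) (by omega) (by
      rw [h11, t.par_root] at h9
      rw [h11, h9])
    have h12 : t.par^[i - 1] w ∈ t.hch K0 h := by
      rw [hch, mem_filter, t.mem_ch]
      exact ⟨⟨h10, h9⟩, h8⟩
    rw [hl] at h12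
    exact notMem_empty _ h12

theorem om_leaf (t : RTr W) {K0 : ℕ} {h : W} (hh : K0 ≤ t.sz h) (hl : t.hch K0 h = ∅) :
    K0 ≤ t.om K0 h := by
  classical
  refine hh.trans ?_
  rw [sz, om]
  refine card_le_card fun w hw => ?_
  rw [mem_filter] at hw ⊢
  exact ⟨hw.1, t.host_eq_of_anc hh hl hw.2⟩

open Classical in
theorem om_count (t : RTr W) (K0 : ℕ) :
    K0 * (univ.filter fun h => K0 ≤ t.sz h ∧ K0 ≤ t.om K0 h).card ≤ Fintype.card W := by
  have h1 : Fintype.card W = ∑ h, t.om K0 h := by
    have h2 := card_eq_sum_card_fiberwise (s := (univ : Finset W)) (t := (univ : Finset W))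
      (f := t.host K0) (fun _ _ => mem_univ _)
    rw [card_univ] at h2
    exact h2
  rw [h1, mul_comm]
  refine le_trans ?_ (sum_le_univ_sum_of_nonneg (s := univ.filter fun h => K0 ≤ t.sz h ∧
    K0 ≤ t.om K0 h) fun _ => Nat.zero_le _)
  exact card_nsmul_le_sum _ _ _ fun h hh => (mem_filter.1 hh).2.2

open Classical in
theorem brn (t : RTr W) {K0 : ℕ} (hN : K0 ≤ Fintype.card W) :
    (univ.filter fun w => K0 ≤ t.sz w ∧ 2 ≤ (t.hch K0 w).card).card ≤
      (univ.filter fun w => K0 ≤ t.sz w ∧ t.hch K0 w = ∅).card := by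
  set H : Finset W := univ.filter fun w => K0 ≤ t.sz w with hH
  have hr : t.root ∈ H := by
    rw [hH, mem_filter, t.sz_root]
    exact ⟨mem_univ _, hN⟩
  have h1 : (H.erase t.root).card = ∑ w ∈ H, (t.hch K0 w).card := by
    rw [card_eq_sum_card_fiberwise (s := H.erase t.root) (t := H) (f := t.par)]
    · refine sum_congr rfl fun w _ => ?_
      congr 1
      ext c
      simp only [hch, mem_filter, mem_erase, hH, mem_univ, true_and, t.mem_ch]
      tauto
    · intro c hc
      have hc' := (mem_filter.1 (mem_of_mem_erase (mem_coe.1 hc))).2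
      exact mem_coe.2 (mem_filter.2 ⟨mem_univ _, hc'.trans (t.sz_mono (t.anc_par c))⟩)
  have h2 : H.card = (∑ w ∈ H, (t.hch K0 w).card) + 1 := by
    rw [← h1, card_erase_add_one hr]
  have h3 : ∀ w ∈ H, 1 + (if 2 ≤ (t.hch K0 w).card then 1 else 0) ≤
      (t.hch K0 w).card + (if t.hch K0 w = ∅ then 1 else 0) := by
    intro w _
    by_cases h4 : t.hch K0 w = ∅
    · rw [if_pos h4, h4]
      simp
    · have h5 : 0 < (t.hch K0 w).card := card_pos.2 (nonempty_iff_ne_empty.2 h4)
      rw [if_neg h4]
      split_ifs <;> omega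
  have h6 := sum_le_sum h3
  rw [sum_add_distrib, sum_add_distrib, ← card_filter, ← card_filter] at h6
  rw [hH, filter_filter, filter_filter, ← hH] at h6
  have h7 : ∑ w ∈ H, 1 = H.card := by simp
  omega

end RTr

end Pool.Agent.Lib.MP_c5b475_co.KN
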