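import Pool.Agent.Lib.MP_c5b475_co.Layer
import Pool.Agent.Lib.MP_c5b475_co.Defs

/-!
# KN/HstA: trees with a cyclically labelled closed core, hosts with a `K_{m,m}`-factor
-/

set_option autoImplicit false

namespace Pool.Agent.Lib.MP_c5b475_co.KN

open Finset

/-- coordinates of a host with a `K_{m,m}`-factor -/
theorem HstA_coord {V : Type} {G : SimpleGraph V} {m : ℕ} [NeZero m] (hf : HasFactor G m) :
    ∃ (B : Type) (mk : Bool → B → ZMod m → V) (s : V → Bool) (bk : V → B) (lb : V → ZMod m),
      (∀ v, mk (s v) (bk v) (lb v) = v) ∧ (∀ a b x, s (mk a b x) = a) ∧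
      (∀ a b x, bk (mk a b x) = b) ∧ (∀ a b x, lb (mk a b x) = x) ∧
      (∀ u v, G.Adj u v → s v = !(s u)) ∧
      ∀ a b x y, G.Adj (mk a b x) (mk (!a) b y) := by
  obtain ⟨B, e, hl, hr, hK⟩ := hf
  let ε : Fin m ≃ ZMod m := (ZMod.finEquiv m).toEquiv
  refine ⟨B, fun a b x => if a = true then e (Sum.inl (b, ε.symm x)) else
    e (Sum.inr (b, ε.symm x)), fun v => Sum.elim (fun _ => true) (fun _ => false) (e.symm v),
    fun v => Sum.elim Prod.fst Prod.fst (e.symm v),
    fun v => Sum.elim (fun p => ε p.2) (fun p => ε p.2) (e.symm v), ?_, ?_, ?_, ?_, ?_, ?_⟩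
  · intro v
    obtain ⟨z, rfl⟩ := e.surjective v
    rcases z with z | z <;> simp
  · intro a b x
    cases a <;> simp
  · intro a b x
    cases a <;> simp
  · intro a b x
    cases a <;> simp
  · intro u v huv
    obtain ⟨z, rfl⟩ := e.surjective u
    obtain ⟨z', rfl⟩ := e.surjective v
    rcases z with z | z <;> rcases z' with z' | z'
    · exact absurd huv (hl z z')
    · simp
    · simp
    · exact absurd huv (hr z z')
  · intro a b x y
    cases a
    · exact (hK b _ _).symm
    · exact hK b _ _

/-- **Closed core theorem**: a tree with a core of `m` edges which contains all non-leaf vertices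
and is labelled modulo `m` injectively on each side with different edge sums decomposes every
regular bipartite graph with a `K_{m,m}`-factor. -/
theorem factor_closed {n m : ℕ} (hm : 1 ≤ m) {T : SimpleGraph (Fin (n + 1))} (R : RT T)
    (I : Finset (Fin (n + 1))) (lab : Fin (n + 1) → ZMod m) (hc : R.c ∈ I)
    (hpar : ∀ u ∈ I, u ≠ R.c → R.par u ∈ I) (hout : ∀ u, u ∉ I → R.par u ∈ I)
    (linj : ∀ u ∈ I, ∀ v ∈ I, (R.dep u : ZMod 2) = R.dep v → lab u = lab v → u = v)
    (lty : ∀ u ∈ I, ∀ v ∈ I, u ≠ R.c → v ≠ R.c →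
      lab u + lab (R.par u) = lab v + lab (R.par v) → u = v)
    (hcard : I.card = m + 1) {V : Type} [Fintype V] [DecidableEq V] (G : SimpleGraph V)
    [DecidableRel G.Adj] (hG : G.IsRegularOfDegree n) (hf : HasFactor G m) :
    Decomposes T G := by
  classical
  have hm0 : NeZero m := ⟨by omega⟩
  obtain ⟨B, mk, s, bk, lb, hv, hs, hb, hl, hadj, hblk⟩ := HstA_coord hf
  -- the matchings inside the blocks
  let K : ZMod m → V → V := fun t v => mk (!(s v)) (bk v) (t - lb v)
  have hK1 : ∀ t v, G.Adj v (K t v) := by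
    intro t v
    have := hblk (s v) (bk v) (lb v) (t - lb v)
    rw [hv] at this
    exact this
  have hK2 : ∀ t v, K t (K t v) = v := by
    intro t v
    show mk (!(s (mk (!(s v)) (bk v) (t - lb v)))) (bk (mk (!(s v)) (bk v) (t - lb v)))
      (t - lb (mk (!(s v)) (bk v) (t - lb v))) = v
    rw [hs, hb, hl, Bool.not_not, sub_sub_cancel, hv]
  -- the rest of the host
  let G' : SimpleGraph V :=
    { Adj := fun u v => G.Adj u v ∧ bk u ≠ bk v
      symm := ⟨fun u v h => ⟨h.1.symm, h.2.symm⟩⟩
      loopless := ⟨fun v h => h.2 rfl⟩ }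
  have hG'dec : DecidableRel G'.Adj := fun u v =>
    inferInstanceAs (Decidable (G.Adj u v ∧ bk u ≠ bk v))
  have hG' : ∀ u v, G'.Adj u v ↔ G.Adj u v ∧ bk u ≠ bk v := fun u v => Iff.rfl
  let W := {u : Fin (n + 1) // u ∉ I}
  have hW : Fintype.card W = n - m := by
    rw [Fintype.card_subtype_compl, Fintype.card_coe, hcard, Fintype.card_fin]
    omega
  have hdeg : ∀ v, G'.degree v = Fintype.card W := by
    intro v
    have h1 : G'.neighborFinset v = G.neighborFinset v \
        (univ : Finset (ZMod m)).image (fun x => mk (!(s v)) (bk v) x) := by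
      ext w
      rw [SimpleGraph.mem_neighborFinset, mem_sdiff, SimpleGraph.mem_neighborFinset, mem_image,
        hG']
      refine and_congr_right fun h2 => ?_
      constructor
      · rintro h3 ⟨x, _, h4⟩
        apply h3
        rw [← h4, hb]
      · intro h3 h4
        apply h3
        refine ⟨lb w, mem_univ _, ?_⟩
        rw [← hadj v w h2, h4, hv]
    have h2 : (univ : Finset (ZMod m)).image (fun x => mk (!(s v)) (bk v) x) ⊆
        G.neighborFinset v := by
      intro w hw
      obtain ⟨x, _, rfl⟩ := mem_image.1 hw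
      rw [SimpleGraph.mem_neighborFinset]
      have := hblk (s v) (bk v) (lb v) x
      rw [hv] at this
      exact this
    have h3 : ((univ : Finset (ZMod m)).image (fun x => mk (!(s v)) (bk v) x)).card = m := by
      rw [card_image_of_injective, card_univ, ZMod.card]
      intro x y hxy
      have := congrArg lb hxy
      simp only [hl] at this
      exact this
    rw [← SimpleGraph.card_neighborFinset_eq_degree, h1, card_sdiff_of_subset h2, h3,
      SimpleGraph.card_neighborFinset_eq_degree, hG v, hW]
  obtain ⟨mo, ho1, ho2, ho3⟩ := exists_factorization' s (W := W) G' hdeg (by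
    intro u v huv
    have := hadj u v huv.1
    rw [this]
    cases s u <;> simp)
  -- the whole 1-factorization
  let mm : {u : Fin (n + 1) // u ≠ R.c} → V → V := fun u v =>
    if h : u.1 ∈ I then K (lab u.1 + lab (R.par u.1)) v else mo ⟨u.1, h⟩ v
  have hmI : ∀ (u : {u : Fin (n + 1) // u ≠ R.c}) (v : V), u.1 ∈ I →
      mm u v = K (lab u.1 + lab (R.par u.1)) v := fun u v h => by
    simp only [mm, dif_pos h]
  have hmO : ∀ (u : {u : Fin (n + 1) // u ≠ R.c}) (v : V) (h : u.1 ∉ I),
      mm u v = mo ⟨u.1, h⟩ v := fun u v h => by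
    simp only [mm, dif_neg h]
  have h1 : ∀ i v, G.Adj v (mm i v) := by
    intro i v
    by_cases h : i.1 ∈ I
    · rw [hmI i v h]
      exact hK1 _ _
    · rw [hmO i v h]
      exact (ho1 _ v).1
  have h2 : ∀ i v, mm i (mm i v) = v := by
    intro i v
    by_cases h : i.1 ∈ I
    · rw [hmI i _ h, hmI i _ h]
      exact hK2 _ _
    · rw [hmO i _ h, hmO i _ h]
      exact ho2 _ v
  have hsurj : ∀ a : ZMod m, ∃ u ∈ I, u ≠ R.c ∧ lab u + lab (R.par u) = a := by
    intro a
    have e1 : ((I.erase R.c).image (fun u => lab u + lab (R.par u))) = univ := by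
      rw [← card_eq_iff_eq_univ, card_image_of_injOn, card_erase_of_mem hc, hcard, ZMod.card]
      · rfl
      · intro u hu v hv huv
        rw [mem_coe, mem_erase] at hu hv
        exact lty u hu.2 v hv.2 hu.1 hv.1 huv
    have e2 : a ∈ ((I.erase R.c).image (fun u => lab u + lab (R.par u))) := by
      rw [e1]; exact mem_univ a
    rw [mem_image] at e2
    obtain ⟨u, hu, h3⟩ := e2
    rw [mem_erase] at hu
    exact ⟨u, hu.2, hu.1, h3⟩
  have h3 : ∀ u v, G.Adj u v → ∃! i, mm i u = v := by
    intro u v huv
    by_cases hbk : bk u = bk v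
    · obtain ⟨w, hwI, hwc, hw⟩ := hsurj (lb u + lb v)
      refine ⟨⟨w, hwc⟩, ?_, ?_⟩
      · show mm ⟨w, hwc⟩ u = v
        rw [hmI _ _ hwI]
        show mk (!(s u)) (bk u) (lab w + lab (R.par w) - lb u) = v
        rw [hw, add_sub_cancel_left, ← hadj u v huv, hbk, hv]
      · intro i hi
        by_cases hiI : i.1 ∈ I
        · have hi' : mm i u = v := hi
          rw [hmI _ _ hiI] at hi'
          have e1 := congrArg lb hi'
          have e2 : lb (K (lab i.1 + lab (R.par i.1)) u) = lab i.1 + lab (R.par i.1) - lb u := by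
            show lb (mk _ _ _) = _
            rw [hl]
          rw [e2] at e1
          apply Subtype.ext
          refine lty i.1 hiI w hwI i.2 hwc ?_
          rw [hw, ← e1]
          ring
        · exfalso
          have hi' : mm i u = v := hi
          rw [hmO _ _ hiI] at hi'
          have e1 := (ho1 ⟨i.1, hiI⟩ u).2
          rw [hi'] at e1
          exact e1 hbk
    · obtain ⟨w, hw, hwu⟩ := ho3 u v ⟨huv, hbk⟩
      have hwc : w.1 ≠ R.c := fun h => w.2 (h ▸ hc)
      refine ⟨⟨w.1, hwc⟩, ?_, ?_⟩
      · show mm ⟨w.1, hwc⟩ u = v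
        rw [hmO _ _ w.2]
        exact hw
      · intro i hi
        have hi' : mm i u = v := hi
        by_cases hiI : i.1 ∈ I
        · exfalso
          rw [hmI _ _ hiI] at hi'
          apply hbk
          rw [← hi']
          show bk u = bk (mk _ _ _)
          rw [hb]
        · rw [hmO _ _ hiI] at hi'
          have := hwu ⟨i.1, hiI⟩ hi'
          apply Subtype.ext
          exact congrArg (fun z => z.1) this
  -- sides
  let s2 : V → ZMod 2 := fun v => if s v = true then 0 else 1
  have hs2 : ∀ u v, G.Adj u v → s2 v = s2 u + 1 := by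
    intro u v huv
    have e1 := hadj u v huv
    simp only [s2, e1]
    cases s u
    · simp
      decide
    · simp
  -- the cores
  have hphi : ∀ v, s v = true → ∀ u ∈ I, s (R.phi mm v u) =
      (if (R.dep u : ZMod 2) = 0 then true else false) ∧ bk (R.phi mm v u) = bk v ∧
      lb (R.phi mm v u) = if (R.dep u : ZMod 2) = 0 then lab u + (lb v - lab R.c) else
        lab u - (lb v - lab R.c) := by
    intro v hv0
    refine R.ind (P := fun u => u ∈ I → s (R.phi mm v u) =
      (if (R.dep u : ZMod 2) = 0 then true else false) ∧ bk (R.phi mm v u) = bk v ∧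
      lb (R.phi mm v u) = if (R.dep u : ZMod 2) = 0 then lab u + (lb v - lab R.c) else
        lab u - (lb v - lab R.c)) ?_ ?_
    · intro _
      rw [R.phi_c, R.dep_c]
      simp [hv0]
    · intro u hu ih huI
      obtain ⟨i1, i2, i3⟩ := ih (hpar u huI hu)
      have hd : (R.dep u : ZMod 2) = R.dep (R.par u) + 1 := by
        rw [← R.dep_par u hu]
        push_cast
        ring
      rw [R.phi_ne mm v hu, hmI _ _ huI]
      have e1 : K (lab u + lab (R.par u)) (R.phi mm v (R.par u)) =
        mk (!(s (R.phi mm v (R.par u)))) (bk (R.phi mm v (R.par u)))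
          (lab u + lab (R.par u) - lb (R.phi mm v (R.par u))) := rfl
      rw [e1, hs, hb, hl, i1, i2, i3, hd]
      have h01 : (R.dep (R.par u) : ZMod 2) = 0 ∨ (R.dep (R.par u) : ZMod 2) = 1 := by
        generalize (R.dep (R.par u) : ZMod 2) = x
        revert x
        decide
      rcases h01 with h0 | h0
      · rw [h0]
        have : ¬ ((0 : ZMod 2) + 1 = 0) := by decide
        simp only [if_true, if_neg this]
        refine ⟨rfl, trivial, ?_⟩
        ring
      · rw [h0]
        have : ((1 : ZMod 2) + 1 = 0) := by decide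
        have h10 : ¬ ((1 : ZMod 2) = 0) := by decide
        simp only [if_pos this, if_neg h10]
        refine ⟨rfl, trivial, ?_⟩
        ring
  have hst : ∀ v, s2 v = 0 → s v = true := by
    intro v h
    by_contra hcon
    simp only [s2, if_neg hcon] at h
    exact absurd h (by decide)
  obtain ⟨f, hf1, hf2⟩ := R.decompose_layer' I hc hpar hout mm h1 h2 h3 s2 hs2
    (by
      intro v hv0 u hu u' hu' he
      obtain ⟨a1, a2, a3⟩ := hphi v (hst v hv0) u hu
      obtain ⟨b1, b2, b3⟩ := hphi v (hst v hv0) u' hu'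
      rw [he] at a1 a3
      rw [a1] at b1
      rw [a3] at b3
      by_cases hd : (R.dep u : ZMod 2) = 0
      · by_cases hd' : (R.dep u' : ZMod 2) = 0
        · rw [if_pos hd, if_pos hd'] at b3
          exact linj u hu u' hu' (hd.trans hd'.symm) (add_right_cancel b3)
        · rw [if_pos hd, if_neg hd'] at b1
          exact absurd b1 (by simp)
      · by_cases hd' : (R.dep u' : ZMod 2) = 0
        · rw [if_neg hd, if_pos hd'] at b1
          exact absurd b1 (by simp)
        · rw [if_neg hd, if_neg hd'] at b3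
          have h01 : ∀ x : ZMod 2, x ≠ 0 → x = 1 := by decide
          exact linj u hu u' hu' ((h01 _ hd).trans (h01 _ hd').symm) (sub_left_injective b3))
    (by
      intro v hv0 w hw u hu _ j hj _ he
      obtain ⟨_, a2, _⟩ := hphi v (hst v hv0) u hu
      obtain ⟨_, b2, _⟩ := hphi v (hst v hv0) (R.par w.1) (hout w.1 hw)
      rw [hmO j _ hj] at he
      have e1 := (ho1 ⟨j.1, hj⟩ (R.phi mm v (R.par w.1))).2
      rw [he, a2, b2] at e1
      exact e1 rfl)
  exact ⟨_, f, hf1, hf2⟩

end Pool.Agent.Lib.MP_c5b475_co.KN
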