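import Pool.Agent.Lib.MP_c5b475_co.Layer
import Pool.Agent.Lib.MP_c5b475_co.Defs

/-!
# KN/HstC: trees with a cyclically labelled closed core, hosts divided into class regular parts
-/

set_option autoImplicit false

namespace Pool.Agent.Lib.MP_c5b475_co.KN

open Finset

/-- The vertices of the bipartite graph `G` are divided into parts (`bk`) and labelled modulo `m`
(`lb`) in such a way that the label sums of the edges inside the parts are in `S`, and each vertex
has for each `t ∈ S` exactly one neighbour in its part with label sum `t`. -/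
def CycHost {V : Type} (G : SimpleGraph V) (m : ℕ) (S : Finset (ZMod m)) : Prop :=
  ∃ (B : Type) (s : V → Bool) (bk : V → B) (lb : V → ZMod m),
    (∀ u v, G.Adj u v → s v = !(s u)) ∧
    (∀ u v, G.Adj u v → bk v = bk u → lb u + lb v ∈ S) ∧
    ∀ v, ∀ t ∈ S, ∃! w, G.Adj v w ∧ bk w = bk v ∧ lb v + lb w = t

/-- **Closed core theorem**: a tree with a core of `|S|` edges which contains all non-leaf vertices
and is labelled modulo `m` injectively on each side with different edge sums in `S` decomposes every
regular bipartite graph in `CycHost`. -/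
theorem cyc_closed {n m : ℕ} {T : SimpleGraph (Fin (n + 1))} (R : RT T)
    (I : Finset (Fin (n + 1))) (lab : Fin (n + 1) → ZMod m) (S : Finset (ZMod m)) (hc : R.c ∈ I)
    (hpar : ∀ u ∈ I, u ≠ R.c → R.par u ∈ I) (hout : ∀ u, u ∉ I → R.par u ∈ I)
    (linj : ∀ u ∈ I, ∀ v ∈ I, (R.dep u : ZMod 2) = R.dep v → lab u = lab v → u = v)
    (lS : ∀ u ∈ I, u ≠ R.c → lab u + lab (R.par u) ∈ S)
    (lty : ∀ u ∈ I, ∀ v ∈ I, u ≠ R.c → v ≠ R.c →
      lab u + lab (R.par u) = lab v + lab (R.par v) → u = v)
    (hcard : I.card = S.card + 1) {V : Type} [Fintype V] [DecidableEq V] (G : SimpleGraph V)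
    [DecidableRel G.Adj] (hG : G.IsRegularOfDegree n) (hf : CycHost G m S) :
    Decomposes T G := by
  classical
  obtain ⟨B, s, bk, lb, hadj, hsum, hblk⟩ := hf
  -- the matchings inside the parts
  let K : ZMod m → V → V := fun t v => if h : t ∈ S then (hblk v t h).choose else v
  have hKs : ∀ t ∈ S, ∀ v, (G.Adj v (K t v) ∧ bk (K t v) = bk v ∧ lb v + lb (K t v) = t) ∧
      ∀ w, (G.Adj v w ∧ bk w = bk v ∧ lb v + lb w = t) → w = K t v := by
    intro t ht v
    simp only [K, dif_pos ht]
    exact (hblk v t ht).choose_spec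
  have hK1 : ∀ t ∈ S, ∀ v, G.Adj v (K t v) := fun t ht v => (hKs t ht v).1.1
  have hK2 : ∀ t ∈ S, ∀ v, K t (K t v) = v := by
    intro t ht v
    obtain ⟨⟨h1, h2, h3⟩, _⟩ := hKs t ht v
    exact ((hKs t ht (K t v)).2 v ⟨h1.symm, h2.symm, by rw [add_comm]; exact h3⟩).symm
  -- the rest of the host
  let G' : SimpleGraph V :=
    { Adj := fun u v => G.Adj u v ∧ bk u ≠ bk v
      symm := ⟨fun u v h => ⟨h.1.symm, h.2.symm⟩⟩
      loopless := ⟨fun v h => h.2 rfl⟩ }
  have hG'dec : DecidableRel G'.Adj := fun u v =>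
    inferInstanceAs (Decidable (G.Adj u v ∧ bk u ≠ bk v))
  have hG' : ∀ u v, G'.Adj u v ↔ G.Adj u v ∧ bk u ≠ bk v := fun u v => Iff.rfl
  let W := {u : Fin (n + 1) // u ∉ I}
  have hW : Fintype.card W = n - S.card := by
    rw [Fintype.card_subtype_compl, Fintype.card_coe, hcard, Fintype.card_fin]
    omega
  have hdeg : ∀ v, G'.degree v = Fintype.card W := by
    intro v
    have h1 : G'.neighborFinset v = G.neighborFinset v \ S.image (fun t => K t v) := by
      ext w
      rw [SimpleGraph.mem_neighborFinset, mem_sdiff, SimpleGraph.mem_neighborFinset, mem_image,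
        hG']
      refine and_congr_right fun h2 => ?_
      constructor
      · rintro h3 ⟨t, ht, h4⟩
        apply h3
        rw [← h4, (hKs t ht v).1.2.1]
      · intro h3 h4
        apply h3
        exact ⟨lb v + lb w, hsum v w h2 h4.symm,
          ((hKs _ (hsum v w h2 h4.symm) v).2 w ⟨h2, h4.symm, rfl⟩).symm⟩
    have h2 : S.image (fun t => K t v) ⊆ G.neighborFinset v := by
      intro w hw
      obtain ⟨t, ht, rfl⟩ := mem_image.1 hw
      rw [SimpleGraph.mem_neighborFinset]
      exact hK1 t ht v
    have h3 : (S.image (fun t => K t v)).card = S.card := by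
      rw [card_image_of_injOn]
      intro x hx y hy hxy
      have e1 := (hKs x hx v).1.2.2
      have e2 := (hKs y hy v).1.2.2
      have hxy' : K x v = K y v := hxy
      rw [hxy', e2] at e1
      exact e1.symm
    rw [← SimpleGraph.card_neighborFinset_eq_degree, h1, card_sdiff_of_subset h2, h3,
      SimpleGraph.card_neighborFinset_eq_degree, hG v, hW]
  obtain ⟨mo, ho1, ho2, ho3⟩ := exists_factorization' s (W := W) G' hdeg (by
    intro u v huv
    have := hadj u v huv.1
    rw [this]
    cases s u <;> simp)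
  -- the whole 1-factorization
  let mm : {u : Fin (n + 1) // u ≠ R.c} → V → V := fun u v =>
    if h : u.1 ∈ I then K (lab u.1 + lab (R.par u.1)) v else mo ⟨u.1, h⟩ v
  have hmI : ∀ (u : {u : Fin (n + 1) // u ≠ R.c}) (v : V), u.1 ∈ I →
      mm u v = K (lab u.1 + lab (R.par u.1)) v := fun u v h => by
    simp only [mm, dif_pos h]
  have hmO : ∀ (u : {u : Fin (n + 1) // u ≠ R.c}) (v : V) (h : u.1 ∉ I),
      mm u v = mo ⟨u.1, h⟩ v := fun u v h => by
    simp only [mm, dif_neg h]
  have h1 : ∀ i v, G.Adj v (mm i v) := by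
    intro i v
    by_cases h : i.1 ∈ I
    · rw [hmI i v h]
      exact hK1 _ (lS _ h i.2) _
    · rw [hmO i v h]
      exact (ho1 _ v).1
  have h2 : ∀ i v, mm i (mm i v) = v := by
    intro i v
    by_cases h : i.1 ∈ I
    · rw [hmI i _ h, hmI i _ h]
      exact hK2 _ (lS _ h i.2) _
    · rw [hmO i _ h, hmO i _ h]
      exact ho2 _ v
  have hsurj : ∀ a ∈ S, ∃ u ∈ I, u ≠ R.c ∧ lab u + lab (R.par u) = a := by
    intro a ha
    have e1 : ((I.erase R.c).image (fun u => lab u + lab (R.par u))) = S := by
      apply eq_of_subset_of_card_le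
      · intro x hx
        obtain ⟨u, hu, rfl⟩ := mem_image.1 hx
        rw [mem_erase] at hu
        exact lS u hu.2 hu.1
      · rw [card_image_of_injOn, card_erase_of_mem hc, hcard]
        · exact le_rfl
        · intro u hu v hv huv
          rw [mem_coe, mem_erase] at hu hv
          exact lty u hu.2 v hv.2 hu.1 hv.1 huv
    rw [← e1, mem_image] at ha
    obtain ⟨u, hu, h3⟩ := ha
    rw [mem_erase] at hu
    exact ⟨u, hu.2, hu.1, h3⟩
  have h3 : ∀ u v, G.Adj u v → ∃! i, mm i u = v := by
    intro u v huv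
    by_cases hbk : bk v = bk u
    · obtain ⟨w, hwI, hwc, hw⟩ := hsurj (lb u + lb v) (hsum u v huv hbk)
      refine ⟨⟨w, hwc⟩, ?_, ?_⟩
      · show mm ⟨w, hwc⟩ u = v
        rw [hmI _ _ hwI]
        show K (lab w + lab (R.par w)) u = v
        rw [hw]
        exact ((hKs _ (hsum u v huv hbk) u).2 v ⟨huv, hbk, rfl⟩).symm
      · intro i hi
        by_cases hiI : i.1 ∈ I
        · have hi' : mm i u = v := hi
          rw [hmI _ _ hiI] at hi'
          have e1 := (hKs _ (lS _ hiI i.2) u).1.2.2
          rw [hi'] at e1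
          apply Subtype.ext
          refine lty i.1 hiI w hwI i.2 hwc ?_
          rw [hw, ← e1]
        · exfalso
          have hi' : mm i u = v := hi
          rw [hmO _ _ hiI] at hi'
          have e1 := (ho1 ⟨i.1, hiI⟩ u).2
          rw [hi'] at e1
          exact e1 hbk.symm
    · obtain ⟨w, hw, hwu⟩ := ho3 u v ⟨huv, fun h => hbk h.symm⟩
      have hwc : w.1 ≠ R.c := fun h => w.2 (h ▸ hc)
      refine ⟨⟨w.1, hwc⟩, ?_, ?_⟩
      · show mm ⟨w.1, hwc⟩ u = v
        rw [hmO _ _ w.2]
        exact hw
      · intro i hi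
        have hi' : mm i u = v := hi
        by_cases hiI : i.1 ∈ I
        · exfalso
          rw [hmI _ _ hiI] at hi'
          apply hbk
          rw [← hi']
          exact (hKs _ (lS _ hiI i.2) u).1.2.1
        · rw [hmO _ _ hiI] at hi'
          have := hwu ⟨i.1, hiI⟩ hi'
          apply Subtype.ext
          exact congrArg (fun z => z.1) this
  -- sides
  let s2 : V → ZMod 2 := fun v => if s v = true then 0 else 1
  have hs2 : ∀ u v, G.Adj u v → s2 v = s2 u + 1 := by
    intro u v huv
    have e1 := hadj u v huv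
    simp only [s2, e1]
    cases s u
    · simp
      decide
    · simp
  -- the cores
  have hphi : ∀ v, s v = true → ∀ u ∈ I, s (R.phi mm v u) =
      (if (R.dep u : ZMod 2) = 0 then true else false) ∧ bk (R.phi mm v u) = bk v ∧
      lb (R.phi mm v u) = if (R.dep u : ZMod 2) = 0 then lab u + (lb v - lab R.c) else
        lab u - (lb v - lab R.c) := by
    intro v hv0
    refine R.ind (P := fun u => u ∈ I → s (R.phi mm v u) =
      (if (R.dep u : ZMod 2) = 0 then true else false) ∧ bk (R.phi mm v u) = bk v ∧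
      lb (R.phi mm v u) = if (R.dep u : ZMod 2) = 0 then lab u + (lb v - lab R.c) else
        lab u - (lb v - lab R.c)) ?_ ?_
    · intro _
      rw [R.phi_c, R.dep_c]
      simp [hv0]
    · intro u hu ih huI
      obtain ⟨i1, i2, i3⟩ := ih (hpar u huI hu)
      have hd : (R.dep u : ZMod 2) = R.dep (R.par u) + 1 := by
        rw [← R.dep_par u hu]
        push_cast
        ring
      rw [R.phi_ne mm v hu, hmI _ _ huI]
      obtain ⟨⟨g1, g2, g3⟩, _⟩ := hKs (lab u + lab (R.par u)) (lS _ huI hu)
        (R.phi mm v (R.par u))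
      have g3' : lb (K (lab u + lab (R.par u)) (R.phi mm v (R.par u))) =
          lab u + lab (R.par u) - lb (R.phi mm v (R.par u)) :=
        eq_sub_of_add_eq (by rw [add_comm]; exact g3)
      show s (K (lab u + lab (R.par u)) (R.phi mm v (R.par u))) = _ ∧
        bk (K (lab u + lab (R.par u)) (R.phi mm v (R.par u))) = _ ∧
        lb (K (lab u + lab (R.par u)) (R.phi mm v (R.par u))) = _
      rw [hadj _ _ g1, g2, g3', i1, i2, i3, hd]
      have h01 : (R.dep (R.par u) : ZMod 2) = 0 ∨ (R.dep (R.par u) : ZMod 2) = 1 := by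
        generalize (R.dep (R.par u) : ZMod 2) = x
        revert x
        decide
      rcases h01 with h0 | h0
      · rw [h0]
        have : ¬ ((0 : ZMod 2) + 1 = 0) := by decide
        simp only [if_true, if_neg this]
        refine ⟨rfl, trivial, ?_⟩
        ring
      · rw [h0]
        have : ((1 : ZMod 2) + 1 = 0) := by decide
        have h10 : ¬ ((1 : ZMod 2) = 0) := by decide
        simp only [if_pos this, if_neg h10]
        refine ⟨rfl, trivial, ?_⟩
        ring
  have hst : ∀ v, s2 v = 0 → s v = true := by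
    intro v h
    by_contra hcon
    simp only [s2, if_neg hcon] at h
    exact absurd h (by decide)
  obtain ⟨f, hf1, hf2⟩ := R.decompose_layer' I hc hpar hout mm h1 h2 h3 s2 hs2
    (by
      intro v hv0 u hu u' hu' he
      obtain ⟨a1, a2, a3⟩ := hphi v (hst v hv0) u hu
      obtain ⟨b1, b2, b3⟩ := hphi v (hst v hv0) u' hu'
      rw [he] at a1 a3
      rw [a1] at b1
      rw [a3] at b3
      by_cases hd : (R.dep u : ZMod 2) = 0
      · by_cases hd' : (R.dep u' : ZMod 2) = 0
        · rw [if_pos hd, if_pos hd'] at b3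
          exact linj u hu u' hu' (hd.trans hd'.symm) (add_right_cancel b3)
        · rw [if_pos hd, if_neg hd'] at b1
          exact absurd b1 (by simp)
      · by_cases hd' : (R.dep u' : ZMod 2) = 0
        · rw [if_neg hd, if_pos hd'] at b1
          exact absurd b1 (by simp)
        · rw [if_neg hd, if_neg hd'] at b3
          have h01 : ∀ x : ZMod 2, x ≠ 0 → x = 1 := by decide
          exact linj u hu u' hu' ((h01 _ hd).trans (h01 _ hd').symm) (sub_left_injective b3))
    (by
      intro v hv0 w hw u hu _ j hj _ he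
      obtain ⟨_, a2, _⟩ := hphi v (hst v hv0) u hu
      obtain ⟨_, b2, _⟩ := hphi v (hst v hv0) (R.par w.1) (hout w.1 hw)
      rw [hmO j _ hj] at he
      have e1 := (ho1 ⟨j.1, hj⟩ (R.phi mm v (R.par w.1))).2
      rw [he, a2, b2] at e1
      exact e1 rfl)
  exact ⟨_, f, hf1, hf2⟩

end Pool.Agent.Lib.MP_c5b475_co.KN
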