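import Pool.Agent.Lib.MP_c5b475_co.KN.HstD

/-!
# KN/HstE: regular bipartite graphs with at most `2 n + 2` vertices
-/

set_option autoImplicit false

namespace Pool.Agent.Lib.MP_c5b475_co

namespace KN

open Finset

/-- the two sides of a regular bipartite graph -/
theorem reg_sides {V : Type} [Fintype V] [DecidableEq V] {G : SimpleGraph V}
    [DecidableRel G.Adj] {n : ℕ} (hG : G.IsRegularOfDegree n) (hn : 1 ≤ n) (s : V → Bool)
    (hs : ∀ x y, G.Adj x y → s x ≠ s y) (a : Bool) :
    2 * (univ.filter fun v => s v = a).card = Fintype.card V ∧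
      ∀ v, s v ≠ a → (univ.filter fun w => s w = a ∧ G.Adj v w).card = n := by
  classical
  have h3 : ∀ a v, s v ≠ a → (univ.filter fun w => s w = a ∧ G.Adj v w).card = n := by
    intro a v hv
    rw [← hG v, ← SimpleGraph.card_neighborFinset_eq_degree]
    congr 1
    ext w
    rw [Finset.mem_filter, SimpleGraph.mem_neighborFinset]
    refine ⟨fun h => h.2.2, fun h => ⟨mem_univ _, ?_, h⟩⟩
    have := hs v w h
    revert this hv
    cases s v <;> cases s w <;> cases a <;> simp
  have h4 : (univ.filter fun v => s v = true).card = (univ.filter fun v => s v = false).card := by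
    have h2 : ∑ x ∈ univ.filter (fun v => s v = true),
        (((univ.filter fun v => s v = false).filter (fun y => G.Adj x y)).card) =
        ∑ y ∈ univ.filter (fun v => s v = false),
        (((univ.filter fun v => s v = true).filter (fun x => G.Adj x y)).card) :=
      Finset.sum_card_bipartiteAbove_eq_sum_card_bipartiteBelow (fun x y => G.Adj x y)
    have e1 : ∀ x ∈ univ.filter (fun v => s v = true),
        ((univ.filter fun v => s v = false).filter (fun y => G.Adj x y)).card = n := by
      intro x hx
      rw [filter_filter]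
      exact h3 false x (by rw [(mem_filter.1 hx).2]; simp)
    have e2 : ∀ y ∈ univ.filter (fun v => s v = false),
        ((univ.filter fun v => s v = true).filter (fun x => G.Adj x y)).card = n := by
      intro y hy
      rw [filter_filter, ← h3 true y (by rw [(mem_filter.1 hy).2]; simp)]
      congr 1
      ext x
      simp only [mem_filter, mem_univ, true_and]
      exact and_congr_right fun _ => SimpleGraph.adj_comm _ _ _
    rw [Finset.sum_congr rfl e1, Finset.sum_congr rfl e2, Finset.sum_const, Finset.sum_const,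
      smul_eq_mul, smul_eq_mul] at h2
    exact Nat.eq_of_mul_eq_mul_right (by omega) h2
  have h5 : (univ.filter fun v => s v = true).card + (univ.filter fun v => s v = false).card =
      Fintype.card V := by
    rw [← card_univ (α := V), ← card_union_of_disjoint]
    · congr 1
      ext v
      simp only [mem_union, mem_filter, mem_univ, true_and, iff_true]
      cases s v <;> simp
    · rw [Finset.disjoint_left]
      intro v h6 h7
      rw [mem_filter] at h6 h7
      rw [h6.2] at h7
      exact absurd h7.2 (by simp)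
  refine ⟨?_, h3 a⟩
  cases a <;> omega

/-- A regular bipartite graph with `2 n` vertices is complete. -/
theorem small_part {V : Type} [Fintype V] [DecidableEq V] {G : SimpleGraph V}
    [DecidableRel G.Adj] {n : ℕ} (hG : G.IsRegularOfDegree n) (hn : 1 ≤ n) (s : V → Bool)
    (hs : ∀ x y, G.Adj x y → s x ≠ s y) (hV : Fintype.card V = 2 * n) : PartRegular G n := by
  classical
  have hA : ∀ a, (univ.filter fun v => s v = a).card = n := by
    intro a
    have := (reg_sides hG hn s hs a).1
    omega
  have hadj : ∀ v w, s v ≠ s w → G.Adj v w := by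
    intro v w h
    have h1 := (reg_sides hG hn s hs (s w)).2 v h
    have h2 : (univ.filter fun x => s x = s w ∧ G.Adj v x) = univ.filter fun x => s x = s w := by
      apply eq_of_subset_of_card_le
      · intro x hx
        rw [mem_filter] at hx ⊢
        exact ⟨hx.1, hx.2.1⟩
      · rw [h1, hA]
    have h3 : w ∈ univ.filter fun x => s x = s w ∧ G.Adj v x := by
      rw [h2, mem_filter]
      exact ⟨mem_univ _, rfl⟩
    exact (mem_filter.1 h3).2.2
  have hε : ∀ a : Bool, Nonempty ({v // s v = a} ≃ Fin n) := by
    intro a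
    refine ⟨Fintype.equivOfCardEq ?_⟩
    rw [Fintype.card_fin, Fintype.card_subtype, hA]
  obtain ⟨ε⟩ : Nonempty (∀ a : Bool, {v // s v = a} ≃ Fin n) := ⟨fun a => (hε a).some⟩
  refine ⟨Unit, s, fun _ => (), fun v => ε (s v) ⟨v, rfl⟩, hs, ?_⟩
  intro x j
  obtain ⟨y, hy⟩ : ∃ y, y = (ε (!(s x))).symm j := ⟨_, rfl⟩
  have hcl : ∀ (a : Bool) (z : {v // s v = a}), ε (s z.1) ⟨z.1, rfl⟩ = ε a z := by
    rintro a ⟨z, rfl⟩
    rfl
  refine ⟨y.1, ⟨hadj x y.1 ?_, rfl, ?_⟩, ?_⟩
  · rw [y.2]
    cases s x <;> simp
  · show ε (s y.1) ⟨y.1, rfl⟩ = j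
    rw [hcl, hy, Equiv.apply_symm_apply]
  · rintro z ⟨h1, _, h3⟩
    have h4 : s z = !(s x) := by
      have := hs x z h1
      revert this
      cases s x <;> cases s z <;> simp
    have h5 : ε (!(s x)) ⟨z, h4⟩ = j := by
      rw [← h3]
      exact (hcl _ ⟨z, h4⟩).symm
    have h6 : (⟨z, h4⟩ : {v // s v = !(s x)}) = y := by
      rw [hy, ← h5, Equiv.symm_apply_apply]
    exact congrArg (fun w => w.1) h6

/-- A regular bipartite graph with `2 n + 2` vertices is complete minus a perfect matching. -/
theorem small_crown {V : Type} [Fintype V] [DecidableEq V] {G : SimpleGraph V}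
    [DecidableRel G.Adj] {n : ℕ} (hG : G.IsRegularOfDegree n) (hn : 1 ≤ n) (s : V → Bool)
    (hs : ∀ x y, G.Adj x y → s x ≠ s y) (hV : Fintype.card V = 2 * n + 2) :
    CrownRegular G (n + 1) := by
  classical
  have hA : ∀ a, (univ.filter fun v => s v = a).card = n + 1 := by
    intro a
    have := (reg_sides hG hn s hs a).1
    omega
  -- the non-neighbour
  have hnon : ∀ v, ∃ w, (s w ≠ s v ∧ ¬ G.Adj v w) ∧ ∀ x, s x ≠ s v → ¬ G.Adj v x → x = w := by
    intro v
    have h1 := (reg_sides hG hn s hs (!(s v))).2 v (by cases s v <;> simp)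
    have h2 := hA (!(s v))
    have h3 := Finset.card_filter_add_card_filter_not (s := univ.filter fun x => s x = !(s v))
      (fun x => G.Adj v x)
    rw [filter_filter, h1, h2] at h3
    have h4 : ((univ.filter fun x => s x = !(s v)).filter fun x => ¬ G.Adj v x).card = 1 := by
      omega
    obtain ⟨w, hw⟩ := Finset.card_eq_one.1 h4
    have h5 : ∀ x, x = w ↔ (s x ≠ s v ∧ ¬ G.Adj v x) := by
      intro x
      rw [← mem_singleton, ← hw, mem_filter, mem_filter]
      have : s x = !(s v) ↔ s x ≠ s v := by cases s x <;> cases s v <;> simp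
      rw [this]
      simp
    exact ⟨w, (h5 w).1 rfl, fun x hx hx' => (h5 x).2 ⟨hx, hx'⟩⟩
  choose π hπ hπu using hnon
  have hππ : ∀ v, π (π v) = v := fun v =>
    ((hπu (π v) v (fun h => (hπ v).1 h.symm) fun h => (hπ v).2 h.symm)).symm
  have hε : Nonempty ({v // s v = true} ≃ Fin (n + 1)) := by
    refine ⟨Fintype.equivOfCardEq ?_⟩
    rw [Fintype.card_fin, Fintype.card_subtype, hA]
  obtain ⟨ε⟩ := hε
  -- the end of a non-edge on the side `true`
  have hl : ∀ v, ∃ l : {v // s v = true}, (s v = true → l.1 = v) ∧ (s v = false → l.1 = π v) := by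
    intro v
    cases hv : s v
    · refine ⟨⟨π v, ?_⟩, ?_, ?_⟩
      · have := (hπ v).1
        rw [hv] at this
        revert this
        cases s (π v) <;> simp
      · intro h
        simp at h
      · intro _
        rfl
    · refine ⟨⟨v, hv⟩, ?_, ?_⟩
      · intro _
        rfl
      · intro h
        simp at h
  choose l hl1 hl2 using hl
  have hss : ∀ x y, s x ≠ s y → (s x = true ∧ s y = false) ∨ (s x = false ∧ s y = true) := by
    intro x y h
    revert h
    cases s x <;> cases s y <;> simp
  -- adjacency by the colours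
  have hadj : ∀ x y, s x ≠ s y → (G.Adj x y ↔ l y ≠ l x) := by
    intro x y h
    have key : ∀ x y, s x = true → s y = false → (G.Adj x y ↔ l y ≠ l x) := by
      intro x y hx hy
      constructor
      · intro h1 h2
        have h3 := congrArg (fun z => z.1) h2
        simp only [hl2 y hy, hl1 x hx] at h3
        rw [← h3] at h1
        exact (hπ y).2 h1.symm
      · intro h1
        by_contra h2
        apply h1
        apply Subtype.ext
        rw [hl2 y hy, hl1 x hx]
        exact (hπu y x (by rw [hx, hy]; simp) fun h => h2 h.symm).symm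
    rcases hss x y h with ⟨h1, h2⟩ | ⟨h1, h2⟩
    · exact key x y h1 h2
    · rw [SimpleGraph.adj_comm, key y x h2 h1]
      exact ne_comm
  have hsymm : ∀ x y, l x = l y → s x = s y → x = y := by
    intro x y h1 h2
    have h3 := congrArg (fun z => z.1) h1
    cases hx : s x
    · simp only [hl2 x hx, hl2 y (h2 ▸ hx)] at h3
      rw [← hππ x, h3, hππ]
    · simp only [hl1 x hx, hl1 y (h2 ▸ hx)] at h3
      exact h3
  refine ⟨Unit, s, fun _ => (), fun v => ε (l v), hs, ?_, ?_⟩
  · intro x j hj
    have hex : ∃ y, s y ≠ s x ∧ l y = ε.symm j := by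
      cases hx : s x
      · refine ⟨(ε.symm j).1, ?_, ?_⟩
        · rw [(ε.symm j).2]; simp
        · apply Subtype.ext
          exact hl1 _ (ε.symm j).2
      · refine ⟨π (ε.symm j).1, ?_, ?_⟩
        · have h1 := (hπ (ε.symm j).1).1
          rw [(ε.symm j).2] at h1
          exact h1
        · apply Subtype.ext
          have h1 := (hπ (ε.symm j).1).1
          rw [(ε.symm j).2] at h1
          have h2 : s (π (ε.symm j).1) = false := by
            revert h1
            cases s (π (ε.symm j).1) <;> simp
          rw [hl2 _ h2, hππ]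
    obtain ⟨y, hy1, hy2⟩ := hex
    refine ⟨y, ⟨?_, rfl, ?_⟩, ?_⟩
    · rw [hadj x y hy1.symm, hy2]
      intro h
      refine hj ?_
      show j = ε (l x)
      rw [← h, Equiv.apply_symm_apply]
    · show ε (l y) = j
      rw [hy2, Equiv.apply_symm_apply]
    · rintro z ⟨h1, _, h3⟩
      refine hsymm z y ?_ ?_
      · rw [hy2, ← h3, Equiv.symm_apply_apply]
      · have := hs x z h1
        revert this hy1
        cases s x <;> cases s z <;> cases s y <;> simp
  · intro x y h _ h2
    exact (hadj x y (hs x y h)).1 h (ε.injective h2)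

/-- **The conjecture holds for all hosts with at most `2 n + 2` vertices**, for large `n`. -/
theorem hosts_small : ∃ n0 : ℕ, ∀ n : ℕ, n0 ≤ n → ∀ T : SimpleGraph (Fin (n + 1)), T.IsTree →
    ∀ (V : Type) [Fintype V] [DecidableEq V] (G : SimpleGraph V) [DecidableRel G.Adj],
      G.IsRegularOfDegree n → G.IsBipartite → Fintype.card V ≤ 2 * n + 2 → Decomposes T G := by
  obtain ⟨m1, h1⟩ := hosts_part (1 / 10 ^ 11) (by positivity)
  refine ⟨max m1 2, ?_⟩
  intro n hn T hT V _ _ G _ hG hb hV
  have hm1 : m1 ≤ n := (le_max_left _ _).trans hn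
  have hm2 : 2 ≤ n := (le_max_right _ _).trans hn
  by_cases hV0 : IsEmpty V
  · exact empty_dec hV0
  rw [not_isEmpty_iff] at hV0
  obtain ⟨C⟩ := id hb
  have hCv : ∀ v, C v = 0 ∨ C v = 1 := by
    intro v
    generalize C v = a
    revert a
    decide
  let s : V → Bool := fun v => decide (C v = 0)
  have hs : ∀ x y, G.Adj x y → s x ≠ s y := by
    intro x y h
    have h2 := C.valid h
    intro he
    have he' : decide (C x = 0) = decide (C y = 0) := he
    rw [decide_eq_decide] at he'
    rcases hCv x with h3 | h3
    · exact h2 (h3.trans (he'.1 h3).symm)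
    · rcases hCv y with h4 | h4
      · exact h2 ((he'.2 h4).trans h4.symm)
      · exact h2 (h3.trans h4.symm)
  have hcard : Fintype.card V = 2 * n ∨ Fintype.card V = 2 * n + 2 := by
    obtain ⟨v⟩ := hV0
    have h2 := (reg_sides hG (by omega) s hs (!(s v))).2 v (by cases s v <;> simp)
    have h3 := (reg_sides hG (by omega) s hs (!(s v))).1
    have h4 : (univ.filter fun w => s w = (!(s v)) ∧ G.Adj v w).card ≤
        (univ.filter fun w => s w = !(s v)).card := by
      apply card_le_card
      intro w hw
      rw [mem_filter] at hw ⊢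
      exact ⟨hw.1, hw.2.1⟩
    omega
  have hk1 := inner_pos hT hm2
  by_cases hk : 10 ^ 10 * Nat.card {u // IsInner T u} ≤ n
  · refine all_linear_block hT hk1 le_rfl hk G hG (m := 200000 * Nat.card {u // IsInner T u})
      le_rfl ?_
    refine dense_blocks G hG hb (by omega) (by omega) ?_
    have h2 : Fintype.card V - 2 * n ≤ 2 := by omega
    calc 4 * (200000 * Nat.card {u // IsInner T u}) * (Fintype.card V - 2 * n) ≤
        4 * (200000 * Nat.card {u // IsInner T u}) * 2 := Nat.mul_le_mul_left _ h2
      _ ≤ Fintype.card V := by omega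
  · have h3 : (n : ℝ) ≤ 10 ^ 10 * (Nat.card {u // IsInner T u} : ℝ) := by
      have h4 : n ≤ 10 ^ 10 * Nat.card {u // IsInner T u} := by omega
      exact_mod_cast h4
    have hn0 : (2 : ℝ) ≤ n := by exact_mod_cast hm2
    rcases hcard with hc | hc
    · refine h1 n n hm1 T hT (by linarith) V G hG (Or.inl ⟨small_part hG (by omega) s hs hc,
        Or.inr rfl⟩)
    · refine h1 n (n + 1) (by omega) T hT ?_ V G hG
        (Or.inr ⟨small_crown hG (by omega) s hs hc, Or.inr rfl⟩)
      push_cast
      linarith

end KN

end Pool.Agent.Lib.MP_c5b475_co
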