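import Pool.Agent.Lib.MP_c5b475_co.KN.Dec

/-!
# KN/Lift: from `K_{n,n}` to bipartite graphs with `n` classes on each side

A decomposition of `K_{n,n}` into copies of a tree lifts to every covering graph of `K_{n,n}`, and then
to every bipartite graph whose two sides are divided into `n` classes each in such a way that each
vertex on the left has `b` neighbours in each class on the right, and each vertex on the right has `a`
neighbours in each class on the left.
-/

set_option autoImplicit false

namespace Pool.Agent.Lib.MP_c5b475_co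

/-- The vertices of `G` are divided into two sides (`s`), `G` has no edges inside a side, and each side
is divided into `n` classes (`cl`) such that each vertex of the side `true` has exactly `b` neighbours
in each class, and each vertex of the side `false` has exactly `a` neighbours in each class (`a, b ≥ 1`).
-/
def ClassRegular {V : Type} (G : SimpleGraph V) (n a b : ℕ) : Prop :=
  1 ≤ a ∧ 1 ≤ b ∧ ∃ (s : V → Bool) (cl : V → Fin n), (∀ x y, G.Adj x y → s x ≠ s y) ∧
    ∀ x j, Nat.card {y // G.Adj x y ∧ cl y = j} = if s x = true then b else a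

namespace KN

/-- Lifting a tree along a covering. -/
theorem lift_tree {U W X : Type} [Fintype U] [DecidableEq U] {T : SimpleGraph U} (hT : T.IsTree)
    {H : SimpleGraph W} {K : SimpleGraph X} (p : X → W)
    (hp : ∀ x w, H.Adj (p x) w → ∃ y, K.Adj x y ∧ p y = w)
    (ψ : U → W) (hψ : ∀ u v, T.Adj u v → H.Adj (ψ u) (ψ v)) (u0 : U) (x0 : X)
    (h0 : p x0 = ψ u0) :
    ∃ g : U → X, (∀ u v, T.Adj u v → K.Adj (g u) (g v)) ∧ (∀ u, p (g u) = ψ u) ∧ g u0 = x0 := by
  classical
  obtain ⟨t, ht, hf⟩ := exists_rtr hT u0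
  have key : ∀ k : ℕ, ∃ g : U → X, g u0 = x0 ∧ (∀ u, t.dep u ≤ k → p (g u) = ψ u) ∧
      ∀ u, u ≠ t.root → t.dep u ≤ k → K.Adj (g (t.par u)) (g u) := by
    intro k
    induction k with
    | zero =>
      refine ⟨fun _ => x0, rfl, ?_, ?_⟩
      · intro u hu
        have h1 : u = t.root := by
          by_contra h
          have := t.dep_par u h
          omega
        rw [h1, ht]
        exact h0
      · intro u hu hd
        have := t.dep_par u hu
        omega
    | succ k ih =>
      obtain ⟨g, g0, g1, g2⟩ := ih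
      have hex : ∀ u, u ≠ t.root → t.dep u = k + 1 → ∃ y, K.Adj (g (t.par u)) y ∧ p y = ψ u := by
        intro u hu hd
        refine hp _ _ ?_
        have h1 := t.dep_par u hu
        rw [g1 (t.par u) (by omega)]
        exact hψ _ _ ((hf _ _).2 (Or.inr ⟨hu, rfl⟩))
      refine ⟨fun u => if h : u ≠ t.root ∧ t.dep u = k + 1 then (hex u h.1 h.2).choose else g u,
        ?_, ?_, ?_⟩
      · have : ¬ (u0 ≠ t.root ∧ t.dep u0 = k + 1) := fun h => h.1 ht.symm
        simp only [dif_neg this]
        exact g0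
      · intro u hu
        by_cases h : u ≠ t.root ∧ t.dep u = k + 1
        · simp only [dif_pos h]
          exact (hex u h.1 h.2).choose_spec.2
        · simp only [dif_neg h]
          refine g1 u ?_
          by_contra h2
          refine h ⟨?_, by omega⟩
          intro h3
          rw [h3, t.dep_root] at h2
          omega
      · intro u hu hd
        have h1 := t.dep_par u hu
        have h2 : ¬ (t.par u ≠ t.root ∧ t.dep (t.par u) = k + 1) := fun h => by omega
        simp only [dif_neg h2]
        by_cases h : u ≠ t.root ∧ t.dep u = k + 1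
        · simp only [dif_pos h]
          exact (hex u h.1 h.2).choose_spec.1
        · simp only [dif_neg h]
          refine g2 u hu ?_
          by_contra h3
          exact h ⟨hu, by omega⟩
  obtain ⟨g, g0, g1, g2⟩ := key (Finset.univ.sup t.dep)
  have hle : ∀ u, t.dep u ≤ Finset.univ.sup t.dep := fun u => Finset.le_sup (Finset.mem_univ u)
  refine ⟨g, ?_, fun u => g1 u (hle u), g0⟩
  intro u v huv
  rcases (hf u v).1 huv with ⟨h1, h2⟩ | ⟨h1, h2⟩
  · have := g2 u h1 (hle u)
    rw [h2] at this
    exact this.symm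
  · have := g2 v h1 (hle v)
    rw [h2] at this
    exact this

/-- Lifts of a connected graph along a covering are determined by one value. -/
theorem lift_unique {U W X : Type} {T : SimpleGraph U} (hT : T.Connected) {K : SimpleGraph X}
    (p : X → W) (hu : ∀ x y z, K.Adj x y → K.Adj x z → p y = p z → y = z) (g g' : U → X)
    (hg : ∀ u v, T.Adj u v → K.Adj (g u) (g v)) (hg' : ∀ u v, T.Adj u v → K.Adj (g' u) (g' v))
    (hpp : ∀ u, p (g u) = p (g' u)) (u0 : U) (h0 : g u0 = g' u0) : g = g' := by
  funext v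
  obtain ⟨w⟩ := hT.preconnected u0 v
  induction w with
  | nil => exact h0
  | cons h q ih =>
    rename_i a b c
    refine ih ?_
    have h1 := hg _ _ h
    have h2 := hg' _ _ h
    rw [← h0] at h2
    exact hu _ _ _ h1 h2 (hpp _)

/-- A decomposition of `K_{n,n}` into copies of a tree gives a decomposition of every class-regular
bipartite graph. -/
theorem lift_dec {U : Type} [Fintype U] [DecidableEq U] {T : SimpleGraph U} (hT : T.IsTree)
    {n a b : ℕ} (hD : Decomposes T (completeBipartiteGraph (Fin n) (Fin n))) {V : Type}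
    {G : SimpleGraph V} (hG : ClassRegular G n a b) : Decomposes T G := by
  classical
  obtain ⟨ha, hb, s, cl, hs, hc⟩ := hG
  obtain ⟨ι, φ, hφ1, hφ2⟩ := hD
  set m : V → ℕ := fun x => if s x = true then b else a with hm
  have hm1 : ∀ x, 0 < m x := by
    intro x
    simp only [hm]
    split_ifs <;> omega
  have he : ∀ x j, Nonempty ({y // G.Adj x y ∧ cl y = j} ≃ Fin (m x)) := by
    intro x j
    have h1 : Nat.card {y // G.Adj x y ∧ cl y = j} = m x := hc x j
    have : Finite {y // G.Adj x y ∧ cl y = j} := Nat.finite_of_card_ne_zero (by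
      rw [h1]; exact (hm1 x).ne')
    exact ⟨(Finite.equivFin _).trans (finCongr h1)⟩
  have e : ∀ x j, {y // G.Adj x y ∧ cl y = j} ≃ Fin (m x) := fun x j => (he x j).some
  -- the label of the edge `x y` at `x`
  have hself : ∀ {x y : V}, G.Adj x y → G.Adj x y ∧ cl y = cl y := fun h => ⟨h, rfl⟩
  set lab : ∀ x y, G.Adj x y → Fin (m x) := fun x y h => e x (cl y) ⟨y, h, rfl⟩ with hlab
  -- the covering graph
  set K : SimpleGraph (Σ x : V, Fin (m x)) :=
    { Adj := fun x y => ∃ h : G.Adj x.1 y.1, lab x.1 y.1 h = x.2 ∧ lab y.1 x.1 h.symm = y.2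
      symm := ⟨fun x y ⟨h, h1, h2⟩ => ⟨h.symm, h2, h1⟩⟩
      loopless := ⟨fun x ⟨h, _⟩ => h.ne rfl⟩ } with hK
  have hKadj : ∀ x y, K.Adj x y ↔ ∃ h : G.Adj x.1 y.1, lab x.1 y.1 h = x.2 ∧
      lab y.1 x.1 h.symm = y.2 := fun x y => Iff.rfl
  set q : V → Fin n ⊕ Fin n := fun x => if s x = true then Sum.inl (cl x) else Sum.inr (cl x)
    with hq
  set p : (Σ x : V, Fin (m x)) → Fin n ⊕ Fin n := fun x => q x.1 with hp
  set H := completeBipartiteGraph (Fin n) (Fin n) with hH
  have hHq : ∀ x y, G.Adj x y → H.Adj (q x) (q y) := by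
    intro x y h
    have h1 := hs x y h
    simp only [hq, hH]
    cases hx : s x <;> cases hy : s y <;> simp_all
  have hcl : ∀ x y z, G.Adj x y → G.Adj x z → q y = q z → cl y = cl z := by
    intro x y z h1 h2 h3
    simp only [hq] at h3
    split_ifs at h3
    · exact Sum.inl.inj h3
    · exact Sum.inr.inj h3
  have hlabinj : ∀ x y z (h1 : G.Adj x y) (h2 : G.Adj x z), cl y = cl z →
      lab x y h1 = lab x z h2 → y = z := by
    intro x y z h1 h2 h3 h4
    simp only [hlab] at h4
    have h5 : ∀ (j : Fin n) (hj : cl z = j), e x (cl z) ⟨z, h2, rfl⟩ = e x j ⟨z, h2, hj⟩ := by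
      rintro j rfl
      rfl
    rw [h5 (cl y) h3.symm] at h4
    exact congrArg Subtype.val ((e x (cl y)).injective h4)
  have hcov : ∀ x w, H.Adj (p x) w → ∃ y, K.Adj x y ∧ p y = w := by
    rintro ⟨x, l⟩ w hw
    -- the class of `w`
    obtain ⟨j, hj⟩ : ∃ j, ∀ y, G.Adj x y → cl y = j → q y = w := by
      rcases w with w | w
      · refine ⟨w, fun y h1 h2 => ?_⟩
        have h3 := hs x y h1
        simp only [hp, hq, hH] at hw ⊢
        cases hx : s x <;> cases hy : s y <;> simp_all
      · refine ⟨w, fun y h1 h2 => ?_⟩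
        have h3 := hs x y h1
        simp only [hp, hq, hH] at hw ⊢
        cases hx : s x <;> cases hy : s y <;> simp_all
    set y := (e x j).symm l with hy
    refine ⟨⟨y.1, lab y.1 x y.2.1.symm⟩, ?_, hj y.1 y.2.1 y.2.2⟩
    rw [hKadj]
    refine ⟨y.2.1, ?_, rfl⟩
    have h5 : ∀ (i : Fin n) (hi : cl y.1 = i), e x (cl y.1) ⟨y.1, y.2.1, rfl⟩ =
        e x i ⟨y.1, y.2.1, hi⟩ := by
      rintro i rfl
      rfl
    simp only [hlab]
    rw [h5 j y.2.2]
    have h6 : (⟨y.1, y.2.1, y.2.2⟩ : {y // G.Adj x y ∧ cl y = j}) = y := rfl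
    rw [h6, hy, Equiv.apply_symm_apply]
  have huni : ∀ x y z, K.Adj x y → K.Adj x z → p y = p z → y = z := by
    rintro ⟨x, i⟩ ⟨y, j⟩ ⟨z, k⟩ h1 h2 h3
    rw [hKadj] at h1 h2
    obtain ⟨h4, h5, h6⟩ := h1
    obtain ⟨h7, h8, h9⟩ := h2
    simp only at h4 h5 h6 h7 h8 h9
    have h10 : y = z := hlabinj x y z h4 h7 (hcl x y z h4 h7 h3) (h5.trans h8.symm)
    subst h10
    rw [← h6, ← h9]
  -- the copies
  set J := {g : ι × (U → Σ x : V, Fin (m x)) // (∀ u v, T.Adj u v → K.Adj (g.2 u) (g.2 v)) ∧
    ∀ u, p (g.2 u) = φ g.1 u} with hJ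
  have hinj : ∀ g : J, Function.Injective fun u => (g.1.2 u).1 := by
    intro g u v huv
    have h1 := g.2.2 u
    have h2 := g.2.2 v
    simp only [hp] at h1 h2
    simp only at huv
    rw [huv, h2] at h1
    exact ((φ g.1.1).injective h1).symm
  refine ⟨J, fun g => ⟨fun u => (g.1.2 u).1, hinj g⟩, ?_, ?_⟩
  · intro g x y hxy
    rw [SimpleGraph.map_adj] at hxy
    obtain ⟨u, v, huv, rfl, rfl⟩ := hxy
    obtain ⟨h, _⟩ := (hKadj _ _).1 (g.2.1 u v huv)
    exact h
  · intro e0 he0
    induction e0 using Sym2.ind with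
    | _ x y =>
    rw [SimpleGraph.mem_edgeSet] at he0
    have h1 : s(q x, q y) ∈ H.edgeSet := by
      rw [SimpleGraph.mem_edgeSet]
      exact hHq x y he0
    obtain ⟨i, hi1, hi2⟩ := hφ2 _ h1
    rw [SimpleGraph.mem_edgeSet, SimpleGraph.map_adj] at hi1
    obtain ⟨u, v, huv, hu, hv⟩ := hi1
    have hψ : ∀ u v, T.Adj u v → H.Adj (φ i u) (φ i v) := by
      intro u v huv
      exact hφ1 i ((SimpleGraph.map_adj _ _ _ _).2 ⟨u, v, huv, rfl, rfl⟩)
    set x' : Σ x : V, Fin (m x) := ⟨x, lab x y he0⟩ with hx'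
    set y' : Σ x : V, Fin (m x) := ⟨y, lab y x he0.symm⟩ with hy'
    have hxy' : K.Adj x' y' := (hKadj _ _).2 ⟨he0, rfl, rfl⟩
    obtain ⟨g, g1, g2, g3⟩ := lift_tree hT p hcov (φ i) hψ u x' (by
      simp only [hp, hx']
      exact hu.symm)
    have g4 : g v = y' := by
      refine huni x' _ _ ?_ hxy' ?_
      · rw [← g3]
        exact g1 u v huv
      · rw [g2 v]
        simp only [hp, hy']
        exact hv
    refine ⟨⟨(i, g), g1, g2⟩, ?_, ?_⟩
    · beta_reduce
      rw [SimpleGraph.mem_edgeSet, SimpleGraph.map_adj]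
      refine ⟨u, v, huv, ?_, ?_⟩
      · change (g u).1 = x
        rw [g3]
      · change (g v).1 = y
        rw [g4]
    · rintro ⟨⟨i', g'⟩, h3, h4⟩ h5
      rw [SimpleGraph.mem_edgeSet, SimpleGraph.map_adj] at h5
      obtain ⟨u', v', huv', hu', hv'⟩ := h5
      simp only at h3 h4
      change (g' u').1 = x at hu'
      change (g' v').1 = y at hv'
      have h6 : φ i' u' = q x := by
        rw [← h4 u']
        simp only [hp]
        rw [hu']
      have h7 : φ i' v' = q y := by
        rw [← h4 v']
        simp only [hp]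
        rw [hv']
      have h8 : i' = i := by
        refine hi2 i' ?_
        beta_reduce
        rw [SimpleGraph.mem_edgeSet, SimpleGraph.map_adj]
        exact ⟨u', v', huv', h6, h7⟩
      subst h8
      have h9 : u' = u := (φ i').injective (h6.trans hu.symm)
      have h10 : v' = v := (φ i').injective (h7.trans hv.symm)
      subst h9 h10
      have h11 : g' u' = x' := by
        obtain ⟨h12, h13, _⟩ := (hKadj _ _).1 (h3 u' v' huv')
        have h14 : ∀ (z w : Σ x : V, Fin (m x)) (hz : z.1 = x) (hw : w.1 = y)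
            (h : G.Adj z.1 w.1), lab z.1 w.1 h = z.2 → z = x' := by
          rintro ⟨z, iz⟩ ⟨w, iw⟩ hz hw h h15
          simp only at hz hw h h15
          subst hz hw
          rw [hx', ← h15]
        exact h14 _ _ hu' hv' h12 h13
      have h16 : g' = g := lift_unique hT.1 p huni g' g h3 g1
        (fun u => (h4 u).trans (g2 u).symm) u' (h11.trans g3.symm)
      subst h16
      rfl

/-- `K_{a n, b n}` is class-regular. -/
theorem classRegular_complete {n a b : ℕ} (ha : 1 ≤ a) (hb : 1 ≤ b) :
    ClassRegular (completeBipartiteGraph (Fin a × Fin n) (Fin b × Fin n)) n a b := by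
  refine ⟨ha, hb, fun x => x.isLeft, fun x => Sum.elim (fun y => y.2) (fun y => y.2) x, ?_, ?_⟩
  · rintro (x | x) (y | y) h
    · simp at h
    · simp
    · simp
    · simp at h
  · rintro (x | x) j
    · have h : Nat.card {y : Fin a × Fin n ⊕ Fin b × Fin n //
          (completeBipartiteGraph (Fin a × Fin n) (Fin b × Fin n)).Adj (Sum.inl x) y ∧
            Sum.elim (fun y => y.2) (fun y => y.2) y = j} = Nat.card (Fin b) := by
        refine Nat.card_congr ⟨fun y => ?_, fun i => ⟨Sum.inr (i, j), by simp⟩, ?_, ?_⟩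
        · exact Sum.elim (fun _ => ⟨0, hb⟩) (fun z => z.1) y.1
        · rintro ⟨y | y, h1, h2⟩
          · simp at h1
          · simp only [Sum.elim_inr] at h2 ⊢
            subst h2
            rfl
        · intro i
          rfl
      rw [h]
      simp
    · have h : Nat.card {y : Fin a × Fin n ⊕ Fin b × Fin n //
          (completeBipartiteGraph (Fin a × Fin n) (Fin b × Fin n)).Adj (Sum.inr x) y ∧
            Sum.elim (fun y => y.2) (fun y => y.2) y = j} = Nat.card (Fin a) := by
        refine Nat.card_congr ⟨fun y => ?_, fun i => ⟨Sum.inl (i, j), by simp⟩, ?_, ?_⟩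
        · exact Sum.elim (fun z => z.1) (fun _ => ⟨0, ha⟩) y.1
        · rintro ⟨y | y, h1, h2⟩
          · simp only [Sum.elim_inl] at h2 ⊢
            subst h2
            rfl
          · simp at h1
        · intro i
          rfl
      rw [h]
      simp

end KN

end Pool.Agent.Lib.MP_c5b475_co
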