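import Pool.Agent.Lib.MP_c5b475_co.KN.HstE
import Pool.Agent.Lib.MP_c5b475_co.KN.CvL
import Pool.Agent.Lib.MP_c5b475_co.KN.Lift

/-!
# KN/HstF: the final theorems on hosts

`hosts_main`: hosts divided into parts, trees with at most `(1 - ε) m` non-leaf vertices.
`top_crown`: all trees, bipartite covering graphs of the complete graph with `n + 1` vertices.
-/

set_option autoImplicit false

namespace Pool.Agent.Lib.MP_c5b475_co

/-- `G` is bipartite and a covering graph of the complete graph with `k` vertices: there are `k`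
colours such that adjacent vertices have different colours and every vertex has exactly one
neighbour of each colour different from its own. -/
def CoversComplete {V : Type} (G : SimpleGraph V) (k : ℕ) : Prop :=
  ∃ (s : V → Bool) (cl : V → Fin k), (∀ x y, G.Adj x y → s x ≠ s y ∧ cl x ≠ cl y) ∧
    ∀ x j, j ≠ cl x → ∃! y, G.Adj x y ∧ cl y = j

namespace KN

open Finset

/-- A decomposition into copies of a tree lifts to covering graphs. -/
theorem lift_covering {U : Type} [Fintype U] [DecidableEq U] {T : SimpleGraph U} (hT : T.IsTree)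
    {W : Type} {H : SimpleGraph W} (hD : Decomposes T H) {V : Type} {G : SimpleGraph V}
    (q : V → W) (hq : ∀ x y, G.Adj x y → H.Adj (q x) (q y))
    (hcov : ∀ x w, H.Adj (q x) w → ∃ y, G.Adj x y ∧ q y = w)
    (huni : ∀ x y z, G.Adj x y → G.Adj x z → q y = q z → y = z) : Decomposes T G := by
  classical
  obtain ⟨ι, φ, hφ1, hφ2⟩ := hD
  refine ⟨{g : ι × (U → V) // (∀ u v, T.Adj u v → G.Adj (g.2 u) (g.2 v)) ∧
    ∀ u, q (g.2 u) = φ g.1 u}, fun g => ⟨g.1.2, ?_⟩, ?_, ?_⟩
  · intro u v huv
    have h1 := g.2.2 u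
    rw [huv, g.2.2 v] at h1
    exact ((φ g.1.1).injective h1).symm
  · intro g x y hxy
    rw [SimpleGraph.map_adj] at hxy
    obtain ⟨u, v, huv, rfl, rfl⟩ := hxy
    exact g.2.1 u v huv
  · intro e0 he0
    induction e0 using Sym2.ind with
    | _ x y =>
    rw [SimpleGraph.mem_edgeSet] at he0
    have h1 : s(q x, q y) ∈ H.edgeSet := by
      rw [SimpleGraph.mem_edgeSet]
      exact hq x y he0
    obtain ⟨i, hi1, hi2⟩ := hφ2 _ h1
    rw [SimpleGraph.mem_edgeSet, SimpleGraph.map_adj] at hi1
    obtain ⟨u, v, huv, hu, hv⟩ := hi1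
    have hψ : ∀ u v, T.Adj u v → H.Adj (φ i u) (φ i v) := by
      intro u v huv
      exact hφ1 i ((SimpleGraph.map_adj _ _ _ _).2 ⟨u, v, huv, rfl, rfl⟩)
    obtain ⟨g, g1, g2, g3⟩ := lift_tree hT q hcov (φ i) hψ u x hu.symm
    have g4 : g v = y := by
      refine huni x _ _ ?_ he0 ?_
      · rw [← g3]
        exact g1 u v huv
      · rw [g2 v]
        exact hv
    refine ⟨⟨(i, g), g1, g2⟩, ?_, ?_⟩
    · beta_reduce
      rw [SimpleGraph.mem_edgeSet, SimpleGraph.map_adj]
      exact ⟨u, v, huv, g3, g4⟩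
    · rintro ⟨⟨i', g'⟩, h3, h4⟩ h5
      rw [SimpleGraph.mem_edgeSet, SimpleGraph.map_adj] at h5
      obtain ⟨u', v', huv', hu', hv'⟩ := h5
      simp only at h3 h4
      change g' u' = x at hu'
      change g' v' = y at hv'
      have h6 : φ i' u' = q x := by
        rw [← h4 u', hu']
      have h7 : φ i' v' = q y := by
        rw [← h4 v', hv']
      have h8 : i' = i := by
        refine hi2 i' ?_
        beta_reduce
        rw [SimpleGraph.mem_edgeSet, SimpleGraph.map_adj]
        exact ⟨u', v', huv', h6, h7⟩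
      subst h8
      have h9 : u' = u := (φ i').injective (h6.trans hu.symm)
      have h10 : v' = v := (φ i').injective (h7.trans hv.symm)
      subst h9 h10
      have h16 : g' = g := lift_unique hT.1 q huni g' g h3 g1
        (fun u => (h4 u).trans (g2 u).symm) u' (hu'.trans g3.symm)
      subst h16
      rfl

/-- **All trees**, bipartite covering graphs of the complete graph with `n + 1` vertices. -/
theorem top_crown : ∃ n₀ : ℕ, ∀ n : ℕ, n₀ ≤ n → ∀ T : SimpleGraph (Fin (n + 1)), T.IsTree →
    ∀ (V : Type) (G : SimpleGraph V), CoversComplete G (n + 1) → Decomposes T G := by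
  classical
  obtain ⟨n₀, h⟩ := hosts_small
  refine ⟨max n₀ 1, fun n hn T hT V G hG => ?_⟩
  have hn0 : n₀ ≤ n := (le_max_left _ _).trans hn
  have hn1 : 1 ≤ n := (le_max_right _ _).trans hn
  obtain ⟨s, cl, h1, h2⟩ := hG
  -- the complete bipartite graph minus a perfect matching
  let H : SimpleGraph (Bool × Fin (n + 1)) :=
    { Adj := fun x y => x.1 ≠ y.1 ∧ x.2 ≠ y.2
      symm := ⟨fun x y h => ⟨h.1.symm, h.2.symm⟩⟩
      loopless := ⟨fun x h => h.1 rfl⟩ }
  have hH : ∀ x y, H.Adj x y ↔ x.1 ≠ y.1 ∧ x.2 ≠ y.2 := fun x y => Iff.rfl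
  have hHdec : DecidableRel H.Adj := fun x y => inferInstanceAs (Decidable (x.1 ≠ y.1 ∧ x.2 ≠ y.2))
  have hHreg : H.IsRegularOfDegree n := by
    intro v
    rw [← SimpleGraph.card_neighborFinset_eq_degree]
    have h3 : H.neighborFinset v =
        (univ.erase v.2).image (fun j : Fin (n + 1) => ((!v.1), j)) := by
      ext w
      rw [SimpleGraph.mem_neighborFinset, hH, mem_image]
      constructor
      · rintro ⟨h3, h4⟩
        refine ⟨w.2, mem_erase.2 ⟨h4.symm, mem_univ _⟩, ?_⟩
        apply Prod.ext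
        · show (!v.1) = w.1
          revert h3
          cases v.1 <;> cases w.1 <;> simp
        · rfl
      · rintro ⟨j, hj, rfl⟩
        refine ⟨?_, (mem_erase.1 hj).1.symm⟩
        show v.1 ≠ !v.1
        cases v.1 <;> simp
    rw [h3, card_image_of_injective, card_erase_of_mem (mem_univ _), card_univ, Fintype.card_fin]
    · rfl
    · intro i j hij
      exact congrArg Prod.snd hij
  have hHb : H.IsBipartite := by
    refine ⟨SimpleGraph.Coloring.mk (fun x => if x.1 = true then (0 : Fin 2) else 1) ?_⟩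
    intro x y hxy
    have h3 := hxy.1
    cases hx : x.1 <;> cases hy : y.1 <;> simp_all
  have hHc : Fintype.card (Bool × Fin (n + 1)) ≤ 2 * n + 2 := by
    rw [Fintype.card_prod, Fintype.card_bool, Fintype.card_fin]
    omega
  have hD := h n hn0 T hT _ H hHreg hHb hHc
  refine lift_covering hT hD (fun x => (s x, cl x)) (fun x y h => h1 x y h) ?_ ?_
  · rintro x ⟨a, j⟩ ⟨h3, h4⟩
    obtain ⟨y, ⟨g1, g2⟩, _⟩ := h2 x j (fun h => h4 h.symm)
    refine ⟨y, g1, ?_⟩
    apply Prod.ext
    · have h5 := (h1 x y g1).1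
      revert h3 h5
      show s x ≠ a → s x ≠ s y → s y = a
      cases s x <;> cases s y <;> cases a <;> simp
    · exact g2
  · intro x y z g1 g2 g3
    have g4 : cl y = cl z := congrArg Prod.snd g3
    exact (h2 x (cl z) (fun h => (h1 x z g2).2 h.symm)).unique ⟨g1, g4⟩ ⟨g2, rfl⟩

/-- **Hosts divided into parts**, trees with at most `(1 - ε) m` non-leaf vertices. -/
theorem hosts_main (ε : ℝ) (hε : 0 < ε) : ∃ m0 : ℕ, ∀ n m : ℕ, m0 ≤ m →
    ∀ T : SimpleGraph (Fin (n + 1)), T.IsTree →
    (Nat.card {u // IsInner T u} : ℝ) ≤ (1 - ε) * m →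
    ∀ (V : Type) [Fintype V] [DecidableEq V] (G : SimpleGraph V) [DecidableRel G.Adj],
      G.IsRegularOfDegree n → PartRegular G m ∨ CrownRegular G m → Decomposes T G := by
  set ε' : ℝ := min ε (1 / 10 ^ 11) with hε'
  have hε0 : 0 < ε' := by
    rw [hε']
    positivity
  obtain ⟨m1, h1⟩ := hosts_part ε' hε0
  refine ⟨max m1 3, ?_⟩
  intro n m hm T hT hk V _ _ G _ hG hf
  have hm1 : m1 ≤ m := (le_max_left _ _).trans hm
  have hm2 : 3 ≤ m := (le_max_right _ _).trans hm
  by_cases hV : IsEmpty V
  · exact empty_dec hV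
  rw [not_isEmpty_iff] at hV
  have hpl := part_le (m := m) hG hV
  have hmn : m ≤ n + 1 := by
    rcases hf with h | h
    · have := hpl.1 h
      omega
    · exact hpl.2 h
  have hk1 := inner_pos hT (by omega)
  by_cases hs : 10 ^ 10 * Nat.card {u // IsInner T u} ≤ n
  · by_cases hs' : 10 ^ 10 * Nat.card {u // IsInner T u} ≤ m
    · refine all_linear_cover hT hk1 le_rfl hs G hG (m := 200000 * Nat.card {u // IsInner T u})
        le_rfl ?_
      rcases hf with h | h
      · exact (part_cover h).mono fun μ hμ => by omega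
      · exact (crown_cover (m0 := 200000 * Nat.card {u // IsInner T u}) (by omega) (by omega)
          h).mono fun μ hμ => hμ.1
    · refine h1 n m hm1 T hT ?_ V G hG ?_
      · have h3 : (m : ℝ) ≤ 10 ^ 10 * (Nat.card {u // IsInner T u} : ℝ) := by
          have h4 : m ≤ 10 ^ 10 * Nat.card {u // IsInner T u} := by omega
          exact_mod_cast h4
        have h5 : ε' * m ≤ 1 / 10 ^ 11 * m :=
          mul_le_mul_of_nonneg_right (min_le_right _ _) (Nat.cast_nonneg _)
        have h6 : (0 : ℝ) ≤ m := Nat.cast_nonneg _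
        linarith
      · have h6 : (Nat.card {u // IsInner T u} : ℝ) ≤ (1 - ε') * m := by
          refine hk.trans (mul_le_mul_of_nonneg_right ?_ (Nat.cast_nonneg _))
          have : ε' ≤ ε := min_le_left _ _
          linarith
        rcases hf with h | h
        · exact Or.inl ⟨h, Or.inl h6⟩
        · exact Or.inr ⟨h, Or.inl h6⟩
  · refine h1 n m hm1 T hT ?_ V G hG ?_
    · have h3 : (m : ℝ) ≤ 10 ^ 11 * (Nat.card {u // IsInner T u} : ℝ) := by
        have h4 : m ≤ 10 ^ 11 * Nat.card {u // IsInner T u} := by omega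
        exact_mod_cast h4
      have h5 : ε' * m ≤ 1 / 10 ^ 11 * m :=
        mul_le_mul_of_nonneg_right (min_le_right _ _) (Nat.cast_nonneg _)
      linarith
    · have h6 : (Nat.card {u // IsInner T u} : ℝ) ≤ (1 - ε') * m := by
        refine hk.trans (mul_le_mul_of_nonneg_right ?_ (Nat.cast_nonneg _))
        have : ε' ≤ ε := min_le_left _ _
        linarith
      rcases hf with h | h
      · exact Or.inl ⟨h, Or.inl h6⟩
      · exact Or.inr ⟨h, Or.inl h6⟩

end KN

end Pool.Agent.Lib.MP_c5b475_co
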