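import Pool.Agent.Lib.MP_c5b475_co.KN.Tree

/-!
# KN/HubCl
Call `X ⊇ H0` admissible if (1) the number of `x ∈ X`, `x ≠ root`, `par x ∈ X` is at least
`2 (|X| - |H0|)` (write `2 |X| ≤ 2 |H0| + number`), (2) every `x ∈ X` has a descendant (or itself) in `H0`,
(3) every `x ∈ X \ H0` has at least two neighbours in `X`. `H0` is admissible. The number in (1) is
`≤ |X|`, so `|X| ≤ 2 |H0|` for admissible `X`. Take an admissible `X` with `|X|` maximal. If `w ∉ X` has two
neighbours in `X` then `X ∪ {w}` is admissible: the number in (1) grows by the number of neighbours of `w`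
in `X` (edges are pairs (child, parent); the new ones are `w` with its parent in `X`, and the children of
`w` in `X`), (2) at least one of the two neighbours is a child of `w` (only one can be the parent), it has a
descendant in `H0`, (3) clear. Contradiction with the maximality. For the last claim use (3).
-/

set_option autoImplicit false

namespace Pool.Agent.Lib.MP_c5b475_co.KN

open Finset

namespace RTr

variable {W : Type} [Fintype W] [DecidableEq W]

/-- edges inside `X` -/
private def hubE (t : RTr W) (X : Finset W) : Finset W :=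
  X.filter fun x => x ≠ t.root ∧ t.par x ∈ X

/-- admissible sets -/
private def HubAdm (t : RTr W) (H0 X : Finset W) : Prop :=
  H0 ⊆ X ∧ 2 * X.card ≤ 2 * H0.card + (t.hubE X).card ∧
    (∀ h ∈ X, ∃ h' ∈ H0, t.Anc h h') ∧
    ∀ h ∈ X, h ∉ H0 → 2 ≤ ((t.nb h).filter fun v => v ∈ X).card

private theorem hub_nb_le (t : RTr W) (X : Finset W) (w : W) :
    ((t.nb w).filter fun v => v ∈ X).card ≤ ((t.ch w).filter fun v => v ∈ X).card +
      (if w ≠ t.root ∧ t.par w ∈ X then 1 else 0) := by
  unfold nb
  rw [Finset.filter_union]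
  refine (Finset.card_union_le _ _).trans (Nat.add_le_add_left ?_ _)
  by_cases h : w = t.root
  · simp [h]
  · by_cases h' : t.par w ∈ X
    · simp only [h, if_false, ne_eq, not_false_eq_true, h', and_self, if_true]
      exact (Finset.card_filter_le _ _).trans (by simp)
    · simp [h, h', Finset.filter_singleton]

private theorem hub_step (t : RTr W) (H0 X : Finset W) (hX : t.HubAdm H0 X) (w : W) (hw : w ∉ X)
    (h2 : 2 ≤ ((t.nb w).filter fun v => v ∈ X).card) : t.HubAdm H0 (insert w X) := by
  obtain ⟨a1, a2, a3, a4⟩ := hX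
  have hle := t.hub_nb_le X w
  have hmono : ∀ h, ((t.nb h).filter fun v => v ∈ X) ⊆
      ((t.nb h).filter fun v => v ∈ insert w X) := fun h x hx => by
    rw [Finset.mem_filter] at hx ⊢
    exact ⟨hx.1, Finset.mem_insert_of_mem hx.2⟩
  refine ⟨a1.trans (Finset.subset_insert _ _), ?_, ?_, ?_⟩
  · -- the number of edges
    have hd1 : Disjoint (t.hubE X) ((t.ch w).filter fun v => v ∈ X) := by
      rw [Finset.disjoint_left]
      intro x hx hx'
      simp only [hubE, ch, Finset.mem_filter, Finset.mem_univ, true_and] at hx hx'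
      exact hw (hx'.1.2 ▸ hx.2.2)
    have hsub : t.hubE X ∪ ((t.ch w).filter fun v => v ∈ X) ⊆ t.hubE (insert w X) := by
      intro x hx
      rw [Finset.mem_union] at hx
      simp only [hubE, ch, Finset.mem_filter, Finset.mem_univ, true_and,
        Finset.mem_insert] at hx ⊢
      rcases hx with hx | hx
      · exact ⟨Or.inr hx.1, hx.2.1, Or.inr hx.2.2⟩
      · exact ⟨Or.inr hx.2, hx.1.1, Or.inl hx.1.2⟩
    have hc : (t.hubE X).card + ((t.ch w).filter fun v => v ∈ X).card +
        (if w ≠ t.root ∧ t.par w ∈ X then 1 else 0) ≤ (t.hubE (insert w X)).card := by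
      rw [← Finset.card_union_of_disjoint hd1]
      by_cases h : w ≠ t.root ∧ t.par w ∈ X
      · rw [if_pos h]
        have hnw : w ∉ t.hubE X ∪ ((t.ch w).filter fun v => v ∈ X) := by
          intro hx
          rw [Finset.mem_union] at hx
          simp only [hubE, Finset.mem_filter] at hx
          rcases hx with hx | hx
          · exact hw hx.1
          · exact hw hx.2
        rw [← Finset.card_insert_of_notMem hnw]
        refine Finset.card_le_card (Finset.insert_subset ?_ hsub)
        simp only [hubE, Finset.mem_filter, Finset.mem_insert, true_or, true_and]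
        exact ⟨h.1, Or.inr h.2⟩
      · rw [if_neg h, Nat.add_zero]
        exact Finset.card_le_card hsub
    rw [Finset.card_insert_of_notMem hw]
    omega
  · -- descendants
    intro h hh
    rcases Finset.mem_insert.1 hh with rfl | hh
    · have hpos : 0 < ((t.ch h).filter fun v => v ∈ X).card := by
        have : (if h ≠ t.root ∧ t.par h ∈ X then 1 else 0) ≤ 1 := by split_ifs <;> omega
        omega
      obtain ⟨c, hc⟩ := Finset.card_pos.1 hpos
      rw [Finset.mem_filter] at hc
      obtain ⟨h', hh', i, hi⟩ := a3 c hc.2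
      refine ⟨h', hh', i + 1, ?_⟩
      rw [Function.iterate_succ_apply', hi]
      have := hc.1
      simp only [ch, Finset.mem_filter, Finset.mem_univ, true_and] at this
      exact this.2
    · exact a3 h hh
  · intro h hh hh0
    rcases Finset.mem_insert.1 hh with rfl | hh
    · exact h2.trans (Finset.card_le_card (hmono _))
    · exact (a4 h hh hh0).trans (Finset.card_le_card (hmono _))

/-- Every set of vertices can be enlarged (at most by a factor 2) such that every other vertex has
at most one neighbour in it. -/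
theorem hub_closure (t : RTr W) (H0 : Finset W) :
    ∃ Hub : Finset W, H0 ⊆ Hub ∧ Hub.card ≤ 2 * H0.card ∧
      (∀ w, w ∉ Hub → ((t.nb w).filter fun v => v ∈ Hub).card ≤ 1) ∧
      (∀ h ∈ Hub, ∃ h' ∈ H0, t.Anc h h') ∧
      ∀ h ∈ Hub, h ∉ H0 → 2 ≤ ((t.nb h).filter fun v => v ∈ Hub).card := by
  classical
  have h0 : t.HubAdm H0 H0 :=
    ⟨subset_refl _, Nat.le_add_right _ _, fun h hh => ⟨h, hh, 0, rfl⟩, fun h hh hn => absurd hh hn⟩
  obtain ⟨X, hX, hmax⟩ := Finset.exists_max_image
    ((univ : Finset (Finset W)).filter fun X => t.HubAdm H0 X) Finset.card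
    ⟨H0, Finset.mem_filter.2 ⟨Finset.mem_univ _, h0⟩⟩
  have hA := (Finset.mem_filter.1 hX).2
  refine ⟨X, hA.1, ?_, ?_, hA.2.2.1, hA.2.2.2⟩
  · have h1 := hA.2.1
    have h2 : (t.hubE X).card ≤ X.card := Finset.card_filter_le _ _
    omega
  · intro w hw
    by_contra hcon
    have h1 := hmax (insert w X) (Finset.mem_filter.2
      ⟨Finset.mem_univ _, t.hub_step H0 X hA w hw (by omega)⟩)
    rw [Finset.card_insert_of_notMem hw] at h1
    omega

end RTr

end Pool.Agent.Lib.MP_c5b475_co.KN
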