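import Pool.Agent.Lib.MP_c5b475_co.KN.Mix

/-!
# KN/Ker: the kernel of one step
-/

set_option autoImplicit false
set_option linter.unusedSectionVars false

namespace Pool.Agent.Lib.MP_c5b475_co.KN

open Finset

variable {n : ℕ} [NeZero n]

/-- ideal number of choices -/
noncomputable def idl (S Q : Finset (ZMod n)) : ℝ := (S.card : ℝ) * Q.card / n

/-- actual number of choices -/
noncomputable def act (S Q : Finset (ZMod n)) (r : ZMod n) : ℝ :=
  ((S.filter fun y => r + y ∈ Q).card : ℝ)

/-- the kernel of a step -/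
noncomputable def ker (S Q : Finset (ZMod n)) (r y : ZMod n) : ℝ :=
  one S y * one Q (r + y) / max (idl S Q) (act S Q r)

theorem act_eq (S Q : Finset (ZMod n)) (r : ZMod n) :
    act S Q r = ∑ y, one S y * one Q (r + y) := by
  unfold act one
  rw [Finset.card_filter]
  push_cast
  simp only [ite_mul, one_mul, zero_mul]
  rw [Finset.sum_ite_mem]
  simp

theorem idl_nonneg (S Q : Finset (ZMod n)) : 0 ≤ idl S Q := by
  unfold idl
  positivity

theorem act_nonneg (S Q : Finset (ZMod n)) (r : ZMod n) : 0 ≤ act S Q r := by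
  unfold act
  positivity

theorem max_nonneg' (S Q : Finset (ZMod n)) (r : ZMod n) : 0 ≤ max (idl S Q) (act S Q r) :=
  le_trans (idl_nonneg S Q) (le_max_left _ _)

theorem ker_nonneg (S Q : Finset (ZMod n)) (r y : ZMod n) : 0 ≤ ker S Q r y :=
  div_nonneg (mul_nonneg (one_nonneg _ _) (one_nonneg _ _)) (max_nonneg' S Q r)

theorem ker_le_one_mul {S Q : Finset (ZMod n)} (h : 0 < idl S Q) (r y : ZMod n) :
    ker S Q r y ≤ one S y * one Q (r + y) / idl S Q := by
  unfold ker
  exact div_le_div_of_nonneg_left (mul_nonneg (one_nonneg _ _) (one_nonneg _ _)) h (le_max_left _ _)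

theorem ker_le {S Q : Finset (ZMod n)} (h : 0 < idl S Q) (r y : ZMod n) :
    ker S Q r y ≤ 1 / idl S Q := by
  refine le_trans (ker_le_one_mul h r y) ?_
  refine div_le_div_of_nonneg_right ?_ h.le
  calc one S y * one Q (r + y) ≤ 1 * 1 :=
        mul_le_mul (one_le _ _) (one_le _ _) (one_nonneg _ _) (by norm_num)
    _ = 1 := by norm_num

theorem ker_pos {S Q : Finset (ZMod n)} {r y : ZMod n} (h : 0 < ker S Q r y) :
    y ∈ S ∧ r + y ∈ Q := by
  unfold ker at h
  by_cases h1 : y ∈ S
  · by_cases h2 : r + y ∈ Q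
    · exact ⟨h1, h2⟩
    · rw [one_of_notMem h2] at h
      simp at h
  · rw [one_of_notMem h1] at h
    simp at h

theorem sum_ker (S Q : Finset (ZMod n)) (r : ZMod n) :
    ∑ y, ker S Q r y = act S Q r / max (idl S Q) (act S Q r) := by
  unfold ker
  rw [← Finset.sum_div, act_eq]

theorem sum_ker_le (S Q : Finset (ZMod n)) (r : ZMod n) : ∑ y, ker S Q r y ≤ 1 := by
  rw [sum_ker]
  exact div_le_one_of_le₀ (le_max_right _ _) (max_nonneg' S Q r)

theorem one_sub_sum_ker {S Q : Finset (ZMod n)} (h : 0 < idl S Q) (r : ZMod n) :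
    1 - ∑ y, ker S Q r y ≤ |act S Q r - idl S Q| / idl S Q := by
  rw [sum_ker]
  rcases le_total (act S Q r) (idl S Q) with h1 | h1
  · rw [max_eq_left h1, abs_of_nonpos (by linarith), le_div_iff₀ h, sub_mul,
      div_mul_cancel₀ _ h.ne']
    linarith
  · rw [max_eq_right h1, div_self (by linarith)]
    simp only [sub_self]
    positivity

/-- the deficit of an attached root -/
theorem one_sub_sum_ker' {S Q : Finset (ZMod n)} (h : 0 < idl S Q) {κ : ℝ} (h0 : 0 ≤ κ)
    {r : ZMod n} (h1 : (1 - κ) * idl S Q ≤ act S Q r) : 1 - ∑ y, ker S Q r y ≤ κ := by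
  rw [sum_ker]
  rcases le_total (act S Q r) (idl S Q) with h2 | h2
  · rw [max_eq_left h2]
    have h3 : 1 - κ ≤ act S Q r / idl S Q := by
      rw [le_div_iff₀ h]
      exact h1
    linarith
  · rw [max_eq_right h2, div_self (by linarith)]
    linarith

section laws

variable {θ C : ℝ} {S Q : Finset (ZMod n)} {lam : ZMod n → ℝ}

theorem one_idl_mul {S Q : Finset (ZMod n)} (h : 0 < idl S Q) :
    (S.card : ℝ) ≠ 0 ∧ (Q.card : ℝ) ≠ 0 := by
  constructor
  · intro h1
    unfold idl at h
    rw [h1] at h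
    simp at h
  · intro h1
    unfold idl at h
    rw [h1] at h
    simp at h

theorem sum_le_one_shift {m : ℝ} (h : ∑ y, lam y ≤ m) (o : ZMod n) :
    ∑ y, lam (y - o) ≤ m := by
  refine le_trans (le_of_eq ?_) h
  exact Fintype.sum_equiv (Equiv.subRight o) _ _ fun x => rfl

/-- excess of the label law over the uniform law -/
theorem label_exc (hθ : 0 ≤ θ) (hC : 0 ≤ C) (hQ : Aut θ Q) (h : 0 < idl S Q)
    (h0 : ∀ y, 0 ≤ lam y) (h1 : ∀ y, lam y ≤ C / n) (hs : ∑ y, lam y ≤ 1) (o : ZMod n) :
    ∑ x, max (∑ z, lam z * ker S Q (z + o) x - one S x / S.card) 0 ≤ C * √θ * n / idl S Q := by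
  have hn := nR_pos (n := n)
  have hS0 := (one_idl_mul h).1
  have h2 : ∀ x, max (∑ z, lam z * ker S Q (z + o) x - one S x / S.card) 0 ≤
      |∑ z, lam z * one Q (z + o + x) - (∑ z, lam z) * Q.card / n| / idl S Q := by
    intro x
    refine max_le ?_ (by positivity)
    have h3 : ∑ z, lam z * ker S Q (z + o) x ≤
        one S x * (∑ z, lam z * one Q (z + o + x)) / idl S Q := by
      rw [Finset.mul_sum, Finset.sum_div]
      refine Finset.sum_le_sum fun z _ => ?_
      refine le_trans (mul_le_mul_of_nonneg_left (ker_le_one_mul h _ _) (h0 z)) (le_of_eq ?_)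
      ring
    have h4 : one S x * ((∑ z, lam z) * Q.card / n) / idl S Q ≤ one S x / S.card := by
      have h5 : one S x * ((∑ z, lam z) * Q.card / n) / idl S Q =
          (∑ z, lam z) * (one S x / S.card) := by
        unfold idl
        have := (one_idl_mul h).2
        field_simp
      rw [h5]
      have h6 : 0 ≤ one S x / S.card := div_nonneg (one_nonneg _ _) (Nat.cast_nonneg _)
      nlinarith
    calc ∑ z, lam z * ker S Q (z + o) x - one S x / S.card
        ≤ one S x * (∑ z, lam z * one Q (z + o + x)) / idl S Q -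
          one S x * ((∑ z, lam z) * Q.card / n) / idl S Q := by linarith
      _ = one S x * (∑ z, lam z * one Q (z + o + x) - (∑ z, lam z) * Q.card / n) / idl S Q := by
          ring
      _ ≤ |∑ z, lam z * one Q (z + o + x) - (∑ z, lam z) * Q.card / n| / idl S Q := by
          refine div_le_div_of_nonneg_right ?_ h.le
          have h7 := le_abs_self (∑ z, lam z * one Q (z + o + x) - (∑ z, lam z) * Q.card / n)
          have h8 := abs_nonneg (∑ z, lam z * one Q (z + o + x) - (∑ z, lam z) * Q.card / n)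
          rcases le_total 0 (∑ z, lam z * one Q (z + o + x) - (∑ z, lam z) * Q.card / n) with h9 | h9
          · nlinarith [one_le S x, one_nonneg S x]
          · nlinarith [one_le S x, one_nonneg S x]
  refine le_trans (Finset.sum_le_sum fun x _ => h2 x) ?_
  rw [← Finset.sum_div]
  exact div_le_div_of_nonneg_right (mix_off hθ hC hQ h0 h1 o) h.le

/-- excess of the colour law over the uniform law -/
theorem colour_exc (hθ : 0 ≤ θ) (hC : 0 ≤ C) (hS : Aut θ S) (h : 0 < idl S Q)
    (h0 : ∀ y, 0 ≤ lam y) (h1 : ∀ y, lam y ≤ C / n) (hs : ∑ y, lam y ≤ 1) (o : ZMod n) :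
    ∑ c, max (∑ z, lam z * ker S Q (z + o) (c - (z + o)) - one Q c / Q.card) 0 ≤
      C * √θ * n / idl S Q := by
  have hn := nR_pos (n := n)
  have h2 : ∀ c, max (∑ z, lam z * ker S Q (z + o) (c - (z + o)) - one Q c / Q.card) 0 ≤
      |∑ z, lam z * one S (c - (z + o)) - (∑ z, lam z) * S.card / n| / idl S Q := by
    intro c
    refine max_le ?_ (by positivity)
    have h3 : ∑ z, lam z * ker S Q (z + o) (c - (z + o)) ≤
        one Q c * (∑ z, lam z * one S (c - (z + o))) / idl S Q := by
      rw [Finset.mul_sum, Finset.sum_div]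
      refine Finset.sum_le_sum fun z _ => ?_
      refine le_trans (mul_le_mul_of_nonneg_left (ker_le_one_mul h _ _) (h0 z)) (le_of_eq ?_)
      have h4 : z + o + (c - (z + o)) = c := by abel
      rw [h4]
      ring
    have h4 : one Q c * ((∑ z, lam z) * S.card / n) / idl S Q ≤ one Q c / Q.card := by
      have h5 : one Q c * ((∑ z, lam z) * S.card / n) / idl S Q =
          (∑ z, lam z) * (one Q c / Q.card) := by
        unfold idl
        have := (one_idl_mul h).2
        have := (one_idl_mul h).1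
        field_simp
      rw [h5]
      have h6 : 0 ≤ one Q c / Q.card := div_nonneg (one_nonneg _ _) (Nat.cast_nonneg _)
      nlinarith
    calc ∑ z, lam z * ker S Q (z + o) (c - (z + o)) - one Q c / Q.card
        ≤ one Q c * (∑ z, lam z * one S (c - (z + o))) / idl S Q -
          one Q c * ((∑ z, lam z) * S.card / n) / idl S Q := by linarith
      _ = one Q c * (∑ z, lam z * one S (c - (z + o)) - (∑ z, lam z) * S.card / n) / idl S Q := by
          ring
      _ ≤ |∑ z, lam z * one S (c - (z + o)) - (∑ z, lam z) * S.card / n| / idl S Q := by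
          refine div_le_div_of_nonneg_right ?_ h.le
          have h7 := le_abs_self (∑ z, lam z * one S (c - (z + o)) - (∑ z, lam z) * S.card / n)
          have h8 := abs_nonneg (∑ z, lam z * one S (c - (z + o)) - (∑ z, lam z) * S.card / n)
          rcases le_total 0 (∑ z, lam z * one S (c - (z + o)) - (∑ z, lam z) * S.card / n) with
            h9 | h9
          · nlinarith [one_le Q c, one_nonneg Q c]
          · nlinarith [one_le Q c, one_nonneg Q c]
  refine le_trans (Finset.sum_le_sum fun x _ => h2 x) ?_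
  rw [← Finset.sum_div]
  exact div_le_div_of_nonneg_right (mix_neg hθ hC hS h0 h1 o) h.le

theorem act_l1 (hθ : 0 ≤ θ) (hQ : Aut θ Q) :
    ∑ r, |act S Q r - idl S Q| ≤ √θ * (n : ℝ) ^ 2 := by
  have hn := nR_pos (n := n)
  have h2 := mix_off hθ (zero_le_one (α := ℝ)) hQ (lam := fun y => one S y / n)
    (fun y => div_nonneg (one_nonneg _ _) hn.le)
    (fun y => div_le_div_of_nonneg_right (one_le _ _) hn.le) 0
  have h3 : ∀ x, |act S Q x - idl S Q| =
      n * |∑ y, one S y / n * one Q (y + 0 + x) - (∑ y, one S y / n) * Q.card / n| := by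
    intro x
    rw [← abs_of_pos hn, ← abs_mul, abs_of_pos hn]
    congr 1
    rw [mul_sub, act_eq, Finset.mul_sum, ← Finset.sum_div, sum_one]
    unfold idl
    congr 1
    · refine Finset.sum_congr rfl fun y _ => ?_
      have h4 : y + 0 + x = x + y := by abel
      rw [h4]
      field_simp
    · field_simp
  simp only [h3]
  rw [← Finset.mul_sum]
  refine le_trans (mul_le_mul_of_nonneg_left h2 hn.le) (le_of_eq ?_)
  ring

/-- the average deficit of a step -/
theorem deficit (hθ : 0 ≤ θ) (hC : 0 ≤ C) (hQ : Aut θ Q) (h : 0 < idl S Q)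
    (h0 : ∀ y, 0 ≤ lam y) (h1 : ∀ y, lam y ≤ C / n) (o : ZMod n) :
    ∑ z, lam z * (1 - ∑ y, ker S Q (z + o) y) ≤ C * √θ * n / idl S Q := by
  have hn := nR_pos (n := n)
  have h2 : ∀ z, lam z * (1 - ∑ y, ker S Q (z + o) y) ≤
      C / n * (|act S Q (z + o) - idl S Q| / idl S Q) := by
    intro z
    have h3 := one_sub_sum_ker h (z + o)
    have h4 : 0 ≤ |act S Q (z + o) - idl S Q| / idl S Q := by positivity
    refine le_trans (mul_le_mul_of_nonneg_left h3 (h0 z)) ?_
    exact mul_le_mul_of_nonneg_right (h1 z) h4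
  refine le_trans (Finset.sum_le_sum fun z _ => h2 z) ?_
  rw [← Finset.mul_sum, ← Finset.sum_div]
  have h5 : ∑ z, |act S Q (z + o) - idl S Q| = ∑ r, |act S Q r - idl S Q| :=
    Fintype.sum_equiv (Equiv.addRight o) _ _ fun x => rfl
  rw [h5]
  have h6 := act_l1 (S := S) hθ hQ
  refine le_trans (mul_le_mul_of_nonneg_left (div_le_div_of_nonneg_right h6 h.le)
    (by positivity)) (le_of_eq ?_)
  field_simp

end laws

end Pool.Agent.Lib.MP_c5b475_co.KN
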