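import Pool.Agent.Lib.MP_c5b475_co.KN.Ker
import Pool.Agent.Lib.MP_c5b475_co.KN.EX

/-!
# KN/Law: the random walk of one piece
-/

set_option autoImplicit false
set_option linter.unusedSectionVars false

namespace Pool.Agent.Lib.MP_c5b475_co.KN

open Finset

variable {n : ℕ} [NeZero n] {Φm Φh Ψ I : Type}

/-- colour class of a step, if it has a colour -/
def Pcs.cc {Φ : Type} (P : Pcs n Φ Ψ I) (i : I) (t : ℕ) : Option Ψ :=
  if t = 0 then (P.att i).map Prod.snd else some (P.cl i t)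

/-- the label (with offset) at which the edge of step `t` starts -/
def Pcs.base {Φ : Type} (P : Pcs n Φ Ψ I) (i : I) (t : ℕ) (y : ℕ → ZMod n) : ZMod n :=
  if t = 0 then P.rt i else y (P.pr i t) + P.ofs i t

theorem col_eq_some {Φ : Type} (P : Pcs n Φ Ψ I) (i : I) (t : ℕ) (y : ℕ → ZMod n) (c : ZMod n)
    (ψ : Ψ) : P.col i y t = some (c, ψ) ↔ P.cc i t = some ψ ∧ y t = c - P.base i t y := by
  unfold Pcs.col Pcs.cc Pcs.base Pcs.rt
  by_cases h : t = 0
  · subst h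
    simp only [if_true]
    cases h1 : P.att i with
    | none => simp
    | some rc =>
      simp only [Option.map_some, Option.some.injEq, Prod.mk.injEq, Option.getD_some]
      constructor
      · rintro ⟨h2, h3⟩
        exact ⟨h3, by rw [← h2]; abel⟩
      · rintro ⟨h2, h3⟩
        exact ⟨by rw [h3]; abel, h2⟩
  · simp only [if_neg h, Option.some.injEq, Prod.mk.injEq]
    constructor
    · rintro ⟨h2, h3⟩
      exact ⟨h3, by rw [← h2]; abel⟩
    · rintro ⟨h2, h3⟩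
      exact ⟨by rw [h3]; abel, h2⟩

/-- kernel of step `t` of piece `i` -/
noncomputable def kt {Φ : Type} (S : Φ → Finset (ZMod n)) (Q : Ψ → Finset (ZMod n))
    (P : Pcs n Φ Ψ I) (i : I) (t : ℕ) (y : ℕ → ZMod n) (x : ZMod n) : ℝ :=
  match P.cc i t with
  | none => one (S (P.ph i t)) x / ((S (P.ph i t)).card : ℝ)
  | some ψ => ker (S (P.ph i t)) (Q ψ) (P.base i t y) x

theorem kt_none {Φ : Type} {S : Φ → Finset (ZMod n)} {Q : Ψ → Finset (ZMod n)}
    {P : Pcs n Φ Ψ I} {i : I} {t : ℕ} (h : P.cc i t = none) (y : ℕ → ZMod n) (x : ZMod n) :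
    kt S Q P i t y x = one (S (P.ph i t)) x / ((S (P.ph i t)).card : ℝ) := by
  unfold kt
  rw [h]

theorem kt_some {Φ : Type} {S : Φ → Finset (ZMod n)} {Q : Ψ → Finset (ZMod n)}
    {P : Pcs n Φ Ψ I} {i : I} {t : ℕ} {ψ : Ψ} (h : P.cc i t = some ψ) (y : ℕ → ZMod n)
    (x : ZMod n) : kt S Q P i t y x = ker (S (P.ph i t)) (Q ψ) (P.base i t y) x := by
  unfold kt
  rw [h]

/-- the hypotheses on sets and pieces which concern one piece only -/
structure Hyp (S : Φm ⊕ Φh → Finset (ZMod n)) (Q : Ψ → Finset (ZMod n))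
    (P : Pcs n (Φm ⊕ Φh) Ψ I) (K : ℕ) (β κ₂ θ : ℝ) : Prop where
  T1 : ∀ i, 1 ≤ P.T i
  TK : ∀ i, P.T i ≤ K
  pr : ∀ i t, 1 ≤ t → P.pr i t < t
  phl : ∀ i t, 1 ≤ t → ∃ φ, P.ph i t = Sum.inl φ
  pha : ∀ i a, P.att i = some a → ∃ φ, P.ph i 0 = Sum.inl φ
  Sb : ∀ φ, β * n ≤ ((S (Sum.inl φ)).card : ℝ)
  Sh : ∀ h, κ₂ * n ≤ ((S (Sum.inr h)).card : ℝ)
  Qb : ∀ c, β * n ≤ ((Q c).card : ℝ)
  SA : ∀ φ, Aut θ (S φ)
  QA : ∀ c, Aut θ (Q c)
  b0 : 0 < β
  k0 : 0 < κ₂
  t0 : 0 ≤ θ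

variable {S : Φm ⊕ Φh → Finset (ZMod n)} {Q : Ψ → Finset (ZMod n)}
  {P : Pcs n (Φm ⊕ Φh) Ψ I} {K : ℕ} {β κ₂ θ : ℝ}

theorem Hyp.base_dep (H : Hyp S Q P K β κ₂ θ) (i : I) (t : ℕ) :
    Dep t (fun y => P.base i t y) := by
  intro y y' h
  unfold Pcs.base
  by_cases h1 : t = 0
  · simp [h1]
  · simp only [if_neg h1]
    rw [h _ (H.pr i t (by omega))]

theorem Hyp.idl_ge (H : Hyp S Q P K β κ₂ θ) (φ : Φm) (c : Ψ) :
    β ^ 2 * n ≤ idl (S (Sum.inl φ)) (Q c) := by
  have hn := nR_pos (n := n)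
  unfold idl
  rw [le_div_iff₀ hn]
  have h1 := mul_le_mul (H.Sb φ) (H.Qb c) (by have := H.b0; positivity) (Nat.cast_nonneg _)
  nlinarith

theorem Hyp.idl_pos (H : Hyp S Q P K β κ₂ θ) (φ : Φm) (c : Ψ) :
    0 < idl (S (Sum.inl φ)) (Q c) := by
  have hn := nR_pos (n := n)
  have := H.b0
  exact lt_of_lt_of_le (by positivity) (H.idl_ge φ c)

theorem Hyp.one_div_idl (H : Hyp S Q P K β κ₂ θ) (φ : Φm) (c : Ψ) :
    1 / idl (S (Sum.inl φ)) (Q c) ≤ (1 / β ^ 2) / n := by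
  have hn := nR_pos (n := n)
  have := H.b0
  rw [div_div]
  exact one_div_le_one_div_of_le (by positivity) (H.idl_ge φ c)

theorem Hyp.div_idl (H : Hyp S Q P K β κ₂ θ) (φ : Φm) (c : Ψ) {C : ℝ} (hC : 0 ≤ C) :
    C * n / idl (S (Sum.inl φ)) (Q c) ≤ C * (1 / β ^ 2) := by
  have hn := nR_pos (n := n)
  have h1 := mul_le_mul_of_nonneg_left (H.one_div_idl φ c) (show 0 ≤ C * n by positivity)
  calc C * n / idl (S (Sum.inl φ)) (Q c) = C * n * (1 / idl (S (Sum.inl φ)) (Q c)) := by ring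
    _ ≤ C * n * ((1 / β ^ 2) / n) := h1
    _ = C * (1 / β ^ 2) := by field_simp

/-- upper bound for all kernels -/
noncomputable def CC (β κ₂ : ℝ) : ℝ := 1 / β ^ 2 + 1 / κ₂

theorem Hyp.CC_pos (H : Hyp S Q P K β κ₂ θ) : 0 < CC β κ₂ := by
  have := H.b0
  have := H.k0
  unfold CC
  positivity

theorem Hyp.C1_le (H : Hyp S Q P K β κ₂ θ) : 1 / β ^ 2 ≤ CC β κ₂ := by
  have := H.k0
  unfold CC
  have : 0 < 1 / κ₂ := by positivity
  linarith

theorem Hyp.card_pos (H : Hyp S Q P K β κ₂ θ) (φ : Φm ⊕ Φh) : (0 : ℝ) < ((S φ).card : ℝ) := by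
  have hn := nR_pos (n := n)
  have := H.b0
  have := H.k0
  rcases φ with φ | h
  · exact lt_of_lt_of_le (by positivity) (H.Sb φ)
  · exact lt_of_lt_of_le (by positivity) (H.Sh h)

theorem Hyp.b1 (H : Hyp S Q P K β κ₂ θ) (φ : Φm) : β ≤ 1 := by
  have hn := nR_pos (n := n)
  have h1 := H.Sb φ
  have h2 : ((S (Sum.inl φ)).card : ℝ) ≤ n := by
    rw [← card_zmod (n := n)]
    exact_mod_cast Finset.card_le_univ _
  by_contra h3
  push Not at h3
  nlinarith

theorem Hyp.one_div_card (H : Hyp S Q P K β κ₂ θ) (φ : Φm ⊕ Φh) :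
    1 / ((S φ).card : ℝ) ≤ CC β κ₂ / n := by
  have hn := nR_pos (n := n)
  have hb := H.b0
  have hk := H.k0
  unfold CC
  rcases φ with φ | h
  · have h1 : 1 / ((S (Sum.inl φ)).card : ℝ) ≤ 1 / (β * n) :=
      one_div_le_one_div_of_le (by positivity) (H.Sb φ)
    refine le_trans h1 ?_
    rw [add_div, div_div, div_div]
    have h2 : 1 / (β * n) ≤ 1 / (β ^ 2 * n) := by
      refine one_div_le_one_div_of_le (by positivity) ?_
      have h4 := H.b1 φ
      have h5 : β ^ 2 ≤ β := by nlinarith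
      exact mul_le_mul_of_nonneg_right h5 hn.le
    have h3 : 0 < 1 / (κ₂ * (n : ℝ)) := by positivity
    linarith
  · have h1 : 1 / ((S (Sum.inr h)).card : ℝ) ≤ 1 / (κ₂ * n) :=
      one_div_le_one_div_of_le (by positivity) (H.Sh h)
    refine le_trans h1 ?_
    rw [add_div, div_div, div_div]
    have h3 : 0 < 1 / (β ^ 2 * (n : ℝ)) := by positivity
    linarith

theorem Hyp.cc_inl (H : Hyp S Q P K β κ₂ θ) {i : I} {t : ℕ} {ψ : Ψ} (h : P.cc i t = some ψ) :
    ∃ φ, P.ph i t = Sum.inl φ := by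
  by_cases h1 : t = 0
  · subst h1
    unfold Pcs.cc at h
    simp only [if_true] at h
    cases h2 : P.att i with
    | none => rw [h2] at h; simp at h
    | some a => exact H.pha i a h2
  · exact H.phl i t (by omega)

theorem Hyp.kt_le (H : Hyp S Q P K β κ₂ θ) (i : I) (t : ℕ) (y : ℕ → ZMod n) (x : ZMod n) :
    kt S Q P i t y x ≤ CC β κ₂ / n := by
  have hn := nR_pos (n := n)
  cases h : P.cc i t with
  | none =>
    rw [kt_none h]
    refine le_trans (div_le_div_of_nonneg_right (one_le _ _) (Nat.cast_nonneg _)) ?_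
    exact H.one_div_card _
  | some ψ =>
    rw [kt_some h]
    obtain ⟨φ, hφ⟩ := H.cc_inl h
    rw [hφ]
    refine le_trans (ker_le (H.idl_pos φ ψ) _ _) (le_trans (H.one_div_idl φ ψ) ?_)
    exact div_le_div_of_nonneg_right H.C1_le hn.le

theorem Hyp.krn (H : Hyp S Q P K β κ₂ θ) (i : I) : Krn (kt S Q P i) where
  nonneg := by
    intro t y x
    cases h : P.cc i t with
    | none =>
      rw [kt_none h]
      exact div_nonneg (one_nonneg _ _) (Nat.cast_nonneg _)
    | some ψ =>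
      rw [kt_some h]
      exact ker_nonneg _ _ _ _
  sum_le := by
    intro t y
    cases h : P.cc i t with
    | none =>
      simp only [kt_none h]
      rw [← Finset.sum_div, sum_one]
      exact div_self_le_one _
    | some ψ =>
      simp only [kt_some h]
      exact sum_ker_le _ _ _
  dep := by
    intro t x y y' h1
    cases h : P.cc i t with
    | none =>
      simp only [kt_none h]
    | some ψ =>
      simp only [kt_some h]
      have h2 := H.base_dep i t y y' h1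
      simp only at h2
      rw [h2]

theorem EX_succ_hit {k : ℕ → (ℕ → ZMod n) → ZMod n → ℝ} (t : ℕ)
    {τ : (ℕ → ZMod n) → ZMod n} (hτ : Dep t τ) :
    EX k (t + 1) (fun y => if y t = τ y then 1 else 0) = EX k t (fun y => k t y (τ y)) := by
  rw [EX_succ]
  congr 1
  funext y
  have h3 : ∀ x, k t y x * (if (Function.update y t x) t = τ (Function.update y t x) then
      (1 : ℝ) else 0) = if x = τ y then k t y x else 0 := by
    intro x
    rw [hτ.update le_rfl, Function.update_self]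
    split_ifs <;> ring
  simp only [h3]
  rw [Finset.sum_ite_eq' Finset.univ (τ y) (fun x => k t y x)]
  simp only [Finset.mem_univ, if_true]

/-- law of the label of step `t` -/
noncomputable def law {Φ : Type} (S : Φ → Finset (ZMod n)) (Q : Ψ → Finset (ZMod n))
    (P : Pcs n Φ Ψ I) (i : I) (t : ℕ) (x : ZMod n) : ℝ :=
  EX (kt S Q P i) (t + 1) (fun y => if y t = x then 1 else 0)

/-- law of the colour of step `t` -/
noncomputable def claw {Φ : Type} (S : Φ → Finset (ZMod n)) (Q : Ψ → Finset (ZMod n))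
    (P : Pcs n Φ Ψ I) (i : I) (t : ℕ) (c : ZMod n) : ℝ :=
  EX (kt S Q P i) (t + 1) (fun y => if y t = c - P.base i t y then 1 else 0)

theorem law_eq (i : I) (t : ℕ) (x : ZMod n) :
    law S Q P i t x = EX (kt S Q P i) t (fun y => kt S Q P i t y x) :=
  EX_succ_hit t (Dep.const t x)

theorem Hyp.tgt_dep (H : Hyp S Q P K β κ₂ θ) (i : I) (t : ℕ) (c : ZMod n) :
    Dep t (fun y => c - P.base i t y) := by
  intro y y' h
  have := H.base_dep i t y y' h
  simp only at this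
  simp only [this]

theorem Hyp.claw_eq (H : Hyp S Q P K β κ₂ θ) (i : I) (t : ℕ) (c : ZMod n) :
    claw S Q P i t c = EX (kt S Q P i) t (fun y => kt S Q P i t y (c - P.base i t y)) :=
  EX_succ_hit t (H.tgt_dep i t c)

theorem Hyp.law_nonneg (H : Hyp S Q P K β κ₂ θ) (i : I) (t : ℕ) (x : ZMod n) :
    0 ≤ law S Q P i t x :=
  EX_nonneg (H.krn i) _ fun y => by split_ifs <;> norm_num

theorem Hyp.law_le (H : Hyp S Q P K β κ₂ θ) (i : I) (t : ℕ) (x : ZMod n) :
    law S Q P i t x ≤ CC β κ₂ / n :=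
  EX_hit1 (H.krn i) (Nat.lt_succ_self t) (H.kt_le i t)
    (div_nonneg H.CC_pos.le (Nat.cast_nonneg _)) (Dep.const t x)

theorem Hyp.sum_law_le (H : Hyp S Q P K β κ₂ θ) (i : I) (t : ℕ) :
    ∑ x, law S Q P i t x ≤ 1 := by
  unfold law
  rw [← EX_sum]
  refine le_trans (le_of_eq ?_) (EX_one_le (H.krn i) (t + 1))
  congr 1
  funext y
  simp

/-- functions of one earlier label -/
theorem Hyp.EX_coord (H : Hyp S Q P K β κ₂ θ) (i : I) {p t : ℕ} (hp : p < t) {F : ZMod n → ℝ}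
    (hF : ∀ z, 0 ≤ F z) :
    EX (kt S Q P i) t (fun y => F (y p)) ≤ ∑ z, law S Q P i p z * F z := by
  have h1 : (fun y : ℕ → ZMod n => F (y p)) =
      fun y => ∑ z, F z * (if y p = z then 1 else 0) := by
    funext y
    simp
  rw [h1, EX_sum]
  refine Finset.sum_le_sum fun z _ => ?_
  rw [EX_smul, mul_comm]
  refine mul_le_mul_of_nonneg_right ?_ (hF z)
  refine EX_le (H.krn i) (show p + 1 ≤ t by omega) (fun y => by split_ifs <;> norm_num) ?_
  intro y y' h
  have := h p (by omega)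
  simp only [this]

theorem cc_pos {Φ : Type} (P : Pcs n Φ Ψ I) (i : I) {t : ℕ} (h : 1 ≤ t) :
    P.cc i t = some (P.cl i t) := by
  unfold Pcs.cc
  rw [if_neg (by omega)]

theorem base_pos {Φ : Type} (P : Pcs n Φ Ψ I) (i : I) {t : ℕ} (h : 1 ≤ t) (y : ℕ → ZMod n) :
    P.base i t y = y (P.pr i t) + P.ofs i t := by
  unfold Pcs.base
  rw [if_neg (by omega)]

theorem Hyp.law_step (H : Hyp S Q P K β κ₂ θ) (i : I) {t : ℕ} (ht : 1 ≤ t) (x : ZMod n) :
    law S Q P i t x ≤ ∑ z, law S Q P i (P.pr i t) z *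
      ker (S (P.ph i t)) (Q (P.cl i t)) (z + P.ofs i t) x := by
  rw [law_eq]
  have h1 : (fun y => kt S Q P i t y x) = fun y => (fun z =>
      ker (S (P.ph i t)) (Q (P.cl i t)) (z + P.ofs i t) x) (y (P.pr i t)) := by
    funext y
    rw [kt_some (cc_pos P i ht), base_pos P i ht]
  rw [h1]
  exact H.EX_coord i (H.pr i t ht)
    (F := fun z => ker (S (P.ph i t)) (Q (P.cl i t)) (z + P.ofs i t) x)
    fun z => ker_nonneg _ _ _ _

theorem Hyp.claw_step (H : Hyp S Q P K β κ₂ θ) (i : I) {t : ℕ} (ht : 1 ≤ t) (c : ZMod n) :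
    claw S Q P i t c ≤ ∑ z, law S Q P i (P.pr i t) z *
      ker (S (P.ph i t)) (Q (P.cl i t)) (z + P.ofs i t) (c - (z + P.ofs i t)) := by
  rw [H.claw_eq]
  have h1 : (fun y => kt S Q P i t y (c - P.base i t y)) = fun y => (fun z =>
      ker (S (P.ph i t)) (Q (P.cl i t)) (z + P.ofs i t) (c - (z + P.ofs i t)))
        (y (P.pr i t)) := by
    funext y
    rw [kt_some (cc_pos P i ht), base_pos P i ht]
  rw [h1]
  exact H.EX_coord i (H.pr i t ht)
    (F := fun z => ker (S (P.ph i t)) (Q (P.cl i t)) (z + P.ofs i t) (c - (z + P.ofs i t)))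
    fun z => ker_nonneg _ _ _ _

theorem Hyp.law_exc (H : Hyp S Q P K β κ₂ θ) (i : I) {t : ℕ} (ht : 1 ≤ t) :
    ∑ x, max (law S Q P i t x - one (S (P.ph i t)) x / ((S (P.ph i t)).card : ℝ)) 0 ≤
      CC β κ₂ * √θ * (1 / β ^ 2) := by
  obtain ⟨φ, hφ⟩ := H.phl i t ht
  have h2 := label_exc (S := S (P.ph i t)) (Q := Q (P.cl i t)) H.t0 H.CC_pos.le (H.QA _)
    (by rw [hφ]; exact H.idl_pos _ _) (H.law_nonneg i (P.pr i t)) (H.law_le i _)
    (H.sum_law_le i _) (P.ofs i t)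
  refine le_trans (Finset.sum_le_sum fun x _ => max_le_max_right 0
    (sub_le_sub_right (H.law_step i ht x) _)) (le_trans h2 ?_)
  rw [hφ]
  exact H.div_idl _ _ (mul_nonneg H.CC_pos.le (Real.sqrt_nonneg _))

theorem Hyp.claw_exc (H : Hyp S Q P K β κ₂ θ) (i : I) {t : ℕ} (ht : 1 ≤ t) :
    ∑ c, max (claw S Q P i t c - one (Q (P.cl i t)) c / ((Q (P.cl i t)).card : ℝ)) 0 ≤
      CC β κ₂ * √θ * (1 / β ^ 2) := by
  obtain ⟨φ, hφ⟩ := H.phl i t ht
  have h2 := colour_exc (S := S (P.ph i t)) (Q := Q (P.cl i t)) H.t0 H.CC_pos.le (H.SA _)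
    (by rw [hφ]; exact H.idl_pos _ _) (H.law_nonneg i (P.pr i t)) (H.law_le i _)
    (H.sum_law_le i _) (P.ofs i t)
  refine le_trans (Finset.sum_le_sum fun x _ => max_le_max_right 0
    (sub_le_sub_right (H.claw_step i ht x) _)) (le_trans h2 ?_)
  rw [hφ]
  exact H.div_idl _ _ (mul_nonneg H.CC_pos.le (Real.sqrt_nonneg _))

/-- the mass lost by a piece -/
theorem Hyp.loss (H : Hyp S Q P K β κ₂ θ) {κ : ℝ} (hκ : 0 ≤ κ)
    (hatt : ∀ i r c, P.att i = some (r, c) →
      (1 - κ) * ((S (P.ph i 0)).card * (Q c).card / n) ≤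
        (((S (P.ph i 0)).filter fun y => r + y ∈ Q c).card : ℝ)) (i : I) :
    1 - EX (kt S Q P i) (P.T i) (fun _ => 1) ≤ κ + K * (CC β κ₂ * √θ * (1 / β ^ 2)) := by
  have hC := H.CC_pos
  have hb := H.b0
  rw [EX_loss]
  have h0 : EX (kt S Q P i) 0 (fun y => 1 - ∑ x, kt S Q P i 0 y x) ≤ κ := by
    change 1 - ∑ x, kt S Q P i 0 (fun _ => 0) x ≤ κ
    cases h : P.cc i 0 with
    | none =>
      simp only [kt_none h]
      rw [← Finset.sum_div, sum_one, div_self (H.card_pos _).ne']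
      simpa using hκ
    | some ψ =>
      simp only [kt_some h]
      have h1 : (P.att i).map Prod.snd = some ψ := by
        unfold Pcs.cc at h
        simpa using h
      cases h2 : P.att i with
      | none => rw [h2] at h1; simp at h1
      | some a =>
        obtain ⟨r, c⟩ := a
        rw [h2] at h1
        simp only [Option.map_some, Option.some.injEq] at h1
        subst h1
        obtain ⟨φ, hφ⟩ := H.pha i _ h2
        have h3 : P.base i 0 (fun _ => 0) = r := by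
          unfold Pcs.base Pcs.rt
          simp [h2]
        rw [h3]
        refine one_sub_sum_ker' (by rw [hφ]; exact H.idl_pos _ _) hκ ?_
        exact hatt i r c h2
  have h1 : ∀ t, 1 ≤ t → EX (kt S Q P i) t (fun y => 1 - ∑ x, kt S Q P i t y x) ≤
      CC β κ₂ * √θ * (1 / β ^ 2) := by
    intro t ht
    obtain ⟨φ, hφ⟩ := H.phl i t ht
    have h2 : (fun y => 1 - ∑ x, kt S Q P i t y x) = fun y => (fun z =>
        1 - ∑ x, ker (S (P.ph i t)) (Q (P.cl i t)) (z + P.ofs i t) x) (y (P.pr i t)) := by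
      funext y
      simp only [kt_some (cc_pos P i ht), base_pos P i ht]
    rw [h2]
    refine le_trans (H.EX_coord i (H.pr i t ht)
      (F := fun z => 1 - ∑ x, ker (S (P.ph i t)) (Q (P.cl i t)) (z + P.ofs i t) x)
      fun z => ?_) ?_
    · have := sum_ker_le (S (P.ph i t)) (Q (P.cl i t)) (z + P.ofs i t)
      linarith
    · refine le_trans (deficit H.t0 H.CC_pos.le (H.QA _) (by rw [hφ]; exact H.idl_pos _ _)
        (H.law_nonneg i _) (H.law_le i _) _) ?_
      rw [hφ]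
      exact H.div_idl _ _ (mul_nonneg H.CC_pos.le (Real.sqrt_nonneg _))
  obtain ⟨m, hm⟩ : ∃ m, P.T i = m + 1 := ⟨P.T i - 1, by have := H.T1 i; omega⟩
  rw [hm, Finset.sum_range_succ']
  have h2 : ∑ t ∈ range m, EX (kt S Q P i) (t + 1)
      (fun y => 1 - ∑ x, kt S Q P i (t + 1) y x) ≤ m * (CC β κ₂ * √θ * (1 / β ^ 2)) := by
    refine le_trans (Finset.sum_le_sum fun t _ => h1 (t + 1) (by omega)) ?_
    rw [Finset.sum_const, Finset.card_range, nsmul_eq_mul]
  have h3 : (m : ℝ) * (CC β κ₂ * √θ * (1 / β ^ 2)) ≤ K * (CC β κ₂ * √θ * (1 / β ^ 2)) := by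
    refine mul_le_mul_of_nonneg_right ?_ (by positivity)
    have := H.TK i
    exact_mod_cast (by omega : m ≤ K)
  linarith

end Pool.Agent.Lib.MP_c5b475_co.KN
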