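import Pool.Agent.Lib.MP_c5b475_co.KN.CovB

/-!
# KN/PlB: ranks for the last stage

`A = Z ∪ Cov`, `B` a set of vertices outside `A`, rank = depth, plus a large number on `D`.
Let `w ∈ B`.
(1) `w ∉ D` (so `w ∉ U = Z ∪ D`): a child `v` of `w` is not in `Z` (`hch`); not in `Cov` (a child of `w` in `Cov`:
`Pc U v c`, `v ≠ c` because `par c ∈ U` (elements of `cov` have their parent in `U`) and `par v = w ∉ U`, so `pc_par` gives
`Pc U w c` and `w ∈ Cov`); and if `v ∈ B` its rank is larger than that of `w` (larger depth, or in `D`). So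
`low ⊆ {par w}`.
(2) `w ∈ D`: children in `D` have a larger rank and are not in `A` (`Cov` and `Z` are disjoint from `D`); there
is at most one child outside `D`; so `|low| ≤ 2`. If `w` is `dom` all children are in `D` (`hdm`), `|low| ≤ 1`.
(3) adjacent vertices have different ranks: both in `D` or both not: depths differ by one; one in `D`: the
rank is `> ` all depths.
-/

set_option autoImplicit false

namespace Pool.Agent.Lib.MP_c5b475_co.KN

open Finset

variable {n : ℕ} {W Kd Ψ : Type} [Fintype W] [DecidableEq W] [Fintype Kd] [DecidableEq Kd]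
  [Fintype Ψ] [DecidableEq Ψ]

/-- rank for the last stage -/
def rkD (X : KT W Kd Ψ) (D : Finset W) (w : W) : ℕ :=
  if w ∈ D then univ.sup X.t.dep + 1 + X.t.dep w else X.t.dep w

private theorem plb_nb (X : KT W Kd Ψ) {w v : W} (h : v ∈ X.t.nb w) :
    (v ∈ X.t.ch w ∧ X.t.par v = w ∧ X.t.dep v = X.t.dep w + 1) ∨
      (v = X.t.par w ∧ X.t.dep w = X.t.dep v + 1) := by
  unfold RTr.nb at h
  rw [mem_union] at h
  rcases h with h1 | h1
  · left
    have h2 := h1
    unfold RTr.ch at h2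
    rw [mem_filter] at h2
    have h4 := X.t.dep_par v h2.2.1
    rw [h2.2.2] at h4
    exact ⟨h1, h2.2.2, h4⟩
  · right
    split_ifs at h1 with h5
    · simp at h1
    · rw [mem_singleton] at h1
      have h4 := X.t.dep_par w h5
      rw [h1]
      exact ⟨rfl, h4⟩

theorem rkD_ne (X : KT W Kd Ψ) (D : Finset W) {w v : W} (h : v ∈ X.t.nb w) :
    rkD X D v ≠ rkD X D w := by
  have hv : X.t.dep v ≤ univ.sup X.t.dep := le_sup (mem_univ v)
  have hw : X.t.dep w ≤ univ.sup X.t.dep := le_sup (mem_univ w)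
  have h1 : X.t.dep v ≠ X.t.dep w := by
    rcases plb_nb X h with ⟨_, _, h1⟩ | ⟨_, h1⟩ <;> omega
  unfold rkD
  split_ifs <;> omega

open Classical in
private theorem plb_sub (X : KT W Kd Ψ) {Z D cov B : Finset W} (hZD : Disjoint Z D)
    (hcov : ∀ c ∈ cov, X.t.par c ∈ Z ∪ D)
    (hch : ∀ w, w ∉ Z → w ∉ D → ∀ v ∈ X.t.ch w, v ∉ Z)
    (hB : Disjoint (Z ∪ Cov X (Z ∪ D) cov) B) {w : W} (hw : w ∈ B) :
    low X (Z ∪ Cov X (Z ∪ D) cov) B (rkD X D) w ⊆
      insert (X.t.par w) ((X.t.ch w).filter fun v => w ∈ D ∧ v ∉ D) := by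
  intro v hv
  unfold low at hv
  rw [mem_filter] at hv
  obtain ⟨h1, h2⟩ := hv
  rw [mem_insert, mem_filter]
  rcases plb_nb X h1 with ⟨h3, h4, h5⟩ | ⟨h3, _⟩
  · right
    have hwA : w ∉ Z ∪ Cov X (Z ∪ D) cov := fun h => (disjoint_left.1 hB) h hw
    rw [mem_union, not_or] at hwA
    obtain ⟨hwZ, hwC⟩ := hwA
    have hdep : X.t.dep v ≤ rkD X D v := by
      unfold rkD
      split_ifs <;> omega
    have hsup : X.t.dep w ≤ univ.sup X.t.dep := le_sup (mem_univ w)
    by_cases hwD : w ∈ D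
    · refine ⟨h3, hwD, fun hvD => ?_⟩
      rcases h2 with h2 | ⟨_, h2⟩
      · rw [mem_union] at h2
        rcases h2 with h2 | h2
        · exact (disjoint_left.1 hZD) h2 hvD
        · unfold Cov at h2
          rw [mem_filter] at h2
          obtain ⟨_, c, _, h6⟩ := h2
          exact (X.t.pc_not_mem h6).1 (mem_union_right _ hvD)
      · unfold rkD at h2
        rw [if_pos hwD, if_pos hvD] at h2
        omega
    · exfalso
      rcases h2 with h2 | ⟨_, h2⟩
      · rw [mem_union] at h2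
        rcases h2 with h2 | h2
        · exact hch w hwZ hwD v h3 h2
        · unfold Cov at h2 hwC
          rw [mem_filter] at h2
          obtain ⟨_, c, hc, h6⟩ := h2
          by_cases hvc : v = c
          · have h7 := hcov c hc
            rw [← hvc, h4, mem_union] at h7
            exact h7.elim hwZ hwD
          · have h7 := (X.t.pc_par h6 hvc).1
            rw [h4] at h7
            exact hwC (mem_filter.2 ⟨mem_univ _, c, hc, h7⟩)
      · have h7 : rkD X D w = X.t.dep w := by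
          unfold rkD
          rw [if_neg hwD]
        rw [h7] at h2
        omega
  · exact Or.inl h3

open Classical in
theorem low_last (X : KT W Kd Ψ) {Z D cov B : Finset W} (hZD : Disjoint Z D)
    (hroot : X.t.root ∈ Z) (hcov : ∀ c ∈ cov, X.t.par c ∈ Z ∪ D)
    (hch : ∀ w, w ∉ Z → w ∉ D → ∀ v ∈ X.t.ch w, v ∉ Z)
    (hone : ∀ d ∈ D, ((X.t.ch d).filter fun v => v ∉ D).card ≤ 1)
    (hB : Disjoint (Z ∪ Cov X (Z ∪ D) cov) B) {w : W} (hw : w ∈ B) :
    (low X (Z ∪ Cov X (Z ∪ D) cov) B (rkD X D) w).card ≤ 2 := by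
  have _ := hroot
  refine (card_le_card (plb_sub X hZD hcov hch hB hw)).trans ((card_insert_le _ _).trans ?_)
  have h1 : ((X.t.ch w).filter fun v => w ∈ D ∧ v ∉ D).card ≤ 1 := by
    by_cases hwD : w ∈ D
    · refine le_trans (card_le_card fun v hv => ?_) (hone w hwD)
      rw [mem_filter] at hv ⊢
      exact ⟨hv.1, hv.2.2⟩
    · rw [filter_eq_empty_iff.2 fun v _ h => hwD h.1, card_empty]
      omega
  omega

open Classical in
theorem low_last_dom (X : KT W Kd Ψ) {Z D cov B : Finset W} (hZD : Disjoint Z D)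
    (hroot : X.t.root ∈ Z) (hcov : ∀ c ∈ cov, X.t.par c ∈ Z ∪ D)
    (hch : ∀ w, w ∉ Z → w ∉ D → ∀ v ∈ X.t.ch w, v ∉ Z)
    (hdm : ∀ d ∈ D, X.dom (X.kd d) = true → X.t.ch d ⊆ D)
    (hB : Disjoint (Z ∪ Cov X (Z ∪ D) cov) B) {w : W} (hw : w ∈ B)
    (hd : X.dom (X.kd w) = true) :
    (low X (Z ∪ Cov X (Z ∪ D) cov) B (rkD X D) w).card ≤ 1 := by
  have _ := hroot
  refine (card_le_card (plb_sub X hZD hcov hch hB hw)).trans ((card_insert_le _ _).trans ?_)
  rw [filter_eq_empty_iff.2 fun v hv h => h.2 (hdm w h.1 hd hv), card_empty]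

end Pool.Agent.Lib.MP_c5b475_co.KN
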