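import Pool.Agent.Lib.MP_c5b475_co.KN.PlA
import Pool.Agent.Lib.MP_c5b475_co.KN.PlB

/-!
# KN/PlC: the last stage of Theorem P
-/

set_option autoImplicit false

namespace Pool.Agent.Lib.MP_c5b475_co.KN

open Finset

variable {n : ℕ} {W Kd Ψ : Type} [Fintype W] [DecidableEq W] [Fintype Kd] [DecidableEq Kd]
  [Fintype Ψ] [DecidableEq Ψ]

open Classical in
/-- `last_stage`, and the labels of the hubs -/
theorem last_stage2 [NeZero n] (X : KT W Kd Ψ) (C : Cfg n W Kd Ψ) {β c κ₁ κ₂ θ : ℝ} {h0 K : ℕ}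
    (hc : 0 < c) (hn : 2 ≤ n) (hκ₂ : 0 ≤ κ₂)
    (hok : CfgOK C X β c κ₁ κ₂ θ h0) {Z D : Finset W} (hZD : Disjoint Z D)
    (hroot : X.t.root ∈ Z) (hHub : C.Hub ⊆ Z) (hsz2 : ∀ z ∈ Z, 2 ≤ X.t.sz z)
    (hch : ∀ w, w ∉ Z → w ∉ D → ∀ v ∈ X.t.ch w, v ∉ Z)
    (hone : ∀ d ∈ D, ((X.t.ch d).filter fun v => v ∉ D).card ≤ 1)
    (hdm : ∀ d ∈ D, X.dom (X.kd d) = true → X.t.ch d ⊆ D)
    (hK : ∀ v, (pcs X (Z ∪ D) v).card ≤ K)
    {cov : Finset W} {lab : W → ZMod n} (hcov : cov ⊆ Iset X C (Z ∪ D) κ₂)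
    (hlh : ∀ h ∈ C.Hub, lab h = C.lh h) (hR : ∀ z ∈ Z, z ∉ C.Hub → lab z ∈ C.R (X.kd z))
    (hRC : ∀ u, X.EdgeIn Z u → ¬ X.EdgeIn C.Hub u → X.col lab u ∈ C.RC)
    (hE : X.Emb (Z ∪ Cov X (Z ∪ D) cov) lab)
    (hl : ∀ w ∈ Cov X (Z ∪ D) cov, lab w ∈ C.S (X.kd w) ∨
      (w ∈ cov ∧ X.t.par w ∈ C.Hub ∧ lab w ∈ C.Y (X.t.par w) (X.kd w)))
    (hq : ∀ w ∈ Cov X (Z ∪ D) cov, X.t.par w ∉ D → X.col lab w ∈ C.Q (X.cl (X.kd w)) ∨
      (w ∈ cov ∧ X.t.par w ∈ C.Hub ∧ lab w ∈ C.Y (X.t.par w) (X.kd w)))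
    {m : ℝ} (hm : (D.card + K * ((Iset X C (Z ∪ D) κ₂ \ cov).card +
      (Bad X C (Z ∪ D) κ₂).card) : ℝ) ≤ m) (hsz : 3 * (Z.card : ℝ) + 7 * m ≤ c * n / 2) :
    ∃ (lab' : W → ZMod n) (Dp : Finset W), (∀ w ∈ Dp, X.spl (X.kd w) = true) ∧
      (Dp.card : ℝ) ≤ Z.card + 2 * m ∧ X.Emb (univ \ Dp) lab' ∧
      (∀ w ∉ Dp, (w ∈ C.Hub ∧ lab' w = C.lh w) ∨ lab' w ∈ C.S (X.kd w) ∨ lab' w ∈ C.R (X.kd w) ∨
        (w ≠ X.t.root ∧ X.t.par w ∈ C.Hub ∧ lab' w ∈ C.Y (X.t.par w) (X.kd w))) ∧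
      (∀ w ∉ Dp, w ≠ X.t.root → X.col lab' w ∈ C.Q (X.cl (X.kd w)) ∨ X.col lab' w ∈ C.RC ∨
        (X.t.par w ∈ C.Hub ∧ lab' w ∈ C.Y (X.t.par w) (X.kd w)) ∨
        (w ∈ C.Hub ∧ X.t.par w ∈ C.Hub)) ∧
      (((univ \ Dp).filter fun w => w ≠ X.t.root ∧ X.col lab' w ∈ C.RC).card : ℝ) ≤
        Z.card + 2 * m ∧
      (∀ w ∉ Dp, X.spl (X.kd w) = true → lab' w ∈ C.S (X.kd w) ∧
        X.col lab' w ∈ C.Q (X.cl (X.kd w)) ∧ (lab' (X.t.par w) ∈ C.S (X.kd (X.t.par w)) ∨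
          (X.t.par w ≠ X.t.root ∧ X.t.par (X.t.par w) ∈ C.Hub ∧
            lab' (X.t.par w) ∈ C.Y (X.t.par (X.t.par w)) (X.kd (X.t.par w))))) ∧
      ∀ h ∈ C.Hub, lab' h = C.lh h := by
  set U := Z ∪ D with hUdef
  have hU : X.t.root ∈ U := mem_union_left _ hroot
  set A := Z ∪ Cov X U cov with hAdef
  set B := univ.filter fun w => w ∉ A ∧ X.spl (X.kd w) = false with hBdef
  set Dp := univ.filter fun w => w ∉ A ∧ X.spl (X.kd w) = true with hDpdef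
  have hIs : ∀ v ∈ Iset X C U κ₂, v ∉ U ∧ X.t.par v ∈ U ∧ X.spl (X.kd v) = false := fun v hv => by
    simp only [Iset, mem_filter] at hv
    exact ⟨hv.2.1, hv.2.2.1, hv.2.2.2.1⟩
  have hcovU : ∀ v ∈ cov, X.t.par v ∈ Z ∪ D := fun v hv => (hIs v (hcov hv)).2.1
  have hCovm : ∀ w, w ∈ Cov X U cov ↔ ∃ v ∈ cov, X.t.Pc U w v := fun w => by
    simp [Cov]
  have hCovU : ∀ w ∈ Cov X U cov, w ∉ U := fun w hw => by
    obtain ⟨v, _, hv⟩ := (hCovm w).1 hw
    exact (X.t.pc_not_mem hv).1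
  have hAD : ∀ w ∈ A, w ∉ D := fun w hw hD => by
    rcases mem_union.1 hw with h | h
    · exact disjoint_left.1 hZD h hD
    · exact hCovU w h (mem_union_right _ hD)
  have hnbpar : ∀ w, w ≠ X.t.root → X.t.par w ∈ X.t.nb w := fun w hw => by
    rw [X.t.mem_nb]
    exact Or.inr ⟨hw, rfl⟩
  have hCovr : ∀ w ∈ Cov X U cov, w ≠ X.t.root := fun w hw h => hCovU w hw (h ▸ hU)
  have hZr : ∀ w, w ∈ Z → X.spl (X.kd w) = false := fun w hw => by
    by_contra h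
    have h1 : X.spl (X.kd w) = true := by simpa using h
    have h2 := X.t.sz_leaf (X.spl_leaf w h1)
    have h3 := hsz2 w hw
    omega
  have hodom : ∀ w, w ≠ X.t.root → X.t.par w ∈ C.Hub → X.o w = 0 := fun w hw hh => by
    by_contra h
    have h1 : X.o w = 1 := by
      have := X.o_le w
      omega
    exact (hok.hub_dom _ (X.o_dom w hw h1)).1 hh
  have hsd : ∀ w, w ≠ X.t.root → X.side (X.kd w) ≠ X.side (X.kd (X.t.par w)) := X.side_par
  -- labels are in `Lab`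
  have hLab : ∀ u ∈ A, C.Lab X (X.side (X.kd u)) (lab u) := fun u hu => by
    rcases mem_union.1 hu with h | h
    · by_cases hh : u ∈ C.Hub
      · exact Or.inr (Or.inr ⟨u, hh, rfl, hlh u hh⟩)
      · exact Or.inl ⟨X.kd u, rfl, Or.inr (hR u h hh)⟩
    · rcases hl u h with h1 | ⟨_, h1, h2⟩
      · exact Or.inl ⟨X.kd u, rfl, Or.inl h1⟩
      · exact Or.inr (Or.inl ⟨_, h1, X.kd u, rfl, h2⟩)
  -- colours of covered edges are not in `RC`
  have hcolR : ∀ u ∈ Cov X U cov, X.t.par u ∉ D → X.col lab u ∉ C.RC := fun u hu hD => by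
    rcases hq u hu hD with h | ⟨_, h1, h2⟩
    · exact disjoint_left.1 (hok.QRC _) h
    · have h3 : X.col lab u = C.lh (X.t.par u) + lab u := by
        unfold KT.col
        rw [hlh _ h1, hodom u (hCovr u hu) h1]
        push_cast
        ring
      rw [h3]
      exact (hok.YQ _ h1 (X.kd u) (hsd u (hCovr u hu)) _ h2).1
  have hBcard : (B.card : ℝ) ≤ m := by
    refine le_trans ?_ hm
    have := B_card X C (Z := Z) (D := D) (cov := cov) (κ₂ := κ₂) (K := K) hroot hK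
    exact_mod_cast this
  have hm0 : (D.card : ℝ) ≤ m := by
    refine le_trans ?_ hm
    have : (0 : ℝ) ≤ K * ((Iset X C (Z ∪ D) κ₂ \ cov).card + (Bad X C (Z ∪ D) κ₂).card) := by
      positivity
    linarith
  have hDpcard : (Dp.card : ℝ) ≤ Z.card + 2 * m := by
    have h1 := Dp_card X C (Z := Z) (D := D) (cov := cov) (κ₂ := κ₂) (K := K) hroot hK
    have h2 : (Dp.card : ℝ) ≤ Z.card + 2 * D.card +
        K * ((Iset X C (Z ∪ D) κ₂ \ cov).card + (Bad X C (Z ∪ D) κ₂).card) := by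
      exact_mod_cast h1
    linarith
  have hAB : Disjoint A B := by
    rw [disjoint_left]
    intro w hw hB
    exact (mem_filter.1 hB).2.1 hw
  have hABD : A ∪ B = univ \ Dp := by
    ext w
    simp only [mem_union, mem_sdiff, mem_univ, true_and, hBdef, hDpdef, mem_filter]
    constructor
    · rintro (h | h)
      · exact fun h2 => h2.1 h
      · exact fun h2 => by simp [h.2] at h2
    · intro h
      by_cases hA : w ∈ A
      · exact Or.inl hA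
      · right
        refine ⟨hA, ?_⟩
        by_contra h3
        exact h ⟨hA, by simpa using h3⟩
  obtain ⟨lab', g1, g2, g3, g4, -⟩ := greedy X C c hc hn A B hAB lab hE Z Z
    (fun u hu hZ k hk => by
      have hu' : u ∈ Cov X U cov := by
        rcases mem_union.1 hu with h | h
        · exact absurd h hZ
        · exact h
      rcases hl u hu' with h | ⟨_, h1, h2⟩
      · exact disjoint_left.1 (hok.SR (X.kd u) k hk.symm) h
      · exact disjoint_right.1 (hok.RY k _ h1 (X.kd u) hk) h2)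
    (fun u hu hZ => by
      have hu' : u ∈ Cov X U cov := by
        rcases mem_union.1 hu.2.1 with h | h
        · exact absurd h hZ
        · exact h
      exact hcolR u hu' (hAD _ hu.2.2))
    (fun u hu hd k hk hx => by
      have h0 : ∀ x, (x = lab u) → (x ∈ C.S (X.kd u) ∨ x ∈ C.R (X.kd u)) → False := by
        rintro x rfl hx'
        exact hok.dom_out (X.kd u) hd _ hx' (Or.inl ⟨k, hk, Or.inr hx⟩)
      rcases mem_union.1 hu with h | h
      · exact h0 _ rfl (Or.inr (hR u h (hok.hub_dom u hd).1))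
      · rcases hl u h with h1 | ⟨_, h1, _⟩
        · exact h0 _ rfl (Or.inl h1)
        · exact (hok.hub_dom u hd).2 _ (hnbpar u (hCovr u h)) h1)
    (fun k hd x hx => ⟨fun k' hk' hx' =>
      hok.dom_out k hd x (Or.inr hx) (Or.inl ⟨k', hk', Or.inr hx'⟩), fun u hu hs he =>
      hok.dom_out k hd x (Or.inr hx) (by rw [← he, ← hs]; exact hLab u hu)⟩)
    (rkD X D)
    (fun w hw => low_last X hZD hroot hcovU hch hone hAB hw)
    (fun w hw hd => low_last_dom X hZD hroot hcovU hch hdm hAB hw hd)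
    (fun w _ v _ hv => rkD_ne X D hv)
    hok.LBR
    (by linarith)
    (J := Unit) (fun _ _ _ => 0) (fun _ => 0) (fun _ => 0) 0 le_rfl (fun _ _ => le_rfl)
    (fun _ _ _ _ => by simp) (fun _ _ _ => by simp) (fun _ _ _ => by simp)
  have hcolA : ∀ w, X.EdgeIn A w → X.col lab' w = X.col lab w := fun w hw => by
    unfold KT.col
    rw [g1 _ hw.2.1, g1 _ hw.2.2]
  have hpD : ∀ w, w ≠ X.t.root → X.t.par w ∉ Dp := fun w hw h => by
    have h1 := X.spl_leaf _ (mem_filter.1 h).2.2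
    have h2 : w ∈ X.t.ch (X.t.par w) := X.t.mem_ch.2 ⟨hw, rfl⟩
    rw [h1] at h2
    exact absurd h2 (by simp)
  have hcovA : ∀ w ∈ Cov X U cov, X.t.par w ∉ D → X.t.par w ∈ A := fun w hw hD => by
    obtain ⟨v, hv, hp⟩ := (hCovm w).1 hw
    by_cases hwv : w = v
    · subst hwv
      rcases mem_union.1 (hcovU w hv) with h | h
      · exact mem_union_left _ h
      · exact absurd h hD
    · exact mem_union_right _ ((hCovm _).2 ⟨v, hv, (X.t.pc_par hp hwv).1⟩)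
  refine ⟨lab', Dp, fun w hw => (mem_filter.1 hw).2.2, hDpcard, hABD ▸ g2, ?_, ?_, ?_, ?_,
    fun h hh => by rw [g1 h (mem_union_left _ (hHub hh))]; exact hlh h hh⟩
  · intro w hw
    have hw' : w ∈ A ∪ B := by rw [hABD]; simp [hw]
    rcases mem_union.1 hw' with h | h
    · rw [g1 w h]
      rcases mem_union.1 h with h2 | h2
      · by_cases hh : w ∈ C.Hub
        · exact Or.inl ⟨hh, hlh w hh⟩
        · exact Or.inr (Or.inr (Or.inl (hR w h2 hh)))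
      · rcases hl w h2 with h3 | ⟨_, h3, h4⟩
        · exact Or.inr (Or.inl h3)
        · exact Or.inr (Or.inr (Or.inr ⟨hCovr w h2, h3, h4⟩))
    · exact Or.inr (Or.inr (Or.inl (g3 w h)))
  · intro w hw hr
    have hw' : w ∈ A ∪ B := by rw [hABD]; simp [hw]
    have hp' : X.t.par w ∈ A ∪ B := by rw [hABD]; simp [hpD w hr]
    by_cases hA : X.EdgeIn A w
    · rw [hcolA w hA]
      rcases mem_union.1 hA.2.1 with h | h
      · have hpZ : X.t.par w ∈ Z := by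
          rcases mem_union.1 hA.2.2 with h2 | h2
          · exact h2
          · have h3 := hCovU _ h2
            exact absurd h (hch _ (fun hh => h3 (mem_union_left _ hh))
              (fun hh => h3 (mem_union_right _ hh)) w (X.t.mem_ch.2 ⟨hr, rfl⟩))
        by_cases hh : X.EdgeIn C.Hub w
        · exact Or.inr (Or.inr (Or.inr ⟨hh.2.1, hh.2.2⟩))
        · exact Or.inr (Or.inl (hRC w ⟨hr, h, hpZ⟩ hh))
      · rcases hq w h (hAD _ hA.2.2) with h3 | ⟨_, h3, h4⟩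
        · exact Or.inl h3
        · refine Or.inr (Or.inr (Or.inl ⟨h3, ?_⟩))
          rw [g1 w hA.2.1]
          exact h4
    · exact Or.inr (Or.inl (g4 w ⟨hr, hw', hp'⟩ hA))
  · -- number of edges with a reserved colour
    have hsub : ((univ \ Dp).filter fun w => w ≠ X.t.root ∧ X.col lab' w ∈ C.RC) ⊆
        Z ∪ (B ∪ (univ.filter fun w => w ∈ Cov X U cov ∧ X.t.par w ∈ D)) := by
      intro w hw
      obtain ⟨hw1, hw2, hw3⟩ := mem_filter.1 hw
      rw [← hABD] at hw1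
      rcases mem_union.1 hw1 with h | h
      · rcases mem_union.1 h with h2 | h2
        · exact mem_union_left _ h2
        · by_cases hD : X.t.par w ∈ D
          · exact mem_union_right _ (mem_union_right _ (mem_filter.2 ⟨mem_univ _, h2, hD⟩))
          · exfalso
            have hA : X.EdgeIn A w := ⟨hw2, h, hcovA w h2 hD⟩
            rw [hcolA w hA] at hw3
            exact hcolR w h2 hD hw3
      · exact mem_union_right _ (mem_union_left _ h)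
    have hcD : (univ.filter fun w => w ∈ Cov X U cov ∧ X.t.par w ∈ D).card ≤ D.card := by
      refine card_le_card_of_injOn X.t.par (fun w hw => (mem_filter.1 hw).2.2) ?_
      intro u hu v hv huv
      have hu' := (mem_filter.1 hu).2
      have hv' := (mem_filter.1 hv).2
      have h1 := hone _ hu'.2
      rw [card_le_one] at h1
      refine h1 u (mem_filter.2 ⟨X.t.mem_ch.2 ⟨hCovr u hu'.1, rfl⟩, fun hh =>
        hCovU u hu'.1 (mem_union_right _ hh)⟩) v (mem_filter.2 ⟨X.t.mem_ch.2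
        ⟨hCovr v hv'.1, huv.symm⟩, fun hh => hCovU v hv'.1 (mem_union_right _ hh)⟩)
    have h5 := card_le_card hsub
    have h6 : (Z ∪ (B ∪ (univ.filter fun w => w ∈ Cov X U cov ∧ X.t.par w ∈ D))).card ≤
        Z.card + (B.card + D.card) :=
      le_trans (card_union_le _ _) (Nat.add_le_add_left
        (le_trans (card_union_le _ _) (Nat.add_le_add_left hcD _)) _)
    have h7 : ((((univ \ Dp).filter fun w => w ≠ X.t.root ∧ X.col lab' w ∈ C.RC).card : ℕ) : ℝ) ≤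
        Z.card + (B.card + D.card) := by exact_mod_cast le_trans h5 h6
    linarith
  · intro w hw hs
    have hw' : w ∈ A ∪ B := by rw [hABD]; simp [hw]
    have hwA : w ∈ A := by
      rcases mem_union.1 hw' with h | h
      · exact h
      · exact absurd (mem_filter.1 h).2.2 (by simp [hs])
    have hwC : w ∈ Cov X U cov := by
      rcases mem_union.1 hwA with h | h
      · exact absurd (hZr w h) (by simp [hs])
      · exact h
    obtain ⟨v, hv, hp⟩ := (hCovm w).1 hwC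
    have hcs : w ∉ cov := fun h => absurd (hIs w (hcov h)).2.2 (by simp [hs])
    have hwv : w ≠ v := fun h => hcs (h ▸ hv)
    have hpp := X.t.pc_par hp hwv
    have hpC : X.t.par w ∈ Cov X U cov := (hCovm _).2 ⟨v, hv, hpp.1⟩
    have hpD' : X.t.par w ∉ D := fun h => hpp.2 (mem_union_right _ h)
    have hA : X.EdgeIn A w := ⟨hCovr w hwC, hwA, mem_union_right _ hpC⟩
    refine ⟨?_, ?_, ?_⟩
    · rw [g1 w hwA]
      rcases hl w hwC with h | ⟨h, _⟩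
      · exact h
      · exact absurd h hcs
    · rw [hcolA w hA]
      rcases hq w hwC hpD' with h | ⟨h, _⟩
      · exact h
      · exact absurd h hcs
    · rw [g1 _ hA.2.2]
      rcases hl _ hpC with h | ⟨_, h1, h2⟩
      · exact Or.inl h
      · exact Or.inr ⟨hCovr _ hpC, h1, h2⟩

open Classical in
theorem last_stage [NeZero n] (X : KT W Kd Ψ) (C : Cfg n W Kd Ψ) {β c κ₁ κ₂ θ : ℝ} {h0 K : ℕ}
    (hc : 0 < c) (hn : 2 ≤ n) (hκ₂ : 0 ≤ κ₂)
    (hok : CfgOK C X β c κ₁ κ₂ θ h0) {Z D : Finset W} (hZD : Disjoint Z D)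
    (hroot : X.t.root ∈ Z) (hHub : C.Hub ⊆ Z) (hsz2 : ∀ z ∈ Z, 2 ≤ X.t.sz z)
    (hch : ∀ w, w ∉ Z → w ∉ D → ∀ v ∈ X.t.ch w, v ∉ Z)
    (hone : ∀ d ∈ D, ((X.t.ch d).filter fun v => v ∉ D).card ≤ 1)
    (hdm : ∀ d ∈ D, X.dom (X.kd d) = true → X.t.ch d ⊆ D)
    (hK : ∀ v, (pcs X (Z ∪ D) v).card ≤ K)
    {cov : Finset W} {lab : W → ZMod n} (hcov : cov ⊆ Iset X C (Z ∪ D) κ₂)
    (hlh : ∀ h ∈ C.Hub, lab h = C.lh h) (hR : ∀ z ∈ Z, z ∉ C.Hub → lab z ∈ C.R (X.kd z))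
    (hRC : ∀ u, X.EdgeIn Z u → ¬ X.EdgeIn C.Hub u → X.col lab u ∈ C.RC)
    (hE : X.Emb (Z ∪ Cov X (Z ∪ D) cov) lab)
    (hl : ∀ w ∈ Cov X (Z ∪ D) cov, lab w ∈ C.S (X.kd w) ∨
      (w ∈ cov ∧ X.t.par w ∈ C.Hub ∧ lab w ∈ C.Y (X.t.par w) (X.kd w)))
    (hq : ∀ w ∈ Cov X (Z ∪ D) cov, X.t.par w ∉ D → X.col lab w ∈ C.Q (X.cl (X.kd w)) ∨
      (w ∈ cov ∧ X.t.par w ∈ C.Hub ∧ lab w ∈ C.Y (X.t.par w) (X.kd w)))
    {m : ℝ} (hm : (D.card + K * ((Iset X C (Z ∪ D) κ₂ \ cov).card +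
      (Bad X C (Z ∪ D) κ₂).card) : ℝ) ≤ m) (hsz : 3 * (Z.card : ℝ) + 7 * m ≤ c * n / 2) :
    ∃ (lab' : W → ZMod n) (Dp : Finset W), (∀ w ∈ Dp, X.spl (X.kd w) = true) ∧
      (Dp.card : ℝ) ≤ Z.card + 2 * m ∧ X.Emb (univ \ Dp) lab' ∧
      (∀ w ∉ Dp, (w ∈ C.Hub ∧ lab' w = C.lh w) ∨ lab' w ∈ C.S (X.kd w) ∨ lab' w ∈ C.R (X.kd w) ∨
        (w ≠ X.t.root ∧ X.t.par w ∈ C.Hub ∧ lab' w ∈ C.Y (X.t.par w) (X.kd w))) ∧
      (∀ w ∉ Dp, w ≠ X.t.root → X.col lab' w ∈ C.Q (X.cl (X.kd w)) ∨ X.col lab' w ∈ C.RC ∨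
        (X.t.par w ∈ C.Hub ∧ lab' w ∈ C.Y (X.t.par w) (X.kd w)) ∨
        (w ∈ C.Hub ∧ X.t.par w ∈ C.Hub)) ∧
      (((univ \ Dp).filter fun w => w ≠ X.t.root ∧ X.col lab' w ∈ C.RC).card : ℝ) ≤
        Z.card + 2 * m ∧
      ∀ w ∉ Dp, X.spl (X.kd w) = true → lab' w ∈ C.S (X.kd w) ∧
        X.col lab' w ∈ C.Q (X.cl (X.kd w)) ∧ (lab' (X.t.par w) ∈ C.S (X.kd (X.t.par w)) ∨
          (X.t.par w ≠ X.t.root ∧ X.t.par (X.t.par w) ∈ C.Hub ∧
            lab' (X.t.par w) ∈ C.Y (X.t.par (X.t.par w)) (X.kd (X.t.par w)))) := by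
  obtain ⟨lab', Dp, h1, h2, h3, h4, h5, h6, h7, _⟩ := last_stage2 X C (K := K) hc hn hκ₂ hok hZD
    hroot hHub hsz2 hch hone hdm hK hcov hlh hR hRC hE hl hq hm hsz
  exact ⟨lab', Dp, h1, h2, h3, h4, h5, h6, h7⟩

end Pool.Agent.Lib.MP_c5b475_co.KN
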