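import Pool.Agent.Lib.MP_c5b475_co.KN.CutThm
import Pool.Agent.Lib.MP_c5b475_co.KN.CovThm
import Pool.Agent.Lib.MP_c5b475_co.KN.ZSt
import Pool.Agent.Lib.MP_c5b475_co.KN.PlC

/-!
# KN/PThm: near-perfect labelling of a tree with kinds
-/

set_option autoImplicit false

namespace Pool.Agent.Lib.MP_c5b475_co.KN

open Finset

/-- **Theorem P** (near-perfect labelling of a tree with kinds), with the labels of the hubs. -/
theorem place2 (Kd Ψ : Type) [Fintype Kd] [DecidableEq Kd] [Fintype Ψ] [DecidableEq Ψ]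
    (β c ε : ℝ) (hβ : 0 < β) (hc : 0 < c) (hε : 0 < ε) :
    ∃ κ₁ : ℝ, 0 < κ₁ ∧ ∀ h0 : ℕ, ∃ κ₂ : ℝ, 0 < κ₂ ∧ ∃ θ : ℝ, 0 < θ ∧ ∃ n₀ : ℕ,
      ∀ (n : ℕ) [NeZero n], n₀ ≤ n → ∀ (W : Type) [Fintype W] [DecidableEq W] (X : KT W Kd Ψ)
      (C : Cfg n W Kd Ψ), Fintype.card W ≤ n + 1 → n ≤ 2 * Fintype.card W →
      CfgOK C X β c κ₁ κ₂ θ h0 →
      ∃ (lab : W → ZMod n) (D : Finset W), (∀ w ∈ D, X.spl (X.kd w) = true) ∧
        (D.card : ℝ) ≤ ε * n ∧ X.Emb (univ \ D) lab ∧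
        (∀ w ∉ D, (w ∈ C.Hub ∧ lab w = C.lh w) ∨ lab w ∈ C.S (X.kd w) ∨ lab w ∈ C.R (X.kd w) ∨
          (w ≠ X.t.root ∧ X.t.par w ∈ C.Hub ∧ lab w ∈ C.Y (X.t.par w) (X.kd w))) ∧
        (∀ w ∉ D, w ≠ X.t.root → X.col lab w ∈ C.Q (X.cl (X.kd w)) ∨ X.col lab w ∈ C.RC ∨
          (X.t.par w ∈ C.Hub ∧ lab w ∈ C.Y (X.t.par w) (X.kd w)) ∨
          (w ∈ C.Hub ∧ X.t.par w ∈ C.Hub)) ∧
        (((univ \ D).filter fun w => w ≠ X.t.root ∧ X.col lab w ∈ C.RC).card : ℝ) ≤ ε * n ∧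
        (∀ w ∉ D, X.spl (X.kd w) = true → lab w ∈ C.S (X.kd w) ∧
          X.col lab w ∈ C.Q (X.cl (X.kd w)) ∧ (lab (X.t.par w) ∈ C.S (X.kd (X.t.par w)) ∨
            (X.t.par w ≠ X.t.root ∧ X.t.par (X.t.par w) ∈ C.Hub ∧
              lab (X.t.par w) ∈ C.Y (X.t.par (X.t.par w)) (X.kd (X.t.par w))))) ∧
        ∀ h ∈ C.Hub, lab h = C.lh h := by
  classical
  obtain ⟨c', hc', hcc, hce, hc1⟩ : ∃ c' : ℝ, 0 < c' ∧ c' ≤ c ∧ c' ≤ ε ∧ c' ≤ 1 :=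
    ⟨min c (min ε 1), by positivity, min_le_left _ _,
      le_trans (min_le_right _ _) (min_le_left _ _), le_trans (min_le_right _ _) (min_le_right _ _)⟩
  obtain ⟨R, hR⟩ : ∃ R : ℕ, 400 / c' ≤ R := exists_nat_ge _
  have hR' : 400 ≤ c' * R := by
    rw [div_le_iff₀ hc'] at hR
    linarith
  have hR2 : 2 ≤ R := by
    have : (400 : ℝ) ≤ R := le_trans hR' (by nlinarith [Nat.cast_nonneg (α := ℝ) R])
    have : (2 : ℝ) ≤ R := by linarith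
    exact_mod_cast this
  have hR0 : (0 : ℝ) < R := by
    have : (2 : ℝ) ≤ R := by exact_mod_cast hR2
    linarith
  obtain ⟨K0, hK0⟩ : ∃ K0 : ℕ, 800 * R / c' ≤ K0 := exists_nat_ge _
  have hK0' : 800 * R ≤ c' * K0 := by
    rw [div_le_iff₀ hc'] at hK0
    linarith
  have hK02 : 2 ≤ K0 := by
    have h1 : (800 * R : ℝ) ≤ K0 := le_trans hK0' (by nlinarith [Nat.cast_nonneg (α := ℝ) K0])
    have h2 : (2 : ℝ) ≤ R := by exact_mod_cast hR2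
    have : (2 : ℝ) ≤ K0 := by linarith
    exact_mod_cast this
  have hK00 : (0 : ℝ) < K0 := by
    have : (2 : ℝ) ≤ K0 := by exact_mod_cast hK02
    linarith
  set K : ℕ := 2 * R * K0 with hKdef
  have hK : (0 : ℝ) < K := by
    rw [hKdef]
    push_cast
    positivity
  obtain ⟨κ, hκ, H⟩ := covered Kd Ψ K β (c' / (400 * K)) hβ (by positivity)
  refine ⟨min (κ / 4) (κ ^ 2 / 16), by positivity, fun h0 => ?_⟩
  set κ₁ : ℝ := min (κ / 4) (κ ^ 2 / 16) with hκ₁def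
  have hκ₁ : 0 < κ₁ := by positivity
  have hκ₁4 : 4 * κ₁ ≤ κ := by
    have : κ₁ ≤ κ / 4 := min_le_left _ _
    linarith
  have hκ₁16 : 16 * κ₁ ≤ κ ^ 2 := by
    have : κ₁ ≤ κ ^ 2 / 16 := min_le_right _ _
    linarith
  set κ₂ : ℝ := c' / (400 * K * (h0 + 1) * (Fintype.card Kd + 1)) with hκ₂def
  have hκ₂ : 0 < κ₂ := by positivity
  obtain ⟨θ₀, hθ₀, n₁, H⟩ := H κ₂ hκ₂
  refine ⟨κ₂, hκ₂, min θ₀ (c * (κ ^ 2 / 100) ^ 2), by positivity, ?_⟩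
  obtain ⟨n₂, hn₂⟩ : ∃ n₂ : ℕ, K0 / κ₁ ≤ n₂ := exists_nat_ge _
  obtain ⟨n₃, hn₃⟩ : ∃ n₃ : ℕ, 400 * R * (1 + h0) / c' ≤ n₃ := exists_nat_ge _
  refine ⟨n₁ + n₂ + n₃ + 2 * K0 + 2, ?_⟩
  intro n _ hn W _ _ X C hW hW2 hok
  set θ : ℝ := min θ₀ (c * (κ ^ 2 / 100) ^ 2) with hθdef
  have hθ : 0 < θ := by positivity
  have hθ1 : θ ≤ θ₀ := min_le_left _ _
  have hθ2 : 100 * Real.sqrt (θ / c) ≤ κ ^ 2 := by
    have h1 : θ / c ≤ (κ ^ 2 / 100) ^ 2 := by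
      rw [div_le_iff₀ hc]
      have : θ ≤ c * (κ ^ 2 / 100) ^ 2 := min_le_right _ _
      linarith
    have h2 : Real.sqrt (θ / c) ≤ κ ^ 2 / 100 := by
      rw [← Real.sqrt_sq (show (0 : ℝ) ≤ κ ^ 2 / 100 by positivity)]
      exact Real.sqrt_le_sqrt h1
    linarith
  have hn1 : n₁ ≤ n := by omega
  have hnK : K0 ≤ Fintype.card W := by omega
  have hn2 : 2 ≤ n := by omega
  have hn2' : (2 : ℝ) ≤ n := by exact_mod_cast hn2
  have hnκ : (K0 : ℝ) ≤ κ₁ * n := by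
    have h1 : (n₂ : ℝ) ≤ n := by exact_mod_cast (show n₂ ≤ n by omega)
    have h2 := le_trans hn₂ h1
    rw [div_le_iff₀ hκ₁] at h2
    linarith
  have hnR : 400 * R * (1 + h0) ≤ c' * n := by
    have h1 : (n₃ : ℝ) ≤ n := by exact_mod_cast (show n₃ ≤ n by omega)
    have h2 := le_trans hn₃ h1
    rw [div_le_iff₀ hc'] at h2
    linarith
  have hcn : 0 < c' * n := by positivity
  have hcn2 : c' ≤ c' * n / 2 := by nlinarith
  -- the cut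
  obtain ⟨Z, D, hZD, hroot, hHub, hsz, hZc, hDc, hch, hone, hdm, _, hpc⟩ :=
    X.t.cut R K0 hR2 hK02 hnK (fun w => X.dom (X.kd w) = true)
      (fun w hw h => by simp [X.dom_par w hw h]) C.Hub
      (fun z hz => by
        have := le_trans hnκ (hok.hub_sz z hz)
        exact_mod_cast this)
  have hZcard : (Z.card : ℝ) ≤ c' * n / 50 := by
    have h1 : ((K0 * Z.card : ℕ) : ℝ) ≤ ((2 * R * (K0 * (1 + C.Hub.card) + 2 * Fintype.card W) : ℕ) : ℝ) :=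
      Nat.cast_le.2 hZc
    push_cast at h1
    have h2 : (C.Hub.card : ℝ) ≤ h0 := by exact_mod_cast hok.hub_card
    have h3 : (Fintype.card W : ℝ) ≤ n + 1 := by exact_mod_cast hW
    have h4 : (K0 : ℝ) * Z.card ≤ 2 * R * (K0 * (1 + h0) + 2 * (n + 1)) := by
      refine le_trans h1 ?_
      gcongr
    -- 4R(n+1) ≤ K0 c' (n+1)/200
    have h5 : 4 * R * (n + 1 : ℝ) ≤ K0 * (c' * (n + 1) / 200) := by
      have : 4 * (R : ℝ) ≤ K0 * (c' / 200) := by linarith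
      calc 4 * R * (n + 1 : ℝ) ≤ K0 * (c' / 200) * (n + 1) := by gcongr
        _ = _ := by ring
    have h6 : 2 * R * (K0 * (1 + h0) : ℝ) ≤ K0 * (c' * n / 200) := by
      have : 2 * R * (1 + h0 : ℝ) ≤ c' * n / 200 := by linarith
      calc 2 * R * (K0 * (1 + h0) : ℝ) = K0 * (2 * R * (1 + h0)) := by ring
        _ ≤ _ := by gcongr
    have h7 : (K0 : ℝ) * Z.card ≤ K0 * (c' * n / 200 + c' * (n + 1) / 200) := by
      calc (K0 : ℝ) * Z.card ≤ 2 * R * (K0 * (1 + h0) + 2 * (n + 1)) := h4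
        _ = 2 * R * (K0 * (1 + h0)) + 4 * R * (n + 1) := by ring
        _ ≤ _ := by linarith
    have h8 := le_of_mul_le_mul_left h7 hK00
    linarith
  have hDcard : (D.card : ℝ) ≤ c' * n / 100 := by
    have h1 : ((R * D.card : ℕ) : ℝ) ≤ ((2 * Fintype.card W : ℕ) : ℝ) := Nat.cast_le.2 hDc
    push_cast at h1
    have h3 : (Fintype.card W : ℝ) ≤ n + 1 := by exact_mod_cast hW
    have h4 : (R : ℝ) * D.card ≤ R * (c' * (n + 1) / 200) := by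
      calc (R : ℝ) * D.card ≤ 2 * (n + 1) := by linarith
        _ = 400 * ((n + 1) / 200) := by ring
        _ ≤ (c' * R) * ((n + 1) / 200) := by gcongr
        _ = _ := by ring
    have h5 := le_of_mul_le_mul_left h4 hR0
    linarith
  have hcz : 7 * (Z.card : ℝ) ≤ c * n / 2 := by
    have : c' * n ≤ c * n := by gcongr
    linarith
  -- the labels of Z
  obtain ⟨lab₀, e1, e2, e3, e4, e5⟩ := zstage X C (IS := (Iset X C (Z ∪ D) κ₂).filter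
      fun w => X.t.par w ∈ Z ∧ X.t.par w ∉ C.Hub) hc hκ hκ₁ hθ hn2 hW hok Z
    hHub (fun w hw => by
      simp only [Iset, mem_filter, mem_univ, true_and] at hw
      refine ⟨fun h => hw.1.1 ?_, hw.2⟩
      rw [h]
      exact mem_union_left _ hroot) hcz hκ₁16 hθ2
  have hpc' : ∀ v, (univ.filter fun w => X.t.Pc (Z ∪ D) w v).card ≤ K := fun v => by
    convert hpc v
  have hone' : ∀ d ∈ D, ((X.t.ch d).filter fun v => v ∉ D).card ≤ 1 := fun d hd => by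
    convert hone d hd
  -- the pieces
  obtain ⟨cov, lab, f1, f2, f3, f4, f5, f6⟩ := H n hn1 W X C c κ₁ θ h0 hW hθ1 hκ₁.le hκ₁4 hok
    Z D hZD hroot hHub hch hpc' lab₀ e1 e2 e3 e4 (by convert e5)
  have hcolZ : ∀ u, X.EdgeIn Z u → X.col lab u = X.col lab₀ u := fun u hu => by
    unfold KT.col
    rw [f3 u hu.2.1, f3 _ hu.2.2]
  have hbad := bad_card X C (U := Z ∪ D) (mem_union_left _ hroot) hκ₂.le hok.hub_card
  have hm : (D.card + K * ((Iset X C (Z ∪ D) κ₂ \ cov).card +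
      (Bad X C (Z ∪ D) κ₂).card) : ℝ) ≤ c' * n / 50 := by
    have h1 : (K : ℝ) * (Iset X C (Z ∪ D) κ₂ \ cov).card ≤ c' * n / 400 := by
      calc (K : ℝ) * (Iset X C (Z ∪ D) κ₂ \ cov).card ≤ K * (c' / (400 * K) * n) := by gcongr
        _ = _ := by field_simp
    have h2 : (K : ℝ) * (Bad X C (Z ∪ D) κ₂).card ≤ c' * n / 400 := by
      calc (K : ℝ) * (Bad X C (Z ∪ D) κ₂).card ≤ K * (h0 * Fintype.card Kd * (κ₂ * n)) := by gcongr
        _ ≤ K * ((h0 + 1) * (Fintype.card Kd + 1) * (κ₂ * n)) := by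
            gcongr <;> linarith
        _ = _ := by
            rw [hκ₂def]
            field_simp
    linarith
  obtain ⟨lab', Dp, g1, g2, g3, g4, g5, g6, g7, g8⟩ := last_stage2 X C (K := K) hc hn2 hκ₂.le hok hZD
    hroot hHub (fun z hz => le_trans hK02 (hsz z hz)) hch hone' hdm
    (fun v => by
      have := hpc' v
      unfold pcs
      convert this) f1 (fun h hh => by rw [f3 h (hHub hh)]; exact e2 h hh)
    (fun z hz hzh => by rw [f3 z hz]; exact e3 z hz hzh)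
    (fun u hu huh => by rw [hcolZ u hu]; exact e4 u hu huh) f4 f5 f6 hm
    (by
      have : c' * n ≤ c * n := by gcongr
      linarith)
  have hfin : (Z.card : ℝ) + 2 * (c' * n / 50) ≤ ε * n := by
    have : c' * n ≤ ε * n := by gcongr
    linarith
  exact ⟨lab', Dp, g1, le_trans g2 hfin, g3, g4, g5, le_trans g6 hfin, g7, g8⟩

/-- **Theorem P** (near-perfect labelling of a tree with kinds). -/
theorem place (Kd Ψ : Type) [Fintype Kd] [DecidableEq Kd] [Fintype Ψ] [DecidableEq Ψ]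
    (β c ε : ℝ) (hβ : 0 < β) (hc : 0 < c) (hε : 0 < ε) :
    ∃ κ₁ : ℝ, 0 < κ₁ ∧ ∀ h0 : ℕ, ∃ κ₂ : ℝ, 0 < κ₂ ∧ ∃ θ : ℝ, 0 < θ ∧ ∃ n₀ : ℕ,
      ∀ (n : ℕ) [NeZero n], n₀ ≤ n → ∀ (W : Type) [Fintype W] [DecidableEq W] (X : KT W Kd Ψ)
      (C : Cfg n W Kd Ψ), Fintype.card W ≤ n + 1 → n ≤ 2 * Fintype.card W →
      CfgOK C X β c κ₁ κ₂ θ h0 →
      ∃ (lab : W → ZMod n) (D : Finset W), (∀ w ∈ D, X.spl (X.kd w) = true) ∧
        (D.card : ℝ) ≤ ε * n ∧ X.Emb (univ \ D) lab ∧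
        (∀ w ∉ D, (w ∈ C.Hub ∧ lab w = C.lh w) ∨ lab w ∈ C.S (X.kd w) ∨ lab w ∈ C.R (X.kd w) ∨
          (w ≠ X.t.root ∧ X.t.par w ∈ C.Hub ∧ lab w ∈ C.Y (X.t.par w) (X.kd w))) ∧
        (∀ w ∉ D, w ≠ X.t.root → X.col lab w ∈ C.Q (X.cl (X.kd w)) ∨ X.col lab w ∈ C.RC ∨
          (X.t.par w ∈ C.Hub ∧ lab w ∈ C.Y (X.t.par w) (X.kd w)) ∨
          (w ∈ C.Hub ∧ X.t.par w ∈ C.Hub)) ∧
        (((univ \ D).filter fun w => w ≠ X.t.root ∧ X.col lab w ∈ C.RC).card : ℝ) ≤ ε * n ∧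
        ∀ w ∉ D, X.spl (X.kd w) = true → lab w ∈ C.S (X.kd w) ∧
          X.col lab w ∈ C.Q (X.cl (X.kd w)) ∧ (lab (X.t.par w) ∈ C.S (X.kd (X.t.par w)) ∨
            (X.t.par w ≠ X.t.root ∧ X.t.par (X.t.par w) ∈ C.Hub ∧
              lab (X.t.par w) ∈ C.Y (X.t.par (X.t.par w)) (X.kd (X.t.par w)))) := by
  obtain ⟨κ₁, hκ₁, H⟩ := place2 Kd Ψ β c ε hβ hc hε
  refine ⟨κ₁, hκ₁, fun h0 => ?_⟩
  obtain ⟨κ₂, hκ₂, θ, hθ, n₀, H⟩ := H h0
  refine ⟨κ₂, hκ₂, θ, hθ, n₀, ?_⟩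
  intro n _ hn W _ _ X C hW hW2 hok
  obtain ⟨lab, D, g1, g2, g3, g4, g5, g6, g7, _⟩ := H n hn W X C hW hW2 hok
  exact ⟨lab, D, g1, g2, g3, g4, g5, g6, g7⟩

end Pool.Agent.Lib.MP_c5b475_co.KN
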