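import Pool.Agent.Lib.MP_c5b475_co.KN.Defs
import Pool.Agent.Lib.MP_c5b475_co.KN.Tree

set_option autoImplicit false

namespace Pool.Agent.Lib.MP_c5b475_co.KN

open Finset

variable {n : ℕ} {W Kd Ψ : Type} [Fintype W] [DecidableEq W] [Fintype Kd] [DecidableEq Kd]
  [Fintype Ψ] [DecidableEq Ψ]

/-- The requirements on the sets, the kinds and the hubs. -/
structure CfgOK [NeZero n] (C : Cfg n W Kd Ψ) (X : KT W Kd Ψ) (β c κ₁ κ₂ θ : ℝ) (h0 : ℕ) :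
    Prop where
  -- hubs
  hub_card : C.Hub.card ≤ h0
  hub_big : ∀ w, w ∉ C.Hub → ((X.t.ch w).card : ℝ) ≤ κ₁ * n
  hub_nb : ∀ w, w ∉ C.Hub → ((X.t.nb w).filter fun v => v ∈ C.Hub).card ≤ 1
  hub_sz : ∀ h ∈ C.Hub, κ₁ * n ≤ (X.t.sz h : ℝ)
  hub_dom : ∀ w, X.dom (X.kd w) = true → w ∉ C.Hub ∧ ∀ v ∈ X.t.nb w, v ∉ C.Hub
  lh_inj : ∀ h ∈ C.Hub, ∀ h' ∈ C.Hub, X.side (X.kd h) = X.side (X.kd h') → C.lh h = C.lh h' →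
    h = h'
  -- label sets of one side are disjoint
  SS : ∀ k k', X.side k = X.side k' → k ≠ k' → Disjoint (C.S k) (C.S k')
  SR : ∀ k k', X.side k = X.side k' → Disjoint (C.S k) (C.R k')
  SY : ∀ k, ∀ h ∈ C.Hub, ∀ k', X.side k = X.side k' → Disjoint (C.S k) (C.Y h k')
  RY : ∀ k, ∀ h ∈ C.Hub, ∀ k', X.side k = X.side k' → Disjoint (C.R k) (C.Y h k')
  YY : ∀ h ∈ C.Hub, ∀ h' ∈ C.Hub, ∀ k k', X.side k = X.side k' → (h, k) ≠ (h', k') →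
    Disjoint (C.Y h k) (C.Y h' k')
  lh_out : ∀ h ∈ C.Hub, ∀ k, X.side k = X.side (X.kd h) →
    C.lh h ∉ C.S k ∧ C.lh h ∉ C.R k ∧ ∀ h' ∈ C.Hub, C.lh h ∉ C.Y h' k
  dom_out : ∀ k, X.dom k = true → ∀ x, x ∈ C.S k ∨ x ∈ C.R k → ¬ C.Lab X (X.side k) (x + 1)
  -- colour sets
  QQ : ∀ a b, a ≠ b → Disjoint (C.Q a) (C.Q b)
  QRC : ∀ a, Disjoint (C.Q a) C.RC
  YQ : ∀ h ∈ C.Hub, ∀ k, X.side k ≠ X.side (X.kd h) → ∀ y ∈ C.Y h k,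
    C.lh h + y ∉ C.RC ∧ ∀ a, C.lh h + y ∉ C.Q a
  YYc : ∀ h ∈ C.Hub, ∀ h' ∈ C.Hub, ∀ k k', X.side k ≠ X.side (X.kd h) →
    X.side k' ≠ X.side (X.kd h') → ∀ y ∈ C.Y h k, ∀ y' ∈ C.Y h' k', C.lh h + y = C.lh h' + y' →
    h = h' ∧ k = k'
  hh_out : ∀ h ∈ C.Hub, h ≠ X.t.root → X.t.par h ∈ C.Hub → C.lh h + C.lh (X.t.par h) ∉ C.RC ∧
    (∀ a, C.lh h + C.lh (X.t.par h) ∉ C.Q a) ∧ ∀ h' ∈ C.Hub, ∀ k, X.side k ≠ X.side (X.kd h') →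
      ∀ y ∈ C.Y h' k, C.lh h + C.lh (X.t.par h) ≠ C.lh h' + y
  hh_inj : ∀ h ∈ C.Hub, ∀ h' ∈ C.Hub, h ≠ X.t.root → h' ≠ X.t.root → X.t.par h ∈ C.Hub →
    X.t.par h' ∈ C.Hub → C.lh h + C.lh (X.t.par h) = C.lh h' + C.lh (X.t.par h') → h = h'
  -- sizes
  S_big : ∀ k, β * n ≤ ((C.S k).card : ℝ)
  Q_big : ∀ a, β * n ≤ ((C.Q a).card : ℝ)
  Y_big : ∀ h ∈ C.Hub, ∀ k, κ₂ * n ≤ (Cfg.nch X h k : ℝ) → Cfg.nch X h k ≤ (C.Y h k).card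
  sumL : ∑ k, (C.S k).card + ∑ h ∈ C.Hub, ∑ k, (C.Y h k).card ≤ 2 * n
  sumQ : ∑ a, (C.Q a).card ≤ n
  loadS : ∀ k, (univ.filter fun w => w ≠ X.t.root ∧ X.kd w = k ∧ X.t.par w ∉ C.Hub).card ≤
    (C.S k).card
  loadQ : ∀ a, (univ.filter fun w => w ≠ X.t.root ∧ X.cl (X.kd w) = a ∧
    X.t.par w ∉ C.Hub).card ≤ (C.Q a).card
  -- pseudorandomness
  autS : ∀ k, Aut θ (C.S k)
  autQ : ∀ a, Aut θ (C.Q a)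
  autY : ∀ h ∈ C.Hub, ∀ k, κ₂ * n ≤ (Cfg.nch X h k : ℝ) → Aut θ (C.Y h k)
  LBR : ∀ k (r r' : ZMod n), r ≠ r' → c * n ≤
    (((C.R k).filter fun x => x + r ∈ C.RC ∧ x + r' ∈ C.RC).card : ℝ)
  mass : ∀ k k', X.side k ≠ X.side k' → ∀ x ∈ C.R k', ∀ o : ℕ, o ≤ 1 →
    (1 - θ) * ((C.S k).card * (C.Q (X.cl k)).card / n) ≤
      (((C.S k).filter fun y => x + (o : ZMod n) + y ∈ C.Q (X.cl k)).card : ℝ)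

end Pool.Agent.Lib.MP_c5b475_co.KN
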