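import Pool.Agent.Lib.MP_c5b475_co.KN.ZWin

/-!
# KN/PcB: the pieces are small

Let `U = ZZ ∪ DD`, `P = {w : Pc U w c}`. If `c ∈ U` then `P` is empty (the last condition of `Pc`). If
`c` is light then `P` consists of descendants of `c`, `|P| ≤ sz c < K0`. Let `c` be heavy, `c ∉ U`.
For `w ∈ P`, `par^[i] w = c`, the host of `w` lies between `w` and `c` (`host_between`), so `host w ∈ P`
and it is heavy. Let `Hs` be the set of heavy vertices of `P`. `P` is contained in the union of the fibres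
of `host` over `Hs`; for `h ∈ Hs`, `h ∉ U ⊇ Z1` (`z1_sub_zz`), so the fibre has `om h < K0` elements
(`not_z1`). It remains: `|Hs| ≤ 2R`. For `h ∈ Hs`, `par^[i] h = c` with `par^[i'] h ∉ U` for `i' ≤ i`; then
`i < 2R`: otherwise `win` (none of the `par^[i'] h`, `i' < 2R ≤ i`, is the root, because the root is in
`Z1 ⊆ U`) gives `a ≤ 2R ≤ i` with `par^[a] h ∈ D0 ∪ Z1 ⊆ U` (a vertex of `D0` is heavy, it is its own host,
so it is in `DD`). And `i` determines `h`: if `par^[i] h = par^[i] h'` and `h ≠ h'`, take the least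
`i₁ ≥ 1` with `par^[i₁] h = par^[i₁] h' =: p`; `i₁ ≤ i`, so `p ∉ U`, `p` is heavy and not in `Z1`, and
`par^[i₁-1] h ≠ par^[i₁-1] h'` are two heavy children of `p` (they are not the root, because they
are not in `U`), contradicting `|hch p| = 1`. So `h ↦ i` is injective from `Hs` to `range (2R)`.
-/

set_option autoImplicit false

namespace Pool.Agent.Lib.MP_c5b475_co.KN

open Finset

namespace RTr

variable {W : Type} [Fintype W] [DecidableEq W]

variable (t : RTr W) {K0 R j : ℕ} {dm : W → Prop} {Z0 : Finset W}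

private theorem PcB_root (hR : 1 ≤ R) :
    t.root ∈ t.ZZ K0 R dm Z0 j ∪ t.DD K0 R dm Z0 j := by
  refine mem_union_left _ (t.z1_sub_zz hR ?_)
  unfold Z1
  exact mem_union_left _ (mem_union_left _ (mem_union_left _ (mem_singleton_self _)))

private theorem PcB_z1 (hR : 1 ≤ R) {v : W} (hv : v ∉ t.ZZ K0 R dm Z0 j ∪ t.DD K0 R dm Z0 j) :
    v ∉ t.Z1 K0 Z0 := fun h => hv (mem_union_left _ (t.z1_sub_zz hR h))

private theorem PcB_d0 {v : W} (hv : v ∉ t.ZZ K0 R dm Z0 j ∪ t.DD K0 R dm Z0 j) :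
    v ∉ t.D0 K0 R dm Z0 j := by
  classical
  intro h
  apply hv
  refine mem_union_right _ ?_
  have h1 : K0 ≤ t.sz v := by
    unfold D0 at h
    exact (mem_filter.1 h).2.1
  unfold DD
  rw [mem_filter, t.host_of_heavy h1]
  exact ⟨mem_univ _, h⟩

private theorem PcB_heavy_par {v : W} (hv : K0 ≤ t.sz v) : K0 ≤ t.sz (t.par v) :=
  hv.trans (t.sz_mono (t.anc_par v))

/-- the number of steps determines the heavy vertex -/
private theorem PcB_inj (hR : 1 ≤ R) : ∀ i : ℕ, ∀ h h' : W, K0 ≤ t.sz h → K0 ≤ t.sz h' →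
    t.par^[i] h = t.par^[i] h' →
    (∀ a ≤ i, t.par^[a] h ∉ t.ZZ K0 R dm Z0 j ∪ t.DD K0 R dm Z0 j) →
    (∀ a ≤ i, t.par^[a] h' ∉ t.ZZ K0 R dm Z0 j ∪ t.DD K0 R dm Z0 j) → h = h' := by
  intro i
  induction i with
  | zero =>
    intro h h' _ _ he _ _
    exact he
  | succ i ih =>
    intro h h' hh hh' he hU hU'
    rw [Function.iterate_succ_apply, Function.iterate_succ_apply] at he
    have hp : t.par h = t.par h' := by
      refine ih (t.par h) (t.par h') (t.PcB_heavy_par hh) (t.PcB_heavy_par hh') he ?_ ?_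
      · intro a ha
        have := hU (a + 1) (by omega)
        rwa [Function.iterate_succ_apply] at this
      · intro a ha
        have := hU' (a + 1) (by omega)
        rwa [Function.iterate_succ_apply] at this
    have hpU := hU 1 (by omega)
    have hp1 : t.par^[1] h = t.par h := rfl
    rw [hp1] at hpU
    have hcard := (t.not_z1 (t.PcB_heavy_par hh) (t.PcB_z1 hR hpU)).1
    have hroot : ∀ v : W, v ∉ t.ZZ K0 R dm Z0 j ∪ t.DD K0 R dm Z0 j → v ≠ t.root := by
      rintro v hv rfl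
      exact hv (t.PcB_root hR)
    have h0 : h ∈ t.hch K0 (t.par h) := by
      unfold hch
      rw [mem_filter, mem_ch]
      exact ⟨⟨hroot h (hU 0 (by omega)), rfl⟩, hh⟩
    have h1 : h' ∈ t.hch K0 (t.par h) := by
      unfold hch
      rw [mem_filter, mem_ch]
      exact ⟨⟨hroot h' (hU' 0 (by omega)), hp.symm⟩, hh'⟩
    exact card_le_one.1 hcard.le h h0 h' h1

/-- at most `2 R - 1` steps -/
private theorem PcB_lt (hR : 2 ≤ R) (hj : j < R) {i : ℕ} {h : W} (hh : K0 ≤ t.sz h)
    (hU : ∀ a ≤ i, t.par^[a] h ∉ t.ZZ K0 R dm Z0 j ∪ t.DD K0 R dm Z0 j) : i < 2 * R := by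
  by_contra hi
  push Not at hi
  obtain ⟨a, _, ha2, ha⟩ := t.win (dm := dm) (Z0 := Z0) hR hj hh (by
    intro b hb he
    have h1 := hU b (by omega)
    rw [he] at h1
    exact h1 (t.PcB_root (by omega)))
  have h1 := hU a (by omega)
  rcases ha with ha | ha
  · exact t.PcB_d0 h1 ha
  · exact t.PcB_z1 (by omega) h1 ha

open Classical in
theorem pc_bound (hR : 2 ≤ R) (hK0 : 1 ≤ K0) (hj : j < R) (hN : K0 ≤ Fintype.card W)
    (hZ0 : ∀ z ∈ Z0, K0 ≤ t.sz z) (c : W) :
    (univ.filter fun w => t.Pc (t.ZZ K0 R dm Z0 j ∪ t.DD K0 R dm Z0 j) w c).card ≤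
      2 * R * K0 := by
  have _ := hK0
  have _ := hZ0
  by_cases hc : K0 ≤ t.sz c
  · obtain ⟨U, hU⟩ : ∃ U : Finset W, U = t.ZZ K0 R dm Z0 j ∪ t.DD K0 R dm Z0 j := ⟨_, rfl⟩
    rw [← hU]
    obtain ⟨Hs, hHs⟩ : ∃ Hs : Finset W, Hs = univ.filter fun h => t.Pc U h c ∧ K0 ≤ t.sz h := ⟨_, rfl⟩
    have hcover : (univ.filter fun w => t.Pc U w c) ⊆
        Hs.biUnion fun h => univ.filter fun w => t.host K0 w = h := by
      intro w hw
      obtain ⟨i, h1, h2⟩ := (mem_filter.1 hw).2
      rw [mem_biUnion]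
      refine ⟨t.host K0 w, ?_, mem_filter.2 ⟨mem_univ _, rfl⟩⟩
      obtain ⟨i₀, hi₀, he⟩ := t.host_between (K0 := K0) (w := w) (i := i) (by rw [h1]; exact hc)
      rw [hHs, mem_filter]
      refine ⟨mem_univ _, ⟨i - i₀, ?_, fun a ha => ?_⟩, t.host_heavy hN w⟩
      · rw [he, ← Function.iterate_add_apply, Nat.sub_add_cancel hi₀]
        exact h1
      · rw [he, ← Function.iterate_add_apply]
        exact h2 _ (by omega)
    have hfib : ∀ h ∈ Hs, (univ.filter fun w => t.host K0 w = h).card ≤ K0 := by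
      intro h hh
      rw [hHs, mem_filter] at hh
      obtain ⟨_, ⟨i, _, h2⟩, h3⟩ := hh
      have h4 : h ∉ U := h2 0 (Nat.zero_le _)
      rw [hU] at h4
      exact (t.not_z1 h3 (t.PcB_z1 (by omega) h4)).2.1.le
    have hHs2 : Hs.card ≤ 2 * R := by
      have hex : ∀ h ∈ Hs, ∃ i, t.par^[i] h = c ∧ ∀ a ≤ i, t.par^[a] h ∉ U := by
        intro h hh
        rw [hHs, mem_filter] at hh
        exact hh.2.1
      obtain ⟨f, hf⟩ : ∃ f : W → ℕ, ∀ h ∈ Hs, t.par^[f h] h = c ∧ ∀ a ≤ f h, t.par^[a] h ∉ U := by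
        refine ⟨fun h => if hh : h ∈ Hs then (hex h hh).choose else 0, fun h hh => ?_⟩
        have h1 : (if hh : h ∈ Hs then (hex h hh).choose else 0) = (hex h hh).choose := dif_pos hh
        show t.par^[if hh : h ∈ Hs then (hex h hh).choose else 0] h = c ∧
          ∀ a ≤ (if hh : h ∈ Hs then (hex h hh).choose else 0), t.par^[a] h ∉ U
        rw [h1]
        exact (hex h hh).choose_spec
      have hheavy : ∀ h ∈ Hs, K0 ≤ t.sz h := by
        intro h hh
        rw [hHs, mem_filter] at hh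
        exact hh.2.2
      rw [← card_range (2 * R)]
      refine card_le_card_of_injOn f ?_ ?_
      · intro h hh
        rw [mem_coe] at hh
        rw [mem_coe, mem_range]
        refine t.PcB_lt (dm := dm) (Z0 := Z0) hR hj (hheavy h hh) ?_
        rw [← hU]
        exact (hf h hh).2
      · intro h hh h' hh' he
        rw [mem_coe] at hh hh'
        refine t.PcB_inj (R := R) (dm := dm) (Z0 := Z0) (j := j) (by omega) (f h) h h'
          (hheavy h hh) (hheavy h' hh') ?_ ?_ ?_
        · rw [(hf h hh).1, he, (hf h' hh').1]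
        · rw [← hU]
          exact (hf h hh).2
        · rw [← hU, he]
          exact (hf h' hh').2
    calc (univ.filter fun w => t.Pc U w c).card ≤
          (Hs.biUnion fun h => univ.filter fun w => t.host K0 w = h).card := card_le_card hcover
      _ ≤ ∑ h ∈ Hs, (univ.filter fun w => t.host K0 w = h).card := card_biUnion_le
      _ ≤ Hs.card • K0 := sum_le_card_nsmul _ _ _ hfib
      _ = Hs.card * K0 := smul_eq_mul _ _
      _ ≤ 2 * R * K0 := Nat.mul_le_mul_right _ hHs2
  · have h1 : (univ.filter fun w => t.Pc (t.ZZ K0 R dm Z0 j ∪ t.DD K0 R dm Z0 j) w c).card ≤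
        t.sz c := by
      unfold sz
      refine card_le_card fun w hw => ?_
      obtain ⟨i, h1, _⟩ := (mem_filter.1 hw).2
      exact mem_filter.2 ⟨mem_univ _, i, h1⟩
    have h2 : K0 ≤ 2 * R * K0 := Nat.le_mul_of_pos_left _ (by omega)
    omega

end RTr

end Pool.Agent.Lib.MP_c5b475_co.KN
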