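import Pool.Agent.Lib.MP_c5b475_co.KN.CovB

/-!
# KN/PlA: counting the vertices outside `Z ∪ Cov`

`U = Z ∪ D`. `Bad` = roots of pieces below a hub whose pair (hub, kind) is small.
`bad_card`: for fixed `h ∈ Hub` and `k` the bad roots below `h` of kind `k` are children of `h` of kind `k`
(they are not the root of the tree, because the root is in `U`), so at most `nch X h k < κ₂ n` if there is one.
`rest_sub`: let `w ∉ U`, `c = top U w`, `Pc U w c`, `par c ∈ U`, `c ∉ U`. If `spl (kd c)` then `c` has no children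
(`spl_leaf`); if `w ≠ c` then `w` is a proper descendant of `c` and some child of `c` exists (the last
vertex before `c` on the path), contradiction; so `w = c` has `spl`, excluded. Otherwise `c ∈ Iset` or
`c ∈ Bad` (definitions), and `c ∈ cov` would give `w ∈ Cov`.
`B_card`: a vertex outside `Z ∪ Cov` without `spl` is in `D` or in one of the pieces of `rest_sub`, of size
at most `K`. `Dp_card`: a vertex `w` outside `Z ∪ Cov` with `spl`: in `D`, or its `top` is not `spl` (then as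
before: in a piece of `Iset \\ cov` or `Bad`), or `top` is `spl`, then `w = top`, `par w ∈ U`, and every vertex
has at most one `spl` child (`spl_one`): at most `|U| ≤ |Z| + |D|` such `w`.
-/

set_option autoImplicit false

namespace Pool.Agent.Lib.MP_c5b475_co.KN

open Finset

variable {n : ℕ} {W Kd Ψ : Type} [Fintype W] [DecidableEq W] [Fintype Kd] [DecidableEq Kd]
  [Fintype Ψ] [DecidableEq Ψ]

open Classical in
/-- roots of pieces below a small pair (hub, kind) -/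
noncomputable def Bad [NeZero n] (X : KT W Kd Ψ) (C : Cfg n W Kd Ψ) (U : Finset W) (κ₂ : ℝ) :
    Finset W :=
  univ.filter fun c => c ∉ U ∧ X.t.par c ∈ U ∧ X.spl (X.kd c) = false ∧ X.t.par c ∈ C.Hub ∧
    ¬ κ₂ * n ≤ (Cfg.nch X (X.t.par c) (X.kd c) : ℝ)

theorem bad_card [NeZero n] (X : KT W Kd Ψ) (C : Cfg n W Kd Ψ) {U : Finset W} {κ₂ : ℝ}
    (hU : X.t.root ∈ U) (hκ : 0 ≤ κ₂) {h0 : ℕ} (h : C.Hub.card ≤ h0) :
    ((Bad X C U κ₂).card : ℝ) ≤ h0 * Fintype.card Kd * (κ₂ * n) := by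
  classical
  have h1 : (Bad X C U κ₂).card = ∑ q ∈ C.Hub ×ˢ (univ : Finset Kd),
      ((Bad X C U κ₂).filter fun c => (X.t.par c, X.kd c) = q).card := by
    refine card_eq_sum_card_fiberwise fun c hc => ?_
    have hc' := (mem_filter.1 (mem_coe.1 hc)).2
    exact mem_coe.2 (mem_product.2 ⟨hc'.2.2.2.1, mem_univ _⟩)
  have hn : (0 : ℝ) ≤ κ₂ * n := mul_nonneg hκ (Nat.cast_nonneg _)
  have h2 : ∀ q ∈ C.Hub ×ˢ (univ : Finset Kd),
      (((Bad X C U κ₂).filter fun c => (X.t.par c, X.kd c) = q).card : ℝ) ≤ κ₂ * n := by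
    intro q _
    rcases ((Bad X C U κ₂).filter fun c => (X.t.par c, X.kd c) = q).eq_empty_or_nonempty with h3 | h3
    · rw [h3, card_empty, Nat.cast_zero]
      exact hn
    · obtain ⟨c, hc⟩ := h3
      obtain ⟨hcB, hcq⟩ := mem_filter.1 hc
      have hc' := (mem_filter.1 hcB).2
      have h4 : ((Bad X C U κ₂).filter fun c => (X.t.par c, X.kd c) = q) ⊆
          (X.t.ch q.1).filter fun c => X.kd c = q.2 := by
        intro v hv
        obtain ⟨hvB, hvq⟩ := mem_filter.1 hv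
        have hv' := (mem_filter.1 hvB).2
        refine mem_filter.2 ⟨X.t.mem_ch.2 ⟨fun hr => hv'.1 (hr ▸ hU), ?_⟩, ?_⟩
        · rw [← hvq]
        · rw [← hvq]
      have h5 : ((X.t.ch q.1).filter fun c => X.kd c = q.2).card = Cfg.nch X q.1 q.2 := rfl
      have h6 : ¬ κ₂ * n ≤ (Cfg.nch X q.1 q.2 : ℝ) := by
        have h7 := hc'.2.2.2.2
        rw [← hcq]
        exact h7
      have h8 := card_le_card h4
      rw [h5] at h8
      have h9 : (((Bad X C U κ₂).filter fun c => (X.t.par c, X.kd c) = q).card : ℝ) ≤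
          (Cfg.nch X q.1 q.2 : ℝ) := by exact_mod_cast h8
      exact h9.trans (not_le.1 h6).le
  have h10 : ((Bad X C U κ₂).card : ℝ) ≤ ∑ q ∈ C.Hub ×ˢ (univ : Finset Kd), κ₂ * n := by
    rw [h1, Nat.cast_sum]
    exact sum_le_sum h2
  rw [sum_const, card_product, card_univ, nsmul_eq_mul] at h10
  refine h10.trans (mul_le_mul_of_nonneg_right ?_ hn)
  rw [Nat.cast_mul]
  exact mul_le_mul_of_nonneg_right (by exact_mod_cast h) (Nat.cast_nonneg _)

theorem rest_sub [NeZero n] (X : KT W Kd Ψ) (C : Cfg n W Kd Ψ) {U cov : Finset W} {κ₂ : ℝ}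
    (hU : X.t.root ∈ U) {w : W} (hw : w ∉ U) (hc : w ∉ Cov X U cov)
    (hs : X.spl (X.kd (X.t.top U w)) = false) :
    ∃ c ∈ (Iset X C U κ₂ \ cov) ∪ Bad X C U κ₂, w ∈ pcs X U c := by
  classical
  obtain ⟨h1, h2⟩ := X.t.top_spec hU hw
  have h3 := (X.t.pc_not_mem h1).2
  refine ⟨X.t.top U w, ?_, mem_filter.2 ⟨mem_univ _, h1⟩⟩
  by_cases h4 : X.t.par (X.t.top U w) ∈ C.Hub →
      κ₂ * n ≤ (Cfg.nch X (X.t.par (X.t.top U w)) (X.kd (X.t.top U w)) : ℝ)
  · refine mem_union_left _ (mem_sdiff.2 ⟨mem_filter.2 ⟨mem_univ _, h3, h2, hs, h4⟩, fun h5 => hc ?_⟩)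
    exact mem_filter.2 ⟨mem_univ _, X.t.top U w, h5, h1⟩
  · rw [Classical.not_imp] at h4
    exact mem_union_right _ (mem_filter.2 ⟨mem_univ _, h3, h2, hs, h4.1, h4.2⟩)

/-- a piece with a special root consists of its root only -/
theorem top_spl (X : KT W Kd Ψ) {U : Finset W} (hU : X.t.root ∈ U) {w : W} (hw : w ∉ U)
    (hs : X.spl (X.kd (X.t.top U w)) = true) : X.t.top U w = w := by
  obtain ⟨⟨i, hi, h1⟩, h2⟩ := X.t.top_spec hU hw
  have h3 := X.spl_leaf _ hs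
  rcases i with _ | i
  · exact hi.symm
  · exfalso
    rw [Function.iterate_succ_apply'] at hi
    have h4 : X.t.par^[i] w ∈ X.t.ch (X.t.top U w) :=
      X.t.mem_ch.2 ⟨fun h5 => h1 i (Nat.le_succ i) (h5 ▸ hU), hi⟩
    rw [h3] at h4
    exact notMem_empty _ h4

private theorem pla_union (X : KT W Kd Ψ) (U : Finset W) (A B : Finset W) {K : ℕ}
    (hK : ∀ c, (pcs X U c).card ≤ K) :
    ((A ∪ B).biUnion (pcs X U)).card ≤ K * (A.card + B.card) := by
  refine card_biUnion_le.trans ((sum_le_card_nsmul _ _ K fun c _ => hK c).trans ?_)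
  rw [smul_eq_mul, mul_comm]
  exact Nat.mul_le_mul_left _ (card_union_le _ _)

open Classical in
theorem B_card [NeZero n] (X : KT W Kd Ψ) (C : Cfg n W Kd Ψ) {Z D cov : Finset W} {κ₂ : ℝ}
    {K : ℕ} (hroot : X.t.root ∈ Z) (hK : ∀ c, (pcs X (Z ∪ D) c).card ≤ K) :
    (univ.filter fun w => w ∉ Z ∪ Cov X (Z ∪ D) cov ∧ X.spl (X.kd w) = false).card ≤
      D.card + K * ((Iset X C (Z ∪ D) κ₂ \ cov).card + (Bad X C (Z ∪ D) κ₂).card) := by
  have hU : X.t.root ∈ Z ∪ D := mem_union_left _ hroot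
  refine le_trans (card_le_card (t := D ∪ ((Iset X C (Z ∪ D) κ₂ \ cov) ∪
    Bad X C (Z ∪ D) κ₂).biUnion (pcs X (Z ∪ D))) ?_)
    ((card_union_le _ _).trans (Nat.add_le_add_left (pla_union X _ _ _ hK) _))
  intro w hw
  obtain ⟨h1, h2⟩ := (mem_filter.1 hw).2
  rw [mem_union, not_or] at h1
  by_cases h3 : w ∈ D
  · exact mem_union_left _ h3
  · have h4 : w ∉ Z ∪ D := by
      rw [mem_union, not_or]
      exact ⟨h1.1, h3⟩
    have h5 : X.spl (X.kd (X.t.top (Z ∪ D) w)) = false := by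
      rcases hs : X.spl (X.kd (X.t.top (Z ∪ D) w)) with _ | _
      · rfl
      · rw [top_spl X hU h4 hs, h2] at hs
        exact absurd hs (by decide)
    obtain ⟨c, hc, hcw⟩ := rest_sub X C (cov := cov) (κ₂ := κ₂) hU h4 h1.2 h5
    exact mem_union_right _ (mem_biUnion.2 ⟨c, hc, hcw⟩)

open Classical in
theorem Dp_card [NeZero n] (X : KT W Kd Ψ) (C : Cfg n W Kd Ψ) {Z D cov : Finset W} {κ₂ : ℝ}
    {K : ℕ} (hroot : X.t.root ∈ Z) (hK : ∀ c, (pcs X (Z ∪ D) c).card ≤ K) :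
    (univ.filter fun w => w ∉ Z ∪ Cov X (Z ∪ D) cov ∧ X.spl (X.kd w) = true).card ≤
      Z.card + 2 * D.card +
        K * ((Iset X C (Z ∪ D) κ₂ \ cov).card + (Bad X C (Z ∪ D) κ₂).card) := by
  have hU : X.t.root ∈ Z ∪ D := mem_union_left _ hroot
  set L : Finset W := univ.filter fun w => w ∉ Z ∪ D ∧ X.t.par w ∈ Z ∪ D ∧ X.spl (X.kd w) = true
    with hL
  have hLc : L.card ≤ Z.card + D.card := by
    refine le_trans ?_ (card_union_le Z D)
    rw [card_eq_sum_card_fiberwise (s := L) (t := Z ∪ D) (f := X.t.par)]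
    · refine (sum_le_card_nsmul _ _ 1 fun u _ => ?_).trans (by rw [smul_eq_mul, mul_one])
      refine le_trans (card_le_card fun w hw => ?_) (X.spl_one u)
      obtain ⟨h1, h2⟩ := mem_filter.1 hw
      obtain ⟨h3, h4, h5⟩ := (mem_filter.1 h1).2
      exact mem_filter.2 ⟨X.t.mem_ch.2 ⟨fun h6 => h3 (h6 ▸ hU), h2⟩, h5⟩
    · intro w hw
      exact mem_coe.2 (mem_filter.1 (mem_coe.1 hw)).2.2.1
  have h0 : (univ.filter fun w => w ∉ Z ∪ Cov X (Z ∪ D) cov ∧ X.spl (X.kd w) = true) ⊆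
      (D ∪ ((Iset X C (Z ∪ D) κ₂ \ cov) ∪ Bad X C (Z ∪ D) κ₂).biUnion (pcs X (Z ∪ D))) ∪ L := by
    intro w hw
    obtain ⟨h1, h2⟩ := (mem_filter.1 hw).2
    rw [mem_union, not_or] at h1
    by_cases h3 : w ∈ D
    · exact mem_union_left _ (mem_union_left _ h3)
    · have h4 : w ∉ Z ∪ D := by
        rw [mem_union, not_or]
        exact ⟨h1.1, h3⟩
      rcases hs : X.spl (X.kd (X.t.top (Z ∪ D) w)) with _ | _
      · obtain ⟨c, hc, hcw⟩ := rest_sub X C (cov := cov) (κ₂ := κ₂) hU h4 h1.2 hs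
        exact mem_union_left _ (mem_union_right _ (mem_biUnion.2 ⟨c, hc, hcw⟩))
      · have h5 := top_spl X hU h4 hs
        have h6 := (X.t.top_spec hU h4).2
        rw [h5] at h6
        exact mem_union_right _ (mem_filter.2 ⟨mem_univ _, h4, h6, h2⟩)
  have h7 := card_le_card h0
  have h8 := card_union_le
    (D ∪ ((Iset X C (Z ∪ D) κ₂ \ cov) ∪ Bad X C (Z ∪ D) κ₂).biUnion (pcs X (Z ∪ D))) L
  have h9 := card_union_le D
    (((Iset X C (Z ∪ D) κ₂ \ cov) ∪ Bad X C (Z ∪ D) κ₂).biUnion (pcs X (Z ∪ D)))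
  have h10 := pla_union X (Z ∪ D) (Iset X C (Z ∪ D) κ₂ \ cov) (Bad X C (Z ∪ D) κ₂) hK
  omega

end Pool.Agent.Lib.MP_c5b475_co.KN
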