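import Pool.Agent.Lib.MP_c5b475_co.KN.EDef

/-!
# KN/PrF: pairing the single colours with far differences

`S` of size `2k` is sorted by `val`: `s_0 < ... < s_(2k-1)` (`orderEmbOfFin` of the image in `ℕ`); pair
`s_i` with `s_(i+k)`. The difference `d` of the values satisfies `k ≤ d` (strictly increasing naturals)
and `d ≤ n - k` (the other `k - 1` elements are outside `[s_i, s_(i+k)]`, in `[0, n)`). If `d` is even,
`η = d/2` as an element of `ZMod n`; if `d` is odd, `n` is odd and `η = (d + n)/2`. Then `2 η = d`,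
`cyd (2η) = min d (n - d) ≥ k`, `cyd η ≥ k/2`.
-/

set_option autoImplicit false

namespace Pool.Agent.Lib.MP_c5b475_co.KN

open Finset

private theorem prf_far {n : ℕ} [NeZero n] (F m : ℕ) (h1 : F ≤ m) (h2 : m + F ≤ n) :
    F ≤ cyd ((m : ℕ) : ZMod n) := by
  rcases Nat.eq_zero_or_pos F with h0 | h0
  · rw [h0]; exact Nat.zero_le _
  unfold cyd
  have hm : ((m : ℕ) : ZMod n).val = m := ZMod.val_natCast_of_lt (by omega)
  have hne : ((m : ℕ) : ZMod n) ≠ 0 := by
    intro h
    rw [h, ZMod.val_zero] at hm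
    omega
  have hm2 : (-((m : ℕ) : ZMod n)).val = n - m := by
    rw [ZMod.neg_val, if_neg hne, hm]
  rw [hm, hm2]
  exact le_min h1 (by omega)

private theorem prf_mono {m : ℕ} (g : Fin m → ℕ) (hg : StrictMono g) :
    ∀ (d : ℕ) (i j : Fin m), (j : ℕ) = i + d → g i + d ≤ g j := by
  intro d
  induction d with
  | zero =>
    intro i j h
    have : j = i := Fin.ext (by simpa using h)
    rw [this, Nat.add_zero]
  | succ d ih =>
    intro i j h
    have hlt : (i : ℕ) + d < m := by have := j.2; omega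
    have h2 := ih i ⟨i + d, hlt⟩ rfl
    have h3 : g ⟨i + d, hlt⟩ < g j := hg (by
      rw [Fin.lt_def]
      simp only
      omega)
    omega

theorem pair_far {n : ℕ} [NeZero n] (F k : ℕ) (S : Finset (ZMod n)) (hS : S.card = 2 * k)
    (hk : 2 * F ≤ k) (hpar : Odd n ∨ ∀ s ∈ S, ∀ t ∈ S, s.val % 2 = t.val % 2) :
    ∃ s η : Fin k → ZMod n, (∀ i, s i ∈ S ∧ s i + 2 * η i ∈ S) ∧ Function.Injective s ∧
      (∀ i j, s i + 2 * η i = s j + 2 * η j → i = j) ∧ (∀ i j, s i ≠ s j + 2 * η j) ∧
      ∀ i, Far F (η i) := by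
  classical
  have hcard : (S.image ZMod.val).card = 2 * k := by
    rw [card_image_of_injective _ (ZMod.val_injective n), hS]
  let g : Fin (2 * k) ↪o ℕ := (S.image ZMod.val).orderEmbOfFin hcard
  have hgm : ∀ j, g j ∈ S.image ZMod.val := fun j => orderEmbOfFin_mem _ hcard j
  have hgS : ∀ j, ((g j : ℕ) : ZMod n) ∈ S := by
    intro j
    have := hgm j
    rw [mem_image] at this
    obtain ⟨a, ha, hag⟩ := this
    rw [← hag, ZMod.natCast_zmod_val]
    exact ha
  have hgn : ∀ j, g j < n := by
    intro j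
    have := hgm j
    rw [mem_image] at this
    obtain ⟨a, ha, hag⟩ := this
    rw [← hag]
    exact ZMod.val_lt a
  have hval : ∀ j, ((g j : ℕ) : ZMod n).val = g j := fun j => ZMod.val_natCast_of_lt (hgn j)
  have hinj : ∀ i j, ((g i : ℕ) : ZMod n) = ((g j : ℕ) : ZMod n) → i = j := by
    intro i j h
    have h2 := congrArg ZMod.val h
    rw [hval, hval] at h2
    exact g.injective h2
  have hmono := prf_mono g g.strictMono
  -- the two halves
  let lo : Fin k → Fin (2 * k) := fun i => ⟨i, by have := i.2; omega⟩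
  let hi : Fin k → Fin (2 * k) := fun i => ⟨i + k, by have := i.2; omega⟩
  have hd1 : ∀ i, g (lo i) + k ≤ g (hi i) := fun i => hmono k (lo i) (hi i) rfl
  have hd2 : ∀ i, g (hi i) + k ≤ g (lo i) + n := by
    intro i
    have hi2 := i.2
    have h1 := hmono i ⟨0, by omega⟩ (lo i) (by simp [lo])
    have h2 := hmono (k - 1 - i) (hi i) ⟨2 * k - 1, by omega⟩ (by simp only [hi]; omega)
    have h3 := hgn ⟨2 * k - 1, by omega⟩
    omega
  have hex : ∀ i : Fin k, ∃ η : ZMod n, ((g (lo i) : ℕ) : ZMod n) + 2 * η =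
      ((g (hi i) : ℕ) : ZMod n) ∧ Far F η := by
    intro i
    have a1 := hd1 i
    have a2 := hd2 i
    obtain ⟨m, hm⟩ : ∃ m : ℕ, 2 * m + g (lo i) = g (hi i) ∨ 2 * m + g (lo i) = g (hi i) + n := by
      rcases Nat.even_or_odd (g (hi i) - g (lo i)) with he | ho
      · obtain ⟨m, hm⟩ := he
        exact ⟨m, Or.inl (by omega)⟩
      · rcases hpar with hn | hp
        · obtain ⟨a, ha⟩ := ho
          obtain ⟨b, hb⟩ := hn
          exact ⟨a + b + 1, Or.inr (by omega)⟩
        · exfalso
          have h2 := hp _ (hgS (lo i)) _ (hgS (hi i))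
          rw [hval, hval] at h2
          obtain ⟨a, ha⟩ := ho
          omega
    have e1 : ((2 * m + g (lo i) : ℕ) : ZMod n) = ((g (hi i) : ℕ) : ZMod n) := by
      rcases hm with hm | hm
      · rw [hm]
      · rw [hm]
        push_cast
        rw [ZMod.natCast_self, add_zero]
    refine ⟨(m : ZMod n), ?_, ?_, ?_⟩
    · rw [← e1]
      push_cast
      ring
    · apply prf_far F m
      · rcases hm with hm | hm <;> omega
      · rcases hm with hm | hm <;> omega
    · have e2 : (2 : ZMod n) * (m : ZMod n) = ((g (hi i) - g (lo i) : ℕ) : ZMod n) := by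
        rw [Nat.cast_sub (by omega), ← e1]
        push_cast
        ring
      rw [e2]
      apply prf_far
      · omega
      · omega
  choose η h1 h2 using hex
  refine ⟨fun i => ((g (lo i) : ℕ) : ZMod n), η, ?_, ?_, ?_, ?_, h2⟩
  · intro i
    refine ⟨hgS _, ?_⟩
    rw [h1 i]
    exact hgS _
  · intro i j h
    have := hinj _ _ h
    simp only [lo, Fin.mk.injEq] at this
    exact Fin.ext this
  · intro i j h
    rw [h1 i, h1 j] at h
    have := hinj _ _ h
    simp only [hi, Fin.mk.injEq] at this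
    exact Fin.ext (by omega)
  · intro i j h
    rw [h1 j] at h
    have := hinj _ _ h
    simp only [lo, hi, Fin.mk.injEq] at this
    have := i.2
    omega

/-- The same for a set whose parity classes are even and large. -/
theorem pair_all {n : ℕ} [NeZero n] {β : Type} [Fintype β] (F : ℕ) (S : Finset (ZMod n))
    (hS : S.card = 2 * Fintype.card β)
    (hev : Even n → ∀ q < 2, Even (S.filter fun s => s.val % 2 = q).card)
    (hbig : ∀ q < 2, 4 * F ≤ (S.filter fun s => s.val % 2 = q).card) :
    ∃ s η : β → ZMod n, (∀ i, s i ∈ S ∧ s i + 2 * η i ∈ S) ∧ Function.Injective s ∧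
      (∀ i j, s i + 2 * η i = s j + 2 * η j → i = j) ∧ (∀ i j, s i ≠ s j + 2 * η j) ∧
      ∀ i, Far F (η i) := by
  classical
  have hsum : (S.filter fun s => s.val % 2 = 0).card + (S.filter fun s => s.val % 2 = 1).card =
      S.card := by
    have e4 := card_filter_add_card_filter_not (s := S) (fun s => s.val % 2 = 0)
    have e5 : (S.filter fun s => ¬ s.val % 2 = 0) = (S.filter fun s => s.val % 2 = 1) := by
      apply filter_congr
      intro s _
      omega
    rw [e5] at e4
    exact e4
  have b0 := hbig 0 (by norm_num)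
  have b1 := hbig 1 (by norm_num)
  rcases Nat.even_or_odd n with hn | hn
  · obtain ⟨k0, hk0⟩ := hev hn 0 (by norm_num)
    obtain ⟨k1, hk1⟩ := hev hn 1 (by norm_num)
    obtain ⟨s0, t0, a1, a2, a3, a4, a5⟩ := pair_far F k0 (S.filter fun s => s.val % 2 = 0)
      (by omega) (by omega) (Or.inr (by
        intro s hs t ht
        rw [mem_filter] at hs ht
        rw [hs.2, ht.2]))
    obtain ⟨s1, t1, c1, c2, c3, c4, c5⟩ := pair_far F k1 (S.filter fun s => s.val % 2 = 1)
      (by omega) (by omega) (Or.inr (by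
        intro s hs t ht
        rw [mem_filter] at hs ht
        rw [hs.2, ht.2]))
    have hcb : Fintype.card β = Fintype.card (Fin k0 ⊕ Fin k1) := by
      rw [Fintype.card_sum, Fintype.card_fin, Fintype.card_fin]
      omega
    let e : β ≃ Fin k0 ⊕ Fin k1 := Fintype.equivOfCardEq hcb
    have p0 : ∀ i, (s0 i).val % 2 = 0 := fun i => (mem_filter.mp (a1 i).1).2
    have p0' : ∀ i, (s0 i + 2 * t0 i).val % 2 = 0 := fun i => (mem_filter.mp (a1 i).2).2
    have p1 : ∀ i, (s1 i).val % 2 = 1 := fun i => (mem_filter.mp (c1 i).1).2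
    have p1' : ∀ i, (s1 i + 2 * t1 i).val % 2 = 1 := fun i => (mem_filter.mp (c1 i).2).2
    have key : ∀ (x y : ZMod n), x.val % 2 = 0 → y.val % 2 = 1 → x ≠ y := by
      intro x y hx hy h
      rw [h] at hx
      omega
    -- the same on the sum type
    have main : ∃ s η : Fin k0 ⊕ Fin k1 → ZMod n, (∀ i, s i ∈ S ∧ s i + 2 * η i ∈ S) ∧
        Function.Injective s ∧ (∀ i j, s i + 2 * η i = s j + 2 * η j → i = j) ∧
        (∀ i j, s i ≠ s j + 2 * η j) ∧ ∀ i, Far F (η i) := by
      refine ⟨Sum.elim s0 s1, Sum.elim t0 t1, ?_, ?_, ?_, ?_, ?_⟩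
      · rintro (i | i)
        · exact ⟨(mem_filter.mp (a1 i).1).1, (mem_filter.mp (a1 i).2).1⟩
        · exact ⟨(mem_filter.mp (c1 i).1).1, (mem_filter.mp (c1 i).2).1⟩
      · rintro (i | i) (j | j) h
        · rw [a2 h]
        · exact absurd h (key _ _ (p0 i) (p1 j))
        · exact absurd h.symm (key _ _ (p0 j) (p1 i))
        · rw [c2 h]
      · rintro (i | i) (j | j) h
        · rw [a3 i j h]
        · exact absurd h (key _ _ (p0' i) (p1' j))
        · exact absurd h.symm (key _ _ (p0' j) (p1' i))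
        · rw [c3 i j h]
      · rintro (i | i) (j | j)
        · exact a4 i j
        · exact key _ _ (p0 i) (p1' j)
        · exact (key _ _ (p0' j) (p1 i)).symm
        · exact c4 i j
      · rintro (i | i)
        · exact a5 i
        · exact c5 i
    obtain ⟨s, η, d1, d2, d3, d4, d5⟩ := main
    exact ⟨fun b => s (e b), fun b => η (e b), fun b => d1 (e b),
      fun x y h => e.injective (d2 h), fun x y h => e.injective (d3 _ _ h),
      fun x y => d4 _ _, fun b => d5 _⟩
  · obtain ⟨s, η, d1, d2, d3, d4, d5⟩ := pair_far F (Fintype.card β) S hS (by omega) (Or.inl hn)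
    let e : β ≃ Fin (Fintype.card β) := Fintype.equivFin β
    exact ⟨fun b => s (e b), fun b => η (e b), fun b => d1 (e b),
      fun x y h => e.injective (d2 h), fun x y h => e.injective (d3 _ _ h),
      fun x y => d4 _ _, fun b => d5 _⟩

end Pool.Agent.Lib.MP_c5b475_co.KN
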