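import Pool.Agent.Lib.MP_c5b475_co.KN.Swp

/-!
# KN/SwF: the double swap, result

From `swap_exists`: `ci (i p) = c (j p)`, `ci (j p) = d p`, `ci = c` otherwise; `cp p = c (i p)`.
-/

set_option autoImplicit false

namespace Pool.Agent.Lib.MP_c5b475_co.KN

open Finset

theorem swap_final {G ι π : Type} [AddCommGroup G] [DecidableEq G] [Fintype ι] [DecidableEq ι]
    [Fintype π] [DecidableEq π] (x c : ι → G) (hx : Function.Injective x)
    (hc : Function.Injective c) (xp d : π → G) (hd : Function.Injective d)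
    (hcd : ∀ i p, c i ≠ d p) (Y1 Y2 Y3 : Finset G) (h12 : Disjoint Y1 Y2) (h13 : Disjoint Y1 Y3)
    (h23 : Disjoint Y2 Y3) (A B : ℕ)
    (h1 : ∀ p, A ≤ (univ.filter fun i => c i - xp p ∈ Y1).card)
    (h3 : ∀ p, A ≤ (univ.filter fun j => d p - x j ∈ Y3).card)
    (h2 : ∀ X Z : Finset ι, A ≤ 2 * X.card → A ≤ 2 * Z.card →
      B ≤ ((X ×ˢ Z).filter fun q => c q.2 - x q.1 ∈ Y2).card)
    (h4 : 6 * Fintype.card π ≤ A) (h5 : (Fintype.card π + 1) * Fintype.card ι < B) :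
    ∃ (ci : ι → G) (cp : π → G), Function.Injective ci ∧ Function.Injective cp ∧
      (∀ i p, ci i ≠ cp p) ∧ (∀ i, (∃ i', ci i = c i') ∨ ∃ p, ci i = d p) ∧
      (∀ p, ∃ i', cp p = c i') ∧
      (∀ i, ci i = c i ∨ ci i - x i ∈ Y2 ∪ Y3) ∧ (∀ p, cp p - xp p ∈ Y1) ∧
      (∀ i j, ci i ≠ c i → ci j ≠ c j → ci i - x i = ci j - x j → i = j) ∧
      (∀ p q, cp p - xp p = cp q - xp q → p = q) := by
  obtain ⟨i, j, hi, hj, hij, k1, k2, k3, k4, k5, k6⟩ := swap_exists x c hx hc xp d Y1 Y2 Y3 A B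
    h1 h3 h2 h4 h5
  set c' : ι → G := fun a => if h : ∃ p, i p = a then c (j h.choose) else
    if h : ∃ p, j p = a then d h.choose else c a with hc'
  have e1 : ∀ p, c' (i p) = c (j p) := by
    intro p
    have h : ∃ q, i q = i p := ⟨p, rfl⟩
    rw [hc']
    simp only [dif_pos h]
    rw [hi h.choose_spec]
  have e2 : ∀ p, c' (j p) = d p := by
    intro p
    have h' : ¬ ∃ q, i q = j p := by
      rintro ⟨q, hq⟩
      exact hij q p hq
    have h : ∃ q, j q = j p := ⟨p, rfl⟩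
    rw [hc']
    simp only [dif_neg h', dif_pos h]
    rw [hj h.choose_spec]
  have e3 : ∀ a, (∀ p, i p ≠ a) → (∀ p, j p ≠ a) → c' a = c a := by
    intro a ha hb
    rw [hc']
    have h' : ¬ ∃ q, i q = a := by
      rintro ⟨q, hq⟩
      exact ha q hq
    have h : ¬ ∃ q, j q = a := by
      rintro ⟨q, hq⟩
      exact hb q hq
    simp only [dif_neg h', dif_neg h]
  have hcase : ∀ a, (∃ p, i p = a) ∨ (∃ p, j p = a) ∨ ((∀ p, i p ≠ a) ∧ ∀ p, j p ≠ a) := by
    intro a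
    by_cases h : ∃ p, i p = a
    · exact Or.inl h
    · by_cases h' : ∃ p, j p = a
      · exact Or.inr (Or.inl h')
      · push Not at h h'
        exact Or.inr (Or.inr ⟨h, h'⟩)
  refine ⟨c', fun p => c (i p), ?_, fun p q h => hi (hc h), ?_, ?_, fun p => ⟨i p, rfl⟩, ?_, k1,
    ?_, fun p q h => k4 p q h⟩
  · intro a b h
    rcases hcase a with ⟨p, rfl⟩ | ⟨p, rfl⟩ | ⟨ha, ha'⟩
    · rcases hcase b with ⟨q, rfl⟩ | ⟨q, rfl⟩ | ⟨hb, hb'⟩
      · rw [e1, e1] at h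
        rw [hj (hc h)]
      · rw [e1, e2] at h
        exact absurd h (hcd _ _)
      · rw [e1, e3 b hb hb'] at h
        exact absurd (hc h) (hb' p)
    · rcases hcase b with ⟨q, rfl⟩ | ⟨q, rfl⟩ | ⟨hb, hb'⟩
      · rw [e1, e2] at h
        exact absurd h.symm (hcd _ _)
      · rw [e2, e2] at h
        rw [hd h]
      · rw [e2, e3 b hb hb'] at h
        exact absurd h.symm (hcd _ _)
    · rcases hcase b with ⟨q, rfl⟩ | ⟨q, rfl⟩ | ⟨hb, hb'⟩
      · rw [e1, e3 a ha ha'] at h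
        exact absurd (hc h).symm (ha' q)
      · rw [e2, e3 a ha ha'] at h
        exact absurd h (hcd _ _)
      · rw [e3 a ha ha', e3 b hb hb'] at h
        rw [hc h]
  · intro a p h
    rcases hcase a with ⟨q, rfl⟩ | ⟨q, rfl⟩ | ⟨ha, ha'⟩
    · rw [e1] at h
      exact hij p q (hc h).symm
    · rw [e2] at h
      exact hcd _ _ h.symm
    · rw [e3 a ha ha'] at h
      exact ha p (hc h).symm
  · intro a
    rcases hcase a with ⟨q, rfl⟩ | ⟨q, rfl⟩ | ⟨ha, ha'⟩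
    · exact Or.inl ⟨j q, e1 q⟩
    · exact Or.inr ⟨q, e2 q⟩
    · exact Or.inl ⟨a, e3 a ha ha'⟩
  · intro a
    rcases hcase a with ⟨q, rfl⟩ | ⟨q, rfl⟩ | ⟨ha, ha'⟩
    · rw [e1]
      exact Or.inr (Finset.mem_union_left _ (k2 q))
    · rw [e2]
      exact Or.inr (Finset.mem_union_right _ (k3 q))
    · exact Or.inl (e3 a ha ha')
  · intro a b ha hb h
    rcases hcase a with ⟨p, rfl⟩ | ⟨p, rfl⟩ | ⟨ha1, ha2⟩
    · rcases hcase b with ⟨q, rfl⟩ | ⟨q, rfl⟩ | ⟨hb1, hb2⟩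
      · rw [e1, e1] at h
        rw [k5 p q h]
      · rw [e1, e2] at h
        exact absurd (h ▸ k2 p) (fun h6 => Finset.disjoint_left.1 h23 h6 (k3 q))
      · exact absurd (e3 b hb1 hb2) hb
    · rcases hcase b with ⟨q, rfl⟩ | ⟨q, rfl⟩ | ⟨hb1, hb2⟩
      · rw [e1, e2] at h
        exact absurd (h ▸ k3 p) (fun h6 => Finset.disjoint_left.1 h23 (k2 q) h6)
      · rw [e2, e2] at h
        rw [k6 p q h]
      · exact absurd (e3 b hb1 hb2) hb
    · exact absurd (e3 a ha1 ha2) ha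

end Pool.Agent.Lib.MP_c5b475_co.KN
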