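import Pool.Agent.Lib.MP_c5b475_co.KN.EDef
import Pool.Agent.Lib.MP_c5b475_co.KN.Sw

/-!
# KN/SwM: many pairs with difference in a mixing set

`N g = #{i ∈ X : g - x i ∈ Y}`, `D g = N g - |X||Y|/n`. `∑_g D g = 0` is not needed;
`∑_g (D g)^2 = ∑_{i, i' ∈ X} (#{g : g - x i ∈ Y, g - x i' ∈ Y} - |Y|^2/n)`, because
`∑_g #{...} = |Y|` for one condition. The substitution `y = g - x i` shows that the count is
`#{y ∈ Y : y + (x i - x i') ∈ Y}`. For fixed `i` the differences `x i - x i'` are distinct, so the sum is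
at most `|X| θ n^2 ≤ θ n^3`. The number of pairs is `∑_{j ∈ Z} N (c j) = |Z||X||Y|/n + ∑_{j ∈ Z} D (c j)`
and `|∑_{j ∈ Z} D (c j)| ≤ sqrt |Z| * sqrt (∑_g (D g)^2) ≤ sqrt n * sqrt (θ n^3)`.
-/

set_option autoImplicit false

namespace Pool.Agent.Lib.MP_c5b475_co.KN

open Finset

theorem pairs_mix {n : ℕ} [NeZero n] {ι : Type} [Fintype ι] [DecidableEq ι] (θ : ℝ) (hθ : 0 ≤ θ)
    (Y : Finset (ZMod n)) (hY : Aut θ Y) (x c : ι → ZMod n) (hx : Function.Injective x)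
    (hc : Function.Injective c) (X Z : Finset ι) :
    (X.card : ℝ) * Z.card * Y.card / n - Real.sqrt θ * (n : ℝ) ^ 2 ≤
      (((X ×ˢ Z).filter fun q => c q.2 - x q.1 ∈ Y).card : ℝ) :=
  sw_mix hθ hY x c hx hc X Z

end Pool.Agent.Lib.MP_c5b475_co.KN
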