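import Pool.Agent.Lib.MP_c5b475_co.KN.SwF
import Pool.Agent.Lib.MP_c5b475_co.KN.SwM

/-!
# KN/SwS: the swap stage for a labelled tree with kinds

Items: `ι = {w // w ∉ D ∧ spl (kd w)}`, `x = lab (par w)` (injective by `spl_one`, `Emb.inj` and
`side_par`: the parent is on the other side, it is not in `D` because vertices of `D` have no
children), `c = col lab w = lab w + lab (par w)` (injective by `Emb.cin`). Unplaced:
`π' = {w // w ∈ D} ⊕ π` with `xp = lab (par w)` resp. `lab (pp p)`. `|Cs \ c(ι)| = |D| + |π|`, hence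
`d : π' ≃ Cs \ c(ι)`. `swap_final` with `B = ⌈(A/2)^2 r - sqrt θ n^2⌉₊` from `pairs_mix`;
`|ι| ≤ n` because the root is not special. `ci w = ci i` for items, `cp` for `w ∈ D`. Labels:
`ci i = c i` means that the label is `lab w`, which lies outside `Y1 ∪ Y2 ∪ Y3`; labels of the other
kind are in `Y2 ∪ Y3` (items) or `Y1` (unplaced).
-/

set_option autoImplicit false

namespace Pool.Agent.Lib.MP_c5b475_co.KN

open Finset

private lemma SwS_card_sub {W : Type} [Fintype W] (P Q : W → Prop) [DecidablePred P]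
    [DecidablePred Q] [Fintype {w // P w}] :
    (univ.filter fun i : {w // P w} => Q i.1).card = (univ.filter fun w => P w ∧ Q w).card := by
  classical
  refine Finset.card_bij (fun i _ => i.1) ?_ ?_ ?_
  · intro i hi
    exact Finset.mem_filter.2 ⟨Finset.mem_univ _, i.2, (Finset.mem_filter.1 hi).2⟩
  · intro i _ j _ h
    exact Subtype.ext h
  · intro w hw
    obtain ⟨_, h1, h2⟩ := Finset.mem_filter.1 hw
    exact ⟨⟨w, h1⟩, Finset.mem_filter.2 ⟨Finset.mem_univ _, h2⟩, rfl⟩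

private lemma SwS_par_notMem {n : ℕ} [NeZero n] {W Kd Ψ : Type} [Fintype W] [DecidableEq W]
    (X : KT W Kd Ψ) (D : Finset W) (hD : ∀ w ∈ D, X.spl (X.kd w) = true) {w : W}
    (hw : X.spl (X.kd w) = true) : w ≠ X.t.root ∧ X.t.par w ∉ D := by
  have h1 : w ≠ X.t.root := by
    rintro rfl
    rw [X.spl_root] at hw
    exact Bool.false_ne_true hw
  refine ⟨h1, fun h2 => ?_⟩
  have h3 := X.spl_leaf _ (hD _ h2)
  have h4 : w ∈ X.t.ch (X.t.par w) := Finset.mem_filter.2 ⟨Finset.mem_univ _, h1, rfl⟩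
  rw [h3] at h4
  exact absurd h4 (Finset.notMem_empty _)

theorem swap_stage {n : ℕ} [NeZero n] {W Kd Ψ π : Type} [Fintype W] [DecidableEq W] [Fintype π]
    [DecidableEq π] (X : KT W Kd Ψ) (lab : W → ZMod n) (D : Finset W)
    (hD : ∀ w ∈ D, X.spl (X.kd w) = true) (hE : X.Emb (univ \ D) lab)
    (hspl : ∀ k, X.spl k = true → X.side k = false) (hso : ∀ w, X.spl (X.kd w) = true → X.o w = 0)
    (pp : π → W) (hW : Fintype.card W ≤ n + 1)
    (Y1 Y2 Y3 : Finset (ZMod n)) (h12 : Disjoint Y1 Y2) (h13 : Disjoint Y1 Y3)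
    (h23 : Disjoint Y2 Y3)
    (hY : ∀ w, w ∉ D → X.side (X.kd w) = false → lab w ∉ Y1 ∪ Y2 ∪ Y3)
    (Cs : Finset (ZMod n)) (hC : ∀ w, w ∉ D → X.spl (X.kd w) = true → X.col lab w ∈ Cs)
    (hCc : Cs.card = (univ.filter fun w => X.spl (X.kd w) = true).card + Fintype.card π)
    (A : ℕ) (r θ : ℝ) (hr0 : 0 ≤ r) (hθ : 0 ≤ θ)
    (h1 : ∀ x, A ≤ (univ.filter fun w => w ∉ D ∧ X.spl (X.kd w) = true ∧
      X.col lab w - x ∈ Y1).card)
    (h3 : ∀ s, A ≤ (univ.filter fun w => w ∉ D ∧ X.spl (X.kd w) = true ∧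
      s - lab (X.t.par w) ∈ Y3).card)
    (hr : r * n ≤ (Y2.card : ℝ)) (haut : Aut θ Y2)
    (h4 : 6 * (D.card + Fintype.card π) ≤ A)
    (h5 : ((D.card : ℝ) + Fintype.card π + 2) * n < (A / 2 : ℝ) ^ 2 * r - Real.sqrt θ * (n : ℝ) ^ 2) :
    ∃ (ci : W → ZMod n) (cp : π → ZMod n),
      (∀ w, X.spl (X.kd w) = true → ci w ∈ Cs) ∧ (∀ p, cp p ∈ Cs) ∧
      (∀ w w', X.spl (X.kd w) = true → X.spl (X.kd w') = true → ci w = ci w' → w = w') ∧
      Function.Injective cp ∧ (∀ w p, X.spl (X.kd w) = true → ci w ≠ cp p) ∧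
      (∀ w, X.spl (X.kd w) = true → (w ∉ D ∧ ci w = X.col lab w) ∨
        ci w - lab (X.t.par w) ∈ Y1 ∪ Y2 ∪ Y3) ∧
      (∀ p, cp p - lab (pp p) ∈ Y1 ∪ Y2 ∪ Y3) ∧
      (∀ w w', X.spl (X.kd w) = true → X.spl (X.kd w') = true →
        ci w - lab (X.t.par w) = ci w' - lab (X.t.par w') → w = w') ∧
      (∀ p q, cp p - lab (pp p) = cp q - lab (pp q) → p = q) ∧
      (∀ w p, X.spl (X.kd w) = true → ci w - lab (X.t.par w) ≠ cp p - lab (pp p)) := by
  classical
  have hnpos : (0 : ℝ) < n := nR_pos (n := n)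
  -- the items
  let ι : Type := {w : W // w ∉ D ∧ X.spl (X.kd w) = true}
  let x : ι → ZMod n := fun i => lab (X.t.par i.1)
  let c : ι → ZMod n := fun i => X.col lab i.1
  have hedge : ∀ i : ι, X.EdgeIn (univ \ D) i.1 := by
    intro i
    obtain ⟨e1, e2⟩ := SwS_par_notMem (n := n) X D hD i.2.2
    exact ⟨e1, Finset.mem_sdiff.2 ⟨Finset.mem_univ _, i.2.1⟩,
      Finset.mem_sdiff.2 ⟨Finset.mem_univ _, e2⟩⟩
  have hside : ∀ w, X.spl (X.kd w) = true → X.side (X.kd w) = false := fun w hw => hspl _ hw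
  have hsidep : ∀ i : ι, X.side (X.kd (X.t.par i.1)) = true := by
    intro i
    have e1 := X.side_par i.1 (hedge i).1
    rw [hside _ i.2.2] at e1
    cases h : X.side (X.kd (X.t.par i.1)) with
    | false => exact absurd h.symm e1
    | true => rfl
  have hx : Function.Injective x := by
    intro i j h
    have e1 : X.t.par i.1 = X.t.par j.1 :=
      hE.inj _ (hedge i).2.2 _ (hedge j).2.2 (by rw [hsidep i, hsidep j]) h
    have e2 := Finset.card_le_one.1 (X.spl_one (X.t.par i.1)) i.1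
      (Finset.mem_filter.2 ⟨Finset.mem_filter.2 ⟨Finset.mem_univ _, (hedge i).1, rfl⟩, i.2.2⟩) j.1
      (Finset.mem_filter.2 ⟨Finset.mem_filter.2 ⟨Finset.mem_univ _, (hedge j).1, e1.symm⟩, j.2.2⟩)
    exact Subtype.ext e2
  have hc : Function.Injective c := by
    intro i j h
    exact Subtype.ext (hE.cin _ _ (hedge i) (hedge j) h)
  have hcol : ∀ i : ι, c i - x i = lab i.1 := by
    intro i
    have e1 : X.o i.1 = 0 := hso _ i.2.2
    change lab i.1 + lab (X.t.par i.1) + (X.o i.1 : ZMod n) - lab (X.t.par i.1) = lab i.1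
    rw [e1, Nat.cast_zero]
    abel
  have hnotY : ∀ i : ι, lab i.1 ∉ Y1 ∪ Y2 ∪ Y3 := fun i => hY _ i.2.1 (hside _ i.2.2)
  -- the unplaced ones
  let π' : Type := {w : W // w ∈ D} ⊕ π
  let xp : π' → ZMod n := Sum.elim (fun w => lab (X.t.par w.1)) (fun p => lab (pp p))
  have hπ' : Fintype.card π' = D.card + Fintype.card π := by
    rw [Fintype.card_sum, Fintype.card_coe]
  have hιcard : Fintype.card ι = (univ.filter fun w => w ∉ D ∧ X.spl (X.kd w) = true).card :=
    Fintype.card_subtype _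
  have hιD : Fintype.card ι + D.card = (univ.filter fun w => X.spl (X.kd w) = true).card := by
    rw [hιcard, ← Finset.card_union_of_disjoint]
    · congr 1
      ext w
      simp only [Finset.mem_union, Finset.mem_filter, Finset.mem_univ, true_and]
      constructor
      · rintro (h | h)
        · exact h.2
        · exact hD w h
      · intro h
        by_cases hw : w ∈ D
        · exact Or.inr hw
        · exact Or.inl ⟨hw, h⟩
    · rw [Finset.disjoint_left]
      intro w hw hw'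
      exact (Finset.mem_filter.1 hw).2.1 hw'
  have himg : (univ.image c) ⊆ Cs := by
    intro g hg
    obtain ⟨i, _, rfl⟩ := Finset.mem_image.1 hg
    exact hC _ i.2.1 i.2.2
  have hcardd : (Cs \ univ.image c).card = Fintype.card π' := by
    rw [Finset.card_sdiff_of_subset himg, Finset.card_image_of_injective _ hc,
      Finset.card_univ, hπ', hCc, ← hιD]
    omega
  let e : π' ≃ (Cs \ univ.image c : Finset (ZMod n)) :=
    Fintype.equivOfCardEq (hcardd.symm.trans (Fintype.card_coe _).symm)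
  let d : π' → ZMod n := fun p => (e p).1
  have hd : Function.Injective d := fun p q h => e.injective (Subtype.ext h)
  have hdCs : ∀ p, d p ∈ Cs := fun p => (Finset.mem_sdiff.1 (e p).2).1
  have hcd : ∀ i p, c i ≠ d p := by
    intro i p h
    exact (Finset.mem_sdiff.1 (e p).2).2 (Finset.mem_image.2 ⟨i, Finset.mem_univ _, h⟩)
  have hn' : Fintype.card ι ≤ n := by
    have e1 : Fintype.card ι ≤ (univ.erase X.t.root).card := by
      rw [hιcard]
      refine Finset.card_le_card fun w hw => ?_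
      exact Finset.mem_erase.2
        ⟨(SwS_par_notMem (n := n) X D hD (Finset.mem_filter.1 hw).2.2).1, Finset.mem_univ _⟩
    rw [Finset.card_erase_of_mem (Finset.mem_univ _), Finset.card_univ] at e1
    omega
  -- the number of pairs
  set Bv : ℝ := (A / 2 : ℝ) ^ 2 * r - Real.sqrt θ * (n : ℝ) ^ 2 with hBv
  have h2 : ∀ P Z : Finset ι, A ≤ 2 * P.card → A ≤ 2 * Z.card →
      ⌈Bv⌉₊ ≤ ((P ×ˢ Z).filter fun q => c q.2 - x q.1 ∈ Y2).card := by
    intro P Z hP hZ
    refine Nat.ceil_le.2 (le_trans ?_ (pairs_mix θ hθ Y2 haut x c hx hc P Z))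
    have e1 : (A / 2 : ℝ) ≤ P.card := by
      have : (A : ℝ) ≤ 2 * P.card := by exact_mod_cast hP
      linarith
    have e2 : (A / 2 : ℝ) ≤ Z.card := by
      have : (A : ℝ) ≤ 2 * Z.card := by exact_mod_cast hZ
      linarith
    have e0 : (0 : ℝ) ≤ A / 2 := by positivity
    have e3 : (A / 2 : ℝ) ^ 2 ≤ (P.card : ℝ) * Z.card := by
      rw [sq]
      exact mul_le_mul e1 e2 e0 (le_trans e0 e1)
    have e4 : (A / 2 : ℝ) ^ 2 * (r * n) ≤ (P.card : ℝ) * Z.card * Y2.card :=
      mul_le_mul e3 hr (by positivity) (by positivity)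
    have e5 : (A / 2 : ℝ) ^ 2 * r ≤ (P.card : ℝ) * Z.card * Y2.card / n := by
      rw [le_div_iff₀ hnpos]
      calc (A / 2 : ℝ) ^ 2 * r * n = (A / 2 : ℝ) ^ 2 * (r * n) := by ring
        _ ≤ _ := e4
    rw [hBv]
    linarith
  have h5' : (Fintype.card π' + 1) * Fintype.card ι < ⌈Bv⌉₊ := by
    rw [Nat.lt_ceil, hπ']
    refine lt_of_le_of_lt ?_ h5
    push_cast
    have e1 : (Fintype.card ι : ℝ) ≤ n := by exact_mod_cast hn'
    have e2 : (0 : ℝ) ≤ (D.card : ℝ) + Fintype.card π + 1 := by positivity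
    calc ((D.card : ℝ) + Fintype.card π + 1) * Fintype.card ι
        ≤ ((D.card : ℝ) + Fintype.card π + 1) * n := mul_le_mul_of_nonneg_left e1 e2
      _ ≤ ((D.card : ℝ) + Fintype.card π + 2) * n := by nlinarith
  obtain ⟨ci, cp, k1, k2, k3, k4, k5, k6, k7, k8, k9⟩ := swap_final (G := ZMod n) (ι := ι)
    (π := π') x c hx hc xp d hd hcd Y1 Y2 Y3 h12 h13 h23 A ⌈Bv⌉₊
    (fun p => by
      refine le_trans (h1 (xp p)) (le_of_eq ?_)
      rw [SwS_card_sub (fun w => w ∉ D ∧ X.spl (X.kd w) = true)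
        (fun w => X.col lab w - xp p ∈ Y1)]
      congr 1
      ext w
      simp only [Finset.mem_filter, and_assoc])
    (fun p => by
      refine le_trans (h3 (d p)) (le_of_eq ?_)
      rw [SwS_card_sub (fun w => w ∉ D ∧ X.spl (X.kd w) = true)
        (fun w => d p - lab (X.t.par w) ∈ Y3)]
      congr 1
      ext w
      simp only [Finset.mem_filter, and_assoc])
    h2 (by rw [hπ']; exact h4) h5'
  -- the values
  let ci' : W → ZMod n := fun w => if h : w ∈ D then cp (Sum.inl ⟨w, h⟩) else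
    if h' : X.spl (X.kd w) = true then ci ⟨w, h, h'⟩ else 0
  have v1 : ∀ (w : W) (h : w ∈ D), ci' w = cp (Sum.inl ⟨w, h⟩) := fun w h => dif_pos h
  have v2 : ∀ (w : W) (h : w ∉ D) (h' : X.spl (X.kd w) = true), ci' w = ci ⟨w, h, h'⟩ := by
    intro w h h'
    change (if h : w ∈ D then cp (Sum.inl ⟨w, h⟩) else
      if h' : X.spl (X.kd w) = true then ci ⟨w, h, h'⟩ else 0) = _
    rw [dif_neg h, dif_pos h']
  have hY1 : ∀ p, cp p - xp p ∈ Y1 ∪ Y2 ∪ Y3 := fun p =>
    Finset.mem_union_left _ (Finset.mem_union_left _ (k7 p))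
  have hcp : ∀ p, cp p ∈ Cs := by
    intro p
    obtain ⟨i', hi'⟩ := k5 p
    rw [hi']
    exact himg (Finset.mem_image.2 ⟨i', Finset.mem_univ _, rfl⟩)
  have hci : ∀ i, ci i ∈ Cs := by
    intro i
    rcases k4 i with ⟨i', hi'⟩ | ⟨p, hp⟩
    · rw [hi']
      exact himg (Finset.mem_image.2 ⟨i', Finset.mem_univ _, rfl⟩)
    · rw [hp]
      exact hdCs p
  -- items and unplaced ones have different labels
  have hmix : ∀ (i : ι) (p : π'), ci i - x i ≠ cp p - xp p := by
    intro i p h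
    rcases k6 i with h6 | h6
    · rw [h6, hcol] at h
      exact hnotY i (h ▸ hY1 p)
    · rw [h] at h6
      rcases Finset.mem_union.1 h6 with h7 | h7
      · exact Finset.disjoint_left.1 h12 (k7 p) h7
      · exact Finset.disjoint_left.1 h13 (k7 p) h7
  have hlab : ∀ i j : ι, ci i - x i = ci j - x j → i = j := by
    intro i j h
    have hsub : Y2 ∪ Y3 ⊆ Y1 ∪ Y2 ∪ Y3 := by
      intro g hg
      rcases Finset.mem_union.1 hg with h7 | h7
      · exact Finset.mem_union_left _ (Finset.mem_union_right _ h7)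
      · exact Finset.mem_union_right _ h7
    by_cases hi : ci i = c i
    · by_cases hj : ci j = c j
      · rw [hi, hj, hcol, hcol] at h
        exact Subtype.ext (hE.inj _ (hedge i).2.1 _ (hedge j).2.1
          (by rw [hside _ i.2.2, hside _ j.2.2]) h)
      · exfalso
        have h6 := (k6 j).resolve_left hj
        rw [hi, hcol] at h
        exact hnotY i (hsub (h ▸ h6))
    · by_cases hj : ci j = c j
      · exfalso
        have h6 := (k6 i).resolve_left hi
        rw [hj, hcol] at h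
        exact hnotY j (hsub (h ▸ h6))
      · exact k8 i j hi hj h
  refine ⟨ci', fun p => cp (Sum.inr p), ?_, fun p => hcp _, ?_,
    fun p q h => Sum.inr.inj (k2 h), ?_, ?_, fun p => hY1 (Sum.inr p), ?_,
    fun p q h => Sum.inr.inj (k9 (Sum.inr p) (Sum.inr q) h), ?_⟩
  · intro w hw
    by_cases h : w ∈ D
    · rw [v1 w h]
      exact hcp _
    · rw [v2 w h hw]
      exact hci _
  · intro w w' hw hw' h
    by_cases hd1 : w ∈ D
    · by_cases hd2 : w' ∈ D
      · rw [v1 w hd1, v1 w' hd2] at h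
        exact congrArg Subtype.val (Sum.inl.inj (k2 h))
      · rw [v1 w hd1, v2 w' hd2 hw'] at h
        exact absurd h.symm (k3 _ _)
    · by_cases hd2 : w' ∈ D
      · rw [v2 w hd1 hw, v1 w' hd2] at h
        exact absurd h (k3 _ _)
      · rw [v2 w hd1 hw, v2 w' hd2 hw'] at h
        exact congrArg Subtype.val (k1 h)
  · intro w p hw h
    by_cases hd1 : w ∈ D
    · rw [v1 w hd1] at h
      exact absurd (k2 h) Sum.inl_ne_inr
    · rw [v2 w hd1 hw] at h
      exact k3 _ _ h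
  · intro w hw
    by_cases hd1 : w ∈ D
    · right
      rw [v1 w hd1]
      exact hY1 (Sum.inl ⟨w, hd1⟩)
    · rw [v2 w hd1 hw]
      rcases k6 ⟨w, hd1, hw⟩ with h6 | h6
      · exact Or.inl ⟨hd1, h6⟩
      · right
        rcases Finset.mem_union.1 h6 with h7 | h7
        · exact Finset.mem_union_left _ (Finset.mem_union_right _ h7)
        · exact Finset.mem_union_right _ h7
  · intro w w' hw hw' h
    by_cases hd1 : w ∈ D
    · by_cases hd2 : w' ∈ D
      · rw [v1 w hd1, v1 w' hd2] at h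
        exact congrArg Subtype.val (Sum.inl.inj (k9 (Sum.inl ⟨w, hd1⟩) (Sum.inl ⟨w', hd2⟩) h))
      · rw [v1 w hd1, v2 w' hd2 hw'] at h
        exact absurd h.symm (hmix ⟨w', hd2, hw'⟩ (Sum.inl ⟨w, hd1⟩))
    · by_cases hd2 : w' ∈ D
      · rw [v2 w hd1 hw, v1 w' hd2] at h
        exact absurd h (hmix ⟨w, hd1, hw⟩ (Sum.inl ⟨w', hd2⟩))
      · rw [v2 w hd1 hw, v2 w' hd2 hw'] at h
        exact congrArg Subtype.val (hlab ⟨w, hd1, hw⟩ ⟨w', hd2, hw'⟩ h)
  · intro w p hw h
    by_cases hd1 : w ∈ D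
    · rw [v1 w hd1] at h
      exact absurd (k9 (Sum.inl ⟨w, hd1⟩) (Sum.inr p) h) Sum.inl_ne_inr
    · rw [v2 w hd1 hw] at h
      exact hmix ⟨w, hd1, hw⟩ (Sum.inr p) h

end Pool.Agent.Lib.MP_c5b475_co.KN
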