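import Pool.Agent.Lib.MP_c5b475_co.KN.EDef

/-!
# KN/Swp: the double swap, greedy part

Greedy over `p` (induction over a finset of `π`). `k` done, `k < |π|`. `X` = items with
`c i - xp p ∈ Y1`, not among the `2k` used ones and with a label different from the `k` old labels
(`c` injective: at most `k` more items excluded): `|X| ≥ A - 3k`, so `A ≤ 2 |X|`. `Z` = items with
`d p - x j ∈ Y3`, in the same way (`x` injective). Among the `≥ B` pairs of `h2` at most `|ι|` have
`i = j` and at most `k |ι|` have an old label `c j - x i` (for given `i` and given value at most one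
`j`).
-/

set_option autoImplicit false

namespace Pool.Agent.Lib.MP_c5b475_co.KN

open Finset

/-- few elements are lost by forbidding used elements and old values -/
private theorem swp_card {G ι : Type} [DecidableEq G] [Fintype ι] [DecidableEq ι]
    (f : ι → G) (hf : Function.Injective f) (Y O : Finset G) (U : Finset ι) {A k : ℕ}
    (h : A ≤ (univ.filter fun i => f i ∈ Y).card) (hU : U.card ≤ 2 * k) (hO : O.card ≤ k)
    (hk : 6 * k ≤ A) :
    A ≤ 2 * (univ.filter fun i => f i ∈ Y ∧ i ∉ U ∧ f i ∉ O).card := by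
  have h1 : (univ.filter fun i => f i ∈ O).card ≤ O.card :=
    card_le_card_of_injOn f (fun i hi => (mem_filter.1 hi).2) (fun a _ b _ hab => hf hab)
  have h2 : (univ.filter fun i => f i ∈ Y) ⊆
      ((univ.filter fun i => f i ∈ Y ∧ i ∉ U ∧ f i ∉ O) ∪ U) ∪
        (univ.filter fun i => f i ∈ O) := by
    intro i hi
    have hY := (mem_filter.1 hi).2
    by_cases hi1 : i ∈ U
    · exact mem_union_left _ (mem_union_right _ hi1)
    · by_cases hi2 : f i ∈ O
      · exact mem_union_right _ (mem_filter.2 ⟨mem_univ _, hi2⟩)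
      · exact mem_union_left _ (mem_union_left _ (mem_filter.2 ⟨mem_univ _, hY, hi1, hi2⟩))
  have h3 := card_le_card h2
  have h4 := card_union_le ((univ.filter fun i => f i ∈ Y ∧ i ∉ U ∧ f i ∉ O) ∪ U)
    (univ.filter fun i => f i ∈ O)
  have h5 := card_union_le (univ.filter fun i => f i ∈ Y ∧ i ∉ U ∧ f i ∉ O) U
  omega

/-- one more unplaced element -/
private theorem swp_step {G ι π : Type} [AddCommGroup G] [DecidableEq G] [Fintype ι]
    [DecidableEq ι] [Fintype π] [DecidableEq π] (x c : ι → G) (hx : Function.Injective x)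
    (hc : Function.Injective c) (xp d : π → G) (Y1 Y2 Y3 : Finset G) (A B : ℕ)
    (h1 : ∀ p, A ≤ (univ.filter fun i => c i - xp p ∈ Y1).card)
    (h3 : ∀ p, A ≤ (univ.filter fun j => d p - x j ∈ Y3).card)
    (h2 : ∀ X Z : Finset ι, A ≤ 2 * X.card → A ≤ 2 * Z.card →
      B ≤ ((X ×ˢ Z).filter fun q => c q.2 - x q.1 ∈ Y2).card)
    (s : Finset π) (p0 : π) (i j : π → ι)
    (h4 : 6 * s.card ≤ A) (h5 : (s.card + 1) * Fintype.card ι < B) :
    ∃ a b : ι, a ≠ b ∧ (∀ p ∈ s, a ≠ i p ∧ a ≠ j p ∧ b ≠ i p ∧ b ≠ j p) ∧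
      c a - xp p0 ∈ Y1 ∧ c b - x a ∈ Y2 ∧ d p0 - x b ∈ Y3 ∧
      (∀ p ∈ s, c a - xp p0 ≠ c (i p) - xp p) ∧ (∀ p ∈ s, c b - x a ≠ c (j p) - x (i p)) ∧
      (∀ p ∈ s, d p0 - x b ≠ d p - x (j p)) := by
  classical
  set U : Finset ι := s.image i ∪ s.image j with hU
  set O1 : Finset G := s.image fun p => c (i p) - xp p with hO1
  set O2 : Finset G := s.image fun p => c (j p) - x (i p) with hO2
  set O3 : Finset G := s.image fun p => d p - x (j p) with hO3
  have cU : U.card ≤ 2 * s.card := by
    have e1 := card_union_le (s.image i) (s.image j)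
    have e2 : (s.image i).card ≤ s.card := card_image_le
    have e3 : (s.image j).card ≤ s.card := card_image_le
    rw [← hU] at e1
    omega
  have cO1 : O1.card ≤ s.card := card_image_le
  have cO2 : O2.card ≤ s.card := card_image_le
  have cO3 : O3.card ≤ s.card := card_image_le
  have hX := swp_card (fun a => c a - xp p0) (fun a b hab => hc (sub_left_injective hab)) Y1 O1 U
    (h1 p0) cU cO1 h4
  have hZ := swp_card (fun b => d p0 - x b) (fun a b hab => hx (sub_right_injective hab)) Y3 O3 U
    (h3 p0) cU cO3 h4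
  set X : Finset ι := univ.filter fun a => c a - xp p0 ∈ Y1 ∧ a ∉ U ∧ c a - xp p0 ∉ O1 with hXd
  set Z : Finset ι := univ.filter fun b => d p0 - x b ∈ Y3 ∧ b ∉ U ∧ d p0 - x b ∉ O3 with hZd
  have hB := h2 X Z hX hZ
  set W : Finset (ι × ι) := (X ×ˢ Z).filter fun q => c q.2 - x q.1 ∈ Y2 with hWd
  have key : ∃ q ∈ W, q.1 ≠ q.2 ∧ c q.2 - x q.1 ∉ O2 := by
    by_contra hcon
    push Not at hcon
    have hsub : W ⊆ (univ.image fun a : ι => (a, a)) ∪
        (univ.filter fun q : ι × ι => c q.2 - x q.1 ∈ O2) := by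
      intro q hq
      by_cases hqq : q.1 = q.2
      · refine mem_union_left _ (mem_image.2 ⟨q.1, mem_univ _, ?_⟩)
        exact Prod.ext rfl hqq
      · exact mem_union_right _ (mem_filter.2 ⟨mem_univ _, hcon q hq hqq⟩)
    have e1 : (univ.image fun a : ι => (a, a)).card ≤ Fintype.card ι := card_image_le
    have e2 : (univ.filter fun q : ι × ι => c q.2 - x q.1 ∈ O2).card ≤
        ((univ : Finset ι) ×ˢ O2).card := by
      refine card_le_card_of_injOn (fun q => (q.1, c q.2 - x q.1)) ?_ ?_
      · intro q hq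
        exact mem_product.2 ⟨mem_univ _, (mem_filter.1 hq).2⟩
      · rintro ⟨q1, q2⟩ _ ⟨r1, r2⟩ _ hqr
        simp only [Prod.mk.injEq] at hqr
        obtain ⟨e, e'⟩ := hqr
        subst e
        have e'' : q2 = r2 := hc (sub_left_injective e')
        rw [e'']
    rw [card_product, card_univ] at e2
    have e3 := card_le_card hsub
    have e4 := card_union_le (univ.image fun a : ι => (a, a))
      (univ.filter fun q : ι × ι => c q.2 - x q.1 ∈ O2)
    have e5 : Fintype.card ι * O2.card ≤ s.card * Fintype.card ι := by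
      rw [Nat.mul_comm]
      exact Nat.mul_le_mul_right _ cO2
    have e6 : (s.card + 1) * Fintype.card ι = s.card * Fintype.card ι + Fintype.card ι := by
      ring
    omega
  obtain ⟨⟨a, b⟩, hq, hab, hq2⟩ := key
  rw [hWd, mem_filter, mem_product] at hq
  obtain ⟨⟨haX, hbZ⟩, hY2⟩ := hq
  rw [hXd, mem_filter] at haX
  rw [hZd, mem_filter] at hbZ
  obtain ⟨-, ha1, haU, ha2⟩ := haX
  obtain ⟨-, hb1, hbU, hb2⟩ := hbZ
  refine ⟨a, b, hab, ?_, ha1, hY2, hb1, ?_, ?_, ?_⟩
  · intro p hp
    refine ⟨?_, ?_, ?_, ?_⟩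
    · rintro rfl
      exact haU (mem_union_left _ (mem_image_of_mem i hp))
    · rintro rfl
      exact haU (mem_union_right _ (mem_image_of_mem j hp))
    · rintro rfl
      exact hbU (mem_union_left _ (mem_image_of_mem i hp))
    · rintro rfl
      exact hbU (mem_union_right _ (mem_image_of_mem j hp))
  · intro p hp h
    exact ha2 (mem_image.2 ⟨p, hp, h.symm⟩)
  · intro p hp h
    exact hq2 (mem_image.2 ⟨p, hp, h.symm⟩)
  · intro p hp h
    exact hb2 (mem_image.2 ⟨p, hp, h.symm⟩)

theorem swap_exists {G ι π : Type} [AddCommGroup G] [DecidableEq G] [Fintype ι] [DecidableEq ι]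
    [Fintype π] [DecidableEq π] (x c : ι → G) (hx : Function.Injective x)
    (hc : Function.Injective c) (xp d : π → G) (Y1 Y2 Y3 : Finset G) (A B : ℕ)
    (h1 : ∀ p, A ≤ (univ.filter fun i => c i - xp p ∈ Y1).card)
    (h3 : ∀ p, A ≤ (univ.filter fun j => d p - x j ∈ Y3).card)
    (h2 : ∀ X Z : Finset ι, A ≤ 2 * X.card → A ≤ 2 * Z.card →
      B ≤ ((X ×ˢ Z).filter fun q => c q.2 - x q.1 ∈ Y2).card)
    (h4 : 6 * Fintype.card π ≤ A) (h5 : (Fintype.card π + 1) * Fintype.card ι < B) :
    ∃ i j : π → ι, Function.Injective i ∧ Function.Injective j ∧ (∀ p q, i p ≠ j q) ∧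
      (∀ p, c (i p) - xp p ∈ Y1) ∧ (∀ p, c (j p) - x (i p) ∈ Y2) ∧
      (∀ p, d p - x (j p) ∈ Y3) ∧
      (∀ p q, c (i p) - xp p = c (i q) - xp q → p = q) ∧
      (∀ p q, c (j p) - x (i p) = c (j q) - x (i q) → p = q) ∧
      (∀ p q, d p - x (j p) = d q - x (j q) → p = q) := by
  have main : ∀ s : Finset π, ∃ i j : π → ι,
      (∀ p ∈ s, ∀ q ∈ s, i p = i q → p = q) ∧ (∀ p ∈ s, ∀ q ∈ s, j p = j q → p = q) ∧
      (∀ p ∈ s, ∀ q ∈ s, i p ≠ j q) ∧
      (∀ p ∈ s, c (i p) - xp p ∈ Y1) ∧ (∀ p ∈ s, c (j p) - x (i p) ∈ Y2) ∧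
      (∀ p ∈ s, d p - x (j p) ∈ Y3) ∧
      (∀ p ∈ s, ∀ q ∈ s, c (i p) - xp p = c (i q) - xp q → p = q) ∧
      (∀ p ∈ s, ∀ q ∈ s, c (j p) - x (i p) = c (j q) - x (i q) → p = q) ∧
      (∀ p ∈ s, ∀ q ∈ s, d p - x (j p) = d q - x (j q) → p = q) := by
    intro s
    induction s using Finset.induction_on with
    | empty =>
      have hne : ∀ _ : π, Nonempty ι := by
        intro p
        have e1 : 0 < Fintype.card π := Fintype.card_pos_iff.2 ⟨p⟩
        have e2 := h1 p
        have e3 : 0 < (univ.filter fun i => c i - xp p ∈ Y1).card := by omega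
        obtain ⟨a, -⟩ := card_pos.1 e3
        exact ⟨a⟩
      refine ⟨fun p => (hne p).some, fun p => (hne p).some, ?_, ?_, ?_, ?_, ?_, ?_, ?_, ?_, ?_⟩ <;>
        intro p hp <;> exact absurd hp (notMem_empty p)
    | insert p0 s hp0 ih =>
      obtain ⟨i, j, a1, a2, a3, a4, a5, a6, a7, a8, a9⟩ := ih
      have hs : s.card + 1 ≤ Fintype.card π := by
        have e := card_le_univ (insert p0 s)
        rwa [card_insert_of_notMem hp0] at e
      have hB : (s.card + 1) * Fintype.card ι < B := by
        refine lt_of_le_of_lt (Nat.mul_le_mul_right _ ?_) h5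
        omega
      obtain ⟨a, b, hab, b1, b2, b3, b4, b5, b6, b7⟩ :=
        swp_step x c hx hc xp d Y1 Y2 Y3 A B h1 h3 h2 s p0 i j (by omega) hB
      have hne : ∀ p ∈ s, p ≠ p0 := fun p hp h => hp0 (h ▸ hp)
      have ia : Function.update i p0 a p0 = a := Function.update_self ..
      have jb : Function.update j p0 b p0 = b := Function.update_self ..
      have is : ∀ p ∈ s, Function.update i p0 a p = i p :=
        fun p hp => Function.update_of_ne (hne p hp) ..
      have js : ∀ p ∈ s, Function.update j p0 b p = j p :=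
        fun p hp => Function.update_of_ne (hne p hp) ..
      refine ⟨Function.update i p0 a, Function.update j p0 b, ?_, ?_, ?_, ?_, ?_, ?_, ?_, ?_, ?_⟩
      · intro p hp q hq h
        rcases mem_insert.1 hp with rfl | up <;> rcases mem_insert.1 hq with rfl | uq
        · rfl
        · rw [ia, is q uq] at h
          exact absurd h (b1 q uq).1
        · rw [ia, is p up] at h
          exact absurd h.symm (b1 p up).1
        · rw [is p up, is q uq] at h
          exact a1 p up q uq h
      · intro p hp q hq h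
        rcases mem_insert.1 hp with rfl | up <;> rcases mem_insert.1 hq with rfl | uq
        · rfl
        · rw [jb, js q uq] at h
          exact absurd h (b1 q uq).2.2.2
        · rw [jb, js p up] at h
          exact absurd h.symm (b1 p up).2.2.2
        · rw [js p up, js q uq] at h
          exact a2 p up q uq h
      · intro p hp q hq h
        rcases mem_insert.1 hp with rfl | up <;> rcases mem_insert.1 hq with rfl | uq
        · rw [ia, jb] at h
          exact hab h
        · rw [ia, js q uq] at h
          exact (b1 q uq).2.1 h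
        · rw [jb, is p up] at h
          exact (b1 p up).2.2.1 h.symm
        · rw [is p up, js q uq] at h
          exact a3 p up q uq h
      · intro p hp
        rcases mem_insert.1 hp with rfl | up
        · rw [ia]; exact b2
        · rw [is p up]; exact a4 p up
      · intro p hp
        rcases mem_insert.1 hp with rfl | up
        · rw [ia, jb]; exact b3
        · rw [is p up, js p up]; exact a5 p up
      · intro p hp
        rcases mem_insert.1 hp with rfl | up
        · rw [jb]; exact b4
        · rw [js p up]; exact a6 p up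
      · intro p hp q hq h
        rcases mem_insert.1 hp with rfl | up <;> rcases mem_insert.1 hq with rfl | uq
        · rfl
        · rw [ia, is q uq] at h
          exact absurd h (b5 q uq)
        · rw [ia, is p up] at h
          exact absurd h.symm (b5 p up)
        · rw [is p up, is q uq] at h
          exact a7 p up q uq h
      · intro p hp q hq h
        rcases mem_insert.1 hp with rfl | up <;> rcases mem_insert.1 hq with rfl | uq
        · rfl
        · rw [ia, jb, is q uq, js q uq] at h
          exact absurd h (b6 q uq)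
        · rw [ia, jb, is p up, js p up] at h
          exact absurd h.symm (b6 p up)
        · rw [is p up, is q uq, js p up, js q uq] at h
          exact a8 p up q uq h
      · intro p hp q hq h
        rcases mem_insert.1 hp with rfl | up <;> rcases mem_insert.1 hq with rfl | uq
        · rfl
        · rw [jb, js q uq] at h
          exact absurd h (b7 q uq)
        · rw [jb, js p up] at h
          exact absurd h.symm (b7 p up)
        · rw [js p up, js q uq] at h
          exact a9 p up q uq h
  obtain ⟨i, j, a1, a2, a3, a4, a5, a6, a7, a8, a9⟩ := main univ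
  exact ⟨i, j, fun p q h => a1 p (mem_univ _) q (mem_univ _) h,
    fun p q h => a2 p (mem_univ _) q (mem_univ _) h,
    fun p q => a3 p (mem_univ _) q (mem_univ _), fun p => a4 p (mem_univ _),
    fun p => a5 p (mem_univ _), fun p => a6 p (mem_univ _),
    fun p q h => a7 p (mem_univ _) q (mem_univ _) h,
    fun p q h => a8 p (mem_univ _) q (mem_univ _) h,
    fun p q h => a9 p (mem_univ _) q (mem_univ _) h⟩

end Pool.Agent.Lib.MP_c5b475_co.KN
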