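import Pool.Agent.Lib.MP_c5b475_co.KN.Cases
import Pool.Agent.Lib.MP_c5b475_co.KN.Lift
import Pool.Agent.Lib.MP_c5b475_co.Few.LAB
import Pool.Agent.Lib.MP_c5b475_co.Few.LDH

/-!
# KN/Top: all trees with `n` edges decompose `K_{n,n}`, `n` large
-/

set_option autoImplicit false

namespace Pool.Agent.Lib.MP_c5b475_co.KN

open Finset

/-- every non-leaf vertex has a child -/
theorem inner_children {U : Type} [Fintype U] [DecidableEq U] {T : SimpleGraph U} (t : RTr U)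
    (hT : t.IsFor T) :
    Nat.card {u // IsInner T u} ≤ (univ.filter fun w => (t.ch w).Nonempty).card := by
  classical
  rw [Nat.card_eq_fintype_card, Fintype.card_subtype]
  refine Finset.card_le_card fun u hu => ?_
  obtain ⟨v, w, h1, h2, h3⟩ := (Finset.mem_filter.1 hu).2
  refine Finset.mem_filter.2 ⟨Finset.mem_univ _, ?_⟩
  rcases (hT u v).1 h1 with ⟨_, h4⟩ | ⟨h4, h5⟩
  · rcases (hT u w).1 h2 with ⟨_, h6⟩ | ⟨h6, h7⟩
    · exact absurd (h4.symm.trans h6) h3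
    · exact ⟨w, Finset.mem_filter.2 ⟨Finset.mem_univ _, h6, h7⟩⟩
  · exact ⟨v, Finset.mem_filter.2 ⟨Finset.mem_univ _, h4, h5⟩⟩

/-- **Cyclic labellings.** -/
theorem top_cyclic (c : ℝ) (hc : 0 < c) : ∃ n₀ : ℕ, ∀ n : ℕ, n₀ ≤ n →
    ∀ T : SimpleGraph (Fin (n + 1)), T.IsTree → c * n ≤ (Nat.card {u // IsInner T u} : ℝ) →
      ∀ s : Fin (n + 1) → Bool, (∀ u v, T.Adj u v → s u ≠ s v) →
        ∃ f : Fin (n + 1) → ZMod n, (∀ u v, s u = s v → f u = f v → u = v) ∧
          ∀ u v u' v', T.Adj u v → T.Adj u' v' → f u + f v = f u' + f v' →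
            s(u, v) = s(u', v') := by
  obtain ⟨n1, h1⟩ := many_inner c hc
  refine ⟨max n1 1, fun n hn T hT hi s hs => ?_⟩
  have hn1 : n1 ≤ n := (le_max_left _ _).trans hn
  have hn2 : 1 ≤ n := (le_max_right _ _).trans hn
  have : NeZero n := ⟨by omega⟩
  obtain ⟨t, _, ht⟩ := exists_rtr hT 0
  obtain ⟨f, hf1, hf2⟩ := h1 n hn1 (Fin (n + 1)) t s (by rw [Fintype.card_fin])
    (fun w hw => hs w _ ((ht _ _).2 (Or.inl ⟨hw, rfl⟩)))
    (hi.trans (by exact_mod_cast inner_children t ht))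
  refine ⟨f, hf1, fun u v u' v' h2 h3 h4 => ?_⟩
  rcases (ht u v).1 h2 with ⟨g1, g2⟩ | ⟨g1, g2⟩ <;>
    rcases (ht u' v').1 h3 with ⟨g3, g4⟩ | ⟨g3, g4⟩
  · subst g2 g4
    rw [hf2 u u' g1 g3 h4]
  · subst g2 g4
    rw [hf2 u v' g1 g3 (h4.trans (add_comm _ _)), Sym2.eq_swap]
  · subst g2 g4
    rw [hf2 v u' g1 g3 ((add_comm _ _).trans h4), Sym2.eq_swap]
  · subst g2 g4
    rw [hf2 v v' g1 g3 ((add_comm _ _).trans (h4.trans (add_comm _ _)))]

/-- **All trees decompose `K_{n,n}`**, `n` large. -/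
theorem top : ∃ n₀ : ℕ, ∀ n : ℕ, n₀ ≤ n → ∀ T : SimpleGraph (Fin (n + 1)), T.IsTree →
    Decomposes T (completeBipartiteGraph (Fin n) (Fin n)) := by
  classical
  obtain ⟨n1, h1⟩ := many_inner (1 / 10 ^ 11) (by norm_num)
  refine ⟨max n1 (10 ^ 12), fun n hn T hT => ?_⟩
  have hn1 : n1 ≤ n := (le_max_left _ _).trans hn
  have hn2 : 10 ^ 12 ≤ n := (le_max_right _ _).trans hn
  have : NeZero n := ⟨by omega⟩
  by_cases hk : Nat.card {u // IsInner T u} ≤ n / 10 ^ 10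
  · -- few non-leaf vertices
    have hk1 : 1 ≤ n / 10 ^ 10 := by omega
    have hf : BlockFactor (completeBipartiteGraph (Fin n) (Fin n)) (fun μ => n ≤ μ) := by
      obtain ⟨B, μ, e, h2, h3, h4, h5⟩ := factor_blocks (by omega) le_rfl (complete_hasFactor n)
      exact ⟨B, μ, e, fun b => (h2 b).1, h3, h4, h5⟩
    exact all_linear_block hT hk1 hk (by omega) _ (complete_regular n) (m := n) (by omega) hf
  · obtain ⟨t, _, ht⟩ := exists_rtr hT 0
    have hsd : ∀ w, w ≠ t.root → (decide (t.dep w % 2 = 0)) ≠ (decide (t.dep (t.par w) % 2 = 0)) := by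
      intro w hw
      rw [t.dep_par w hw]
      intro h
      rw [decide_eq_decide] at h
      omega
    obtain ⟨f, hf1, hf2⟩ := h1 n hn1 (Fin (n + 1)) t (fun w => decide (t.dep w % 2 = 0))
      (by rw [Fintype.card_fin]) hsd (by
        have h2 : (n : ℝ) ≤ 10 ^ 11 * ((univ.filter fun w => (t.ch w).Nonempty).card : ℝ) := by
          have h3 := inner_children t ht
          have h4 : n ≤ 10 ^ 11 * (univ.filter fun w => (t.ch w).Nonempty).card := by omega
          exact_mod_cast h4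
        linarith)
    exact dec t ht (by rw [Fintype.card_fin]) _ hsd f hf1 hf2

end Pool.Agent.Lib.MP_c5b475_co.KN
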