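import Pool.Agent.Lib.MP_c5b475_co.KN.Host

/-!
# KN/ZDef: the sets Z1, D0, DD, ZZ of the cut lemma

`Z1` = root, `Z0`, heavy vertices which do not have exactly one heavy child, heavy vertices of weight
`om ≥ K0`. `D0` = heavy vertices outside `Z1` of depth `= j mod R`, except that a `dm` vertex of that
depth is replaced by its child. `DD` = all vertices with host in `D0`. `ZZ` = `Z1` and the ancestors of
`Z1`-vertices, at most `2R - 1` steps up, before the first `D0`-vertex.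

`z1_card`: `|{heavy, |hch| ≠ 1}| ≤ |leaves| + |branches| ≤ 2 |leaves|` (`brn`), leaves have
`om ≥ K0` (`om_leaf`), so `|Z1| ≤ 1 + |Z0| + |{om ≥ K0}| + |branches| ≤ 1 + |Z0| + 2 |{heavy, om ≥ K0}|`,
and `om_count`.
`exists_res`: `∑_{j<R} |DD j| ≤ 2 card W`, because `w ∈ DD j` implies that `j` is `dep h % R` or
`dep (par h) % R` with `h = host w`. So some `j < R` has `R |DD j| ≤ 2 card W`.
`d0_not_dm`: first alternative clear; in the second `dm (par w)` holds, and `dm w` would give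
`¬ dm (par w)` by `hdm`.
-/

set_option autoImplicit false

namespace Pool.Agent.Lib.MP_c5b475_co.KN

open Finset

namespace RTr

variable {W : Type} [Fintype W] [DecidableEq W]

open Classical in
/-- the basic cut vertices -/
noncomputable def Z1 (t : RTr W) (K0 : ℕ) (Z0 : Finset W) : Finset W :=
  {t.root} ∪ Z0 ∪ (univ.filter fun w => K0 ≤ t.sz w ∧ (t.hch K0 w).card ≠ 1) ∪
    (univ.filter fun w => K0 ≤ t.sz w ∧ K0 ≤ t.om K0 w)

open Classical in
/-- the closing vertices -/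
noncomputable def D0 (t : RTr W) (K0 R : ℕ) (dm : W → Prop) (Z0 : Finset W) (j : ℕ) : Finset W :=
  univ.filter fun w => K0 ≤ t.sz w ∧ w ∉ t.Z1 K0 Z0 ∧ ((t.dep w % R = j ∧ ¬ dm w) ∨
    (w ≠ t.root ∧ dm (t.par w) ∧ t.dep (t.par w) % R = j))

open Classical in
/-- the closing vertices and their light descendants -/
noncomputable def DD (t : RTr W) (K0 R : ℕ) (dm : W → Prop) (Z0 : Finset W) (j : ℕ) : Finset W :=
  univ.filter fun w => t.host K0 w ∈ t.D0 K0 R dm Z0 j

open Classical in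
/-- the cut vertices -/
noncomputable def ZZ (t : RTr W) (K0 R : ℕ) (dm : W → Prop) (Z0 : Finset W) (j : ℕ) : Finset W :=
  univ.filter fun w => ∃ z ∈ t.Z1 K0 Z0, ∃ i < 2 * R, t.par^[i] z = w ∧
    ∀ i' ≤ i, t.par^[i'] z ∉ t.D0 K0 R dm Z0 j

variable (t : RTr W) {K0 R j : ℕ} {dm : W → Prop} {Z0 : Finset W}

theorem z1_card (hN : K0 ≤ Fintype.card W) :
    K0 * (t.Z1 K0 Z0).card ≤ K0 * (1 + Z0.card) + 2 * Fintype.card W := by
  classical
  have hO := t.om_count K0
  have hB := t.brn hN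
  have hL : (univ.filter fun w => K0 ≤ t.sz w ∧ t.hch K0 w = ∅) ⊆
      (univ.filter fun w => K0 ≤ t.sz w ∧ K0 ≤ t.om K0 w) := by
    intro w hw
    simp only [mem_filter, mem_univ, true_and] at hw ⊢
    exact ⟨hw.1, t.om_leaf hw.1 hw.2⟩
  have hL' := Finset.card_le_card hL
  have hsub : t.Z1 K0 Z0 ⊆ {t.root} ∪ (Z0 ∪ ((univ.filter fun w => K0 ≤ t.sz w ∧
      2 ≤ (t.hch K0 w).card) ∪ (univ.filter fun w => K0 ≤ t.sz w ∧ K0 ≤ t.om K0 w))) := by
    intro w hw
    simp only [Z1, mem_union, mem_singleton, mem_filter, mem_univ, true_and] at hw ⊢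
    rcases hw with ((h | h) | h) | h
    · exact Or.inl h
    · exact Or.inr (Or.inl h)
    · rcases Nat.lt_or_ge (t.hch K0 w).card 2 with h2 | h2
      · have h0 : (t.hch K0 w).card = 0 := by
          have := h.2
          omega
        exact Or.inr (Or.inr (Or.inr ⟨h.1, t.om_leaf h.1 (Finset.card_eq_zero.mp h0)⟩))
      · exact Or.inr (Or.inr (Or.inl ⟨h.1, h2⟩))
    · exact Or.inr (Or.inr (Or.inr h))
  have h1 := Finset.card_le_card hsub
  have h2 := h1.trans ((Finset.card_union_le _ _).trans (Nat.add_le_add_left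
    ((Finset.card_union_le _ _).trans (Nat.add_le_add_left (Finset.card_union_le _ _) _)) _))
  rw [Finset.card_singleton] at h2
  set b := (univ.filter fun w => K0 ≤ t.sz w ∧ 2 ≤ (t.hch K0 w).card).card with hb
  set o := (univ.filter fun w => K0 ≤ t.sz w ∧ K0 ≤ t.om K0 w).card with ho
  have h3 : (t.Z1 K0 Z0).card ≤ 1 + Z0.card + 2 * o := by omega
  calc K0 * (t.Z1 K0 Z0).card ≤ K0 * (1 + Z0.card + 2 * o) := Nat.mul_le_mul_left _ h3
    _ = K0 * (1 + Z0.card) + 2 * (K0 * o) := by ring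
    _ ≤ K0 * (1 + Z0.card) + 2 * Fintype.card W := by omega

theorem z1_heavy (hN : K0 ≤ Fintype.card W) (hZ0 : ∀ z ∈ Z0, K0 ≤ t.sz z) :
    ∀ z ∈ t.Z1 K0 Z0, K0 ≤ t.sz z := by
  intro z hz
  simp only [Z1, mem_union, mem_singleton, mem_filter, mem_univ, true_and] at hz
  rcases hz with ((h | h) | h) | h
  · rw [h, t.sz_root]
    exact hN
  · exact hZ0 z h
  · exact h.1
  · exact h.1

/-- a heavy vertex outside `Z1` -/
theorem not_z1 {w : W} (h : K0 ≤ t.sz w) (hw : w ∉ t.Z1 K0 Z0) :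
    (t.hch K0 w).card = 1 ∧ t.om K0 w < K0 ∧ w ≠ t.root := by
  simp only [Z1, mem_union, mem_singleton, mem_filter, mem_univ, true_and, not_or, not_and] at hw
  obtain ⟨⟨⟨h1, h2⟩, h3⟩, h4⟩ := hw
  refine ⟨?_, ?_, h1⟩
  · by_contra hc
    exact h3 h hc
  · exact Nat.lt_of_not_ge (h4 h)

theorem exists_res (hR : 1 ≤ R) : ∃ j < R, R * (t.DD K0 R dm Z0 j).card ≤ 2 * Fintype.card W := by
  classical
  by_contra hcon
  push Not at hcon
  have hsum : ∑ j ∈ range R, (t.DD K0 R dm Z0 j).card ≤ 2 * Fintype.card W := by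
    have h1 : ∀ j, (t.DD K0 R dm Z0 j).card
        = ∑ w : W, if t.host K0 w ∈ t.D0 K0 R dm Z0 j then 1 else 0 := by
      intro j
      rw [DD, Finset.card_filter]
    rw [Finset.sum_congr rfl (fun j _ => h1 j), Finset.sum_comm]
    have h2 : ∀ w : W, (∑ j ∈ range R, if t.host K0 w ∈ t.D0 K0 R dm Z0 j then 1 else 0) ≤ 2 := by
      intro w
      rw [← Finset.card_filter]
      refine (Finset.card_le_card (t := {t.dep (t.host K0 w) % R,
        t.dep (t.par (t.host K0 w)) % R}) ?_).trans Finset.card_le_two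
      intro j hj
      simp only [D0, mem_filter, mem_univ, true_and, mem_insert, mem_singleton] at hj ⊢
      rcases hj.2.2.2 with h | h
      · exact Or.inl h.1.symm
      · exact Or.inr h.2.2.symm
    calc (∑ w : W, ∑ j ∈ range R, if t.host K0 w ∈ t.D0 K0 R dm Z0 j then 1 else 0)
        ≤ ∑ w : W, 2 := Finset.sum_le_sum fun w _ => h2 w
      _ = 2 * Fintype.card W := by
        rw [Finset.sum_const, smul_eq_mul, Finset.card_univ, mul_comm]
  have hlt : ∑ j ∈ range R, 2 * Fintype.card W < ∑ j ∈ range R, R * (t.DD K0 R dm Z0 j).card := by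
    refine Finset.sum_lt_sum_of_nonempty ⟨0, ?_⟩ fun j hj => hcon j (mem_range.mp hj)
    exact mem_range.mpr hR
  rw [Finset.sum_const, card_range, smul_eq_mul, ← Finset.mul_sum] at hlt
  exact absurd (Nat.mul_le_mul_left R hsum) (Nat.not_le.mpr hlt)

theorem d0_not_dm (hdm : ∀ w, w ≠ t.root → dm w → ¬ dm (t.par w)) {w : W}
    (hw : w ∈ t.D0 K0 R dm Z0 j) : ¬ dm w := by
  simp only [D0, mem_filter, mem_univ, true_and] at hw
  rcases hw.2.2 with h | h
  · exact h.2
  · intro hd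
    exact hdm w h.1 hd h.2.1

theorem zz_card : (t.ZZ K0 R dm Z0 j).card ≤ 2 * R * (t.Z1 K0 Z0).card := by
  classical
  have hsub : t.ZZ K0 R dm Z0 j ⊆
      ((range (2 * R)) ×ˢ (t.Z1 K0 Z0)).image fun q => t.par^[q.1] q.2 := by
    intro w hw
    simp only [ZZ, mem_filter, mem_univ, true_and] at hw
    obtain ⟨z, hz, i, hi, h, -⟩ := hw
    exact mem_image.mpr ⟨(i, z), mem_product.mpr ⟨mem_range.mpr hi, hz⟩, h⟩
  refine (Finset.card_le_card hsub).trans (Finset.card_image_le.trans ?_)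
  rw [Finset.card_product, card_range]

theorem z1_sub_zz (hR : 1 ≤ R) : t.Z1 K0 Z0 ⊆ t.ZZ K0 R dm Z0 j := by
  intro z hz
  simp only [ZZ, mem_filter, mem_univ, true_and]
  refine ⟨z, hz, 0, by omega, rfl, ?_⟩
  intro i' hi'
  obtain rfl : i' = 0 := by omega
  intro hd
  simp only [D0, mem_filter, mem_univ, true_and, Function.iterate_zero, id_eq] at hd
  exact hd.2.1 hz

theorem zz_heavy (hN : K0 ≤ Fintype.card W) (hZ0 : ∀ z ∈ Z0, K0 ≤ t.sz z) :
    ∀ z ∈ t.ZZ K0 R dm Z0 j, K0 ≤ t.sz z := by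
  intro w hw
  simp only [ZZ, mem_filter, mem_univ, true_and] at hw
  obtain ⟨z, hz, i, -, h, -⟩ := hw
  exact (t.z1_heavy hN hZ0 z hz).trans (t.sz_mono ⟨i, h⟩)

/-- `ZZ` and `DD` are disjoint: a heavy vertex is its own host. -/
theorem zz_disj (hN : K0 ≤ Fintype.card W) (hZ0 : ∀ z ∈ Z0, K0 ≤ t.sz z) :
    Disjoint (t.ZZ K0 R dm Z0 j) (t.DD K0 R dm Z0 j) := by
  rw [Finset.disjoint_left]
  intro w hw hd
  have hh := t.zz_heavy hN hZ0 w hw
  simp only [DD, mem_filter, mem_univ, true_and] at hd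
  rw [t.host_of_heavy hh] at hd
  simp only [ZZ, mem_filter, mem_univ, true_and] at hw
  obtain ⟨z, -, i, -, h, h'⟩ := hw
  have := h' i le_rfl
  rw [h] at this
  exact this hd

end RTr

end Pool.Agent.Lib.MP_c5b475_co.KN
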