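import Pool.Agent.Lib.MP_c5b475_co.KN.ZDef

/-!
# KN/ZWin: window lemma, children of uncut vertices

`win`: the depths of `par^[a] y`, `2 ≤ a ≤ R + 1`, are `R` consecutive numbers (`dep_iter`; the
vertices `par^[i] y`, `i < 2R`, are not the root), so some `x = par^[a] y` with `2 ≤ a ≤ R + 1 ≤ 2R` has
`dep x % R = j`. `x` is heavy. If `¬ dm x` then `x ∈ D0` or `x ∈ Z1`. If `dm x` then `y' = par^[a-1] y` is
heavy, not the root, `par y' = x`, so `y' ∈ D0` or `y' ∈ Z1`; `1 ≤ a - 1`.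

`zz_child`: let `w ∉ ZZ`, `w ∉ DD`, `c` a child of `w`, and suppose `c ∈ ZZ`: `c = par^[i] z`,
`z ∈ Z1`, `i < 2R`, no `par^[i'] z` (`i' ≤ i`) in `D0`. `w = par^[i+1] z` is heavy (ancestor of a heavy
vertex), so `w ∉ D0` (otherwise `host w = w ∈ D0`, `w ∈ DD`). If `i + 1 < 2R` then `w ∈ ZZ`. So
`i = 2R - 1`, `w = par^[2R] z`. `c ≠ root`, so no `par^[i'] z`, `i' < 2R`, is the root
(`iter_ne_root`). By `win` some `x = par^[a] z`, `1 ≤ a ≤ 2R`, is in `D0` or `Z1`; for `a < 2R` it is not in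
`D0` (hypothesis), for `a = 2R` it is `w ∉ D0`. So `x ∈ Z1`, and `w = par^[2R - a] x`, `2R - a < 2R`, with all
vertices on the way outside `D0`: `w ∈ ZZ`, contradiction.

`dd_child`: `d ∈ DD`. If `d` is light then every child `c` is light (`sz_mono`), `host c = host d`
(`host_of_light`), so `c ∈ DD`. If `d` is heavy then `d = host d ∈ D0`, so `d ∉ Z1` and `d` has exactly one
heavy child (`not_z1`); its light children have host `d`.
`dd_dm`: `dm d` implies `d ∉ D0` (`d0_not_dm`), so `d` is light and all its children are in `DD`.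
`dd_par`: if `d` is light then `host (par d) = host d ∈ D0`, so `par d ∈ DD`.
-/

set_option autoImplicit false

namespace Pool.Agent.Lib.MP_c5b475_co.KN

open Finset

namespace RTr

variable {W : Type} [Fintype W] [DecidableEq W]

variable (t : RTr W) {K0 R j : ℕ} {dm : W → Prop} {Z0 : Finset W}

private theorem ZWin_light (hN : K0 ≤ Fintype.card W) {d : W} (h : ¬ K0 ≤ t.sz d)
    (hd : d ∈ t.DD K0 R dm Z0 j) : t.ch d ⊆ t.DD K0 R dm Z0 j := by
  classical
  intro c hc
  obtain ⟨-, hc2⟩ := t.mem_ch.1 hc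
  have hl : ¬ K0 ≤ t.sz c := by
    intro h1
    have h2 := t.sz_mono (t.anc_par c)
    rw [hc2] at h2
    exact h (h1.trans h2)
  simp only [DD, mem_filter, mem_univ, true_and] at hd ⊢
  rw [t.host_of_light hN hl, hc2]
  exact hd

theorem win (hR : 2 ≤ R) (hj : j < R) {y : W} (hy : K0 ≤ t.sz y)
    (hr : ∀ i < 2 * R, t.par^[i] y ≠ t.root) :
    ∃ a, 1 ≤ a ∧ a ≤ 2 * R ∧
      (t.par^[a] y ∈ t.D0 K0 R dm Z0 j ∨ t.par^[a] y ∈ t.Z1 K0 Z0) := by
  classical
  have hdep : ∀ i ≤ 2 * R, t.dep y = t.dep (t.par^[i] y) + i := fun i hi =>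
    t.dep_iter y i fun i' hi' => hr i' (by omega)
  have hheavy : ∀ i, K0 ≤ t.sz (t.par^[i] y) := fun i => hy.trans (t.sz_mono ⟨i, rfl⟩)
  have h2R := hdep (2 * R) le_rfl
  set D := t.dep y with hD
  obtain ⟨a, ha⟩ : ∃ a, a = 2 + (D - 2 - j) % R := ⟨_, rfl⟩
  have hlt : (D - 2 - j) % R < R := Nat.mod_lt _ (by omega)
  have ha1 : 2 ≤ a := by omega
  have ha2 : a ≤ R + 1 := by omega
  have hmod : t.dep (t.par^[a] y) % R = j := by
    have h1 := hdep a (by omega)
    have h3 := Nat.div_add_mod (D - 2 - j) R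
    have h4 : t.dep (t.par^[a] y) = j + R * ((D - 2 - j) / R) := by omega
    rw [h4, Nat.add_mul_mod_self_left, Nat.mod_eq_of_lt hj]
  by_cases hdm : dm (t.par^[a] y)
  · have hpar : t.par (t.par^[a - 1] y) = t.par^[a] y := by
      rw [← Function.iterate_succ_apply' t.par (a - 1) y]
      congr 1
      congr 1
      omega
    refine ⟨a - 1, by omega, by omega, ?_⟩
    by_cases hz : t.par^[a - 1] y ∈ t.Z1 K0 Z0
    · exact Or.inr hz
    · refine Or.inl ?_
      simp only [D0, mem_filter, mem_univ, true_and]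
      refine ⟨hheavy _, hz, Or.inr ⟨hr (a - 1) (by omega), ?_, ?_⟩⟩
      · rw [hpar]
        exact hdm
      · rw [hpar]
        exact hmod
  · refine ⟨a, by omega, by omega, ?_⟩
    by_cases hz : t.par^[a] y ∈ t.Z1 K0 Z0
    · exact Or.inr hz
    · refine Or.inl ?_
      simp only [D0, mem_filter, mem_univ, true_and]
      exact ⟨hheavy _, hz, Or.inl ⟨hmod, hdm⟩⟩

theorem zz_child (hR : 2 ≤ R) (hj : j < R) (hN : K0 ≤ Fintype.card W)
    (hZ0 : ∀ z ∈ Z0, K0 ≤ t.sz z) {w : W} (hw : w ∉ t.ZZ K0 R dm Z0 j)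
    (hw' : w ∉ t.DD K0 R dm Z0 j) : ∀ c ∈ t.ch w, c ∉ t.ZZ K0 R dm Z0 j := by
  classical
  intro c hc hcz
  obtain ⟨hc1, hc2⟩ := t.mem_ch.1 hc
  simp only [ZZ, mem_filter, mem_univ, true_and] at hcz
  obtain ⟨z, hz, i, hi, hic, hd⟩ := hcz
  have hzh := t.z1_heavy hN hZ0 z hz
  have hiw : t.par^[i + 1] z = w := by
    rw [Function.iterate_succ_apply', hic, hc2]
  have hwh : K0 ≤ t.sz w := hzh.trans (t.sz_mono ⟨i + 1, hiw⟩)
  have hwD : w ∉ t.D0 K0 R dm Z0 j := by
    intro h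
    apply hw'
    simp only [DD, mem_filter, mem_univ, true_and]
    rw [t.host_of_heavy hwh]
    exact h
  have hd' : ∀ i' ≤ i + 1, t.par^[i'] z ∉ t.D0 K0 R dm Z0 j := by
    intro i' hi'
    rcases Nat.lt_or_ge i' (i + 1) with h | h
    · exact hd i' (by omega)
    · obtain rfl : i' = i + 1 := by omega
      rw [hiw]
      exact hwD
  rcases Nat.lt_or_ge (i + 1) (2 * R) with h | h
  · apply hw
    simp only [ZZ, mem_filter, mem_univ, true_and]
    exact ⟨z, hz, i + 1, h, hiw, hd'⟩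
  · have hi2 : i + 1 = 2 * R := by omega
    have hr : ∀ i' < 2 * R, t.par^[i'] z ≠ t.root := by
      intro i' hi'
      refine t.iter_ne_root (i := i) ?_ i' (by omega)
      rw [hic]
      exact hc1
    obtain ⟨a, ha1, ha2, ha3⟩ := t.win (dm := dm) (Z0 := Z0) hR hj hzh hr
    rcases ha3 with h3 | h3
    · exact hd' a (by omega) h3
    · apply hw
      simp only [ZZ, mem_filter, mem_univ, true_and]
      refine ⟨t.par^[a] z, h3, 2 * R - a, by omega, ?_, ?_⟩
      · rw [← Function.iterate_add_apply]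
        have h4 : 2 * R - a + a = i + 1 := by omega
        rw [h4]
        exact hiw
      · intro i' hi'
        rw [← Function.iterate_add_apply]
        exact hd' (i' + a) (by omega)

open Classical in
theorem dd_child (hN : K0 ≤ Fintype.card W) {d : W} (hd : d ∈ t.DD K0 R dm Z0 j) :
    ((t.ch d).filter fun c => c ∉ t.DD K0 R dm Z0 j).card ≤ 1 := by
  by_cases h : K0 ≤ t.sz d
  · have hd' : d ∈ t.D0 K0 R dm Z0 j := by
      have h1 := hd
      simp only [DD, mem_filter, mem_univ, true_and] at h1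
      rw [t.host_of_heavy h] at h1
      exact h1
    have hz : d ∉ t.Z1 K0 Z0 := by
      have h1 := hd'
      simp only [D0, mem_filter, mem_univ, true_and] at h1
      exact h1.2.1
    obtain ⟨h1, -, -⟩ := t.not_z1 h hz
    rw [← h1]
    refine card_le_card fun c hc => ?_
    rw [mem_filter] at hc
    unfold hch
    rw [mem_filter]
    refine ⟨hc.1, ?_⟩
    by_contra hl
    apply hc.2
    simp only [DD, mem_filter, mem_univ, true_and]
    rw [t.host_of_light hN hl, (t.mem_ch.1 hc.1).2, t.host_of_heavy h]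
    exact hd'
  · have h1 := ZWin_light t hN h hd
    rw [filter_false_of_mem fun c hc hc' => hc' (h1 hc)]
    simp

theorem dd_dm (hN : K0 ≤ Fintype.card W) (hdm : ∀ w, w ≠ t.root → dm w → ¬ dm (t.par w)) {d : W}
    (hd : d ∈ t.DD K0 R dm Z0 j) (h : dm d) : t.ch d ⊆ t.DD K0 R dm Z0 j := by
  refine ZWin_light t hN ?_ hd
  intro hh
  have h1 := hd
  simp only [DD, mem_filter, mem_univ, true_and] at h1
  rw [t.host_of_heavy hh] at h1
  exact t.d0_not_dm hdm h1 h

theorem dd_par (hN : K0 ≤ Fintype.card W) {d : W} (hd : d ∈ t.DD K0 R dm Z0 j)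
    (h : t.par d ∉ t.DD K0 R dm Z0 j) : K0 ≤ t.sz d := by
  by_contra hl
  apply h
  simp only [DD, mem_filter, mem_univ, true_and] at hd ⊢
  rw [← t.host_of_light hN hl]
  exact hd

end RTr

end Pool.Agent.Lib.MP_c5b475_co.KN
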